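import Pool.Agent.H.MP_694475_co.StA2

/-! Step A5: the Walsh values of `e` are divisible by 16. -/

open Finset

namespace Pool.Agent.H.MP_694475_co

theorem sta5_coef_par (I : V → ℤ) (K : Finset (Fin 9)) :
    coef K (par I) = ((csum K I : ℤ) : ZMod 2) := by
  unfold coef csum par
  push_cast
  rfl

theorem sta5_const (g : V → ZMod 2) (h : ∀ K : Finset (Fin 9), 1 ≤ K.card → coef K g = 0)
    (a : V) : g a = coef ∅ g := by
  rw [anf g a, Finset.sum_eq_single ∅]
  · simp [mon]
  · intro K _ hK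
    rw [h K (Finset.card_pos.2 (Finset.nonempty_iff_ne_empty.2 hK)), zero_mul]
  · simp

/-- integer value of a bit -/
def sta5_bit (b : ZMod 2) : ℤ := if b = 0 then 0 else 1

theorem sta5_bit_cast (b : ZMod 2) : ((sta5_bit b : ℤ) : ZMod 2) = b := by
  revert b; decide

theorem sta5_sgn_bit (b : ZMod 2) : sgn b = 1 - 2 * sta5_bit b := by
  revert b; decide

theorem sta5_coef_zero (I : V → ℤ) (g : V → ZMod 2) (hg : ∀ a, 4 ∣ I a - sgn (g a))
    (K : Finset (Fin 9)) (hK : 2 ≤ K.card) (hI : 4 ∣ csum K I) : coef K g = 0 := by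
  have h1 : 4 ∣ csum K I - csum K (fun a => sgn (g a)) := by
    unfold csum
    rw [← Finset.sum_sub_distrib]
    exact Finset.dvd_sum fun a _ => hg a
  have h2 : 4 ∣ csum K (fun a => sgn (g a)) := (dvd_sub_right hI).1 h1
  have h3 : csum K (fun a => sgn (g a)) = 2 ^ K.card - 2 * csum K (fun a => sta5_bit (g a)) := by
    unfold csum
    simp_rw [sta5_sgn_bit]
    rw [Finset.sum_sub_distrib, ← Finset.mul_sum, Finset.sum_const, card_cube]
    simp
  have h4 : (4 : ℤ) ∣ 2 ^ K.card := by
    have : (2 : ℤ) ^ 2 ∣ 2 ^ K.card := pow_dvd_pow 2 hK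
    norm_num at this
    exact this
  rw [h3] at h2
  have h5 : (4 : ℤ) ∣ 2 * csum K (fun a => sta5_bit (g a)) := (dvd_sub_right h4).1 h2
  have h6 : (2 : ℤ) ∣ csum K (fun a => sta5_bit (g a)) := by omega
  have h7 : coef K g = ((csum K (fun a => sta5_bit (g a)) : ℤ) : ZMod 2) := by
    unfold coef csum
    push_cast
    exact Finset.sum_congr rfl fun a _ => (sta5_bit_cast (g a)).symm
  rw [h7]
  exact (ZMod.intCast_zmod_eq_zero_iff_dvd _ 2).2 (by exact_mod_cast h6)

theorem sta5_abs (m : ℤ) : |1 + 4 * m| ≤ 1 + m + 3 * m ^ 2 := by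
  rw [abs_le]
  constructor
  · rcases lt_trichotomy m 0 with h | h | h
    · nlinarith
    · subst h; norm_num
    · nlinarith
  · rcases lt_trichotomy m 0 with h | h | h
    · nlinarith
    · subst h; norm_num
    · nlinarith

theorem sta5_abs3 (m : ℤ) : 3 * |1 + 4 * m| ≤ 1 + m + 3 * m ^ 2 + 12 := by
  rcases le_or_gt 0 m with h | h
  · rw [abs_of_nonneg (by linarith)]
    rcases le_or_gt m 1 with h1 | h1
    · nlinarith
    · rcases le_or_gt m 2 with h2 | h2
      · have : m = 2 := by omega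
        subst this; norm_num
      · nlinarith
  · rw [abs_of_neg (by linarith)]
    rcases le_or_gt (-1) m with h1 | h1
    · have : m = -1 := by omega
      subst this; norm_num
    · rcases le_or_gt (-2) m with h2 | h2
      · have : m = -2 := by omega
        subst this; norm_num
      · nlinarith

theorem stepA5 {J Ft : V → ℤ} {e : V → ZMod 2} {s : V → ℤ} (h : St J Ft e s) :
    ∃ I : V → ℤ, ∀ x, WT (chi e) x = 16 * I x := by
  have hd := fun x => WT_chi_dvd h.deg x
  choose I hI using hd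
  have hcs : ∀ K, csum K (WT (chi e)) = 8 * csum K I := by
    intro K
    unfold csum
    rw [Finset.mul_sum]
    exact Finset.sum_congr rfl fun a _ => hI a
  have hpars : ∑ x, I x ^ 2 = 4096 := by
    have h1 := WT_inner (chi e) (chi e)
    have h2 : ∑ a, chi e a * chi e a = 512 := by
      have : ∀ a, chi e a * chi e a = 1 := fun a => sgn_mul_self (e a)
      simp_rw [this]
      simp [Fintype.card_pi]
    rw [h2] at h1
    have h3 : ∑ x, WT (chi e) x * WT (chi e) x = 64 * ∑ x, I x ^ 2 := by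
      rw [Finset.mul_sum]
      refine Finset.sum_congr rfl fun x _ => ?_
      rw [hI x]; ring
    rw [h3] at h1
    linarith
  have hc1 : ∀ K : Finset (Fin 9), 1 ≤ K.card → coef K (par I) = 0 := by
    intro K hK
    have h1 := csum_WT_dvd1 h.deg K hK
    rw [hcs K] at h1
    have h2 : (2 : ℤ) ∣ csum K I := by omega
    rw [sta5_coef_par]
    exact (ZMod.intCast_zmod_eq_zero_iff_dvd _ 2).2 (by exact_mod_cast h2)
  have hconst := sta5_const (par I) hc1
  rcases zmod2_cases (coef ∅ (par I)) with hz | hz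
  · -- all even
    have hev : ∀ a, 2 ∣ I a := fun a => (par_eq_zero I a).1 (by rw [hconst a, hz])
    choose I' hI' using hev
    exact ⟨I', fun x => by rw [hI x, hI' x]; ring⟩
  exfalso
  have hodd : ∀ a, Odd (I a) := fun a => (par_ne_zero I a).1 (by rw [hconst a, hz]; decide)
  have hsg : ∀ a, 4 ∣ I a - sgn (sg4 (I a)) := fun a => sg4_spec (hodd a)
  have hdeg : DegLT 2 (fun a => sg4 (I a)) := by
    apply DegLT_of_coef
    intro K hK
    apply sta5_coef_zero I (fun a => sg4 (I a)) hsg K hK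
    have h1 := csum_WT_dvd2 h.deg K hK
    rw [hcs K] at h1
    omega
  obtain ⟨i0, b, hib⟩ := affine_of_DegLT_two _ hdeg
  have hm : ∀ a, ∃ m : ℤ, sgn (i0 + dot b a) * I a = 1 + 4 * m := by
    intro a
    obtain ⟨q, hq⟩ := hsg a
    have h1 : sg4 (I a) = i0 + dot b a := hib a
    rw [h1] at hq
    refine ⟨sgn (i0 + dot b a) * q, ?_⟩
    have h2 : I a = sgn (i0 + dot b a) + 4 * q := by linarith
    rw [h2, mul_add, sgn_mul_self]; ring
  choose m hm using hm
  have hIm : ∀ a, |I a| = |1 + 4 * m a| := by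
    intro a
    rw [← hm a, abs_mul]
    rcases sgn_eq_or (i0 + dot b a) with h1 | h1 <;> rw [h1] <;> simp
  have hcard : ∑ _a : V, (1 : ℤ) = 512 := by simp [Fintype.card_pi]
  have hsum : 8 * (512 + 4 * ∑ a, m a) = sgn i0 * (512 * chi e b) := by
    rw [← WT_WT (chi e) b]
    have h1 : WT (WT (chi e)) b = ∑ a, 8 * I a * sgn (dot b a) := by
      conv_lhs => unfold WT
      refine Finset.sum_congr rfl fun a _ => ?_
      rw [dot_comm a b, ← hI a]
      rfl
    rw [h1, Finset.mul_sum (f := fun a => 8 * I a * sgn (dot b a))]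
    have h2 : ∀ a, sgn i0 * (8 * I a * sgn (dot b a)) = 8 * (1 + 4 * m a) := by
      intro a
      rw [← hm a, sgn_add]; ring
    simp_rw [h2]
    rw [← Finset.mul_sum, Finset.sum_add_distrib, hcard, ← Finset.mul_sum]
  have hsq : 512 + 8 * ∑ a, m a + 16 * ∑ a, m a ^ 2 = 4096 := by
    rw [← hpars, ← hcard, Finset.mul_sum, Finset.mul_sum, ← Finset.sum_add_distrib,
      ← Finset.sum_add_distrib]
    refine Finset.sum_congr rfl fun a _ => ?_
    have h1 : I a ^ 2 = (1 + 4 * m a) ^ 2 := by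
      rw [← sq_abs (I a), hIm a, sq_abs]
    rw [h1]; ring
  have hbd : ∀ x, Ft x * WT (chi e) x ≤ 8 * (1 + m x + 3 * m x ^ 2 + if x = 0 then 12 else 0) := by
    intro x
    rw [hI x]
    have hle : Ft x * (8 * I x) ≤ 8 * (|Ft x| * |I x|) := by
      rw [← abs_mul]
      have := le_abs_self (Ft x * I x)
      linarith
    have ha := sta5_abs (m x)
    have ha3 := sta5_abs3 (m x)
    rw [hIm x] at hle
    by_cases hx : x = 0
    · subst hx
      rw [if_pos rfl]
      have hF : |Ft 0| ≤ 3 := by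
        rcases h.Ft0 with ⟨h1 | h1, _⟩ | ⟨h1, _⟩ <;> rw [h1] <;> norm_num
      have h0 := mul_le_mul_of_nonneg_right hF (abs_nonneg (1 + 4 * m 0))
      linarith
    · rw [if_neg hx]
      have hF : |Ft x| = 1 := by
        rcases h.Ft1 x hx with h1 | h1 <;> rw [h1] <;> norm_num
      rw [hF] at hle
      linarith
  have htot := Finset.sum_le_sum (fun x (_ : x ∈ (univ : Finset V)) => hbd x)
  rw [h.sum_mul, ← Finset.mul_sum, Finset.sum_add_distrib, Finset.sum_add_distrib,
    Finset.sum_add_distrib, ← Finset.mul_sum, hcard, Finset.sum_ite_eq' univ (0 : V)] at htot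
  simp only [Finset.mem_univ, if_true] at htot
  have hs : ∑ a, s a ≤ 64 := by
    rcases h.Ft0 with ⟨_, h1⟩ | ⟨_, h1⟩ <;> omega
  have hpm : sgn i0 * (512 * chi e b) = 512 ∨ sgn i0 * (512 * chi e b) = -512 := by
    rcases sgn_eq_or i0 with h1 | h1 <;> rcases sgn_eq_or (e b) with h2 | h2 <;>
      simp [chi, h1, h2]
  rcases hpm with hp | hp <;> omega

end Pool.Agent.H.MP_694475_co
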