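import Pool.Agent.H.MP_694475_co.StA2

/-! Step A6: the values `I = WT (chi e) / 16` are `±1, ±3`. -/

open Finset

namespace Pool.Agent.H.MP_694475_co

private theorem sta6_parity {e : V → ZMod 2} (he : DegLT 4 e) (I : V → ℤ)
    (hI : ∀ x, WT (chi e) x = 16 * I x) : DegLT 2 (par I) := by
  apply DegLT_of_coef
  intro K hK
  have h1 := csum_WT_dvd2 he K hK
  unfold csum at h1
  simp_rw [hI] at h1
  rw [← Finset.mul_sum] at h1
  have h2 : (2 : ℤ) ∣ ∑ x ∈ cube K, I x := by omega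
  unfold coef par
  have h3 := (ZMod.intCast_zmod_eq_zero_iff_dvd (∑ x ∈ cube K, I x) 2).mpr (by exact_mod_cast h2)
  rw [← h3]
  push_cast
  rfl

private theorem sta6_parseval {e : V → ZMod 2} (I : V → ℤ)
    (hI : ∀ x, WT (chi e) x = 16 * I x) : ∑ x, |I x| ^ 2 = 1024 := by
  have h1 := WT_inner (chi e) (chi e)
  simp_rw [hI] at h1
  have h2 : ∑ a, chi e a * chi e a = 512 := by
    unfold chi
    simp_rw [sgn_mul_self]
    simp
  rw [h2] at h1
  have h3 : ∑ x, 16 * I x * (16 * I x) = 256 * ∑ x, |I x| ^ 2 := by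
    rw [Finset.mul_sum]
    refine Finset.sum_congr rfl fun x _ => ?_
    rw [sq_abs]; ring
  rw [h3] at h1
  omega

/-- the balanced count for an affine function -/
private theorem sta6_balance (b : V) (hb : b ≠ 0) : ∑ x, sgn (dot b x) = 0 := by
  have h := sum_sgn_dot b
  rw [if_neg hb] at h
  rw [← h]
  refine Finset.sum_congr rfl fun x _ => ?_
  rw [dot_comm]

private theorem sta6_sgn_cases (n : ℤ) :
    (sgn (n : ZMod 2) = 1 ∧ ∃ k : ℤ, |n| = 2 * k ∧ 0 ≤ k) ∨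
      (sgn (n : ZMod 2) = -1 ∧ ∃ k : ℤ, |n| = 2 * k + 1 ∧ 0 ≤ k) := by
  have habs := abs_nonneg n
  have h1 : |n| % 2 = n % 2 := by
    rcases abs_choice n with h | h <;> rw [h]
    omega
  rcases Int.emod_two_eq_zero_or_one n with h | h
  · left
    refine ⟨?_, |n| / 2, by omega, by omega⟩
    have h2 : (n : ZMod 2) = 0 := by
      have := (ZMod.intCast_zmod_eq_zero_iff_dvd n 2).mpr (by exact_mod_cast Int.dvd_of_emod_eq_zero h)
      exact this
    rw [h2]; simp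
  · right
    refine ⟨?_, |n| / 2, by omega, by omega⟩
    have h2 : (n : ZMod 2) = 1 := by
      have h3 : n = 2 * (n / 2) + 1 := by omega
      rw [h3]
      push_cast
      have h20 : (2 : ZMod 2) = 0 := by decide
      rw [h20]; simp
    rw [h2]; simp

private theorem sta6_pt1 (n : ℤ) :
    8 * |n| ≤ (3 + sgn (n : ZMod 2)) * |n| ^ 2 + 3 * (1 - sgn (n : ZMod 2)) := by
  rcases sta6_sgn_cases n with ⟨h, k, hk, hk0⟩ | ⟨h, k, hk, hk0⟩
  · rw [h, hk]
    rcases eq_or_lt_of_le hk0 with h0 | h0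
    · subst h0; norm_num
    · nlinarith
  · rw [h, hk]
    rcases eq_or_lt_of_le hk0 with h0 | h0
    · subst h0; norm_num
    · nlinarith

private theorem sta6_pt2 (n : ℤ) : 0 ≤ (1 - sgn (n : ZMod 2)) * (|n| ^ 2 - 1) := by
  rcases sta6_sgn_cases n with ⟨h, k, hk, hk0⟩ | ⟨h, k, hk, hk0⟩
  · rw [h]; simp
  · rw [h, hk]; nlinarith

private theorem sta6_pt3 (n : ℤ) :
    24 * |n| ≤ (3 + sgn (n : ZMod 2)) * |n| ^ 2 + 3 * (1 - sgn (n : ZMod 2)) + 66 := by
  rcases sta6_sgn_cases n with ⟨h, k, hk, hk0⟩ | ⟨h, k, hk, hk0⟩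
  · rw [h]; nlinarith [sq_nonneg (|n| - 3)]
  · rw [h]; nlinarith [sq_nonneg (|n| - 6)]

private theorem sta6_pt4 (n : ℤ) (h : sgn (n : ZMod 2) = -1)
    (he : 8 * |n| = (3 + sgn (n : ZMod 2)) * |n| ^ 2 + 3 * (1 - sgn (n : ZMod 2))) :
    |n| = 1 ∨ |n| = 3 := by
  rw [h] at he
  have h1 : (|n| - 1) * (|n| - 3) = 0 := by nlinarith
  rcases mul_eq_zero.mp h1 with h2 | h2
  · left; linarith
  · right; linarith

private theorem sta6_Ftle {f n : ℤ} (h : f = 1 ∨ f = -1) : f * n ≤ |n| := by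
  rcases h with h | h <;> rw [h]
  · rw [one_mul]; exact le_abs_self n
  · rw [neg_one_mul]; exact neg_le_abs n

theorem stepA6 {J Ft : V → ℤ} {e : V → ZMod 2} {s : V → ℤ} (h : St J Ft e s)
    (I : V → ℤ) (hI : ∀ x, WT (chi e) x = 16 * I x) :
    (Ft 0 = 1 ∨ Ft 0 = -1) ∧ ∀ x, (|I x| = 1 ∨ |I x| = 3) ∧ Ft x * I x = |I x| := by
  -- the sum of Ft * I
  have hsum : ∑ x, Ft x * I x = 768 - 2 * ∑ a, s a := by
    have h1 := h.sum_mul
    simp_rw [hI] at h1
    have h2 : ∑ x, Ft x * (16 * I x) = 16 * ∑ x, Ft x * I x := by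
      rw [Finset.mul_sum]
      exact Finset.sum_congr rfl fun x _ => by ring
    rw [h2] at h1
    omega
  have hpars := sta6_parseval I hI
  -- the weights
  set θ : V → ℤ := fun x => sgn ((I x : ZMod 2)) with hθ
  set T : ℤ := ∑ x, θ x * |I x| ^ 2 with hT
  set U : ℤ := ∑ x, θ x with hU
  have hB : ∑ x, ((3 + θ x) * |I x| ^ 2 + 3 * (1 - θ x)) = 4608 + T - 3 * U := by
    have h1 : ∀ x, (3 + θ x) * |I x| ^ 2 + 3 * (1 - θ x)
        = 3 * |I x| ^ 2 + θ x * |I x| ^ 2 + 3 - 3 * θ x := fun x => by ring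
    simp_rw [h1]
    rw [Finset.sum_sub_distrib, Finset.sum_add_distrib, Finset.sum_add_distrib, ← Finset.mul_sum,
      ← Finset.mul_sum, hpars, ← hT, ← hU]
    simp
    ring
  have hA : 8 * ∑ x, |I x| ≤ 4608 + T - 3 * U := by
    rw [← hB, Finset.mul_sum]
    exact Finset.sum_le_sum fun x _ => sta6_pt1 (I x)
  have hTU : T ≤ 512 + U := by
    have h1 : 0 ≤ ∑ x, (1 - θ x) * (|I x| ^ 2 - 1) :=
      Finset.sum_nonneg fun x _ => sta6_pt2 (I x)
    have h2 : ∀ x, (1 - θ x) * (|I x| ^ 2 - 1) = |I x| ^ 2 - θ x * |I x| ^ 2 - 1 + θ x :=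
      fun x => by ring
    simp_rw [h2] at h1
    rw [Finset.sum_add_distrib, Finset.sum_sub_distrib, Finset.sum_sub_distrib, hpars, ← hT,
      ← hU] at h1
    simp at h1
    linarith
  have hC : 8 * ∑ x, |I x| + 16 * |I 0| ≤ 4608 + T - 3 * U + 66 := by
    rw [← hB, Finset.mul_sum]
    have h1 : ∀ F : V → ℤ, ∑ x, F x = F 0 + ∑ x ∈ univ.erase (0 : V), F x := fun F =>
      (Finset.add_sum_erase univ F (Finset.mem_univ 0)).symm
    rw [h1 (fun x => 8 * |I x|), h1 (fun x => (3 + θ x) * |I x| ^ 2 + 3 * (1 - θ x))]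
    have h2 : ∑ x ∈ univ.erase (0 : V), 8 * |I x|
        ≤ ∑ x ∈ univ.erase (0 : V), ((3 + θ x) * |I x| ^ 2 + 3 * (1 - θ x)) :=
      Finset.sum_le_sum fun x _ => sta6_pt1 (I x)
    have h3 : 24 * |I 0| ≤ (3 + θ 0) * |I 0| ^ 2 + 3 * (1 - θ 0) + 66 := sta6_pt3 (I 0)
    linarith
  -- parity
  obtain ⟨c, p, hcp⟩ := affine_of_DegLT_two (par I) (sta6_parity h.deg I hI)
  have hθcp : ∀ x, θ x = sgn c * sgn (dot p x) := by
    intro x
    have h1 : ((I x : ZMod 2)) = c + dot p x := hcp x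
    show sgn ((I x : ZMod 2)) = _
    rw [h1, sgn_add]
  have hUT : (U = 0 ∧ p ≠ 0) ∨ (U = 512 ∧ T = 1024) ∨
      (U = -512 ∧ T = -1024 ∧ ∀ x, θ x = -1) := by
    by_cases hp : p = 0
    · right
      have h1 : ∀ x, θ x = sgn c := by
        intro x; rw [hθcp, hp]; simp
      rcases sgn_eq_or c with hc | hc
      · left
        constructor
        · rw [hU]; simp_rw [h1, hc]; simp
        · rw [hT]; simp_rw [h1, hc]; simpa using hpars
      · right
        refine ⟨?_, ?_, fun x => by rw [h1, hc]⟩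
        · rw [hU]; simp_rw [h1, hc]; simp
        · rw [hT]; simp_rw [h1, hc]
          rw [← Finset.mul_sum, hpars]; norm_num
    · left
      refine ⟨?_, hp⟩
      rw [hU]; simp_rw [hθcp]
      rw [← Finset.mul_sum, sta6_balance p hp, mul_zero]
  rcases h.Ft0 with ⟨h0, hs64⟩ | ⟨h0, hs56⟩
  · refine ⟨h0, ?_⟩
    rw [hs64] at hsum
    have hFt : ∀ x, Ft x = 1 ∨ Ft x = -1 := by
      intro x
      by_cases hx : x = 0
      · rw [hx]; exact h0
      · exact h.Ft1 x hx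
    have hle : ∑ x, Ft x * I x ≤ ∑ x, |I x| :=
      Finset.sum_le_sum fun x _ => sta6_Ftle (hFt x)
    rcases hUT with ⟨hU0, hp⟩ | ⟨hU1, hT1⟩ | ⟨hU1, hT1, hθ1⟩
    · exfalso
      have hT512 : T = 512 := by omega
      have h1 := WT_autocorr (chi e) p
      simp_rw [hI] at h1
      have h2 : ∑ x, (16 * I x) ^ 2 * sgn (dot p x) = 256 * (sgn c * T) := by
        rw [hT, Finset.mul_sum, Finset.mul_sum]
        refine Finset.sum_congr rfl fun x _ => ?_
        rw [hθcp, sq_abs]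
        have h3 : sgn c * (sgn c * sgn (dot p x) * I x ^ 2)
            = (sgn c * sgn c) * (sgn (dot p x) * I x ^ 2) := by ring
        rw [h3, sgn_mul_self]; ring
      rw [h2, hT512] at h1
      have h4 := h.corr_bound h0 p hp
      rw [abs_lt] at h4
      rcases sgn_eq_or c with hc | hc <;> rw [hc] at h1 <;> omega
    · exfalso; omega
    · have hSum : ∑ x, |I x| = 640 := by omega
      have hEq1 : ∑ x, Ft x * I x = ∑ x, |I x| := by omega
      have hEq2 : ∑ x, 8 * |I x| = ∑ x, ((3 + θ x) * |I x| ^ 2 + 3 * (1 - θ x)) := by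
        rw [hB, ← Finset.mul_sum, hSum, hU1, hT1]; norm_num
      have e1 := (Finset.sum_eq_sum_iff_of_le (fun x _ => sta6_Ftle (n := I x) (hFt x))).mp hEq1
      have e2 := (Finset.sum_eq_sum_iff_of_le (fun x _ => sta6_pt1 (I x))).mp hEq2
      intro x
      refine ⟨?_, e1 x (Finset.mem_univ x)⟩
      exact sta6_pt4 (I x) (hθ1 x) (e2 x (Finset.mem_univ x))
  · exfalso
    rw [hs56] at hsum
    have hle : ∑ x, Ft x * I x ≤ ∑ x, |I x| + 2 * |I 0| := by
      have h1 : ∀ F : V → ℤ, ∑ x, F x = F 0 + ∑ x ∈ univ.erase (0 : V), F x := fun F =>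
        (Finset.add_sum_erase univ F (Finset.mem_univ 0)).symm
      rw [h1 (fun x => Ft x * I x), h1 (fun x => |I x|)]
      have h2 : ∑ x ∈ univ.erase (0 : V), Ft x * I x ≤ ∑ x ∈ univ.erase (0 : V), |I x| :=
        Finset.sum_le_sum fun x hx => sta6_Ftle (h.Ft1 x (Finset.ne_of_mem_erase hx))
      have h3 : Ft 0 * I 0 ≤ 3 * |I 0| := by
        rw [h0]
        have := neg_le_abs (I 0)
        linarith
      linarith
    rcases hUT with ⟨hU0, hp⟩ | ⟨hU1, hT1⟩ | ⟨hU1, hT1, hθ1⟩ <;> omega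

end Pool.Agent.H.MP_694475_co
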