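import Pool.Agent.H.MP_694475_co.Mce

/-! Dual pairs of cubic functions. -/

open Finset

namespace Pool.Agent.H.MP_694475_co

structure Pair (e d : V → ZMod 2) : Prop where
  he : DegLT 4 e
  hd : DegLT 4 d
  h1 : ∀ x, WT (chi e) x = 16 * sgn (d x) ∨ WT (chi e) x = -48 * sgn (d x)
  h2 : ∀ a, WT (chi d) a = 16 * sgn (e a) ∨ WT (chi d) a = -48 * sgn (e a)

/-- linear combination -/
def lin (b : Fin 9 → V) (a : V) : V := ∑ i, a i • b i

/-- dual bases -/
def IsDual (b c : Fin 9 → V) : Prop := ∀ i j, dot (c i) (b j) = if i = j then 1 else 0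

theorem Pair.symm {e d : V → ZMod 2} (h : Pair e d) : Pair d e :=
  ⟨h.hd, h.he, h.h2, h.h1⟩

theorem Pair.shift {e d : V → ZMod 2} (h : Pair e d) (u : V) :
    Pair (fun a => e (a + u)) (fun x => d x + dot u x) := by
  refine ⟨h.he.shift u, h.hd.add (DegLT_dot u).succ.succ, ?_, ?_⟩
  · intro x
    have h1 : WT (chi (fun a => e (a + u))) x = sgn (dot u x) * WT (chi e) x :=
      WT_shift (chi e) u x
    rw [h1, sgn_add]
    rcases h.h1 x with h2 | h2
    · left; rw [h2]; ring
    · right; rw [h2]; ring
  · intro a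
    have h1 : WT (chi (fun x => d x + dot u x)) a = WT (chi d) (a + u) := by
      rw [← WT_modulate]
      congr 1
      funext x
      exact sgn_add _ _
    rw [h1]
    exact h.h2 (a + u)

theorem Pair.addlin {e d : V → ZMod 2} (h : Pair e d) (u : V) :
    Pair (fun a => e a + dot u a) (fun x => d (x + u)) :=
  (h.symm.shift u).symm

theorem pairdef_chi_compl (e : V → ZMod 2) (x : V) :
    WT (chi (fun a => e a + 1)) x = - WT (chi e) x := by
  rw [← WT_neg]
  congr 1
  funext a
  show sgn (e a + 1) = - sgn (e a)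
  rw [sgn_add, sgn_one]; ring

theorem Pair.compl {e d : V → ZMod 2} (h : Pair e d) :
    Pair (fun a => e a + 1) (fun x => d x + 1) := by
  refine ⟨h.he.add (DegLT_const 1).succ.succ.succ, h.hd.add (DegLT_const 1).succ.succ.succ, ?_, ?_⟩
  · intro x
    rw [pairdef_chi_compl, sgn_add, sgn_one]
    rcases h.h1 x with h2 | h2
    · left; rw [h2]; ring
    · right; rw [h2]; ring
  · intro x
    rw [pairdef_chi_compl, sgn_add, sgn_one]
    rcases h.h2 x with h2 | h2
    · left; rw [h2]; ring
    · right; rw [h2]; ring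

theorem IsDual.symm {b c : Fin 9 → V} (h : IsDual b c) : IsDual c b := by
  intro i j
  rw [dot_comm, h j i]
  by_cases hij : i = j
  · subst hij; rfl
  · rw [if_neg hij, if_neg (fun h => hij h.symm)]

/-- permuting dual bases -/
theorem IsDual.perm {b c : Fin 9 → V} (h : IsDual b c) (i : Fin 9 → Fin 9)
    (hi : Function.Injective i) : IsDual (fun k => b (i k)) (fun k => c (i k)) := by
  intro k l
  show dot (c (i k)) (b (i l)) = _
  rw [h (i k) (i l)]
  by_cases hkl : k = l
  · subst hkl; simp
  · rw [if_neg hkl, if_neg (fun h => hkl (hi h))]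

theorem lin_add (b : Fin 9 → V) (x y : V) : lin b (x + y) = lin b x + lin b y := by
  unfold lin
  rw [← Finset.sum_add_distrib]
  exact Finset.sum_congr rfl fun i _ => by rw [Pi.add_apply, add_smul]

theorem lin_E (b : Fin 9 → V) (i : Fin 9) : lin b (E i) = b i := by
  unfold lin E
  rw [Finset.sum_eq_single i]
  · simp
  · intro j _ hj; simp [hj]
  · simp

theorem pairdef_dot_lin_left (b : Fin 9 → V) (x y : V) :
    dot (lin b x) y = ∑ i, x i * dot (b i) y := by
  unfold lin dot
  simp only [Finset.sum_apply, Pi.smul_apply, smul_eq_mul, Finset.sum_mul, Finset.mul_sum]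
  rw [Finset.sum_comm]
  exact Finset.sum_congr rfl fun i _ => Finset.sum_congr rfl fun j _ => by ring

theorem dot_lin_lin {b c : Fin 9 → V} (h : IsDual b c) (x y : V) :
    dot (lin b x) (lin c y) = dot x y := by
  rw [pairdef_dot_lin_left]
  show _ = ∑ i, x i * y i
  refine Finset.sum_congr rfl fun i _ => ?_
  congr 1
  rw [dot_comm, pairdef_dot_lin_left, Finset.sum_eq_single i]
  · rw [h i i]; simp
  · intro j _ hj
    rw [h j i, if_neg hj]; simp
  · simp

theorem pairdef_coord {b c : Fin 9 → V} (h : IsDual b c) (x : V) (i : Fin 9) :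
    dot (c i) (lin b x) = x i := by
  rw [← lin_E c i, dot_comm, dot_lin_lin h, dot_E]

theorem lin_bijective {b c : Fin 9 → V} (h : IsDual b c) : Function.Bijective (lin b) := by
  have hinj : Function.Injective (lin b) := by
    intro x y hxy
    funext i
    rw [← pairdef_coord h x i, hxy, pairdef_coord h y i]
  exact ⟨hinj, Finite.surjective_of_injective hinj⟩

/-- every vector is the combination of the `b i` with coefficients `dot (c i) v` -/
theorem IsDual.expand {b c : Fin 9 → V} (h : IsDual b c) (v : V) :
    v = ∑ i, dot (c i) v • b i := by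
  obtain ⟨x, hx⟩ := (lin_bijective h).2 v
  conv_lhs => rw [← hx]
  unfold lin
  refine Finset.sum_congr rfl fun i _ => ?_
  rw [← hx, pairdef_coord h x i]

/-- a surjective combination map gives a dual family -/
theorem pairdef_of_surj (b : Fin 9 → V) (hs : Function.Surjective (lin b)) :
    ∃ c, IsDual b c := by
  have hinj : Function.Injective (lin b) := Finite.injective_iff_surjective.mpr hs
  choose g hg using hs
  have hadd : ∀ x y, g (x + y) = g x + g y := by
    intro x y
    apply hinj
    rw [hg, lin_add, hg, hg]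
  have hzero : g 0 = 0 := by
    have := hadd 0 0
    rw [add_zero] at this
    have h2 : g 0 + g 0 = 0 := add_self_V _
    rw [← this] at h2
    exact h2
  have hsmul : ∀ (a : ZMod 2) (x : V), g (a • x) = a • g x := by
    intro a x
    rcases zmod2_cases a with ha | ha
    · subst ha; rw [zero_smul, zero_smul, hzero]
    · subst ha; rw [one_smul, one_smul]
  let G : V →ₗ[ZMod 2] V := { toFun := g, map_add' := hadd, map_smul' := hsmul }
  refine ⟨fun i k => g (E k) i, ?_⟩
  intro i j
  have hv : b j = ∑ k, (b j k) • E k := by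
    funext l
    rw [Finset.sum_apply, Finset.sum_eq_single l]
    · simp [E]
    · intro k _ hk
      simp [E, Ne.symm hk]
    · simp
  have h1 : g (b j) = ∑ k, (b j k) • g (E k) := by
    have h2 : G (b j) = ∑ k, (b j k) • G (E k) := by
      conv_lhs => rw [hv]
      rw [map_sum]
      exact Finset.sum_congr rfl fun k _ => by rw [map_smul]
    exact h2
  have h3 : g (b j) = E j := by
    apply hinj
    rw [hg, lin_E]
  have h4 : g (b j) i = ∑ k, g (E k) i * b j k := by
    rw [h1, Finset.sum_apply]
    refine Finset.sum_congr rfl fun k _ => ?_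
    rw [Pi.smul_apply, smul_eq_mul]; ring
  show ∑ k, g (E k) i * b j k = _
  rw [← h4, h3]
  unfold E
  by_cases hij : i = j
  · subst hij; simp
  · rw [if_neg hij, Pi.single_eq_of_ne hij]

/-- a linearly independent family has a dual family -/
theorem exists_dual (b : Fin 9 → V) (hb : LinearIndependent (ZMod 2) b) : ∃ c, IsDual b c := by
  apply pairdef_of_surj
  apply Finite.surjective_of_injective
  intro x y hxy
  have h1 : ∑ i, (x i - y i) • b i = 0 := by
    have h2 : ∑ i, (x i - y i) • b i = lin b x - lin b y := by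
      unfold lin
      rw [← Finset.sum_sub_distrib]
      exact Finset.sum_congr rfl fun i _ => sub_smul _ _ _
    rw [h2, hxy, sub_self]
  have h3 := Fintype.linearIndependent_iff.mp hb (fun i => x i - y i) h1
  funext i
  exact sub_eq_zero.mp (h3 i)

/-- a family spanning the members of a basis has a dual family -/
theorem exists_dual_of_span {b c : Fin 9 → V} (h : IsDual b c) (b' : Fin 9 → V)
    (hb : ∀ i, ∃ a : V, b i = lin b' a) : ∃ c', IsDual b' c' := by
  apply pairdef_of_surj
  choose a ha using hb
  intro v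
  obtain ⟨x, hx⟩ := (lin_bijective h).2 v
  refine ⟨lin a x, ?_⟩
  rw [← hx]
  have hlin : ∀ y : V, lin b' y = (Fintype.linearCombination (ZMod 2) b') y := by
    intro y; rfl
  rw [hlin]
  unfold lin
  rw [map_sum]
  refine Finset.sum_congr rfl fun i _ => ?_
  rw [map_smul, ← hlin, ← ha i]

theorem pairdef_WT_basis (e : V → ZMod 2) {b c : Fin 9 → V} (hbc : IsDual b c) (x : V) :
    WT (chi (fun a => e (lin b a))) x = WT (chi e) (lin c x) := by
  unfold WT
  rw [← (lin_bijective hbc).sum_comp (fun a => chi e a * sgn (dot a (lin c x)))]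
  refine Finset.sum_congr rfl fun a _ => ?_
  rw [dot_lin_lin hbc]
  rfl

theorem Pair.basis {e d : V → ZMod 2} (h : Pair e d) {b c : Fin 9 → V} (hbc : IsDual b c) :
    Pair (fun a => e (lin b a)) (fun x => d (lin c x)) := by
  refine ⟨h.he.comp _ (lin_add b), h.hd.comp _ (lin_add c), ?_, ?_⟩
  · intro x
    rw [pairdef_WT_basis e hbc]
    exact h.h1 _
  · intro x
    rw [pairdef_WT_basis d hbc.symm]
    exact h.h2 _

end Pool.Agent.H.MP_694475_co
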