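import Pool.Agent.H.MP_694475_co.StA2
import Pool.Agent.H.MP_694475_co.PairDef

/-! Step A7: the dual pair. -/

open Finset

namespace Pool.Agent.H.MP_694475_co

theorem sta7_coef (d : V → ZMod 2) (K : Finset (Fin 9)) (hK : 2 ≤ K.card)
    (h : (4 : ℤ) ∣ ∑ x ∈ cube K, sgn (d x)) : coef K d = 0 := by
  have h1 : ∀ a : ZMod 2, sgn a = 1 - 2 * (a.val : ℤ) := by decide
  simp_rw [h1] at h
  rw [sum_sub_distrib, ← mul_sum, sum_const, card_cube] at h
  have h2 : (4 : ℤ) ∣ (2 ^ K.card) • (1 : ℤ) := by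
    have h4 : (4 : ℤ) = 2 ^ 2 := by norm_num
    rw [h4]
    simpa using pow_dvd_pow (2 : ℤ) hK
  have h3 : (4 : ℤ) ∣ 2 * ∑ x ∈ cube K, ((d x).val : ℤ) := by
    have := dvd_sub h2 h
    simpa using this
  have h5 : (2 : ℤ) ∣ ∑ x ∈ cube K, ((d x).val : ℤ) := by omega
  have h6 : ((∑ x ∈ cube K, ((d x).val : ℤ) : ℤ) : ZMod 2) = 0 := by
    rw [ZMod.intCast_zmod_eq_zero_iff_dvd]
    exact_mod_cast h5
  unfold coef
  push_cast at h6
  rw [← h6]
  refine sum_congr rfl fun x _ => ?_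
  simp

theorem stepA7 {J Ft : V → ℤ} {e : V → ZMod 2} {s : V → ℤ} (h : St J Ft e s)
    (I : V → ℤ) (hI : ∀ x, WT (chi e) x = 16 * I x)
    (h3 : ∀ x, (|I x| = 1 ∨ |I x| = 3) ∧ Ft x * I x = |I x|)
    (h0 : Ft 0 = 1 ∨ Ft 0 = -1) : ∃ d : V → ZMod 2, Pair e d := by
  have hF : ∀ x, Ft x = 1 ∨ Ft x = -1 := by
    intro x
    by_cases hx : x = 0
    · rw [hx]; exact h0
    · exact h.Ft1 x hx
  let H : V → ℤ := fun x => 2 * Ft x - I x
  have hH : ∀ x, (H x = 1 ∨ H x = -1) ∧ (I x = H x ∨ I x = -3 * H x) := by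
    intro x
    obtain ⟨h4, h5⟩ := h3 x
    change (2 * Ft x - I x = 1 ∨ 2 * Ft x - I x = -1) ∧
      (I x = 2 * Ft x - I x ∨ I x = -3 * (2 * Ft x - I x))
    rcases hF x with h6 | h6 <;> rw [h6] at h5 ⊢ <;> rcases h4 with h7 | h7 <;> rw [h7] at h5 <;>
      omega
  let d : V → ZMod 2 := fun x => if H x = 1 then 0 else 1
  have hd : ∀ x, sgn (d x) = H x := by
    intro x
    change sgn (if H x = 1 then 0 else 1) = H x
    rcases (hH x).1 with h4 | h4
    · rw [if_pos h4, sgn_zero, h4]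
    · rw [if_neg (by rw [h4]; norm_num), sgn_one, h4]
  have hchi : chi d = fun x => 2 * Ft x - I x := funext hd
  have hWI : ∀ a, WT I a = 32 * chi e a := by
    intro a
    have h4 := WT_WT (chi e) a
    have h5 : WT (chi e) = fun x => 16 * I x := funext hI
    rw [h5, WT_const_mul] at h4
    linarith
  have hWF : ∀ a, WT Ft a = 8 * J a := by
    intro a
    have h4 := WT_WT J a
    have h5 : WT J = fun x => 64 * Ft x := funext h.WTJ
    rw [h5, WT_const_mul] at h4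
    linarith
  refine ⟨d, h.deg, ?_, ?_, ?_⟩
  · refine DegLT_of_coef fun K hK => sta7_coef d K (by omega) ?_
    have h4 := csum_WT_dvd4 h.deg K hK
    unfold csum at h4
    rw [sum_congr rfl fun x _ => hI x, ← mul_sum] at h4
    have h5 : (4 : ℤ) ∣ ∑ x ∈ cube K, I x := by omega
    have h6 : (4 : ℤ) ∣ ∑ x ∈ cube K, (sgn (d x) - I x) := by
      refine dvd_sum fun x _ => ?_
      rw [hd]
      rcases (hH x).2 with h7 | h7 <;> omega
    have h7 := dvd_add h6 h5
    rwa [sum_sub_distrib, sub_add_cancel] at h7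
  · intro x
    rw [hI, hd]
    rcases (hH x).2 with h4 | h4
    · left; rw [← h4]
    · right; rw [h4]; ring
  · intro a
    have h4 : WT (chi d) a = 16 * J a - 32 * chi e a := by
      rw [hchi, WT_sub, WT_const_mul, hWF, hWI]
      ring
    rw [h4, h.Jeq]
    unfold chi
    rcases h.s01 a with h5 | h5
    · left; rw [h5]; ring
    · right; rw [h5]; ring

end Pool.Agent.H.MP_694475_co
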