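import Pool.Agent.H.MP_694475_co.StA1
import Pool.Agent.H.MP_694475_co.StA5
import Pool.Agent.H.MP_694475_co.StA6
import Pool.Agent.H.MP_694475_co.StA7

open Finset

namespace Pool.Agent.H.MP_694475_co

theorem exists_pair (F : V → ℤ) (hF : ∀ x, F x = 1 ∨ F x = -1) (hW : ∀ a, |WT F a| ≤ 26) :
    ∃ e d : V → ZMod 2, Pair e d := by
  obtain ⟨J, Ft, hJ, hWT, h1, h0⟩ := stepA1 F hF hW
  obtain ⟨e, s, hS⟩ := stepA2 J Ft hJ hWT h1 h0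
  obtain ⟨I, hI⟩ := stepA5 hS
  obtain ⟨h00, h3⟩ := stepA6 hS I hI
  obtain ⟨d, hd⟩ := stepA7 hS I hI h3 h00
  exact ⟨e, d, hd⟩

end Pool.Agent.H.MP_694475_co
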