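import Pool.Agent.H.MP_694475_co.Chunk

set_option linter.defProp false

namespace Pool.Agent.H.MP_694475_co

def ch1_1_0 : check 8 (msOf T1 Q1 B1 64) = true := by decide +kernel
def ch1_1_1 : check 8 (msOf T1 Q1 B1 65) = true := by decide +kernel
def ch1_1_2 : check 8 (msOf T1 Q1 B1 66) = true := by decide +kernel
def ch1_1_3 : check 8 (msOf T1 Q1 B1 67) = true := by decide +kernel
def ch1_1_4 : check 8 (msOf T1 Q1 B1 68) = true := by decide +kernel
def ch1_1_5 : check 8 (msOf T1 Q1 B1 69) = true := by decide +kernel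
def ch1_1_6 : check 8 (msOf T1 Q1 B1 70) = true := by decide +kernel
def ch1_1_7 : check 8 (msOf T1 Q1 B1 71) = true := by decide +kernel
def ch1_1_8 : check 8 (msOf T1 Q1 B1 72) = true := by decide +kernel
def ch1_1_9 : check 8 (msOf T1 Q1 B1 73) = true := by decide +kernel
def ch1_1_10 : check 8 (msOf T1 Q1 B1 74) = true := by decide +kernel
def ch1_1_11 : check 8 (msOf T1 Q1 B1 75) = true := by decide +kernel
def ch1_1_12 : check 8 (msOf T1 Q1 B1 76) = true := by decide +kernel
def ch1_1_13 : check 8 (msOf T1 Q1 B1 77) = true := by decide +kernel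
def ch1_1_14 : check 8 (msOf T1 Q1 B1 78) = true := by decide +kernel
def ch1_1_15 : check 8 (msOf T1 Q1 B1 79) = true := by decide +kernel
def ch1_1_16 : check 8 (msOf T1 Q1 B1 80) = true := by decide +kernel
def ch1_1_17 : check 8 (msOf T1 Q1 B1 81) = true := by decide +kernel
def ch1_1_18 : check 8 (msOf T1 Q1 B1 82) = true := by decide +kernel
def ch1_1_19 : check 8 (msOf T1 Q1 B1 83) = true := by decide +kernel
def ch1_1_20 : check 8 (msOf T1 Q1 B1 84) = true := by decide +kernel
def ch1_1_21 : check 8 (msOf T1 Q1 B1 85) = true := by decide +kernel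
def ch1_1_22 : check 8 (msOf T1 Q1 B1 86) = true := by decide +kernel
def ch1_1_23 : check 8 (msOf T1 Q1 B1 87) = true := by decide +kernel
def ch1_1_24 : check 8 (msOf T1 Q1 B1 88) = true := by decide +kernel
def ch1_1_25 : check 8 (msOf T1 Q1 B1 89) = true := by decide +kernel
def ch1_1_26 : check 8 (msOf T1 Q1 B1 90) = true := by decide +kernel
def ch1_1_27 : check 8 (msOf T1 Q1 B1 91) = true := by decide +kernel
def ch1_1_28 : check 8 (msOf T1 Q1 B1 92) = true := by decide +kernel
def ch1_1_29 : check 8 (msOf T1 Q1 B1 93) = true := by decide +kernel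
def ch1_1_30 : check 8 (msOf T1 Q1 B1 94) = true := by decide +kernel
def ch1_1_31 : check 8 (msOf T1 Q1 B1 95) = true := by decide +kernel
def ch1_1_32 : check 8 (msOf T1 Q1 B1 96) = true := by decide +kernel
def ch1_1_33 : check 8 (msOf T1 Q1 B1 97) = true := by decide +kernel
def ch1_1_34 : check 8 (msOf T1 Q1 B1 98) = true := by decide +kernel
def ch1_1_35 : check 8 (msOf T1 Q1 B1 99) = true := by decide +kernel
def ch1_1_36 : check 8 (msOf T1 Q1 B1 100) = true := by decide +kernel
def ch1_1_37 : check 8 (msOf T1 Q1 B1 101) = true := by decide +kernel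
def ch1_1_38 : check 8 (msOf T1 Q1 B1 102) = true := by decide +kernel
def ch1_1_39 : check 8 (msOf T1 Q1 B1 103) = true := by decide +kernel
def ch1_1_40 : check 8 (msOf T1 Q1 B1 104) = true := by decide +kernel
def ch1_1_41 : check 8 (msOf T1 Q1 B1 105) = true := by decide +kernel
def ch1_1_42 : check 8 (msOf T1 Q1 B1 106) = true := by decide +kernel
def ch1_1_43 : check 8 (msOf T1 Q1 B1 107) = true := by decide +kernel
def ch1_1_44 : check 8 (msOf T1 Q1 B1 108) = true := by decide +kernel
def ch1_1_45 : check 8 (msOf T1 Q1 B1 109) = true := by decide +kernel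
def ch1_1_46 : check 8 (msOf T1 Q1 B1 110) = true := by decide +kernel
def ch1_1_47 : check 8 (msOf T1 Q1 B1 111) = true := by decide +kernel
def ch1_1_48 : check 8 (msOf T1 Q1 B1 112) = true := by decide +kernel
def ch1_1_49 : check 8 (msOf T1 Q1 B1 113) = true := by decide +kernel
def ch1_1_50 : check 8 (msOf T1 Q1 B1 114) = true := by decide +kernel
def ch1_1_51 : check 8 (msOf T1 Q1 B1 115) = true := by decide +kernel
def ch1_1_52 : check 8 (msOf T1 Q1 B1 116) = true := by decide +kernel
def ch1_1_53 : check 8 (msOf T1 Q1 B1 117) = true := by decide +kernel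
def ch1_1_54 : check 8 (msOf T1 Q1 B1 118) = true := by decide +kernel
def ch1_1_55 : check 8 (msOf T1 Q1 B1 119) = true := by decide +kernel
def ch1_1_56 : check 8 (msOf T1 Q1 B1 120) = true := by decide +kernel
def ch1_1_57 : check 8 (msOf T1 Q1 B1 121) = true := by decide +kernel
def ch1_1_58 : check 8 (msOf T1 Q1 B1 122) = true := by decide +kernel
def ch1_1_59 : check 8 (msOf T1 Q1 B1 123) = true := by decide +kernel
def ch1_1_60 : check 8 (msOf T1 Q1 B1 124) = true := by decide +kernel
def ch1_1_61 : check 8 (msOf T1 Q1 B1 125) = true := by decide +kernel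
def ch1_1_62 : check 8 (msOf T1 Q1 B1 126) = true := by decide +kernel
def ch1_1_63 : check 8 (msOf T1 Q1 B1 127) = true := by decide +kernel

theorem ch1_1 (h : ℕ) (h0 : 64 ≤ h) (h1 : h < 128) :
    check 8 (msOf T1 Q1 B1 h) = true := by
  interval_cases h
  · exact ch1_1_0
  · exact ch1_1_1
  · exact ch1_1_2
  · exact ch1_1_3
  · exact ch1_1_4
  · exact ch1_1_5
  · exact ch1_1_6
  · exact ch1_1_7
  · exact ch1_1_8
  · exact ch1_1_9
  · exact ch1_1_10
  · exact ch1_1_11
  · exact ch1_1_12
  · exact ch1_1_13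
  · exact ch1_1_14
  · exact ch1_1_15
  · exact ch1_1_16
  · exact ch1_1_17
  · exact ch1_1_18
  · exact ch1_1_19
  · exact ch1_1_20
  · exact ch1_1_21
  · exact ch1_1_22
  · exact ch1_1_23
  · exact ch1_1_24
  · exact ch1_1_25
  · exact ch1_1_26
  · exact ch1_1_27
  · exact ch1_1_28
  · exact ch1_1_29
  · exact ch1_1_30
  · exact ch1_1_31
  · exact ch1_1_32
  · exact ch1_1_33
  · exact ch1_1_34
  · exact ch1_1_35
  · exact ch1_1_36
  · exact ch1_1_37
  · exact ch1_1_38
  · exact ch1_1_39
  · exact ch1_1_40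
  · exact ch1_1_41
  · exact ch1_1_42
  · exact ch1_1_43
  · exact ch1_1_44
  · exact ch1_1_45
  · exact ch1_1_46
  · exact ch1_1_47
  · exact ch1_1_48
  · exact ch1_1_49
  · exact ch1_1_50
  · exact ch1_1_51
  · exact ch1_1_52
  · exact ch1_1_53
  · exact ch1_1_54
  · exact ch1_1_55
  · exact ch1_1_56
  · exact ch1_1_57
  · exact ch1_1_58
  · exact ch1_1_59
  · exact ch1_1_60
  · exact ch1_1_61
  · exact ch1_1_62
  · exact ch1_1_63

end Pool.Agent.H.MP_694475_co
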