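import Pool.Agent.H.MP_694475_co.Chunk

set_option linter.defProp false

namespace Pool.Agent.H.MP_694475_co

def ch1_11_0 : check 8 (msOf T1 Q1 B1 704) = true := by decide +kernel
def ch1_11_1 : check 8 (msOf T1 Q1 B1 705) = true := by decide +kernel
def ch1_11_2 : check 8 (msOf T1 Q1 B1 706) = true := by decide +kernel
def ch1_11_3 : check 8 (msOf T1 Q1 B1 707) = true := by decide +kernel
def ch1_11_4 : check 8 (msOf T1 Q1 B1 708) = true := by decide +kernel
def ch1_11_5 : check 8 (msOf T1 Q1 B1 709) = true := by decide +kernel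
def ch1_11_6 : check 8 (msOf T1 Q1 B1 710) = true := by decide +kernel
def ch1_11_7 : check 8 (msOf T1 Q1 B1 711) = true := by decide +kernel
def ch1_11_8 : check 8 (msOf T1 Q1 B1 712) = true := by decide +kernel
def ch1_11_9 : check 8 (msOf T1 Q1 B1 713) = true := by decide +kernel
def ch1_11_10 : check 8 (msOf T1 Q1 B1 714) = true := by decide +kernel
def ch1_11_11 : check 8 (msOf T1 Q1 B1 715) = true := by decide +kernel
def ch1_11_12 : check 8 (msOf T1 Q1 B1 716) = true := by decide +kernel
def ch1_11_13 : check 8 (msOf T1 Q1 B1 717) = true := by decide +kernel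
def ch1_11_14 : check 8 (msOf T1 Q1 B1 718) = true := by decide +kernel
def ch1_11_15 : check 8 (msOf T1 Q1 B1 719) = true := by decide +kernel
def ch1_11_16 : check 8 (msOf T1 Q1 B1 720) = true := by decide +kernel
def ch1_11_17 : check 8 (msOf T1 Q1 B1 721) = true := by decide +kernel
def ch1_11_18 : check 8 (msOf T1 Q1 B1 722) = true := by decide +kernel
def ch1_11_19 : check 8 (msOf T1 Q1 B1 723) = true := by decide +kernel
def ch1_11_20 : check 8 (msOf T1 Q1 B1 724) = true := by decide +kernel
def ch1_11_21 : check 8 (msOf T1 Q1 B1 725) = true := by decide +kernel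
def ch1_11_22 : check 8 (msOf T1 Q1 B1 726) = true := by decide +kernel
def ch1_11_23 : check 8 (msOf T1 Q1 B1 727) = true := by decide +kernel
def ch1_11_24 : check 8 (msOf T1 Q1 B1 728) = true := by decide +kernel
def ch1_11_25 : check 8 (msOf T1 Q1 B1 729) = true := by decide +kernel
def ch1_11_26 : check 8 (msOf T1 Q1 B1 730) = true := by decide +kernel
def ch1_11_27 : check 8 (msOf T1 Q1 B1 731) = true := by decide +kernel
def ch1_11_28 : check 8 (msOf T1 Q1 B1 732) = true := by decide +kernel
def ch1_11_29 : check 8 (msOf T1 Q1 B1 733) = true := by decide +kernel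
def ch1_11_30 : check 8 (msOf T1 Q1 B1 734) = true := by decide +kernel
def ch1_11_31 : check 8 (msOf T1 Q1 B1 735) = true := by decide +kernel
def ch1_11_32 : check 8 (msOf T1 Q1 B1 736) = true := by decide +kernel
def ch1_11_33 : check 8 (msOf T1 Q1 B1 737) = true := by decide +kernel
def ch1_11_34 : check 8 (msOf T1 Q1 B1 738) = true := by decide +kernel
def ch1_11_35 : check 8 (msOf T1 Q1 B1 739) = true := by decide +kernel
def ch1_11_36 : check 8 (msOf T1 Q1 B1 740) = true := by decide +kernel
def ch1_11_37 : check 8 (msOf T1 Q1 B1 741) = true := by decide +kernel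
def ch1_11_38 : check 8 (msOf T1 Q1 B1 742) = true := by decide +kernel
def ch1_11_39 : check 8 (msOf T1 Q1 B1 743) = true := by decide +kernel
def ch1_11_40 : check 8 (msOf T1 Q1 B1 744) = true := by decide +kernel
def ch1_11_41 : check 8 (msOf T1 Q1 B1 745) = true := by decide +kernel
def ch1_11_42 : check 8 (msOf T1 Q1 B1 746) = true := by decide +kernel
def ch1_11_43 : check 8 (msOf T1 Q1 B1 747) = true := by decide +kernel
def ch1_11_44 : check 8 (msOf T1 Q1 B1 748) = true := by decide +kernel
def ch1_11_45 : check 8 (msOf T1 Q1 B1 749) = true := by decide +kernel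
def ch1_11_46 : check 8 (msOf T1 Q1 B1 750) = true := by decide +kernel
def ch1_11_47 : check 8 (msOf T1 Q1 B1 751) = true := by decide +kernel
def ch1_11_48 : check 8 (msOf T1 Q1 B1 752) = true := by decide +kernel
def ch1_11_49 : check 8 (msOf T1 Q1 B1 753) = true := by decide +kernel
def ch1_11_50 : check 8 (msOf T1 Q1 B1 754) = true := by decide +kernel
def ch1_11_51 : check 8 (msOf T1 Q1 B1 755) = true := by decide +kernel
def ch1_11_52 : check 8 (msOf T1 Q1 B1 756) = true := by decide +kernel
def ch1_11_53 : check 8 (msOf T1 Q1 B1 757) = true := by decide +kernel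
def ch1_11_54 : check 8 (msOf T1 Q1 B1 758) = true := by decide +kernel
def ch1_11_55 : check 8 (msOf T1 Q1 B1 759) = true := by decide +kernel
def ch1_11_56 : check 8 (msOf T1 Q1 B1 760) = true := by decide +kernel
def ch1_11_57 : check 8 (msOf T1 Q1 B1 761) = true := by decide +kernel
def ch1_11_58 : check 8 (msOf T1 Q1 B1 762) = true := by decide +kernel
def ch1_11_59 : check 8 (msOf T1 Q1 B1 763) = true := by decide +kernel
def ch1_11_60 : check 8 (msOf T1 Q1 B1 764) = true := by decide +kernel
def ch1_11_61 : check 8 (msOf T1 Q1 B1 765) = true := by decide +kernel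
def ch1_11_62 : check 8 (msOf T1 Q1 B1 766) = true := by decide +kernel
def ch1_11_63 : check 8 (msOf T1 Q1 B1 767) = true := by decide +kernel

theorem ch1_11 (h : ℕ) (h0 : 704 ≤ h) (h1 : h < 768) :
    check 8 (msOf T1 Q1 B1 h) = true := by
  interval_cases h
  · exact ch1_11_0
  · exact ch1_11_1
  · exact ch1_11_2
  · exact ch1_11_3
  · exact ch1_11_4
  · exact ch1_11_5
  · exact ch1_11_6
  · exact ch1_11_7
  · exact ch1_11_8
  · exact ch1_11_9
  · exact ch1_11_10
  · exact ch1_11_11
  · exact ch1_11_12
  · exact ch1_11_13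
  · exact ch1_11_14
  · exact ch1_11_15
  · exact ch1_11_16
  · exact ch1_11_17
  · exact ch1_11_18
  · exact ch1_11_19
  · exact ch1_11_20
  · exact ch1_11_21
  · exact ch1_11_22
  · exact ch1_11_23
  · exact ch1_11_24
  · exact ch1_11_25
  · exact ch1_11_26
  · exact ch1_11_27
  · exact ch1_11_28
  · exact ch1_11_29
  · exact ch1_11_30
  · exact ch1_11_31
  · exact ch1_11_32
  · exact ch1_11_33
  · exact ch1_11_34
  · exact ch1_11_35
  · exact ch1_11_36
  · exact ch1_11_37
  · exact ch1_11_38
  · exact ch1_11_39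
  · exact ch1_11_40
  · exact ch1_11_41
  · exact ch1_11_42
  · exact ch1_11_43
  · exact ch1_11_44
  · exact ch1_11_45
  · exact ch1_11_46
  · exact ch1_11_47
  · exact ch1_11_48
  · exact ch1_11_49
  · exact ch1_11_50
  · exact ch1_11_51
  · exact ch1_11_52
  · exact ch1_11_53
  · exact ch1_11_54
  · exact ch1_11_55
  · exact ch1_11_56
  · exact ch1_11_57
  · exact ch1_11_58
  · exact ch1_11_59
  · exact ch1_11_60
  · exact ch1_11_61
  · exact ch1_11_62
  · exact ch1_11_63

end Pool.Agent.H.MP_694475_co
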