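import Pool.Agent.H.MP_694475_co.Chunk

set_option linter.defProp false

namespace Pool.Agent.H.MP_694475_co

def ch1_13_0 : check 8 (msOf T1 Q1 B1 832) = true := by decide +kernel
def ch1_13_1 : check 8 (msOf T1 Q1 B1 833) = true := by decide +kernel
def ch1_13_2 : check 8 (msOf T1 Q1 B1 834) = true := by decide +kernel
def ch1_13_3 : check 8 (msOf T1 Q1 B1 835) = true := by decide +kernel
def ch1_13_4 : check 8 (msOf T1 Q1 B1 836) = true := by decide +kernel
def ch1_13_5 : check 8 (msOf T1 Q1 B1 837) = true := by decide +kernel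
def ch1_13_6 : check 8 (msOf T1 Q1 B1 838) = true := by decide +kernel
def ch1_13_7 : check 8 (msOf T1 Q1 B1 839) = true := by decide +kernel
def ch1_13_8 : check 8 (msOf T1 Q1 B1 840) = true := by decide +kernel
def ch1_13_9 : check 8 (msOf T1 Q1 B1 841) = true := by decide +kernel
def ch1_13_10 : check 8 (msOf T1 Q1 B1 842) = true := by decide +kernel
def ch1_13_11 : check 8 (msOf T1 Q1 B1 843) = true := by decide +kernel
def ch1_13_12 : check 8 (msOf T1 Q1 B1 844) = true := by decide +kernel
def ch1_13_13 : check 8 (msOf T1 Q1 B1 845) = true := by decide +kernel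
def ch1_13_14 : check 8 (msOf T1 Q1 B1 846) = true := by decide +kernel
def ch1_13_15 : check 8 (msOf T1 Q1 B1 847) = true := by decide +kernel
def ch1_13_16 : check 8 (msOf T1 Q1 B1 848) = true := by decide +kernel
def ch1_13_17 : check 8 (msOf T1 Q1 B1 849) = true := by decide +kernel
def ch1_13_18 : check 8 (msOf T1 Q1 B1 850) = true := by decide +kernel
def ch1_13_19 : check 8 (msOf T1 Q1 B1 851) = true := by decide +kernel
def ch1_13_20 : check 8 (msOf T1 Q1 B1 852) = true := by decide +kernel
def ch1_13_21 : check 8 (msOf T1 Q1 B1 853) = true := by decide +kernel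
def ch1_13_22 : check 8 (msOf T1 Q1 B1 854) = true := by decide +kernel
def ch1_13_23 : check 8 (msOf T1 Q1 B1 855) = true := by decide +kernel
def ch1_13_24 : check 8 (msOf T1 Q1 B1 856) = true := by decide +kernel
def ch1_13_25 : check 8 (msOf T1 Q1 B1 857) = true := by decide +kernel
def ch1_13_26 : check 8 (msOf T1 Q1 B1 858) = true := by decide +kernel
def ch1_13_27 : check 8 (msOf T1 Q1 B1 859) = true := by decide +kernel
def ch1_13_28 : check 8 (msOf T1 Q1 B1 860) = true := by decide +kernel
def ch1_13_29 : check 8 (msOf T1 Q1 B1 861) = true := by decide +kernel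
def ch1_13_30 : check 8 (msOf T1 Q1 B1 862) = true := by decide +kernel
def ch1_13_31 : check 8 (msOf T1 Q1 B1 863) = true := by decide +kernel
def ch1_13_32 : check 8 (msOf T1 Q1 B1 864) = true := by decide +kernel
def ch1_13_33 : check 8 (msOf T1 Q1 B1 865) = true := by decide +kernel
def ch1_13_34 : check 8 (msOf T1 Q1 B1 866) = true := by decide +kernel
def ch1_13_35 : check 8 (msOf T1 Q1 B1 867) = true := by decide +kernel
def ch1_13_36 : check 8 (msOf T1 Q1 B1 868) = true := by decide +kernel
def ch1_13_37 : check 8 (msOf T1 Q1 B1 869) = true := by decide +kernel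
def ch1_13_38 : check 8 (msOf T1 Q1 B1 870) = true := by decide +kernel
def ch1_13_39 : check 8 (msOf T1 Q1 B1 871) = true := by decide +kernel
def ch1_13_40 : check 8 (msOf T1 Q1 B1 872) = true := by decide +kernel
def ch1_13_41 : check 8 (msOf T1 Q1 B1 873) = true := by decide +kernel
def ch1_13_42 : check 8 (msOf T1 Q1 B1 874) = true := by decide +kernel
def ch1_13_43 : check 8 (msOf T1 Q1 B1 875) = true := by decide +kernel
def ch1_13_44 : check 8 (msOf T1 Q1 B1 876) = true := by decide +kernel
def ch1_13_45 : check 8 (msOf T1 Q1 B1 877) = true := by decide +kernel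
def ch1_13_46 : check 8 (msOf T1 Q1 B1 878) = true := by decide +kernel
def ch1_13_47 : check 8 (msOf T1 Q1 B1 879) = true := by decide +kernel
def ch1_13_48 : check 8 (msOf T1 Q1 B1 880) = true := by decide +kernel
def ch1_13_49 : check 8 (msOf T1 Q1 B1 881) = true := by decide +kernel
def ch1_13_50 : check 8 (msOf T1 Q1 B1 882) = true := by decide +kernel
def ch1_13_51 : check 8 (msOf T1 Q1 B1 883) = true := by decide +kernel
def ch1_13_52 : check 8 (msOf T1 Q1 B1 884) = true := by decide +kernel
def ch1_13_53 : check 8 (msOf T1 Q1 B1 885) = true := by decide +kernel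
def ch1_13_54 : check 8 (msOf T1 Q1 B1 886) = true := by decide +kernel
def ch1_13_55 : check 8 (msOf T1 Q1 B1 887) = true := by decide +kernel
def ch1_13_56 : check 8 (msOf T1 Q1 B1 888) = true := by decide +kernel
def ch1_13_57 : check 8 (msOf T1 Q1 B1 889) = true := by decide +kernel
def ch1_13_58 : check 8 (msOf T1 Q1 B1 890) = true := by decide +kernel
def ch1_13_59 : check 8 (msOf T1 Q1 B1 891) = true := by decide +kernel
def ch1_13_60 : check 8 (msOf T1 Q1 B1 892) = true := by decide +kernel
def ch1_13_61 : check 8 (msOf T1 Q1 B1 893) = true := by decide +kernel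
def ch1_13_62 : check 8 (msOf T1 Q1 B1 894) = true := by decide +kernel
def ch1_13_63 : check 8 (msOf T1 Q1 B1 895) = true := by decide +kernel

theorem ch1_13 (h : ℕ) (h0 : 832 ≤ h) (h1 : h < 896) :
    check 8 (msOf T1 Q1 B1 h) = true := by
  interval_cases h
  · exact ch1_13_0
  · exact ch1_13_1
  · exact ch1_13_2
  · exact ch1_13_3
  · exact ch1_13_4
  · exact ch1_13_5
  · exact ch1_13_6
  · exact ch1_13_7
  · exact ch1_13_8
  · exact ch1_13_9
  · exact ch1_13_10
  · exact ch1_13_11
  · exact ch1_13_12
  · exact ch1_13_13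
  · exact ch1_13_14
  · exact ch1_13_15
  · exact ch1_13_16
  · exact ch1_13_17
  · exact ch1_13_18
  · exact ch1_13_19
  · exact ch1_13_20
  · exact ch1_13_21
  · exact ch1_13_22
  · exact ch1_13_23
  · exact ch1_13_24
  · exact ch1_13_25
  · exact ch1_13_26
  · exact ch1_13_27
  · exact ch1_13_28
  · exact ch1_13_29
  · exact ch1_13_30
  · exact ch1_13_31
  · exact ch1_13_32
  · exact ch1_13_33
  · exact ch1_13_34
  · exact ch1_13_35
  · exact ch1_13_36
  · exact ch1_13_37
  · exact ch1_13_38
  · exact ch1_13_39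
  · exact ch1_13_40
  · exact ch1_13_41
  · exact ch1_13_42
  · exact ch1_13_43
  · exact ch1_13_44
  · exact ch1_13_45
  · exact ch1_13_46
  · exact ch1_13_47
  · exact ch1_13_48
  · exact ch1_13_49
  · exact ch1_13_50
  · exact ch1_13_51
  · exact ch1_13_52
  · exact ch1_13_53
  · exact ch1_13_54
  · exact ch1_13_55
  · exact ch1_13_56
  · exact ch1_13_57
  · exact ch1_13_58
  · exact ch1_13_59
  · exact ch1_13_60
  · exact ch1_13_61
  · exact ch1_13_62
  · exact ch1_13_63

end Pool.Agent.H.MP_694475_co
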