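import Pool.Agent.H.MP_694475_co.Chunk

set_option linter.defProp false

namespace Pool.Agent.H.MP_694475_co

def ch1_15_0 : check 8 (msOf T1 Q1 B1 960) = true := by decide +kernel
def ch1_15_1 : check 8 (msOf T1 Q1 B1 961) = true := by decide +kernel
def ch1_15_2 : check 8 (msOf T1 Q1 B1 962) = true := by decide +kernel
def ch1_15_3 : check 8 (msOf T1 Q1 B1 963) = true := by decide +kernel
def ch1_15_4 : check 8 (msOf T1 Q1 B1 964) = true := by decide +kernel
def ch1_15_5 : check 8 (msOf T1 Q1 B1 965) = true := by decide +kernel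
def ch1_15_6 : check 8 (msOf T1 Q1 B1 966) = true := by decide +kernel
def ch1_15_7 : check 8 (msOf T1 Q1 B1 967) = true := by decide +kernel
def ch1_15_8 : check 8 (msOf T1 Q1 B1 968) = true := by decide +kernel
def ch1_15_9 : check 8 (msOf T1 Q1 B1 969) = true := by decide +kernel
def ch1_15_10 : check 8 (msOf T1 Q1 B1 970) = true := by decide +kernel
def ch1_15_11 : check 8 (msOf T1 Q1 B1 971) = true := by decide +kernel
def ch1_15_12 : check 8 (msOf T1 Q1 B1 972) = true := by decide +kernel
def ch1_15_13 : check 8 (msOf T1 Q1 B1 973) = true := by decide +kernel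
def ch1_15_14 : check 8 (msOf T1 Q1 B1 974) = true := by decide +kernel
def ch1_15_15 : check 8 (msOf T1 Q1 B1 975) = true := by decide +kernel
def ch1_15_16 : check 8 (msOf T1 Q1 B1 976) = true := by decide +kernel
def ch1_15_17 : check 8 (msOf T1 Q1 B1 977) = true := by decide +kernel
def ch1_15_18 : check 8 (msOf T1 Q1 B1 978) = true := by decide +kernel
def ch1_15_19 : check 8 (msOf T1 Q1 B1 979) = true := by decide +kernel
def ch1_15_20 : check 8 (msOf T1 Q1 B1 980) = true := by decide +kernel
def ch1_15_21 : check 8 (msOf T1 Q1 B1 981) = true := by decide +kernel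
def ch1_15_22 : check 8 (msOf T1 Q1 B1 982) = true := by decide +kernel
def ch1_15_23 : check 8 (msOf T1 Q1 B1 983) = true := by decide +kernel
def ch1_15_24 : check 8 (msOf T1 Q1 B1 984) = true := by decide +kernel
def ch1_15_25 : check 8 (msOf T1 Q1 B1 985) = true := by decide +kernel
def ch1_15_26 : check 8 (msOf T1 Q1 B1 986) = true := by decide +kernel
def ch1_15_27 : check 8 (msOf T1 Q1 B1 987) = true := by decide +kernel
def ch1_15_28 : check 8 (msOf T1 Q1 B1 988) = true := by decide +kernel
def ch1_15_29 : check 8 (msOf T1 Q1 B1 989) = true := by decide +kernel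
def ch1_15_30 : check 8 (msOf T1 Q1 B1 990) = true := by decide +kernel
def ch1_15_31 : check 8 (msOf T1 Q1 B1 991) = true := by decide +kernel
def ch1_15_32 : check 8 (msOf T1 Q1 B1 992) = true := by decide +kernel
def ch1_15_33 : check 8 (msOf T1 Q1 B1 993) = true := by decide +kernel
def ch1_15_34 : check 8 (msOf T1 Q1 B1 994) = true := by decide +kernel
def ch1_15_35 : check 8 (msOf T1 Q1 B1 995) = true := by decide +kernel
def ch1_15_36 : check 8 (msOf T1 Q1 B1 996) = true := by decide +kernel
def ch1_15_37 : check 8 (msOf T1 Q1 B1 997) = true := by decide +kernel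
def ch1_15_38 : check 8 (msOf T1 Q1 B1 998) = true := by decide +kernel
def ch1_15_39 : check 8 (msOf T1 Q1 B1 999) = true := by decide +kernel
def ch1_15_40 : check 8 (msOf T1 Q1 B1 1000) = true := by decide +kernel
def ch1_15_41 : check 8 (msOf T1 Q1 B1 1001) = true := by decide +kernel
def ch1_15_42 : check 8 (msOf T1 Q1 B1 1002) = true := by decide +kernel
def ch1_15_43 : check 8 (msOf T1 Q1 B1 1003) = true := by decide +kernel
def ch1_15_44 : check 8 (msOf T1 Q1 B1 1004) = true := by decide +kernel
def ch1_15_45 : check 8 (msOf T1 Q1 B1 1005) = true := by decide +kernel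
def ch1_15_46 : check 8 (msOf T1 Q1 B1 1006) = true := by decide +kernel
def ch1_15_47 : check 8 (msOf T1 Q1 B1 1007) = true := by decide +kernel
def ch1_15_48 : check 8 (msOf T1 Q1 B1 1008) = true := by decide +kernel
def ch1_15_49 : check 8 (msOf T1 Q1 B1 1009) = true := by decide +kernel
def ch1_15_50 : check 8 (msOf T1 Q1 B1 1010) = true := by decide +kernel
def ch1_15_51 : check 8 (msOf T1 Q1 B1 1011) = true := by decide +kernel
def ch1_15_52 : check 8 (msOf T1 Q1 B1 1012) = true := by decide +kernel
def ch1_15_53 : check 8 (msOf T1 Q1 B1 1013) = true := by decide +kernel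
def ch1_15_54 : check 8 (msOf T1 Q1 B1 1014) = true := by decide +kernel
def ch1_15_55 : check 8 (msOf T1 Q1 B1 1015) = true := by decide +kernel
def ch1_15_56 : check 8 (msOf T1 Q1 B1 1016) = true := by decide +kernel
def ch1_15_57 : check 8 (msOf T1 Q1 B1 1017) = true := by decide +kernel
def ch1_15_58 : check 8 (msOf T1 Q1 B1 1018) = true := by decide +kernel
def ch1_15_59 : check 8 (msOf T1 Q1 B1 1019) = true := by decide +kernel
def ch1_15_60 : check 8 (msOf T1 Q1 B1 1020) = true := by decide +kernel
def ch1_15_61 : check 8 (msOf T1 Q1 B1 1021) = true := by decide +kernel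
def ch1_15_62 : check 8 (msOf T1 Q1 B1 1022) = true := by decide +kernel
def ch1_15_63 : check 8 (msOf T1 Q1 B1 1023) = true := by decide +kernel

theorem ch1_15 (h : ℕ) (h0 : 960 ≤ h) (h1 : h < 1024) :
    check 8 (msOf T1 Q1 B1 h) = true := by
  interval_cases h
  · exact ch1_15_0
  · exact ch1_15_1
  · exact ch1_15_2
  · exact ch1_15_3
  · exact ch1_15_4
  · exact ch1_15_5
  · exact ch1_15_6
  · exact ch1_15_7
  · exact ch1_15_8
  · exact ch1_15_9
  · exact ch1_15_10
  · exact ch1_15_11
  · exact ch1_15_12
  · exact ch1_15_13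
  · exact ch1_15_14
  · exact ch1_15_15
  · exact ch1_15_16
  · exact ch1_15_17
  · exact ch1_15_18
  · exact ch1_15_19
  · exact ch1_15_20
  · exact ch1_15_21
  · exact ch1_15_22
  · exact ch1_15_23
  · exact ch1_15_24
  · exact ch1_15_25
  · exact ch1_15_26
  · exact ch1_15_27
  · exact ch1_15_28
  · exact ch1_15_29
  · exact ch1_15_30
  · exact ch1_15_31
  · exact ch1_15_32
  · exact ch1_15_33
  · exact ch1_15_34
  · exact ch1_15_35
  · exact ch1_15_36
  · exact ch1_15_37
  · exact ch1_15_38
  · exact ch1_15_39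
  · exact ch1_15_40
  · exact ch1_15_41
  · exact ch1_15_42
  · exact ch1_15_43
  · exact ch1_15_44
  · exact ch1_15_45
  · exact ch1_15_46
  · exact ch1_15_47
  · exact ch1_15_48
  · exact ch1_15_49
  · exact ch1_15_50
  · exact ch1_15_51
  · exact ch1_15_52
  · exact ch1_15_53
  · exact ch1_15_54
  · exact ch1_15_55
  · exact ch1_15_56
  · exact ch1_15_57
  · exact ch1_15_58
  · exact ch1_15_59
  · exact ch1_15_60
  · exact ch1_15_61
  · exact ch1_15_62
  · exact ch1_15_63

end Pool.Agent.H.MP_694475_co
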