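import Pool.Agent.H.MP_694475_co.Chunk

set_option linter.defProp false

namespace Pool.Agent.H.MP_694475_co

def ch1_2_0 : check 8 (msOf T1 Q1 B1 128) = true := by decide +kernel
def ch1_2_1 : check 8 (msOf T1 Q1 B1 129) = true := by decide +kernel
def ch1_2_2 : check 8 (msOf T1 Q1 B1 130) = true := by decide +kernel
def ch1_2_3 : check 8 (msOf T1 Q1 B1 131) = true := by decide +kernel
def ch1_2_4 : check 8 (msOf T1 Q1 B1 132) = true := by decide +kernel
def ch1_2_5 : check 8 (msOf T1 Q1 B1 133) = true := by decide +kernel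
def ch1_2_6 : check 8 (msOf T1 Q1 B1 134) = true := by decide +kernel
def ch1_2_7 : check 8 (msOf T1 Q1 B1 135) = true := by decide +kernel
def ch1_2_8 : check 8 (msOf T1 Q1 B1 136) = true := by decide +kernel
def ch1_2_9 : check 8 (msOf T1 Q1 B1 137) = true := by decide +kernel
def ch1_2_10 : check 8 (msOf T1 Q1 B1 138) = true := by decide +kernel
def ch1_2_11 : check 8 (msOf T1 Q1 B1 139) = true := by decide +kernel
def ch1_2_12 : check 8 (msOf T1 Q1 B1 140) = true := by decide +kernel
def ch1_2_13 : check 8 (msOf T1 Q1 B1 141) = true := by decide +kernel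
def ch1_2_14 : check 8 (msOf T1 Q1 B1 142) = true := by decide +kernel
def ch1_2_15 : check 8 (msOf T1 Q1 B1 143) = true := by decide +kernel
def ch1_2_16 : check 8 (msOf T1 Q1 B1 144) = true := by decide +kernel
def ch1_2_17 : check 8 (msOf T1 Q1 B1 145) = true := by decide +kernel
def ch1_2_18 : check 8 (msOf T1 Q1 B1 146) = true := by decide +kernel
def ch1_2_19 : check 8 (msOf T1 Q1 B1 147) = true := by decide +kernel
def ch1_2_20 : check 8 (msOf T1 Q1 B1 148) = true := by decide +kernel
def ch1_2_21 : check 8 (msOf T1 Q1 B1 149) = true := by decide +kernel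
def ch1_2_22 : check 8 (msOf T1 Q1 B1 150) = true := by decide +kernel
def ch1_2_23 : check 8 (msOf T1 Q1 B1 151) = true := by decide +kernel
def ch1_2_24 : check 8 (msOf T1 Q1 B1 152) = true := by decide +kernel
def ch1_2_25 : check 8 (msOf T1 Q1 B1 153) = true := by decide +kernel
def ch1_2_26 : check 8 (msOf T1 Q1 B1 154) = true := by decide +kernel
def ch1_2_27 : check 8 (msOf T1 Q1 B1 155) = true := by decide +kernel
def ch1_2_28 : check 8 (msOf T1 Q1 B1 156) = true := by decide +kernel
def ch1_2_29 : check 8 (msOf T1 Q1 B1 157) = true := by decide +kernel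
def ch1_2_30 : check 8 (msOf T1 Q1 B1 158) = true := by decide +kernel
def ch1_2_31 : check 8 (msOf T1 Q1 B1 159) = true := by decide +kernel
def ch1_2_32 : check 8 (msOf T1 Q1 B1 160) = true := by decide +kernel
def ch1_2_33 : check 8 (msOf T1 Q1 B1 161) = true := by decide +kernel
def ch1_2_34 : check 8 (msOf T1 Q1 B1 162) = true := by decide +kernel
def ch1_2_35 : check 8 (msOf T1 Q1 B1 163) = true := by decide +kernel
def ch1_2_36 : check 8 (msOf T1 Q1 B1 164) = true := by decide +kernel
def ch1_2_37 : check 8 (msOf T1 Q1 B1 165) = true := by decide +kernel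
def ch1_2_38 : check 8 (msOf T1 Q1 B1 166) = true := by decide +kernel
def ch1_2_39 : check 8 (msOf T1 Q1 B1 167) = true := by decide +kernel
def ch1_2_40 : check 8 (msOf T1 Q1 B1 168) = true := by decide +kernel
def ch1_2_41 : check 8 (msOf T1 Q1 B1 169) = true := by decide +kernel
def ch1_2_42 : check 8 (msOf T1 Q1 B1 170) = true := by decide +kernel
def ch1_2_43 : check 8 (msOf T1 Q1 B1 171) = true := by decide +kernel
def ch1_2_44 : check 8 (msOf T1 Q1 B1 172) = true := by decide +kernel
def ch1_2_45 : check 8 (msOf T1 Q1 B1 173) = true := by decide +kernel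
def ch1_2_46 : check 8 (msOf T1 Q1 B1 174) = true := by decide +kernel
def ch1_2_47 : check 8 (msOf T1 Q1 B1 175) = true := by decide +kernel
def ch1_2_48 : check 8 (msOf T1 Q1 B1 176) = true := by decide +kernel
def ch1_2_49 : check 8 (msOf T1 Q1 B1 177) = true := by decide +kernel
def ch1_2_50 : check 8 (msOf T1 Q1 B1 178) = true := by decide +kernel
def ch1_2_51 : check 8 (msOf T1 Q1 B1 179) = true := by decide +kernel
def ch1_2_52 : check 8 (msOf T1 Q1 B1 180) = true := by decide +kernel
def ch1_2_53 : check 8 (msOf T1 Q1 B1 181) = true := by decide +kernel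
def ch1_2_54 : check 8 (msOf T1 Q1 B1 182) = true := by decide +kernel
def ch1_2_55 : check 8 (msOf T1 Q1 B1 183) = true := by decide +kernel
def ch1_2_56 : check 8 (msOf T1 Q1 B1 184) = true := by decide +kernel
def ch1_2_57 : check 8 (msOf T1 Q1 B1 185) = true := by decide +kernel
def ch1_2_58 : check 8 (msOf T1 Q1 B1 186) = true := by decide +kernel
def ch1_2_59 : check 8 (msOf T1 Q1 B1 187) = true := by decide +kernel
def ch1_2_60 : check 8 (msOf T1 Q1 B1 188) = true := by decide +kernel
def ch1_2_61 : check 8 (msOf T1 Q1 B1 189) = true := by decide +kernel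
def ch1_2_62 : check 8 (msOf T1 Q1 B1 190) = true := by decide +kernel
def ch1_2_63 : check 8 (msOf T1 Q1 B1 191) = true := by decide +kernel

theorem ch1_2 (h : ℕ) (h0 : 128 ≤ h) (h1 : h < 192) :
    check 8 (msOf T1 Q1 B1 h) = true := by
  interval_cases h
  · exact ch1_2_0
  · exact ch1_2_1
  · exact ch1_2_2
  · exact ch1_2_3
  · exact ch1_2_4
  · exact ch1_2_5
  · exact ch1_2_6
  · exact ch1_2_7
  · exact ch1_2_8
  · exact ch1_2_9
  · exact ch1_2_10
  · exact ch1_2_11
  · exact ch1_2_12
  · exact ch1_2_13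
  · exact ch1_2_14
  · exact ch1_2_15
  · exact ch1_2_16
  · exact ch1_2_17
  · exact ch1_2_18
  · exact ch1_2_19
  · exact ch1_2_20
  · exact ch1_2_21
  · exact ch1_2_22
  · exact ch1_2_23
  · exact ch1_2_24
  · exact ch1_2_25
  · exact ch1_2_26
  · exact ch1_2_27
  · exact ch1_2_28
  · exact ch1_2_29
  · exact ch1_2_30
  · exact ch1_2_31
  · exact ch1_2_32
  · exact ch1_2_33
  · exact ch1_2_34
  · exact ch1_2_35
  · exact ch1_2_36
  · exact ch1_2_37
  · exact ch1_2_38
  · exact ch1_2_39
  · exact ch1_2_40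
  · exact ch1_2_41
  · exact ch1_2_42
  · exact ch1_2_43
  · exact ch1_2_44
  · exact ch1_2_45
  · exact ch1_2_46
  · exact ch1_2_47
  · exact ch1_2_48
  · exact ch1_2_49
  · exact ch1_2_50
  · exact ch1_2_51
  · exact ch1_2_52
  · exact ch1_2_53
  · exact ch1_2_54
  · exact ch1_2_55
  · exact ch1_2_56
  · exact ch1_2_57
  · exact ch1_2_58
  · exact ch1_2_59
  · exact ch1_2_60
  · exact ch1_2_61
  · exact ch1_2_62
  · exact ch1_2_63

end Pool.Agent.H.MP_694475_co
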