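import Pool.Agent.H.MP_694475_co.Chunk

set_option linter.defProp false

namespace Pool.Agent.H.MP_694475_co

def ch1_3_0 : check 8 (msOf T1 Q1 B1 192) = true := by decide +kernel
def ch1_3_1 : check 8 (msOf T1 Q1 B1 193) = true := by decide +kernel
def ch1_3_2 : check 8 (msOf T1 Q1 B1 194) = true := by decide +kernel
def ch1_3_3 : check 8 (msOf T1 Q1 B1 195) = true := by decide +kernel
def ch1_3_4 : check 8 (msOf T1 Q1 B1 196) = true := by decide +kernel
def ch1_3_5 : check 8 (msOf T1 Q1 B1 197) = true := by decide +kernel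
def ch1_3_6 : check 8 (msOf T1 Q1 B1 198) = true := by decide +kernel
def ch1_3_7 : check 8 (msOf T1 Q1 B1 199) = true := by decide +kernel
def ch1_3_8 : check 8 (msOf T1 Q1 B1 200) = true := by decide +kernel
def ch1_3_9 : check 8 (msOf T1 Q1 B1 201) = true := by decide +kernel
def ch1_3_10 : check 8 (msOf T1 Q1 B1 202) = true := by decide +kernel
def ch1_3_11 : check 8 (msOf T1 Q1 B1 203) = true := by decide +kernel
def ch1_3_12 : check 8 (msOf T1 Q1 B1 204) = true := by decide +kernel
def ch1_3_13 : check 8 (msOf T1 Q1 B1 205) = true := by decide +kernel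
def ch1_3_14 : check 8 (msOf T1 Q1 B1 206) = true := by decide +kernel
def ch1_3_15 : check 8 (msOf T1 Q1 B1 207) = true := by decide +kernel
def ch1_3_16 : check 8 (msOf T1 Q1 B1 208) = true := by decide +kernel
def ch1_3_17 : check 8 (msOf T1 Q1 B1 209) = true := by decide +kernel
def ch1_3_18 : check 8 (msOf T1 Q1 B1 210) = true := by decide +kernel
def ch1_3_19 : check 8 (msOf T1 Q1 B1 211) = true := by decide +kernel
def ch1_3_20 : check 8 (msOf T1 Q1 B1 212) = true := by decide +kernel
def ch1_3_21 : check 8 (msOf T1 Q1 B1 213) = true := by decide +kernel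
def ch1_3_22 : check 8 (msOf T1 Q1 B1 214) = true := by decide +kernel
def ch1_3_23 : check 8 (msOf T1 Q1 B1 215) = true := by decide +kernel
def ch1_3_24 : check 8 (msOf T1 Q1 B1 216) = true := by decide +kernel
def ch1_3_25 : check 8 (msOf T1 Q1 B1 217) = true := by decide +kernel
def ch1_3_26 : check 8 (msOf T1 Q1 B1 218) = true := by decide +kernel
def ch1_3_27 : check 8 (msOf T1 Q1 B1 219) = true := by decide +kernel
def ch1_3_28 : check 8 (msOf T1 Q1 B1 220) = true := by decide +kernel
def ch1_3_29 : check 8 (msOf T1 Q1 B1 221) = true := by decide +kernel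
def ch1_3_30 : check 8 (msOf T1 Q1 B1 222) = true := by decide +kernel
def ch1_3_31 : check 8 (msOf T1 Q1 B1 223) = true := by decide +kernel
def ch1_3_32 : check 8 (msOf T1 Q1 B1 224) = true := by decide +kernel
def ch1_3_33 : check 8 (msOf T1 Q1 B1 225) = true := by decide +kernel
def ch1_3_34 : check 8 (msOf T1 Q1 B1 226) = true := by decide +kernel
def ch1_3_35 : check 8 (msOf T1 Q1 B1 227) = true := by decide +kernel
def ch1_3_36 : check 8 (msOf T1 Q1 B1 228) = true := by decide +kernel
def ch1_3_37 : check 8 (msOf T1 Q1 B1 229) = true := by decide +kernel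
def ch1_3_38 : check 8 (msOf T1 Q1 B1 230) = true := by decide +kernel
def ch1_3_39 : check 8 (msOf T1 Q1 B1 231) = true := by decide +kernel
def ch1_3_40 : check 8 (msOf T1 Q1 B1 232) = true := by decide +kernel
def ch1_3_41 : check 8 (msOf T1 Q1 B1 233) = true := by decide +kernel
def ch1_3_42 : check 8 (msOf T1 Q1 B1 234) = true := by decide +kernel
def ch1_3_43 : check 8 (msOf T1 Q1 B1 235) = true := by decide +kernel
def ch1_3_44 : check 8 (msOf T1 Q1 B1 236) = true := by decide +kernel
def ch1_3_45 : check 8 (msOf T1 Q1 B1 237) = true := by decide +kernel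
def ch1_3_46 : check 8 (msOf T1 Q1 B1 238) = true := by decide +kernel
def ch1_3_47 : check 8 (msOf T1 Q1 B1 239) = true := by decide +kernel
def ch1_3_48 : check 8 (msOf T1 Q1 B1 240) = true := by decide +kernel
def ch1_3_49 : check 8 (msOf T1 Q1 B1 241) = true := by decide +kernel
def ch1_3_50 : check 8 (msOf T1 Q1 B1 242) = true := by decide +kernel
def ch1_3_51 : check 8 (msOf T1 Q1 B1 243) = true := by decide +kernel
def ch1_3_52 : check 8 (msOf T1 Q1 B1 244) = true := by decide +kernel
def ch1_3_53 : check 8 (msOf T1 Q1 B1 245) = true := by decide +kernel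
def ch1_3_54 : check 8 (msOf T1 Q1 B1 246) = true := by decide +kernel
def ch1_3_55 : check 8 (msOf T1 Q1 B1 247) = true := by decide +kernel
def ch1_3_56 : check 8 (msOf T1 Q1 B1 248) = true := by decide +kernel
def ch1_3_57 : check 8 (msOf T1 Q1 B1 249) = true := by decide +kernel
def ch1_3_58 : check 8 (msOf T1 Q1 B1 250) = true := by decide +kernel
def ch1_3_59 : check 8 (msOf T1 Q1 B1 251) = true := by decide +kernel
def ch1_3_60 : check 8 (msOf T1 Q1 B1 252) = true := by decide +kernel
def ch1_3_61 : check 8 (msOf T1 Q1 B1 253) = true := by decide +kernel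
def ch1_3_62 : check 8 (msOf T1 Q1 B1 254) = true := by decide +kernel
def ch1_3_63 : check 8 (msOf T1 Q1 B1 255) = true := by decide +kernel

theorem ch1_3 (h : ℕ) (h0 : 192 ≤ h) (h1 : h < 256) :
    check 8 (msOf T1 Q1 B1 h) = true := by
  interval_cases h
  · exact ch1_3_0
  · exact ch1_3_1
  · exact ch1_3_2
  · exact ch1_3_3
  · exact ch1_3_4
  · exact ch1_3_5
  · exact ch1_3_6
  · exact ch1_3_7
  · exact ch1_3_8
  · exact ch1_3_9
  · exact ch1_3_10
  · exact ch1_3_11
  · exact ch1_3_12
  · exact ch1_3_13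
  · exact ch1_3_14
  · exact ch1_3_15
  · exact ch1_3_16
  · exact ch1_3_17
  · exact ch1_3_18
  · exact ch1_3_19
  · exact ch1_3_20
  · exact ch1_3_21
  · exact ch1_3_22
  · exact ch1_3_23
  · exact ch1_3_24
  · exact ch1_3_25
  · exact ch1_3_26
  · exact ch1_3_27
  · exact ch1_3_28
  · exact ch1_3_29
  · exact ch1_3_30
  · exact ch1_3_31
  · exact ch1_3_32
  · exact ch1_3_33
  · exact ch1_3_34
  · exact ch1_3_35
  · exact ch1_3_36
  · exact ch1_3_37
  · exact ch1_3_38
  · exact ch1_3_39
  · exact ch1_3_40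
  · exact ch1_3_41
  · exact ch1_3_42
  · exact ch1_3_43
  · exact ch1_3_44
  · exact ch1_3_45
  · exact ch1_3_46
  · exact ch1_3_47
  · exact ch1_3_48
  · exact ch1_3_49
  · exact ch1_3_50
  · exact ch1_3_51
  · exact ch1_3_52
  · exact ch1_3_53
  · exact ch1_3_54
  · exact ch1_3_55
  · exact ch1_3_56
  · exact ch1_3_57
  · exact ch1_3_58
  · exact ch1_3_59
  · exact ch1_3_60
  · exact ch1_3_61
  · exact ch1_3_62
  · exact ch1_3_63

end Pool.Agent.H.MP_694475_co
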