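import Pool.Agent.H.MP_694475_co.Chunk

set_option linter.defProp false

namespace Pool.Agent.H.MP_694475_co

def ch1_4_0 : check 8 (msOf T1 Q1 B1 256) = true := by decide +kernel
def ch1_4_1 : check 8 (msOf T1 Q1 B1 257) = true := by decide +kernel
def ch1_4_2 : check 8 (msOf T1 Q1 B1 258) = true := by decide +kernel
def ch1_4_3 : check 8 (msOf T1 Q1 B1 259) = true := by decide +kernel
def ch1_4_4 : check 8 (msOf T1 Q1 B1 260) = true := by decide +kernel
def ch1_4_5 : check 8 (msOf T1 Q1 B1 261) = true := by decide +kernel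
def ch1_4_6 : check 8 (msOf T1 Q1 B1 262) = true := by decide +kernel
def ch1_4_7 : check 8 (msOf T1 Q1 B1 263) = true := by decide +kernel
def ch1_4_8 : check 8 (msOf T1 Q1 B1 264) = true := by decide +kernel
def ch1_4_9 : check 8 (msOf T1 Q1 B1 265) = true := by decide +kernel
def ch1_4_10 : check 8 (msOf T1 Q1 B1 266) = true := by decide +kernel
def ch1_4_11 : check 8 (msOf T1 Q1 B1 267) = true := by decide +kernel
def ch1_4_12 : check 8 (msOf T1 Q1 B1 268) = true := by decide +kernel
def ch1_4_13 : check 8 (msOf T1 Q1 B1 269) = true := by decide +kernel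
def ch1_4_14 : check 8 (msOf T1 Q1 B1 270) = true := by decide +kernel
def ch1_4_15 : check 8 (msOf T1 Q1 B1 271) = true := by decide +kernel
def ch1_4_16 : check 8 (msOf T1 Q1 B1 272) = true := by decide +kernel
def ch1_4_17 : check 8 (msOf T1 Q1 B1 273) = true := by decide +kernel
def ch1_4_18 : check 8 (msOf T1 Q1 B1 274) = true := by decide +kernel
def ch1_4_19 : check 8 (msOf T1 Q1 B1 275) = true := by decide +kernel
def ch1_4_20 : check 8 (msOf T1 Q1 B1 276) = true := by decide +kernel
def ch1_4_21 : check 8 (msOf T1 Q1 B1 277) = true := by decide +kernel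
def ch1_4_22 : check 8 (msOf T1 Q1 B1 278) = true := by decide +kernel
def ch1_4_23 : check 8 (msOf T1 Q1 B1 279) = true := by decide +kernel
def ch1_4_24 : check 8 (msOf T1 Q1 B1 280) = true := by decide +kernel
def ch1_4_25 : check 8 (msOf T1 Q1 B1 281) = true := by decide +kernel
def ch1_4_26 : check 8 (msOf T1 Q1 B1 282) = true := by decide +kernel
def ch1_4_27 : check 8 (msOf T1 Q1 B1 283) = true := by decide +kernel
def ch1_4_28 : check 8 (msOf T1 Q1 B1 284) = true := by decide +kernel
def ch1_4_29 : check 8 (msOf T1 Q1 B1 285) = true := by decide +kernel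
def ch1_4_30 : check 8 (msOf T1 Q1 B1 286) = true := by decide +kernel
def ch1_4_31 : check 8 (msOf T1 Q1 B1 287) = true := by decide +kernel
def ch1_4_32 : check 8 (msOf T1 Q1 B1 288) = true := by decide +kernel
def ch1_4_33 : check 8 (msOf T1 Q1 B1 289) = true := by decide +kernel
def ch1_4_34 : check 8 (msOf T1 Q1 B1 290) = true := by decide +kernel
def ch1_4_35 : check 8 (msOf T1 Q1 B1 291) = true := by decide +kernel
def ch1_4_36 : check 8 (msOf T1 Q1 B1 292) = true := by decide +kernel
def ch1_4_37 : check 8 (msOf T1 Q1 B1 293) = true := by decide +kernel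
def ch1_4_38 : check 8 (msOf T1 Q1 B1 294) = true := by decide +kernel
def ch1_4_39 : check 8 (msOf T1 Q1 B1 295) = true := by decide +kernel
def ch1_4_40 : check 8 (msOf T1 Q1 B1 296) = true := by decide +kernel
def ch1_4_41 : check 8 (msOf T1 Q1 B1 297) = true := by decide +kernel
def ch1_4_42 : check 8 (msOf T1 Q1 B1 298) = true := by decide +kernel
def ch1_4_43 : check 8 (msOf T1 Q1 B1 299) = true := by decide +kernel
def ch1_4_44 : check 8 (msOf T1 Q1 B1 300) = true := by decide +kernel
def ch1_4_45 : check 8 (msOf T1 Q1 B1 301) = true := by decide +kernel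
def ch1_4_46 : check 8 (msOf T1 Q1 B1 302) = true := by decide +kernel
def ch1_4_47 : check 8 (msOf T1 Q1 B1 303) = true := by decide +kernel
def ch1_4_48 : check 8 (msOf T1 Q1 B1 304) = true := by decide +kernel
def ch1_4_49 : check 8 (msOf T1 Q1 B1 305) = true := by decide +kernel
def ch1_4_50 : check 8 (msOf T1 Q1 B1 306) = true := by decide +kernel
def ch1_4_51 : check 8 (msOf T1 Q1 B1 307) = true := by decide +kernel
def ch1_4_52 : check 8 (msOf T1 Q1 B1 308) = true := by decide +kernel
def ch1_4_53 : check 8 (msOf T1 Q1 B1 309) = true := by decide +kernel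
def ch1_4_54 : check 8 (msOf T1 Q1 B1 310) = true := by decide +kernel
def ch1_4_55 : check 8 (msOf T1 Q1 B1 311) = true := by decide +kernel
def ch1_4_56 : check 8 (msOf T1 Q1 B1 312) = true := by decide +kernel
def ch1_4_57 : check 8 (msOf T1 Q1 B1 313) = true := by decide +kernel
def ch1_4_58 : check 8 (msOf T1 Q1 B1 314) = true := by decide +kernel
def ch1_4_59 : check 8 (msOf T1 Q1 B1 315) = true := by decide +kernel
def ch1_4_60 : check 8 (msOf T1 Q1 B1 316) = true := by decide +kernel
def ch1_4_61 : check 8 (msOf T1 Q1 B1 317) = true := by decide +kernel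
def ch1_4_62 : check 8 (msOf T1 Q1 B1 318) = true := by decide +kernel
def ch1_4_63 : check 8 (msOf T1 Q1 B1 319) = true := by decide +kernel

theorem ch1_4 (h : ℕ) (h0 : 256 ≤ h) (h1 : h < 320) :
    check 8 (msOf T1 Q1 B1 h) = true := by
  interval_cases h
  · exact ch1_4_0
  · exact ch1_4_1
  · exact ch1_4_2
  · exact ch1_4_3
  · exact ch1_4_4
  · exact ch1_4_5
  · exact ch1_4_6
  · exact ch1_4_7
  · exact ch1_4_8
  · exact ch1_4_9
  · exact ch1_4_10
  · exact ch1_4_11
  · exact ch1_4_12
  · exact ch1_4_13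
  · exact ch1_4_14
  · exact ch1_4_15
  · exact ch1_4_16
  · exact ch1_4_17
  · exact ch1_4_18
  · exact ch1_4_19
  · exact ch1_4_20
  · exact ch1_4_21
  · exact ch1_4_22
  · exact ch1_4_23
  · exact ch1_4_24
  · exact ch1_4_25
  · exact ch1_4_26
  · exact ch1_4_27
  · exact ch1_4_28
  · exact ch1_4_29
  · exact ch1_4_30
  · exact ch1_4_31
  · exact ch1_4_32
  · exact ch1_4_33
  · exact ch1_4_34
  · exact ch1_4_35
  · exact ch1_4_36
  · exact ch1_4_37
  · exact ch1_4_38
  · exact ch1_4_39
  · exact ch1_4_40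
  · exact ch1_4_41
  · exact ch1_4_42
  · exact ch1_4_43
  · exact ch1_4_44
  · exact ch1_4_45
  · exact ch1_4_46
  · exact ch1_4_47
  · exact ch1_4_48
  · exact ch1_4_49
  · exact ch1_4_50
  · exact ch1_4_51
  · exact ch1_4_52
  · exact ch1_4_53
  · exact ch1_4_54
  · exact ch1_4_55
  · exact ch1_4_56
  · exact ch1_4_57
  · exact ch1_4_58
  · exact ch1_4_59
  · exact ch1_4_60
  · exact ch1_4_61
  · exact ch1_4_62
  · exact ch1_4_63

end Pool.Agent.H.MP_694475_co
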