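import Pool.Agent.H.MP_694475_co.Chunk

set_option linter.defProp false

namespace Pool.Agent.H.MP_694475_co

def ch1_6_0 : check 8 (msOf T1 Q1 B1 384) = true := by decide +kernel
def ch1_6_1 : check 8 (msOf T1 Q1 B1 385) = true := by decide +kernel
def ch1_6_2 : check 8 (msOf T1 Q1 B1 386) = true := by decide +kernel
def ch1_6_3 : check 8 (msOf T1 Q1 B1 387) = true := by decide +kernel
def ch1_6_4 : check 8 (msOf T1 Q1 B1 388) = true := by decide +kernel
def ch1_6_5 : check 8 (msOf T1 Q1 B1 389) = true := by decide +kernel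
def ch1_6_6 : check 8 (msOf T1 Q1 B1 390) = true := by decide +kernel
def ch1_6_7 : check 8 (msOf T1 Q1 B1 391) = true := by decide +kernel
def ch1_6_8 : check 8 (msOf T1 Q1 B1 392) = true := by decide +kernel
def ch1_6_9 : check 8 (msOf T1 Q1 B1 393) = true := by decide +kernel
def ch1_6_10 : check 8 (msOf T1 Q1 B1 394) = true := by decide +kernel
def ch1_6_11 : check 8 (msOf T1 Q1 B1 395) = true := by decide +kernel
def ch1_6_12 : check 8 (msOf T1 Q1 B1 396) = true := by decide +kernel
def ch1_6_13 : check 8 (msOf T1 Q1 B1 397) = true := by decide +kernel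
def ch1_6_14 : check 8 (msOf T1 Q1 B1 398) = true := by decide +kernel
def ch1_6_15 : check 8 (msOf T1 Q1 B1 399) = true := by decide +kernel
def ch1_6_16 : check 8 (msOf T1 Q1 B1 400) = true := by decide +kernel
def ch1_6_17 : check 8 (msOf T1 Q1 B1 401) = true := by decide +kernel
def ch1_6_18 : check 8 (msOf T1 Q1 B1 402) = true := by decide +kernel
def ch1_6_19 : check 8 (msOf T1 Q1 B1 403) = true := by decide +kernel
def ch1_6_20 : check 8 (msOf T1 Q1 B1 404) = true := by decide +kernel
def ch1_6_21 : check 8 (msOf T1 Q1 B1 405) = true := by decide +kernel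
def ch1_6_22 : check 8 (msOf T1 Q1 B1 406) = true := by decide +kernel
def ch1_6_23 : check 8 (msOf T1 Q1 B1 407) = true := by decide +kernel
def ch1_6_24 : check 8 (msOf T1 Q1 B1 408) = true := by decide +kernel
def ch1_6_25 : check 8 (msOf T1 Q1 B1 409) = true := by decide +kernel
def ch1_6_26 : check 8 (msOf T1 Q1 B1 410) = true := by decide +kernel
def ch1_6_27 : check 8 (msOf T1 Q1 B1 411) = true := by decide +kernel
def ch1_6_28 : check 8 (msOf T1 Q1 B1 412) = true := by decide +kernel
def ch1_6_29 : check 8 (msOf T1 Q1 B1 413) = true := by decide +kernel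
def ch1_6_30 : check 8 (msOf T1 Q1 B1 414) = true := by decide +kernel
def ch1_6_31 : check 8 (msOf T1 Q1 B1 415) = true := by decide +kernel
def ch1_6_32 : check 8 (msOf T1 Q1 B1 416) = true := by decide +kernel
def ch1_6_33 : check 8 (msOf T1 Q1 B1 417) = true := by decide +kernel
def ch1_6_34 : check 8 (msOf T1 Q1 B1 418) = true := by decide +kernel
def ch1_6_35 : check 8 (msOf T1 Q1 B1 419) = true := by decide +kernel
def ch1_6_36 : check 8 (msOf T1 Q1 B1 420) = true := by decide +kernel
def ch1_6_37 : check 8 (msOf T1 Q1 B1 421) = true := by decide +kernel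
def ch1_6_38 : check 8 (msOf T1 Q1 B1 422) = true := by decide +kernel
def ch1_6_39 : check 8 (msOf T1 Q1 B1 423) = true := by decide +kernel
def ch1_6_40 : check 8 (msOf T1 Q1 B1 424) = true := by decide +kernel
def ch1_6_41 : check 8 (msOf T1 Q1 B1 425) = true := by decide +kernel
def ch1_6_42 : check 8 (msOf T1 Q1 B1 426) = true := by decide +kernel
def ch1_6_43 : check 8 (msOf T1 Q1 B1 427) = true := by decide +kernel
def ch1_6_44 : check 8 (msOf T1 Q1 B1 428) = true := by decide +kernel
def ch1_6_45 : check 8 (msOf T1 Q1 B1 429) = true := by decide +kernel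
def ch1_6_46 : check 8 (msOf T1 Q1 B1 430) = true := by decide +kernel
def ch1_6_47 : check 8 (msOf T1 Q1 B1 431) = true := by decide +kernel
def ch1_6_48 : check 8 (msOf T1 Q1 B1 432) = true := by decide +kernel
def ch1_6_49 : check 8 (msOf T1 Q1 B1 433) = true := by decide +kernel
def ch1_6_50 : check 8 (msOf T1 Q1 B1 434) = true := by decide +kernel
def ch1_6_51 : check 8 (msOf T1 Q1 B1 435) = true := by decide +kernel
def ch1_6_52 : check 8 (msOf T1 Q1 B1 436) = true := by decide +kernel
def ch1_6_53 : check 8 (msOf T1 Q1 B1 437) = true := by decide +kernel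
def ch1_6_54 : check 8 (msOf T1 Q1 B1 438) = true := by decide +kernel
def ch1_6_55 : check 8 (msOf T1 Q1 B1 439) = true := by decide +kernel
def ch1_6_56 : check 8 (msOf T1 Q1 B1 440) = true := by decide +kernel
def ch1_6_57 : check 8 (msOf T1 Q1 B1 441) = true := by decide +kernel
def ch1_6_58 : check 8 (msOf T1 Q1 B1 442) = true := by decide +kernel
def ch1_6_59 : check 8 (msOf T1 Q1 B1 443) = true := by decide +kernel
def ch1_6_60 : check 8 (msOf T1 Q1 B1 444) = true := by decide +kernel
def ch1_6_61 : check 8 (msOf T1 Q1 B1 445) = true := by decide +kernel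
def ch1_6_62 : check 8 (msOf T1 Q1 B1 446) = true := by decide +kernel
def ch1_6_63 : check 8 (msOf T1 Q1 B1 447) = true := by decide +kernel

theorem ch1_6 (h : ℕ) (h0 : 384 ≤ h) (h1 : h < 448) :
    check 8 (msOf T1 Q1 B1 h) = true := by
  interval_cases h
  · exact ch1_6_0
  · exact ch1_6_1
  · exact ch1_6_2
  · exact ch1_6_3
  · exact ch1_6_4
  · exact ch1_6_5
  · exact ch1_6_6
  · exact ch1_6_7
  · exact ch1_6_8
  · exact ch1_6_9
  · exact ch1_6_10
  · exact ch1_6_11
  · exact ch1_6_12
  · exact ch1_6_13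
  · exact ch1_6_14
  · exact ch1_6_15
  · exact ch1_6_16
  · exact ch1_6_17
  · exact ch1_6_18
  · exact ch1_6_19
  · exact ch1_6_20
  · exact ch1_6_21
  · exact ch1_6_22
  · exact ch1_6_23
  · exact ch1_6_24
  · exact ch1_6_25
  · exact ch1_6_26
  · exact ch1_6_27
  · exact ch1_6_28
  · exact ch1_6_29
  · exact ch1_6_30
  · exact ch1_6_31
  · exact ch1_6_32
  · exact ch1_6_33
  · exact ch1_6_34
  · exact ch1_6_35
  · exact ch1_6_36
  · exact ch1_6_37
  · exact ch1_6_38
  · exact ch1_6_39
  · exact ch1_6_40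
  · exact ch1_6_41
  · exact ch1_6_42
  · exact ch1_6_43
  · exact ch1_6_44
  · exact ch1_6_45
  · exact ch1_6_46
  · exact ch1_6_47
  · exact ch1_6_48
  · exact ch1_6_49
  · exact ch1_6_50
  · exact ch1_6_51
  · exact ch1_6_52
  · exact ch1_6_53
  · exact ch1_6_54
  · exact ch1_6_55
  · exact ch1_6_56
  · exact ch1_6_57
  · exact ch1_6_58
  · exact ch1_6_59
  · exact ch1_6_60
  · exact ch1_6_61
  · exact ch1_6_62
  · exact ch1_6_63

end Pool.Agent.H.MP_694475_co
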