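import Pool.Agent.H.MP_694475_co.Chunk

set_option linter.defProp false

namespace Pool.Agent.H.MP_694475_co

def ch1_7_0 : check 8 (msOf T1 Q1 B1 448) = true := by decide +kernel
def ch1_7_1 : check 8 (msOf T1 Q1 B1 449) = true := by decide +kernel
def ch1_7_2 : check 8 (msOf T1 Q1 B1 450) = true := by decide +kernel
def ch1_7_3 : check 8 (msOf T1 Q1 B1 451) = true := by decide +kernel
def ch1_7_4 : check 8 (msOf T1 Q1 B1 452) = true := by decide +kernel
def ch1_7_5 : check 8 (msOf T1 Q1 B1 453) = true := by decide +kernel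
def ch1_7_6 : check 8 (msOf T1 Q1 B1 454) = true := by decide +kernel
def ch1_7_7 : check 8 (msOf T1 Q1 B1 455) = true := by decide +kernel
def ch1_7_8 : check 8 (msOf T1 Q1 B1 456) = true := by decide +kernel
def ch1_7_9 : check 8 (msOf T1 Q1 B1 457) = true := by decide +kernel
def ch1_7_10 : check 8 (msOf T1 Q1 B1 458) = true := by decide +kernel
def ch1_7_11 : check 8 (msOf T1 Q1 B1 459) = true := by decide +kernel
def ch1_7_12 : check 8 (msOf T1 Q1 B1 460) = true := by decide +kernel
def ch1_7_13 : check 8 (msOf T1 Q1 B1 461) = true := by decide +kernel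
def ch1_7_14 : check 8 (msOf T1 Q1 B1 462) = true := by decide +kernel
def ch1_7_15 : check 8 (msOf T1 Q1 B1 463) = true := by decide +kernel
def ch1_7_16 : check 8 (msOf T1 Q1 B1 464) = true := by decide +kernel
def ch1_7_17 : check 8 (msOf T1 Q1 B1 465) = true := by decide +kernel
def ch1_7_18 : check 8 (msOf T1 Q1 B1 466) = true := by decide +kernel
def ch1_7_19 : check 8 (msOf T1 Q1 B1 467) = true := by decide +kernel
def ch1_7_20 : check 8 (msOf T1 Q1 B1 468) = true := by decide +kernel
def ch1_7_21 : check 8 (msOf T1 Q1 B1 469) = true := by decide +kernel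
def ch1_7_22 : check 8 (msOf T1 Q1 B1 470) = true := by decide +kernel
def ch1_7_23 : check 8 (msOf T1 Q1 B1 471) = true := by decide +kernel
def ch1_7_24 : check 8 (msOf T1 Q1 B1 472) = true := by decide +kernel
def ch1_7_25 : check 8 (msOf T1 Q1 B1 473) = true := by decide +kernel
def ch1_7_26 : check 8 (msOf T1 Q1 B1 474) = true := by decide +kernel
def ch1_7_27 : check 8 (msOf T1 Q1 B1 475) = true := by decide +kernel
def ch1_7_28 : check 8 (msOf T1 Q1 B1 476) = true := by decide +kernel
def ch1_7_29 : check 8 (msOf T1 Q1 B1 477) = true := by decide +kernel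
def ch1_7_30 : check 8 (msOf T1 Q1 B1 478) = true := by decide +kernel
def ch1_7_31 : check 8 (msOf T1 Q1 B1 479) = true := by decide +kernel
def ch1_7_32 : check 8 (msOf T1 Q1 B1 480) = true := by decide +kernel
def ch1_7_33 : check 8 (msOf T1 Q1 B1 481) = true := by decide +kernel
def ch1_7_34 : check 8 (msOf T1 Q1 B1 482) = true := by decide +kernel
def ch1_7_35 : check 8 (msOf T1 Q1 B1 483) = true := by decide +kernel
def ch1_7_36 : check 8 (msOf T1 Q1 B1 484) = true := by decide +kernel
def ch1_7_37 : check 8 (msOf T1 Q1 B1 485) = true := by decide +kernel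
def ch1_7_38 : check 8 (msOf T1 Q1 B1 486) = true := by decide +kernel
def ch1_7_39 : check 8 (msOf T1 Q1 B1 487) = true := by decide +kernel
def ch1_7_40 : check 8 (msOf T1 Q1 B1 488) = true := by decide +kernel
def ch1_7_41 : check 8 (msOf T1 Q1 B1 489) = true := by decide +kernel
def ch1_7_42 : check 8 (msOf T1 Q1 B1 490) = true := by decide +kernel
def ch1_7_43 : check 8 (msOf T1 Q1 B1 491) = true := by decide +kernel
def ch1_7_44 : check 8 (msOf T1 Q1 B1 492) = true := by decide +kernel
def ch1_7_45 : check 8 (msOf T1 Q1 B1 493) = true := by decide +kernel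
def ch1_7_46 : check 8 (msOf T1 Q1 B1 494) = true := by decide +kernel
def ch1_7_47 : check 8 (msOf T1 Q1 B1 495) = true := by decide +kernel
def ch1_7_48 : check 8 (msOf T1 Q1 B1 496) = true := by decide +kernel
def ch1_7_49 : check 8 (msOf T1 Q1 B1 497) = true := by decide +kernel
def ch1_7_50 : check 8 (msOf T1 Q1 B1 498) = true := by decide +kernel
def ch1_7_51 : check 8 (msOf T1 Q1 B1 499) = true := by decide +kernel
def ch1_7_52 : check 8 (msOf T1 Q1 B1 500) = true := by decide +kernel
def ch1_7_53 : check 8 (msOf T1 Q1 B1 501) = true := by decide +kernel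
def ch1_7_54 : check 8 (msOf T1 Q1 B1 502) = true := by decide +kernel
def ch1_7_55 : check 8 (msOf T1 Q1 B1 503) = true := by decide +kernel
def ch1_7_56 : check 8 (msOf T1 Q1 B1 504) = true := by decide +kernel
def ch1_7_57 : check 8 (msOf T1 Q1 B1 505) = true := by decide +kernel
def ch1_7_58 : check 8 (msOf T1 Q1 B1 506) = true := by decide +kernel
def ch1_7_59 : check 8 (msOf T1 Q1 B1 507) = true := by decide +kernel
def ch1_7_60 : check 8 (msOf T1 Q1 B1 508) = true := by decide +kernel
def ch1_7_61 : check 8 (msOf T1 Q1 B1 509) = true := by decide +kernel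
def ch1_7_62 : check 8 (msOf T1 Q1 B1 510) = true := by decide +kernel
def ch1_7_63 : check 8 (msOf T1 Q1 B1 511) = true := by decide +kernel

theorem ch1_7 (h : ℕ) (h0 : 448 ≤ h) (h1 : h < 512) :
    check 8 (msOf T1 Q1 B1 h) = true := by
  interval_cases h
  · exact ch1_7_0
  · exact ch1_7_1
  · exact ch1_7_2
  · exact ch1_7_3
  · exact ch1_7_4
  · exact ch1_7_5
  · exact ch1_7_6
  · exact ch1_7_7
  · exact ch1_7_8
  · exact ch1_7_9
  · exact ch1_7_10
  · exact ch1_7_11
  · exact ch1_7_12
  · exact ch1_7_13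
  · exact ch1_7_14
  · exact ch1_7_15
  · exact ch1_7_16
  · exact ch1_7_17
  · exact ch1_7_18
  · exact ch1_7_19
  · exact ch1_7_20
  · exact ch1_7_21
  · exact ch1_7_22
  · exact ch1_7_23
  · exact ch1_7_24
  · exact ch1_7_25
  · exact ch1_7_26
  · exact ch1_7_27
  · exact ch1_7_28
  · exact ch1_7_29
  · exact ch1_7_30
  · exact ch1_7_31
  · exact ch1_7_32
  · exact ch1_7_33
  · exact ch1_7_34
  · exact ch1_7_35
  · exact ch1_7_36
  · exact ch1_7_37
  · exact ch1_7_38
  · exact ch1_7_39
  · exact ch1_7_40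
  · exact ch1_7_41
  · exact ch1_7_42
  · exact ch1_7_43
  · exact ch1_7_44
  · exact ch1_7_45
  · exact ch1_7_46
  · exact ch1_7_47
  · exact ch1_7_48
  · exact ch1_7_49
  · exact ch1_7_50
  · exact ch1_7_51
  · exact ch1_7_52
  · exact ch1_7_53
  · exact ch1_7_54
  · exact ch1_7_55
  · exact ch1_7_56
  · exact ch1_7_57
  · exact ch1_7_58
  · exact ch1_7_59
  · exact ch1_7_60
  · exact ch1_7_61
  · exact ch1_7_62
  · exact ch1_7_63

end Pool.Agent.H.MP_694475_co
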