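import Pool.Agent.H.MP_694475_co.Chunk

set_option linter.defProp false

namespace Pool.Agent.H.MP_694475_co

def ch1_8_0 : check 8 (msOf T1 Q1 B1 512) = true := by decide +kernel
def ch1_8_1 : check 8 (msOf T1 Q1 B1 513) = true := by decide +kernel
def ch1_8_2 : check 8 (msOf T1 Q1 B1 514) = true := by decide +kernel
def ch1_8_3 : check 8 (msOf T1 Q1 B1 515) = true := by decide +kernel
def ch1_8_4 : check 8 (msOf T1 Q1 B1 516) = true := by decide +kernel
def ch1_8_5 : check 8 (msOf T1 Q1 B1 517) = true := by decide +kernel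
def ch1_8_6 : check 8 (msOf T1 Q1 B1 518) = true := by decide +kernel
def ch1_8_7 : check 8 (msOf T1 Q1 B1 519) = true := by decide +kernel
def ch1_8_8 : check 8 (msOf T1 Q1 B1 520) = true := by decide +kernel
def ch1_8_9 : check 8 (msOf T1 Q1 B1 521) = true := by decide +kernel
def ch1_8_10 : check 8 (msOf T1 Q1 B1 522) = true := by decide +kernel
def ch1_8_11 : check 8 (msOf T1 Q1 B1 523) = true := by decide +kernel
def ch1_8_12 : check 8 (msOf T1 Q1 B1 524) = true := by decide +kernel
def ch1_8_13 : check 8 (msOf T1 Q1 B1 525) = true := by decide +kernel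
def ch1_8_14 : check 8 (msOf T1 Q1 B1 526) = true := by decide +kernel
def ch1_8_15 : check 8 (msOf T1 Q1 B1 527) = true := by decide +kernel
def ch1_8_16 : check 8 (msOf T1 Q1 B1 528) = true := by decide +kernel
def ch1_8_17 : check 8 (msOf T1 Q1 B1 529) = true := by decide +kernel
def ch1_8_18 : check 8 (msOf T1 Q1 B1 530) = true := by decide +kernel
def ch1_8_19 : check 8 (msOf T1 Q1 B1 531) = true := by decide +kernel
def ch1_8_20 : check 8 (msOf T1 Q1 B1 532) = true := by decide +kernel
def ch1_8_21 : check 8 (msOf T1 Q1 B1 533) = true := by decide +kernel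
def ch1_8_22 : check 8 (msOf T1 Q1 B1 534) = true := by decide +kernel
def ch1_8_23 : check 8 (msOf T1 Q1 B1 535) = true := by decide +kernel
def ch1_8_24 : check 8 (msOf T1 Q1 B1 536) = true := by decide +kernel
def ch1_8_25 : check 8 (msOf T1 Q1 B1 537) = true := by decide +kernel
def ch1_8_26 : check 8 (msOf T1 Q1 B1 538) = true := by decide +kernel
def ch1_8_27 : check 8 (msOf T1 Q1 B1 539) = true := by decide +kernel
def ch1_8_28 : check 8 (msOf T1 Q1 B1 540) = true := by decide +kernel
def ch1_8_29 : check 8 (msOf T1 Q1 B1 541) = true := by decide +kernel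
def ch1_8_30 : check 8 (msOf T1 Q1 B1 542) = true := by decide +kernel
def ch1_8_31 : check 8 (msOf T1 Q1 B1 543) = true := by decide +kernel
def ch1_8_32 : check 8 (msOf T1 Q1 B1 544) = true := by decide +kernel
def ch1_8_33 : check 8 (msOf T1 Q1 B1 545) = true := by decide +kernel
def ch1_8_34 : check 8 (msOf T1 Q1 B1 546) = true := by decide +kernel
def ch1_8_35 : check 8 (msOf T1 Q1 B1 547) = true := by decide +kernel
def ch1_8_36 : check 8 (msOf T1 Q1 B1 548) = true := by decide +kernel
def ch1_8_37 : check 8 (msOf T1 Q1 B1 549) = true := by decide +kernel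
def ch1_8_38 : check 8 (msOf T1 Q1 B1 550) = true := by decide +kernel
def ch1_8_39 : check 8 (msOf T1 Q1 B1 551) = true := by decide +kernel
def ch1_8_40 : check 8 (msOf T1 Q1 B1 552) = true := by decide +kernel
def ch1_8_41 : check 8 (msOf T1 Q1 B1 553) = true := by decide +kernel
def ch1_8_42 : check 8 (msOf T1 Q1 B1 554) = true := by decide +kernel
def ch1_8_43 : check 8 (msOf T1 Q1 B1 555) = true := by decide +kernel
def ch1_8_44 : check 8 (msOf T1 Q1 B1 556) = true := by decide +kernel
def ch1_8_45 : check 8 (msOf T1 Q1 B1 557) = true := by decide +kernel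
def ch1_8_46 : check 8 (msOf T1 Q1 B1 558) = true := by decide +kernel
def ch1_8_47 : check 8 (msOf T1 Q1 B1 559) = true := by decide +kernel
def ch1_8_48 : check 8 (msOf T1 Q1 B1 560) = true := by decide +kernel
def ch1_8_49 : check 8 (msOf T1 Q1 B1 561) = true := by decide +kernel
def ch1_8_50 : check 8 (msOf T1 Q1 B1 562) = true := by decide +kernel
def ch1_8_51 : check 8 (msOf T1 Q1 B1 563) = true := by decide +kernel
def ch1_8_52 : check 8 (msOf T1 Q1 B1 564) = true := by decide +kernel
def ch1_8_53 : check 8 (msOf T1 Q1 B1 565) = true := by decide +kernel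
def ch1_8_54 : check 8 (msOf T1 Q1 B1 566) = true := by decide +kernel
def ch1_8_55 : check 8 (msOf T1 Q1 B1 567) = true := by decide +kernel
def ch1_8_56 : check 8 (msOf T1 Q1 B1 568) = true := by decide +kernel
def ch1_8_57 : check 8 (msOf T1 Q1 B1 569) = true := by decide +kernel
def ch1_8_58 : check 8 (msOf T1 Q1 B1 570) = true := by decide +kernel
def ch1_8_59 : check 8 (msOf T1 Q1 B1 571) = true := by decide +kernel
def ch1_8_60 : check 8 (msOf T1 Q1 B1 572) = true := by decide +kernel
def ch1_8_61 : check 8 (msOf T1 Q1 B1 573) = true := by decide +kernel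
def ch1_8_62 : check 8 (msOf T1 Q1 B1 574) = true := by decide +kernel
def ch1_8_63 : check 8 (msOf T1 Q1 B1 575) = true := by decide +kernel

theorem ch1_8 (h : ℕ) (h0 : 512 ≤ h) (h1 : h < 576) :
    check 8 (msOf T1 Q1 B1 h) = true := by
  interval_cases h
  · exact ch1_8_0
  · exact ch1_8_1
  · exact ch1_8_2
  · exact ch1_8_3
  · exact ch1_8_4
  · exact ch1_8_5
  · exact ch1_8_6
  · exact ch1_8_7
  · exact ch1_8_8
  · exact ch1_8_9
  · exact ch1_8_10
  · exact ch1_8_11
  · exact ch1_8_12
  · exact ch1_8_13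
  · exact ch1_8_14
  · exact ch1_8_15
  · exact ch1_8_16
  · exact ch1_8_17
  · exact ch1_8_18
  · exact ch1_8_19
  · exact ch1_8_20
  · exact ch1_8_21
  · exact ch1_8_22
  · exact ch1_8_23
  · exact ch1_8_24
  · exact ch1_8_25
  · exact ch1_8_26
  · exact ch1_8_27
  · exact ch1_8_28
  · exact ch1_8_29
  · exact ch1_8_30
  · exact ch1_8_31
  · exact ch1_8_32
  · exact ch1_8_33
  · exact ch1_8_34
  · exact ch1_8_35
  · exact ch1_8_36
  · exact ch1_8_37
  · exact ch1_8_38
  · exact ch1_8_39
  · exact ch1_8_40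
  · exact ch1_8_41
  · exact ch1_8_42
  · exact ch1_8_43
  · exact ch1_8_44
  · exact ch1_8_45
  · exact ch1_8_46
  · exact ch1_8_47
  · exact ch1_8_48
  · exact ch1_8_49
  · exact ch1_8_50
  · exact ch1_8_51
  · exact ch1_8_52
  · exact ch1_8_53
  · exact ch1_8_54
  · exact ch1_8_55
  · exact ch1_8_56
  · exact ch1_8_57
  · exact ch1_8_58
  · exact ch1_8_59
  · exact ch1_8_60
  · exact ch1_8_61
  · exact ch1_8_62
  · exact ch1_8_63

end Pool.Agent.H.MP_694475_co
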