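import Pool.Agent.H.MP_694475_co.Chunk

set_option linter.defProp false

namespace Pool.Agent.H.MP_694475_co

def ch1_9_0 : check 8 (msOf T1 Q1 B1 576) = true := by decide +kernel
def ch1_9_1 : check 8 (msOf T1 Q1 B1 577) = true := by decide +kernel
def ch1_9_2 : check 8 (msOf T1 Q1 B1 578) = true := by decide +kernel
def ch1_9_3 : check 8 (msOf T1 Q1 B1 579) = true := by decide +kernel
def ch1_9_4 : check 8 (msOf T1 Q1 B1 580) = true := by decide +kernel
def ch1_9_5 : check 8 (msOf T1 Q1 B1 581) = true := by decide +kernel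
def ch1_9_6 : check 8 (msOf T1 Q1 B1 582) = true := by decide +kernel
def ch1_9_7 : check 8 (msOf T1 Q1 B1 583) = true := by decide +kernel
def ch1_9_8 : check 8 (msOf T1 Q1 B1 584) = true := by decide +kernel
def ch1_9_9 : check 8 (msOf T1 Q1 B1 585) = true := by decide +kernel
def ch1_9_10 : check 8 (msOf T1 Q1 B1 586) = true := by decide +kernel
def ch1_9_11 : check 8 (msOf T1 Q1 B1 587) = true := by decide +kernel
def ch1_9_12 : check 8 (msOf T1 Q1 B1 588) = true := by decide +kernel
def ch1_9_13 : check 8 (msOf T1 Q1 B1 589) = true := by decide +kernel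
def ch1_9_14 : check 8 (msOf T1 Q1 B1 590) = true := by decide +kernel
def ch1_9_15 : check 8 (msOf T1 Q1 B1 591) = true := by decide +kernel
def ch1_9_16 : check 8 (msOf T1 Q1 B1 592) = true := by decide +kernel
def ch1_9_17 : check 8 (msOf T1 Q1 B1 593) = true := by decide +kernel
def ch1_9_18 : check 8 (msOf T1 Q1 B1 594) = true := by decide +kernel
def ch1_9_19 : check 8 (msOf T1 Q1 B1 595) = true := by decide +kernel
def ch1_9_20 : check 8 (msOf T1 Q1 B1 596) = true := by decide +kernel
def ch1_9_21 : check 8 (msOf T1 Q1 B1 597) = true := by decide +kernel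
def ch1_9_22 : check 8 (msOf T1 Q1 B1 598) = true := by decide +kernel
def ch1_9_23 : check 8 (msOf T1 Q1 B1 599) = true := by decide +kernel
def ch1_9_24 : check 8 (msOf T1 Q1 B1 600) = true := by decide +kernel
def ch1_9_25 : check 8 (msOf T1 Q1 B1 601) = true := by decide +kernel
def ch1_9_26 : check 8 (msOf T1 Q1 B1 602) = true := by decide +kernel
def ch1_9_27 : check 8 (msOf T1 Q1 B1 603) = true := by decide +kernel
def ch1_9_28 : check 8 (msOf T1 Q1 B1 604) = true := by decide +kernel
def ch1_9_29 : check 8 (msOf T1 Q1 B1 605) = true := by decide +kernel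
def ch1_9_30 : check 8 (msOf T1 Q1 B1 606) = true := by decide +kernel
def ch1_9_31 : check 8 (msOf T1 Q1 B1 607) = true := by decide +kernel
def ch1_9_32 : check 8 (msOf T1 Q1 B1 608) = true := by decide +kernel
def ch1_9_33 : check 8 (msOf T1 Q1 B1 609) = true := by decide +kernel
def ch1_9_34 : check 8 (msOf T1 Q1 B1 610) = true := by decide +kernel
def ch1_9_35 : check 8 (msOf T1 Q1 B1 611) = true := by decide +kernel
def ch1_9_36 : check 8 (msOf T1 Q1 B1 612) = true := by decide +kernel
def ch1_9_37 : check 8 (msOf T1 Q1 B1 613) = true := by decide +kernel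
def ch1_9_38 : check 8 (msOf T1 Q1 B1 614) = true := by decide +kernel
def ch1_9_39 : check 8 (msOf T1 Q1 B1 615) = true := by decide +kernel
def ch1_9_40 : check 8 (msOf T1 Q1 B1 616) = true := by decide +kernel
def ch1_9_41 : check 8 (msOf T1 Q1 B1 617) = true := by decide +kernel
def ch1_9_42 : check 8 (msOf T1 Q1 B1 618) = true := by decide +kernel
def ch1_9_43 : check 8 (msOf T1 Q1 B1 619) = true := by decide +kernel
def ch1_9_44 : check 8 (msOf T1 Q1 B1 620) = true := by decide +kernel
def ch1_9_45 : check 8 (msOf T1 Q1 B1 621) = true := by decide +kernel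
def ch1_9_46 : check 8 (msOf T1 Q1 B1 622) = true := by decide +kernel
def ch1_9_47 : check 8 (msOf T1 Q1 B1 623) = true := by decide +kernel
def ch1_9_48 : check 8 (msOf T1 Q1 B1 624) = true := by decide +kernel
def ch1_9_49 : check 8 (msOf T1 Q1 B1 625) = true := by decide +kernel
def ch1_9_50 : check 8 (msOf T1 Q1 B1 626) = true := by decide +kernel
def ch1_9_51 : check 8 (msOf T1 Q1 B1 627) = true := by decide +kernel
def ch1_9_52 : check 8 (msOf T1 Q1 B1 628) = true := by decide +kernel
def ch1_9_53 : check 8 (msOf T1 Q1 B1 629) = true := by decide +kernel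
def ch1_9_54 : check 8 (msOf T1 Q1 B1 630) = true := by decide +kernel
def ch1_9_55 : check 8 (msOf T1 Q1 B1 631) = true := by decide +kernel
def ch1_9_56 : check 8 (msOf T1 Q1 B1 632) = true := by decide +kernel
def ch1_9_57 : check 8 (msOf T1 Q1 B1 633) = true := by decide +kernel
def ch1_9_58 : check 8 (msOf T1 Q1 B1 634) = true := by decide +kernel
def ch1_9_59 : check 8 (msOf T1 Q1 B1 635) = true := by decide +kernel
def ch1_9_60 : check 8 (msOf T1 Q1 B1 636) = true := by decide +kernel
def ch1_9_61 : check 8 (msOf T1 Q1 B1 637) = true := by decide +kernel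
def ch1_9_62 : check 8 (msOf T1 Q1 B1 638) = true := by decide +kernel
def ch1_9_63 : check 8 (msOf T1 Q1 B1 639) = true := by decide +kernel

theorem ch1_9 (h : ℕ) (h0 : 576 ≤ h) (h1 : h < 640) :
    check 8 (msOf T1 Q1 B1 h) = true := by
  interval_cases h
  · exact ch1_9_0
  · exact ch1_9_1
  · exact ch1_9_2
  · exact ch1_9_3
  · exact ch1_9_4
  · exact ch1_9_5
  · exact ch1_9_6
  · exact ch1_9_7
  · exact ch1_9_8
  · exact ch1_9_9
  · exact ch1_9_10
  · exact ch1_9_11
  · exact ch1_9_12
  · exact ch1_9_13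
  · exact ch1_9_14
  · exact ch1_9_15
  · exact ch1_9_16
  · exact ch1_9_17
  · exact ch1_9_18
  · exact ch1_9_19
  · exact ch1_9_20
  · exact ch1_9_21
  · exact ch1_9_22
  · exact ch1_9_23
  · exact ch1_9_24
  · exact ch1_9_25
  · exact ch1_9_26
  · exact ch1_9_27
  · exact ch1_9_28
  · exact ch1_9_29
  · exact ch1_9_30
  · exact ch1_9_31
  · exact ch1_9_32
  · exact ch1_9_33
  · exact ch1_9_34
  · exact ch1_9_35
  · exact ch1_9_36
  · exact ch1_9_37
  · exact ch1_9_38
  · exact ch1_9_39
  · exact ch1_9_40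
  · exact ch1_9_41
  · exact ch1_9_42
  · exact ch1_9_43
  · exact ch1_9_44
  · exact ch1_9_45
  · exact ch1_9_46
  · exact ch1_9_47
  · exact ch1_9_48
  · exact ch1_9_49
  · exact ch1_9_50
  · exact ch1_9_51
  · exact ch1_9_52
  · exact ch1_9_53
  · exact ch1_9_54
  · exact ch1_9_55
  · exact ch1_9_56
  · exact ch1_9_57
  · exact ch1_9_58
  · exact ch1_9_59
  · exact ch1_9_60
  · exact ch1_9_61
  · exact ch1_9_62
  · exact ch1_9_63

end Pool.Agent.H.MP_694475_co
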