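import Pool.Agent.H.MP_694475_co.Chunk

set_option linter.defProp false

namespace Pool.Agent.H.MP_694475_co

def ch2_0_0 : check 8 (msOf T2 Q2 B2 0) = true := by decide +kernel
def ch2_0_1 : check 8 (msOf T2 Q2 B2 1) = true := by decide +kernel
def ch2_0_2 : check 8 (msOf T2 Q2 B2 2) = true := by decide +kernel
def ch2_0_3 : check 8 (msOf T2 Q2 B2 3) = true := by decide +kernel
def ch2_0_4 : check 8 (msOf T2 Q2 B2 4) = true := by decide +kernel
def ch2_0_5 : check 8 (msOf T2 Q2 B2 5) = true := by decide +kernel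
def ch2_0_6 : check 8 (msOf T2 Q2 B2 6) = true := by decide +kernel
def ch2_0_7 : check 8 (msOf T2 Q2 B2 7) = true := by decide +kernel
def ch2_0_8 : check 8 (msOf T2 Q2 B2 8) = true := by decide +kernel
def ch2_0_9 : check 8 (msOf T2 Q2 B2 9) = true := by decide +kernel
def ch2_0_10 : check 8 (msOf T2 Q2 B2 10) = true := by decide +kernel
def ch2_0_11 : check 8 (msOf T2 Q2 B2 11) = true := by decide +kernel
def ch2_0_12 : check 8 (msOf T2 Q2 B2 12) = true := by decide +kernel
def ch2_0_13 : check 8 (msOf T2 Q2 B2 13) = true := by decide +kernel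
def ch2_0_14 : check 8 (msOf T2 Q2 B2 14) = true := by decide +kernel
def ch2_0_15 : check 8 (msOf T2 Q2 B2 15) = true := by decide +kernel
def ch2_0_16 : check 8 (msOf T2 Q2 B2 16) = true := by decide +kernel
def ch2_0_17 : check 8 (msOf T2 Q2 B2 17) = true := by decide +kernel
def ch2_0_18 : check 8 (msOf T2 Q2 B2 18) = true := by decide +kernel
def ch2_0_19 : check 8 (msOf T2 Q2 B2 19) = true := by decide +kernel
def ch2_0_20 : check 8 (msOf T2 Q2 B2 20) = true := by decide +kernel
def ch2_0_21 : check 8 (msOf T2 Q2 B2 21) = true := by decide +kernel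
def ch2_0_22 : check 8 (msOf T2 Q2 B2 22) = true := by decide +kernel
def ch2_0_23 : check 8 (msOf T2 Q2 B2 23) = true := by decide +kernel
def ch2_0_24 : check 8 (msOf T2 Q2 B2 24) = true := by decide +kernel
def ch2_0_25 : check 8 (msOf T2 Q2 B2 25) = true := by decide +kernel
def ch2_0_26 : check 8 (msOf T2 Q2 B2 26) = true := by decide +kernel
def ch2_0_27 : check 8 (msOf T2 Q2 B2 27) = true := by decide +kernel
def ch2_0_28 : check 8 (msOf T2 Q2 B2 28) = true := by decide +kernel
def ch2_0_29 : check 8 (msOf T2 Q2 B2 29) = true := by decide +kernel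
def ch2_0_30 : check 8 (msOf T2 Q2 B2 30) = true := by decide +kernel
def ch2_0_31 : check 8 (msOf T2 Q2 B2 31) = true := by decide +kernel
def ch2_0_32 : check 8 (msOf T2 Q2 B2 32) = true := by decide +kernel
def ch2_0_33 : check 8 (msOf T2 Q2 B2 33) = true := by decide +kernel
def ch2_0_34 : check 8 (msOf T2 Q2 B2 34) = true := by decide +kernel
def ch2_0_35 : check 8 (msOf T2 Q2 B2 35) = true := by decide +kernel
def ch2_0_36 : check 8 (msOf T2 Q2 B2 36) = true := by decide +kernel
def ch2_0_37 : check 8 (msOf T2 Q2 B2 37) = true := by decide +kernel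
def ch2_0_38 : check 8 (msOf T2 Q2 B2 38) = true := by decide +kernel
def ch2_0_39 : check 8 (msOf T2 Q2 B2 39) = true := by decide +kernel
def ch2_0_40 : check 8 (msOf T2 Q2 B2 40) = true := by decide +kernel
def ch2_0_41 : check 8 (msOf T2 Q2 B2 41) = true := by decide +kernel
def ch2_0_42 : check 8 (msOf T2 Q2 B2 42) = true := by decide +kernel
def ch2_0_43 : check 8 (msOf T2 Q2 B2 43) = true := by decide +kernel
def ch2_0_44 : check 8 (msOf T2 Q2 B2 44) = true := by decide +kernel
def ch2_0_45 : check 8 (msOf T2 Q2 B2 45) = true := by decide +kernel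
def ch2_0_46 : check 8 (msOf T2 Q2 B2 46) = true := by decide +kernel
def ch2_0_47 : check 8 (msOf T2 Q2 B2 47) = true := by decide +kernel
def ch2_0_48 : check 8 (msOf T2 Q2 B2 48) = true := by decide +kernel
def ch2_0_49 : check 8 (msOf T2 Q2 B2 49) = true := by decide +kernel
def ch2_0_50 : check 8 (msOf T2 Q2 B2 50) = true := by decide +kernel
def ch2_0_51 : check 8 (msOf T2 Q2 B2 51) = true := by decide +kernel
def ch2_0_52 : check 8 (msOf T2 Q2 B2 52) = true := by decide +kernel
def ch2_0_53 : check 8 (msOf T2 Q2 B2 53) = true := by decide +kernel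
def ch2_0_54 : check 8 (msOf T2 Q2 B2 54) = true := by decide +kernel
def ch2_0_55 : check 8 (msOf T2 Q2 B2 55) = true := by decide +kernel
def ch2_0_56 : check 8 (msOf T2 Q2 B2 56) = true := by decide +kernel
def ch2_0_57 : check 8 (msOf T2 Q2 B2 57) = true := by decide +kernel
def ch2_0_58 : check 8 (msOf T2 Q2 B2 58) = true := by decide +kernel
def ch2_0_59 : check 8 (msOf T2 Q2 B2 59) = true := by decide +kernel
def ch2_0_60 : check 8 (msOf T2 Q2 B2 60) = true := by decide +kernel
def ch2_0_61 : check 8 (msOf T2 Q2 B2 61) = true := by decide +kernel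
def ch2_0_62 : check 8 (msOf T2 Q2 B2 62) = true := by decide +kernel
def ch2_0_63 : check 8 (msOf T2 Q2 B2 63) = true := by decide +kernel

theorem ch2_0 (h : ℕ) (h0 : 0 ≤ h) (h1 : h < 64) :
    check 8 (msOf T2 Q2 B2 h) = true := by
  interval_cases h
  · exact ch2_0_0
  · exact ch2_0_1
  · exact ch2_0_2
  · exact ch2_0_3
  · exact ch2_0_4
  · exact ch2_0_5
  · exact ch2_0_6
  · exact ch2_0_7
  · exact ch2_0_8
  · exact ch2_0_9
  · exact ch2_0_10
  · exact ch2_0_11
  · exact ch2_0_12
  · exact ch2_0_13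
  · exact ch2_0_14
  · exact ch2_0_15
  · exact ch2_0_16
  · exact ch2_0_17
  · exact ch2_0_18
  · exact ch2_0_19
  · exact ch2_0_20
  · exact ch2_0_21
  · exact ch2_0_22
  · exact ch2_0_23
  · exact ch2_0_24
  · exact ch2_0_25
  · exact ch2_0_26
  · exact ch2_0_27
  · exact ch2_0_28
  · exact ch2_0_29
  · exact ch2_0_30
  · exact ch2_0_31
  · exact ch2_0_32
  · exact ch2_0_33
  · exact ch2_0_34
  · exact ch2_0_35
  · exact ch2_0_36
  · exact ch2_0_37
  · exact ch2_0_38
  · exact ch2_0_39
  · exact ch2_0_40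
  · exact ch2_0_41
  · exact ch2_0_42
  · exact ch2_0_43
  · exact ch2_0_44
  · exact ch2_0_45
  · exact ch2_0_46
  · exact ch2_0_47
  · exact ch2_0_48
  · exact ch2_0_49
  · exact ch2_0_50
  · exact ch2_0_51
  · exact ch2_0_52
  · exact ch2_0_53
  · exact ch2_0_54
  · exact ch2_0_55
  · exact ch2_0_56
  · exact ch2_0_57
  · exact ch2_0_58
  · exact ch2_0_59
  · exact ch2_0_60
  · exact ch2_0_61
  · exact ch2_0_62
  · exact ch2_0_63

end Pool.Agent.H.MP_694475_co
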