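import Pool.Agent.H.MP_694475_co.Chunk

set_option linter.defProp false

namespace Pool.Agent.H.MP_694475_co

def ch2_1_0 : check 8 (msOf T2 Q2 B2 64) = true := by decide +kernel
def ch2_1_1 : check 8 (msOf T2 Q2 B2 65) = true := by decide +kernel
def ch2_1_2 : check 8 (msOf T2 Q2 B2 66) = true := by decide +kernel
def ch2_1_3 : check 8 (msOf T2 Q2 B2 67) = true := by decide +kernel
def ch2_1_4 : check 8 (msOf T2 Q2 B2 68) = true := by decide +kernel
def ch2_1_5 : check 8 (msOf T2 Q2 B2 69) = true := by decide +kernel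
def ch2_1_6 : check 8 (msOf T2 Q2 B2 70) = true := by decide +kernel
def ch2_1_7 : check 8 (msOf T2 Q2 B2 71) = true := by decide +kernel
def ch2_1_8 : check 8 (msOf T2 Q2 B2 72) = true := by decide +kernel
def ch2_1_9 : check 8 (msOf T2 Q2 B2 73) = true := by decide +kernel
def ch2_1_10 : check 8 (msOf T2 Q2 B2 74) = true := by decide +kernel
def ch2_1_11 : check 8 (msOf T2 Q2 B2 75) = true := by decide +kernel
def ch2_1_12 : check 8 (msOf T2 Q2 B2 76) = true := by decide +kernel
def ch2_1_13 : check 8 (msOf T2 Q2 B2 77) = true := by decide +kernel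
def ch2_1_14 : check 8 (msOf T2 Q2 B2 78) = true := by decide +kernel
def ch2_1_15 : check 8 (msOf T2 Q2 B2 79) = true := by decide +kernel
def ch2_1_16 : check 8 (msOf T2 Q2 B2 80) = true := by decide +kernel
def ch2_1_17 : check 8 (msOf T2 Q2 B2 81) = true := by decide +kernel
def ch2_1_18 : check 8 (msOf T2 Q2 B2 82) = true := by decide +kernel
def ch2_1_19 : check 8 (msOf T2 Q2 B2 83) = true := by decide +kernel
def ch2_1_20 : check 8 (msOf T2 Q2 B2 84) = true := by decide +kernel
def ch2_1_21 : check 8 (msOf T2 Q2 B2 85) = true := by decide +kernel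
def ch2_1_22 : check 8 (msOf T2 Q2 B2 86) = true := by decide +kernel
def ch2_1_23 : check 8 (msOf T2 Q2 B2 87) = true := by decide +kernel
def ch2_1_24 : check 8 (msOf T2 Q2 B2 88) = true := by decide +kernel
def ch2_1_25 : check 8 (msOf T2 Q2 B2 89) = true := by decide +kernel
def ch2_1_26 : check 8 (msOf T2 Q2 B2 90) = true := by decide +kernel
def ch2_1_27 : check 8 (msOf T2 Q2 B2 91) = true := by decide +kernel
def ch2_1_28 : check 8 (msOf T2 Q2 B2 92) = true := by decide +kernel
def ch2_1_29 : check 8 (msOf T2 Q2 B2 93) = true := by decide +kernel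
def ch2_1_30 : check 8 (msOf T2 Q2 B2 94) = true := by decide +kernel
def ch2_1_31 : check 8 (msOf T2 Q2 B2 95) = true := by decide +kernel
def ch2_1_32 : check 8 (msOf T2 Q2 B2 96) = true := by decide +kernel
def ch2_1_33 : check 8 (msOf T2 Q2 B2 97) = true := by decide +kernel
def ch2_1_34 : check 8 (msOf T2 Q2 B2 98) = true := by decide +kernel
def ch2_1_35 : check 8 (msOf T2 Q2 B2 99) = true := by decide +kernel
def ch2_1_36 : check 8 (msOf T2 Q2 B2 100) = true := by decide +kernel
def ch2_1_37 : check 8 (msOf T2 Q2 B2 101) = true := by decide +kernel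
def ch2_1_38 : check 8 (msOf T2 Q2 B2 102) = true := by decide +kernel
def ch2_1_39 : check 8 (msOf T2 Q2 B2 103) = true := by decide +kernel
def ch2_1_40 : check 8 (msOf T2 Q2 B2 104) = true := by decide +kernel
def ch2_1_41 : check 8 (msOf T2 Q2 B2 105) = true := by decide +kernel
def ch2_1_42 : check 8 (msOf T2 Q2 B2 106) = true := by decide +kernel
def ch2_1_43 : check 8 (msOf T2 Q2 B2 107) = true := by decide +kernel
def ch2_1_44 : check 8 (msOf T2 Q2 B2 108) = true := by decide +kernel
def ch2_1_45 : check 8 (msOf T2 Q2 B2 109) = true := by decide +kernel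
def ch2_1_46 : check 8 (msOf T2 Q2 B2 110) = true := by decide +kernel
def ch2_1_47 : check 8 (msOf T2 Q2 B2 111) = true := by decide +kernel
def ch2_1_48 : check 8 (msOf T2 Q2 B2 112) = true := by decide +kernel
def ch2_1_49 : check 8 (msOf T2 Q2 B2 113) = true := by decide +kernel
def ch2_1_50 : check 8 (msOf T2 Q2 B2 114) = true := by decide +kernel
def ch2_1_51 : check 8 (msOf T2 Q2 B2 115) = true := by decide +kernel
def ch2_1_52 : check 8 (msOf T2 Q2 B2 116) = true := by decide +kernel
def ch2_1_53 : check 8 (msOf T2 Q2 B2 117) = true := by decide +kernel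
def ch2_1_54 : check 8 (msOf T2 Q2 B2 118) = true := by decide +kernel
def ch2_1_55 : check 8 (msOf T2 Q2 B2 119) = true := by decide +kernel
def ch2_1_56 : check 8 (msOf T2 Q2 B2 120) = true := by decide +kernel
def ch2_1_57 : check 8 (msOf T2 Q2 B2 121) = true := by decide +kernel
def ch2_1_58 : check 8 (msOf T2 Q2 B2 122) = true := by decide +kernel
def ch2_1_59 : check 8 (msOf T2 Q2 B2 123) = true := by decide +kernel
def ch2_1_60 : check 8 (msOf T2 Q2 B2 124) = true := by decide +kernel
def ch2_1_61 : check 8 (msOf T2 Q2 B2 125) = true := by decide +kernel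
def ch2_1_62 : check 8 (msOf T2 Q2 B2 126) = true := by decide +kernel
def ch2_1_63 : check 8 (msOf T2 Q2 B2 127) = true := by decide +kernel

theorem ch2_1 (h : ℕ) (h0 : 64 ≤ h) (h1 : h < 128) :
    check 8 (msOf T2 Q2 B2 h) = true := by
  interval_cases h
  · exact ch2_1_0
  · exact ch2_1_1
  · exact ch2_1_2
  · exact ch2_1_3
  · exact ch2_1_4
  · exact ch2_1_5
  · exact ch2_1_6
  · exact ch2_1_7
  · exact ch2_1_8
  · exact ch2_1_9
  · exact ch2_1_10
  · exact ch2_1_11
  · exact ch2_1_12
  · exact ch2_1_13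
  · exact ch2_1_14
  · exact ch2_1_15
  · exact ch2_1_16
  · exact ch2_1_17
  · exact ch2_1_18
  · exact ch2_1_19
  · exact ch2_1_20
  · exact ch2_1_21
  · exact ch2_1_22
  · exact ch2_1_23
  · exact ch2_1_24
  · exact ch2_1_25
  · exact ch2_1_26
  · exact ch2_1_27
  · exact ch2_1_28
  · exact ch2_1_29
  · exact ch2_1_30
  · exact ch2_1_31
  · exact ch2_1_32
  · exact ch2_1_33
  · exact ch2_1_34
  · exact ch2_1_35
  · exact ch2_1_36
  · exact ch2_1_37
  · exact ch2_1_38
  · exact ch2_1_39
  · exact ch2_1_40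
  · exact ch2_1_41
  · exact ch2_1_42
  · exact ch2_1_43
  · exact ch2_1_44
  · exact ch2_1_45
  · exact ch2_1_46
  · exact ch2_1_47
  · exact ch2_1_48
  · exact ch2_1_49
  · exact ch2_1_50
  · exact ch2_1_51
  · exact ch2_1_52
  · exact ch2_1_53
  · exact ch2_1_54
  · exact ch2_1_55
  · exact ch2_1_56
  · exact ch2_1_57
  · exact ch2_1_58
  · exact ch2_1_59
  · exact ch2_1_60
  · exact ch2_1_61
  · exact ch2_1_62
  · exact ch2_1_63

end Pool.Agent.H.MP_694475_co
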