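import Pool.Agent.H.MP_694475_co.Chunk

set_option linter.defProp false

namespace Pool.Agent.H.MP_694475_co

def ch2_10_0 : check 8 (msOf T2 Q2 B2 640) = true := by decide +kernel
def ch2_10_1 : check 8 (msOf T2 Q2 B2 641) = true := by decide +kernel
def ch2_10_2 : check 8 (msOf T2 Q2 B2 642) = true := by decide +kernel
def ch2_10_3 : check 8 (msOf T2 Q2 B2 643) = true := by decide +kernel
def ch2_10_4 : check 8 (msOf T2 Q2 B2 644) = true := by decide +kernel
def ch2_10_5 : check 8 (msOf T2 Q2 B2 645) = true := by decide +kernel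
def ch2_10_6 : check 8 (msOf T2 Q2 B2 646) = true := by decide +kernel
def ch2_10_7 : check 8 (msOf T2 Q2 B2 647) = true := by decide +kernel
def ch2_10_8 : check 8 (msOf T2 Q2 B2 648) = true := by decide +kernel
def ch2_10_9 : check 8 (msOf T2 Q2 B2 649) = true := by decide +kernel
def ch2_10_10 : check 8 (msOf T2 Q2 B2 650) = true := by decide +kernel
def ch2_10_11 : check 8 (msOf T2 Q2 B2 651) = true := by decide +kernel
def ch2_10_12 : check 8 (msOf T2 Q2 B2 652) = true := by decide +kernel
def ch2_10_13 : check 8 (msOf T2 Q2 B2 653) = true := by decide +kernel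
def ch2_10_14 : check 8 (msOf T2 Q2 B2 654) = true := by decide +kernel
def ch2_10_15 : check 8 (msOf T2 Q2 B2 655) = true := by decide +kernel
def ch2_10_16 : check 8 (msOf T2 Q2 B2 656) = true := by decide +kernel
def ch2_10_17 : check 8 (msOf T2 Q2 B2 657) = true := by decide +kernel
def ch2_10_18 : check 8 (msOf T2 Q2 B2 658) = true := by decide +kernel
def ch2_10_19 : check 8 (msOf T2 Q2 B2 659) = true := by decide +kernel
def ch2_10_20 : check 8 (msOf T2 Q2 B2 660) = true := by decide +kernel
def ch2_10_21 : check 8 (msOf T2 Q2 B2 661) = true := by decide +kernel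
def ch2_10_22 : check 8 (msOf T2 Q2 B2 662) = true := by decide +kernel
def ch2_10_23 : check 8 (msOf T2 Q2 B2 663) = true := by decide +kernel
def ch2_10_24 : check 8 (msOf T2 Q2 B2 664) = true := by decide +kernel
def ch2_10_25 : check 8 (msOf T2 Q2 B2 665) = true := by decide +kernel
def ch2_10_26 : check 8 (msOf T2 Q2 B2 666) = true := by decide +kernel
def ch2_10_27 : check 8 (msOf T2 Q2 B2 667) = true := by decide +kernel
def ch2_10_28 : check 8 (msOf T2 Q2 B2 668) = true := by decide +kernel
def ch2_10_29 : check 8 (msOf T2 Q2 B2 669) = true := by decide +kernel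
def ch2_10_30 : check 8 (msOf T2 Q2 B2 670) = true := by decide +kernel
def ch2_10_31 : check 8 (msOf T2 Q2 B2 671) = true := by decide +kernel
def ch2_10_32 : check 8 (msOf T2 Q2 B2 672) = true := by decide +kernel
def ch2_10_33 : check 8 (msOf T2 Q2 B2 673) = true := by decide +kernel
def ch2_10_34 : check 8 (msOf T2 Q2 B2 674) = true := by decide +kernel
def ch2_10_35 : check 8 (msOf T2 Q2 B2 675) = true := by decide +kernel
def ch2_10_36 : check 8 (msOf T2 Q2 B2 676) = true := by decide +kernel
def ch2_10_37 : check 8 (msOf T2 Q2 B2 677) = true := by decide +kernel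
def ch2_10_38 : check 8 (msOf T2 Q2 B2 678) = true := by decide +kernel
def ch2_10_39 : check 8 (msOf T2 Q2 B2 679) = true := by decide +kernel
def ch2_10_40 : check 8 (msOf T2 Q2 B2 680) = true := by decide +kernel
def ch2_10_41 : check 8 (msOf T2 Q2 B2 681) = true := by decide +kernel
def ch2_10_42 : check 8 (msOf T2 Q2 B2 682) = true := by decide +kernel
def ch2_10_43 : check 8 (msOf T2 Q2 B2 683) = true := by decide +kernel
def ch2_10_44 : check 8 (msOf T2 Q2 B2 684) = true := by decide +kernel
def ch2_10_45 : check 8 (msOf T2 Q2 B2 685) = true := by decide +kernel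
def ch2_10_46 : check 8 (msOf T2 Q2 B2 686) = true := by decide +kernel
def ch2_10_47 : check 8 (msOf T2 Q2 B2 687) = true := by decide +kernel
def ch2_10_48 : check 8 (msOf T2 Q2 B2 688) = true := by decide +kernel
def ch2_10_49 : check 8 (msOf T2 Q2 B2 689) = true := by decide +kernel
def ch2_10_50 : check 8 (msOf T2 Q2 B2 690) = true := by decide +kernel
def ch2_10_51 : check 8 (msOf T2 Q2 B2 691) = true := by decide +kernel
def ch2_10_52 : check 8 (msOf T2 Q2 B2 692) = true := by decide +kernel
def ch2_10_53 : check 8 (msOf T2 Q2 B2 693) = true := by decide +kernel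
def ch2_10_54 : check 8 (msOf T2 Q2 B2 694) = true := by decide +kernel
def ch2_10_55 : check 8 (msOf T2 Q2 B2 695) = true := by decide +kernel
def ch2_10_56 : check 8 (msOf T2 Q2 B2 696) = true := by decide +kernel
def ch2_10_57 : check 8 (msOf T2 Q2 B2 697) = true := by decide +kernel
def ch2_10_58 : check 8 (msOf T2 Q2 B2 698) = true := by decide +kernel
def ch2_10_59 : check 8 (msOf T2 Q2 B2 699) = true := by decide +kernel
def ch2_10_60 : check 8 (msOf T2 Q2 B2 700) = true := by decide +kernel
def ch2_10_61 : check 8 (msOf T2 Q2 B2 701) = true := by decide +kernel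
def ch2_10_62 : check 8 (msOf T2 Q2 B2 702) = true := by decide +kernel
def ch2_10_63 : check 8 (msOf T2 Q2 B2 703) = true := by decide +kernel

theorem ch2_10 (h : ℕ) (h0 : 640 ≤ h) (h1 : h < 704) :
    check 8 (msOf T2 Q2 B2 h) = true := by
  interval_cases h
  · exact ch2_10_0
  · exact ch2_10_1
  · exact ch2_10_2
  · exact ch2_10_3
  · exact ch2_10_4
  · exact ch2_10_5
  · exact ch2_10_6
  · exact ch2_10_7
  · exact ch2_10_8
  · exact ch2_10_9
  · exact ch2_10_10
  · exact ch2_10_11
  · exact ch2_10_12
  · exact ch2_10_13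
  · exact ch2_10_14
  · exact ch2_10_15
  · exact ch2_10_16
  · exact ch2_10_17
  · exact ch2_10_18
  · exact ch2_10_19
  · exact ch2_10_20
  · exact ch2_10_21
  · exact ch2_10_22
  · exact ch2_10_23
  · exact ch2_10_24
  · exact ch2_10_25
  · exact ch2_10_26
  · exact ch2_10_27
  · exact ch2_10_28
  · exact ch2_10_29
  · exact ch2_10_30
  · exact ch2_10_31
  · exact ch2_10_32
  · exact ch2_10_33
  · exact ch2_10_34
  · exact ch2_10_35
  · exact ch2_10_36
  · exact ch2_10_37
  · exact ch2_10_38
  · exact ch2_10_39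
  · exact ch2_10_40
  · exact ch2_10_41
  · exact ch2_10_42
  · exact ch2_10_43
  · exact ch2_10_44
  · exact ch2_10_45
  · exact ch2_10_46
  · exact ch2_10_47
  · exact ch2_10_48
  · exact ch2_10_49
  · exact ch2_10_50
  · exact ch2_10_51
  · exact ch2_10_52
  · exact ch2_10_53
  · exact ch2_10_54
  · exact ch2_10_55
  · exact ch2_10_56
  · exact ch2_10_57
  · exact ch2_10_58
  · exact ch2_10_59
  · exact ch2_10_60
  · exact ch2_10_61
  · exact ch2_10_62
  · exact ch2_10_63

end Pool.Agent.H.MP_694475_co
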