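import Pool.Agent.H.MP_694475_co.Chunk

set_option linter.defProp false

namespace Pool.Agent.H.MP_694475_co

def ch2_12_0 : check 8 (msOf T2 Q2 B2 768) = true := by decide +kernel
def ch2_12_1 : check 8 (msOf T2 Q2 B2 769) = true := by decide +kernel
def ch2_12_2 : check 8 (msOf T2 Q2 B2 770) = true := by decide +kernel
def ch2_12_3 : check 8 (msOf T2 Q2 B2 771) = true := by decide +kernel
def ch2_12_4 : check 8 (msOf T2 Q2 B2 772) = true := by decide +kernel
def ch2_12_5 : check 8 (msOf T2 Q2 B2 773) = true := by decide +kernel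
def ch2_12_6 : check 8 (msOf T2 Q2 B2 774) = true := by decide +kernel
def ch2_12_7 : check 8 (msOf T2 Q2 B2 775) = true := by decide +kernel
def ch2_12_8 : check 8 (msOf T2 Q2 B2 776) = true := by decide +kernel
def ch2_12_9 : check 8 (msOf T2 Q2 B2 777) = true := by decide +kernel
def ch2_12_10 : check 8 (msOf T2 Q2 B2 778) = true := by decide +kernel
def ch2_12_11 : check 8 (msOf T2 Q2 B2 779) = true := by decide +kernel
def ch2_12_12 : check 8 (msOf T2 Q2 B2 780) = true := by decide +kernel
def ch2_12_13 : check 8 (msOf T2 Q2 B2 781) = true := by decide +kernel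
def ch2_12_14 : check 8 (msOf T2 Q2 B2 782) = true := by decide +kernel
def ch2_12_15 : check 8 (msOf T2 Q2 B2 783) = true := by decide +kernel
def ch2_12_16 : check 8 (msOf T2 Q2 B2 784) = true := by decide +kernel
def ch2_12_17 : check 8 (msOf T2 Q2 B2 785) = true := by decide +kernel
def ch2_12_18 : check 8 (msOf T2 Q2 B2 786) = true := by decide +kernel
def ch2_12_19 : check 8 (msOf T2 Q2 B2 787) = true := by decide +kernel
def ch2_12_20 : check 8 (msOf T2 Q2 B2 788) = true := by decide +kernel
def ch2_12_21 : check 8 (msOf T2 Q2 B2 789) = true := by decide +kernel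
def ch2_12_22 : check 8 (msOf T2 Q2 B2 790) = true := by decide +kernel
def ch2_12_23 : check 8 (msOf T2 Q2 B2 791) = true := by decide +kernel
def ch2_12_24 : check 8 (msOf T2 Q2 B2 792) = true := by decide +kernel
def ch2_12_25 : check 8 (msOf T2 Q2 B2 793) = true := by decide +kernel
def ch2_12_26 : check 8 (msOf T2 Q2 B2 794) = true := by decide +kernel
def ch2_12_27 : check 8 (msOf T2 Q2 B2 795) = true := by decide +kernel
def ch2_12_28 : check 8 (msOf T2 Q2 B2 796) = true := by decide +kernel
def ch2_12_29 : check 8 (msOf T2 Q2 B2 797) = true := by decide +kernel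
def ch2_12_30 : check 8 (msOf T2 Q2 B2 798) = true := by decide +kernel
def ch2_12_31 : check 8 (msOf T2 Q2 B2 799) = true := by decide +kernel
def ch2_12_32 : check 8 (msOf T2 Q2 B2 800) = true := by decide +kernel
def ch2_12_33 : check 8 (msOf T2 Q2 B2 801) = true := by decide +kernel
def ch2_12_34 : check 8 (msOf T2 Q2 B2 802) = true := by decide +kernel
def ch2_12_35 : check 8 (msOf T2 Q2 B2 803) = true := by decide +kernel
def ch2_12_36 : check 8 (msOf T2 Q2 B2 804) = true := by decide +kernel
def ch2_12_37 : check 8 (msOf T2 Q2 B2 805) = true := by decide +kernel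
def ch2_12_38 : check 8 (msOf T2 Q2 B2 806) = true := by decide +kernel
def ch2_12_39 : check 8 (msOf T2 Q2 B2 807) = true := by decide +kernel
def ch2_12_40 : check 8 (msOf T2 Q2 B2 808) = true := by decide +kernel
def ch2_12_41 : check 8 (msOf T2 Q2 B2 809) = true := by decide +kernel
def ch2_12_42 : check 8 (msOf T2 Q2 B2 810) = true := by decide +kernel
def ch2_12_43 : check 8 (msOf T2 Q2 B2 811) = true := by decide +kernel
def ch2_12_44 : check 8 (msOf T2 Q2 B2 812) = true := by decide +kernel
def ch2_12_45 : check 8 (msOf T2 Q2 B2 813) = true := by decide +kernel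
def ch2_12_46 : check 8 (msOf T2 Q2 B2 814) = true := by decide +kernel
def ch2_12_47 : check 8 (msOf T2 Q2 B2 815) = true := by decide +kernel
def ch2_12_48 : check 8 (msOf T2 Q2 B2 816) = true := by decide +kernel
def ch2_12_49 : check 8 (msOf T2 Q2 B2 817) = true := by decide +kernel
def ch2_12_50 : check 8 (msOf T2 Q2 B2 818) = true := by decide +kernel
def ch2_12_51 : check 8 (msOf T2 Q2 B2 819) = true := by decide +kernel
def ch2_12_52 : check 8 (msOf T2 Q2 B2 820) = true := by decide +kernel
def ch2_12_53 : check 8 (msOf T2 Q2 B2 821) = true := by decide +kernel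
def ch2_12_54 : check 8 (msOf T2 Q2 B2 822) = true := by decide +kernel
def ch2_12_55 : check 8 (msOf T2 Q2 B2 823) = true := by decide +kernel
def ch2_12_56 : check 8 (msOf T2 Q2 B2 824) = true := by decide +kernel
def ch2_12_57 : check 8 (msOf T2 Q2 B2 825) = true := by decide +kernel
def ch2_12_58 : check 8 (msOf T2 Q2 B2 826) = true := by decide +kernel
def ch2_12_59 : check 8 (msOf T2 Q2 B2 827) = true := by decide +kernel
def ch2_12_60 : check 8 (msOf T2 Q2 B2 828) = true := by decide +kernel
def ch2_12_61 : check 8 (msOf T2 Q2 B2 829) = true := by decide +kernel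
def ch2_12_62 : check 8 (msOf T2 Q2 B2 830) = true := by decide +kernel
def ch2_12_63 : check 8 (msOf T2 Q2 B2 831) = true := by decide +kernel

theorem ch2_12 (h : ℕ) (h0 : 768 ≤ h) (h1 : h < 832) :
    check 8 (msOf T2 Q2 B2 h) = true := by
  interval_cases h
  · exact ch2_12_0
  · exact ch2_12_1
  · exact ch2_12_2
  · exact ch2_12_3
  · exact ch2_12_4
  · exact ch2_12_5
  · exact ch2_12_6
  · exact ch2_12_7
  · exact ch2_12_8
  · exact ch2_12_9
  · exact ch2_12_10
  · exact ch2_12_11
  · exact ch2_12_12
  · exact ch2_12_13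
  · exact ch2_12_14
  · exact ch2_12_15
  · exact ch2_12_16
  · exact ch2_12_17
  · exact ch2_12_18
  · exact ch2_12_19
  · exact ch2_12_20
  · exact ch2_12_21
  · exact ch2_12_22
  · exact ch2_12_23
  · exact ch2_12_24
  · exact ch2_12_25
  · exact ch2_12_26
  · exact ch2_12_27
  · exact ch2_12_28
  · exact ch2_12_29
  · exact ch2_12_30
  · exact ch2_12_31
  · exact ch2_12_32
  · exact ch2_12_33
  · exact ch2_12_34
  · exact ch2_12_35
  · exact ch2_12_36
  · exact ch2_12_37
  · exact ch2_12_38
  · exact ch2_12_39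
  · exact ch2_12_40
  · exact ch2_12_41
  · exact ch2_12_42
  · exact ch2_12_43
  · exact ch2_12_44
  · exact ch2_12_45
  · exact ch2_12_46
  · exact ch2_12_47
  · exact ch2_12_48
  · exact ch2_12_49
  · exact ch2_12_50
  · exact ch2_12_51
  · exact ch2_12_52
  · exact ch2_12_53
  · exact ch2_12_54
  · exact ch2_12_55
  · exact ch2_12_56
  · exact ch2_12_57
  · exact ch2_12_58
  · exact ch2_12_59
  · exact ch2_12_60
  · exact ch2_12_61
  · exact ch2_12_62
  · exact ch2_12_63

end Pool.Agent.H.MP_694475_co
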