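import Pool.Agent.H.MP_694475_co.Chunk

set_option linter.defProp false

namespace Pool.Agent.H.MP_694475_co

def ch2_14_0 : check 8 (msOf T2 Q2 B2 896) = true := by decide +kernel
def ch2_14_1 : check 8 (msOf T2 Q2 B2 897) = true := by decide +kernel
def ch2_14_2 : check 8 (msOf T2 Q2 B2 898) = true := by decide +kernel
def ch2_14_3 : check 8 (msOf T2 Q2 B2 899) = true := by decide +kernel
def ch2_14_4 : check 8 (msOf T2 Q2 B2 900) = true := by decide +kernel
def ch2_14_5 : check 8 (msOf T2 Q2 B2 901) = true := by decide +kernel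
def ch2_14_6 : check 8 (msOf T2 Q2 B2 902) = true := by decide +kernel
def ch2_14_7 : check 8 (msOf T2 Q2 B2 903) = true := by decide +kernel
def ch2_14_8 : check 8 (msOf T2 Q2 B2 904) = true := by decide +kernel
def ch2_14_9 : check 8 (msOf T2 Q2 B2 905) = true := by decide +kernel
def ch2_14_10 : check 8 (msOf T2 Q2 B2 906) = true := by decide +kernel
def ch2_14_11 : check 8 (msOf T2 Q2 B2 907) = true := by decide +kernel
def ch2_14_12 : check 8 (msOf T2 Q2 B2 908) = true := by decide +kernel
def ch2_14_13 : check 8 (msOf T2 Q2 B2 909) = true := by decide +kernel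
def ch2_14_14 : check 8 (msOf T2 Q2 B2 910) = true := by decide +kernel
def ch2_14_15 : check 8 (msOf T2 Q2 B2 911) = true := by decide +kernel
def ch2_14_16 : check 8 (msOf T2 Q2 B2 912) = true := by decide +kernel
def ch2_14_17 : check 8 (msOf T2 Q2 B2 913) = true := by decide +kernel
def ch2_14_18 : check 8 (msOf T2 Q2 B2 914) = true := by decide +kernel
def ch2_14_19 : check 8 (msOf T2 Q2 B2 915) = true := by decide +kernel
def ch2_14_20 : check 8 (msOf T2 Q2 B2 916) = true := by decide +kernel
def ch2_14_21 : check 8 (msOf T2 Q2 B2 917) = true := by decide +kernel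
def ch2_14_22 : check 8 (msOf T2 Q2 B2 918) = true := by decide +kernel
def ch2_14_23 : check 8 (msOf T2 Q2 B2 919) = true := by decide +kernel
def ch2_14_24 : check 8 (msOf T2 Q2 B2 920) = true := by decide +kernel
def ch2_14_25 : check 8 (msOf T2 Q2 B2 921) = true := by decide +kernel
def ch2_14_26 : check 8 (msOf T2 Q2 B2 922) = true := by decide +kernel
def ch2_14_27 : check 8 (msOf T2 Q2 B2 923) = true := by decide +kernel
def ch2_14_28 : check 8 (msOf T2 Q2 B2 924) = true := by decide +kernel
def ch2_14_29 : check 8 (msOf T2 Q2 B2 925) = true := by decide +kernel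
def ch2_14_30 : check 8 (msOf T2 Q2 B2 926) = true := by decide +kernel
def ch2_14_31 : check 8 (msOf T2 Q2 B2 927) = true := by decide +kernel
def ch2_14_32 : check 8 (msOf T2 Q2 B2 928) = true := by decide +kernel
def ch2_14_33 : check 8 (msOf T2 Q2 B2 929) = true := by decide +kernel
def ch2_14_34 : check 8 (msOf T2 Q2 B2 930) = true := by decide +kernel
def ch2_14_35 : check 8 (msOf T2 Q2 B2 931) = true := by decide +kernel
def ch2_14_36 : check 8 (msOf T2 Q2 B2 932) = true := by decide +kernel
def ch2_14_37 : check 8 (msOf T2 Q2 B2 933) = true := by decide +kernel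
def ch2_14_38 : check 8 (msOf T2 Q2 B2 934) = true := by decide +kernel
def ch2_14_39 : check 8 (msOf T2 Q2 B2 935) = true := by decide +kernel
def ch2_14_40 : check 8 (msOf T2 Q2 B2 936) = true := by decide +kernel
def ch2_14_41 : check 8 (msOf T2 Q2 B2 937) = true := by decide +kernel
def ch2_14_42 : check 8 (msOf T2 Q2 B2 938) = true := by decide +kernel
def ch2_14_43 : check 8 (msOf T2 Q2 B2 939) = true := by decide +kernel
def ch2_14_44 : check 8 (msOf T2 Q2 B2 940) = true := by decide +kernel
def ch2_14_45 : check 8 (msOf T2 Q2 B2 941) = true := by decide +kernel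
def ch2_14_46 : check 8 (msOf T2 Q2 B2 942) = true := by decide +kernel
def ch2_14_47 : check 8 (msOf T2 Q2 B2 943) = true := by decide +kernel
def ch2_14_48 : check 8 (msOf T2 Q2 B2 944) = true := by decide +kernel
def ch2_14_49 : check 8 (msOf T2 Q2 B2 945) = true := by decide +kernel
def ch2_14_50 : check 8 (msOf T2 Q2 B2 946) = true := by decide +kernel
def ch2_14_51 : check 8 (msOf T2 Q2 B2 947) = true := by decide +kernel
def ch2_14_52 : check 8 (msOf T2 Q2 B2 948) = true := by decide +kernel
def ch2_14_53 : check 8 (msOf T2 Q2 B2 949) = true := by decide +kernel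
def ch2_14_54 : check 8 (msOf T2 Q2 B2 950) = true := by decide +kernel
def ch2_14_55 : check 8 (msOf T2 Q2 B2 951) = true := by decide +kernel
def ch2_14_56 : check 8 (msOf T2 Q2 B2 952) = true := by decide +kernel
def ch2_14_57 : check 8 (msOf T2 Q2 B2 953) = true := by decide +kernel
def ch2_14_58 : check 8 (msOf T2 Q2 B2 954) = true := by decide +kernel
def ch2_14_59 : check 8 (msOf T2 Q2 B2 955) = true := by decide +kernel
def ch2_14_60 : check 8 (msOf T2 Q2 B2 956) = true := by decide +kernel
def ch2_14_61 : check 8 (msOf T2 Q2 B2 957) = true := by decide +kernel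
def ch2_14_62 : check 8 (msOf T2 Q2 B2 958) = true := by decide +kernel
def ch2_14_63 : check 8 (msOf T2 Q2 B2 959) = true := by decide +kernel

theorem ch2_14 (h : ℕ) (h0 : 896 ≤ h) (h1 : h < 960) :
    check 8 (msOf T2 Q2 B2 h) = true := by
  interval_cases h
  · exact ch2_14_0
  · exact ch2_14_1
  · exact ch2_14_2
  · exact ch2_14_3
  · exact ch2_14_4
  · exact ch2_14_5
  · exact ch2_14_6
  · exact ch2_14_7
  · exact ch2_14_8
  · exact ch2_14_9
  · exact ch2_14_10
  · exact ch2_14_11
  · exact ch2_14_12
  · exact ch2_14_13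
  · exact ch2_14_14
  · exact ch2_14_15
  · exact ch2_14_16
  · exact ch2_14_17
  · exact ch2_14_18
  · exact ch2_14_19
  · exact ch2_14_20
  · exact ch2_14_21
  · exact ch2_14_22
  · exact ch2_14_23
  · exact ch2_14_24
  · exact ch2_14_25
  · exact ch2_14_26
  · exact ch2_14_27
  · exact ch2_14_28
  · exact ch2_14_29
  · exact ch2_14_30
  · exact ch2_14_31
  · exact ch2_14_32
  · exact ch2_14_33
  · exact ch2_14_34
  · exact ch2_14_35
  · exact ch2_14_36
  · exact ch2_14_37
  · exact ch2_14_38
  · exact ch2_14_39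
  · exact ch2_14_40
  · exact ch2_14_41
  · exact ch2_14_42
  · exact ch2_14_43
  · exact ch2_14_44
  · exact ch2_14_45
  · exact ch2_14_46
  · exact ch2_14_47
  · exact ch2_14_48
  · exact ch2_14_49
  · exact ch2_14_50
  · exact ch2_14_51
  · exact ch2_14_52
  · exact ch2_14_53
  · exact ch2_14_54
  · exact ch2_14_55
  · exact ch2_14_56
  · exact ch2_14_57
  · exact ch2_14_58
  · exact ch2_14_59
  · exact ch2_14_60
  · exact ch2_14_61
  · exact ch2_14_62
  · exact ch2_14_63

end Pool.Agent.H.MP_694475_co
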