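import Pool.Agent.H.MP_694475_co.Chunk

set_option linter.defProp false

namespace Pool.Agent.H.MP_694475_co

def ch2_3_0 : check 8 (msOf T2 Q2 B2 192) = true := by decide +kernel
def ch2_3_1 : check 8 (msOf T2 Q2 B2 193) = true := by decide +kernel
def ch2_3_2 : check 8 (msOf T2 Q2 B2 194) = true := by decide +kernel
def ch2_3_3 : check 8 (msOf T2 Q2 B2 195) = true := by decide +kernel
def ch2_3_4 : check 8 (msOf T2 Q2 B2 196) = true := by decide +kernel
def ch2_3_5 : check 8 (msOf T2 Q2 B2 197) = true := by decide +kernel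
def ch2_3_6 : check 8 (msOf T2 Q2 B2 198) = true := by decide +kernel
def ch2_3_7 : check 8 (msOf T2 Q2 B2 199) = true := by decide +kernel
def ch2_3_8 : check 8 (msOf T2 Q2 B2 200) = true := by decide +kernel
def ch2_3_9 : check 8 (msOf T2 Q2 B2 201) = true := by decide +kernel
def ch2_3_10 : check 8 (msOf T2 Q2 B2 202) = true := by decide +kernel
def ch2_3_11 : check 8 (msOf T2 Q2 B2 203) = true := by decide +kernel
def ch2_3_12 : check 8 (msOf T2 Q2 B2 204) = true := by decide +kernel
def ch2_3_13 : check 8 (msOf T2 Q2 B2 205) = true := by decide +kernel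
def ch2_3_14 : check 8 (msOf T2 Q2 B2 206) = true := by decide +kernel
def ch2_3_15 : check 8 (msOf T2 Q2 B2 207) = true := by decide +kernel
def ch2_3_16 : check 8 (msOf T2 Q2 B2 208) = true := by decide +kernel
def ch2_3_17 : check 8 (msOf T2 Q2 B2 209) = true := by decide +kernel
def ch2_3_18 : check 8 (msOf T2 Q2 B2 210) = true := by decide +kernel
def ch2_3_19 : check 8 (msOf T2 Q2 B2 211) = true := by decide +kernel
def ch2_3_20 : check 8 (msOf T2 Q2 B2 212) = true := by decide +kernel
def ch2_3_21 : check 8 (msOf T2 Q2 B2 213) = true := by decide +kernel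
def ch2_3_22 : check 8 (msOf T2 Q2 B2 214) = true := by decide +kernel
def ch2_3_23 : check 8 (msOf T2 Q2 B2 215) = true := by decide +kernel
def ch2_3_24 : check 8 (msOf T2 Q2 B2 216) = true := by decide +kernel
def ch2_3_25 : check 8 (msOf T2 Q2 B2 217) = true := by decide +kernel
def ch2_3_26 : check 8 (msOf T2 Q2 B2 218) = true := by decide +kernel
def ch2_3_27 : check 8 (msOf T2 Q2 B2 219) = true := by decide +kernel
def ch2_3_28 : check 8 (msOf T2 Q2 B2 220) = true := by decide +kernel
def ch2_3_29 : check 8 (msOf T2 Q2 B2 221) = true := by decide +kernel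
def ch2_3_30 : check 8 (msOf T2 Q2 B2 222) = true := by decide +kernel
def ch2_3_31 : check 8 (msOf T2 Q2 B2 223) = true := by decide +kernel
def ch2_3_32 : check 8 (msOf T2 Q2 B2 224) = true := by decide +kernel
def ch2_3_33 : check 8 (msOf T2 Q2 B2 225) = true := by decide +kernel
def ch2_3_34 : check 8 (msOf T2 Q2 B2 226) = true := by decide +kernel
def ch2_3_35 : check 8 (msOf T2 Q2 B2 227) = true := by decide +kernel
def ch2_3_36 : check 8 (msOf T2 Q2 B2 228) = true := by decide +kernel
def ch2_3_37 : check 8 (msOf T2 Q2 B2 229) = true := by decide +kernel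
def ch2_3_38 : check 8 (msOf T2 Q2 B2 230) = true := by decide +kernel
def ch2_3_39 : check 8 (msOf T2 Q2 B2 231) = true := by decide +kernel
def ch2_3_40 : check 8 (msOf T2 Q2 B2 232) = true := by decide +kernel
def ch2_3_41 : check 8 (msOf T2 Q2 B2 233) = true := by decide +kernel
def ch2_3_42 : check 8 (msOf T2 Q2 B2 234) = true := by decide +kernel
def ch2_3_43 : check 8 (msOf T2 Q2 B2 235) = true := by decide +kernel
def ch2_3_44 : check 8 (msOf T2 Q2 B2 236) = true := by decide +kernel
def ch2_3_45 : check 8 (msOf T2 Q2 B2 237) = true := by decide +kernel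
def ch2_3_46 : check 8 (msOf T2 Q2 B2 238) = true := by decide +kernel
def ch2_3_47 : check 8 (msOf T2 Q2 B2 239) = true := by decide +kernel
def ch2_3_48 : check 8 (msOf T2 Q2 B2 240) = true := by decide +kernel
def ch2_3_49 : check 8 (msOf T2 Q2 B2 241) = true := by decide +kernel
def ch2_3_50 : check 8 (msOf T2 Q2 B2 242) = true := by decide +kernel
def ch2_3_51 : check 8 (msOf T2 Q2 B2 243) = true := by decide +kernel
def ch2_3_52 : check 8 (msOf T2 Q2 B2 244) = true := by decide +kernel
def ch2_3_53 : check 8 (msOf T2 Q2 B2 245) = true := by decide +kernel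
def ch2_3_54 : check 8 (msOf T2 Q2 B2 246) = true := by decide +kernel
def ch2_3_55 : check 8 (msOf T2 Q2 B2 247) = true := by decide +kernel
def ch2_3_56 : check 8 (msOf T2 Q2 B2 248) = true := by decide +kernel
def ch2_3_57 : check 8 (msOf T2 Q2 B2 249) = true := by decide +kernel
def ch2_3_58 : check 8 (msOf T2 Q2 B2 250) = true := by decide +kernel
def ch2_3_59 : check 8 (msOf T2 Q2 B2 251) = true := by decide +kernel
def ch2_3_60 : check 8 (msOf T2 Q2 B2 252) = true := by decide +kernel
def ch2_3_61 : check 8 (msOf T2 Q2 B2 253) = true := by decide +kernel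
def ch2_3_62 : check 8 (msOf T2 Q2 B2 254) = true := by decide +kernel
def ch2_3_63 : check 8 (msOf T2 Q2 B2 255) = true := by decide +kernel

theorem ch2_3 (h : ℕ) (h0 : 192 ≤ h) (h1 : h < 256) :
    check 8 (msOf T2 Q2 B2 h) = true := by
  interval_cases h
  · exact ch2_3_0
  · exact ch2_3_1
  · exact ch2_3_2
  · exact ch2_3_3
  · exact ch2_3_4
  · exact ch2_3_5
  · exact ch2_3_6
  · exact ch2_3_7
  · exact ch2_3_8
  · exact ch2_3_9
  · exact ch2_3_10
  · exact ch2_3_11
  · exact ch2_3_12
  · exact ch2_3_13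
  · exact ch2_3_14
  · exact ch2_3_15
  · exact ch2_3_16
  · exact ch2_3_17
  · exact ch2_3_18
  · exact ch2_3_19
  · exact ch2_3_20
  · exact ch2_3_21
  · exact ch2_3_22
  · exact ch2_3_23
  · exact ch2_3_24
  · exact ch2_3_25
  · exact ch2_3_26
  · exact ch2_3_27
  · exact ch2_3_28
  · exact ch2_3_29
  · exact ch2_3_30
  · exact ch2_3_31
  · exact ch2_3_32
  · exact ch2_3_33
  · exact ch2_3_34
  · exact ch2_3_35
  · exact ch2_3_36
  · exact ch2_3_37
  · exact ch2_3_38
  · exact ch2_3_39
  · exact ch2_3_40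
  · exact ch2_3_41
  · exact ch2_3_42
  · exact ch2_3_43
  · exact ch2_3_44
  · exact ch2_3_45
  · exact ch2_3_46
  · exact ch2_3_47
  · exact ch2_3_48
  · exact ch2_3_49
  · exact ch2_3_50
  · exact ch2_3_51
  · exact ch2_3_52
  · exact ch2_3_53
  · exact ch2_3_54
  · exact ch2_3_55
  · exact ch2_3_56
  · exact ch2_3_57
  · exact ch2_3_58
  · exact ch2_3_59
  · exact ch2_3_60
  · exact ch2_3_61
  · exact ch2_3_62
  · exact ch2_3_63

end Pool.Agent.H.MP_694475_co
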