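import Pool.Agent.H.MP_694475_co.Chunk

set_option linter.defProp false

namespace Pool.Agent.H.MP_694475_co

def ch2_4_0 : check 8 (msOf T2 Q2 B2 256) = true := by decide +kernel
def ch2_4_1 : check 8 (msOf T2 Q2 B2 257) = true := by decide +kernel
def ch2_4_2 : check 8 (msOf T2 Q2 B2 258) = true := by decide +kernel
def ch2_4_3 : check 8 (msOf T2 Q2 B2 259) = true := by decide +kernel
def ch2_4_4 : check 8 (msOf T2 Q2 B2 260) = true := by decide +kernel
def ch2_4_5 : check 8 (msOf T2 Q2 B2 261) = true := by decide +kernel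
def ch2_4_6 : check 8 (msOf T2 Q2 B2 262) = true := by decide +kernel
def ch2_4_7 : check 8 (msOf T2 Q2 B2 263) = true := by decide +kernel
def ch2_4_8 : check 8 (msOf T2 Q2 B2 264) = true := by decide +kernel
def ch2_4_9 : check 8 (msOf T2 Q2 B2 265) = true := by decide +kernel
def ch2_4_10 : check 8 (msOf T2 Q2 B2 266) = true := by decide +kernel
def ch2_4_11 : check 8 (msOf T2 Q2 B2 267) = true := by decide +kernel
def ch2_4_12 : check 8 (msOf T2 Q2 B2 268) = true := by decide +kernel
def ch2_4_13 : check 8 (msOf T2 Q2 B2 269) = true := by decide +kernel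
def ch2_4_14 : check 8 (msOf T2 Q2 B2 270) = true := by decide +kernel
def ch2_4_15 : check 8 (msOf T2 Q2 B2 271) = true := by decide +kernel
def ch2_4_16 : check 8 (msOf T2 Q2 B2 272) = true := by decide +kernel
def ch2_4_17 : check 8 (msOf T2 Q2 B2 273) = true := by decide +kernel
def ch2_4_18 : check 8 (msOf T2 Q2 B2 274) = true := by decide +kernel
def ch2_4_19 : check 8 (msOf T2 Q2 B2 275) = true := by decide +kernel
def ch2_4_20 : check 8 (msOf T2 Q2 B2 276) = true := by decide +kernel
def ch2_4_21 : check 8 (msOf T2 Q2 B2 277) = true := by decide +kernel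
def ch2_4_22 : check 8 (msOf T2 Q2 B2 278) = true := by decide +kernel
def ch2_4_23 : check 8 (msOf T2 Q2 B2 279) = true := by decide +kernel
def ch2_4_24 : check 8 (msOf T2 Q2 B2 280) = true := by decide +kernel
def ch2_4_25 : check 8 (msOf T2 Q2 B2 281) = true := by decide +kernel
def ch2_4_26 : check 8 (msOf T2 Q2 B2 282) = true := by decide +kernel
def ch2_4_27 : check 8 (msOf T2 Q2 B2 283) = true := by decide +kernel
def ch2_4_28 : check 8 (msOf T2 Q2 B2 284) = true := by decide +kernel
def ch2_4_29 : check 8 (msOf T2 Q2 B2 285) = true := by decide +kernel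
def ch2_4_30 : check 8 (msOf T2 Q2 B2 286) = true := by decide +kernel
def ch2_4_31 : check 8 (msOf T2 Q2 B2 287) = true := by decide +kernel
def ch2_4_32 : check 8 (msOf T2 Q2 B2 288) = true := by decide +kernel
def ch2_4_33 : check 8 (msOf T2 Q2 B2 289) = true := by decide +kernel
def ch2_4_34 : check 8 (msOf T2 Q2 B2 290) = true := by decide +kernel
def ch2_4_35 : check 8 (msOf T2 Q2 B2 291) = true := by decide +kernel
def ch2_4_36 : check 8 (msOf T2 Q2 B2 292) = true := by decide +kernel
def ch2_4_37 : check 8 (msOf T2 Q2 B2 293) = true := by decide +kernel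
def ch2_4_38 : check 8 (msOf T2 Q2 B2 294) = true := by decide +kernel
def ch2_4_39 : check 8 (msOf T2 Q2 B2 295) = true := by decide +kernel
def ch2_4_40 : check 8 (msOf T2 Q2 B2 296) = true := by decide +kernel
def ch2_4_41 : check 8 (msOf T2 Q2 B2 297) = true := by decide +kernel
def ch2_4_42 : check 8 (msOf T2 Q2 B2 298) = true := by decide +kernel
def ch2_4_43 : check 8 (msOf T2 Q2 B2 299) = true := by decide +kernel
def ch2_4_44 : check 8 (msOf T2 Q2 B2 300) = true := by decide +kernel
def ch2_4_45 : check 8 (msOf T2 Q2 B2 301) = true := by decide +kernel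
def ch2_4_46 : check 8 (msOf T2 Q2 B2 302) = true := by decide +kernel
def ch2_4_47 : check 8 (msOf T2 Q2 B2 303) = true := by decide +kernel
def ch2_4_48 : check 8 (msOf T2 Q2 B2 304) = true := by decide +kernel
def ch2_4_49 : check 8 (msOf T2 Q2 B2 305) = true := by decide +kernel
def ch2_4_50 : check 8 (msOf T2 Q2 B2 306) = true := by decide +kernel
def ch2_4_51 : check 8 (msOf T2 Q2 B2 307) = true := by decide +kernel
def ch2_4_52 : check 8 (msOf T2 Q2 B2 308) = true := by decide +kernel
def ch2_4_53 : check 8 (msOf T2 Q2 B2 309) = true := by decide +kernel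
def ch2_4_54 : check 8 (msOf T2 Q2 B2 310) = true := by decide +kernel
def ch2_4_55 : check 8 (msOf T2 Q2 B2 311) = true := by decide +kernel
def ch2_4_56 : check 8 (msOf T2 Q2 B2 312) = true := by decide +kernel
def ch2_4_57 : check 8 (msOf T2 Q2 B2 313) = true := by decide +kernel
def ch2_4_58 : check 8 (msOf T2 Q2 B2 314) = true := by decide +kernel
def ch2_4_59 : check 8 (msOf T2 Q2 B2 315) = true := by decide +kernel
def ch2_4_60 : check 8 (msOf T2 Q2 B2 316) = true := by decide +kernel
def ch2_4_61 : check 8 (msOf T2 Q2 B2 317) = true := by decide +kernel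
def ch2_4_62 : check 8 (msOf T2 Q2 B2 318) = true := by decide +kernel
def ch2_4_63 : check 8 (msOf T2 Q2 B2 319) = true := by decide +kernel

theorem ch2_4 (h : ℕ) (h0 : 256 ≤ h) (h1 : h < 320) :
    check 8 (msOf T2 Q2 B2 h) = true := by
  interval_cases h
  · exact ch2_4_0
  · exact ch2_4_1
  · exact ch2_4_2
  · exact ch2_4_3
  · exact ch2_4_4
  · exact ch2_4_5
  · exact ch2_4_6
  · exact ch2_4_7
  · exact ch2_4_8
  · exact ch2_4_9
  · exact ch2_4_10
  · exact ch2_4_11
  · exact ch2_4_12
  · exact ch2_4_13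
  · exact ch2_4_14
  · exact ch2_4_15
  · exact ch2_4_16
  · exact ch2_4_17
  · exact ch2_4_18
  · exact ch2_4_19
  · exact ch2_4_20
  · exact ch2_4_21
  · exact ch2_4_22
  · exact ch2_4_23
  · exact ch2_4_24
  · exact ch2_4_25
  · exact ch2_4_26
  · exact ch2_4_27
  · exact ch2_4_28
  · exact ch2_4_29
  · exact ch2_4_30
  · exact ch2_4_31
  · exact ch2_4_32
  · exact ch2_4_33
  · exact ch2_4_34
  · exact ch2_4_35
  · exact ch2_4_36
  · exact ch2_4_37
  · exact ch2_4_38
  · exact ch2_4_39
  · exact ch2_4_40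
  · exact ch2_4_41
  · exact ch2_4_42
  · exact ch2_4_43
  · exact ch2_4_44
  · exact ch2_4_45
  · exact ch2_4_46
  · exact ch2_4_47
  · exact ch2_4_48
  · exact ch2_4_49
  · exact ch2_4_50
  · exact ch2_4_51
  · exact ch2_4_52
  · exact ch2_4_53
  · exact ch2_4_54
  · exact ch2_4_55
  · exact ch2_4_56
  · exact ch2_4_57
  · exact ch2_4_58
  · exact ch2_4_59
  · exact ch2_4_60
  · exact ch2_4_61
  · exact ch2_4_62
  · exact ch2_4_63

end Pool.Agent.H.MP_694475_co
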