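import Pool.Agent.H.MP_694475_co.Chunk

set_option linter.defProp false

namespace Pool.Agent.H.MP_694475_co

def ch2_5_0 : check 8 (msOf T2 Q2 B2 320) = true := by decide +kernel
def ch2_5_1 : check 8 (msOf T2 Q2 B2 321) = true := by decide +kernel
def ch2_5_2 : check 8 (msOf T2 Q2 B2 322) = true := by decide +kernel
def ch2_5_3 : check 8 (msOf T2 Q2 B2 323) = true := by decide +kernel
def ch2_5_4 : check 8 (msOf T2 Q2 B2 324) = true := by decide +kernel
def ch2_5_5 : check 8 (msOf T2 Q2 B2 325) = true := by decide +kernel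
def ch2_5_6 : check 8 (msOf T2 Q2 B2 326) = true := by decide +kernel
def ch2_5_7 : check 8 (msOf T2 Q2 B2 327) = true := by decide +kernel
def ch2_5_8 : check 8 (msOf T2 Q2 B2 328) = true := by decide +kernel
def ch2_5_9 : check 8 (msOf T2 Q2 B2 329) = true := by decide +kernel
def ch2_5_10 : check 8 (msOf T2 Q2 B2 330) = true := by decide +kernel
def ch2_5_11 : check 8 (msOf T2 Q2 B2 331) = true := by decide +kernel
def ch2_5_12 : check 8 (msOf T2 Q2 B2 332) = true := by decide +kernel
def ch2_5_13 : check 8 (msOf T2 Q2 B2 333) = true := by decide +kernel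
def ch2_5_14 : check 8 (msOf T2 Q2 B2 334) = true := by decide +kernel
def ch2_5_15 : check 8 (msOf T2 Q2 B2 335) = true := by decide +kernel
def ch2_5_16 : check 8 (msOf T2 Q2 B2 336) = true := by decide +kernel
def ch2_5_17 : check 8 (msOf T2 Q2 B2 337) = true := by decide +kernel
def ch2_5_18 : check 8 (msOf T2 Q2 B2 338) = true := by decide +kernel
def ch2_5_19 : check 8 (msOf T2 Q2 B2 339) = true := by decide +kernel
def ch2_5_20 : check 8 (msOf T2 Q2 B2 340) = true := by decide +kernel
def ch2_5_21 : check 8 (msOf T2 Q2 B2 341) = true := by decide +kernel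
def ch2_5_22 : check 8 (msOf T2 Q2 B2 342) = true := by decide +kernel
def ch2_5_23 : check 8 (msOf T2 Q2 B2 343) = true := by decide +kernel
def ch2_5_24 : check 8 (msOf T2 Q2 B2 344) = true := by decide +kernel
def ch2_5_25 : check 8 (msOf T2 Q2 B2 345) = true := by decide +kernel
def ch2_5_26 : check 8 (msOf T2 Q2 B2 346) = true := by decide +kernel
def ch2_5_27 : check 8 (msOf T2 Q2 B2 347) = true := by decide +kernel
def ch2_5_28 : check 8 (msOf T2 Q2 B2 348) = true := by decide +kernel
def ch2_5_29 : check 8 (msOf T2 Q2 B2 349) = true := by decide +kernel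
def ch2_5_30 : check 8 (msOf T2 Q2 B2 350) = true := by decide +kernel
def ch2_5_31 : check 8 (msOf T2 Q2 B2 351) = true := by decide +kernel
def ch2_5_32 : check 8 (msOf T2 Q2 B2 352) = true := by decide +kernel
def ch2_5_33 : check 8 (msOf T2 Q2 B2 353) = true := by decide +kernel
def ch2_5_34 : check 8 (msOf T2 Q2 B2 354) = true := by decide +kernel
def ch2_5_35 : check 8 (msOf T2 Q2 B2 355) = true := by decide +kernel
def ch2_5_36 : check 8 (msOf T2 Q2 B2 356) = true := by decide +kernel
def ch2_5_37 : check 8 (msOf T2 Q2 B2 357) = true := by decide +kernel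
def ch2_5_38 : check 8 (msOf T2 Q2 B2 358) = true := by decide +kernel
def ch2_5_39 : check 8 (msOf T2 Q2 B2 359) = true := by decide +kernel
def ch2_5_40 : check 8 (msOf T2 Q2 B2 360) = true := by decide +kernel
def ch2_5_41 : check 8 (msOf T2 Q2 B2 361) = true := by decide +kernel
def ch2_5_42 : check 8 (msOf T2 Q2 B2 362) = true := by decide +kernel
def ch2_5_43 : check 8 (msOf T2 Q2 B2 363) = true := by decide +kernel
def ch2_5_44 : check 8 (msOf T2 Q2 B2 364) = true := by decide +kernel
def ch2_5_45 : check 8 (msOf T2 Q2 B2 365) = true := by decide +kernel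
def ch2_5_46 : check 8 (msOf T2 Q2 B2 366) = true := by decide +kernel
def ch2_5_47 : check 8 (msOf T2 Q2 B2 367) = true := by decide +kernel
def ch2_5_48 : check 8 (msOf T2 Q2 B2 368) = true := by decide +kernel
def ch2_5_49 : check 8 (msOf T2 Q2 B2 369) = true := by decide +kernel
def ch2_5_50 : check 8 (msOf T2 Q2 B2 370) = true := by decide +kernel
def ch2_5_51 : check 8 (msOf T2 Q2 B2 371) = true := by decide +kernel
def ch2_5_52 : check 8 (msOf T2 Q2 B2 372) = true := by decide +kernel
def ch2_5_53 : check 8 (msOf T2 Q2 B2 373) = true := by decide +kernel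
def ch2_5_54 : check 8 (msOf T2 Q2 B2 374) = true := by decide +kernel
def ch2_5_55 : check 8 (msOf T2 Q2 B2 375) = true := by decide +kernel
def ch2_5_56 : check 8 (msOf T2 Q2 B2 376) = true := by decide +kernel
def ch2_5_57 : check 8 (msOf T2 Q2 B2 377) = true := by decide +kernel
def ch2_5_58 : check 8 (msOf T2 Q2 B2 378) = true := by decide +kernel
def ch2_5_59 : check 8 (msOf T2 Q2 B2 379) = true := by decide +kernel
def ch2_5_60 : check 8 (msOf T2 Q2 B2 380) = true := by decide +kernel
def ch2_5_61 : check 8 (msOf T2 Q2 B2 381) = true := by decide +kernel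
def ch2_5_62 : check 8 (msOf T2 Q2 B2 382) = true := by decide +kernel
def ch2_5_63 : check 8 (msOf T2 Q2 B2 383) = true := by decide +kernel

theorem ch2_5 (h : ℕ) (h0 : 320 ≤ h) (h1 : h < 384) :
    check 8 (msOf T2 Q2 B2 h) = true := by
  interval_cases h
  · exact ch2_5_0
  · exact ch2_5_1
  · exact ch2_5_2
  · exact ch2_5_3
  · exact ch2_5_4
  · exact ch2_5_5
  · exact ch2_5_6
  · exact ch2_5_7
  · exact ch2_5_8
  · exact ch2_5_9
  · exact ch2_5_10
  · exact ch2_5_11
  · exact ch2_5_12
  · exact ch2_5_13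
  · exact ch2_5_14
  · exact ch2_5_15
  · exact ch2_5_16
  · exact ch2_5_17
  · exact ch2_5_18
  · exact ch2_5_19
  · exact ch2_5_20
  · exact ch2_5_21
  · exact ch2_5_22
  · exact ch2_5_23
  · exact ch2_5_24
  · exact ch2_5_25
  · exact ch2_5_26
  · exact ch2_5_27
  · exact ch2_5_28
  · exact ch2_5_29
  · exact ch2_5_30
  · exact ch2_5_31
  · exact ch2_5_32
  · exact ch2_5_33
  · exact ch2_5_34
  · exact ch2_5_35
  · exact ch2_5_36
  · exact ch2_5_37
  · exact ch2_5_38
  · exact ch2_5_39
  · exact ch2_5_40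
  · exact ch2_5_41
  · exact ch2_5_42
  · exact ch2_5_43
  · exact ch2_5_44
  · exact ch2_5_45
  · exact ch2_5_46
  · exact ch2_5_47
  · exact ch2_5_48
  · exact ch2_5_49
  · exact ch2_5_50
  · exact ch2_5_51
  · exact ch2_5_52
  · exact ch2_5_53
  · exact ch2_5_54
  · exact ch2_5_55
  · exact ch2_5_56
  · exact ch2_5_57
  · exact ch2_5_58
  · exact ch2_5_59
  · exact ch2_5_60
  · exact ch2_5_61
  · exact ch2_5_62
  · exact ch2_5_63

end Pool.Agent.H.MP_694475_co
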