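import Pool.Agent.H.MP_694475_co.Chunk

set_option linter.defProp false

namespace Pool.Agent.H.MP_694475_co

def ch2_6_0 : check 8 (msOf T2 Q2 B2 384) = true := by decide +kernel
def ch2_6_1 : check 8 (msOf T2 Q2 B2 385) = true := by decide +kernel
def ch2_6_2 : check 8 (msOf T2 Q2 B2 386) = true := by decide +kernel
def ch2_6_3 : check 8 (msOf T2 Q2 B2 387) = true := by decide +kernel
def ch2_6_4 : check 8 (msOf T2 Q2 B2 388) = true := by decide +kernel
def ch2_6_5 : check 8 (msOf T2 Q2 B2 389) = true := by decide +kernel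
def ch2_6_6 : check 8 (msOf T2 Q2 B2 390) = true := by decide +kernel
def ch2_6_7 : check 8 (msOf T2 Q2 B2 391) = true := by decide +kernel
def ch2_6_8 : check 8 (msOf T2 Q2 B2 392) = true := by decide +kernel
def ch2_6_9 : check 8 (msOf T2 Q2 B2 393) = true := by decide +kernel
def ch2_6_10 : check 8 (msOf T2 Q2 B2 394) = true := by decide +kernel
def ch2_6_11 : check 8 (msOf T2 Q2 B2 395) = true := by decide +kernel
def ch2_6_12 : check 8 (msOf T2 Q2 B2 396) = true := by decide +kernel
def ch2_6_13 : check 8 (msOf T2 Q2 B2 397) = true := by decide +kernel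
def ch2_6_14 : check 8 (msOf T2 Q2 B2 398) = true := by decide +kernel
def ch2_6_15 : check 8 (msOf T2 Q2 B2 399) = true := by decide +kernel
def ch2_6_16 : check 8 (msOf T2 Q2 B2 400) = true := by decide +kernel
def ch2_6_17 : check 8 (msOf T2 Q2 B2 401) = true := by decide +kernel
def ch2_6_18 : check 8 (msOf T2 Q2 B2 402) = true := by decide +kernel
def ch2_6_19 : check 8 (msOf T2 Q2 B2 403) = true := by decide +kernel
def ch2_6_20 : check 8 (msOf T2 Q2 B2 404) = true := by decide +kernel
def ch2_6_21 : check 8 (msOf T2 Q2 B2 405) = true := by decide +kernel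
def ch2_6_22 : check 8 (msOf T2 Q2 B2 406) = true := by decide +kernel
def ch2_6_23 : check 8 (msOf T2 Q2 B2 407) = true := by decide +kernel
def ch2_6_24 : check 8 (msOf T2 Q2 B2 408) = true := by decide +kernel
def ch2_6_25 : check 8 (msOf T2 Q2 B2 409) = true := by decide +kernel
def ch2_6_26 : check 8 (msOf T2 Q2 B2 410) = true := by decide +kernel
def ch2_6_27 : check 8 (msOf T2 Q2 B2 411) = true := by decide +kernel
def ch2_6_28 : check 8 (msOf T2 Q2 B2 412) = true := by decide +kernel
def ch2_6_29 : check 8 (msOf T2 Q2 B2 413) = true := by decide +kernel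
def ch2_6_30 : check 8 (msOf T2 Q2 B2 414) = true := by decide +kernel
def ch2_6_31 : check 8 (msOf T2 Q2 B2 415) = true := by decide +kernel
def ch2_6_32 : check 8 (msOf T2 Q2 B2 416) = true := by decide +kernel
def ch2_6_33 : check 8 (msOf T2 Q2 B2 417) = true := by decide +kernel
def ch2_6_34 : check 8 (msOf T2 Q2 B2 418) = true := by decide +kernel
def ch2_6_35 : check 8 (msOf T2 Q2 B2 419) = true := by decide +kernel
def ch2_6_36 : check 8 (msOf T2 Q2 B2 420) = true := by decide +kernel
def ch2_6_37 : check 8 (msOf T2 Q2 B2 421) = true := by decide +kernel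
def ch2_6_38 : check 8 (msOf T2 Q2 B2 422) = true := by decide +kernel
def ch2_6_39 : check 8 (msOf T2 Q2 B2 423) = true := by decide +kernel
def ch2_6_40 : check 8 (msOf T2 Q2 B2 424) = true := by decide +kernel
def ch2_6_41 : check 8 (msOf T2 Q2 B2 425) = true := by decide +kernel
def ch2_6_42 : check 8 (msOf T2 Q2 B2 426) = true := by decide +kernel
def ch2_6_43 : check 8 (msOf T2 Q2 B2 427) = true := by decide +kernel
def ch2_6_44 : check 8 (msOf T2 Q2 B2 428) = true := by decide +kernel
def ch2_6_45 : check 8 (msOf T2 Q2 B2 429) = true := by decide +kernel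
def ch2_6_46 : check 8 (msOf T2 Q2 B2 430) = true := by decide +kernel
def ch2_6_47 : check 8 (msOf T2 Q2 B2 431) = true := by decide +kernel
def ch2_6_48 : check 8 (msOf T2 Q2 B2 432) = true := by decide +kernel
def ch2_6_49 : check 8 (msOf T2 Q2 B2 433) = true := by decide +kernel
def ch2_6_50 : check 8 (msOf T2 Q2 B2 434) = true := by decide +kernel
def ch2_6_51 : check 8 (msOf T2 Q2 B2 435) = true := by decide +kernel
def ch2_6_52 : check 8 (msOf T2 Q2 B2 436) = true := by decide +kernel
def ch2_6_53 : check 8 (msOf T2 Q2 B2 437) = true := by decide +kernel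
def ch2_6_54 : check 8 (msOf T2 Q2 B2 438) = true := by decide +kernel
def ch2_6_55 : check 8 (msOf T2 Q2 B2 439) = true := by decide +kernel
def ch2_6_56 : check 8 (msOf T2 Q2 B2 440) = true := by decide +kernel
def ch2_6_57 : check 8 (msOf T2 Q2 B2 441) = true := by decide +kernel
def ch2_6_58 : check 8 (msOf T2 Q2 B2 442) = true := by decide +kernel
def ch2_6_59 : check 8 (msOf T2 Q2 B2 443) = true := by decide +kernel
def ch2_6_60 : check 8 (msOf T2 Q2 B2 444) = true := by decide +kernel
def ch2_6_61 : check 8 (msOf T2 Q2 B2 445) = true := by decide +kernel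
def ch2_6_62 : check 8 (msOf T2 Q2 B2 446) = true := by decide +kernel
def ch2_6_63 : check 8 (msOf T2 Q2 B2 447) = true := by decide +kernel

theorem ch2_6 (h : ℕ) (h0 : 384 ≤ h) (h1 : h < 448) :
    check 8 (msOf T2 Q2 B2 h) = true := by
  interval_cases h
  · exact ch2_6_0
  · exact ch2_6_1
  · exact ch2_6_2
  · exact ch2_6_3
  · exact ch2_6_4
  · exact ch2_6_5
  · exact ch2_6_6
  · exact ch2_6_7
  · exact ch2_6_8
  · exact ch2_6_9
  · exact ch2_6_10
  · exact ch2_6_11
  · exact ch2_6_12
  · exact ch2_6_13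
  · exact ch2_6_14
  · exact ch2_6_15
  · exact ch2_6_16
  · exact ch2_6_17
  · exact ch2_6_18
  · exact ch2_6_19
  · exact ch2_6_20
  · exact ch2_6_21
  · exact ch2_6_22
  · exact ch2_6_23
  · exact ch2_6_24
  · exact ch2_6_25
  · exact ch2_6_26
  · exact ch2_6_27
  · exact ch2_6_28
  · exact ch2_6_29
  · exact ch2_6_30
  · exact ch2_6_31
  · exact ch2_6_32
  · exact ch2_6_33
  · exact ch2_6_34
  · exact ch2_6_35
  · exact ch2_6_36
  · exact ch2_6_37
  · exact ch2_6_38
  · exact ch2_6_39
  · exact ch2_6_40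
  · exact ch2_6_41
  · exact ch2_6_42
  · exact ch2_6_43
  · exact ch2_6_44
  · exact ch2_6_45
  · exact ch2_6_46
  · exact ch2_6_47
  · exact ch2_6_48
  · exact ch2_6_49
  · exact ch2_6_50
  · exact ch2_6_51
  · exact ch2_6_52
  · exact ch2_6_53
  · exact ch2_6_54
  · exact ch2_6_55
  · exact ch2_6_56
  · exact ch2_6_57
  · exact ch2_6_58
  · exact ch2_6_59
  · exact ch2_6_60
  · exact ch2_6_61
  · exact ch2_6_62
  · exact ch2_6_63

end Pool.Agent.H.MP_694475_co
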