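import Pool.Agent.H.MP_694475_co.Chunk

set_option linter.defProp false

namespace Pool.Agent.H.MP_694475_co

def ch2_7_0 : check 8 (msOf T2 Q2 B2 448) = true := by decide +kernel
def ch2_7_1 : check 8 (msOf T2 Q2 B2 449) = true := by decide +kernel
def ch2_7_2 : check 8 (msOf T2 Q2 B2 450) = true := by decide +kernel
def ch2_7_3 : check 8 (msOf T2 Q2 B2 451) = true := by decide +kernel
def ch2_7_4 : check 8 (msOf T2 Q2 B2 452) = true := by decide +kernel
def ch2_7_5 : check 8 (msOf T2 Q2 B2 453) = true := by decide +kernel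
def ch2_7_6 : check 8 (msOf T2 Q2 B2 454) = true := by decide +kernel
def ch2_7_7 : check 8 (msOf T2 Q2 B2 455) = true := by decide +kernel
def ch2_7_8 : check 8 (msOf T2 Q2 B2 456) = true := by decide +kernel
def ch2_7_9 : check 8 (msOf T2 Q2 B2 457) = true := by decide +kernel
def ch2_7_10 : check 8 (msOf T2 Q2 B2 458) = true := by decide +kernel
def ch2_7_11 : check 8 (msOf T2 Q2 B2 459) = true := by decide +kernel
def ch2_7_12 : check 8 (msOf T2 Q2 B2 460) = true := by decide +kernel
def ch2_7_13 : check 8 (msOf T2 Q2 B2 461) = true := by decide +kernel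
def ch2_7_14 : check 8 (msOf T2 Q2 B2 462) = true := by decide +kernel
def ch2_7_15 : check 8 (msOf T2 Q2 B2 463) = true := by decide +kernel
def ch2_7_16 : check 8 (msOf T2 Q2 B2 464) = true := by decide +kernel
def ch2_7_17 : check 8 (msOf T2 Q2 B2 465) = true := by decide +kernel
def ch2_7_18 : check 8 (msOf T2 Q2 B2 466) = true := by decide +kernel
def ch2_7_19 : check 8 (msOf T2 Q2 B2 467) = true := by decide +kernel
def ch2_7_20 : check 8 (msOf T2 Q2 B2 468) = true := by decide +kernel
def ch2_7_21 : check 8 (msOf T2 Q2 B2 469) = true := by decide +kernel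
def ch2_7_22 : check 8 (msOf T2 Q2 B2 470) = true := by decide +kernel
def ch2_7_23 : check 8 (msOf T2 Q2 B2 471) = true := by decide +kernel
def ch2_7_24 : check 8 (msOf T2 Q2 B2 472) = true := by decide +kernel
def ch2_7_25 : check 8 (msOf T2 Q2 B2 473) = true := by decide +kernel
def ch2_7_26 : check 8 (msOf T2 Q2 B2 474) = true := by decide +kernel
def ch2_7_27 : check 8 (msOf T2 Q2 B2 475) = true := by decide +kernel
def ch2_7_28 : check 8 (msOf T2 Q2 B2 476) = true := by decide +kernel
def ch2_7_29 : check 8 (msOf T2 Q2 B2 477) = true := by decide +kernel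
def ch2_7_30 : check 8 (msOf T2 Q2 B2 478) = true := by decide +kernel
def ch2_7_31 : check 8 (msOf T2 Q2 B2 479) = true := by decide +kernel
def ch2_7_32 : check 8 (msOf T2 Q2 B2 480) = true := by decide +kernel
def ch2_7_33 : check 8 (msOf T2 Q2 B2 481) = true := by decide +kernel
def ch2_7_34 : check 8 (msOf T2 Q2 B2 482) = true := by decide +kernel
def ch2_7_35 : check 8 (msOf T2 Q2 B2 483) = true := by decide +kernel
def ch2_7_36 : check 8 (msOf T2 Q2 B2 484) = true := by decide +kernel
def ch2_7_37 : check 8 (msOf T2 Q2 B2 485) = true := by decide +kernel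
def ch2_7_38 : check 8 (msOf T2 Q2 B2 486) = true := by decide +kernel
def ch2_7_39 : check 8 (msOf T2 Q2 B2 487) = true := by decide +kernel
def ch2_7_40 : check 8 (msOf T2 Q2 B2 488) = true := by decide +kernel
def ch2_7_41 : check 8 (msOf T2 Q2 B2 489) = true := by decide +kernel
def ch2_7_42 : check 8 (msOf T2 Q2 B2 490) = true := by decide +kernel
def ch2_7_43 : check 8 (msOf T2 Q2 B2 491) = true := by decide +kernel
def ch2_7_44 : check 8 (msOf T2 Q2 B2 492) = true := by decide +kernel
def ch2_7_45 : check 8 (msOf T2 Q2 B2 493) = true := by decide +kernel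
def ch2_7_46 : check 8 (msOf T2 Q2 B2 494) = true := by decide +kernel
def ch2_7_47 : check 8 (msOf T2 Q2 B2 495) = true := by decide +kernel
def ch2_7_48 : check 8 (msOf T2 Q2 B2 496) = true := by decide +kernel
def ch2_7_49 : check 8 (msOf T2 Q2 B2 497) = true := by decide +kernel
def ch2_7_50 : check 8 (msOf T2 Q2 B2 498) = true := by decide +kernel
def ch2_7_51 : check 8 (msOf T2 Q2 B2 499) = true := by decide +kernel
def ch2_7_52 : check 8 (msOf T2 Q2 B2 500) = true := by decide +kernel
def ch2_7_53 : check 8 (msOf T2 Q2 B2 501) = true := by decide +kernel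
def ch2_7_54 : check 8 (msOf T2 Q2 B2 502) = true := by decide +kernel
def ch2_7_55 : check 8 (msOf T2 Q2 B2 503) = true := by decide +kernel
def ch2_7_56 : check 8 (msOf T2 Q2 B2 504) = true := by decide +kernel
def ch2_7_57 : check 8 (msOf T2 Q2 B2 505) = true := by decide +kernel
def ch2_7_58 : check 8 (msOf T2 Q2 B2 506) = true := by decide +kernel
def ch2_7_59 : check 8 (msOf T2 Q2 B2 507) = true := by decide +kernel
def ch2_7_60 : check 8 (msOf T2 Q2 B2 508) = true := by decide +kernel
def ch2_7_61 : check 8 (msOf T2 Q2 B2 509) = true := by decide +kernel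
def ch2_7_62 : check 8 (msOf T2 Q2 B2 510) = true := by decide +kernel
def ch2_7_63 : check 8 (msOf T2 Q2 B2 511) = true := by decide +kernel

theorem ch2_7 (h : ℕ) (h0 : 448 ≤ h) (h1 : h < 512) :
    check 8 (msOf T2 Q2 B2 h) = true := by
  interval_cases h
  · exact ch2_7_0
  · exact ch2_7_1
  · exact ch2_7_2
  · exact ch2_7_3
  · exact ch2_7_4
  · exact ch2_7_5
  · exact ch2_7_6
  · exact ch2_7_7
  · exact ch2_7_8
  · exact ch2_7_9
  · exact ch2_7_10
  · exact ch2_7_11
  · exact ch2_7_12
  · exact ch2_7_13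
  · exact ch2_7_14
  · exact ch2_7_15
  · exact ch2_7_16
  · exact ch2_7_17
  · exact ch2_7_18
  · exact ch2_7_19
  · exact ch2_7_20
  · exact ch2_7_21
  · exact ch2_7_22
  · exact ch2_7_23
  · exact ch2_7_24
  · exact ch2_7_25
  · exact ch2_7_26
  · exact ch2_7_27
  · exact ch2_7_28
  · exact ch2_7_29
  · exact ch2_7_30
  · exact ch2_7_31
  · exact ch2_7_32
  · exact ch2_7_33
  · exact ch2_7_34
  · exact ch2_7_35
  · exact ch2_7_36
  · exact ch2_7_37
  · exact ch2_7_38
  · exact ch2_7_39
  · exact ch2_7_40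
  · exact ch2_7_41
  · exact ch2_7_42
  · exact ch2_7_43
  · exact ch2_7_44
  · exact ch2_7_45
  · exact ch2_7_46
  · exact ch2_7_47
  · exact ch2_7_48
  · exact ch2_7_49
  · exact ch2_7_50
  · exact ch2_7_51
  · exact ch2_7_52
  · exact ch2_7_53
  · exact ch2_7_54
  · exact ch2_7_55
  · exact ch2_7_56
  · exact ch2_7_57
  · exact ch2_7_58
  · exact ch2_7_59
  · exact ch2_7_60
  · exact ch2_7_61
  · exact ch2_7_62
  · exact ch2_7_63

end Pool.Agent.H.MP_694475_co
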