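import Pool.Agent.H.MP_694475_co.Chunk

set_option linter.defProp false

namespace Pool.Agent.H.MP_694475_co

def ch2_8_0 : check 8 (msOf T2 Q2 B2 512) = true := by decide +kernel
def ch2_8_1 : check 8 (msOf T2 Q2 B2 513) = true := by decide +kernel
def ch2_8_2 : check 8 (msOf T2 Q2 B2 514) = true := by decide +kernel
def ch2_8_3 : check 8 (msOf T2 Q2 B2 515) = true := by decide +kernel
def ch2_8_4 : check 8 (msOf T2 Q2 B2 516) = true := by decide +kernel
def ch2_8_5 : check 8 (msOf T2 Q2 B2 517) = true := by decide +kernel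
def ch2_8_6 : check 8 (msOf T2 Q2 B2 518) = true := by decide +kernel
def ch2_8_7 : check 8 (msOf T2 Q2 B2 519) = true := by decide +kernel
def ch2_8_8 : check 8 (msOf T2 Q2 B2 520) = true := by decide +kernel
def ch2_8_9 : check 8 (msOf T2 Q2 B2 521) = true := by decide +kernel
def ch2_8_10 : check 8 (msOf T2 Q2 B2 522) = true := by decide +kernel
def ch2_8_11 : check 8 (msOf T2 Q2 B2 523) = true := by decide +kernel
def ch2_8_12 : check 8 (msOf T2 Q2 B2 524) = true := by decide +kernel
def ch2_8_13 : check 8 (msOf T2 Q2 B2 525) = true := by decide +kernel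
def ch2_8_14 : check 8 (msOf T2 Q2 B2 526) = true := by decide +kernel
def ch2_8_15 : check 8 (msOf T2 Q2 B2 527) = true := by decide +kernel
def ch2_8_16 : check 8 (msOf T2 Q2 B2 528) = true := by decide +kernel
def ch2_8_17 : check 8 (msOf T2 Q2 B2 529) = true := by decide +kernel
def ch2_8_18 : check 8 (msOf T2 Q2 B2 530) = true := by decide +kernel
def ch2_8_19 : check 8 (msOf T2 Q2 B2 531) = true := by decide +kernel
def ch2_8_20 : check 8 (msOf T2 Q2 B2 532) = true := by decide +kernel
def ch2_8_21 : check 8 (msOf T2 Q2 B2 533) = true := by decide +kernel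
def ch2_8_22 : check 8 (msOf T2 Q2 B2 534) = true := by decide +kernel
def ch2_8_23 : check 8 (msOf T2 Q2 B2 535) = true := by decide +kernel
def ch2_8_24 : check 8 (msOf T2 Q2 B2 536) = true := by decide +kernel
def ch2_8_25 : check 8 (msOf T2 Q2 B2 537) = true := by decide +kernel
def ch2_8_26 : check 8 (msOf T2 Q2 B2 538) = true := by decide +kernel
def ch2_8_27 : check 8 (msOf T2 Q2 B2 539) = true := by decide +kernel
def ch2_8_28 : check 8 (msOf T2 Q2 B2 540) = true := by decide +kernel
def ch2_8_29 : check 8 (msOf T2 Q2 B2 541) = true := by decide +kernel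
def ch2_8_30 : check 8 (msOf T2 Q2 B2 542) = true := by decide +kernel
def ch2_8_31 : check 8 (msOf T2 Q2 B2 543) = true := by decide +kernel
def ch2_8_32 : check 8 (msOf T2 Q2 B2 544) = true := by decide +kernel
def ch2_8_33 : check 8 (msOf T2 Q2 B2 545) = true := by decide +kernel
def ch2_8_34 : check 8 (msOf T2 Q2 B2 546) = true := by decide +kernel
def ch2_8_35 : check 8 (msOf T2 Q2 B2 547) = true := by decide +kernel
def ch2_8_36 : check 8 (msOf T2 Q2 B2 548) = true := by decide +kernel
def ch2_8_37 : check 8 (msOf T2 Q2 B2 549) = true := by decide +kernel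
def ch2_8_38 : check 8 (msOf T2 Q2 B2 550) = true := by decide +kernel
def ch2_8_39 : check 8 (msOf T2 Q2 B2 551) = true := by decide +kernel
def ch2_8_40 : check 8 (msOf T2 Q2 B2 552) = true := by decide +kernel
def ch2_8_41 : check 8 (msOf T2 Q2 B2 553) = true := by decide +kernel
def ch2_8_42 : check 8 (msOf T2 Q2 B2 554) = true := by decide +kernel
def ch2_8_43 : check 8 (msOf T2 Q2 B2 555) = true := by decide +kernel
def ch2_8_44 : check 8 (msOf T2 Q2 B2 556) = true := by decide +kernel
def ch2_8_45 : check 8 (msOf T2 Q2 B2 557) = true := by decide +kernel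
def ch2_8_46 : check 8 (msOf T2 Q2 B2 558) = true := by decide +kernel
def ch2_8_47 : check 8 (msOf T2 Q2 B2 559) = true := by decide +kernel
def ch2_8_48 : check 8 (msOf T2 Q2 B2 560) = true := by decide +kernel
def ch2_8_49 : check 8 (msOf T2 Q2 B2 561) = true := by decide +kernel
def ch2_8_50 : check 8 (msOf T2 Q2 B2 562) = true := by decide +kernel
def ch2_8_51 : check 8 (msOf T2 Q2 B2 563) = true := by decide +kernel
def ch2_8_52 : check 8 (msOf T2 Q2 B2 564) = true := by decide +kernel
def ch2_8_53 : check 8 (msOf T2 Q2 B2 565) = true := by decide +kernel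
def ch2_8_54 : check 8 (msOf T2 Q2 B2 566) = true := by decide +kernel
def ch2_8_55 : check 8 (msOf T2 Q2 B2 567) = true := by decide +kernel
def ch2_8_56 : check 8 (msOf T2 Q2 B2 568) = true := by decide +kernel
def ch2_8_57 : check 8 (msOf T2 Q2 B2 569) = true := by decide +kernel
def ch2_8_58 : check 8 (msOf T2 Q2 B2 570) = true := by decide +kernel
def ch2_8_59 : check 8 (msOf T2 Q2 B2 571) = true := by decide +kernel
def ch2_8_60 : check 8 (msOf T2 Q2 B2 572) = true := by decide +kernel
def ch2_8_61 : check 8 (msOf T2 Q2 B2 573) = true := by decide +kernel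
def ch2_8_62 : check 8 (msOf T2 Q2 B2 574) = true := by decide +kernel
def ch2_8_63 : check 8 (msOf T2 Q2 B2 575) = true := by decide +kernel

theorem ch2_8 (h : ℕ) (h0 : 512 ≤ h) (h1 : h < 576) :
    check 8 (msOf T2 Q2 B2 h) = true := by
  interval_cases h
  · exact ch2_8_0
  · exact ch2_8_1
  · exact ch2_8_2
  · exact ch2_8_3
  · exact ch2_8_4
  · exact ch2_8_5
  · exact ch2_8_6
  · exact ch2_8_7
  · exact ch2_8_8
  · exact ch2_8_9
  · exact ch2_8_10
  · exact ch2_8_11
  · exact ch2_8_12
  · exact ch2_8_13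
  · exact ch2_8_14
  · exact ch2_8_15
  · exact ch2_8_16
  · exact ch2_8_17
  · exact ch2_8_18
  · exact ch2_8_19
  · exact ch2_8_20
  · exact ch2_8_21
  · exact ch2_8_22
  · exact ch2_8_23
  · exact ch2_8_24
  · exact ch2_8_25
  · exact ch2_8_26
  · exact ch2_8_27
  · exact ch2_8_28
  · exact ch2_8_29
  · exact ch2_8_30
  · exact ch2_8_31
  · exact ch2_8_32
  · exact ch2_8_33
  · exact ch2_8_34
  · exact ch2_8_35
  · exact ch2_8_36
  · exact ch2_8_37
  · exact ch2_8_38
  · exact ch2_8_39
  · exact ch2_8_40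
  · exact ch2_8_41
  · exact ch2_8_42
  · exact ch2_8_43
  · exact ch2_8_44
  · exact ch2_8_45
  · exact ch2_8_46
  · exact ch2_8_47
  · exact ch2_8_48
  · exact ch2_8_49
  · exact ch2_8_50
  · exact ch2_8_51
  · exact ch2_8_52
  · exact ch2_8_53
  · exact ch2_8_54
  · exact ch2_8_55
  · exact ch2_8_56
  · exact ch2_8_57
  · exact ch2_8_58
  · exact ch2_8_59
  · exact ch2_8_60
  · exact ch2_8_61
  · exact ch2_8_62
  · exact ch2_8_63

end Pool.Agent.H.MP_694475_co
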