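import Pool.Agent.H.MP_694475_co.Ch1_0
import Pool.Agent.H.MP_694475_co.Ch1_1
import Pool.Agent.H.MP_694475_co.Ch1_2
import Pool.Agent.H.MP_694475_co.Ch1_3
import Pool.Agent.H.MP_694475_co.Ch1_4
import Pool.Agent.H.MP_694475_co.Ch1_5
import Pool.Agent.H.MP_694475_co.Ch1_6
import Pool.Agent.H.MP_694475_co.Ch1_7
import Pool.Agent.H.MP_694475_co.Ch1_8
import Pool.Agent.H.MP_694475_co.Ch1_9
import Pool.Agent.H.MP_694475_co.Ch1_10
import Pool.Agent.H.MP_694475_co.Ch1_11
import Pool.Agent.H.MP_694475_co.Ch1_12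
import Pool.Agent.H.MP_694475_co.Ch1_13
import Pool.Agent.H.MP_694475_co.Ch1_14
import Pool.Agent.H.MP_694475_co.Ch1_15
import Pool.Agent.H.MP_694475_co.Ch2_0
import Pool.Agent.H.MP_694475_co.Ch2_1
import Pool.Agent.H.MP_694475_co.Ch2_2
import Pool.Agent.H.MP_694475_co.Ch2_3
import Pool.Agent.H.MP_694475_co.Ch2_4
import Pool.Agent.H.MP_694475_co.Ch2_5
import Pool.Agent.H.MP_694475_co.Ch2_6
import Pool.Agent.H.MP_694475_co.Ch2_7
import Pool.Agent.H.MP_694475_co.Ch2_8
import Pool.Agent.H.MP_694475_co.Ch2_9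
import Pool.Agent.H.MP_694475_co.Ch2_10
import Pool.Agent.H.MP_694475_co.Ch2_11
import Pool.Agent.H.MP_694475_co.Ch2_12
import Pool.Agent.H.MP_694475_co.Ch2_13
import Pool.Agent.H.MP_694475_co.Ch2_14
import Pool.Agent.H.MP_694475_co.Ch2_15

namespace Pool.Agent.H.MP_694475_co

theorem allCh1 (h : ℕ) (h1 : h < 1024) : check 8 (msOf T1 Q1 B1 h) = true := by
  by_cases g0 : h < 64
  · exact ch1_0 h (by omega) g0
  by_cases g1 : h < 128
  · exact ch1_1 h (by omega) g1
  by_cases g2 : h < 192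
  · exact ch1_2 h (by omega) g2
  by_cases g3 : h < 256
  · exact ch1_3 h (by omega) g3
  by_cases g4 : h < 320
  · exact ch1_4 h (by omega) g4
  by_cases g5 : h < 384
  · exact ch1_5 h (by omega) g5
  by_cases g6 : h < 448
  · exact ch1_6 h (by omega) g6
  by_cases g7 : h < 512
  · exact ch1_7 h (by omega) g7
  by_cases g8 : h < 576
  · exact ch1_8 h (by omega) g8
  by_cases g9 : h < 640
  · exact ch1_9 h (by omega) g9
  by_cases g10 : h < 704
  · exact ch1_10 h (by omega) g10
  by_cases g11 : h < 768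
  · exact ch1_11 h (by omega) g11
  by_cases g12 : h < 832
  · exact ch1_12 h (by omega) g12
  by_cases g13 : h < 896
  · exact ch1_13 h (by omega) g13
  by_cases g14 : h < 960
  · exact ch1_14 h (by omega) g14
  exact ch1_15 h (by omega) h1

theorem allCh2 (h : ℕ) (h1 : h < 1024) : check 8 (msOf T2 Q2 B2 h) = true := by
  by_cases g0 : h < 64
  · exact ch2_0 h (by omega) g0
  by_cases g1 : h < 128
  · exact ch2_1 h (by omega) g1
  by_cases g2 : h < 192
  · exact ch2_2 h (by omega) g2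
  by_cases g3 : h < 256
  · exact ch2_3 h (by omega) g3
  by_cases g4 : h < 320
  · exact ch2_4 h (by omega) g4
  by_cases g5 : h < 384
  · exact ch2_5 h (by omega) g5
  by_cases g6 : h < 448
  · exact ch2_6 h (by omega) g6
  by_cases g7 : h < 512
  · exact ch2_7 h (by omega) g7
  by_cases g8 : h < 576
  · exact ch2_8 h (by omega) g8
  by_cases g9 : h < 640
  · exact ch2_9 h (by omega) g9
  by_cases g10 : h < 704
  · exact ch2_10 h (by omega) g10
  by_cases g11 : h < 768
  · exact ch2_11 h (by omega) g11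
  by_cases g12 : h < 832
  · exact ch2_12 h (by omega) g12
  by_cases g13 : h < 896
  · exact ch2_13 h (by omega) g13
  by_cases g14 : h < 960
  · exact ch2_14 h (by omega) g14
  exact ch2_15 h (by omega) h1

end Pool.Agent.H.MP_694475_co
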