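import Pool.Agent.H.MP_694475_co.Deriv

/-! Algebraic normal form. -/

open Finset

namespace Pool.Agent.H.MP_694475_co

/-- the coordinate subspace of vectors supported on `K` -/
def cube (K : Finset (Fin 9)) : Finset V := univ.filter (fun a => ∀ i, i ∉ K → a i = 0)

/-- coefficient of the monomial `K` -/
def coef (K : Finset (Fin 9)) (e : V → ZMod 2) : ZMod 2 := ∑ a ∈ cube K, e a

/-- monomial -/
def mon (K : Finset (Fin 9)) (a : V) : ZMod 2 := ∏ i ∈ K, a i

/-- sum over a coordinate subspace -/
def csum (K : Finset (Fin 9)) (F : V → ℤ) : ℤ := ∑ a ∈ cube K, F a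

private theorem anf_mem_cube {K : Finset (Fin 9)} {a : V} :
    a ∈ cube K ↔ ∀ i, i ∉ K → a i = 0 := by
  simp [cube]

private theorem anf_E_same (i : Fin 9) : E i i = 1 := by simp [E]

private theorem anf_E_ne {i j : Fin 9} (h : j ≠ i) : E i j = 0 := by simp [E, h]

private theorem anf_cube_empty : cube ∅ = {0} := by
  ext a
  rw [anf_mem_cube, Finset.mem_singleton]
  constructor
  · intro h; funext i; exact h i (by simp)
  · intro h; subst h; simp

private theorem anf_cube_insert (K : Finset (Fin 9)) (i : Fin 9) (hi : i ∉ K) :
    cube (insert i K) = cube K ∪ (cube K).image (fun a => a + E i) := by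
  ext a
  rw [Finset.mem_union, Finset.mem_image, anf_mem_cube, anf_mem_cube]
  constructor
  · intro h
    rcases zmod2_cases (a i) with h0 | h1
    · left
      intro j hj
      by_cases hji : j = i
      · subst hji; exact h0
      · exact h j (by simp [hji, hj])
    · right
      refine ⟨a + E i, ?_, add_add_cancel_V a (E i)⟩
      rw [anf_mem_cube]
      intro j hj
      by_cases hji : j = i
      · subst hji
        show a j + E j j = 0
        rw [h1, anf_E_same]; decide
      · show a j + E i j = 0
        rw [h j (by simp [hji, hj]), anf_E_ne hji]; decide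
  · rintro (h | ⟨b, hb, rfl⟩) j hj
    · exact h j (fun hc => hj (Finset.mem_insert_of_mem hc))
    · rw [anf_mem_cube] at hb
      have hji : j ≠ i := fun hc => hj (by rw [hc]; exact Finset.mem_insert_self _ _)
      show b j + E i j = 0
      rw [hb j (fun hc => hj (Finset.mem_insert_of_mem hc)), anf_E_ne hji]; decide

private theorem anf_disj (K : Finset (Fin 9)) (i : Fin 9) (hi : i ∉ K) :
    Disjoint (cube K) ((cube K).image (fun a => a + E i)) := by
  rw [Finset.disjoint_left]
  intro a ha hb
  rw [Finset.mem_image] at hb
  obtain ⟨b, hb, rfl⟩ := hb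
  rw [anf_mem_cube] at ha hb
  have h1 := ha i hi
  have h2 : b i + E i i = 0 := h1
  rw [hb i hi, anf_E_same] at h2
  exact absurd h2 (by decide)

private theorem anf_sum_insert {M : Type*} [AddCommMonoid M] (f : V → M) (K : Finset (Fin 9))
    (i : Fin 9) (hi : i ∉ K) :
    ∑ a ∈ cube (insert i K), f a = ∑ a ∈ cube K, (f a + f (a + E i)) := by
  rw [anf_cube_insert K i hi, Finset.sum_union (anf_disj K i hi), Finset.sum_image,
    Finset.sum_add_distrib]
  intro a _ b _ hab
  exact add_right_cancel hab

theorem cube_univ : cube univ = univ := by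
  ext a
  simp [anf_mem_cube]

theorem card_cube (K : Finset (Fin 9)) : (cube K).card = 2 ^ K.card := by
  induction K using Finset.induction_on with
  | empty => simp [anf_cube_empty]
  | insert i K hi ih =>
    rw [Finset.card_insert_of_notMem hi, pow_succ, ← ih]
    have := anf_sum_insert (fun _ => (1 : ℕ)) K i hi
    simp only [Finset.sum_const, smul_eq_mul, mul_one] at this
    rw [this]

theorem coef_empty (e : V → ZMod 2) : coef ∅ e = e 0 := by
  unfold coef
  rw [anf_cube_empty, Finset.sum_singleton]

theorem coef_insert (e : V → ZMod 2) (K : Finset (Fin 9)) (i : Fin 9) (hi : i ∉ K) :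
    coef (insert i K) e = coef K (D (E i) e) := by
  unfold coef
  rw [anf_sum_insert e K i hi]
  refine Finset.sum_congr rfl fun a _ => ?_
  show e a + e (a + E i) = e (a + E i) + e a
  rw [add_comm]

theorem coef_add (e f : V → ZMod 2) (K : Finset (Fin 9)) :
    coef K (fun a => e a + f a) = coef K e + coef K f := by
  unfold coef
  exact Finset.sum_add_distrib

private def anf_ind (s : Finset (Fin 9)) : V := fun i => if i ∈ s then 1 else 0

private theorem anf_powerset (s : Finset (Fin 9)) : ∀ e : V → ZMod 2,
    ∑ K ∈ s.powerset, coef K e = e (anf_ind s) := by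
  induction s using Finset.induction_on with
  | empty =>
    intro e
    rw [Finset.powerset_empty, Finset.sum_singleton, coef_empty]
    congr 1
  | insert i s hi ih =>
    intro e
    rw [Finset.sum_powerset_insert hi, ih e]
    have h1 : ∑ t ∈ s.powerset, coef (insert i t) e = ∑ t ∈ s.powerset, coef t (D (E i) e) := by
      refine Finset.sum_congr rfl fun t ht => ?_
      rw [Finset.mem_powerset] at ht
      exact coef_insert e t i (fun hc => hi (ht hc))
    rw [h1, ih]
    have h2 : anf_ind (insert i s) = anf_ind s + E i := by
      funext j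
      show (if j ∈ insert i s then (1 : ZMod 2) else 0) = (if j ∈ s then 1 else 0) + E i j
      by_cases hj : j = i
      · subst hj
        rw [if_pos (Finset.mem_insert_self _ _), if_neg hi, anf_E_same]; decide
      · rw [anf_E_ne hj, add_zero]
        simp [hj]
    rw [h2]
    show e (anf_ind s) + (e (anf_ind s + E i) + e (anf_ind s)) = e (anf_ind s + E i)
    generalize e (anf_ind s + E i) = x
    generalize e (anf_ind s) = y
    revert x y; decide

private theorem anf_mon_eq (K : Finset (Fin 9)) (a : V) :
    mon K a = if K ⊆ univ.filter (fun i => a i ≠ 0) then 1 else 0 := by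
  split_ifs with h
  · refine Finset.prod_eq_one fun i hi => ?_
    have := h hi
    simp only [Finset.mem_filter, Finset.mem_univ, true_and] at this
    exact (zmod2_cases _).resolve_left this
  · rw [Finset.not_subset] at h
    obtain ⟨i, hi, h2⟩ := h
    refine Finset.prod_eq_zero hi ?_
    simpa using h2

/-- Moebius inversion -/
theorem anf (e : V → ZMod 2) (a : V) : e a = ∑ K : Finset (Fin 9), coef K e * mon K a := by
  have h1 : anf_ind (univ.filter (fun i => a i ≠ 0)) = a := by
    funext i
    show (if i ∈ univ.filter (fun i => a i ≠ 0) then (1 : ZMod 2) else 0) = a i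
    rcases zmod2_cases (a i) with h | h
    · rw [if_neg (by simp [h]), h]
    · rw [if_pos (by simp [h]), h]
  have h2 := anf_powerset (univ.filter (fun i => a i ≠ 0)) e
  rw [h1] at h2
  rw [← h2]
  have h3 : (univ.filter (fun i => a i ≠ 0)).powerset
      = univ.filter (fun K : Finset (Fin 9) => K ⊆ univ.filter (fun i => a i ≠ 0)) := by
    ext K; simp
  rw [h3, Finset.sum_filter]
  refine Finset.sum_congr rfl fun K _ => ?_
  rw [anf_mon_eq]
  split_ifs <;> simp

private theorem anf_coef_zero (K : Finset (Fin 9)) : coef K (fun _ => 0) = 0 := by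
  unfold coef; exact Finset.sum_const_zero

private theorem anf_mon_insert (K : Finset (Fin 9)) (i : Fin 9) (hi : i ∉ K) (a : V) :
    mon (insert i K) a = a i * mon K a := by
  unfold mon; exact Finset.prod_insert hi

private theorem anf_mon_shift (K : Finset (Fin 9)) (i : Fin 9) (hi : i ∉ K) (a : V) :
    mon K (a + E i) = mon K a := by
  unfold mon
  refine Finset.prod_congr rfl fun j hj => ?_
  show a j + E i j = a j
  rw [anf_E_ne (fun hc => hi (by rw [← hc]; exact hj)), add_zero]

theorem coef_mon (K L : Finset (Fin 9)) : coef K (mon L) = if K = L then 1 else 0 := by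
  induction K using Finset.induction_on generalizing L with
  | empty =>
    rw [coef_empty, anf_mon_eq]
    have : (univ.filter (fun i : Fin 9 => (0 : V) i ≠ 0)) = ∅ := by
      ext i; simp
    rw [this]
    by_cases h : L = ∅
    · rw [if_pos (Finset.subset_empty.mpr h), if_pos h.symm]
    · rw [if_neg (fun hc => h (Finset.subset_empty.mp hc)), if_neg (fun hc => h hc.symm)]
  | insert i K hi ih =>
    rw [coef_insert _ _ _ hi]
    by_cases hL : i ∈ L
    · have h1 : D (E i) (mon L) = mon (L.erase i) := by
        funext a
        show mon L (a + E i) + mon L a = mon (L.erase i) a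
        have h2 : ∀ b, mon L b = b i * mon (L.erase i) b := by
          intro b
          conv_lhs => rw [← Finset.insert_erase hL]
          exact anf_mon_insert _ _ (Finset.notMem_erase _ _) b
        rw [h2, h2, anf_mon_shift _ _ (Finset.notMem_erase _ _)]
        have h3 : (a + E i) i = a i + 1 := by
          show a i + E i i = a i + 1
          rw [anf_E_same]
        rw [h3]
        generalize a i = x
        generalize mon (L.erase i) a = y
        revert x y; decide
      rw [h1, ih]
      by_cases h : K = L.erase i
      · rw [if_pos h, if_pos (by rw [h, Finset.insert_erase hL])]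
      · rw [if_neg h, if_neg]
        intro hc
        apply h
        rw [← hc, Finset.erase_insert hi]
    · have h1 : D (E i) (mon L) = fun _ => 0 := by
        funext a
        show mon L (a + E i) + mon L a = 0
        rw [anf_mon_shift _ _ hL]; exact add_self_zmod2 _
      rw [h1, anf_coef_zero, if_neg]
      intro hc
      exact hL (by rw [← hc]; exact Finset.mem_insert_self _ _)

/-- uniqueness of the algebraic normal form -/
theorem coef_unique (e : V → ZMod 2) (c : Finset (Fin 9) → ZMod 2)
    (h : ∀ a, e a = ∑ K : Finset (Fin 9), c K * mon K a) (K : Finset (Fin 9)) :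
    coef K e = c K := by
  have h1 : coef K e = ∑ L : Finset (Fin 9), c L * coef K (mon L) := by
    unfold coef
    rw [Finset.sum_congr rfl fun a _ => h a, Finset.sum_comm]
    refine Finset.sum_congr rfl fun L _ => ?_
    rw [Finset.mul_sum]
  rw [h1]
  simp only [coef_mon]
  simp

theorem coef_eq_zero {n : ℕ} {e : V → ZMod 2} (h : DegLT n e) (K : Finset (Fin 9))
    (hK : n ≤ K.card) : coef K e = 0 := by
  induction K using Finset.induction_on generalizing e n with
  | empty =>
    have hn : n = 0 := by simpa using hK
    subst hn
    rw [coef_empty]; exact h 0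
  | insert i K hi ih =>
    cases n with
    | zero =>
      unfold coef
      exact Finset.sum_eq_zero fun a _ => h a
    | succ m =>
      rw [coef_insert _ _ _ hi]
      rw [Finset.card_insert_of_notMem hi] at hK
      exact ih (h (E i)) (by omega)

private theorem anf_DegLT_zero (n : ℕ) : DegLT n (fun _ => 0) := by
  induction n with
  | zero => intro a; rfl
  | succ n ih =>
    intro u
    have : D u (fun _ => (0 : ZMod 2)) = fun _ => 0 := by
      funext a; show (0 : ZMod 2) + 0 = 0; decide
    rw [this]; exact ih

private theorem anf_DegLT_mono {n m : ℕ} (hnm : n ≤ m) {k : V → ZMod 2} (h : DegLT n k) :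
    DegLT m k := by
  induction hnm with
  | refl => exact h
  | step _ ih => exact ih.succ

private theorem anf_DegLT_const_mul {n : ℕ} (c : ZMod 2) {k : V → ZMod 2} (h : DegLT n k) :
    DegLT n (fun a => c * k a) := by
  rcases zmod2_cases c with hc | hc
  · subst hc
    have : (fun a => (0 : ZMod 2) * k a) = fun _ => 0 := by funext a; simp
    rw [this]; exact anf_DegLT_zero n
  · subst hc
    have : (fun a => (1 : ZMod 2) * k a) = k := by funext a; simp
    rw [this]; exact h

private theorem anf_DegLT_sum {ι : Type*} [DecidableEq ι] {n : ℕ} (s : Finset ι)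
    (k : ι → V → ZMod 2) (h : ∀ i ∈ s, DegLT n (k i)) : DegLT n (fun a => ∑ i ∈ s, k i a) := by
  induction s using Finset.induction_on with
  | empty => simpa using anf_DegLT_zero n
  | insert i s hi ih =>
    have : (fun a => ∑ j ∈ insert i s, k j a) = fun a => k i a + (fun a => ∑ j ∈ s, k j a) a := by
      funext a; exact Finset.sum_insert hi
    rw [this]
    exact DegLT.add (h i (Finset.mem_insert_self _ _))
      (ih fun j hj => h j (Finset.mem_insert_of_mem hj))

private theorem anf_DegLT_mul_coord (i : Fin 9) {m : ℕ} : ∀ {k : V → ZMod 2}, DegLT m k →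
    DegLT (m + 1) (fun a => a i * k a) := by
  induction m with
  | zero =>
    intro k h
    have : (fun a : V => a i * k a) = fun _ => 0 := by
      funext a; rw [h a, mul_zero]
    rw [this]; exact anf_DegLT_zero 1
  | succ m ih =>
    intro k h u
    have h1 : D u (fun a : V => a i * k a) = fun a => (fun a : V => a i * D u k a) a
        + (fun a => u i * k (a + u)) a := by
      funext a
      show (a i + u i) * k (a + u) + a i * k a = a i * (k (a + u) + k a) + u i * k (a + u)
      ring
    rw [h1]
    exact DegLT.add (ih (h u)) (anf_DegLT_const_mul _ (h.shift u))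

private theorem anf_DegLT_mon (K : Finset (Fin 9)) : DegLT (K.card + 1) (mon K) := by
  induction K using Finset.induction_on with
  | empty =>
    have : mon ∅ = fun _ => 1 := by funext a; simp [mon]
    rw [this]; exact DegLT_const 1
  | insert i K hi ih =>
    have : mon (insert i K) = fun a => a i * mon K a := by
      funext a; exact anf_mon_insert K i hi a
    rw [this, Finset.card_insert_of_notMem hi]
    exact anf_DegLT_mul_coord i ih

theorem DegLT_of_coef {n : ℕ} {e : V → ZMod 2}
    (h : ∀ K : Finset (Fin 9), n ≤ K.card → coef K e = 0) : DegLT n e := by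
  have h1 : e = fun a => ∑ K : Finset (Fin 9), coef K e * mon K a := by
    funext a; exact anf e a
  rw [h1]
  refine anf_DegLT_sum univ (fun K a => coef K e * mon K a) fun K _ => ?_
  by_cases hK : n ≤ K.card
  · have : (fun a => coef K e * mon K a) = fun _ => 0 := by
      funext a; rw [h K hK, zero_mul]
    rw [this]; exact anf_DegLT_zero n
  · exact anf_DegLT_const_mul _ (anf_DegLT_mono (by omega) (anf_DegLT_mon K))

private theorem anf_inner (a : V) (K : Finset (Fin 9)) :
    ∑ x ∈ cube K, sgn (dot a x) = if ∀ i ∈ K, a i = 0 then 2 ^ K.card else 0 := by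
  induction K using Finset.induction_on with
  | empty => simp [anf_cube_empty]
  | insert i K hi ih =>
    rw [anf_sum_insert _ K i hi]
    have h1 : ∀ x, sgn (dot a x) + sgn (dot a (x + E i)) = sgn (dot a x) * (1 + sgn (a i)) := by
      intro x; rw [dot_add_right, dot_E, sgn_add]; ring
    rw [Finset.sum_congr rfl fun x _ => h1 x, ← Finset.sum_mul, ih,
      Finset.card_insert_of_notMem hi]
    rcases zmod2_cases (a i) with h0 | h0
    · have h2 : (∀ j ∈ insert i K, a j = 0) ↔ ∀ j ∈ K, a j = 0 := by
        simp [h0]
      rw [h0, sgn_zero]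
      by_cases h3 : ∀ j ∈ K, a j = 0
      · rw [if_pos h3, if_pos (h2.mpr h3)]; ring
      · rw [if_neg h3, if_neg (fun hc => h3 (h2.mp hc))]; ring
    · rw [h0, sgn_one]
      have h2 : ¬ (∀ j ∈ insert i K, a j = 0) := by
        intro hc
        have := hc i (Finset.mem_insert_self _ _)
        rw [h0] at this
        exact absurd this (by decide)
      rw [if_neg h2]; ring

/-- Poisson summation for coordinate subspaces -/
theorem csum_WT (K : Finset (Fin 9)) (F : V → ℤ) :
    csum K (WT F) = 2 ^ K.card * csum Kᶜ F := by
  unfold csum WT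
  rw [Finset.sum_comm]
  have h1 : ∀ a, ∑ x ∈ cube K, F a * sgn (dot a x)
      = if ∀ i ∈ K, a i = 0 then 2 ^ K.card * F a else 0 := by
    intro a
    rw [← Finset.mul_sum, anf_inner]
    split_ifs <;> ring
  rw [Finset.sum_congr rfl fun a _ => h1 a, ← Finset.sum_filter, ← Finset.mul_sum]
  have h2 : univ.filter (fun a : V => ∀ i ∈ K, a i = 0) = cube Kᶜ := by
    ext a
    rw [anf_mem_cube]
    simp
  rw [h2]

end Pool.Agent.H.MP_694475_co
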