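import Mathlib

/-! Walsh transform on `F_2^9`. -/

open Finset

namespace Pool.Agent.H.MP_694475_co

abbrev V : Type := Fin 9 → ZMod 2

/-- the nontrivial character of `ZMod 2` -/
def sgn (a : ZMod 2) : ℤ := if a = 0 then 1 else -1

def dot (x y : V) : ZMod 2 := ∑ i, x i * y i

/-- Walsh transform -/
def WT (F : V → ℤ) (x : V) : ℤ := ∑ a, F a * sgn (dot a x)

/-- `chi e = (-1)^e` -/
def chi (e : V → ZMod 2) : V → ℤ := fun a => sgn (e a)

/-- unit vectors -/
def E (i : Fin 9) : V := Pi.single i 1

@[simp] theorem sgn_zero : sgn 0 = 1 := by simp [sgn]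

@[simp] theorem sgn_one : sgn 1 = -1 := by simp [sgn]

theorem zmod2_cases (a : ZMod 2) : a = 0 ∨ a = 1 := by
  revert a; decide

theorem sgn_add (a b : ZMod 2) : sgn (a + b) = sgn a * sgn b := by
  revert a b; decide

theorem sgn_mul_self (a : ZMod 2) : sgn a * sgn a = 1 := by
  revert a; decide

theorem sgn_eq_or (a : ZMod 2) : sgn a = 1 ∨ sgn a = -1 := by
  revert a; decide

theorem sgn_inj {a b : ZMod 2} (h : sgn a = sgn b) : a = b := by
  revert a b; decide

theorem add_self_zmod2 (a : ZMod 2) : a + a = 0 := by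
  revert a; decide

theorem add_self_V (u : V) : u + u = 0 := by
  funext i; exact add_self_zmod2 _

theorem add_add_cancel_V (a u : V) : a + u + u = a := by
  rw [add_assoc, add_self_V, add_zero]

theorem dot_comm (x y : V) : dot x y = dot y x := by
  unfold dot; exact Finset.sum_congr rfl fun i _ => mul_comm _ _

theorem dot_add_left (x y z : V) : dot (x + y) z = dot x z + dot y z := by
  unfold dot; rw [← Finset.sum_add_distrib]
  exact Finset.sum_congr rfl fun i _ => by simp [add_mul]

theorem dot_add_right (x y z : V) : dot x (y + z) = dot x y + dot x z := by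
  rw [dot_comm, dot_add_left, dot_comm y, dot_comm z]

@[simp] theorem dot_zero_left (x : V) : dot 0 x = 0 := by simp [dot]

@[simp] theorem dot_zero_right (x : V) : dot x 0 = 0 := by simp [dot]

theorem dot_E (x : V) (i : Fin 9) : dot x (E i) = x i := by
  unfold dot E
  rw [Finset.sum_eq_single i]
  · simp
  · intro j _ hj; simp [hj]
  · simp

theorem dot_E_left (x : V) (i : Fin 9) : dot (E i) x = x i := by
  rw [dot_comm, dot_E]

/-- translation invariance of sums over `V` -/
theorem sum_translate (F : V → ℤ) (u : V) : ∑ a, F (a + u) = ∑ a, F a :=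
  Fintype.sum_equiv (Equiv.addRight u) _ _ fun _ => rfl

theorem sum_sgn_dot (x : V) : ∑ a, sgn (dot a x) = if x = 0 then 512 else 0 := by
  split_ifs with h
  · subst h
    simp [Fintype.card_pi]
  · obtain ⟨i, hi⟩ : ∃ i, x i ≠ 0 := by
      by_contra hc; push Not at hc; exact h (funext hc)
    have hi1 : x i = 1 := (zmod2_cases (x i)).resolve_left hi
    have h1 := sum_translate (fun a => sgn (dot a x)) (E i)
    have h2 : ∀ a : V, sgn (dot (a + E i) x) = - sgn (dot a x) := by
      intro a; rw [dot_add_left, dot_E_left, sgn_add, hi1]; simp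
    simp only [h2, Finset.sum_neg_distrib] at h1
    linarith

theorem WT_add (F G : V → ℤ) (x : V) : WT (fun a => F a + G a) x = WT F x + WT G x := by
  unfold WT; rw [← Finset.sum_add_distrib]
  exact Finset.sum_congr rfl fun i _ => by ring

theorem WT_sub (F G : V → ℤ) (x : V) : WT (fun a => F a - G a) x = WT F x - WT G x := by
  unfold WT; rw [← Finset.sum_sub_distrib]
  exact Finset.sum_congr rfl fun i _ => by ring

theorem WT_const_mul (c : ℤ) (F : V → ℤ) (x : V) : WT (fun a => c * F a) x = c * WT F x := by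
  unfold WT; rw [Finset.mul_sum]
  exact Finset.sum_congr rfl fun i _ => by ring

theorem WT_neg (F : V → ℤ) (x : V) : WT (fun a => - F a) x = - WT F x := by
  have := WT_const_mul (-1) F x
  simpa using this

theorem WT_delta (c : ℤ) (x : V) : WT (fun a => if a = 0 then c else 0) x = c := by
  unfold WT
  rw [Finset.sum_eq_single 0]
  · simp
  · intro a _ ha; simp [ha]
  · simp

theorem WT_one (x : V) : WT (fun _ => 1) x = if x = 0 then 512 else 0 := by
  unfold WT; simpa using sum_sgn_dot x

/-- inversion -/
theorem WT_WT (F : V → ℤ) (a : V) : WT (WT F) a = 512 * F a := by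
  unfold WT
  simp_rw [Finset.sum_mul]
  rw [Finset.sum_comm]
  have h : ∀ b : V, ∑ x, F b * sgn (dot b x) * sgn (dot x a)
      = F b * (if b + a = 0 then 512 else 0) := by
    intro b
    rw [← sum_sgn_dot (b + a), Finset.mul_sum]
    refine Finset.sum_congr rfl fun x _ => ?_
    rw [dot_add_right, sgn_add, dot_comm b x]; ring
  simp_rw [h]
  rw [Finset.sum_eq_single a]
  · simp [add_self_V]; ring
  · intro b _ hb
    have : b + a ≠ 0 := by
      intro h0
      apply hb
      have := add_add_cancel_V b a
      rw [h0] at this; simpa using this.symm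
    simp [this]
  · simp

theorem WT_inner (F G : V → ℤ) : ∑ x, WT F x * WT G x = 512 * ∑ a, F a * G a := by
  have h : ∀ a, WT (WT G) a = 512 * G a := WT_WT G
  calc ∑ x, WT F x * WT G x = ∑ x, ∑ a, F a * (WT G x * sgn (dot x a)) := by
        refine Finset.sum_congr rfl fun x _ => ?_
        conv_lhs => unfold WT
        rw [Finset.sum_mul]
        refine Finset.sum_congr rfl fun a _ => ?_
        rw [dot_comm a x]
        show F a * sgn (dot x a) * WT G x = _
        ring
    _ = ∑ a, F a * WT (WT G) a := by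
        rw [Finset.sum_comm]
        refine Finset.sum_congr rfl fun a _ => ?_
        rw [← Finset.mul_sum]; rfl
    _ = 512 * ∑ a, F a * G a := by
        rw [Finset.mul_sum]
        refine Finset.sum_congr rfl fun a _ => ?_
        rw [h]; ring

theorem WT_shift (F : V → ℤ) (u x : V) : WT (fun a => F (a + u)) x = sgn (dot u x) * WT F x := by
  unfold WT
  rw [← sum_translate (fun a => F (a + u) * sgn (dot a x)) u, Finset.mul_sum]
  refine Finset.sum_congr rfl fun a _ => ?_
  rw [add_add_cancel_V, dot_add_left, sgn_add]; ring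

theorem WT_modulate (F : V → ℤ) (u x : V) :
    WT (fun a => F a * sgn (dot u a)) x = WT F (x + u) := by
  unfold WT
  refine Finset.sum_congr rfl fun a _ => ?_
  show F a * sgn (dot u a) * sgn (dot a x) = _
  rw [dot_add_right, sgn_add, dot_comm u a]; ring

/-- autocorrelation formula -/
theorem WT_autocorr (F : V → ℤ) (v : V) :
    ∑ x, WT F x ^ 2 * sgn (dot v x) = 512 * ∑ a, F a * F (a + v) := by
  rw [← WT_inner F (fun a => F (a + v))]
  refine Finset.sum_congr rfl fun x _ => ?_
  rw [WT_shift]; ring

/-- fourth moment -/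
theorem WT_fourth (F : V → ℤ) :
    ∑ x, WT F x ^ 4 = 512 * ∑ v, (∑ a, F a * F (a + v)) ^ 2 := by
  have h1 : ∀ v, WT (fun x => WT F x ^ 2) v = 512 * ∑ a, F a * F (a + v) := by
    intro v
    rw [← WT_autocorr]
    unfold WT
    refine Finset.sum_congr rfl fun x _ => ?_
    rw [dot_comm x v]
  have h2 := WT_inner (fun x => WT F x ^ 2) (fun x => WT F x ^ 2)
  simp_rw [h1] at h2
  have h3 : ∑ x, WT F x ^ 2 * WT F x ^ 2 = ∑ x, WT F x ^ 4 :=
    Finset.sum_congr rfl fun x _ => by ring
  rw [h3] at h2
  have h4 : ∑ v, (512 * ∑ a, F a * F (a + v)) * (512 * ∑ a, F a * F (a + v))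
      = 512 * (512 * ∑ v, (∑ a, F a * F (a + v)) ^ 2) := by
    rw [Finset.mul_sum, Finset.mul_sum]
    refine Finset.sum_congr rfl fun x _ => by ring
  rw [h4] at h2
  linarith

end Pool.Agent.H.MP_694475_co
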