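import Pool.Agent.H.MP_694475_co.Chunk

set_option linter.defProp false

namespace Pool.Agent.H.MP_694475_co

def ch1_12_0 : check 8 (msOf T1 Q1 B1 768) = true := by decide +kernel
def ch1_12_1 : check 8 (msOf T1 Q1 B1 769) = true := by decide +kernel
def ch1_12_2 : check 8 (msOf T1 Q1 B1 770) = true := by decide +kernel
def ch1_12_3 : check 8 (msOf T1 Q1 B1 771) = true := by decide +kernel
def ch1_12_4 : check 8 (msOf T1 Q1 B1 772) = true := by decide +kernel
def ch1_12_5 : check 8 (msOf T1 Q1 B1 773) = true := by decide +kernel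
def ch1_12_6 : check 8 (msOf T1 Q1 B1 774) = true := by decide +kernel
def ch1_12_7 : check 8 (msOf T1 Q1 B1 775) = true := by decide +kernel
def ch1_12_8 : check 8 (msOf T1 Q1 B1 776) = true := by decide +kernel
def ch1_12_9 : check 8 (msOf T1 Q1 B1 777) = true := by decide +kernel
def ch1_12_10 : check 8 (msOf T1 Q1 B1 778) = true := by decide +kernel
def ch1_12_11 : check 8 (msOf T1 Q1 B1 779) = true := by decide +kernel
def ch1_12_12 : check 8 (msOf T1 Q1 B1 780) = true := by decide +kernel
def ch1_12_13 : check 8 (msOf T1 Q1 B1 781) = true := by decide +kernel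
def ch1_12_14 : check 8 (msOf T1 Q1 B1 782) = true := by decide +kernel
def ch1_12_15 : check 8 (msOf T1 Q1 B1 783) = true := by decide +kernel
def ch1_12_16 : check 8 (msOf T1 Q1 B1 784) = true := by decide +kernel
def ch1_12_17 : check 8 (msOf T1 Q1 B1 785) = true := by decide +kernel
def ch1_12_18 : check 8 (msOf T1 Q1 B1 786) = true := by decide +kernel
def ch1_12_19 : check 8 (msOf T1 Q1 B1 787) = true := by decide +kernel
def ch1_12_20 : check 8 (msOf T1 Q1 B1 788) = true := by decide +kernel
def ch1_12_21 : check 8 (msOf T1 Q1 B1 789) = true := by decide +kernel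
def ch1_12_22 : check 8 (msOf T1 Q1 B1 790) = true := by decide +kernel
def ch1_12_23 : check 8 (msOf T1 Q1 B1 791) = true := by decide +kernel
def ch1_12_24 : check 8 (msOf T1 Q1 B1 792) = true := by decide +kernel
def ch1_12_25 : check 8 (msOf T1 Q1 B1 793) = true := by decide +kernel
def ch1_12_26 : check 8 (msOf T1 Q1 B1 794) = true := by decide +kernel
def ch1_12_27 : check 8 (msOf T1 Q1 B1 795) = true := by decide +kernel
def ch1_12_28 : check 8 (msOf T1 Q1 B1 796) = true := by decide +kernel
def ch1_12_29 : check 8 (msOf T1 Q1 B1 797) = true := by decide +kernel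
def ch1_12_30 : check 8 (msOf T1 Q1 B1 798) = true := by decide +kernel
def ch1_12_31 : check 8 (msOf T1 Q1 B1 799) = true := by decide +kernel
def ch1_12_32 : check 8 (msOf T1 Q1 B1 800) = true := by decide +kernel
def ch1_12_33 : check 8 (msOf T1 Q1 B1 801) = true := by decide +kernel
def ch1_12_34 : check 8 (msOf T1 Q1 B1 802) = true := by decide +kernel
def ch1_12_35 : check 8 (msOf T1 Q1 B1 803) = true := by decide +kernel
def ch1_12_36 : check 8 (msOf T1 Q1 B1 804) = true := by decide +kernel
def ch1_12_37 : check 8 (msOf T1 Q1 B1 805) = true := by decide +kernel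
def ch1_12_38 : check 8 (msOf T1 Q1 B1 806) = true := by decide +kernel
def ch1_12_39 : check 8 (msOf T1 Q1 B1 807) = true := by decide +kernel
def ch1_12_40 : check 8 (msOf T1 Q1 B1 808) = true := by decide +kernel
def ch1_12_41 : check 8 (msOf T1 Q1 B1 809) = true := by decide +kernel
def ch1_12_42 : check 8 (msOf T1 Q1 B1 810) = true := by decide +kernel
def ch1_12_43 : check 8 (msOf T1 Q1 B1 811) = true := by decide +kernel
def ch1_12_44 : check 8 (msOf T1 Q1 B1 812) = true := by decide +kernel
def ch1_12_45 : check 8 (msOf T1 Q1 B1 813) = true := by decide +kernel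
def ch1_12_46 : check 8 (msOf T1 Q1 B1 814) = true := by decide +kernel
def ch1_12_47 : check 8 (msOf T1 Q1 B1 815) = true := by decide +kernel
def ch1_12_48 : check 8 (msOf T1 Q1 B1 816) = true := by decide +kernel
def ch1_12_49 : check 8 (msOf T1 Q1 B1 817) = true := by decide +kernel
def ch1_12_50 : check 8 (msOf T1 Q1 B1 818) = true := by decide +kernel
def ch1_12_51 : check 8 (msOf T1 Q1 B1 819) = true := by decide +kernel
def ch1_12_52 : check 8 (msOf T1 Q1 B1 820) = true := by decide +kernel
def ch1_12_53 : check 8 (msOf T1 Q1 B1 821) = true := by decide +kernel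
def ch1_12_54 : check 8 (msOf T1 Q1 B1 822) = true := by decide +kernel
def ch1_12_55 : check 8 (msOf T1 Q1 B1 823) = true := by decide +kernel
def ch1_12_56 : check 8 (msOf T1 Q1 B1 824) = true := by decide +kernel
def ch1_12_57 : check 8 (msOf T1 Q1 B1 825) = true := by decide +kernel
def ch1_12_58 : check 8 (msOf T1 Q1 B1 826) = true := by decide +kernel
def ch1_12_59 : check 8 (msOf T1 Q1 B1 827) = true := by decide +kernel
def ch1_12_60 : check 8 (msOf T1 Q1 B1 828) = true := by decide +kernel
def ch1_12_61 : check 8 (msOf T1 Q1 B1 829) = true := by decide +kernel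
def ch1_12_62 : check 8 (msOf T1 Q1 B1 830) = true := by decide +kernel
def ch1_12_63 : check 8 (msOf T1 Q1 B1 831) = true := by decide +kernel

theorem ch1_12 (h : ℕ) (h0 : 768 ≤ h) (h1 : h < 832) :
    check 8 (msOf T1 Q1 B1 h) = true := by
  interval_cases h
  · exact ch1_12_0
  · exact ch1_12_1
  · exact ch1_12_2
  · exact ch1_12_3
  · exact ch1_12_4
  · exact ch1_12_5
  · exact ch1_12_6
  · exact ch1_12_7
  · exact ch1_12_8
  · exact ch1_12_9
  · exact ch1_12_10
  · exact ch1_12_11
  · exact ch1_12_12
  · exact ch1_12_13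
  · exact ch1_12_14
  · exact ch1_12_15
  · exact ch1_12_16
  · exact ch1_12_17
  · exact ch1_12_18
  · exact ch1_12_19
  · exact ch1_12_20
  · exact ch1_12_21
  · exact ch1_12_22
  · exact ch1_12_23
  · exact ch1_12_24
  · exact ch1_12_25
  · exact ch1_12_26
  · exact ch1_12_27
  · exact ch1_12_28
  · exact ch1_12_29
  · exact ch1_12_30
  · exact ch1_12_31
  · exact ch1_12_32
  · exact ch1_12_33
  · exact ch1_12_34
  · exact ch1_12_35
  · exact ch1_12_36
  · exact ch1_12_37
  · exact ch1_12_38
  · exact ch1_12_39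
  · exact ch1_12_40
  · exact ch1_12_41
  · exact ch1_12_42
  · exact ch1_12_43
  · exact ch1_12_44
  · exact ch1_12_45
  · exact ch1_12_46
  · exact ch1_12_47
  · exact ch1_12_48
  · exact ch1_12_49
  · exact ch1_12_50
  · exact ch1_12_51
  · exact ch1_12_52
  · exact ch1_12_53
  · exact ch1_12_54
  · exact ch1_12_55
  · exact ch1_12_56
  · exact ch1_12_57
  · exact ch1_12_58
  · exact ch1_12_59
  · exact ch1_12_60
  · exact ch1_12_61
  · exact ch1_12_62
  · exact ch1_12_63

end Pool.Agent.H.MP_694475_co
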