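import Pool.Agent.H.MP_694475_co.Chunk

set_option linter.defProp false

namespace Pool.Agent.H.MP_694475_co

def ch2_9_0 : check 8 (msOf T2 Q2 B2 576) = true := by decide +kernel
def ch2_9_1 : check 8 (msOf T2 Q2 B2 577) = true := by decide +kernel
def ch2_9_2 : check 8 (msOf T2 Q2 B2 578) = true := by decide +kernel
def ch2_9_3 : check 8 (msOf T2 Q2 B2 579) = true := by decide +kernel
def ch2_9_4 : check 8 (msOf T2 Q2 B2 580) = true := by decide +kernel
def ch2_9_5 : check 8 (msOf T2 Q2 B2 581) = true := by decide +kernel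
def ch2_9_6 : check 8 (msOf T2 Q2 B2 582) = true := by decide +kernel
def ch2_9_7 : check 8 (msOf T2 Q2 B2 583) = true := by decide +kernel
def ch2_9_8 : check 8 (msOf T2 Q2 B2 584) = true := by decide +kernel
def ch2_9_9 : check 8 (msOf T2 Q2 B2 585) = true := by decide +kernel
def ch2_9_10 : check 8 (msOf T2 Q2 B2 586) = true := by decide +kernel
def ch2_9_11 : check 8 (msOf T2 Q2 B2 587) = true := by decide +kernel
def ch2_9_12 : check 8 (msOf T2 Q2 B2 588) = true := by decide +kernel
def ch2_9_13 : check 8 (msOf T2 Q2 B2 589) = true := by decide +kernel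
def ch2_9_14 : check 8 (msOf T2 Q2 B2 590) = true := by decide +kernel
def ch2_9_15 : check 8 (msOf T2 Q2 B2 591) = true := by decide +kernel
def ch2_9_16 : check 8 (msOf T2 Q2 B2 592) = true := by decide +kernel
def ch2_9_17 : check 8 (msOf T2 Q2 B2 593) = true := by decide +kernel
def ch2_9_18 : check 8 (msOf T2 Q2 B2 594) = true := by decide +kernel
def ch2_9_19 : check 8 (msOf T2 Q2 B2 595) = true := by decide +kernel
def ch2_9_20 : check 8 (msOf T2 Q2 B2 596) = true := by decide +kernel
def ch2_9_21 : check 8 (msOf T2 Q2 B2 597) = true := by decide +kernel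
def ch2_9_22 : check 8 (msOf T2 Q2 B2 598) = true := by decide +kernel
def ch2_9_23 : check 8 (msOf T2 Q2 B2 599) = true := by decide +kernel
def ch2_9_24 : check 8 (msOf T2 Q2 B2 600) = true := by decide +kernel
def ch2_9_25 : check 8 (msOf T2 Q2 B2 601) = true := by decide +kernel
def ch2_9_26 : check 8 (msOf T2 Q2 B2 602) = true := by decide +kernel
def ch2_9_27 : check 8 (msOf T2 Q2 B2 603) = true := by decide +kernel
def ch2_9_28 : check 8 (msOf T2 Q2 B2 604) = true := by decide +kernel
def ch2_9_29 : check 8 (msOf T2 Q2 B2 605) = true := by decide +kernel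
def ch2_9_30 : check 8 (msOf T2 Q2 B2 606) = true := by decide +kernel
def ch2_9_31 : check 8 (msOf T2 Q2 B2 607) = true := by decide +kernel
def ch2_9_32 : check 8 (msOf T2 Q2 B2 608) = true := by decide +kernel
def ch2_9_33 : check 8 (msOf T2 Q2 B2 609) = true := by decide +kernel
def ch2_9_34 : check 8 (msOf T2 Q2 B2 610) = true := by decide +kernel
def ch2_9_35 : check 8 (msOf T2 Q2 B2 611) = true := by decide +kernel
def ch2_9_36 : check 8 (msOf T2 Q2 B2 612) = true := by decide +kernel
def ch2_9_37 : check 8 (msOf T2 Q2 B2 613) = true := by decide +kernel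
def ch2_9_38 : check 8 (msOf T2 Q2 B2 614) = true := by decide +kernel
def ch2_9_39 : check 8 (msOf T2 Q2 B2 615) = true := by decide +kernel
def ch2_9_40 : check 8 (msOf T2 Q2 B2 616) = true := by decide +kernel
def ch2_9_41 : check 8 (msOf T2 Q2 B2 617) = true := by decide +kernel
def ch2_9_42 : check 8 (msOf T2 Q2 B2 618) = true := by decide +kernel
def ch2_9_43 : check 8 (msOf T2 Q2 B2 619) = true := by decide +kernel
def ch2_9_44 : check 8 (msOf T2 Q2 B2 620) = true := by decide +kernel
def ch2_9_45 : check 8 (msOf T2 Q2 B2 621) = true := by decide +kernel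
def ch2_9_46 : check 8 (msOf T2 Q2 B2 622) = true := by decide +kernel
def ch2_9_47 : check 8 (msOf T2 Q2 B2 623) = true := by decide +kernel
def ch2_9_48 : check 8 (msOf T2 Q2 B2 624) = true := by decide +kernel
def ch2_9_49 : check 8 (msOf T2 Q2 B2 625) = true := by decide +kernel
def ch2_9_50 : check 8 (msOf T2 Q2 B2 626) = true := by decide +kernel
def ch2_9_51 : check 8 (msOf T2 Q2 B2 627) = true := by decide +kernel
def ch2_9_52 : check 8 (msOf T2 Q2 B2 628) = true := by decide +kernel
def ch2_9_53 : check 8 (msOf T2 Q2 B2 629) = true := by decide +kernel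
def ch2_9_54 : check 8 (msOf T2 Q2 B2 630) = true := by decide +kernel
def ch2_9_55 : check 8 (msOf T2 Q2 B2 631) = true := by decide +kernel
def ch2_9_56 : check 8 (msOf T2 Q2 B2 632) = true := by decide +kernel
def ch2_9_57 : check 8 (msOf T2 Q2 B2 633) = true := by decide +kernel
def ch2_9_58 : check 8 (msOf T2 Q2 B2 634) = true := by decide +kernel
def ch2_9_59 : check 8 (msOf T2 Q2 B2 635) = true := by decide +kernel
def ch2_9_60 : check 8 (msOf T2 Q2 B2 636) = true := by decide +kernel
def ch2_9_61 : check 8 (msOf T2 Q2 B2 637) = true := by decide +kernel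
def ch2_9_62 : check 8 (msOf T2 Q2 B2 638) = true := by decide +kernel
def ch2_9_63 : check 8 (msOf T2 Q2 B2 639) = true := by decide +kernel

theorem ch2_9 (h : ℕ) (h0 : 576 ≤ h) (h1 : h < 640) :
    check 8 (msOf T2 Q2 B2 h) = true := by
  interval_cases h
  · exact ch2_9_0
  · exact ch2_9_1
  · exact ch2_9_2
  · exact ch2_9_3
  · exact ch2_9_4
  · exact ch2_9_5
  · exact ch2_9_6
  · exact ch2_9_7
  · exact ch2_9_8
  · exact ch2_9_9
  · exact ch2_9_10
  · exact ch2_9_11
  · exact ch2_9_12
  · exact ch2_9_13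
  · exact ch2_9_14
  · exact ch2_9_15
  · exact ch2_9_16
  · exact ch2_9_17
  · exact ch2_9_18
  · exact ch2_9_19
  · exact ch2_9_20
  · exact ch2_9_21
  · exact ch2_9_22
  · exact ch2_9_23
  · exact ch2_9_24
  · exact ch2_9_25
  · exact ch2_9_26
  · exact ch2_9_27
  · exact ch2_9_28
  · exact ch2_9_29
  · exact ch2_9_30
  · exact ch2_9_31
  · exact ch2_9_32
  · exact ch2_9_33
  · exact ch2_9_34
  · exact ch2_9_35
  · exact ch2_9_36
  · exact ch2_9_37
  · exact ch2_9_38
  · exact ch2_9_39
  · exact ch2_9_40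
  · exact ch2_9_41
  · exact ch2_9_42
  · exact ch2_9_43
  · exact ch2_9_44
  · exact ch2_9_45
  · exact ch2_9_46
  · exact ch2_9_47
  · exact ch2_9_48
  · exact ch2_9_49
  · exact ch2_9_50
  · exact ch2_9_51
  · exact ch2_9_52
  · exact ch2_9_53
  · exact ch2_9_54
  · exact ch2_9_55
  · exact ch2_9_56
  · exact ch2_9_57
  · exact ch2_9_58
  · exact ch2_9_59
  · exact ch2_9_60
  · exact ch2_9_61
  · exact ch2_9_62
  · exact ch2_9_63

end Pool.Agent.H.MP_694475_co
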