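import Pool.Agent.H.MP_694475_co.Basic

/-! The two families of `2^18` cubic functions that remain. -/

open Finset

namespace Pool.Agent.H.MP_694475_co

/-- value of a polynomial given by a list of monomials -/
def pval (ms : List (List (Fin 9))) (a : V) : ZMod 2 := (ms.map (fun m => (m.map a).prod)).sum

def T1 : List (List (Fin 9)) := [[0,1,2], [0,3,4], [1,5,6], [2,7,8], [3,5,7], [4,6,8]]

def Q1 : List (List (Fin 9)) := []

def B1 : List (List (List (Fin 9))) :=
  [[[0,5]], [[0,6]], [[0,7]], [[0,8]], [[1,3]], [[1,4]], [[1,7]], [[1,8]], [[2,3]],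
   [[2,4]], [[2,5]], [[2,6]], [[3,6]], [[3,8]], [[4,5]], [[4,7]], [[5,8]], [[6,7]]]

def T2 : List (List (Fin 9)) :=
  [[0,1,2], [0,3,4], [1,5,6], [2,7,8], [3,5,7], [3,6,8], [4,5,8], [4,6,7], [4,6,8]]

def Q2 : List (List (Fin 9)) := [[0,3], [0,4], [1,5], [1,6], [2,7], [2,8]]

def B2 : List (List (List (Fin 9))) :=
  [[[0,5]], [[0,6]], [[0,7]], [[0,8]], [[1,3]], [[1,4]], [[1,7]], [[1,8]], [[2,3]],
   [[2,4]], [[2,5]], [[2,6]], [[2,7], [2,8], [3,5]], [[2,8], [3,6]],
   [[1,5], [1,6], [3,7]], [[1,6], [3,8]], [[0,3], [0,4], [5,7]], [[0,4], [5,8]]]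

/-- member of a family -/
def fam (T Q : List (List (Fin 9))) (B : List (List (List (Fin 9)))) (t : Fin 18 → ZMod 2) :
    V → ZMod 2 :=
  fun a => pval T a + pval Q a + ∑ j : Fin 18, t j * pval (B.getD j.val []) a

end Pool.Agent.H.MP_694475_co
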