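import Pool.Agent.H.MP_694475_co.PackDef
import Pool.Agent.H.MP_694475_co.Family

/-! Description of the chunks of the computation. -/

namespace Pool.Agent.H.MP_694475_co

/-- shift the variables of a monomial by `8` -/
def sh (m : List (Fin 9)) : List ℕ := m.map (fun i => 8 + i.val)

/-- monomials of the family with the 10 high parameter bits given by `hi` -/
def msOf (T Q : List (List (Fin 9))) (B : List (List (List (Fin 9)))) (hi : ℕ) : List (List ℕ) :=
  T.map sh ++ Q.map sh ++
  ((List.range 8).map (fun j => (B.getD j []).map (fun m => j :: sh m))).flatten ++
  ((List.range 10).map (fun j => if hi.testBit j then (B.getD (8 + j) []).map sh else [])).flatten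

end Pool.Agent.H.MP_694475_co
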