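import Pool.Agent.H.MP_694475_co.NormQ

/-! Normalisation of the two forms `T (b 3)`, `T (b 4)` on `b 5, ..., b 8`. -/

open Finset

namespace Pool.Agent.H.MP_694475_co

/-- bilinear value -/
def normw2_B (a b c d p q x y : ZMod 2) : ZMod 2 :=
  p * x * a + p * y * b + q * x * c + q * y * d

theorem normw2_fin : ∀ a b c d a' b' c' d' : ZMod 2,
    a * d + b * c = a' * d' + b' * c' → a * d' + d * a' + b * c' + c * b' = 1 →
    ∃ p q r s : ZMod 2, p * s + q * r = 1 ∧ ∃ x y z w : ZMod 2, x * w + y * z = 1 ∧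
      ((normw2_B a b c d p q x y = 1 ∧ normw2_B a b c d p q z w = 0 ∧
        normw2_B a b c d r s x y = 0 ∧ normw2_B a b c d r s z w = 0 ∧
        normw2_B a' b' c' d' p q x y = 0 ∧ normw2_B a' b' c' d' p q z w = 0 ∧
        normw2_B a' b' c' d' r s x y = 0 ∧ normw2_B a' b' c' d' r s z w = 1) ∨
       (normw2_B a b c d p q x y = 1 ∧ normw2_B a b c d p q z w = 0 ∧
        normw2_B a b c d r s x y = 0 ∧ normw2_B a b c d r s z w = 1 ∧
        normw2_B a' b' c' d' p q x y = 0 ∧ normw2_B a' b' c' d' p q z w = 1 ∧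
        normw2_B a' b' c' d' r s x y = 1 ∧ normw2_B a' b' c' d' r s z w = 1)) := by
  decide +kernel

theorem normw2_zero {T : V → V → V → ZMod 2} (h : IsTri T) (v w : V) : T 0 v w = 0 := by
  have h1 := h.add 0 0 v w
  rw [add_zero] at h1
  have h2 : ∀ a : ZMod 2, a = a + a → a = 0 := by decide
  exact h2 _ h1

theorem normw2_smul {T : V → V → V → ZMod 2} (h : IsTri T) (p : ZMod 2) (u v w : V) :
    T (p • u) v w = p * T u v w := by
  rcases zmod2_cases p with hp | hp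
  · rw [hp, zero_smul, normw2_zero h, zero_mul]
  · rw [hp, one_smul, one_mul]

theorem normw2_comb {T : V → V → V → ZMod 2} (h : IsTri T) (p q : ZMod 2) (u u' v w : V) :
    T (p • u + q • u') v w = p * T u v w + q * T u' v w := by
  rw [h.add, normw2_smul h, normw2_smul h]

theorem normw2_comb2 {T : V → V → V → ZMod 2} (h : IsTri T) (p q : ZMod 2) (u u' v w : V) :
    T v (p • u + q • u') w = p * T v u w + q * T v u' w := by
  rw [h.sw12, normw2_comb h, h.sw12 u, h.sw12 u']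

theorem normw2_comb3 {T : V → V → V → ZMod 2} (h : IsTri T) (p q : ZMod 2) (u u' v w : V) :
    T v w (p • u + q • u') = p * T v w u + q * T v w u' := by
  rw [h.sw23, normw2_comb2 h, h.sw23 v u, h.sw23 v u']

theorem normw2_bil {T : V → V → V → ZMod 2} (h : IsTri T) (p q x y : ZMod 2) (u v v' w w' : V) :
    T u (p • v + q • v') (x • w + y • w') =
      normw2_B (T u v w) (T u v w') (T u v' w) (T u v' w') p q x y := by
  rw [normw2_comb2 h, normw2_comb3 h, normw2_comb3 h]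
  unfold normw2_B
  ring

theorem normw2_alt {T : V → V → V → ZMod 2} (h : IsTri T) (u v : V) : T u v v = 0 := by
  rw [h.sw12, h.sw23]; exact h.alt _ _

theorem normw2_det {T : V → V → V → ZMod 2} (h : IsTri T) (p q r s : ZMod 2) (u v v' : V)
    (hd : p * s + q * r = 1) :
    T u (p • v + q • v') (r • v + s • v') = T u v v' := by
  rw [normw2_bil h, normw2_alt h, normw2_alt h, h.sw23 u v' v]
  unfold normw2_B
  have : p * r * 0 + p * s * T u v v' + q * r * T u v v' + q * s * 0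
    = (p * s + q * r) * T u v v' := by ring
  rw [this, hd, one_mul]

/-- the new family -/
def normw2_b (b : Fin 9 → V) (p q r s x y z w : ZMod 2) : Fin 9 → V :=
  ![b 0, b 1, b 2, b 3, b 4, p • b 5 + q • b 6, r • b 5 + s • b 6, x • b 7 + y • b 8,
    z • b 7 + w • b 8]

theorem normw2_lin (b : Fin 9 → V) (p q : ZMod 2) (i j : Fin 9) :
    lin b (p • E i + q • E j) = p • b i + q • b j := by
  have hs : ∀ (p : ZMod 2) (i : Fin 9), lin b (p • E i) = p • b i := by
    intro p i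
    rcases zmod2_cases p with hp | hp
    · rw [hp, zero_smul, zero_smul]
      unfold lin; simp
    · rw [hp, one_smul, one_smul, lin_E]
  rw [lin_add, hs, hs]

theorem normw2_dual {b c : Fin 9 → V} (hbc : IsDual b c) (p q r s x y z w : ZMod 2)
    (h1 : p * s + q * r = 1) (h2 : x * w + y * z = 1) :
    ∃ c', IsDual (normw2_b b p q r s x y z w) c' := by
  apply exists_dual_of_span hbc
  have key : ∀ (p q r s : ZMod 2) (u v : V), p * s + q * r = 1 →
      u = s • (p • u + q • v) + q • (r • u + s • v) ∧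
      v = r • (p • u + q • v) + p • (r • u + s • v) := by
    intro p q r s u v hd
    have hz : ∀ a : ZMod 2, a + a = 0 := add_self_zmod2
    constructor
    · have : s • (p • u + q • v) + q • (r • u + s • v)
        = (p * s + q * r) • u + (q * s + q * s) • v := by
        module
      rw [this, hd, hz, one_smul, zero_smul, add_zero]
    · have : r • (p • u + q • v) + p • (r • u + s • v)
        = (p * r + p * r) • u + (p * s + q * r) • v := by
        module
      rw [this, hd, hz, one_smul, zero_smul, zero_add]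
  intro i
  fin_cases i
  · exact ⟨E 0, by rw [lin_E]; rfl⟩
  · exact ⟨E 1, by rw [lin_E]; rfl⟩
  · exact ⟨E 2, by rw [lin_E]; rfl⟩
  · exact ⟨E 3, by rw [lin_E]; rfl⟩
  · exact ⟨E 4, by rw [lin_E]; rfl⟩
  · exact ⟨s • E 5 + q • E 6, by rw [normw2_lin]; exact (key p q r s (b 5) (b 6) h1).1⟩
  · exact ⟨r • E 5 + p • E 6, by rw [normw2_lin]; exact (key p q r s (b 5) (b 6) h1).2⟩
  · exact ⟨w • E 7 + y • E 8, by rw [normw2_lin]; exact (key x y z w (b 7) (b 8) h2).1⟩
  · exact ⟨z • E 7 + x • E 8, by rw [normw2_lin]; exact (key x y z w (b 7) (b 8) h2).2⟩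

theorem normw2_idx : ∀ i : Fin 9, 1 ≤ i → i ≤ 4 → i = 1 ∨ i = 2 ∨ i = 3 ∨ i = 4 := by decide

theorem normw2_idx2 : ∀ j k : Fin 9, 5 ≤ j → j < k →
    (j = 5 ∧ k = 6) ∨ (j = 5 ∧ k = 7) ∨ (j = 5 ∧ k = 8) ∨ (j = 6 ∧ k = 7) ∨ (j = 6 ∧ k = 8) ∨
    (j = 7 ∧ k = 8) := by decide

theorem normw2_zero_row {T : V → V → V → ZMod 2} (hT : IsTri T) {b : Fin 9 → V}
    (h0 : ∀ i j, T (b 0) (b i) (b j) = std 2 i j) (p q r s x y z w : ZMod 2) (i j : Fin 9) :
    T (normw2_b b p q r s x y z w 0) (normw2_b b p q r s x y z w i)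
      (normw2_b b p q r s x y z w j) = std 2 i j := by
  show T (b 0) (normw2_b b p q r s x y z w i) (normw2_b b p q r s x y z w j) = std 2 i j
  have z1 : ∀ i : Fin 9, std 2 i 5 = 0 := by decide
  have z2 : ∀ i : Fin 9, std 2 i 6 = 0 := by decide
  have z3 : ∀ i : Fin 9, std 2 i 7 = 0 := by decide
  have z4 : ∀ i : Fin 9, std 2 i 8 = 0 := by decide
  have y1 : ∀ i : Fin 9, std 2 5 i = 0 := by decide
  have y2 : ∀ i : Fin 9, std 2 6 i = 0 := by decide
  have y3 : ∀ i : Fin 9, std 2 7 i = 0 := by decide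
  have y4 : ∀ i : Fin 9, std 2 8 i = 0 := by decide
  have A : ∀ i j : Fin 9, T (b 0) (b i) (normw2_b b p q r s x y z w j) = std 2 i j := by
    intro i j
    fin_cases j
    · exact h0 i 0
    · exact h0 i 1
    · exact h0 i 2
    · exact h0 i 3
    · exact h0 i 4
    · show T (b 0) (b i) (p • b 5 + q • b 6) = std 2 i 5
      rw [normw2_comb3 hT, h0, h0, z1, z2]; simp
    · show T (b 0) (b i) (r • b 5 + s • b 6) = std 2 i 6
      rw [normw2_comb3 hT, h0, h0, z1, z2]; simp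
    · show T (b 0) (b i) (x • b 7 + y • b 8) = std 2 i 7
      rw [normw2_comb3 hT, h0, h0, z3, z4]; simp
    · show T (b 0) (b i) (z • b 7 + w • b 8) = std 2 i 8
      rw [normw2_comb3 hT, h0, h0, z3, z4]; simp
  fin_cases i
  · exact A 0 j
  · exact A 1 j
  · exact A 2 j
  · exact A 3 j
  · exact A 4 j
  · show T (b 0) (p • b 5 + q • b 6) (normw2_b b p q r s x y z w j) = std 2 5 j
    rw [normw2_comb2 hT, A, A, y1, y2]; simp
  · show T (b 0) (r • b 5 + s • b 6) (normw2_b b p q r s x y z w j) = std 2 6 j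
    rw [normw2_comb2 hT, A, A, y1, y2]; simp
  · show T (b 0) (x • b 7 + y • b 8) (normw2_b b p q r s x y z w j) = std 2 7 j
    rw [normw2_comb2 hT, A, A, y3, y4]; simp
  · show T (b 0) (z • b 7 + w • b 8) (normw2_b b p q r s x y z w j) = std 2 8 j
    rw [normw2_comb2 hT, A, A, y3, y4]; simp

/-- values on the new family -/
def normw2_val (T : V → V → V → ZMod 2) (b : Fin 9 → V) (p q r s x y z w : ZMod 2)
    (i j k : Fin 9) : ZMod 2 :=
  if j = 5 ∧ k = 6 then T (b i) (b 5) (b 6) else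
  if j = 7 ∧ k = 8 then T (b i) (b 7) (b 8) else
  if j = 5 ∧ k = 7 then normw2_B (T (b i) (b 5) (b 7)) (T (b i) (b 5) (b 8)) (T (b i) (b 6) (b 7))
    (T (b i) (b 6) (b 8)) p q x y else
  if j = 5 ∧ k = 8 then normw2_B (T (b i) (b 5) (b 7)) (T (b i) (b 5) (b 8)) (T (b i) (b 6) (b 7))
    (T (b i) (b 6) (b 8)) p q z w else
  if j = 6 ∧ k = 7 then normw2_B (T (b i) (b 5) (b 7)) (T (b i) (b 5) (b 8)) (T (b i) (b 6) (b 7))
    (T (b i) (b 6) (b 8)) r s x y else
  normw2_B (T (b i) (b 5) (b 7)) (T (b i) (b 5) (b 8)) (T (b i) (b 6) (b 7))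
    (T (b i) (b 6) (b 8)) r s z w

theorem normw2_eval {T : V → V → V → ZMod 2} (hT : IsTri T) {b : Fin 9 → V}
    (p q r s x y z w : ZMod 2) (h1 : p * s + q * r = 1) (h2 : x * w + y * z = 1)
    (i j k : Fin 9) (hi1 : 1 ≤ i) (hi4 : i ≤ 4) (hj : 5 ≤ j) (hjk : j < k) :
    T (normw2_b b p q r s x y z w i) (normw2_b b p q r s x y z w j)
        (normw2_b b p q r s x y z w k) = normw2_val T b p q r s x y z w i j k := by
  have hb : normw2_b b p q r s x y z w i = b i := by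
    rcases normw2_idx i hi1 hi4 with rfl | rfl | rfl | rfl <;> rfl
  rw [hb]
  rcases normw2_idx2 j k hj hjk with ⟨rfl, rfl⟩ | ⟨rfl, rfl⟩ | ⟨rfl, rfl⟩ | ⟨rfl, rfl⟩ |
      ⟨rfl, rfl⟩ | ⟨rfl, rfl⟩
  · exact normw2_det hT p q r s (b i) (b 5) (b 6) h1
  · exact normw2_bil hT p q x y (b i) (b 5) (b 6) (b 7) (b 8)
  · exact normw2_bil hT p q z w (b i) (b 5) (b 6) (b 7) (b 8)
  · exact normw2_bil hT r s x y (b i) (b 5) (b 6) (b 7) (b 8)
  · exact normw2_bil hT r s z w (b i) (b 5) (b 6) (b 7) (b 8)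
  · exact normw2_det hT x y z w (b i) (b 7) (b 8) h2

theorem normW2 {T T' : V → V → V → ZMod 2} (h : Good T T') {b c : Fin 9 → V}
    (hbc : IsDual b c) (h0 : ∀ i j, T (b 0) (b i) (b j) = std 2 i j)
    (hA1 : ∀ j k : Fin 9, 5 ≤ j → j < k → T (b 1) (b j) (b k) = if j = 5 ∧ k = 6 then 1 else 0)
    (hA2 : ∀ j k : Fin 9, 5 ≤ j → j < k → T (b 2) (b j) (b k) = if j = 7 ∧ k = 8 then 1 else 0)
    (ε : ZMod 2) (hq3 : pf4 (fun i j k => T (b i) (b j) (b k)) 3 = ε)
    (hq4 : pf4 (fun i j k => T (b i) (b j) (b k)) 4 = ε) :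
    ∃ b' c' : Fin 9 → V, IsDual b' c' ∧ (∀ i j, T (b' 0) (b' i) (b' j) = std 2 i j) ∧
      ((∀ i j k : Fin 9, 1 ≤ i → i ≤ 4 → 5 ≤ j → j < k →
          T (b' i) (b' j) (b' k) = if (i, j, k) ∈ L1 then 1 else 0) ∨
       (∀ i j k : Fin 9, 1 ≤ i → i ≤ 4 → 5 ≤ j → j < k →
          T (b' i) (b' j) (b' k) = if (i, j, k) ∈ L2 then 1 else 0)) := by
  have hT := h.tri
  obtain ⟨-, -, w34, w13, w14, w23, w24⟩ := two_props (h.rel hbc) h0
  have a56 : T (b 1) (b 5) (b 6) = 1 := by rw [hA1 5 6 (by decide) (by decide)]; rfl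
  have a57 : T (b 1) (b 5) (b 7) = 0 := by rw [hA1 5 7 (by decide) (by decide)]; rfl
  have a58 : T (b 1) (b 5) (b 8) = 0 := by rw [hA1 5 8 (by decide) (by decide)]; rfl
  have a67 : T (b 1) (b 6) (b 7) = 0 := by rw [hA1 6 7 (by decide) (by decide)]; rfl
  have a68 : T (b 1) (b 6) (b 8) = 0 := by rw [hA1 6 8 (by decide) (by decide)]; rfl
  have a78 : T (b 1) (b 7) (b 8) = 0 := by rw [hA1 7 8 (by decide) (by decide)]; rfl
  have c56 : T (b 2) (b 5) (b 6) = 0 := by rw [hA2 5 6 (by decide) (by decide)]; rfl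
  have c57 : T (b 2) (b 5) (b 7) = 0 := by rw [hA2 5 7 (by decide) (by decide)]; rfl
  have c58 : T (b 2) (b 5) (b 8) = 0 := by rw [hA2 5 8 (by decide) (by decide)]; rfl
  have c67 : T (b 2) (b 6) (b 7) = 0 := by rw [hA2 6 7 (by decide) (by decide)]; rfl
  have c68 : T (b 2) (b 6) (b 8) = 0 := by rw [hA2 6 8 (by decide) (by decide)]; rfl
  have c78 : T (b 2) (b 7) (b 8) = 1 := by rw [hA2 7 8 (by decide) (by decide)]; rfl
  simp only [wd, a56, a57, a58, a67, a68, a78, c56, c57, c58, c67, c68, c78, zero_mul, one_mul,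
    zero_add, add_zero] at w13 w14 w23 w24 w34
  simp only [pf4, w13, w14, w23, w24, zero_mul, mul_zero, zero_add, add_zero] at hq3 hq4
  simp only [w13, w14, w23, w24, zero_mul, mul_zero, zero_add, add_zero] at w34
  obtain ⟨p, q, r, s, h1, x, y, z, w, h2, hf⟩ := normw2_fin
    (T (b 3) (b 5) (b 7)) (T (b 3) (b 5) (b 8)) (T (b 3) (b 6) (b 7)) (T (b 3) (b 6) (b 8))
    (T (b 4) (b 5) (b 7)) (T (b 4) (b 5) (b 8)) (T (b 4) (b 6) (b 7)) (T (b 4) (b 6) (b 8))
    (by rw [hq3, hq4]) w34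
  obtain ⟨c', hc'⟩ := normw2_dual hbc p q r s x y z w h1 h2
  refine ⟨normw2_b b p q r s x y z w, c', hc', normw2_zero_row hT h0 p q r s x y z w, ?_⟩
  have ev : ∀ (i : Fin 9) (j k : Fin 9), (1 ≤ i → i ≤ 4 → 5 ≤ j → j < k →
      T (normw2_b b p q r s x y z w i) (normw2_b b p q r s x y z w j)
        (normw2_b b p q r s x y z w k) = normw2_val T b p q r s x y z w i j k) :=
    normw2_eval hT p q r s x y z w h1 h2
  rcases hf with ⟨e1, e2, e3, e4, f1, f2, f3, f4⟩ | ⟨e1, e2, e3, e4, f1, f2, f3, f4⟩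
  · left
    intro i j k hi1 hi4 hj hjk
    rw [ev i j k hi1 hi4 hj hjk]
    rcases normw2_idx i hi1 hi4 with rfl | rfl | rfl | rfl <;>
    rcases normw2_idx2 j k hj hjk with ⟨rfl, rfl⟩ | ⟨rfl, rfl⟩ | ⟨rfl, rfl⟩ | ⟨rfl, rfl⟩ |
      ⟨rfl, rfl⟩ | ⟨rfl, rfl⟩ <;>
    simp [normw2_val, normw2_B, L1, a56, a57, a58, a67, a68, a78, c56, c57, c58, c67, c68, c78,
      w13, w14, w23, w24] <;>
    first
      | exact e1
      | exact e2
      | exact e3
      | exact e4
      | exact f1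
      | exact f2
      | exact f3
      | exact f4
  · right
    intro i j k hi1 hi4 hj hjk
    rw [ev i j k hi1 hi4 hj hjk]
    rcases normw2_idx i hi1 hi4 with rfl | rfl | rfl | rfl <;>
    rcases normw2_idx2 j k hj hjk with ⟨rfl, rfl⟩ | ⟨rfl, rfl⟩ | ⟨rfl, rfl⟩ | ⟨rfl, rfl⟩ |
      ⟨rfl, rfl⟩ | ⟨rfl, rfl⟩ <;>
    simp [normw2_val, normw2_B, L2, a56, a57, a58, a67, a68, a78, c56, c57, c58, c67, c68, c78,
      w13, w14, w23, w24] <;>
    first
      | exact e1
      | exact e2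
      | exact e3
      | exact e4
      | exact f1
      | exact f2
      | exact f3
      | exact f4

end Pool.Agent.H.MP_694475_co
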