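import Pool.Agent.H.MP_694475_co.NormW1
import Pool.Agent.H.MP_694475_co.NormW2

/-! Normalisation of the four forms `T (b i)`, `i = 1..4`, on `b 5, ..., b 8`. -/

open Finset

namespace Pool.Agent.H.MP_694475_co

theorem normA {T T' : V → V → V → ZMod 2} (h : Good T T') {b c : Fin 9 → V}
    (hbc : IsDual b c) (h0 : ∀ i j, T (b 0) (b i) (b j) = std 2 i j) :
    ∃ b' c' : Fin 9 → V, IsDual b' c' ∧ (∀ i j, T (b' 0) (b' i) (b' j) = std 2 i j) ∧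
      ((∀ i j k : Fin 9, 1 ≤ i → i ≤ 4 → 5 ≤ j → j < k →
          T (b' i) (b' j) (b' k) = if (i, j, k) ∈ L1 then 1 else 0) ∨
       (∀ i j k : Fin 9, 1 ≤ i → i ≤ 4 → 5 ≤ j → j < k →
          T (b' i) (b' j) (b' k) = if (i, j, k) ∈ L2 then 1 else 0)) := by
  obtain ⟨b1, c1, hbc1, h01, hq1, hq2, ε, hq3, hq4⟩ := normQ h hbc h0
  obtain ⟨b2, c2, hbc2, h02, hA1, hA2, hq3', hq4'⟩ := normW1 h hbc1 h01 hq1 hq2 ε hq3 hq4
  exact normW2 h hbc2 h02 hA1 hA2 ε hq3' hq4'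

end Pool.Agent.H.MP_694475_co
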