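import Pool.Agent.H.MP_694475_co.Two

/-! Two steps of the final normalisation in rank 4. -/

open Finset

namespace Pool.Agent.H.MP_694475_co

variable {T : V → V → V → ZMod 2}

theorem normtools_zero1 (hT : IsTri T) (v w : V) : T 0 v w = 0 := by
  have h := hT.add 0 0 v w
  rw [add_zero] at h
  have h2 := add_self_zmod2 (T 0 v w)
  rw [← h] at h2
  exact h2

theorem normtools_smul1 (hT : IsTri T) (a : ZMod 2) (u v w : V) :
    T (a • u) v w = a * T u v w := by
  rcases zmod2_cases a with h | h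
  · subst h; rw [zero_smul, normtools_zero1 hT, zero_mul]
  · subst h; rw [one_smul, one_mul]

theorem normtools_add2 (hT : IsTri T) (u v v' w : V) : T u (v + v') w = T u v w + T u v' w := by
  rw [hT.sw12, hT.add, hT.sw12 v, hT.sw12 v']

theorem normtools_add3 (hT : IsTri T) (u v w w' : V) : T u v (w + w') = T u v w + T u v w' := by
  rw [hT.sw23, normtools_add2 hT, hT.sw23 u w, hT.sw23 u w']

theorem normtools_smul2 (hT : IsTri T) (a : ZMod 2) (u v w : V) :
    T u (a • v) w = a * T u v w := by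
  rw [hT.sw12, normtools_smul1 hT, hT.sw12 v]

theorem normtools_smul3 (hT : IsTri T) (a : ZMod 2) (u v w : V) :
    T u v (a • w) = a * T u v w := by
  rw [hT.sw23, normtools_smul2 hT, hT.sw23 u w]

theorem normtools_alt13 (hT : IsTri T) (u w : V) : T u w u = 0 := by
  rw [hT.sw23, hT.alt]

theorem normtools_alt23 (hT : IsTri T) (u w : V) : T w u u = 0 := by
  rw [hT.sw12, hT.sw23, hT.alt]

theorem normtools_lin1 (hT : IsTri T) (b : Fin 9 → V) (x v w : V) :
    T (lin b x) v w = ∑ p, x p * T (b p) v w := by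
  have key : ∀ s : Finset (Fin 9), T (∑ p ∈ s, x p • b p) v w = ∑ p ∈ s, x p * T (b p) v w := by
    intro s
    induction s using Finset.induction_on with
    | empty => rw [Finset.sum_empty, Finset.sum_empty, normtools_zero1 hT]
    | insert a s ha ih =>
      rw [Finset.sum_insert ha, Finset.sum_insert ha, hT.add, ih, normtools_smul1 hT]
  exact key Finset.univ

theorem normtools_lin2 (hT : IsTri T) (b : Fin 9 → V) (x v w : V) :
    T v (lin b x) w = ∑ p, x p * T v (b p) w := by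
  rw [hT.sw12, normtools_lin1 hT]
  exact Finset.sum_congr rfl fun p _ => by rw [hT.sw12]

theorem normtools_lin3 (hT : IsTri T) (b : Fin 9 → V) (x v w : V) :
    T v w (lin b x) = ∑ p, x p * T v w (b p) := by
  rw [hT.sw23, normtools_lin2 hT]
  exact Finset.sum_congr rfl fun p _ => by rw [hT.sw23]

theorem normtools_std (i j : Fin 9) (h : 5 ≤ j) : std 2 i j = 0 := by
  revert i j; decide

theorem normtools_std' (i j : Fin 9) (h : 5 ≤ i) : std 2 i j = 0 := by
  revert i j; decide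

theorem normtools_le4 (i : Fin 9) (h : ¬ 5 ≤ i) : i ≤ 4 := by
  revert i; decide

theorem normtools_one_le (i : Fin 9) (h : 0 < i) : 1 ≤ i := by
  revert i; decide

theorem normtools_small (i j k : Fin 9) (hi : 0 < i) (hij : i < j) (hjk : j < k) (hk : ¬ 5 ≤ k) :
    (i = 1 ∧ j = 2 ∧ k = 3) ∨ (i = 1 ∧ j = 2 ∧ k = 4) ∨ (i = 1 ∧ j = 3 ∧ k = 4) ∨
      (i = 2 ∧ j = 3 ∧ k = 4) := by
  revert i j k; decide

/-- the shape of the lists `L1`, `L2` -/
def NShape (L : List (Fin 9 × Fin 9 × Fin 9)) : Prop :=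
  (∀ j k : Fin 9, 0 < j → j < k → (if (0, j, k) ∈ L then (1 : ZMod 2) else 0) = std 2 j k) ∧
  (∀ i j k : Fin 9, 0 < i → i < j → j < k → (j ≤ 4 ∨ 5 ≤ i) → (i, j, k) ∉ L)

theorem nshape_L1 : NShape L1 := by
  refine ⟨?_, ?_⟩
  · decide
  · decide

theorem nshape_L2 : NShape L2 := by
  refine ⟨?_, ?_⟩
  · decide
  · decide

/-- second step: adding multiples of `b 0` -/
theorem normtools_mu (hT : IsTri T) {b c : Fin 9 → V} (hbc : IsDual b c)
    (L : List (Fin 9 × Fin 9 × Fin 9)) (hL : NShape L)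
    (h0 : ∀ i j, T (b 0) (b i) (b j) = std 2 i j)
    (hA : ∀ i j k : Fin 9, 1 ≤ i → i ≤ 4 → 5 ≤ j → j < k →
      T (b i) (b j) (b k) = if (i, j, k) ∈ L then 1 else 0)
    (hw : ∀ i j k : Fin 9, 5 ≤ i → i < j → j < k → T (b i) (b j) (b k) = 0)
    (hl : ∀ i j k : Fin 9, 1 ≤ i → i < j → j ≤ 4 → 5 ≤ k → T (b i) (b j) (b k) = 0) :
    ∃ b' c' : Fin 9 → V, IsDual b' c' ∧ HasForm T b' L := by
  set mu : V := ![0, T (b 1) (b 3) (b 4), T (b 2) (b 3) (b 4), T (b 1) (b 2) (b 3),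
    T (b 1) (b 2) (b 4), 0, 0, 0, 0] with hmu
  have hmu0 : mu 0 = 0 := rfl
  have hmu5 : ∀ i : Fin 9, 5 ≤ i → mu i = 0 := by
    intro i hi
    have : i = 5 ∨ i = 6 ∨ i = 7 ∨ i = 8 := by revert i; decide
    rcases this with rfl | rfl | rfl | rfl <;> rfl
  obtain ⟨c', hc'⟩ := exists_dual_of_span hbc (fun i => b i + mu i • b 0) (by
    intro i
    refine ⟨E i + mu i • E 0, ?_⟩
    have hs : ∀ (a : ZMod 2) (x : V), lin (fun i => b i + mu i • b 0) (a • x)
        = a • lin (fun i => b i + mu i • b 0) x := by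
      intro a x
      unfold lin
      rw [Finset.smul_sum]
      exact Finset.sum_congr rfl fun j _ => by rw [Pi.smul_apply, smul_assoc]
    rw [lin_add, hs, lin_E, lin_E]
    show b i = b i + mu i • b 0 + mu i • (b 0 + mu 0 • b 0)
    rw [hmu0, zero_smul, add_zero, add_assoc, add_self_V, add_zero])
  refine ⟨_, c', hc', ?_⟩
  intro i j k hij hjk
  show T (b i + mu i • b 0) (b j + mu j • b 0) (b k + mu k • b 0) = _
  have hexp : T (b i + mu i • b 0) (b j + mu j • b 0) (b k + mu k • b 0)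
      = T (b i) (b j) (b k) + mu i * std 2 j k + mu j * std 2 i k + mu k * std 2 i j := by
    rw [← h0 j k, ← h0 i k, ← h0 i j]
    simp only [hT.add, normtools_add2 hT, normtools_add3 hT, normtools_smul1 hT,
      normtools_smul2 hT, normtools_smul3 hT, hT.alt, normtools_alt13 hT, normtools_alt23 hT]
    rw [hT.sw12 (b i) (b 0) (b k), hT.sw23 (b i) (b j) (b 0), hT.sw12 (b i) (b 0) (b j)]
    ring
  rw [hexp]
  rcases Fin.eq_zero_or_eq_succ i with hi | ⟨i', hi⟩
  · subst hi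
    rw [h0 j k, hmu0, h0 0 k |>.symm, h0 0 j |>.symm, hT.alt, hT.alt, hL.1 j k hij hjk]
    ring
  · have hi1 : 0 < i := by rw [hi]; exact Fin.succ_pos _
    clear hi
    by_cases hj5 : 5 ≤ j
    · have hk5 : 5 ≤ k := le_trans hj5 hjk.le
      rw [normtools_std j k hk5, normtools_std i k hk5, normtools_std i j hj5]
      by_cases hi5 : 5 ≤ i
      · rw [hw i j k hi5 hij hjk, if_neg (hL.2 i j k hi1 hij hjk (Or.inr hi5))]
        ring
      · have hi4 : i ≤ 4 := normtools_le4 i hi5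
        have hi1' : 1 ≤ i := normtools_one_le i hi1
        rw [hA i j k hi1' hi4 hj5 hjk]
        ring
    · have hj4 : j ≤ 4 := normtools_le4 j hj5
      have hi1' : 1 ≤ i := normtools_one_le i hi1
      rw [if_neg (hL.2 i j k hi1 hij hjk (Or.inl hj4))]
      by_cases hk5 : 5 ≤ k
      · rw [hl i j k hi1' hij hj4 hk5, normtools_std j k hk5, normtools_std i k hk5, hmu5 k hk5]
        ring
      · have hc := normtools_small i j k hi1 hij hjk hk5
        have s12 : std 2 1 2 = 1 := by decide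
        have s13 : std 2 1 3 = 0 := by decide
        have s14 : std 2 1 4 = 0 := by decide
        have s23 : std 2 2 3 = 0 := by decide
        have s24 : std 2 2 4 = 0 := by decide
        have s34 : std 2 3 4 = 1 := by decide
        have m1 : mu 1 = T (b 1) (b 3) (b 4) := rfl
        have m2 : mu 2 = T (b 2) (b 3) (b 4) := rfl
        have m3 : mu 3 = T (b 1) (b 2) (b 3) := rfl
        have m4 : mu 4 = T (b 1) (b 2) (b 4) := rfl
        rcases hc with ⟨rfl, rfl, rfl⟩ | ⟨rfl, rfl, rfl⟩ | ⟨rfl, rfl, rfl⟩ | ⟨rfl, rfl, rfl⟩ <;>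
          simp only [s12, s13, s14, s23, s24, s34, m1, m2, m3, m4, mul_zero, mul_one, add_zero,
            add_self_zmod2]

/-- the values of `T (b i) (b p) (b m)` for `1 ≤ i ≤ 4`, `5 ≤ p, m` -/
def AA (L : List (Fin 9 × Fin 9 × Fin 9)) (i p m : Fin 9) : ZMod 2 :=
  if (p < m ∧ (i, p, m) ∈ L) ∨ (m < p ∧ (i, m, p) ∈ L) then 1 else 0

/-- first step: adding combinations of `b 5, ..., b 8` -/
theorem normtools_step (hT : IsTri T) {b c : Fin 9 → V} (hbc : IsDual b c)
    (L : List (Fin 9 × Fin 9 × Fin 9)) (hL : NShape L)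
    (h0 : ∀ i j, T (b 0) (b i) (b j) = std 2 i j)
    (hA : ∀ i j k : Fin 9, 1 ≤ i → i ≤ 4 → 5 ≤ j → j < k →
      T (b i) (b j) (b k) = if (i, j, k) ∈ L then 1 else 0)
    (hw : T (b 5) (b 6) (b 7) = 0 ∧ T (b 5) (b 6) (b 8) = 0 ∧ T (b 5) (b 7) (b 8) = 0 ∧
      T (b 6) (b 7) (b 8) = 0)
    (n : Fin 9 → V) (hn : ∀ i p : Fin 9, (i = 0 ∨ 5 ≤ i ∨ p < 5) → n i p = 0)
    (hl : ∀ i j k : Fin 9, 1 ≤ i → i < j → j ≤ 4 → 5 ≤ k →
      T (b i) (b j) (b k) + (n i 5 * AA L j 5 k + n i 6 * AA L j 6 k + n i 7 * AA L j 7 k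
        + n i 8 * AA L j 8 k) + (n j 5 * AA L i 5 k + n j 6 * AA L i 6 k + n j 7 * AA L i 7 k
        + n j 8 * AA L i 8 k) = 0) :
    ∃ b' c' : Fin 9 → V, IsDual b' c' ∧ HasForm T b' L := by
  -- three indices at least 5
  have hw1 : ∀ i j k : Fin 9, 5 ≤ i → i < j → j < k → T (b i) (b j) (b k) = 0 := by
    intro i j k hi hij hjk
    have hc : (i = 5 ∧ j = 6 ∧ k = 7) ∨ (i = 5 ∧ j = 6 ∧ k = 8) ∨ (i = 5 ∧ j = 7 ∧ k = 8) ∨
        (i = 6 ∧ j = 7 ∧ k = 8) := by
      revert i j k; decide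
    rcases hc with ⟨rfl, rfl, rfl⟩ | ⟨rfl, rfl, rfl⟩ | ⟨rfl, rfl, rfl⟩ | ⟨rfl, rfl, rfl⟩
    · exact hw.1
    · exact hw.2.1
    · exact hw.2.2.1
    · exact hw.2.2.2
  have hw2 : ∀ i j k : Fin 9, 5 ≤ i → 5 ≤ j → 5 ≤ k → T (b i) (b j) (b k) = 0 := by
    intro i j k hi hj hk
    rcases lt_trichotomy i j with hij | hij | hij
    · rcases lt_trichotomy j k with hjk | hjk | hjk
      · exact hw1 i j k hi hij hjk
      · rw [hjk, normtools_alt23 hT]
      · rcases lt_trichotomy i k with hik | hik | hik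
        · rw [hT.sw23]; exact hw1 i k j hi hik hjk
        · rw [hik, normtools_alt13 hT]
        · rw [hT.sw23, hT.sw12]; exact hw1 k i j hk hik hij
    · rw [hij, hT.alt]
    · rcases lt_trichotomy i k with hik | hik | hik
      · rw [hT.sw12]; exact hw1 j i k hj hij hik
      · rw [hik, normtools_alt13 hT]
      · rcases lt_trichotomy j k with hjk | hjk | hjk
        · rw [hT.sw12, hT.sw23]; exact hw1 j k i hj hjk hik
        · rw [hjk, normtools_alt23 hT]
        · rw [hT.sw12, hT.sw23, hT.sw12]; exact hw1 k j i hk hjk hij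
  have hA2 : ∀ i p m : Fin 9, 1 ≤ i → i ≤ 4 → 5 ≤ p → 5 ≤ m →
      T (b i) (b p) (b m) = AA L i p m := by
    intro i p m hi hi4 hp hm
    unfold AA
    rcases lt_trichotomy p m with h | h | h
    · rw [hA i p m hi hi4 hp h]
      have h' : ¬ m < p := not_lt.mpr h.le
      simp only [h, h', true_and, false_and, or_false]
    · subst h
      rw [normtools_alt23 hT]
      simp only [lt_irrefl, false_and, or_self, if_false]
    · rw [hT.sw23, hA i m p hi hi4 hm h]
      have h' : ¬ p < m := not_lt.mpr h.le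
      simp only [h, h', true_and, false_and, false_or]
  have hn0 : n 0 = 0 := by funext p; exact hn 0 p (Or.inl rfl)
  have hn5 : ∀ i : Fin 9, 5 ≤ i → n i = 0 := by
    intro i hi; funext p; exact hn i p (Or.inr (Or.inl hi))
  -- sums against `n`
  have hsum : ∀ (i : Fin 9) (f : Fin 9 → ZMod 2), (∀ p, 5 ≤ p → f p = 0) →
      ∑ p, n i p * f p = 0 := by
    intro i f hf
    refine Finset.sum_eq_zero fun p _ => ?_
    by_cases hp : 5 ≤ p
    · rw [hf p hp, mul_zero]
    · rw [hn i p (Or.inr (Or.inr (not_le.mp hp))), zero_mul]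
  have hsum' : ∀ (i : Fin 9) (f : Fin 9 → ZMod 2),
      ∑ p, n i p * f p = n i 5 * f 5 + n i 6 * f 6 + n i 7 * f 7 + n i 8 * f 8 := by
    intro i f
    have e : ∀ p : Fin 9, p < 5 → n i p = 0 := fun p hp => hn i p (Or.inr (Or.inr hp))
    rw [← Finset.sum_subset (Finset.subset_univ ({5, 6, 7, 8} : Finset (Fin 9)))]
    · rw [Finset.sum_insert (by decide), Finset.sum_insert (by decide),
        Finset.sum_insert (by decide), Finset.sum_singleton]
      ring
    · intro p _ hp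
      rw [e p (by revert p; decide), zero_mul]
  have hlin0 : lin b 0 = 0 := by
    unfold lin; simp
  -- the radical of `T (b 0)`
  have r0 : ∀ (i j : Fin 9), T (b 0) (lin b (n i)) (b j) = 0 := by
    intro i j
    rw [normtools_lin2 hT]
    exact hsum i _ fun p hp => by rw [h0, normtools_std' p j hp]
  have r0' : ∀ (i j : Fin 9), T (b 0) (b j) (lin b (n i)) = 0 := by
    intro i j; rw [hT.sw23, r0]
  have r00 : ∀ (i j : Fin 9), T (b 0) (lin b (n i)) (lin b (n j)) = 0 := by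
    intro i j
    rw [normtools_lin3 hT]
    exact hsum j _ fun p _ => r0 i p
  have r1 : ∀ (i j k : Fin 9), 5 ≤ k → T (lin b (n i)) (lin b (n j)) (b k) = 0 := by
    intro i j k hk
    rw [normtools_lin1 hT]
    refine hsum i _ fun p hp => ?_
    rw [normtools_lin2 hT]
    exact hsum j _ fun q hq => hw2 p q k hp hq hk
  have r2 : ∀ (i j k : Fin 9), 5 ≤ j → 5 ≤ k → T (lin b (n i)) (b j) (b k) = 0 := by
    intro i j k hj hk
    rw [normtools_lin1 hT]
    exact hsum i _ fun p hp => hw2 p j k hp hj hk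
  have r3 : ∀ (i j k : Fin 9), 1 ≤ j → j ≤ 4 → 5 ≤ k → T (lin b (n i)) (b j) (b k)
      = n i 5 * AA L j 5 k + n i 6 * AA L j 6 k + n i 7 * AA L j 7 k + n i 8 * AA L j 8 k := by
    intro i j k hj hj4 hk
    rw [normtools_lin1 hT, hsum' i]
    rw [hT.sw12 (b 5), hT.sw12 (b 6), hT.sw12 (b 7), hT.sw12 (b 8),
      hA2 j 5 k hj hj4 (by decide) hk, hA2 j 6 k hj hj4 (by decide) hk,
      hA2 j 7 k hj hj4 (by decide) hk, hA2 j 8 k hj hj4 (by decide) hk]
  -- the new family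
  set b1 : Fin 9 → V := fun i => b i + lin b (n i) with hb1
  have hb10 : b1 0 = b 0 := by
    show b 0 + lin b (n 0) = b 0
    rw [hn0, hlin0, add_zero]
  have hb15 : ∀ i : Fin 9, 5 ≤ i → b1 i = b i := by
    intro i hi
    show b i + lin b (n i) = b i
    rw [hn5 i hi, hlin0, add_zero]
  have hlinb : ∀ i : Fin 9, lin b1 (n i) = lin b (n i) := by
    intro i
    unfold lin
    refine Finset.sum_congr rfl fun p _ => ?_
    by_cases hp : 5 ≤ p
    · rw [hb15 p hp]
    · rw [hn i p (Or.inr (Or.inr (not_le.mp hp))), zero_smul, zero_smul]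
  obtain ⟨c1, hc1⟩ := exists_dual_of_span hbc b1 (by
    intro i
    refine ⟨E i + n i, ?_⟩
    rw [lin_add, lin_E, hlinb]
    show b i = b i + lin b (n i) + lin b (n i)
    rw [add_add_cancel_V])
  apply normtools_mu hT hc1 L hL
  · intro i j
    rw [hb10]
    show T (b 0) (b i + lin b (n i)) (b j + lin b (n j)) = _
    rw [normtools_add2 hT, normtools_add3 hT, normtools_add3 hT, h0, r0', r0, r00]
    ring
  · intro i j k hi hi4 hj hjk
    rw [hb15 j hj, hb15 k (le_trans hj hjk.le)]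
    show T (b i + lin b (n i)) (b j) (b k) = _
    rw [hT.add, hA i j k hi hi4 hj hjk, r2 i j k hj (le_trans hj hjk.le), add_zero]
  · intro i j k hi hij hjk
    have hj : 5 ≤ j := le_trans hi hij.le
    rw [hb15 i hi, hb15 j hj, hb15 k (le_trans hj hjk.le)]
    exact hw1 i j k hi hij hjk
  · intro i j k hi hij hj hk
    rw [hb15 k hk]
    show T (b i + lin b (n i)) (b j + lin b (n j)) (b k) = 0
    rw [hT.add, normtools_add2 hT, normtools_add2 hT, r1 i j k hk,
      r3 i j k (le_trans hi hij.le) hj hk, hT.sw12 (b i) (lin b (n j)) (b k),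
      r3 j i k hi (le_trans hij.le hj) hk]
    have := hl i j k hi hij hj hk
    linear_combination this

/-- case distinction for the `24` conditions -/
theorem normtools_cases {P : Fin 9 → Fin 9 → Fin 9 → Prop}
    (h12 : P 1 2 5 ∧ P 1 2 6 ∧ P 1 2 7 ∧ P 1 2 8) (h13 : P 1 3 5 ∧ P 1 3 6 ∧ P 1 3 7 ∧ P 1 3 8)
    (h14 : P 1 4 5 ∧ P 1 4 6 ∧ P 1 4 7 ∧ P 1 4 8) (h23 : P 2 3 5 ∧ P 2 3 6 ∧ P 2 3 7 ∧ P 2 3 8)
    (h24 : P 2 4 5 ∧ P 2 4 6 ∧ P 2 4 7 ∧ P 2 4 8) (h34 : P 3 4 5 ∧ P 3 4 6 ∧ P 3 4 7 ∧ P 3 4 8) :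
    ∀ i j k : Fin 9, 1 ≤ i → i < j → j ≤ 4 → 5 ≤ k → P i j k := by
  intro i j k hi hij hj hk
  have hc : (i = 1 ∧ j = 2) ∨ (i = 1 ∧ j = 3) ∨ (i = 1 ∧ j = 4) ∨ (i = 2 ∧ j = 3) ∨
      (i = 2 ∧ j = 4) ∨ (i = 3 ∧ j = 4) := by
    revert i j; decide
  have hd : k = 5 ∨ k = 6 ∨ k = 7 ∨ k = 8 := by revert k; decide
  rcases hc with ⟨rfl, rfl⟩ | ⟨rfl, rfl⟩ | ⟨rfl, rfl⟩ | ⟨rfl, rfl⟩ | ⟨rfl, rfl⟩ | ⟨rfl, rfl⟩ <;>
    rcases hd with rfl | rfl | rfl | rfl
  · exact h12.1
  · exact h12.2.1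
  · exact h12.2.2.1
  · exact h12.2.2.2
  · exact h13.1
  · exact h13.2.1
  · exact h13.2.2.1
  · exact h13.2.2.2
  · exact h14.1
  · exact h14.2.1
  · exact h14.2.2.1
  · exact h14.2.2.2
  · exact h23.1
  · exact h23.2.1
  · exact h23.2.2.1
  · exact h23.2.2.2
  · exact h24.1
  · exact h24.2.1
  · exact h24.2.2.1
  · exact h24.2.2.2
  · exact h34.1
  · exact h34.2.1
  · exact h34.2.2.1
  · exact h34.2.2.2

end Pool.Agent.H.MP_694475_co
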