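import Pool.Agent.H.MP_694475_co.NormR2
import Pool.Agent.H.MP_694475_co.NormTools

/-! Final normalisation, nonsplit case. -/

open Finset

namespace Pool.Agent.H.MP_694475_co

theorem normL2 {T T' : V → V → V → ZMod 2} (h : Good T T') {b c : Fin 9 → V}
    (hbc : IsDual b c) (h0 : ∀ i j, T (b 0) (b i) (b j) = std 2 i j)
    (hA : ∀ i j k : Fin 9, 1 ≤ i → i ≤ 4 → 5 ≤ j → j < k →
      T (b i) (b j) (b k) = if (i, j, k) ∈ L2 then 1 else 0) :
    ∃ b' c' : Fin 9 → V, IsDual b' c' ∧ HasForm T b' L2 := by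
  have hrel := h.rel hbc
  have hw := (two_props hrel h0).1
  obtain ⟨r1, r2, r3, r4, r5, r6, r7, r8⟩ := two_lin2 hrel h0 hA
  let n : Fin 9 → V := ![0, ![0, 0, 0, 0, 0,
      T (b 1) (b 3) (b 7),
      T (b 1) (b 3) (b 8),
      T (b 1) (b 2) (b 8),
      T (b 1) (b 2) (b 7)],
    ![0, 0, 0, 0, 0,
      T (b 1) (b 2) (b 6),
      T (b 1) (b 2) (b 5),
      T (b 2) (b 3) (b 5),
      T (b 2) (b 3) (b 6)],
    ![0, 0, 0, 0, 0,
      T (b 1) (b 2) (b 7) + T (b 1) (b 3) (b 6),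
      T (b 1) (b 2) (b 8) + T (b 1) (b 3) (b 5),
      T (b 1) (b 2) (b 5) + T (b 2) (b 3) (b 8),
      T (b 1) (b 2) (b 6) + T (b 2) (b 3) (b 7)],
    ![0, 0, 0, 0, 0,
      T (b 1) (b 2) (b 7) + T (b 1) (b 2) (b 8) + T (b 1) (b 4) (b 6),
      T (b 1) (b 2) (b 7) + T (b 1) (b 4) (b 5),
      T (b 1) (b 2) (b 5) + T (b 1) (b 2) (b 6) + T (b 2) (b 4) (b 8),
      T (b 1) (b 2) (b 5) + T (b 2) (b 4) (b 7)], 0, 0, 0, 0]
  apply normtools_step h.tri hbc L2 nshape_L2 h0 hA hw n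
  · intro i p hip
    fin_cases i <;> fin_cases p <;> first | rfl | (exfalso; revert hip; decide)
  · apply normtools_cases <;> refine ⟨?_, ?_, ?_, ?_⟩ <;>
      simp [n, AA, L2] <;> grind

end Pool.Agent.H.MP_694475_co
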