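import Pool.Agent.H.MP_694475_co.ExStd2
import Pool.Agent.H.MP_694475_co.NormA
import Pool.Agent.H.MP_694475_co.NormL1
import Pool.Agent.H.MP_694475_co.NormL2

open Finset

namespace Pool.Agent.H.MP_694475_co

theorem classify {T T' : V → V → V → ZMod 2} (h : Good T T')
    (hT : ∃ u v w, T u v w ≠ 0) (hs : ∃ v w : V, v ≠ 0 ∧ w ≠ 0 ∧ v ≠ w ∧ ∀ u, T v w u = 0) :
    ∃ b c : Fin 9 → V, IsDual b c ∧ (HasForm T b L1 ∨ HasForm T b L2) := by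
  obtain ⟨b, c, hbc, h0⟩ := exists_std2 h hT hs
  obtain ⟨b', c', hbc', h0', hA | hA⟩ := normA h hbc h0
  · obtain ⟨b'', c'', h'', hF⟩ := normL1 h hbc' h0' hA
    exact ⟨b'', c'', h'', Or.inl hF⟩
  · obtain ⟨b'', c'', h'', hF⟩ := normL2 h hbc' h0' hA
    exact ⟨b'', c'', h'', Or.inr hF⟩

end Pool.Agent.H.MP_694475_co
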