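import Pool.Agent.H.MP_694475_co.Mce

/-! Combinatorics of the covering numbers `cov`. -/

open Finset

namespace Pool.Agent.H.MP_694475_co

theorem covcomb_card_le {e : V → ZMod 2} (he : DegLT 4 e) {K : Finset (Fin 9)} (hK : K ∈ mons e) :
    K.card ≤ 3 := by
  by_contra hc
  have h1 : coef K e = 0 := coef_eq_zero he K (by omega)
  have h2 : coef K e = 1 := (Finset.mem_filter.mp hK).2
  rw [h1] at h2
  exact absurd h2 (by decide)

theorem covcomb_mem_mons {e : V → ZMod 2} {K : Finset (Fin 9)} : K ∈ mons e ↔ coef K e = 1 := by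
  unfold mons
  simp

/-- the coverings counted by `cov` -/
theorem covcomb_cov (m : ℕ) (W : Finset (Fin 9)) (e : V → ZMod 2) :
    cov m W e = ((((mons e).powersetCard m).filter (fun A => A.sup id = W)).card : ZMod 2) := rfl

theorem covcomb_mul_coef (x y : ZMod 2) : x * y = if x = 1 ∧ y = 1 then 1 else 0 := by
  revert x y; decide

theorem covcomb_mul_ite (x y : ZMod 2) : x * y = if x = 1 then y else 0 := by
  revert x y; decide

theorem cov2_gen {e : V → ZMod 2} (he : DegLT 4 e) (W : Finset (Fin 9)) (hW : W.card = 6)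
    (i : Fin 9) (hi : i ∈ W) :
    cov 2 W e = ∑ A ∈ (W.powersetCard 3).filter (fun A => i ∈ A), coef A e * coef (W \ A) e := by
  have h1 : ∑ A ∈ (W.powersetCard 3).filter (fun A => i ∈ A), coef A e * coef (W \ A) e
      = ((((W.powersetCard 3).filter (fun A => i ∈ A)).filter
          (fun A => coef A e = 1 ∧ coef (W \ A) e = 1)).card : ZMod 2) := by
    rw [← Finset.sum_boole]
    exact Finset.sum_congr rfl fun A _ => covcomb_mul_coef _ _
  rw [h1, covcomb_cov]
  refine congrArg (fun n : ℕ => (n : ZMod 2)) ?_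
  symm
  refine Finset.card_bij (fun A _ => ({A, W \ A} : Finset (Finset (Fin 9)))) ?_ ?_ ?_
  · intro A hA
    simp only [Finset.mem_filter, Finset.mem_powersetCard] at hA
    obtain ⟨⟨⟨hAW, hA3⟩, hiA⟩, hc1, hc2⟩ := hA
    have hne : A ≠ W \ A := by
      intro h
      rw [h] at hiA
      have := (Finset.mem_sdiff.mp hiA).2
      exact this (h ▸ hiA)
    simp only [Finset.mem_filter, Finset.mem_powersetCard]
    refine ⟨⟨?_, Finset.card_pair hne⟩, ?_⟩
    · intro K hK
      rcases Finset.mem_insert.mp hK with h | h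
      · rw [h]; exact covcomb_mem_mons.mpr hc1
      · rw [Finset.mem_singleton.mp h]; exact covcomb_mem_mons.mpr hc2
    · rw [Finset.sup_insert, Finset.sup_singleton]
      exact Finset.union_sdiff_of_subset hAW
  · intro A hA B hB hAB
    simp only [Finset.mem_filter, Finset.mem_powersetCard] at hA hB
    have h2 : A ∈ ({B, W \ B} : Finset (Finset (Fin 9))) := by
      rw [← hAB]; exact Finset.mem_insert_self _ _
    rcases Finset.mem_insert.mp h2 with h | h
    · exact h
    · exfalso
      have h3 := Finset.mem_singleton.mp h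
      have h4 := hA.1.2
      rw [h3] at h4
      exact (Finset.mem_sdiff.mp h4).2 hB.1.2
  · intro P hP
    simp only [Finset.mem_filter, Finset.mem_powersetCard] at hP
    obtain ⟨⟨hPm, hP2⟩, hPs⟩ := hP
    obtain ⟨A, B, hAB, rfl⟩ := Finset.card_eq_two.mp hP2
    rw [Finset.sup_insert, Finset.sup_singleton] at hPs
    have hU : A ∪ B = W := hPs
    have hAm : A ∈ mons e := hPm (Finset.mem_insert_self _ _)
    have hBm : B ∈ mons e := hPm (Finset.mem_insert_of_mem (Finset.mem_singleton_self _))
    have hA3 := covcomb_card_le he hAm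
    have hB3 := covcomb_card_le he hBm
    have hcu := Finset.card_union_add_card_inter A B
    rw [hU, hW] at hcu
    have hint : (A ∩ B).card = 0 := by omega
    have hdis : A ∩ B = ∅ := Finset.card_eq_zero.mp hint
    have hd : Disjoint A B := Finset.disjoint_iff_inter_eq_empty.mpr hdis
    have hWA : W \ A = B := by
      rw [← hU, Finset.union_sdiff_cancel_left hd]
    have hWB : W \ B = A := by
      rw [← hU, Finset.union_sdiff_cancel_right hd]
    have hi' : i ∈ A ∪ B := by rw [hU]; exact hi
    rcases Finset.mem_union.mp hi' with hiA | hiB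
    · refine ⟨A, ?_, ?_⟩
      · simp only [Finset.mem_filter, Finset.mem_powersetCard]
        refine ⟨⟨⟨?_, by omega⟩, hiA⟩, covcomb_mem_mons.mp hAm, ?_⟩
        · rw [← hU]; exact Finset.subset_union_left
        · rw [hWA]; exact covcomb_mem_mons.mp hBm
      · rw [hWA]
    · refine ⟨B, ?_, ?_⟩
      · simp only [Finset.mem_filter, Finset.mem_powersetCard]
        refine ⟨⟨⟨?_, by omega⟩, hiB⟩, covcomb_mem_mons.mp hBm, ?_⟩
        · rw [← hU]; exact Finset.subset_union_right
        · rw [hWB]; exact covcomb_mem_mons.mp hAm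
      · rw [hWB]; exact Finset.pair_comm _ _

/-- the 10 splittings of `{3,...,8}` -/
theorem cov2_eq {e : V → ZMod 2} (he : DegLT 4 e) :
    cov 2 ({0, 1, 2} : Finset (Fin 9))ᶜ e =
      coef {3,4,5} e * coef {6,7,8} e + coef {3,4,6} e * coef {5,7,8} e
      + coef {3,4,7} e * coef {5,6,8} e + coef {3,4,8} e * coef {5,6,7} e
      + coef {3,5,6} e * coef {4,7,8} e + coef {3,5,7} e * coef {4,6,8} e
      + coef {3,5,8} e * coef {4,6,7} e + coef {3,6,7} e * coef {4,5,8} e
      + coef {3,6,8} e * coef {4,5,7} e + coef {3,7,8} e * coef {4,5,6} e := by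
  rw [cov2_gen he _ (by decide) 3 (by decide)]
  have hset : ((({0, 1, 2} : Finset (Fin 9))ᶜ).powersetCard 3).filter (fun A => (3 : Fin 9) ∈ A)
      = {{3,4,5},{3,4,6},{3,4,7},{3,4,8},{3,5,6},{3,5,7},{3,5,8},{3,6,7},{3,6,8},{3,7,8}} := by
    decide
  rw [hset]
  have e1 : ({0, 1, 2} : Finset (Fin 9))ᶜ \ {3,4,5} = {6,7,8} := by decide
  have e2 : ({0, 1, 2} : Finset (Fin 9))ᶜ \ {3,4,6} = {5,7,8} := by decide
  have e3 : ({0, 1, 2} : Finset (Fin 9))ᶜ \ {3,4,7} = {5,6,8} := by decide
  have e4 : ({0, 1, 2} : Finset (Fin 9))ᶜ \ {3,4,8} = {5,6,7} := by decide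
  have e5 : ({0, 1, 2} : Finset (Fin 9))ᶜ \ {3,5,6} = {4,7,8} := by decide
  have e6 : ({0, 1, 2} : Finset (Fin 9))ᶜ \ {3,5,7} = {4,6,8} := by decide
  have e7 : ({0, 1, 2} : Finset (Fin 9))ᶜ \ {3,5,8} = {4,6,7} := by decide
  have e8 : ({0, 1, 2} : Finset (Fin 9))ᶜ \ {3,6,7} = {4,5,8} := by decide
  have e9 : ({0, 1, 2} : Finset (Fin 9))ᶜ \ {3,6,8} = {4,5,7} := by decide
  have e10 : ({0, 1, 2} : Finset (Fin 9))ᶜ \ {3,7,8} = {4,5,6} := by decide
  rw [Finset.sum_insert (by decide), Finset.sum_insert (by decide), Finset.sum_insert (by decide),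
    Finset.sum_insert (by decide), Finset.sum_insert (by decide), Finset.sum_insert (by decide),
    Finset.sum_insert (by decide), Finset.sum_insert (by decide), Finset.sum_insert (by decide),
    Finset.sum_singleton, e1, e2, e3, e4, e5, e6, e7, e8, e9, e10]
  ring

/-- removing a member from a covering by three monomials -/
theorem covcomb_erase {e : V → ZMod 2} (he : DegLT 4 e) (W K : Finset (Fin 9)) (hKW : K ⊆ W)
    (hc : W.card = K.card + 6) (h0 : 0 < K.card) (hKm : K ∈ mons e) :
    ((((mons e).powersetCard 3).filter (fun A => A.sup id = W)).filter (fun P => K ∈ P)).card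
      = (((mons e).powersetCard 2).filter (fun A => A.sup id = W \ K)).card := by
  refine Finset.card_bij' (fun P _ => P.erase K) (fun Q _ => insert K Q) ?_ ?_ ?_ ?_
  · intro P hP
    simp only [Finset.mem_filter, Finset.mem_powersetCard] at hP
    obtain ⟨⟨⟨hPm, hP3⟩, hPs⟩, hKP⟩ := hP
    have hcard : (P.erase K).card = 2 := by
      rw [Finset.card_erase_of_mem hKP, hP3]
    have hsub : P.erase K ⊆ mons e := (Finset.erase_subset _ _).trans hPm
    simp only [Finset.mem_filter, Finset.mem_powersetCard]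
    refine ⟨⟨hsub, hcard⟩, ?_⟩
    obtain ⟨A, B, hAB, hE⟩ := Finset.card_eq_two.mp hcard
    have hPe : P = insert K (P.erase K) := (Finset.insert_erase hKP).symm
    rw [hPe, Finset.sup_insert] at hPs
    have hAm : A ∈ mons e := hsub (by rw [hE]; exact Finset.mem_insert_self _ _)
    have hBm : B ∈ mons e := hsub (by
      rw [hE]; exact Finset.mem_insert_of_mem (Finset.mem_singleton_self _))
    have hS : (P.erase K).sup id = A ∪ B := by
      rw [hE, Finset.sup_insert, Finset.sup_singleton]; rfl
    have hU : K ∪ (P.erase K).sup id = W := hPs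
    have h1 : ((P.erase K).sup id).card ≤ 6 := by
      rw [hS]
      have := Finset.card_union_le A B
      have := covcomb_card_le he hAm
      have := covcomb_card_le he hBm
      omega
    have h2 := Finset.card_union_add_card_inter K ((P.erase K).sup id)
    rw [hU] at h2
    have h3 : (K ∩ (P.erase K).sup id).card = 0 := by omega
    have hd : Disjoint K ((P.erase K).sup id) :=
      Finset.disjoint_iff_inter_eq_empty.mpr (Finset.card_eq_zero.mp h3)
    rw [← hU, Finset.union_sdiff_cancel_left hd]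
  · intro Q hQ
    simp only [Finset.mem_filter, Finset.mem_powersetCard] at hQ
    obtain ⟨⟨hQm, hQ2⟩, hQs⟩ := hQ
    have hKQ : K ∉ Q := by
      intro h
      have h1 : K ≤ Q.sup id := Finset.le_sup (f := id) h
      rw [hQs] at h1
      obtain ⟨k, hk⟩ := Finset.card_pos.mp h0
      exact (Finset.mem_sdiff.mp (h1 hk)).2 hk
    simp only [Finset.mem_filter, Finset.mem_powersetCard]
    refine ⟨⟨⟨?_, ?_⟩, ?_⟩, Finset.mem_insert_self _ _⟩
    · intro L hL
      rcases Finset.mem_insert.mp hL with h | h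
      · rw [h]; exact hKm
      · exact hQm h
    · rw [Finset.card_insert_of_notMem hKQ, hQ2]
    · rw [Finset.sup_insert, hQs]
      exact Finset.union_sdiff_of_subset hKW
  · intro P hP
    simp only [Finset.mem_filter] at hP
    exact Finset.insert_erase hP.2
  · intro Q hQ
    simp only [Finset.mem_filter, Finset.mem_powersetCard] at hQ
    obtain ⟨⟨hQm, hQ2⟩, hQs⟩ := hQ
    have hKQ : K ∉ Q := by
      intro h
      have h1 : K ≤ Q.sup id := Finset.le_sup (f := id) h
      rw [hQs] at h1
      obtain ⟨k, hk⟩ := Finset.card_pos.mp h0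
      exact (Finset.mem_sdiff.mp (h1 hk)).2 hk
    exact Finset.erase_insert hKQ

/-- double counting -/
theorem covcomb_double (T : Finset (Finset (Finset (Fin 9)))) (S : Finset (Finset (Fin 9)))
    (h : ∀ P ∈ T, (S.filter (fun K => K ∈ P)).card = 1) :
    T.card = ∑ K ∈ S, (T.filter (fun P => K ∈ P)).card := by
  rw [Finset.card_eq_sum_ones]
  have h1 : ∑ P ∈ T, 1 = ∑ P ∈ T, ∑ K ∈ S, (if K ∈ P then 1 else 0) := by
    refine Finset.sum_congr rfl fun P hP => ?_
    rw [← Finset.card_filter]
    exact (h P hP).symm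
  rw [h1, Finset.sum_comm]
  exact Finset.sum_congr rfl fun K _ => (Finset.card_filter _ _).symm

theorem covcomb_three {e : V → ZMod 2} (he : DegLT 4 e) {W : Finset (Fin 9)}
    {P : Finset (Finset (Fin 9))}
    (hP : P ∈ ((mons e).powersetCard 3).filter (fun A => A.sup id = W)) :
    ∃ x y z, x ≠ y ∧ x ≠ z ∧ y ≠ z ∧ P = {x, y, z} ∧ x ∪ (y ∪ z) = W ∧ x.card ≤ 3 ∧ y.card ≤ 3 ∧
      z.card ≤ 3 ∧ W.card + (x ∩ (y ∪ z)).card + (y ∩ z).card = x.card + y.card + z.card := by
  simp only [Finset.mem_filter, Finset.mem_powersetCard] at hP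
  obtain ⟨⟨hPm, hP3⟩, hPs⟩ := hP
  obtain ⟨x, y, z, hxy, hxz, hyz, rfl⟩ := Finset.card_eq_three.mp hP3
  rw [Finset.sup_insert, Finset.sup_insert, Finset.sup_singleton] at hPs
  have hU : x ∪ (y ∪ z) = W := hPs
  refine ⟨x, y, z, hxy, hxz, hyz, rfl, hU, covcomb_card_le he (hPm (by simp)),
    covcomb_card_le he (hPm (by simp)), covcomb_card_le he (hPm (by simp)), ?_⟩
  have h1 := Finset.card_union_add_card_inter x (y ∪ z)
  have h2 := Finset.card_union_add_card_inter y z
  rw [hU] at h1
  omega

/-- partitions of the index set into three monomials -/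
theorem cov3_univ {e : V → ZMod 2} (he : DegLT 4 e) :
    cov 3 univ e = ∑ K : Finset (Fin 9) with 0 ∈ K ∧ K.card = 3, coef K e * cov 2 Kᶜ e := by
  rw [covcomb_cov, covcomb_double _ (univ.filter (fun K : Finset (Fin 9) => 0 ∈ K ∧ K.card = 3))]
  · rw [Nat.cast_sum]
    refine Finset.sum_congr rfl fun K hK => ?_
    obtain ⟨hK0, hK3⟩ := (Finset.mem_filter.mp hK).2
    rw [covcomb_mul_ite]
    split_ifs with hc
    · rw [covcomb_erase he univ K (Finset.subset_univ _) (by rw [hK3]; rfl) (by omega)
        (covcomb_mem_mons.mpr hc)]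
      rw [covcomb_cov, ← Finset.compl_eq_univ_sdiff]
    · have hemp : ((((mons e).powersetCard 3).filter (fun A => A.sup id = univ)).filter
          (fun P => K ∈ P)) = ∅ := by
        rw [Finset.filter_eq_empty_iff]
        intro P hP hKP
        simp only [Finset.mem_filter, Finset.mem_powersetCard] at hP
        exact hc (covcomb_mem_mons.mp (hP.1.1 hKP))
      rw [hemp]; simp
  · intro P hP
    obtain ⟨x, y, z, hxy, hxz, hyz, rfl, hU, hx, hy, hz, hsum⟩ := covcomb_three he hP
    have hu : (univ : Finset (Fin 9)).card = 9 := rfl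
    rw [hu] at hsum
    have hx3 : x.card = 3 := by omega
    have hy3 : y.card = 3 := by omega
    have hz3 : z.card = 3 := by omega
    have hi1 : x ∩ (y ∪ z) = ∅ := Finset.card_eq_zero.mp (by omega)
    have hi2 : y ∩ z = ∅ := Finset.card_eq_zero.mp (by omega)
    have h0 : (0 : Fin 9) ∈ x ∪ (y ∪ z) := by rw [hU]; exact Finset.mem_univ _
    rw [Finset.card_eq_one]
    have hxn : ∀ i, i ∈ x → i ∉ y ∧ i ∉ z := by
      intro i hi
      constructor
      · intro hiy
        have : i ∈ x ∩ (y ∪ z) := Finset.mem_inter.mpr ⟨hi, Finset.mem_union_left _ hiy⟩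
        rw [hi1] at this
        exact absurd this (Finset.notMem_empty _)
      · intro hiz
        have : i ∈ x ∩ (y ∪ z) := Finset.mem_inter.mpr ⟨hi, Finset.mem_union_right _ hiz⟩
        rw [hi1] at this
        exact absurd this (Finset.notMem_empty _)
    have hyn : ∀ i, i ∈ y → i ∉ z := by
      intro i hi hiz
      have : i ∈ y ∩ z := Finset.mem_inter.mpr ⟨hi, hiz⟩
      rw [hi2] at this
      exact absurd this (Finset.notMem_empty _)
    rcases Finset.mem_union.mp h0 with h | h
    · refine ⟨x, ?_⟩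
      ext K
      simp only [Finset.mem_filter, Finset.mem_univ, true_and, Finset.mem_insert,
        Finset.mem_singleton]
      constructor
      · rintro ⟨⟨hK0, -⟩, hK | hK | hK⟩
        · exact hK
        · exact absurd (hK ▸ hK0) (hxn 0 h).1
        · exact absurd (hK ▸ hK0) (hxn 0 h).2
      · rintro rfl
        exact ⟨⟨h, hx3⟩, Or.inl rfl⟩
    · rcases Finset.mem_union.mp h with h | h
      · refine ⟨y, ?_⟩
        ext K
        simp only [Finset.mem_filter, Finset.mem_univ, true_and, Finset.mem_insert,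
          Finset.mem_singleton]
        constructor
        · rintro ⟨⟨hK0, -⟩, hK | hK | hK⟩
          · exact absurd h (hxn 0 (hK ▸ hK0)).1
          · exact hK
          · exact absurd (hK ▸ hK0) (hyn 0 h)
        · rintro rfl
          exact ⟨⟨h, hy3⟩, Or.inr (Or.inl rfl)⟩
      · refine ⟨z, ?_⟩
        ext K
        simp only [Finset.mem_filter, Finset.mem_univ, true_and, Finset.mem_insert,
          Finset.mem_singleton]
        constructor
        · rintro ⟨⟨hK0, -⟩, hK | hK | hK⟩
          · exact absurd h (hxn 0 (hK ▸ hK0)).2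
          · exact absurd h (hyn 0 (hK ▸ hK0))
          · exact hK
        · rintro rfl
          exact ⟨⟨h, hz3⟩, Or.inr (Or.inr rfl)⟩

/-- coverings of an 8-element set -/
theorem cov3_8 {e : V → ZMod 2} (he : DegLT 4 e) (W : Finset (Fin 9)) (hW : W.card = 8) :
    cov 3 W e = ∑ M ∈ W.powersetCard 2, coef M e * cov 2 (W \ M) e
      + (((((mons e).filter (fun K => K.card = 3)).powersetCard 3).filter
          (fun A => A.sup id = W)).card : ZMod 2) := by
  rw [covcomb_cov]
  set T := ((mons e).powersetCard 3).filter (fun A => A.sup id = W) with hT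
  have hsplit := Finset.card_filter_add_card_filter_not (s := T)
    (fun P => ∀ K ∈ P, K.card = 3)
  have hA : T.filter (fun P => ∀ K ∈ P, K.card = 3)
      = (((mons e).filter (fun K => K.card = 3)).powersetCard 3).filter
          (fun A => A.sup id = W) := by
    ext P
    simp only [hT, Finset.mem_filter, Finset.mem_powersetCard]
    constructor
    · rintro ⟨⟨⟨h1, h2⟩, h3⟩, h4⟩
      exact ⟨⟨fun K hK => Finset.mem_filter.mpr ⟨h1 hK, h4 K hK⟩, h2⟩, h3⟩
    · rintro ⟨⟨h1, h2⟩, h3⟩
      exact ⟨⟨⟨fun K hK => (Finset.mem_filter.mp (h1 hK)).1, h2⟩, h3⟩,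
        fun K hK => (Finset.mem_filter.mp (h1 hK)).2⟩
  rw [← hA, ← hsplit, Nat.cast_add, add_comm]
  refine congrArg₂ (fun a b : ZMod 2 => a + b) ?_ rfl
  rw [covcomb_double _ (W.powersetCard 2), Nat.cast_sum]
  · refine Finset.sum_congr rfl fun M hM => ?_
    obtain ⟨hMW, hM2⟩ := Finset.mem_powersetCard.mp hM
    have hfil : (T.filter (fun P => ¬ ∀ K ∈ P, K.card = 3)).filter (fun P => M ∈ P)
        = T.filter (fun P => M ∈ P) := by
      ext P
      simp only [Finset.mem_filter]
      constructor
      · rintro ⟨⟨h1, -⟩, h3⟩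
        exact ⟨h1, h3⟩
      · rintro ⟨h1, h3⟩
        refine ⟨⟨h1, ?_⟩, h3⟩
        intro h
        have := h M h3
        omega
    rw [hfil, covcomb_mul_ite]
    split_ifs with hc
    · rw [hT, covcomb_erase he W M hMW (by omega) (by omega) (covcomb_mem_mons.mpr hc)]
      rfl
    · have hemp : T.filter (fun P => M ∈ P) = ∅ := by
        rw [Finset.filter_eq_empty_iff]
        intro P hP hKP
        simp only [hT, Finset.mem_filter, Finset.mem_powersetCard] at hP
        exact hc (covcomb_mem_mons.mp (hP.1.1 hKP))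
      rw [hemp]; simp
  · intro P hP
    obtain ⟨hPT, hPn⟩ := Finset.mem_filter.mp hP
    obtain ⟨x, y, z, hxy, hxz, hyz, rfl, hU, hx, hy, hz, hsum⟩ := covcomb_three he hPT
    rw [hW] at hsum
    have hxW : x ⊆ W := by rw [← hU]; exact Finset.subset_union_left
    have hyW : y ⊆ W := by
      rw [← hU]; exact Finset.subset_union_left.trans Finset.subset_union_right
    have hzW : z ⊆ W := by
      rw [← hU]; exact Finset.subset_union_right.trans Finset.subset_union_right
    have hn : ¬ (x.card = 3 ∧ y.card = 3 ∧ z.card = 3) := by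
      rintro ⟨h1, h2, h3⟩
      apply hPn
      intro K hK
      simp only [Finset.mem_insert, Finset.mem_singleton] at hK
      rcases hK with rfl | rfl | rfl
      · exact h1
      · exact h2
      · exact h3
    rw [Finset.card_eq_one]
    have hcases : (x.card = 2 ∧ y.card = 3 ∧ z.card = 3) ∨ (x.card = 3 ∧ y.card = 2 ∧ z.card = 3)
        ∨ (x.card = 3 ∧ y.card = 3 ∧ z.card = 2) := by omega
    rcases hcases with ⟨h1, h2, h3⟩ | ⟨h1, h2, h3⟩ | ⟨h1, h2, h3⟩
    · refine ⟨x, ?_⟩
      ext K
      simp only [Finset.mem_filter, Finset.mem_powersetCard, Finset.mem_insert,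
        Finset.mem_singleton]
      constructor
      · rintro ⟨⟨-, hK2⟩, hK | hK | hK⟩
        · exact hK
        · rw [hK] at hK2; omega
        · rw [hK] at hK2; omega
      · rintro rfl
        exact ⟨⟨hxW, h1⟩, Or.inl rfl⟩
    · refine ⟨y, ?_⟩
      ext K
      simp only [Finset.mem_filter, Finset.mem_powersetCard, Finset.mem_insert,
        Finset.mem_singleton]
      constructor
      · rintro ⟨⟨-, hK2⟩, hK | hK | hK⟩
        · rw [hK] at hK2; omega
        · exact hK
        · rw [hK] at hK2; omega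
      · rintro rfl
        exact ⟨⟨hyW, h2⟩, Or.inr (Or.inl rfl)⟩
    · refine ⟨z, ?_⟩
      ext K
      simp only [Finset.mem_filter, Finset.mem_powersetCard, Finset.mem_insert,
        Finset.mem_singleton]
      constructor
      · rintro ⟨⟨-, hK2⟩, hK | hK | hK⟩
        · rw [hK] at hK2; omega
        · rw [hK] at hK2; omega
        · exact hK
      · rintro rfl
        exact ⟨⟨hzW, h3⟩, Or.inr (Or.inr rfl)⟩

end Pool.Agent.H.MP_694475_co
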