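import Pool.Agent.H.MP_694475_co.Shift

/-! Boolean functions of bounded degree, defined by iterated derivatives. -/

open Finset

namespace Pool.Agent.H.MP_694475_co

/-- derivative -/
def D (u : V) (k : V → ZMod 2) : V → ZMod 2 := fun a => k (a + u) + k a

/-- `DegLT n k`: all `n`-fold derivatives of `k` vanish, i.e. `k` has degree `< n` -/
def DegLT : ℕ → (V → ZMod 2) → Prop
  | 0, k => ∀ a, k a = 0
  | n + 1, k => ∀ u, DegLT n (D u k)

private theorem eq_of_add_zmod2 {x y : ZMod 2} (h : x + y = 0) : x = y := by
  revert x y; decide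

theorem DegLT.succ {n : ℕ} {k : V → ZMod 2} (h : DegLT n k) : DegLT (n + 1) k := by
  induction n generalizing k with
  | zero =>
    have h' : ∀ a, k a = 0 := h
    intro u a
    show k (a + u) + k a = 0
    rw [h', h', add_zero]
  | succ n ih =>
    intro u
    have h' : ∀ u, DegLT n (D u k) := h
    exact ih (h' u)

theorem DegLT.add {n : ℕ} {k l : V → ZMod 2} (hk : DegLT n k) (hl : DegLT n l) :
    DegLT n (fun a => k a + l a) := by
  induction n generalizing k l with
  | zero =>
    have hk' : ∀ a, k a = 0 := hk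
    have hl' : ∀ a, l a = 0 := hl
    intro a
    show k a + l a = 0
    rw [hk', hl', add_zero]
  | succ n ih =>
    intro u
    have hk' : ∀ u, DegLT n (D u k) := hk
    have hl' : ∀ u, DegLT n (D u l) := hl
    have h : D u (fun a => k a + l a) = fun a => D u k a + D u l a := by
      funext a
      simp only [D]
      ring
    rw [h]
    exact ih (hk' u) (hl' u)

theorem DegLT.shift {n : ℕ} {k : V → ZMod 2} (hk : DegLT n k) (u : V) :
    DegLT n (fun a => k (a + u)) := by
  induction n generalizing k with
  | zero =>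
    have hk' : ∀ a, k a = 0 := hk
    intro a
    exact hk' _
  | succ n ih =>
    intro v
    have hk' : ∀ u, DegLT n (D u k) := hk
    have h : D v (fun a => k (a + u)) = fun a => D v k (a + u) := by
      funext a
      simp only [D]
      rw [add_right_comm a v u]
    rw [h]
    exact ih (hk' v)

theorem DegLT_const (c : ZMod 2) : DegLT 1 (fun _ => c) := by
  intro u a
  exact add_self_zmod2 c

theorem DegLT_dot (u : V) : DegLT 2 (fun a => dot u a) := by
  intro v w a
  show (dot u (a + w + v) + dot u (a + w)) + (dot u (a + v) + dot u a) = 0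
  simp only [dot_add_right]
  generalize dot u a = x
  generalize dot u w = y
  generalize dot u v = z
  revert x y z
  decide

theorem DegLT.comp {n : ℕ} {k : V → ZMod 2} (hk : DegLT n k) (M : V → V)
    (hM : ∀ a b, M (a + b) = M a + M b) : DegLT n (fun a => k (M a)) := by
  induction n generalizing k with
  | zero =>
    have hk' : ∀ a, k a = 0 := hk
    intro a
    exact hk' _
  | succ n ih =>
    intro u
    have hk' : ∀ u, DegLT n (D u k) := hk
    have h : D u (fun a => k (M a)) = fun a => D (M u) k (M a) := by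
      funext a
      simp only [D]
      rw [hM]
    rw [h]
    exact ih (hk' (M u))

/-- minimum weight of Reed-Muller codes -/
theorem rm_weight (n : ℕ) (hn : n ≤ 9) (k : V → ZMod 2) (h : DegLT (n + 1) k) (a0 : V)
    (ha0 : k a0 ≠ 0) : 2 ^ (9 - n) ≤ (univ.filter (fun a => k a ≠ 0)).card := by
  induction n generalizing k a0 with
  | zero =>
    have h' : ∀ u a, k (a + u) + k a = 0 := h
    have hc : ∀ b, k b = k a0 := by
      intro b
      have h1 := h' (a0 + b) a0
      rw [← add_assoc, add_self_V, zero_add] at h1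
      exact eq_of_add_zmod2 h1
    have hf : univ.filter (fun a => k a ≠ 0) = univ := by
      refine Finset.filter_true_of_mem fun a _ => ?_
      rw [hc a]
      exact ha0
    rw [hf, Finset.card_univ, Fintype.card_fun, ZMod.card, Fintype.card_fin]
  | succ n ih =>
    by_cases hall : ∀ a, k a ≠ 0
    · have hf : univ.filter (fun a => k a ≠ 0) = univ :=
        Finset.filter_true_of_mem fun a _ => hall a
      rw [hf, Finset.card_univ, Fintype.card_fun, ZMod.card, Fintype.card_fin]
      exact Nat.pow_le_pow_right (by norm_num) (by omega)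
    · push Not at hall
      obtain ⟨a1, ha1⟩ := hall
      have h' : ∀ u, DegLT (n + 1) (D u k) := h
      have hD : D (a0 + a1) k a0 ≠ 0 := by
        show k (a0 + (a0 + a1)) + k a0 ≠ 0
        rw [← add_assoc, add_self_V, zero_add, ha1, zero_add]
        exact ha0
      have h1 := ih (by omega) (D (a0 + a1) k) (h' _) a0 hD
      set s := univ.filter (fun a => k a ≠ 0) with hs
      set u := a0 + a1 with hu
      have h2 : univ.filter (fun a => D u k a ≠ 0) ⊆ s ∪ s.image (fun a => a + u) := by
        intro a ha
        rw [Finset.mem_filter] at ha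
        rw [Finset.mem_union, Finset.mem_image]
        by_cases hka : k a = 0
        · right
          refine ⟨a + u, ?_, add_add_cancel_V a u⟩
          rw [hs, Finset.mem_filter]
          refine ⟨Finset.mem_univ _, fun h0 => ha.2 ?_⟩
          show k (a + u) + k a = 0
          rw [h0, hka, add_zero]
        · left
          rw [hs, Finset.mem_filter]
          exact ⟨Finset.mem_univ _, hka⟩
      have h3 := Finset.card_le_card h2
      have h4 := Finset.card_union_le s (s.image (fun a => a + u))
      have h5 : (s.image (fun a => a + u)).card ≤ s.card := Finset.card_image_le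
      have h6 : 2 ^ (9 - n) = 2 * 2 ^ (9 - (n + 1)) := by
        rw [← pow_succ']
        congr 1
        omega
      omega

theorem affine_of_DegLT_two (k : V → ZMod 2) (h : DegLT 2 k) :
    ∃ (c : ZMod 2) (p : V), ∀ a, k a = c + dot p a := by
  have h' : ∀ u v a, (k (a + v + u) + k (a + v)) + (k (a + u) + k a) = 0 := h
  let L : V →+ ZMod 2 :=
    { toFun := fun a => k a + k 0
      map_zero' := add_self_zmod2 _
      map_add' := by
        intro a b
        have h1 := h' b a 0
        rw [zero_add, zero_add] at h1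
        generalize k (a + b) = x at h1 ⊢
        generalize k a = y at h1 ⊢
        generalize k b = z at h1 ⊢
        generalize k 0 = w at h1 ⊢
        revert x y z w
        decide }
  let L' : V →ₗ[ZMod 2] ZMod 2 := L.toZModLinearMap 2
  refine ⟨k 0, fun i => L' (fun j => if i = j then 1 else 0), fun a => ?_⟩
  have h1 := LinearMap.pi_apply_eq_sum_univ L' a
  have h2 : L' a = k a + k 0 := rfl
  rw [h2] at h1
  have h3 : dot (fun i => L' (fun j => if i = j then 1 else 0)) a = k a + k 0 := by
    rw [h1]
    unfold dot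
    refine Finset.sum_congr rfl fun i _ => ?_
    rw [smul_eq_mul, mul_comm]
  rw [h3]
  generalize k 0 = x
  generalize k a = y
  revert x y
  decide

/-- parity of an integer valued function -/
def par (J : V → ℤ) : V → ZMod 2 := fun a => (J a : ZMod 2)

/-- `0` if `n = 1 mod 4` and `1` otherwise (used for odd `n`) -/
def sg4 (n : ℤ) : ZMod 2 := if n % 4 = 1 then 0 else 1

theorem sg4_spec {n : ℤ} (hn : Odd n) : 4 ∣ n - sgn (sg4 n) := by
  obtain ⟨m, rfl⟩ := hn
  unfold sg4
  split_ifs with h
  · rw [sgn_zero]
    omega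
  · rw [sgn_one]
    omega

theorem par_eq_zero (J : V → ℤ) (a : V) : par J a = 0 ↔ 2 ∣ J a := by
  unfold par
  exact ZMod.intCast_zmod_eq_zero_iff_dvd (J a) 2

theorem par_ne_zero (J : V → ℤ) (a : V) : par J a ≠ 0 ↔ Odd (J a) := by
  rw [ne_eq, par_eq_zero, ← even_iff_two_dvd, Int.not_even_iff_odd]

private theorem D_par (J : V → ℤ) (u : V) : D u (par J) = par (S u J) := by
  funext a
  simp only [D, par, S]
  push_cast
  ring

theorem par_DegLT2 (K : V → ℤ) (h : ∀ u v a, 2 ∣ S u (S v K) a) : DegLT 2 (par K) := by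
  intro u v a
  rw [D_par, D_par, par_eq_zero]
  exact h v u a

theorem par_DegLT3 (K : V → ℤ) (h : ∀ u v w a, 2 ∣ S u (S v (S w K)) a) : DegLT 3 (par K) := by
  intro u v w a
  rw [D_par, D_par, D_par, par_eq_zero]
  exact h w v u a

private theorem par_DegLT4 (K : V → ℤ) (h : ∀ u v w z a, 2 ∣ S u (S v (S w (S z K))) a) :
    DegLT 4 (par K) := by
  intro u v w z a
  rw [D_par, D_par, D_par, D_par, par_eq_zero]
  exact h z w v u a

private theorem sg4_decomp (K : V → ℤ) (hK : ∀ a, Odd (K a)) :
    ∃ e q : V → ℤ, (∀ a, K a = 1 + 2 * e a + 4 * q a) ∧ (fun a => sg4 (K a)) = par e := by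
  refine ⟨fun a => if K a % 4 = 1 then 0 else 1,
    fun a => (K a - 1 - 2 * (if K a % 4 = 1 then 0 else 1)) / 4, fun a => ?_, ?_⟩
  · obtain ⟨m, hm⟩ := hK a
    show K a = 1 + 2 * (if K a % 4 = 1 then 0 else 1) +
      4 * ((K a - 1 - 2 * (if K a % 4 = 1 then 0 else 1)) / 4)
    split_ifs with h
    · omega
    · omega
  · funext a
    simp only [sg4, par]
    split_ifs <;> simp

theorem sg4_DegLT2 (K : V → ℤ) (hK : ∀ a, Odd (K a)) (h : ∀ u v a, 4 ∣ S u (S v K) a) :
    DegLT 2 (fun a => sg4 (K a)) := by
  obtain ⟨e, q, hKe, he⟩ := sg4_decomp K hK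
  rw [he]
  refine par_DegLT2 e fun u v a => ?_
  have h1 := h u v a
  simp only [S, hKe] at h1 ⊢
  omega

theorem sg4_DegLT4 (K : V → ℤ) (hK : ∀ a, Odd (K a))
    (h : ∀ u v w z a, 4 ∣ S u (S v (S w (S z K))) a) :
    DegLT 4 (fun a => sg4 (K a)) := by
  obtain ⟨e, q, hKe, he⟩ := sg4_decomp K hK
  rw [he]
  refine par_DegLT4 e fun u v w z a => ?_
  have h1 := h u v w z a
  simp only [S, hKe] at h1 ⊢
  omega

end Pool.Agent.H.MP_694475_co
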