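import Pool.Agent.H.MP_694475_co.TriDef

/-! `T (b 0)` cannot have rank 0 or 2. -/

open Finset

namespace Pool.Agent.H.MP_694475_co

/-- the indices different from `i`, `j`, `k` -/
def low_cmp (i j k : Fin 9) : List (Fin 9) :=
  (List.finRange 9).filter (fun x => x ≠ i ∧ x ≠ j ∧ x ≠ k)

theorem low_nodup : ∀ i j k : Fin 9, i ≠ 0 → j ≠ 0 → k ≠ 0 → i ≠ j → i ≠ k → j ≠ k →
    [i, j, k, 0, (low_cmp i j k).getD 1 0, (low_cmp i j k).getD 2 0, (low_cmp i j k).getD 3 0,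
      (low_cmp i j k).getD 4 0, (low_cmp i j k).getD 5 0].Nodup ∧
    (low_cmp i j k).getD 1 0 ≠ 0 ∧ (low_cmp i j k).getD 2 0 ≠ 0 ∧ (low_cmp i j k).getD 3 0 ≠ 0 ∧
      (low_cmp i j k).getD 4 0 ≠ 0 ∧ (low_cmp i j k).getD 5 0 ≠ 0 := by
  decide +kernel

theorem rel_std0 {t t' : Fin 9 → Fin 9 → Fin 9 → ZMod 2} (h : RelT t t')
    (h0 : ∀ i j, t 0 i j = std 0 i j) (i j k : Fin 9) : t i j k = 0 := by
  have h1 : ∀ i j, t 0 i j = 0 := by
    intro i j
    rw [h0]; revert i j; decide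
  have alt13 : ∀ i k, t i k i = 0 := fun i k => by rw [h.sw23]; exact h.alt i k
  have alt23 : ∀ i k, t k i i = 0 := fun i k => by rw [h.sw12]; exact alt13 i k
  have alt13' : ∀ i k, t' i k i = 0 := fun i k => by rw [h.sw23']; exact h.alt' i k
  have alt23' : ∀ i k, t' k i i = 0 := fun i k => by rw [h.sw12']; exact alt13' i k
  have h2 : ∀ i j k : Fin 9, i ≠ 0 → j ≠ 0 → k ≠ 0 → t' i j k = 0 := by
    intro i j k hi hj hk
    by_cases hij : i = j
    · rw [hij]; exact h.alt' _ _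
    by_cases hik : i = k
    · rw [hik]; exact alt13' _ _
    by_cases hjk : j = k
    · rw [hjk]; exact alt23' _ _
    rw [h.fwd _ _ _ _ _ _ _ _ _ (low_nodup i j k hi hj hk hij hik hjk).1]
    simp only [DD, h1, zero_mul, add_zero]
  by_cases hi : i = 0
  · rw [hi]; exact h1 _ _
  by_cases hj : j = 0
  · rw [hj, h.sw12]; exact h1 _ _
  by_cases hk : k = 0
  · rw [hk, h.sw23, h.sw12]; exact h1 _ _
  by_cases hij : i = j
  · rw [hij]; exact h.alt _ _
  by_cases hik : i = k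
  · rw [hik]; exact alt13 _ _
  by_cases hjk : j = k
  · rw [hjk]; exact alt23 _ _
  obtain ⟨hn, n1, n2, n3, n4, n5⟩ := low_nodup i j k hi hj hk hij hik hjk
  rw [h.bwd _ _ _ _ _ _ _ _ _ hn]
  simp only [DD, h2 _ _ _ n1 n2 n3, h2 _ _ _ n1 n2 n4, h2 _ _ _ n1 n2 n5, h2 _ _ _ n1 n3 n4,
    h2 _ _ _ n1 n3 n5, h2 _ _ _ n1 n4 n5, h2 _ _ _ n2 n3 n4, h2 _ _ _ n2 n3 n5,
    h2 _ _ _ n2 n4 n5, h2 _ _ _ n3 n4 n5, mul_zero, add_zero]

theorem rel_std1 {t t' : Fin 9 → Fin 9 → Fin 9 → ZMod 2} (h : RelT t t')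
    (h0 : ∀ i j, t 0 i j = std 1 i j) : False := by
  have h012 : t 0 1 2 = 1 := by rw [h0]; decide
  have hz : ∀ x y : Fin 9, 3 ≤ y → t 0 x y = 0 := by
    intro x y hy
    rw [h0]; revert x y; decide
  have hk : t' 0 1 2 = 0 := by
    have := h.kap' (fun i j hi hij hn => by
      rw [h0]; revert i j; decide)
    rw [h012, hz 3 4 (by decide), hz 5 6 (by decide)] at this
    simpa using this
  have hD : ∀ d e f : Fin 9, 3 ≤ d → 3 ≤ e → 3 ≤ f → DD t 0 1 2 d e f = t d e f := by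
    intro d e f hd he hf
    simp only [DD, h012, hz _ _ hd, hz _ _ he, hz _ _ hf, one_mul, zero_mul, add_zero]
  have key := h.bwd 0 1 2 3 4 5 6 7 8 (by decide)
  simp only [DD] at key
  have f1 := (h.fwd 3 4 5 0 1 2 6 7 8 (by decide)).trans (hD _ _ _ (by decide) (by decide) (by decide))
  have f2 := (h.fwd 3 4 6 0 1 2 5 7 8 (by decide)).trans (hD _ _ _ (by decide) (by decide) (by decide))
  have f3 := (h.fwd 3 4 7 0 1 2 5 6 8 (by decide)).trans (hD _ _ _ (by decide) (by decide) (by decide))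
  have f4 := (h.fwd 3 4 8 0 1 2 5 6 7 (by decide)).trans (hD _ _ _ (by decide) (by decide) (by decide))
  have f5 := (h.fwd 3 5 6 0 1 2 4 7 8 (by decide)).trans (hD _ _ _ (by decide) (by decide) (by decide))
  have f6 := (h.fwd 3 5 7 0 1 2 4 6 8 (by decide)).trans (hD _ _ _ (by decide) (by decide) (by decide))
  have f7 := (h.fwd 3 5 8 0 1 2 4 6 7 (by decide)).trans (hD _ _ _ (by decide) (by decide) (by decide))
  have f8 := (h.fwd 3 6 7 0 1 2 4 5 8 (by decide)).trans (hD _ _ _ (by decide) (by decide) (by decide))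
  have f9 := (h.fwd 3 6 8 0 1 2 4 5 7 (by decide)).trans (hD _ _ _ (by decide) (by decide) (by decide))
  have f10 := (h.fwd 3 7 8 0 1 2 4 5 6 (by decide)).trans (hD _ _ _ (by decide) (by decide) (by decide))
  have g1 := (h.fwd 6 7 8 0 1 2 3 4 5 (by decide)).trans (hD _ _ _ (by decide) (by decide) (by decide))
  have g2 := (h.fwd 5 7 8 0 1 2 3 4 6 (by decide)).trans (hD _ _ _ (by decide) (by decide) (by decide))
  have g3 := (h.fwd 5 6 8 0 1 2 3 4 7 (by decide)).trans (hD _ _ _ (by decide) (by decide) (by decide))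
  have g4 := (h.fwd 5 6 7 0 1 2 3 4 8 (by decide)).trans (hD _ _ _ (by decide) (by decide) (by decide))
  have g5 := (h.fwd 4 7 8 0 1 2 3 5 6 (by decide)).trans (hD _ _ _ (by decide) (by decide) (by decide))
  have g6 := (h.fwd 4 6 8 0 1 2 3 5 7 (by decide)).trans (hD _ _ _ (by decide) (by decide) (by decide))
  have g7 := (h.fwd 4 6 7 0 1 2 3 5 8 (by decide)).trans (hD _ _ _ (by decide) (by decide) (by decide))
  have g8 := (h.fwd 4 5 8 0 1 2 3 6 7 (by decide)).trans (hD _ _ _ (by decide) (by decide) (by decide))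
  have g9 := (h.fwd 4 5 7 0 1 2 3 6 8 (by decide)).trans (hD _ _ _ (by decide) (by decide) (by decide))
  have g10 := (h.fwd 4 5 6 0 1 2 3 7 8 (by decide)).trans (hD _ _ _ (by decide) (by decide) (by decide))
  have k2 := h.fwd 0 1 2 3 4 5 6 7 8 (by decide)
  simp only [DD] at k2
  rw [f1, f2, f3, f4, f5, f6, f7, f8, f9, f10, g1, g2, g3, g4, g5, g6, g7, g8, g9, g10, h012] at key
  rw [hk] at k2
  have : (1 : ZMod 2) = 0 := by
    rw [key, k2]; ring
  exact absurd this (by decide)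

end Pool.Agent.H.MP_694475_co
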