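import Pool.Agent.H.MP_694475_co.ThreeA2

/-! Rank 6, first case. -/

open Finset

namespace Pool.Agent.H.MP_694475_co

private theorem threea_lin1 {T : V → V → V → ZMod 2} (h : IsTri T) (b : Fin 9 → V) (x y z : V) :
    T (lin b x) y z = ∑ i, x i * T (b i) y z := by
  have key : ∀ f : V →+ ZMod 2, f (∑ i, x i • b i) = ∑ i, x i * f (b i) := by
    intro f
    rw [map_sum]
    refine Finset.sum_congr rfl fun i _ => ?_
    rcases zmod2_cases (x i) with h1 | h1
    · rw [h1, zero_smul, zero_mul, map_zero]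
    · rw [h1, one_smul, one_mul]
  exact key (AddMonoidHom.mk' (fun u => T u y z) (fun u u' => h.add u u' y z))

private theorem threea_lin2 {T : V → V → V → ZMod 2} (h : IsTri T) (b : Fin 9 → V) (x y z : V) :
    T y (lin b x) z = ∑ i, x i * T y (b i) z := by
  rw [h.sw12, threea_lin1 h]
  exact Finset.sum_congr rfl fun i _ => by rw [h.sw12]

private theorem threea_lin3 {T : V → V → V → ZMod 2} (h : IsTri T) (b : Fin 9 → V) (x y z : V) :
    T y z (lin b x) = ∑ i, x i * T y z (b i) := by
  rw [h.sw23, threea_lin2 h]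
  exact Finset.sum_congr rfl fun i _ => by rw [h.sw23]

private theorem threea_std7 : ∀ k : Fin 9, std 3 7 k = 0 := by decide

private theorem threea_std8 : ∀ k : Fin 9, std 3 8 k = 0 := by decide

theorem threeA {T T' : V → V → V → ZMod 2} (h : Good T T') {b c : Fin 9 → V}
    (hbc : IsDual b c) (h0 : ∀ i j, T (b 0) (b i) (b j) = std 3 i j)
    (hl : ∀ k, T (b 7) (b 8) (b k) = 0) :
    ∃ v : V, v ≠ 0 ∧ 16 ≤ (univ.filter (fun w => ∀ u, T v w u = 0)).card := by
  obtain ⟨α, β, γ, hne, hpf⟩ := net_degenerate (h.rel hbc) h0 hl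
  have hT := h.tri
  set a : Fin 9 → Fin 9 → ZMod 2 := fun i j =>
    α * T (b 0) (b i) (b j) + β * T (b 7) (b i) (b j) + γ * T (b 8) (b i) (b j) with ha
  have has : ∀ i j, a i j = a j i := fun i j => by
    simp only [ha]
    rw [hT.sw23 (b 0), hT.sw23 (b 7), hT.sw23 (b 8)]
  have halt : ∀ i, a i i = 0 := fun i => by
    have hz : ∀ x w : V, T x w w = 0 := fun x w => by
      rw [hT.sw12, hT.sw23]
      exact hT.alt _ _
    simp only [ha]
    rw [hz, hz, hz]
    ring
  obtain ⟨u, ⟨hu0, hu7, hu8⟩, ⟨i0, hi0⟩, hu⟩ := pf6_radical a has halt hpf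
  have a0 : ∀ k, a 0 k = 0 := fun k => by
    simp only [ha]
    rw [hT.alt, hT.sw12 (b 7), hT.sw12 (b 8), h0, h0, threea_std7, threea_std8]
    ring
  have a7 : ∀ k, a 7 k = 0 := fun k => by
    simp only [ha]
    rw [hT.alt, hT.sw12 (b 8), hl, h0, threea_std7]
    ring
  have a8 : ∀ k, a 8 k = 0 := fun k => by
    simp only [ha]
    rw [hT.alt, hl, h0, threea_std8]
    ring
  have hu' : ∀ k, ∑ i, u i * a i k = 0 := by
    intro k
    by_cases hk0 : k = 0
    · subst hk0
      exact Finset.sum_eq_zero fun i _ => by rw [has, a0, mul_zero]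
    by_cases hk7 : k = 7
    · subst hk7
      exact Finset.sum_eq_zero fun i _ => by rw [has, a7, mul_zero]
    by_cases hk8 : k = 8
    · subst hk8
      exact Finset.sum_eq_zero fun i _ => by rw [has, a8, mul_zero]
    exact hu k hk0 hk7 hk8
  -- the vector
  let A : V := ![α, 0, 0, 0, 0, 0, 0, β, γ]
  have hAsum : ∀ f : Fin 9 → ZMod 2, ∑ i, A i * f i = α * f 0 + β * f 7 + γ * f 8 := by
    intro f
    rw [Fin.sum_univ_succ, Fin.sum_univ_eight]
    change α * f 0 + (0 * f 1 + 0 * f 2 + 0 * f 3 + 0 * f 4 + 0 * f 5 + 0 * f 6 + β * f 7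
      + γ * f 8) = _
    ring
  have hTA : ∀ (B : V) (z : V), (∀ k, ∑ j, B j * a j k = 0) → T (lin b A) (lin b B) z = 0 := by
    intro B z hB
    have hz : z = lin b (fun i => dot (c i) z) := hbc.expand z
    rw [hz, threea_lin3 hT]
    refine Finset.sum_eq_zero fun k _ => ?_
    rw [threea_lin2 hT]
    have : ∀ j, T (lin b A) (b j) (b k) = a j k := by
      intro j
      rw [threea_lin1 hT, hAsum]
    simp only [this]
    rw [hB k, mul_zero]
  have hinj : Function.Injective (lin b) := (lin_bijective hbc).1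
  refine ⟨lin b A, ?_, ?_⟩
  · intro hz
    have hlin0 : lin b 0 = 0 := by
      unfold lin
      exact Finset.sum_eq_zero fun i _ => by rw [Pi.zero_apply, zero_smul]
    have hA0 : A = 0 := hinj (by rw [hz, hlin0])
    apply hne
    have e0 : α = 0 := congrFun hA0 0
    have e7 : β = 0 := congrFun hA0 7
    have e8 : γ = 0 := congrFun hA0 8
    rw [e0, e7, e8]
    rfl
  · have hi00 : i0 ≠ 0 := fun he => hi0 (by rw [he]; exact hu0)
    have hi07 : i0 ≠ 7 := fun he => hi0 (by rw [he]; exact hu7)
    have hi08 : i0 ≠ 8 := fun he => hi0 (by rw [he]; exact hu8)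
    let B : ZMod 2 × ZMod 2 × ZMod 2 × ZMod 2 → V := fun x i =>
      if i = 0 then x.1 else if i = 7 then x.2.1 else if i = 8 then x.2.2.1 else x.2.2.2 * u i
    have hBrad : ∀ x k, ∑ j, B x j * a j k = 0 := by
      intro x k
      have : ∀ j, B x j * a j k = x.2.2.2 * (u j * a j k) := by
        intro j
        simp only [B]
        by_cases hj0 : j = 0
        · subst hj0
          rw [a0, mul_zero, mul_zero, mul_zero]
        by_cases hj7 : j = 7
        · subst hj7
          rw [a7, mul_zero, mul_zero, mul_zero]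
        by_cases hj8 : j = 8
        · subst hj8
          rw [a8, mul_zero, mul_zero, mul_zero]
        rw [if_neg hj0, if_neg hj7, if_neg hj8, mul_assoc]
      simp only [this]
      rw [← Finset.mul_sum, hu', mul_zero]
    have hBinj : Function.Injective B := by
      intro x y hxy
      have e0 : x.1 = y.1 := congrFun hxy 0
      have e7 : x.2.1 = y.2.1 := congrFun hxy 7
      have e8 : x.2.2.1 = y.2.2.1 := congrFun hxy 8
      have e9 := congrFun hxy i0
      simp only [B, if_neg hi00, if_neg hi07, if_neg hi08] at e9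
      have e9' : x.2.2.2 = y.2.2.2 := mul_right_cancel₀ hi0 e9
      ext
      · rw [e0]
      · rw [e7]
      · rw [e8]
      · rw [e9']
    have hcard : (univ : Finset (ZMod 2 × ZMod 2 × ZMod 2 × ZMod 2)).card = 16 := by decide
    rw [← hcard]
    refine Finset.card_le_card_of_injOn (fun x => lin b (B x)) ?_ ?_
    · intro x _
      rw [Finset.mem_coe, Finset.mem_filter]
      exact ⟨Finset.mem_univ _, fun z => hTA (B x) z (hBrad x)⟩
    · intro x _ y _ hxy
      exact hBinj (hinj hxy)

end Pool.Agent.H.MP_694475_co
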