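import Pool.Agent.H.MP_694475_co.TriDef

/-! Rank 6, second case: normalisation of the linear form `T (b 7) (b 8) ·`. -/

open Finset

namespace Pool.Agent.H.MP_694475_co

theorem threeb2_add2 {T : V → V → V → ZMod 2} (h : IsTri T) (u v v' w : V) :
    T u (v + v') w = T u v w + T u v' w := by
  rw [h.sw12, h.add, h.sw12 v, h.sw12 v']

theorem threeb2_add3 {T : V → V → V → ZMod 2} (h : IsTri T) (u v w w' : V) :
    T u v (w + w') = T u v w + T u v w' := by
  rw [h.sw23, threeb2_add2 h, h.sw23 u w, h.sw23 u w']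

theorem threeb2_zero1 {T : V → V → V → ZMod 2} (h : IsTri T) (v w : V) : T 0 v w = 0 := by
  have h1 := h.add 0 0 v w
  rw [add_zero] at h1
  have h2 : T 0 v w + T 0 v w = 0 := add_self_zmod2 _
  rw [← h1] at h2
  exact h2

theorem threeb2_smul1 {T : V → V → V → ZMod 2} (h : IsTri T) (a : ZMod 2) (u v w : V) :
    T (a • u) v w = a * T u v w := by
  rcases zmod2_cases a with ha | ha
  · subst ha; rw [zero_smul, zero_mul, threeb2_zero1 h]
  · subst ha; rw [one_smul, one_mul]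

theorem threeb2_smul2 {T : V → V → V → ZMod 2} (h : IsTri T) (a : ZMod 2) (u v w : V) :
    T u (a • v) w = a * T u v w := by
  rw [h.sw12, threeb2_smul1 h, h.sw12 v]

theorem threeb2_smul3 {T : V → V → V → ZMod 2} (h : IsTri T) (a : ZMod 2) (u v w : V) :
    T u v (a • w) = a * T u v w := by
  rw [h.sw23, threeb2_smul2 h, h.sw23 u w]

theorem threeb2_alt23 {T : V → V → V → ZMod 2} (h : IsTri T) (u v : V) : T u v v = 0 := by
  rw [h.sw12, h.sw23, h.alt]

theorem threeb2_perm (k : Fin 9) (h0 : k ≠ 0) (h7 : k ≠ 7) (h8 : k ≠ 8) :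
    ∃ p : Fin 9 → Fin 9, Function.Injective p ∧ p 0 = 0 ∧ p 7 = 7 ∧ p 8 = 8 ∧ p 1 = k ∧
      ∀ i j, std 3 (p i) (p j) = std 3 i j := by
  have hk : k = 1 ∨ k = 2 ∨ k = 3 ∨ k = 4 ∨ k = 5 ∨ k = 6 := by
    revert h0 h7 h8; revert k; decide
  rcases hk with rfl | rfl | rfl | rfl | rfl | rfl
  · exact ⟨![0, 1, 2, 3, 4, 5, 6, 7, 8], by decide, rfl, rfl, rfl, rfl, by decide⟩
  · exact ⟨![0, 2, 1, 3, 4, 5, 6, 7, 8], by decide, rfl, rfl, rfl, rfl, by decide⟩
  · exact ⟨![0, 3, 4, 1, 2, 5, 6, 7, 8], by decide, rfl, rfl, rfl, rfl, by decide⟩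
  · exact ⟨![0, 4, 3, 1, 2, 5, 6, 7, 8], by decide, rfl, rfl, rfl, rfl, by decide⟩
  · exact ⟨![0, 5, 6, 3, 4, 1, 2, 7, 8], by decide, rfl, rfl, rfl, rfl, by decide⟩
  · exact ⟨![0, 6, 5, 3, 4, 1, 2, 7, 8], by decide, rfl, rfl, rfl, rfl, by decide⟩

theorem threeb2_lin_smul (b : Fin 9 → V) (a : ZMod 2) (x : V) : lin b (a • x) = a • lin b x := by
  unfold lin
  rw [Finset.smul_sum]
  exact Finset.sum_congr rfl fun i _ => by rw [Pi.smul_apply, smul_eq_mul, mul_smul]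

/-- the new family -/
def threeb2_new (b : Fin 9 → V) (l : Fin 9 → ZMod 2) : Fin 9 → V :=
  ![b 0, b 1, b 2 + l 2 • b 1 + l 4 • b 3 + l 3 • b 4 + l 6 • b 5 + l 5 • b 6,
    b 3 + l 3 • b 1, b 4 + l 4 • b 1, b 5 + l 5 • b 1, b 6 + l 6 • b 1, b 7, b 8]

theorem threeb2_span (b : Fin 9 → V) (l : Fin 9 → ZMod 2) (i : Fin 9) :
    ∃ a : V, b i = lin (threeb2_new b l) a := by
  have two : (2 : ZMod 2) = 0 := rfl
  have c0 : threeb2_new b l 0 = b 0 := rfl
  have c1 : threeb2_new b l 1 = b 1 := rfl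
  have c2 : threeb2_new b l 2 =
    b 2 + l 2 • b 1 + l 4 • b 3 + l 3 • b 4 + l 6 • b 5 + l 5 • b 6 := rfl
  have c3 : threeb2_new b l 3 = b 3 + l 3 • b 1 := rfl
  have c4 : threeb2_new b l 4 = b 4 + l 4 • b 1 := rfl
  have c5 : threeb2_new b l 5 = b 5 + l 5 • b 1 := rfl
  have c6 : threeb2_new b l 6 = b 6 + l 6 • b 1 := rfl
  have c7 : threeb2_new b l 7 = b 7 := rfl
  have c8 : threeb2_new b l 8 = b 8 := rfl
  have hi : i = 0 ∨ i = 1 ∨ i = 2 ∨ i = 3 ∨ i = 4 ∨ i = 5 ∨ i = 6 ∨ i = 7 ∨ i = 8 := by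
    revert i; decide
  rcases hi with rfl | rfl | rfl | rfl | rfl | rfl | rfl | rfl | rfl
  · exact ⟨E 0, by rw [lin_E, c0]⟩
  · exact ⟨E 1, by rw [lin_E, c1]⟩
  · refine ⟨E 2 + l 2 • E 1 + l 4 • E 3 + l 3 • E 4 + l 6 • E 5 + l 5 • E 6, ?_⟩
    simp only [lin_add, threeb2_lin_smul, lin_E, c1, c2, c3, c4, c5, c6]
    funext x
    simp only [Pi.add_apply, Pi.smul_apply, smul_eq_mul]
    linear_combination (-(l 2 * b 1 x + l 4 * b 3 x + l 3 * b 4 x + l 6 * b 5 x + l 5 * b 6 x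
      + l 3 * l 4 * b 1 x + l 5 * l 6 * b 1 x)) * two
  · refine ⟨E 3 + l 3 • E 1, ?_⟩
    simp only [lin_add, threeb2_lin_smul, lin_E, c1, c3]
    funext x
    simp only [Pi.add_apply, Pi.smul_apply, smul_eq_mul]
    linear_combination (-(l 3 * b 1 x)) * two
  · refine ⟨E 4 + l 4 • E 1, ?_⟩
    simp only [lin_add, threeb2_lin_smul, lin_E, c1, c4]
    funext x
    simp only [Pi.add_apply, Pi.smul_apply, smul_eq_mul]
    linear_combination (-(l 4 * b 1 x)) * two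
  · refine ⟨E 5 + l 5 • E 1, ?_⟩
    simp only [lin_add, threeb2_lin_smul, lin_E, c1, c5]
    funext x
    simp only [Pi.add_apply, Pi.smul_apply, smul_eq_mul]
    linear_combination (-(l 5 * b 1 x)) * two
  · refine ⟨E 6 + l 6 • E 1, ?_⟩
    simp only [lin_add, threeb2_lin_smul, lin_E, c1, c6]
    funext x
    simp only [Pi.add_apply, Pi.smul_apply, smul_eq_mul]
    linear_combination (-(l 6 * b 1 x)) * two
  · exact ⟨E 7, by rw [lin_E, c7]⟩
  · exact ⟨E 8, by rw [lin_E, c8]⟩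

/-- the case `l 1 = 1` -/
theorem threeb2_main {T T' : V → V → V → ZMod 2} (h : Good T T') {b c : Fin 9 → V}
    (hbc : IsDual b c) (h0 : ∀ i j, T (b 0) (b i) (b j) = std 3 i j)
    (hl : T (b 7) (b 8) (b 1) = 1) :
    ∃ b' c' : Fin 9 → V, IsDual b' c' ∧ (∀ i j, T (b' 0) (b' i) (b' j) = std 3 i j) ∧
      T (b' 7) (b' 8) (b' 1) = 1 ∧ ∀ k : Fin 9, k ≠ 1 → T (b' 7) (b' 8) (b' k) = 0 := by
  have two : (2 : ZMod 2) = 0 := rfl
  set l : Fin 9 → ZMod 2 := fun k => T (b 7) (b 8) (b k) with hldef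
  have hle : ∀ k, T (b 7) (b 8) (b k) = l k := fun k => rfl
  obtain ⟨c', hc'⟩ := exists_dual_of_span hbc (threeb2_new b l) (threeb2_span b l)
  have c0 : threeb2_new b l 0 = b 0 := rfl
  have c1 : threeb2_new b l 1 = b 1 := rfl
  have c2 : threeb2_new b l 2 =
    b 2 + l 2 • b 1 + l 4 • b 3 + l 3 • b 4 + l 6 • b 5 + l 5 • b 6 := rfl
  have c3 : threeb2_new b l 3 = b 3 + l 3 • b 1 := rfl
  have c4 : threeb2_new b l 4 = b 4 + l 4 • b 1 := rfl
  have c5 : threeb2_new b l 5 = b 5 + l 5 • b 1 := rfl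
  have c6 : threeb2_new b l 6 = b 6 + l 6 • b 1 := rfl
  have c7 : threeb2_new b l 7 = b 7 := rfl
  have c8 : threeb2_new b l 8 = b 8 := rfl
  have hl1 : l 1 = 1 := hl
  have hl0 : l 0 = 0 := by
    show T (b 7) (b 8) (b 0) = 0
    rw [h.tri.sw23, h.tri.sw12, h0]; decide
  have hl7 : l 7 = 0 := by
    show T (b 7) (b 8) (b 7) = 0
    rw [h.tri.sw23, h.tri.alt]
  have hl8 : l 8 = 0 := by
    show T (b 7) (b 8) (b 8) = 0
    exact threeb2_alt23 h.tri _ _
  refine ⟨threeb2_new b l, c', hc', ?_, ?_, ?_⟩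
  · -- Gram matrix
    have hsymm : ∀ i j, T (threeb2_new b l 0) (threeb2_new b l i) (threeb2_new b l j)
        = T (threeb2_new b l 0) (threeb2_new b l j) (threeb2_new b l i) := by
      intro i j; rw [h.tri.sw23]
    have hstd : ∀ i j : Fin 9, std 3 i j = std 3 j i := by decide
    have hdiag : ∀ i, T (threeb2_new b l 0) (threeb2_new b l i) (threeb2_new b l i) = 0 :=
      fun i => threeb2_alt23 h.tri _ _
    have hlt : ∀ i j : Fin 9, i < j →
        T (threeb2_new b l 0) (threeb2_new b l i) (threeb2_new b l j) = std 3 i j := by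
      intro i j hij
      have hi : i = 0 ∨ i = 1 ∨ i = 2 ∨ i = 3 ∨ i = 4 ∨ i = 5 ∨ i = 6 ∨ i = 7 := by
        revert hij; revert j; revert i; decide
      have hj : j = 1 ∨ j = 2 ∨ j = 3 ∨ j = 4 ∨ j = 5 ∨ j = 6 ∨ j = 7 ∨ j = 8 := by
        revert hij; revert i; revert j; decide
      rcases hi with rfl | rfl | rfl | rfl | rfl | rfl | rfl | rfl <;>
      rcases hj with rfl | rfl | rfl | rfl | rfl | rfl | rfl | rfl <;>
      first
      | exact absurd hij (by decide)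
      | (simp only [c0, c1, c7, c8, h0]; done)
      | (simp only [c0, c1, c2, c3, c4, c5, c6, c7, c8, threeb2_add2 h.tri, threeb2_smul2 h.tri,
          threeb2_add3 h.tri, threeb2_smul3 h.tri, h0]
         simp [std]
         done)
      | (simp only [c0, c1, c2, c3, c4, c5, c6, c7, c8, threeb2_add2 h.tri, threeb2_smul2 h.tri,
          threeb2_add3 h.tri, threeb2_smul3 h.tri, h0]
         simp [std]
         exact add_self_zmod2 _)
    intro i j
    rcases lt_trichotomy i j with hij | hij | hij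
    · exact hlt i j hij
    · subst hij
      rw [hdiag]
      revert i; decide
    · rw [hsymm, hstd, hlt j i hij]
  · rw [c7, c8, c1]; exact hl
  · intro k hk
    have hk' : k = 0 ∨ k = 2 ∨ k = 3 ∨ k = 4 ∨ k = 5 ∨ k = 6 ∨ k = 7 ∨ k = 8 := by
      revert hk; clear hle; revert k; decide
    rcases hk' with rfl | rfl | rfl | rfl | rfl | rfl | rfl | rfl
    · rw [c7, c8, c0, hle, hl0]
    · rw [c7, c8, c2]
      simp only [threeb2_add3 h.tri, threeb2_smul3 h.tri, hle, hl1]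
      linear_combination (l 2 + l 3 * l 4 + l 5 * l 6) * two
    · rw [c7, c8, c3]
      simp only [threeb2_add3 h.tri, threeb2_smul3 h.tri, hle, hl1]
      linear_combination (l 3) * two
    · rw [c7, c8, c4]
      simp only [threeb2_add3 h.tri, threeb2_smul3 h.tri, hle, hl1]
      linear_combination (l 4) * two
    · rw [c7, c8, c5]
      simp only [threeb2_add3 h.tri, threeb2_smul3 h.tri, hle, hl1]
      linear_combination (l 5) * two
    · rw [c7, c8, c6]
      simp only [threeb2_add3 h.tri, threeb2_smul3 h.tri, hle, hl1]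
      linear_combination (l 6) * two
    · rw [c7, c8, hle, hl7]
    · rw [c7, c8, hle, hl8]

/-- normalisation of the linear form `T (b 7) (b 8) ·` -/
theorem threeB_basis {T T' : V → V → V → ZMod 2} (h : Good T T') {b c : Fin 9 → V}
    (hbc : IsDual b c) (h0 : ∀ i j, T (b 0) (b i) (b j) = std 3 i j)
    (hl : ∃ k, T (b 7) (b 8) (b k) ≠ 0) :
    ∃ b' c' : Fin 9 → V, IsDual b' c' ∧ (∀ i j, T (b' 0) (b' i) (b' j) = std 3 i j) ∧
      T (b' 7) (b' 8) (b' 1) = 1 ∧ ∀ k : Fin 9, k ≠ 1 → T (b' 7) (b' 8) (b' k) = 0 := by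
  obtain ⟨k, hk⟩ := hl
  have hk0 : k ≠ 0 := by
    rintro rfl
    apply hk
    rw [h.tri.sw23, h.tri.sw12, h0]; decide
  have hk7 : k ≠ 7 := by
    rintro rfl
    apply hk
    rw [h.tri.sw23, h.tri.alt]
  have hk8 : k ≠ 8 := by
    rintro rfl
    exact hk (threeb2_alt23 h.tri _ _)
  obtain ⟨p, hp, p0, p7, p8, p1, hstd⟩ := threeb2_perm k hk0 hk7 hk8
  refine threeb2_main h (hbc.perm p hp) ?_ ?_
  · intro i j
    show T (b (p 0)) (b (p i)) (b (p j)) = _
    rw [p0, h0, hstd]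
  · show T (b (p 7)) (b (p 8)) (b (p 1)) = 1
    rw [p7, p8, p1]
    exact (zmod2_cases _).resolve_left hk

end Pool.Agent.H.MP_694475_co
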