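import Pool.Agent.H.MP_694475_co.ThreeB1
import Pool.Agent.H.MP_694475_co.ThreeB2

/-! Rank 6, second case. -/

open Finset

namespace Pool.Agent.H.MP_694475_co

theorem threeb_sum3 {T : V → V → V → ZMod 2} (h : IsTri T) (u v : V) (b : Fin 9 → V)
    (a : Fin 9 → ZMod 2) (s : Finset (Fin 9)) :
    T u v (∑ i ∈ s, a i • b i) = ∑ i ∈ s, a i * T u v (b i) := by
  induction s using Finset.induction_on with
  | empty =>
    rw [Finset.sum_empty, Finset.sum_empty, h.sw23, h.sw12, threeb2_zero1 h]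
  | insert j s hj ih =>
    rw [Finset.sum_insert hj, Finset.sum_insert hj, threeb2_add3 h, threeb2_smul3 h, ih]

theorem threeb_rad {T : V → V → V → ZMod 2} (h : IsTri T) {b c : Fin 9 → V}
    (hbc : IsDual b c) (v w : V) (hw : ∀ i, T v w (b i) = 0) (u : V) : T v w u = 0 := by
  rw [hbc.expand u, threeb_sum3 h]
  exact Finset.sum_eq_zero fun i _ => by rw [hw i, mul_zero]

theorem threeb_pf : ∀ c34 c35 c36 c45 c46 c56 : ZMod 2, c34 * c56 + c35 * c46 + c36 * c45 = 0 →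
    ∃ u3 u4 u5 u6 : ZMod 2, (u3 = 1 ∨ u4 = 1 ∨ u5 = 1 ∨ u6 = 1) ∧
      u4 * c34 + u5 * c35 + u6 * c36 = 0 ∧ u3 * c34 + u5 * c45 + u6 * c46 = 0 ∧
      u3 * c35 + u4 * c45 + u6 * c56 = 0 ∧ u3 * c36 + u4 * c46 + u5 * c56 = 0 := by
  decide

theorem threeb_pfp : ∀ x y a b c d : ZMod 2, x = y →
    (x * y + a * b + c * d + x) * (x * y + a * b + c * d + y) + a * b + c * d = 0 := by
  decide

theorem threeb_dot_smul (x y : V) (a : ZMod 2) : dot x (a • y) = a * dot x y := by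
  unfold dot
  rw [Finset.mul_sum]
  exact Finset.sum_congr rfl fun i _ => by rw [Pi.smul_apply, smul_eq_mul]; ring

theorem threeb_card {b c : Fin 9 → V} (hbc : IsDual b c) (s r u3 u4 u5 u6 : ZMod 2)
    (hu : u3 = 1 ∨ u4 = 1 ∨ u5 = 1 ∨ u6 = 1) (P : V → Prop) [DecidablePred P]
    (hP : ∀ x0 x1 x2 x3 : ZMod 2, P (x0 • b 0 + x1 • b 7 + x2 • (b 2 + s • b 8)
      + x3 • (u3 • b 3 + u4 • b 4 + u5 • b 5 + u6 • b 6 + r • b 8))) :
    16 ≤ (univ.filter P).card := by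
  let f : ZMod 2 × ZMod 2 × ZMod 2 × ZMod 2 → V := fun x =>
    x.1 • b 0 + x.2.1 • b 7 + x.2.2.1 • (b 2 + s • b 8)
      + x.2.2.2 • (u3 • b 3 + u4 • b 4 + u5 • b 5 + u6 • b 6 + r • b 8)
  have hd : ∀ k x, dot (c k) (f x) = x.1 * (if k = 0 then 1 else 0) + x.2.1 * (if k = 7 then 1 else 0)
      + x.2.2.1 * ((if k = 2 then 1 else 0) + s * (if k = 8 then 1 else 0))
      + x.2.2.2 * (u3 * (if k = 3 then 1 else 0) + u4 * (if k = 4 then 1 else 0)
        + u5 * (if k = 5 then 1 else 0) + u6 * (if k = 6 then 1 else 0)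
        + r * (if k = 8 then 1 else 0)) := by
    intro k x
    show dot (c k) (x.1 • b 0 + x.2.1 • b 7 + x.2.2.1 • (b 2 + s • b 8)
      + x.2.2.2 • (u3 • b 3 + u4 • b 4 + u5 • b 5 + u6 • b 6 + r • b 8)) = _
    simp only [dot_add_right, threeb_dot_smul, hbc k]
  have hinj : Function.Injective f := by
    intro x y hxy
    have h0 : dot (c 0) (f x) = dot (c 0) (f y) := by rw [hxy]
    have h2 : dot (c 2) (f x) = dot (c 2) (f y) := by rw [hxy]
    have h7 : dot (c 7) (f x) = dot (c 7) (f y) := by rw [hxy]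
    have h3 : dot (c 3) (f x) = dot (c 3) (f y) := by rw [hxy]
    have h4 : dot (c 4) (f x) = dot (c 4) (f y) := by rw [hxy]
    have h5 : dot (c 5) (f x) = dot (c 5) (f y) := by rw [hxy]
    have h6 : dot (c 6) (f x) = dot (c 6) (f y) := by rw [hxy]
    rw [hd, hd] at h0 h2 h7 h3 h4 h5 h6
    simp at h0 h2 h7 h3 h4 h5 h6
    have e3 : x.2.2.2 = y.2.2.2 := by
      rcases hu with hu | hu | hu | hu
      · subst hu; simpa using h3
      · subst hu; simpa using h4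
      · subst hu; simpa using h5
      · subst hu; simpa using h6
    exact Prod.ext h0 (Prod.ext h7 (Prod.ext h2 e3))
  have hcard : (univ : Finset (ZMod 2 × ZMod 2 × ZMod 2 × ZMod 2)).card = 16 := by
    simp [Finset.card_univ, Fintype.card_prod, ZMod.card]
  rw [← hcard]
  apply Finset.card_le_card_of_injOn f
  · intro x _
    rw [Finset.mem_coe, Finset.mem_filter]
    exact ⟨Finset.mem_univ _, hP _ _ _ _⟩
  · intro x _ y _ hxy
    exact hinj hxy

theorem threeb_std {T T' : V → V → V → ZMod 2} (h : Good T T') {b c : Fin 9 → V}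
    (hbc : IsDual b c) (h0 : ∀ i j, T (b 0) (b i) (b j) = std 3 i j)
    (h1 : T (b 7) (b 8) (b 1) = 1) (hl : ∀ k : Fin 9, k ≠ 1 → T (b 7) (b 8) (b k) = 0) :
    ∃ v : V, v ≠ 0 ∧ 16 ≤ (univ.filter (fun w => ∀ u, T v w u = 0)).card := by
  have two : (2 : ZMod 2) = 0 := rfl
  have ht := h.tri
  obtain ⟨hr1, hr2⟩ := threeB_rel (h.rel hbc) h0 h1 hl
  have r23 : T (b 7) (b 2) (b 3) = 0 := hr1 7 (Or.inl rfl) 3 (by decide) (by decide)
  have r24 : T (b 7) (b 2) (b 4) = 0 := hr1 7 (Or.inl rfl) 4 (by decide) (by decide)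
  have r25 : T (b 7) (b 2) (b 5) = 0 := hr1 7 (Or.inl rfl) 5 (by decide) (by decide)
  have r26 : T (b 7) (b 2) (b 6) = 0 := hr1 7 (Or.inl rfl) 6 (by decide) (by decide)
  have r34 : T (b 7) (b 3) (b 4) = T (b 7) (b 5) (b 6) := hr2 7 (Or.inl rfl)
  clear hr1 hr2
  -- values of T (b 7)
  have e70 : ∀ i, T (b 7) (b i) (b 0) = 0 := by
    intro i
    rw [ht.sw23, ht.sw12, h0]
    revert i; decide
  have e77 : ∀ i, T (b 7) (b i) (b 7) = 0 := by
    intro i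
    rw [ht.sw23, ht.alt]
  have e00 : ∀ i, T (b 0) (b i) (b 0) = 0 := by
    intro i
    rw [ht.sw23, ht.alt]
  have e78 : ∀ i : Fin 9, i ≠ 1 → T (b 7) (b i) (b 8) = 0 := by
    intro i hi
    rw [ht.sw23, hl i hi]
  have e87 : ∀ i j, T (b 7) (b i) (b j) = T (b 7) (b j) (b i) := by
    intro i j; rw [ht.sw23]
  have eii : ∀ i, T (b 7) (b i) (b i) = 0 := fun i => threeb2_alt23 ht _ _
  obtain ⟨p, hp⟩ : ∃ p, p = T (b 7) (b 3) (b 4) * T (b 7) (b 5) (b 6)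
    + T (b 7) (b 3) (b 5) * T (b 7) (b 4) (b 6) + T (b 7) (b 3) (b 6) * T (b 7) (b 4) (b 5) :=
    ⟨_, rfl⟩
  -- the form B
  have hB : ∀ i j, T (p • b 0 + b 7) (b i) (b j) = p * std 3 i j + T (b 7) (b i) (b j) := by
    intro i j
    rw [ht.add, threeb2_smul1 ht, h0]
  obtain ⟨u3, u4, u5, u6, hu, k3, k4, k5, k6⟩ := threeb_pf
    (p + T (b 7) (b 3) (b 4)) (T (b 7) (b 3) (b 5)) (T (b 7) (b 3) (b 6))
    (T (b 7) (b 4) (b 5)) (T (b 7) (b 4) (b 6)) (p + T (b 7) (b 5) (b 6))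
    (by rw [hp]; exact threeb_pfp _ _ _ _ _ _ r34)
  have hv0 : p • b 0 + b 7 ≠ 0 := by
    intro hv
    have h2 : dot (c 7) (p • b 0 + b 7) = 0 := by rw [hv, dot_zero_right]
    rw [dot_add_right, threeb_dot_smul, hbc, hbc] at h2
    simp at h2
  obtain ⟨s, hs⟩ : ∃ s, s = T (p • b 0 + b 7) (b 2) (b 1) := ⟨_, rfl⟩
  obtain ⟨r, hr⟩ : ∃ r, r = u3 * T (p • b 0 + b 7) (b 3) (b 1)
    + u4 * T (p • b 0 + b 7) (b 4) (b 1) + u5 * T (p • b 0 + b 7) (b 5) (b 1)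
    + u6 * T (p • b 0 + b 7) (b 6) (b 1) := ⟨_, rfl⟩
  have hc9 : ∀ i : Fin 9, i = 0 ∨ i = 1 ∨ i = 2 ∨ i = 3 ∨ i = 4 ∨ i = 5 ∨ i = 6 ∨ i = 7 ∨ i = 8 := by
    decide
  have B81 : T (p • b 0 + b 7) (b 8) (b 1) = 1 := by
    rw [hB, h1, show std 3 8 1 = 0 by decide]; ring
  have B8 : ∀ i : Fin 9, i ≠ 1 → T (p • b 0 + b 7) (b 8) (b i) = 0 := by
    intro i hi
    rw [hB, hl i hi, show std 3 8 i = 0 by revert i; decide]; ring
  have Bi8 : ∀ i : Fin 9, i ≠ 1 → T (p • b 0 + b 7) (b i) (b 8) = 0 := by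
    intro i hi
    rw [ht.sw23, B8 i hi]
  have Bi0 : ∀ i : Fin 9, T (p • b 0 + b 7) (b i) (b 0) = 0 := by
    intro i
    rw [hB, e70, show std 3 i 0 = 0 by revert i; decide]; ring
  have Bi7 : ∀ i : Fin 9, T (p • b 0 + b 7) (b i) (b 7) = 0 := by
    intro i
    rw [hB, e77, show std 3 i 7 = 0 by revert i; decide]; ring
  have B0i : ∀ i : Fin 9, T (p • b 0 + b 7) (b 0) (b i) = 0 := by
    intro i; rw [ht.sw23, Bi0]
  have B7i : ∀ i : Fin 9, T (p • b 0 + b 7) (b 7) (b i) = 0 := by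
    intro i; rw [ht.sw23, Bi7]
  have Bii : ∀ i : Fin 9, T (p • b 0 + b 7) (b i) (b i) = 0 := fun i => threeb2_alt23 ht _ _
  have B23 : T (p • b 0 + b 7) (b 2) (b 3) = 0 := by
    rw [hB, r23, show std 3 2 3 = 0 by decide]; ring
  have B24 : T (p • b 0 + b 7) (b 2) (b 4) = 0 := by
    rw [hB, r24, show std 3 2 4 = 0 by decide]; ring
  have B25 : T (p • b 0 + b 7) (b 2) (b 5) = 0 := by
    rw [hB, r25, show std 3 2 5 = 0 by decide]; ring
  have B26 : T (p • b 0 + b 7) (b 2) (b 6) = 0 := by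
    rw [hB, r26, show std 3 2 6 = 0 by decide]; ring
  have B32 : T (p • b 0 + b 7) (b 3) (b 2) = 0 := by rw [ht.sw23, B23]
  have B42 : T (p • b 0 + b 7) (b 4) (b 2) = 0 := by rw [ht.sw23, B24]
  have B52 : T (p • b 0 + b 7) (b 5) (b 2) = 0 := by rw [ht.sw23, B25]
  have B62 : T (p • b 0 + b 7) (b 6) (b 2) = 0 := by rw [ht.sw23, B26]
  have B34 : T (p • b 0 + b 7) (b 3) (b 4) = p + T (b 7) (b 3) (b 4) := by
    rw [hB, show std 3 3 4 = 1 by decide]; ring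
  have B56 : T (p • b 0 + b 7) (b 5) (b 6) = p + T (b 7) (b 5) (b 6) := by
    rw [hB, show std 3 5 6 = 1 by decide]; ring
  have B35 : T (p • b 0 + b 7) (b 3) (b 5) = T (b 7) (b 3) (b 5) := by
    rw [hB, show std 3 3 5 = 0 by decide]; ring
  have B36 : T (p • b 0 + b 7) (b 3) (b 6) = T (b 7) (b 3) (b 6) := by
    rw [hB, show std 3 3 6 = 0 by decide]; ring
  have B45 : T (p • b 0 + b 7) (b 4) (b 5) = T (b 7) (b 4) (b 5) := by
    rw [hB, show std 3 4 5 = 0 by decide]; ring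
  have B46 : T (p • b 0 + b 7) (b 4) (b 6) = T (b 7) (b 4) (b 6) := by
    rw [hB, show std 3 4 6 = 0 by decide]; ring
  have B43 : T (p • b 0 + b 7) (b 4) (b 3) = p + T (b 7) (b 3) (b 4) := by rw [ht.sw23, B34]
  have B65 : T (p • b 0 + b 7) (b 6) (b 5) = p + T (b 7) (b 5) (b 6) := by rw [ht.sw23, B56]
  have B53 : T (p • b 0 + b 7) (b 5) (b 3) = T (b 7) (b 3) (b 5) := by rw [ht.sw23, B35]
  have B63 : T (p • b 0 + b 7) (b 6) (b 3) = T (b 7) (b 3) (b 6) := by rw [ht.sw23, B36]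
  have B54 : T (p • b 0 + b 7) (b 5) (b 4) = T (b 7) (b 4) (b 5) := by rw [ht.sw23, B45]
  have B64 : T (p • b 0 + b 7) (b 6) (b 4) = T (b 7) (b 4) (b 6) := by rw [ht.sw23, B46]
  generalize p • b 0 + b 7 = v at *
  -- radical vectors
  have R2 : ∀ i, T v (b 2 + s • b 8) (b i) = 0 := by
    intro i
    rw [threeb2_add2 ht, threeb2_smul2 ht]
    rcases hc9 i with rfl | rfl | rfl | rfl | rfl | rfl | rfl | rfl | rfl
    · rw [Bi0, Bi0]; ring
    · rw [B81, ← hs]; linear_combination s * two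
    · rw [Bii, B8 2 (by decide)]; ring
    · rw [B23, B8 3 (by decide)]; ring
    · rw [B24, B8 4 (by decide)]; ring
    · rw [B25, B8 5 (by decide)]; ring
    · rw [B26, B8 6 (by decide)]; ring
    · rw [Bi7, Bi7]; ring
    · rw [Bi8 2 (by decide), Bii]; ring
  have R3 : ∀ i, T v (u3 • b 3 + u4 • b 4 + u5 • b 5 + u6 • b 6 + r • b 8) (b i) = 0 := by
    intro i
    rw [threeb2_add2 ht, threeb2_add2 ht, threeb2_add2 ht, threeb2_add2 ht, threeb2_smul2 ht,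
      threeb2_smul2 ht, threeb2_smul2 ht, threeb2_smul2 ht, threeb2_smul2 ht]
    rcases hc9 i with rfl | rfl | rfl | rfl | rfl | rfl | rfl | rfl | rfl
    · rw [Bi0, Bi0, Bi0, Bi0, Bi0]; ring
    · rw [B81, ← hr]; linear_combination r * two
    · rw [B32, B42, B52, B62, B8 2 (by decide)]; ring
    · rw [Bii, B43, B53, B63, B8 3 (by decide)]; linear_combination k3
    · rw [B34, Bii, B54, B64, B8 4 (by decide)]; linear_combination k4
    · rw [B35, B45, Bii, B65, B8 5 (by decide)]; linear_combination k5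
    · rw [B36, B46, B56, Bii, B8 6 (by decide)]; linear_combination k6
    · rw [Bi7, Bi7, Bi7, Bi7, Bi7]; ring
    · rw [Bi8 3 (by decide), Bi8 4 (by decide), Bi8 5 (by decide), Bi8 6 (by decide), Bii]; ring
  refine ⟨v, hv0, ?_⟩
  apply threeb_card hbc s r u3 u4 u5 u6 hu
  intro x0 x1 x2 x3
  apply threeb_rad ht hbc
  intro i
  rw [threeb2_add2 ht, threeb2_add2 ht, threeb2_add2 ht, threeb2_smul2 ht,
      threeb2_smul2 ht, threeb2_smul2 ht, threeb2_smul2 ht, B0i, B7i, R2, R3]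
  ring

theorem threeB {T T' : V → V → V → ZMod 2} (h : Good T T') {b c : Fin 9 → V}
    (hbc : IsDual b c) (h0 : ∀ i j, T (b 0) (b i) (b j) = std 3 i j)
    (hl : ∃ k, T (b 7) (b 8) (b k) ≠ 0) :
    ∃ v : V, v ≠ 0 ∧ 16 ≤ (univ.filter (fun w => ∀ u, T v w u = 0)).card := by
  obtain ⟨b', c', hbc', h0', h1', hl'⟩ := threeB_basis h hbc h0 hl
  exact threeb_std h hbc' h0' h1' hl'

end Pool.Agent.H.MP_694475_co
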