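import Pool.Agent.H.MP_694475_co.Symp
import Pool.Agent.H.MP_694475_co.Low
import Pool.Agent.H.MP_694475_co.ThreeA
import Pool.Agent.H.MP_694475_co.ThreeB

/-! Existence of a vector `v` with `T v` of rank 4. -/

open Finset

namespace Pool.Agent.H.MP_694475_co

/-- an additive function which vanishes on a basis vanishes -/
theorem exstd2_zero (φ : V → ZMod 2) (hφ : ∀ u u', φ (u + u') = φ u + φ u')
    {b c : Fin 9 → V} (hbc : IsDual b c) (hz : ∀ i, φ (b i) = 0) (v : V) : φ v = 0 := by
  rw [hbc.expand v]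
  change (AddMonoidHom.mk' φ hφ) _ = 0
  rw [map_sum]
  refine Finset.sum_eq_zero fun i _ => ?_
  rcases zmod2_cases (dot (c i) v) with h | h
  · rw [h, zero_smul, map_zero]
  · rw [h, one_smul]; exact hz i

theorem exstd2_add2 {T : V → V → V → ZMod 2} (h : IsTri T) (v u u' w : V) :
    T v (u + u') w = T v u w + T v u' w := by
  rw [h.sw12, h.add, h.sw12 u, h.sw12 u']

theorem exstd2_add3 {T : V → V → V → ZMod 2} (h : IsTri T) (v w u u' : V) :
    T v w (u + u') = T v w u + T v w u' := by
  rw [h.sw23, exstd2_add2 h, h.sw23 v u, h.sw23 v u']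

theorem exstd2_all_zero {T : V → V → V → ZMod 2} (h : IsTri T) {b c : Fin 9 → V}
    (hbc : IsDual b c) (hz : ∀ i j k, T (b i) (b j) (b k) = 0) (u v w : V) : T u v w = 0 := by
  have h1 : ∀ (i j : Fin 9) (w : V), T (b i) (b j) w = 0 := fun i j w =>
    exstd2_zero (fun w => T (b i) (b j) w) (fun u u' => exstd2_add3 h _ _ _ _) hbc
      (fun k => hz i j k) w
  have h2 : ∀ (i : Fin 9) (v w : V), T (b i) v w = 0 := fun i v w =>
    exstd2_zero (fun v => T (b i) v w) (fun u u' => exstd2_add2 h _ _ _ _) hbc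
      (fun j => h1 i j w) v
  exact exstd2_zero (fun u => T u v w) (fun u u' => h.add _ _ _ _) hbc (fun i => h2 i v w) u

theorem exstd2_cases {T T' : V → V → V → ZMod 2} (h : Good T T')
    (hT : ∃ u v w, T u v w ≠ 0) (v : V) (hv : v ≠ 0) :
    ∃ b c : Fin 9 → V, IsDual b c ∧ ∃ k : ℕ, 2 ≤ k ∧ k ≤ 4 ∧
      (∀ i j, T (b 0) (b i) (b j) = std k i j) ∧
      (univ.filter (fun w => ∀ u, T v w u = 0)).card = 2 ^ (9 - 2 * k) := by
  obtain ⟨b, c, hbc, hb0, k, hk, hst⟩ := symp (T v) (fun u u' w => exstd2_add2 h.tri v u u' w)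
    (fun u w => h.tri.sw23 v u w)
    (fun u => by rw [h.tri.sw12, h.tri.sw23]; exact h.tri.alt u v) v hv (fun w => h.tri.alt v w)
  have hrad := std_radical (T v) (fun u u' w => exstd2_add2 h.tri v u u' w)
    (fun u w => h.tri.sw23 v u w) hbc k hk hst
  have h0 : ∀ i j, T (b 0) (b i) (b j) = std k i j := by
    intro i j; rw [hb0]; exact hst i j
  refine ⟨b, c, hbc, k, ?_, hk, h0, hrad⟩
  by_contra hlt
  push Not at hlt
  have hrel := h.rel hbc
  interval_cases k
  · obtain ⟨u, v', w, hne⟩ := hT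
    exact hne (exstd2_all_zero h.tri hbc (fun i j k => rel_std0 hrel h0 i j k) u v' w)
  · exact rel_std1 hrel h0

theorem exists_std2 {T T' : V → V → V → ZMod 2} (h : Good T T')
    (hT : ∃ u v w, T u v w ≠ 0) (hs : ∃ v w : V, v ≠ 0 ∧ w ≠ 0 ∧ v ≠ w ∧ ∀ u, T v w u = 0) :
    ∃ b c : Fin 9 → V, IsDual b c ∧ ∀ i j, T (b 0) (b i) (b j) = std 2 i j := by
  have key : ∀ v : V, v ≠ 0 → 16 ≤ (univ.filter (fun w => ∀ u, T v w u = 0)).card →
      ∃ b c : Fin 9 → V, IsDual b c ∧ ∀ i j, T (b 0) (b i) (b j) = std 2 i j := by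
    intro v hv h16
    obtain ⟨b, c, hbc, k, hk2, hk4, h0, hcard⟩ := exstd2_cases h hT v hv
    rw [hcard] at h16
    have hk : k = 2 := by
      interval_cases k
      · rfl
      · norm_num at h16
      · norm_num at h16
    subst hk
    exact ⟨b, c, hbc, h0⟩
  obtain ⟨v, w, hv, hw, hvw, hz⟩ := hs
  obtain ⟨b, c, hbc, k, hk2, hk4, h0, hcard⟩ := exstd2_cases h hT v hv
  have h4 : 4 ≤ (univ.filter (fun w => ∀ u, T v w u = 0)).card := by
    have hsub : ({0, v, w, v + w} : Finset V) ⊆ univ.filter (fun w => ∀ u, T v w u = 0) := by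
      intro x hx
      simp only [Finset.mem_insert, Finset.mem_singleton] at hx
      rw [Finset.mem_filter]
      refine ⟨Finset.mem_univ _, fun u => ?_⟩
      have hvz : T v 0 u = 0 := by
        have h1 := exstd2_add2 h.tri v 0 0 u
        rw [add_zero] at h1
        rw [h1]; exact add_self_zmod2 _
      rcases hx with rfl | rfl | rfl | rfl
      · exact hvz
      · exact h.tri.alt _ _
      · exact hz u
      · rw [exstd2_add2 h.tri, h.tri.alt, hz u, add_zero]
    refine le_trans ?_ (Finset.card_le_card hsub)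
    have hne1 : v + w ≠ 0 := by
      intro h1
      apply hvw
      have h2 := add_add_cancel_V v w
      rw [h1, zero_add] at h2
      exact h2.symm
    rw [Finset.card_insert_of_notMem, Finset.card_insert_of_notMem, Finset.card_insert_of_notMem,
      Finset.card_singleton]
    · rw [Finset.mem_singleton]
      intro h1
      exact hv (right_eq_add.mp h1)
    · rw [Finset.mem_insert, Finset.mem_singleton]
      rintro (h1 | h1)
      · exact hvw h1
      · exact hw (left_eq_add.mp h1)
    · rw [Finset.mem_insert, Finset.mem_insert, Finset.mem_singleton]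
      rintro (h1 | h1 | h1)
      · exact hv h1.symm
      · exact hw h1.symm
      · exact hne1 h1.symm
  rw [hcard] at h4
  have hk : k = 2 ∨ k = 3 := by
    interval_cases k
    · left; rfl
    · right; rfl
    · norm_num at h4
  rcases hk with hk | hk
  · subst hk
    exact ⟨b, c, hbc, h0⟩
  · subst hk
    by_cases hl : ∀ k, T (b 7) (b 8) (b k) = 0
    · obtain ⟨v', hv', h16⟩ := threeA h hbc h0 hl
      exact key v' hv' h16
    · push Not at hl
      obtain ⟨v', hv', h16⟩ := threeB h hbc h0 hl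
      exact key v' hv' h16

end Pool.Agent.H.MP_694475_co
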