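import Pool.Agent.H.MP_694475_co.PairDef

/-! Coefficient relations between the members of a pair, in coordinates. -/

open Finset

namespace Pool.Agent.H.MP_694475_co

private theorem pairf1_val {e d : V → ZMod 2} (h : Pair e d) (x : V) :
    ∃ t : ℤ, WT (chi e) x = 16 - 32 * ((d x).val : ℤ) + 64 * t := by
  have hs : sgn (d x) = 1 - 2 * ((d x).val : ℤ) := by
    generalize d x = a
    revert a; decide
  rcases h.h1 x with h1 | h1
  · exact ⟨0, by rw [h1, hs]; ring⟩
  · refine ⟨-sgn (d x), ?_⟩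
    rw [h1, hs]; ring

theorem Pair.coef3 {e d : V → ZMod 2} (h : Pair e d) (K : Finset (Fin 9)) (hK : K.card = 3) :
    coef K d = cov 2 Kᶜ e := by
  choose t ht using pairf1_val h
  have hKc : Kᶜ.card = 6 := by rw [Finset.card_compl, hK]; rfl
  obtain ⟨m, hm, hmc⟩ := csum6 h.he Kᶜ hKc
  have h1 := csum_WT K (chi e)
  rw [hm, hK] at h1
  have h2 : csum K (WT (chi e)) = 128 - 32 * ∑ x ∈ cube K, ((d x).val : ℤ)
      + 64 * ∑ x ∈ cube K, t x := by
    unfold csum
    rw [Finset.sum_congr rfl (fun x _ => ht x), Finset.sum_add_distrib, Finset.sum_sub_distrib,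
      ← Finset.mul_sum, ← Finset.mul_sum, Finset.sum_const, card_cube, hK]
    norm_num
  have h3 : m = 4 - ∑ x ∈ cube K, ((d x).val : ℤ) + 2 * ∑ x ∈ cube K, t x := by
    rw [h2] at h1
    linarith
  rw [← hmc, h3]
  unfold coef
  push_cast
  have h20 : (2 : ZMod 2) = 0 := by decide
  have h40 : (4 : ZMod 2) = 0 := by decide
  rw [h20, h40]
  have h5 : ∀ a : ZMod 2, 0 - a + 0 * (∑ x ∈ cube K, (t x : ZMod 2)) = a := by
    intro a
    rw [zero_mul, add_zero]
    revert a; decide
  rw [h5]
  refine Finset.sum_congr rfl fun x _ => ?_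
  exact (ZMod.natCast_zmod_val (d x)).symm

private theorem pairf1_csum_univ {e d : V → ZMod 2} (_h : Pair e d) :
    csum univ (chi e) = WT (chi e) 0 := by
  unfold csum WT
  rw [cube_univ]
  refine Finset.sum_congr rfl fun a _ => ?_
  simp

private theorem pairf1_cases {e d : V → ZMod 2} (h : Pair e d) (x : V) :
    WT (chi e) x = 16 ∨ WT (chi e) x = -16 ∨ WT (chi e) x = 48 ∨ WT (chi e) x = -48 := by
  rcases h.h1 x with h1 | h1 <;> rcases sgn_eq_or (d x) with h2 | h2 <;> rw [h2] at h1 <;>
    norm_num at h1 <;> simp [h1]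

theorem Pair.cov_univ {e d : V → ZMod 2} (h : Pair e d) : cov 3 univ e = 0 := by
  obtain ⟨m, hm, hmc⟩ := csum89 h.he univ (by simp)
  rw [pairf1_csum_univ h] at hm
  rw [← hmc]
  have h2 : (2 : ℤ) ∣ m := by
    rcases pairf1_cases h 0 with h1 | h1 | h1 | h1 <;> omega
  exact (ZMod.intCast_zmod_eq_zero_iff_dvd m 2).mpr (by exact_mod_cast h2)

private theorem pairf1_cube1 (i : Fin 9) : cube {i} = {0, E i} := by
  ext a
  unfold cube
  simp only [Finset.mem_filter, Finset.mem_univ, true_and, Finset.mem_singleton,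
    Finset.mem_insert]
  constructor
  · intro h
    rcases zmod2_cases (a i) with h0 | h1
    · left
      funext j
      by_cases hj : j = i
      · rw [hj]; exact h0
      · exact h j hj
    · right
      funext j
      by_cases hj : j = i
      · rw [hj]; simp [E, h1]
      · rw [h j hj]; simp [E, hj]
  · rintro (h | h) j hj
    · rw [h]; rfl
    · rw [h]; simp [E, hj]

private theorem pairf1_E_ne (i : Fin 9) : (0 : V) ≠ E i := by
  intro h
  have := congrFun h i
  simp [E] at this

theorem Pair.cov8 {e d : V → ZMod 2} (h : Pair e d) (i : Fin 9) : cov 3 {i}ᶜ e = 0 := by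
  have hc : ({i}ᶜ : Finset (Fin 9)).card = 8 := by rw [Finset.card_compl]; simp
  obtain ⟨m, hm, hmc⟩ := csum89 h.he {i}ᶜ (by omega)
  have h1 := csum_WT {i} (chi e)
  rw [hm] at h1
  have h2 : csum {i} (WT (chi e)) = WT (chi e) 0 + WT (chi e) (E i) := by
    unfold csum
    rw [pairf1_cube1, Finset.sum_pair (pairf1_E_ne i)]
  rw [h2] at h1
  simp only [Finset.card_singleton, pow_one] at h1
  rw [← hmc]
  have h3 : (2 : ℤ) ∣ m := by
    rcases pairf1_cases h 0 with h4 | h4 | h4 | h4 <;>
      rcases pairf1_cases h (E i) with h5 | h5 | h5 | h5 <;> omega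
  exact (ZMod.intCast_zmod_eq_zero_iff_dvd m 2).mpr (by exact_mod_cast h3)

/-- a pair has a nonzero cubic coefficient -/
theorem Pair.exists_coef {e d : V → ZMod 2} (h : Pair e d) :
    ∃ K : Finset (Fin 9), K.card = 3 ∧ coef K e ≠ 0 := by
  by_contra hcon
  push Not at hcon
  have hdeg : DegLT 3 e := by
    apply DegLT_of_coef
    intro K hK
    rcases Nat.lt_or_ge K.card 4 with h4 | h4
    · exact hcon K (by omega)
    · exact coef_eq_zero h.he K h4
  have h1 := csum_chi_dvd_quad hdeg
  rw [pairf1_csum_univ h] at h1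
  rcases pairf1_cases h 0 with h2 | h2 | h2 | h2 <;> rw [h2] at h1 <;> revert h1 <;> decide

end Pool.Agent.H.MP_694475_co
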