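import Pool.Agent.H.MP_694475_co.TriForm
import Pool.Agent.H.MP_694475_co.PairF1
import Pool.Agent.H.MP_694475_co.CovComb

/-! Linear equations for the quadratic coefficients, family 1. -/

open Finset

namespace Pool.Agent.H.MP_694475_co

/-- the cubic monomials of family 1 -/
def fameq1_C : Finset (Finset (Fin 9)) :=
  {{0,1,2}, {0,3,4}, {1,5,6}, {2,7,8}, {3,5,7}, {4,6,8}}

/-- number of `m`-subsets of the list with union `W` -/
def fameq1_c (m : ℕ) (W : Finset (Fin 9)) : ℕ :=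
  ((fameq1_C.powersetCard m).filter (fun A => A.sup id = W)).card

theorem fameq1_mem_C : ∀ i j k : Fin 9, i < j → j < k →
    (({i, j, k} : Finset (Fin 9)) ∈ fameq1_C ↔ (i, j, k) ∈ L1) := by
  decide +kernel

theorem fameq1_card_C : ∀ K ∈ fameq1_C, K.card = 3 := by
  decide +kernel

theorem fameq1_exists_sorted (K : Finset (Fin 9)) (hK : K.card = 3) :
    ∃ i j k : Fin 9, i < j ∧ j < k ∧ K = {i, j, k} := by
  let o := K.orderEmbOfFin hK
  refine ⟨o 0, o 1, o 2, ?_, ?_, ?_⟩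
  · exact o.strictMono (by decide)
  · exact o.strictMono (by decide)
  · ext x
    have h := K.range_orderEmbOfFin hK
    have h2 : x ∈ K ↔ x ∈ Set.range o := by
      rw [h]; simp
    rw [h2]
    constructor
    · rintro ⟨y, rfl⟩
      fin_cases y <;> simp
    · intro hx
      simp only [mem_insert, mem_singleton] at hx
      rcases hx with rfl | rfl | rfl
      · exact ⟨0, rfl⟩
      · exact ⟨1, rfl⟩
      · exact ⟨2, rfl⟩

theorem fameq1_cubic {e : V → ZMod 2}
    (hf : ∀ i j k : Fin 9, i < j → j < k →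
      tri e (E i) (E j) (E k) = if (i, j, k) ∈ L1 then 1 else 0) :
    (mons e).filter (fun K => K.card = 3) = fameq1_C := by
  have key : ∀ i j k : Fin 9, i < j → j < k →
      (coef {i, j, k} e = 1 ↔ ({i, j, k} : Finset (Fin 9)) ∈ fameq1_C) := by
    intro i j k hij hjk
    rw [coef_eq_tri e i j k hij.ne (hij.trans hjk).ne hjk.ne, hf i j k hij hjk,
      fameq1_mem_C i j k hij hjk]
    by_cases h : (i, j, k) ∈ L1
    · simp [h]
    · simp [h]
  ext K
  constructor
  · intro hK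
    rw [mem_filter] at hK
    obtain ⟨h1, h2⟩ := hK
    obtain ⟨i, j, k, hij, hjk, rfl⟩ := fameq1_exists_sorted K h2
    exact (key i j k hij hjk).1 (mem_filter.1 h1).2
  · intro hK
    have h2 := fameq1_card_C K hK
    obtain ⟨i, j, k, hij, hjk, rfl⟩ := fameq1_exists_sorted K h2
    rw [mem_filter]
    refine ⟨?_, h2⟩
    unfold mons
    rw [mem_filter]
    exact ⟨mem_univ _, (key i j k hij hjk).2 hK⟩

theorem fameq1_card_le {e : V → ZMod 2} (he : DegLT 4 e) {K : Finset (Fin 9)}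
    (hK : K ∈ mons e) : K.card ≤ 3 := by
  by_contra hc
  have h1 : coef K e = 1 := (mem_filter.1 hK).2
  rw [coef_eq_zero he K (by omega)] at h1
  exact zero_ne_one h1

theorem fameq1_cov2 {e : V → ZMod 2} (he : DegLT 4 e)
    (hC : (mons e).filter (fun K => K.card = 3) = fameq1_C)
    (W : Finset (Fin 9)) (hW : W.card = 6) :
    cov 2 W e = (fameq1_c 2 W : ZMod 2) := by
  unfold cov fameq1_c
  have hset : ((mons e).powersetCard 2).filter (fun A => A.sup id = W) =
      (fameq1_C.powersetCard 2).filter (fun A => A.sup id = W) := ?_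
  · rw [hset]
  refine Finset.ext fun A => ?_
  rw [mem_filter, mem_filter, mem_powersetCard, mem_powersetCard]
  constructor
  · rintro ⟨⟨h1, h2⟩, h3⟩
    refine ⟨⟨?_, h2⟩, h3⟩
    intro K hK
    rw [← hC, mem_filter]
    refine ⟨h1 hK, ?_⟩
    obtain ⟨K1, K2, hne, rfl⟩ := card_eq_two.1 h2
    have hs : W = K1 ∪ K2 := by
      rw [← h3]; simp
    have hc1 := fameq1_card_le he (h1 (by simp : K1 ∈ ({K1, K2} : Finset (Finset (Fin 9)))))
    have hc2 := fameq1_card_le he (h1 (by simp : K2 ∈ ({K1, K2} : Finset (Finset (Fin 9)))))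
    have hu := card_union_le K1 K2
    rw [← hs, hW] at hu
    rw [mem_insert, mem_singleton] at hK
    rcases hK with rfl | rfl
    · omega
    · omega
  · rintro ⟨⟨h1, h2⟩, h3⟩
    refine ⟨⟨?_, h2⟩, h3⟩
    rw [← hC] at h1
    exact h1.trans (filter_subset _ _)

theorem fameq1_eq {e d : V → ZMod 2} (h : Pair e d)
    (hC : (mons e).filter (fun K => K.card = 3) = fameq1_C) (i : Fin 9)
    (M1 M2 : Finset (Fin 9)) (hne : M1 ≠ M2)
    (h3 : (fameq1_c 3 {i}ᶜ : ZMod 2) = 0)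
    (h2 : ((({i}ᶜ : Finset (Fin 9)).powersetCard 2).filter
      (fun M => (fameq1_c 2 (({i}ᶜ : Finset (Fin 9)) \ M) : ZMod 2) ≠ 0)) = {M1, M2}) :
    coef M1 e + coef M2 e = 0 := by
  have hcard : (({i}ᶜ : Finset (Fin 9))).card = 8 := by
    rw [card_compl, Fintype.card_fin, card_singleton]
  have h0 := h.cov8 i
  rw [cov3_8 h.he _ hcard, hC] at h0
  change _ + (fameq1_c 3 {i}ᶜ : ZMod 2) = 0 at h0
  rw [h3, add_zero] at h0
  have h1 : ∑ M ∈ (({i}ᶜ : Finset (Fin 9))).powersetCard 2,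
      coef M e * cov 2 (({i}ᶜ : Finset (Fin 9)) \ M) e
      = ∑ M ∈ (({i}ᶜ : Finset (Fin 9))).powersetCard 2,
        (if (fameq1_c 2 (({i}ᶜ : Finset (Fin 9)) \ M) : ZMod 2) ≠ 0 then coef M e else 0) := by
    refine sum_congr rfl fun M hM => ?_
    rw [mem_powersetCard] at hM
    have hc : (({i}ᶜ : Finset (Fin 9)) \ M).card = 6 := by
      rw [card_sdiff_of_subset hM.1, hcard, hM.2]
    rw [fameq1_cov2 h.he hC _ hc]
    rcases zmod2_cases (fameq1_c 2 (({i}ᶜ : Finset (Fin 9)) \ M) : ZMod 2) with hz | hz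
    · rw [hz]; simp
    · rw [hz]; simp
  rw [h1, ← sum_filter, h2, sum_pair hne] at h0
  exact h0

theorem famEq1 {e d : V → ZMod 2} (h : Pair e d)
    (hf : ∀ i j k : Fin 9, i < j → j < k →
      tri e (E i) (E j) (E k) = if (i, j, k) ∈ L1 then 1 else 0) :
    coef {1, 2} e + coef {3, 4} e = 0 ∧
    coef {0, 2} e + coef {5, 6} e = 0 ∧
    coef {0, 1} e + coef {7, 8} e = 0 ∧
    coef {0, 4} e + coef {5, 7} e = 0 ∧
    coef {0, 3} e + coef {6, 8} e = 0 ∧
    coef {1, 6} e + coef {3, 7} e = 0 ∧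
    coef {1, 5} e + coef {4, 8} e = 0 ∧
    coef {2, 8} e + coef {3, 5} e = 0 ∧
    coef {2, 7} e + coef {4, 6} e = 0 := by
  have hC := fameq1_cubic hf
  refine ⟨fameq1_eq h hC 0 _ _ (by decide) ?_ ?_, fameq1_eq h hC 1 _ _ (by decide) ?_ ?_,
    fameq1_eq h hC 2 _ _ (by decide) ?_ ?_, fameq1_eq h hC 3 _ _ (by decide) ?_ ?_,
    fameq1_eq h hC 4 _ _ (by decide) ?_ ?_, fameq1_eq h hC 5 _ _ (by decide) ?_ ?_,
    fameq1_eq h hC 6 _ _ (by decide) ?_ ?_, fameq1_eq h hC 7 _ _ (by decide) ?_ ?_,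
    fameq1_eq h hC 8 _ _ (by decide) ?_ ?_⟩ <;> decide +kernel

end Pool.Agent.H.MP_694475_co
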