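import Pool.Agent.H.MP_694475_co.TriForm
import Pool.Agent.H.MP_694475_co.PairF1
import Pool.Agent.H.MP_694475_co.CovComb

/-! Linear equations for the quadratic coefficients, family 2. -/

open Finset

namespace Pool.Agent.H.MP_694475_co

/-- the cubic monomials of the second normal form -/
def fameq2_S : Finset (Finset (Fin 9)) :=
  {{0, 1, 2}, {0, 3, 4}, {1, 5, 6}, {2, 7, 8}, {3, 5, 7}, {3, 6, 8}, {4, 5, 8}, {4, 6, 7},
    {4, 6, 8}}

theorem fameq2_mem : ∀ i j k : Fin 9, i < j → j < k →
    ((i, j, k) ∈ L2 ↔ ({i, j, k} : Finset (Fin 9)) ∈ fameq2_S) := by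
  decide +kernel

theorem fameq2_card : ∀ K ∈ fameq2_S, K.card = 3 := by
  decide +kernel

theorem fameq2_coef3 {e : V → ZMod 2}
    (hf : ∀ i j k : Fin 9, i < j → j < k →
      tri e (E i) (E j) (E k) = if (i, j, k) ∈ L2 then 1 else 0)
    (K : Finset (Fin 9)) (hK : K.card = 3) : coef K e = if K ∈ fameq2_S then 1 else 0 := by
  have key : ∀ i j k : Fin 9, i < j → j < k →
      coef {i, j, k} e = if ({i, j, k} : Finset (Fin 9)) ∈ fameq2_S then 1 else 0 := by
    intro i j k hij hjk
    rw [coef_eq_tri e i j k hij.ne (hij.trans hjk).ne hjk.ne, hf i j k hij hjk]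
    simp only [fameq2_mem i j k hij hjk]
  obtain ⟨x, y, z, hxy, hxz, hyz, rfl⟩ := Finset.card_eq_three.mp hK
  rcases lt_or_gt_of_ne hxy with h1 | h1 <;> rcases lt_or_gt_of_ne hxz with h2 | h2 <;>
    rcases lt_or_gt_of_ne hyz with h3 | h3
  · exact key x y z h1 h3
  · have : ({x, y, z} : Finset (Fin 9)) = {x, z, y} := by ext a; simp; tauto
    rw [this]; exact key x z y h2 h3
  · exact absurd (h1.trans h3) (not_lt.mpr h2.le)
  · have : ({x, y, z} : Finset (Fin 9)) = {z, x, y} := by ext a; simp; tauto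
    rw [this]; exact key z x y h2 h1
  · have : ({x, y, z} : Finset (Fin 9)) = {y, x, z} := by ext a; simp; tauto
    rw [this]; exact key y x z h1 h2
  · exact absurd (h3.trans h1) (not_lt.mpr h2.le)
  · have : ({x, y, z} : Finset (Fin 9)) = {y, z, x} := by ext a; simp; tauto
    rw [this]; exact key y z x h3 h2
  · have : ({x, y, z} : Finset (Fin 9)) = {z, y, x} := by ext a; simp; tauto
    rw [this]; exact key z y x h3 h1

theorem fameq2_mons {e : V → ZMod 2}
    (hf : ∀ i j k : Fin 9, i < j → j < k →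
      tri e (E i) (E j) (E k) = if (i, j, k) ∈ L2 then 1 else 0) :
    (mons e).filter (fun K => K.card = 3) = fameq2_S := by
  ext K
  simp only [mons, Finset.mem_filter, Finset.mem_univ, true_and]
  constructor
  · rintro ⟨h1, h2⟩
    rw [fameq2_coef3 hf K h2] at h1
    by_contra hc
    rw [if_neg hc] at h1
    exact absurd h1 (by decide)
  · intro h
    have h2 := fameq2_card K h
    refine ⟨?_, h2⟩
    rw [fameq2_coef3 hf K h2, if_pos h]

theorem fameq2_cov2 {e : V → ZMod 2} (he : DegLT 4 e) (S : Finset (Finset (Fin 9)))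
    (hS : (mons e).filter (fun K => K.card = 3) = S) (W : Finset (Fin 9)) (hW : W.card = 6) :
    cov 2 W e = (((S.powersetCard 2).filter (fun A => A.sup id = W)).card : ZMod 2) := by
  unfold cov
  have hle : ∀ K ∈ mons e, K.card ≤ 3 := by
    intro K hK
    by_contra hc
    have h1 := coef_eq_zero he K (by omega)
    simp only [mons, Finset.mem_filter, Finset.mem_univ, true_and] at hK
    rw [h1] at hK
    exact absurd hK (by decide)
  have : ((mons e).powersetCard 2).filter (fun A => A.sup id = W)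
      = (S.powersetCard 2).filter (fun A => A.sup id = W) := by
    ext A
    simp only [Finset.mem_filter, Finset.mem_powersetCard]
    constructor
    · rintro ⟨⟨hA, hc⟩, hs⟩
      refine ⟨⟨?_, hc⟩, hs⟩
      obtain ⟨K, L, hKL, rfl⟩ := Finset.card_eq_two.mp hc
      have hK : K ∈ mons e := hA (by simp)
      have hL : L ∈ mons e := hA (by simp)
      have hsup : K ∪ L = W := by
        rw [← hs]; simp [Finset.sup_insert]
      have h1 := Finset.card_union_le K L
      rw [hsup, hW] at h1
      have h2 := hle K hK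
      have h3 := hle L hL
      intro X hX
      rw [← hS]
      rw [Finset.mem_insert, Finset.mem_singleton] at hX
      rcases hX with rfl | rfl
      · exact Finset.mem_filter.mpr ⟨hK, by omega⟩
      · exact Finset.mem_filter.mpr ⟨hL, by omega⟩
    · rintro ⟨⟨hA, hc⟩, hs⟩
      refine ⟨⟨fun X hX => ?_, hc⟩, hs⟩
      have := hA hX
      rw [← hS] at this
      exact (Finset.mem_filter.mp this).1
  rw [this]

theorem fameq2_eqn {e d : V → ZMod 2} (h : Pair e d) (S : Finset (Finset (Fin 9)))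
    (hS : (mons e).filter (fun K => K.card = 3) = S) (i : Fin 9)
    (T : Finset (Finset (Fin 9))) (c : ZMod 2)
    (hT : ((({i}ᶜ : Finset (Fin 9)).powersetCard 2).filter (fun M =>
      ((S.powersetCard 2).filter (fun A => A.sup id = {i}ᶜ \ M)).card % 2 = 1)) = T)
    (hc : ((((S.powersetCard 3).filter (fun A => A.sup id = ({i}ᶜ : Finset (Fin 9)))).card : ℕ)
      : ZMod 2) = c) :
    ∑ M ∈ T, coef M e = c := by
  have hW : ({i}ᶜ : Finset (Fin 9)).card = 8 := by
    rw [Finset.card_compl]; simp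
  have h8 := h.cov8 i
  rw [cov3_8 h.he _ hW, hS, hc] at h8
  have h1 : ∑ M ∈ ({i}ᶜ : Finset (Fin 9)).powersetCard 2, coef M e * cov 2 ({i}ᶜ \ M) e
      = ∑ M ∈ T, coef M e := by
    rw [← hT, Finset.sum_filter]
    apply Finset.sum_congr rfl
    intro M hM
    rw [Finset.mem_powersetCard] at hM
    have h6 : (({i}ᶜ : Finset (Fin 9)) \ M).card = 6 := by
      rw [Finset.card_sdiff_of_subset hM.1, hW, hM.2]
    rw [fameq2_cov2 h.he S hS _ h6]
    split_ifs with hp
    · have : ((((S.powersetCard 2).filter (fun A => A.sup id = ({i}ᶜ : Finset (Fin 9)) \ M)).card : ℕ)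
          : ZMod 2) = 1 := by
        rw [← ZMod.natCast_mod, hp]; rfl
      rw [this, mul_one]
    · have : ((((S.powersetCard 2).filter (fun A => A.sup id = ({i}ᶜ : Finset (Fin 9)) \ M)).card : ℕ)
          : ZMod 2) = 0 := by
        rw [← ZMod.natCast_mod]
        have : ((S.powersetCard 2).filter (fun A => A.sup id = ({i}ᶜ : Finset (Fin 9)) \ M)).card % 2
          = 0 := by omega
        rw [this]; rfl
      rw [this, mul_zero]
  rw [h1] at h8
  have h2 : c + c = 0 := add_self_zmod2 c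
  exact add_right_cancel (h8.trans h2.symm)

theorem famEq2 {e d : V → ZMod 2} (h : Pair e d)
    (hf : ∀ i j k : Fin 9, i < j → j < k →
      tri e (E i) (E j) (E k) = if (i, j, k) ∈ L2 then 1 else 0) :
    coef {1, 2} e + coef {3, 4} e = 0 ∧
    coef {0, 2} e + coef {5, 6} e = 0 ∧
    coef {0, 1} e + coef {7, 8} e = 0 ∧
    coef {0, 4} e + coef {5, 7} e + coef {5, 8} e + coef {6, 7} e = 1 ∧
    coef {0, 3} e + coef {5, 7} e + coef {6, 8} e = 1 ∧
    coef {1, 6} e + coef {3, 7} e + coef {3, 8} e + coef {4, 7} e = 1 ∧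
    coef {1, 5} e + coef {3, 7} e + coef {4, 8} e = 1 ∧
    coef {2, 8} e + coef {3, 5} e + coef {3, 6} e + coef {4, 5} e = 1 ∧
    coef {2, 7} e + coef {3, 5} e + coef {4, 6} e = 1 := by
  have hS := fameq2_mons hf
  have e0 := fameq2_eqn h _ hS 0 {{1, 2}, {3, 4}} 0 (by decide +kernel) (by decide +kernel)
  have e1 := fameq2_eqn h _ hS 1 {{0, 2}, {5, 6}} 0 (by decide +kernel) (by decide +kernel)
  have e2 := fameq2_eqn h _ hS 2 {{0, 1}, {7, 8}} 0 (by decide +kernel) (by decide +kernel)
  have e3 := fameq2_eqn h _ hS 3 {{0, 4}, {5, 7}, {5, 8}, {6, 7}} 1 (by decide +kernel)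
    (by decide +kernel)
  have e4 := fameq2_eqn h _ hS 4 {{0, 3}, {5, 7}, {6, 8}} 1 (by decide +kernel)
    (by decide +kernel)
  have e5 := fameq2_eqn h _ hS 5 {{1, 6}, {3, 7}, {3, 8}, {4, 7}} 1 (by decide +kernel)
    (by decide +kernel)
  have e6 := fameq2_eqn h _ hS 6 {{1, 5}, {3, 7}, {4, 8}} 1 (by decide +kernel)
    (by decide +kernel)
  have e7 := fameq2_eqn h _ hS 7 {{2, 8}, {3, 5}, {3, 6}, {4, 5}} 1 (by decide +kernel)
    (by decide +kernel)
  have e8 := fameq2_eqn h _ hS 8 {{2, 7}, {3, 5}, {4, 6}} 1 (by decide +kernel)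
    (by decide +kernel)
  rw [Finset.sum_insert (by decide), Finset.sum_singleton] at e0 e1 e2
  rw [Finset.sum_insert (by decide), Finset.sum_insert (by decide), Finset.sum_insert (by decide),
    Finset.sum_singleton] at e3 e5 e7
  rw [Finset.sum_insert (by decide), Finset.sum_insert (by decide),
    Finset.sum_singleton] at e4 e6 e8
  refine ⟨e0, e1, e2, ?_, ?_, ?_, ?_, ?_, ?_⟩
  · rw [← e3]; ring
  · rw [← e4]; ring
  · rw [← e5]; ring
  · rw [← e6]; ring
  · rw [← e7]; ring
  · rw [← e8]; ring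

end Pool.Agent.H.MP_694475_co
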