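import Pool.Agent.H.MP_694475_co.FamTools
import Pool.Agent.H.MP_694475_co.FamEq1

/-! Reduction of a pair with normalised cubic form to the family 1. -/

open Finset

namespace Pool.Agent.H.MP_694475_co

/-- number of monomials of a list with support `K` -/
def famred1_cnt (ms : List (List (Fin 9))) (K : Finset (Fin 9)) : ZMod 2 :=
  ((ms.filter (fun m => m.toFinset = K)).length : ZMod 2)

theorem famred1_sum (S : Finset V) (F G : V → ZMod 2) (H : Fin 18 → V → ZMod 2)
    (t : Fin 18 → ZMod 2) :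
    ∑ a ∈ S, (F a + G a + ∑ j : Fin 18, t j * H j a)
      = ∑ a ∈ S, F a + ∑ a ∈ S, G a + ∑ j : Fin 18, t j * ∑ a ∈ S, H j a := by
  rw [Finset.sum_add_distrib, Finset.sum_add_distrib]
  have h : ∑ a ∈ S, ∑ j : Fin 18, t j * H j a = ∑ j : Fin 18, t j * ∑ a ∈ S, H j a := by
    rw [Finset.sum_comm]
    exact Finset.sum_congr rfl fun j _ => (Finset.mul_sum _ _ _).symm
  rw [h]

theorem famred1_coef (T Q : List (List (Fin 9))) (B : List (List (List (Fin 9))))
    (t : Fin 18 → ZMod 2) (K : Finset (Fin 9)) :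
    coef K (fam T Q B t) = coef K (pval T) + coef K (pval Q)
      + ∑ j : Fin 18, t j * coef K (pval (B.getD j.val [])) :=
  famred1_sum (cube K) (pval T) (pval Q) (fun j => pval (B.getD j.val [])) t

theorem famred1_coef1 (t : Fin 18 → ZMod 2) (K : Finset (Fin 9)) :
    coef K (fam T1 Q1 B1 t) = famred1_cnt T1 K
      + ∑ j : Fin 18, t j * famred1_cnt (B1.getD j.val []) K := by
  rw [famred1_coef, coef_pval T1 (by decide), coef_pval Q1 (by decide)]
  have h : ∀ j : Fin 18, ∀ m ∈ B1.getD j.val [], m.Nodup := by decide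
  have h' : ∀ j : Fin 18, coef K (pval (B1.getD j.val []))
      = famred1_cnt (B1.getD j.val []) K := fun j => coef_pval _ (h j) K
  simp only [h']
  simp [famred1_cnt, Q1]

/-- the symmetric version of membership in `L1` -/
def famred1_M (i j k : Fin 9) : ZMod 2 :=
  if (i, j, k) ∈ L1 ∨ (i, k, j) ∈ L1 ∨ (k, i, j) ∈ L1 then 1 else 0

theorem famred1_tri {e : V → ZMod 2} (he : DegLT 4 e)
    (hf : ∀ i j k : Fin 9, i < j → j < k →
      tri e (E i) (E j) (E k) = if (i, j, k) ∈ L1 then 1 else 0)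
    (i j k : Fin 9) (hij : i < j) :
    tri e (E i) (E j) (E k) = famred1_M i j k := by
  have ht := tri_isTri he
  rcases lt_trichotomy j k with hjk | hjk | hjk
  · rw [hf i j k hij hjk]
    revert i j k; decide
  · subst hjk
    rw [ht.sw12, ht.sw23, ht.alt]
    clear ht hf
    revert i j; decide
  · rcases lt_trichotomy i k with hik | hik | hik
    · rw [ht.sw23, hf i k j hik hjk]
      clear ht hf
      revert i j k; decide
    · subst hik
      rw [ht.sw23, ht.alt]
      clear ht hf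
      revert i j; decide
    · rw [ht.sw23, ht.sw12, hf k i j hik hij]
      clear ht hf
      revert i j k; decide

/-- values of the shift vector -/
def famred1_u (e : V → ZMod 2) : Fin 9 → ZMod 2 :=
  ![coef {1, 2} e, coef {0, 2} e, coef {0, 1} e, coef {0, 4} e, coef {0, 3} e, coef {1, 6} e, coef {1, 5} e, coef {2, 8} e, coef {2, 7} e]

/-- values of the parameters -/
def famred1_t (e : V → ZMod 2) : Fin 18 → ZMod 2 :=
  ![coef {0, 5} e, coef {0, 6} e, coef {0, 7} e, coef {0, 8} e, coef {1, 3} e, coef {1, 4} e, coef {1, 7} e, coef {1, 8} e, coef {2, 3} e, coef {2, 4} e, coef {2, 5} e, coef {2, 6} e, coef {3, 6} e, coef {3, 8} e, coef {4, 5} e, coef {4, 7} e, coef {5, 8} e, coef {6, 7} e]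

theorem famred1_row9 (u : Fin 9 → ZMod 2) (c : Fin 9 → ZMod 2) (r : Fin 9)
    (h : ∀ k, c k = if k = r then 1 else 0) : ∑ k, u k * c k = u r := by
  simp only [h]; simp

theorem famred1_row9z (u : Fin 9 → ZMod 2) (c : Fin 9 → ZMod 2)
    (h : ∀ k, c k = 0) : ∑ k, u k * c k = 0 := by
  simp only [h]; simp

theorem famred1_row18 (u : Fin 18 → ZMod 2) (c : Fin 18 → ZMod 2) (r : Fin 18)
    (h : ∀ k, c k = if k = r then 1 else 0) : ∑ k, u k * c k = u r := by
  simp only [h]; simp

theorem famred1_row18z (u : Fin 18 → ZMod 2) (c : Fin 18 → ZMod 2)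
    (h : ∀ k, c k = 0) : ∑ k, u k * c k = 0 := by
  simp only [h]; simp

theorem famred1_T1_2 : ∀ i j : Fin 9, famred1_cnt T1 {i, j} = 0 := by
  decide

theorem famred1_h2 {e d : V → ZMod 2} (h : Pair e d)
    (hf : ∀ i j k : Fin 9, i < j → j < k →
      tri e (E i) (E j) (E k) = if (i, j, k) ∈ L1 then 1 else 0)
    (i j : Fin 9) (hij : i < j) :
    coef {i, j} e + ∑ k, famred1_u e k * famred1_M i j k
      = ∑ l : Fin 18, famred1_t e l * famred1_cnt (B1.getD l.val []) {i, j} := by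
  obtain ⟨e0, e1, e2, e3, e4, e5, e6, e7, e8⟩ := famEq1 h hf
  clear hf h
  have hall : ∀ i j : Fin 9, i < j → (i, j) ∈ ([(0, 1), (0, 2), (0, 3), (0, 4), (0, 5), (0, 6), (0, 7), (0, 8), (1, 2), (1, 3), (1, 4), (1, 5), (1, 6), (1, 7), (1, 8), (2, 3), (2, 4), (2, 5), (2, 6), (2, 7), (2, 8), (3, 4), (3, 5), (3, 6), (3, 7), (3, 8), (4, 5), (4, 6), (4, 7), (4, 8), (5, 6), (5, 7), (5, 8), (6, 7), (6, 8), (7, 8)] : List (Fin 9 × Fin 9)) := by decide
  have hm := hall i j hij
  simp only [List.mem_cons, Prod.mk.injEq, List.not_mem_nil, or_false] at hm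
  clear hall
  rcases hm with ⟨rfl, rfl⟩ | ⟨rfl, rfl⟩ | ⟨rfl, rfl⟩ | ⟨rfl, rfl⟩ | ⟨rfl, rfl⟩ | ⟨rfl, rfl⟩ | ⟨rfl, rfl⟩ | ⟨rfl, rfl⟩ | ⟨rfl, rfl⟩ | ⟨rfl, rfl⟩ | ⟨rfl, rfl⟩ | ⟨rfl, rfl⟩ | ⟨rfl, rfl⟩ | ⟨rfl, rfl⟩ | ⟨rfl, rfl⟩ | ⟨rfl, rfl⟩ | ⟨rfl, rfl⟩ | ⟨rfl, rfl⟩ | ⟨rfl, rfl⟩ | ⟨rfl, rfl⟩ | ⟨rfl, rfl⟩ | ⟨rfl, rfl⟩ | ⟨rfl, rfl⟩ | ⟨rfl, rfl⟩ | ⟨rfl, rfl⟩ | ⟨rfl, rfl⟩ | ⟨rfl, rfl⟩ | ⟨rfl, rfl⟩ | ⟨rfl, rfl⟩ | ⟨rfl, rfl⟩ | ⟨rfl, rfl⟩ | ⟨rfl, rfl⟩ | ⟨rfl, rfl⟩ | ⟨rfl, rfl⟩ | ⟨rfl, rfl⟩ | ⟨rfl, rfl⟩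
  · rw [famred1_row9 (famred1_u e) _ 2 (by decide), famred1_row18z _ _ (by decide)]
    exact add_self_zmod2 _
  · rw [famred1_row9 (famred1_u e) _ 1 (by decide), famred1_row18z _ _ (by decide)]
    exact add_self_zmod2 _
  · rw [famred1_row9 (famred1_u e) _ 4 (by decide), famred1_row18z _ _ (by decide)]
    exact add_self_zmod2 _
  · rw [famred1_row9 (famred1_u e) _ 3 (by decide), famred1_row18z _ _ (by decide)]
    exact add_self_zmod2 _
  · rw [famred1_row9z _ _ (by decide), famred1_row18 (famred1_t e) _ 0 (by decide), add_zero]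
    rfl
  · rw [famred1_row9z _ _ (by decide), famred1_row18 (famred1_t e) _ 1 (by decide), add_zero]
    rfl
  · rw [famred1_row9z _ _ (by decide), famred1_row18 (famred1_t e) _ 2 (by decide), add_zero]
    rfl
  · rw [famred1_row9z _ _ (by decide), famred1_row18 (famred1_t e) _ 3 (by decide), add_zero]
    rfl
  · rw [famred1_row9 (famred1_u e) _ 0 (by decide), famred1_row18z _ _ (by decide)]
    exact add_self_zmod2 _
  · rw [famred1_row9z _ _ (by decide), famred1_row18 (famred1_t e) _ 4 (by decide), add_zero]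
    rfl
  · rw [famred1_row9z _ _ (by decide), famred1_row18 (famred1_t e) _ 5 (by decide), add_zero]
    rfl
  · rw [famred1_row9 (famred1_u e) _ 6 (by decide), famred1_row18z _ _ (by decide)]
    exact add_self_zmod2 _
  · rw [famred1_row9 (famred1_u e) _ 5 (by decide), famred1_row18z _ _ (by decide)]
    exact add_self_zmod2 _
  · rw [famred1_row9z _ _ (by decide), famred1_row18 (famred1_t e) _ 6 (by decide), add_zero]
    rfl
  · rw [famred1_row9z _ _ (by decide), famred1_row18 (famred1_t e) _ 7 (by decide), add_zero]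
    rfl
  · rw [famred1_row9z _ _ (by decide), famred1_row18 (famred1_t e) _ 8 (by decide), add_zero]
    rfl
  · rw [famred1_row9z _ _ (by decide), famred1_row18 (famred1_t e) _ 9 (by decide), add_zero]
    rfl
  · rw [famred1_row9z _ _ (by decide), famred1_row18 (famred1_t e) _ 10 (by decide), add_zero]
    rfl
  · rw [famred1_row9z _ _ (by decide), famred1_row18 (famred1_t e) _ 11 (by decide), add_zero]
    rfl
  · rw [famred1_row9 (famred1_u e) _ 8 (by decide), famred1_row18z _ _ (by decide)]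
    exact add_self_zmod2 _
  · rw [famred1_row9 (famred1_u e) _ 7 (by decide), famred1_row18z _ _ (by decide)]
    exact add_self_zmod2 _
  · rw [famred1_row9 (famred1_u e) _ 0 (by decide), famred1_row18z _ _ (by decide), add_comm]
    exact e0
  · rw [famred1_row9 (famred1_u e) _ 7 (by decide), famred1_row18z _ _ (by decide), add_comm]
    exact e7
  · rw [famred1_row9z _ _ (by decide), famred1_row18 (famred1_t e) _ 12 (by decide), add_zero]
    rfl
  · rw [famred1_row9 (famred1_u e) _ 5 (by decide), famred1_row18z _ _ (by decide), add_comm]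
    exact e5
  · rw [famred1_row9z _ _ (by decide), famred1_row18 (famred1_t e) _ 13 (by decide), add_zero]
    rfl
  · rw [famred1_row9z _ _ (by decide), famred1_row18 (famred1_t e) _ 14 (by decide), add_zero]
    rfl
  · rw [famred1_row9 (famred1_u e) _ 8 (by decide), famred1_row18z _ _ (by decide), add_comm]
    exact e8
  · rw [famred1_row9z _ _ (by decide), famred1_row18 (famred1_t e) _ 15 (by decide), add_zero]
    rfl
  · rw [famred1_row9 (famred1_u e) _ 6 (by decide), famred1_row18z _ _ (by decide), add_comm]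
    exact e6
  · rw [famred1_row9 (famred1_u e) _ 1 (by decide), famred1_row18z _ _ (by decide), add_comm]
    exact e1
  · rw [famred1_row9 (famred1_u e) _ 3 (by decide), famred1_row18z _ _ (by decide), add_comm]
    exact e3
  · rw [famred1_row9z _ _ (by decide), famred1_row18 (famred1_t e) _ 16 (by decide), add_zero]
    rfl
  · rw [famred1_row9z _ _ (by decide), famred1_row18 (famred1_t e) _ 17 (by decide), add_zero]
    rfl
  · rw [famred1_row9 (famred1_u e) _ 4 (by decide), famred1_row18z _ _ (by decide), add_comm]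
    exact e4
  · rw [famred1_row9 (famred1_u e) _ 2 (by decide), famred1_row18z _ _ (by decide), add_comm]
    exact e2

theorem famRed1 {e d : V → ZMod 2} (h : Pair e d)
    (hf : ∀ i j k : Fin 9, i < j → j < k →
      tri e (E i) (E j) (E k) = if (i, j, k) ∈ L1 then 1 else 0) :
    ∃ (t : Fin 18 → ZMod 2) (d' : V → ZMod 2), Pair (fam T1 Q1 B1 t) d' := by
  refine ⟨famred1_t e, h.normalise (fam T1 Q1 B1 (famred1_t e))
    (DegLT_fam T1 Q1 B1 (by decide) (by decide) (by decide) _) (famred1_u e) ?_ ?_ ?_ ?_⟩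
  · intro i j k hij hjk
    have hik := hij.trans hjk
    rw [coef_eq_tri e i j k hij.ne hik.ne hjk.ne, hf i j k hij hjk, famred1_coef1,
      famred1_row18z _ _ ?_, add_zero]
    · revert i j k; decide
    · revert i j k; decide
  · intro i j hij
    have h1 : ∀ k, famred1_u e k * tri e (E i) (E j) (E k)
        = famred1_u e k * famred1_M i j k := fun k => by
      rw [famred1_tri h.he hf i j k hij]
    rw [Finset.sum_congr rfl fun k _ => h1 k, famred1_coef1, famred1_T1_2, zero_add]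
    exact famred1_h2 h hf i j hij
  · intro i
    rw [famred1_coef1, famred1_row18z _ _ ?_, add_zero]
    · revert i; decide
    · revert i; decide
  · rw [famred1_coef1, famred1_row18z _ _ ?_, add_zero]
    · decide
    · decide

end Pool.Agent.H.MP_694475_co
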