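import Pool.Agent.H.MP_694475_co.FamTools
import Pool.Agent.H.MP_694475_co.FamEq2

/-! Reduction of a pair with normalised cubic form to the family 2. -/

open Finset

namespace Pool.Agent.H.MP_694475_co

/-- number of monomials of a list with support `K` -/
def famred2_cnt (ms : List (List (Fin 9))) (K : Finset (Fin 9)) : ZMod 2 :=
  ((ms.filter (fun m => m.toFinset = K)).length : ZMod 2)

theorem famred2_sum (S : Finset V) (F G : V → ZMod 2) (H : Fin 18 → V → ZMod 2)
    (t : Fin 18 → ZMod 2) :
    ∑ a ∈ S, (F a + G a + ∑ j : Fin 18, t j * H j a)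
      = ∑ a ∈ S, F a + ∑ a ∈ S, G a + ∑ j : Fin 18, t j * ∑ a ∈ S, H j a := by
  rw [Finset.sum_add_distrib, Finset.sum_add_distrib]
  have h : ∑ a ∈ S, ∑ j : Fin 18, t j * H j a = ∑ j : Fin 18, t j * ∑ a ∈ S, H j a := by
    rw [Finset.sum_comm]
    exact Finset.sum_congr rfl fun j _ => (Finset.mul_sum _ _ _).symm
  rw [h]

theorem famred2_coef (T Q : List (List (Fin 9))) (B : List (List (List (Fin 9))))
    (t : Fin 18 → ZMod 2) (K : Finset (Fin 9)) :
    coef K (fam T Q B t) = coef K (pval T) + coef K (pval Q)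
      + ∑ j : Fin 18, t j * coef K (pval (B.getD j.val [])) :=
  famred2_sum (cube K) (pval T) (pval Q) (fun j => pval (B.getD j.val [])) t

theorem famred2_coef1 (t : Fin 18 → ZMod 2) (K : Finset (Fin 9)) :
    coef K (fam T2 Q2 B2 t) = famred2_cnt T2 K + famred2_cnt Q2 K
      + ∑ j : Fin 18, t j * famred2_cnt (B2.getD j.val []) K := by
  rw [famred2_coef, coef_pval T2 (by decide), coef_pval Q2 (by decide)]
  have h : ∀ j : Fin 18, ∀ m ∈ B2.getD j.val [], m.Nodup := by decide
  have h' : ∀ j : Fin 18, coef K (pval (B2.getD j.val []))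
      = famred2_cnt (B2.getD j.val []) K := fun j => coef_pval _ (h j) K
  simp only [h']
  rfl

/-- the symmetric version of membership in `L2` -/
def famred2_M (i j k : Fin 9) : ZMod 2 :=
  if (i, j, k) ∈ L2 ∨ (i, k, j) ∈ L2 ∨ (k, i, j) ∈ L2 then 1 else 0

theorem famred2_tri {e : V → ZMod 2} (he : DegLT 4 e)
    (hf : ∀ i j k : Fin 9, i < j → j < k →
      tri e (E i) (E j) (E k) = if (i, j, k) ∈ L2 then 1 else 0)
    (i j k : Fin 9) (hij : i < j) :
    tri e (E i) (E j) (E k) = famred2_M i j k := by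
  have ht := tri_isTri he
  rcases lt_trichotomy j k with hjk | hjk | hjk
  · rw [hf i j k hij hjk]
    revert i j k; decide
  · subst hjk
    rw [ht.sw12, ht.sw23, ht.alt]
    clear ht hf
    revert i j; decide
  · rcases lt_trichotomy i k with hik | hik | hik
    · rw [ht.sw23, hf i k j hik hjk]
      clear ht hf
      revert i j k; decide
    · subst hik
      rw [ht.sw23, ht.alt]
      clear ht hf
      revert i j; decide
    · rw [ht.sw23, ht.sw12, hf k i j hik hij]
      clear ht hf
      revert i j k; decide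

/-- values of the shift vector -/
def famred2_u (e : V → ZMod 2) : Fin 9 → ZMod 2 :=
  ![coef {1, 2} e, coef {0, 2} e, coef {0, 1} e, coef {6, 7} e + coef {6, 8} e, coef {6, 7} e, coef {4, 7} e + coef {4, 8} e, coef {4, 7} e, coef {4, 5} e + coef {4, 6} e, coef {4, 5} e]

/-- values of the parameters -/
def famred2_t (e : V → ZMod 2) : Fin 18 → ZMod 2 :=
  ![coef {0, 5} e, coef {0, 6} e, coef {0, 7} e, coef {0, 8} e, coef {1, 3} e, coef {1, 4} e, coef {1, 7} e, coef {1, 8} e, coef {2, 3} e, coef {2, 4} e, coef {2, 5} e, coef {2, 6} e, coef {2, 7} e + coef {4, 5} e + 1, coef {2, 8} e + coef {3, 5} e + 1, coef {1, 5} e + coef {4, 7} e + 1, coef {1, 6} e + coef {3, 7} e + 1, coef {0, 3} e + coef {6, 7} e + 1, coef {0, 4} e + coef {5, 7} e + 1]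

theorem famred2_row {n : ℕ} (u : Fin n → ZMod 2) (c : Fin n → ZMod 2) (s : List (Fin n))
    (hs : s.Nodup) (h : ∀ k, c k = if k ∈ s then 1 else 0) :
    ∑ k, u k * c k = (s.map u).sum := by
  simp only [h, mul_ite, mul_one, mul_zero]
  rw [← Finset.sum_filter, ← List.sum_toFinset u hs]
  congr 1
  ext k
  simp

theorem famred2_T2_2 : ∀ i j : Fin 9, famred2_cnt T2 {i, j} = 0 := by
  decide

theorem famred2_h2 {e d : V → ZMod 2} (h : Pair e d)
    (hf : ∀ i j k : Fin 9, i < j → j < k →
      tri e (E i) (E j) (E k) = if (i, j, k) ∈ L2 then 1 else 0)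
    (i j : Fin 9) (hij : i < j) :
    coef {i, j} e + ∑ k, famred2_u e k * famred2_M i j k
      = famred2_cnt Q2 {i, j} + ∑ l : Fin 18, famred2_t e l * famred2_cnt (B2.getD l.val []) {i, j} := by
  obtain ⟨e0, e1, e2, e3, e4, e5, e6, e7, e8⟩ := famEq2 h hf
  clear hf h
  have hall : ∀ i j : Fin 9, i < j → (i, j) ∈ ([(0, 1), (0, 2), (0, 3), (0, 4), (0, 5), (0, 6), (0, 7), (0, 8), (1, 2), (1, 3), (1, 4), (1, 5), (1, 6), (1, 7), (1, 8), (2, 3), (2, 4), (2, 5), (2, 6), (2, 7), (2, 8), (3, 4), (3, 5), (3, 6), (3, 7), (3, 8), (4, 5), (4, 6), (4, 7), (4, 8), (5, 6), (5, 7), (5, 8), (6, 7), (6, 8), (7, 8)] : List (Fin 9 × Fin 9)) := by decide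
  have hm := hall i j hij
  simp only [List.mem_cons, Prod.mk.injEq, List.not_mem_nil, or_false] at hm
  clear hall
  rcases hm with ⟨rfl, rfl⟩ | ⟨rfl, rfl⟩ | ⟨rfl, rfl⟩ | ⟨rfl, rfl⟩ | ⟨rfl, rfl⟩ | ⟨rfl, rfl⟩ | ⟨rfl, rfl⟩ | ⟨rfl, rfl⟩ | ⟨rfl, rfl⟩ | ⟨rfl, rfl⟩ | ⟨rfl, rfl⟩ | ⟨rfl, rfl⟩ | ⟨rfl, rfl⟩ | ⟨rfl, rfl⟩ | ⟨rfl, rfl⟩ | ⟨rfl, rfl⟩ | ⟨rfl, rfl⟩ | ⟨rfl, rfl⟩ | ⟨rfl, rfl⟩ | ⟨rfl, rfl⟩ | ⟨rfl, rfl⟩ | ⟨rfl, rfl⟩ | ⟨rfl, rfl⟩ | ⟨rfl, rfl⟩ | ⟨rfl, rfl⟩ | ⟨rfl, rfl⟩ | ⟨rfl, rfl⟩ | ⟨rfl, rfl⟩ | ⟨rfl, rfl⟩ | ⟨rfl, rfl⟩ | ⟨rfl, rfl⟩ | ⟨rfl, rfl⟩ | ⟨rfl, rfl⟩ | ⟨rfl, rfl⟩ | ⟨rfl, rfl⟩ | ⟨rfl, rfl⟩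
  · rw [famred2_row (famred2_u e) _ [2] (by decide) (by decide),
      famred2_row (famred2_t e) _ [] (by decide) (by decide),
      show famred2_cnt Q2 {0, 1} = 0 by decide]
    show coef {0, 1} e + ((coef {0, 1} e) + 0) = 0 + 0
    clear e0 e1 e2 e3 e4 e5 e6 e7 e8
    generalize coef {0, 1} e = x0 at *
    clear hij
    revert x0
    decide
  · rw [famred2_row (famred2_u e) _ [1] (by decide) (by decide),
      famred2_row (famred2_t e) _ [] (by decide) (by decide),
      show famred2_cnt Q2 {0, 2} = 0 by decide]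
    show coef {0, 2} e + ((coef {0, 2} e) + 0) = 0 + 0
    clear e0 e1 e2 e3 e4 e5 e6 e7 e8
    generalize coef {0, 2} e = x0 at *
    clear hij
    revert x0
    decide
  · rw [famred2_row (famred2_u e) _ [4] (by decide) (by decide),
      famred2_row (famred2_t e) _ [16] (by decide) (by decide),
      show famred2_cnt Q2 {0, 3} = 1 by decide]
    show coef {0, 3} e + ((coef {6, 7} e) + 0) = 1 + ((coef {0, 3} e + coef {6, 7} e + 1) + 0)
    clear e0 e1 e2 e3 e4 e5 e6 e7 e8
    generalize coef {0, 3} e = x0 at *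
    generalize coef {6, 7} e = x1 at *
    clear hij
    revert x0 x1
    decide
  · rw [famred2_row (famred2_u e) _ [3] (by decide) (by decide),
      famred2_row (famred2_t e) _ [16, 17] (by decide) (by decide),
      show famred2_cnt Q2 {0, 4} = 1 by decide]
    show coef {0, 4} e + ((coef {6, 7} e + coef {6, 8} e) + 0) = 1 + ((coef {0, 3} e + coef {6, 7} e + 1) + ((coef {0, 4} e + coef {5, 7} e + 1) + 0))
    clear e0 e1 e2 e3 e5 e6 e7 e8
    generalize coef {0, 3} e = x0 at *
    generalize coef {0, 4} e = x1 at *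
    generalize coef {5, 7} e = x2 at *
    generalize coef {6, 7} e = x3 at *
    generalize coef {6, 8} e = x4 at *
    clear hij
    revert x0 x1 x2 x3 x4
    decide
  · rw [famred2_row (famred2_u e) _ [] (by decide) (by decide),
      famred2_row (famred2_t e) _ [0] (by decide) (by decide),
      show famred2_cnt Q2 {0, 5} = 0 by decide]
    show coef {0, 5} e + 0 = 0 + ((coef {0, 5} e) + 0)
    clear e0 e1 e2 e3 e4 e5 e6 e7 e8
    generalize coef {0, 5} e = x0 at *
    clear hij
    revert x0
    decide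
  · rw [famred2_row (famred2_u e) _ [] (by decide) (by decide),
      famred2_row (famred2_t e) _ [1] (by decide) (by decide),
      show famred2_cnt Q2 {0, 6} = 0 by decide]
    show coef {0, 6} e + 0 = 0 + ((coef {0, 6} e) + 0)
    clear e0 e1 e2 e3 e4 e5 e6 e7 e8
    generalize coef {0, 6} e = x0 at *
    clear hij
    revert x0
    decide
  · rw [famred2_row (famred2_u e) _ [] (by decide) (by decide),
      famred2_row (famred2_t e) _ [2] (by decide) (by decide),
      show famred2_cnt Q2 {0, 7} = 0 by decide]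
    show coef {0, 7} e + 0 = 0 + ((coef {0, 7} e) + 0)
    clear e0 e1 e2 e3 e4 e5 e6 e7 e8
    generalize coef {0, 7} e = x0 at *
    clear hij
    revert x0
    decide
  · rw [famred2_row (famred2_u e) _ [] (by decide) (by decide),
      famred2_row (famred2_t e) _ [3] (by decide) (by decide),
      show famred2_cnt Q2 {0, 8} = 0 by decide]
    show coef {0, 8} e + 0 = 0 + ((coef {0, 8} e) + 0)
    clear e0 e1 e2 e3 e4 e5 e6 e7 e8
    generalize coef {0, 8} e = x0 at *
    clear hij
    revert x0
    decide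
  · rw [famred2_row (famred2_u e) _ [0] (by decide) (by decide),
      famred2_row (famred2_t e) _ [] (by decide) (by decide),
      show famred2_cnt Q2 {1, 2} = 0 by decide]
    show coef {1, 2} e + ((coef {1, 2} e) + 0) = 0 + 0
    clear e0 e1 e2 e3 e4 e5 e6 e7 e8
    generalize coef {1, 2} e = x0 at *
    clear hij
    revert x0
    decide
  · rw [famred2_row (famred2_u e) _ [] (by decide) (by decide),
      famred2_row (famred2_t e) _ [4] (by decide) (by decide),
      show famred2_cnt Q2 {1, 3} = 0 by decide]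
    show coef {1, 3} e + 0 = 0 + ((coef {1, 3} e) + 0)
    clear e0 e1 e2 e3 e4 e5 e6 e7 e8
    generalize coef {1, 3} e = x0 at *
    clear hij
    revert x0
    decide
  · rw [famred2_row (famred2_u e) _ [] (by decide) (by decide),
      famred2_row (famred2_t e) _ [5] (by decide) (by decide),
      show famred2_cnt Q2 {1, 4} = 0 by decide]
    show coef {1, 4} e + 0 = 0 + ((coef {1, 4} e) + 0)
    clear e0 e1 e2 e3 e4 e5 e6 e7 e8
    generalize coef {1, 4} e = x0 at *
    clear hij
    revert x0
    decide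
  · rw [famred2_row (famred2_u e) _ [6] (by decide) (by decide),
      famred2_row (famred2_t e) _ [14] (by decide) (by decide),
      show famred2_cnt Q2 {1, 5} = 1 by decide]
    show coef {1, 5} e + ((coef {4, 7} e) + 0) = 1 + ((coef {1, 5} e + coef {4, 7} e + 1) + 0)
    clear e0 e1 e2 e3 e4 e5 e6 e7 e8
    generalize coef {1, 5} e = x0 at *
    generalize coef {4, 7} e = x1 at *
    clear hij
    revert x0 x1
    decide
  · rw [famred2_row (famred2_u e) _ [5] (by decide) (by decide),
      famred2_row (famred2_t e) _ [14, 15] (by decide) (by decide),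
      show famred2_cnt Q2 {1, 6} = 1 by decide]
    show coef {1, 6} e + ((coef {4, 7} e + coef {4, 8} e) + 0) = 1 + ((coef {1, 5} e + coef {4, 7} e + 1) + ((coef {1, 6} e + coef {3, 7} e + 1) + 0))
    clear e0 e1 e2 e3 e4 e5 e7 e8
    generalize coef {1, 5} e = x0 at *
    generalize coef {1, 6} e = x1 at *
    generalize coef {3, 7} e = x2 at *
    generalize coef {4, 7} e = x3 at *
    generalize coef {4, 8} e = x4 at *
    clear hij
    revert x0 x1 x2 x3 x4
    decide
  · rw [famred2_row (famred2_u e) _ [] (by decide) (by decide),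
      famred2_row (famred2_t e) _ [6] (by decide) (by decide),
      show famred2_cnt Q2 {1, 7} = 0 by decide]
    show coef {1, 7} e + 0 = 0 + ((coef {1, 7} e) + 0)
    clear e0 e1 e2 e3 e4 e5 e6 e7 e8
    generalize coef {1, 7} e = x0 at *
    clear hij
    revert x0
    decide
  · rw [famred2_row (famred2_u e) _ [] (by decide) (by decide),
      famred2_row (famred2_t e) _ [7] (by decide) (by decide),
      show famred2_cnt Q2 {1, 8} = 0 by decide]
    show coef {1, 8} e + 0 = 0 + ((coef {1, 8} e) + 0)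
    clear e0 e1 e2 e3 e4 e5 e6 e7 e8
    generalize coef {1, 8} e = x0 at *
    clear hij
    revert x0
    decide
  · rw [famred2_row (famred2_u e) _ [] (by decide) (by decide),
      famred2_row (famred2_t e) _ [8] (by decide) (by decide),
      show famred2_cnt Q2 {2, 3} = 0 by decide]
    show coef {2, 3} e + 0 = 0 + ((coef {2, 3} e) + 0)
    clear e0 e1 e2 e3 e4 e5 e6 e7 e8
    generalize coef {2, 3} e = x0 at *
    clear hij
    revert x0
    decide
  · rw [famred2_row (famred2_u e) _ [] (by decide) (by decide),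
      famred2_row (famred2_t e) _ [9] (by decide) (by decide),
      show famred2_cnt Q2 {2, 4} = 0 by decide]
    show coef {2, 4} e + 0 = 0 + ((coef {2, 4} e) + 0)
    clear e0 e1 e2 e3 e4 e5 e6 e7 e8
    generalize coef {2, 4} e = x0 at *
    clear hij
    revert x0
    decide
  · rw [famred2_row (famred2_u e) _ [] (by decide) (by decide),
      famred2_row (famred2_t e) _ [10] (by decide) (by decide),
      show famred2_cnt Q2 {2, 5} = 0 by decide]
    show coef {2, 5} e + 0 = 0 + ((coef {2, 5} e) + 0)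
    clear e0 e1 e2 e3 e4 e5 e6 e7 e8
    generalize coef {2, 5} e = x0 at *
    clear hij
    revert x0
    decide
  · rw [famred2_row (famred2_u e) _ [] (by decide) (by decide),
      famred2_row (famred2_t e) _ [11] (by decide) (by decide),
      show famred2_cnt Q2 {2, 6} = 0 by decide]
    show coef {2, 6} e + 0 = 0 + ((coef {2, 6} e) + 0)
    clear e0 e1 e2 e3 e4 e5 e6 e7 e8
    generalize coef {2, 6} e = x0 at *
    clear hij
    revert x0
    decide
  · rw [famred2_row (famred2_u e) _ [8] (by decide) (by decide),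
      famred2_row (famred2_t e) _ [12] (by decide) (by decide),
      show famred2_cnt Q2 {2, 7} = 1 by decide]
    show coef {2, 7} e + ((coef {4, 5} e) + 0) = 1 + ((coef {2, 7} e + coef {4, 5} e + 1) + 0)
    clear e0 e1 e2 e3 e4 e5 e6 e7 e8
    generalize coef {2, 7} e = x0 at *
    generalize coef {4, 5} e = x1 at *
    clear hij
    revert x0 x1
    decide
  · rw [famred2_row (famred2_u e) _ [7] (by decide) (by decide),
      famred2_row (famred2_t e) _ [12, 13] (by decide) (by decide),
      show famred2_cnt Q2 {2, 8} = 1 by decide]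
    show coef {2, 8} e + ((coef {4, 5} e + coef {4, 6} e) + 0) = 1 + ((coef {2, 7} e + coef {4, 5} e + 1) + ((coef {2, 8} e + coef {3, 5} e + 1) + 0))
    clear e0 e1 e2 e3 e4 e5 e6 e7
    generalize coef {2, 7} e = x0 at *
    generalize coef {2, 8} e = x1 at *
    generalize coef {3, 5} e = x2 at *
    generalize coef {4, 5} e = x3 at *
    generalize coef {4, 6} e = x4 at *
    clear hij
    revert x0 x1 x2 x3 x4
    decide
  · rw [famred2_row (famred2_u e) _ [0] (by decide) (by decide),
      famred2_row (famred2_t e) _ [] (by decide) (by decide),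
      show famred2_cnt Q2 {3, 4} = 0 by decide]
    show coef {3, 4} e + ((coef {1, 2} e) + 0) = 0 + 0
    clear e1 e2 e3 e4 e5 e6 e7 e8
    generalize coef {1, 2} e = x0 at *
    generalize coef {3, 4} e = x1 at *
    clear hij
    revert x0 x1
    decide
  · rw [famred2_row (famred2_u e) _ [7] (by decide) (by decide),
      famred2_row (famred2_t e) _ [12] (by decide) (by decide),
      show famred2_cnt Q2 {3, 5} = 0 by decide]
    show coef {3, 5} e + ((coef {4, 5} e + coef {4, 6} e) + 0) = 0 + ((coef {2, 7} e + coef {4, 5} e + 1) + 0)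
    clear e0 e1 e2 e3 e4 e5 e6 e7
    generalize coef {2, 7} e = x0 at *
    generalize coef {3, 5} e = x1 at *
    generalize coef {4, 5} e = x2 at *
    generalize coef {4, 6} e = x3 at *
    clear hij
    revert x0 x1 x2 x3
    decide
  · rw [famred2_row (famred2_u e) _ [8] (by decide) (by decide),
      famred2_row (famred2_t e) _ [13] (by decide) (by decide),
      show famred2_cnt Q2 {3, 6} = 0 by decide]
    show coef {3, 6} e + ((coef {4, 5} e) + 0) = 0 + ((coef {2, 8} e + coef {3, 5} e + 1) + 0)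
    clear e0 e1 e2 e3 e4 e5 e6 e8
    generalize coef {2, 8} e = x0 at *
    generalize coef {3, 5} e = x1 at *
    generalize coef {3, 6} e = x2 at *
    generalize coef {4, 5} e = x3 at *
    clear hij
    revert x0 x1 x2 x3
    decide
  · rw [famred2_row (famred2_u e) _ [5] (by decide) (by decide),
      famred2_row (famred2_t e) _ [14] (by decide) (by decide),
      show famred2_cnt Q2 {3, 7} = 0 by decide]
    show coef {3, 7} e + ((coef {4, 7} e + coef {4, 8} e) + 0) = 0 + ((coef {1, 5} e + coef {4, 7} e + 1) + 0)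
    clear e0 e1 e2 e3 e4 e5 e7 e8
    generalize coef {1, 5} e = x0 at *
    generalize coef {3, 7} e = x1 at *
    generalize coef {4, 7} e = x2 at *
    generalize coef {4, 8} e = x3 at *
    clear hij
    revert x0 x1 x2 x3
    decide
  · rw [famred2_row (famred2_u e) _ [6] (by decide) (by decide),
      famred2_row (famred2_t e) _ [15] (by decide) (by decide),
      show famred2_cnt Q2 {3, 8} = 0 by decide]
    show coef {3, 8} e + ((coef {4, 7} e) + 0) = 0 + ((coef {1, 6} e + coef {3, 7} e + 1) + 0)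
    clear e0 e1 e2 e3 e4 e6 e7 e8
    generalize coef {1, 6} e = x0 at *
    generalize coef {3, 7} e = x1 at *
    generalize coef {3, 8} e = x2 at *
    generalize coef {4, 7} e = x3 at *
    clear hij
    revert x0 x1 x2 x3
    decide
  · rw [famred2_row (famred2_u e) _ [8] (by decide) (by decide),
      famred2_row (famred2_t e) _ [] (by decide) (by decide),
      show famred2_cnt Q2 {4, 5} = 0 by decide]
    show coef {4, 5} e + ((coef {4, 5} e) + 0) = 0 + 0
    clear e0 e1 e2 e3 e4 e5 e6 e7 e8
    generalize coef {4, 5} e = x0 at *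
    clear hij
    revert x0
    decide
  · rw [famred2_row (famred2_u e) _ [7, 8] (by decide) (by decide),
      famred2_row (famred2_t e) _ [] (by decide) (by decide),
      show famred2_cnt Q2 {4, 6} = 0 by decide]
    show coef {4, 6} e + ((coef {4, 5} e + coef {4, 6} e) + ((coef {4, 5} e) + 0)) = 0 + 0
    clear e0 e1 e2 e3 e4 e5 e6 e7 e8
    generalize coef {4, 5} e = x0 at *
    generalize coef {4, 6} e = x1 at *
    clear hij
    revert x0 x1
    decide
  · rw [famred2_row (famred2_u e) _ [6] (by decide) (by decide),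
      famred2_row (famred2_t e) _ [] (by decide) (by decide),
      show famred2_cnt Q2 {4, 7} = 0 by decide]
    show coef {4, 7} e + ((coef {4, 7} e) + 0) = 0 + 0
    clear e0 e1 e2 e3 e4 e5 e6 e7 e8
    generalize coef {4, 7} e = x0 at *
    clear hij
    revert x0
    decide
  · rw [famred2_row (famred2_u e) _ [5, 6] (by decide) (by decide),
      famred2_row (famred2_t e) _ [] (by decide) (by decide),
      show famred2_cnt Q2 {4, 8} = 0 by decide]
    show coef {4, 8} e + ((coef {4, 7} e + coef {4, 8} e) + ((coef {4, 7} e) + 0)) = 0 + 0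
    clear e0 e1 e2 e3 e4 e5 e6 e7 e8
    generalize coef {4, 7} e = x0 at *
    generalize coef {4, 8} e = x1 at *
    clear hij
    revert x0 x1
    decide
  · rw [famred2_row (famred2_u e) _ [1] (by decide) (by decide),
      famred2_row (famred2_t e) _ [] (by decide) (by decide),
      show famred2_cnt Q2 {5, 6} = 0 by decide]
    show coef {5, 6} e + ((coef {0, 2} e) + 0) = 0 + 0
    clear e0 e2 e3 e4 e5 e6 e7 e8
    generalize coef {0, 2} e = x0 at *
    generalize coef {5, 6} e = x1 at *
    clear hij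
    revert x0 x1
    decide
  · rw [famred2_row (famred2_u e) _ [3] (by decide) (by decide),
      famred2_row (famred2_t e) _ [16] (by decide) (by decide),
      show famred2_cnt Q2 {5, 7} = 0 by decide]
    show coef {5, 7} e + ((coef {6, 7} e + coef {6, 8} e) + 0) = 0 + ((coef {0, 3} e + coef {6, 7} e + 1) + 0)
    clear e0 e1 e2 e3 e5 e6 e7 e8
    generalize coef {0, 3} e = x0 at *
    generalize coef {5, 7} e = x1 at *
    generalize coef {6, 7} e = x2 at *
    generalize coef {6, 8} e = x3 at *
    clear hij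
    revert x0 x1 x2 x3
    decide
  · rw [famred2_row (famred2_u e) _ [4] (by decide) (by decide),
      famred2_row (famred2_t e) _ [17] (by decide) (by decide),
      show famred2_cnt Q2 {5, 8} = 0 by decide]
    show coef {5, 8} e + ((coef {6, 7} e) + 0) = 0 + ((coef {0, 4} e + coef {5, 7} e + 1) + 0)
    clear e0 e1 e2 e4 e5 e6 e7 e8
    generalize coef {0, 4} e = x0 at *
    generalize coef {5, 7} e = x1 at *
    generalize coef {5, 8} e = x2 at *
    generalize coef {6, 7} e = x3 at *
    clear hij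
    revert x0 x1 x2 x3
    decide
  · rw [famred2_row (famred2_u e) _ [4] (by decide) (by decide),
      famred2_row (famred2_t e) _ [] (by decide) (by decide),
      show famred2_cnt Q2 {6, 7} = 0 by decide]
    show coef {6, 7} e + ((coef {6, 7} e) + 0) = 0 + 0
    clear e0 e1 e2 e3 e4 e5 e6 e7 e8
    generalize coef {6, 7} e = x0 at *
    clear hij
    revert x0
    decide
  · rw [famred2_row (famred2_u e) _ [3, 4] (by decide) (by decide),
      famred2_row (famred2_t e) _ [] (by decide) (by decide),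
      show famred2_cnt Q2 {6, 8} = 0 by decide]
    show coef {6, 8} e + ((coef {6, 7} e + coef {6, 8} e) + ((coef {6, 7} e) + 0)) = 0 + 0
    clear e0 e1 e2 e3 e4 e5 e6 e7 e8
    generalize coef {6, 7} e = x0 at *
    generalize coef {6, 8} e = x1 at *
    clear hij
    revert x0 x1
    decide
  · rw [famred2_row (famred2_u e) _ [2] (by decide) (by decide),
      famred2_row (famred2_t e) _ [] (by decide) (by decide),
      show famred2_cnt Q2 {7, 8} = 0 by decide]
    show coef {7, 8} e + ((coef {0, 1} e) + 0) = 0 + 0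
    clear e0 e1 e3 e4 e5 e6 e7 e8
    generalize coef {0, 1} e = x0 at *
    generalize coef {7, 8} e = x1 at *
    clear hij
    revert x0 x1
    decide

theorem famRed2 {e d : V → ZMod 2} (h : Pair e d)
    (hf : ∀ i j k : Fin 9, i < j → j < k →
      tri e (E i) (E j) (E k) = if (i, j, k) ∈ L2 then 1 else 0) :
    ∃ (t : Fin 18 → ZMod 2) (d' : V → ZMod 2), Pair (fam T2 Q2 B2 t) d' := by
  refine ⟨famred2_t e, h.normalise (fam T2 Q2 B2 (famred2_t e))
    (DegLT_fam T2 Q2 B2 (by decide) (by decide) (by decide) _) (famred2_u e) ?_ ?_ ?_ ?_⟩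
  · intro i j k hij hjk
    have hik := hij.trans hjk
    rw [coef_eq_tri e i j k hij.ne hik.ne hjk.ne, hf i j k hij hjk, famred2_coef1,
      famred2_row _ _ [] (by decide) ?_, List.map_nil, List.sum_nil, add_zero]
    · revert i j k; decide
    · revert i j k; decide
  · intro i j hij
    have h1 : ∀ k, famred2_u e k * tri e (E i) (E j) (E k)
        = famred2_u e k * famred2_M i j k := fun k => by
      rw [famred2_tri h.he hf i j k hij]
    rw [Finset.sum_congr rfl fun k _ => h1 k, famred2_coef1, famred2_T2_2, zero_add]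
    exact famred2_h2 h hf i j hij
  · intro i
    rw [famred2_coef1, famred2_row _ _ [] (by decide) ?_, List.map_nil, List.sum_nil, add_zero]
    · revert i; decide
    · revert i; decide
  · rw [famred2_coef1, famred2_row _ _ [] (by decide) ?_, List.map_nil, List.sum_nil, add_zero]
    · decide
    · decide

end Pool.Agent.H.MP_694475_co
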