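import Pool.Agent.H.MP_694475_co.TriDef

/-! The trilinear form of a cubic function. -/

open Finset

namespace Pool.Agent.H.MP_694475_co

/-- third derivative at `0` -/
def tri (e : V → ZMod 2) (u v w : V) : ZMod 2 := D u (D v (D w e)) 0

theorem triform_comm (u v : V) (k : V → ZMod 2) : D u (D v k) = D v (D u k) := by
  funext a
  show k (a + u + v) + k (a + u) + (k (a + v) + k a) = k (a + v + u) + k (a + v) + (k (a + u) + k a)
  rw [add_right_comm a u v]; ring

theorem triform_self (u : V) (k : V → ZMod 2) (a : V) : D u (D u k) a = 0 := by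
  show k (a + u + u) + k (a + u) + (k (a + u) + k a) = 0
  rw [add_add_cancel_V]
  have h := add_self_zmod2 (k (a + u))
  have h' := add_self_zmod2 (k a)
  linear_combination h + h'

theorem triform_const {e : V → ZMod 2} (he : DegLT 4 e) (u v w a : V) :
    D u (D v (D w e)) a = D u (D v (D w e)) 0 := by
  have h : D a (D u (D v (D w e))) 0 = 0 := he w v u a 0
  have h1 : D u (D v (D w e)) (0 + a) + D u (D v (D w e)) 0 = 0 := h
  rw [zero_add] at h1
  have h2 := add_self_zmod2 (D u (D v (D w e)) 0)
  linear_combination h1 - h2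

theorem tri_isTri {e : V → ZMod 2} (he : DegLT 4 e) : IsTri (tri e) := by
  refine ⟨?_, ?_, ?_, ?_⟩
  · intro u u' v w
    have h := triform_const he u' v w u
    have h1 : D v (D w e) (u + u') + D v (D w e) u
        = D v (D w e) (0 + u') + D v (D w e) 0 := h
    show D v (D w e) (0 + (u + u')) + D v (D w e) 0
      = (D v (D w e) (0 + u) + D v (D w e) 0) + (D v (D w e) (0 + u') + D v (D w e) 0)
    rw [zero_add, zero_add, zero_add] at *
    have h2 := add_self_zmod2 (D v (D w e) u)
    linear_combination h1 - h2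
  · intro u v w
    show D u (D v (D w e)) 0 = D v (D u (D w e)) 0
    rw [triform_comm u v]
  · intro u v w
    show D u (D v (D w e)) 0 = D u (D w (D v e)) 0
    rw [triform_comm v w]
  · intro u w
    exact triform_self u (D w e) 0

/-- the third derivative does not depend on the base point -/
theorem tri_base {e : V → ZMod 2} (he : DegLT 4 e) (u v w a : V) :
    D u (D v (D w e)) a = tri e u v w := triform_const he u v w a

theorem coef_eq_tri (e : V → ZMod 2) (i j k : Fin 9) (hij : i ≠ j) (hik : i ≠ k) (hjk : j ≠ k) :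
    coef {i, j, k} e = tri e (E i) (E j) (E k) := by
  have h1 : i ∉ ({j, k} : Finset (Fin 9)) := by simp [hij, hik]
  have h2 : j ∉ ({k} : Finset (Fin 9)) := by simp [hjk]
  have h3 : ({k} : Finset (Fin 9)) = insert k ∅ := rfl
  rw [coef_insert _ _ _ h1, coef_insert _ _ _ h2, h3, coef_insert _ _ _ (by simp), coef_empty]
  show D (E k) (D (E j) (D (E i) e)) 0 = D (E i) (D (E j) (D (E k) e)) 0
  rw [triform_comm (E k) (E j), triform_comm (E k) (E i), triform_comm (E j) (E i)]

theorem triform_D_lin (f : V → ZMod 2) (b : Fin 9 → V) (i : Fin 9) :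
    D (E i) (fun a => f (lin b a)) = fun a => D (b i) f (lin b a) := by
  funext a
  show f (lin b (a + E i)) + f (lin b a) = f (lin b a + b i) + f (lin b a)
  rw [lin_add, lin_E]

theorem tri_lin (e : V → ZMod 2) (b : Fin 9 → V) (i j k : Fin 9) :
    tri (fun a => e (lin b a)) (E i) (E j) (E k) = tri e (b i) (b j) (b k) := by
  unfold tri
  rw [triform_D_lin, triform_D_lin, triform_D_lin]
  have h0 : lin b 0 = 0 := by simp [lin]
  show D (b i) (D (b j) (D (b k) e)) (lin b 0) = _
  rw [h0]

end Pool.Agent.H.MP_694475_co
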