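import Pool.Agent.H.MP_694475_co.Family
import Pool.Agent.H.MP_694475_co.TriForm
import Pool.Agent.H.MP_694475_co.PairF1
import Pool.Agent.H.MP_694475_co.CovComb

/-! Tools for the reduction of the quadratic part. -/

open Finset

namespace Pool.Agent.H.MP_694475_co

private theorem famtools_D_shift (v u : V) (k : V → ZMod 2) :
    D v (fun a => k (a + u)) = fun a => D v k (a + u) := by
  funext a
  simp only [D]
  rw [add_right_comm]

private theorem famtools_pair (i j : Fin 9) (hij : i ≠ j) (e : V → ZMod 2) :
    coef {i, j} e = D (E j) (D (E i) e) 0 := by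
  have h1 : ({i, j} : Finset (Fin 9)) = insert i {j} := rfl
  rw [h1, coef_insert e {j} i (by simpa using hij)]
  have h2 : ({j} : Finset (Fin 9)) = insert j ∅ := rfl
  rw [h2, coef_insert _ ∅ j (by simp), coef_empty]

private theorem famtools_expand (u : V) : u = ∑ k, u k • E k := by
  funext i
  simp [E, Finset.sum_apply, Pi.single_apply]

private theorem famtools_tri_zero {T : V → V → V → ZMod 2} (hT : IsTri T) (v w : V) :
    T 0 v w = 0 := by
  have h := hT.add 0 0 v w
  rw [add_zero] at h
  simpa using h

private theorem famtools_tri_sum {T : V → V → V → ZMod 2} (hT : IsTri T) (u v w : V)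
    (s : Finset (Fin 9)) :
    T (∑ k ∈ s, u k • E k) v w = ∑ k ∈ s, u k * T (E k) v w := by
  classical
  induction s using Finset.induction_on with
  | empty => simpa using famtools_tri_zero hT v w
  | insert a s ha ih =>
    rw [Finset.sum_insert ha, Finset.sum_insert ha, hT.add, ih]
    congr 1
    rcases zmod2_cases (u a) with h | h
    · rw [h, zero_smul, zero_mul]
      exact famtools_tri_zero hT v w
    · rw [h, one_smul, one_mul]

theorem coef_shift3 {e : V → ZMod 2} (he : DegLT 4 e) (u : V) (K : Finset (Fin 9))
    (hK : 3 ≤ K.card) : coef K (fun a => e (a + u)) = coef K e := by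
  rcases Nat.lt_or_ge K.card 4 with h | h
  · have h3 : K.card = 3 := by omega
    obtain ⟨i, j, k, hij, hik, hjk, rfl⟩ := Finset.card_eq_three.1 h3
    rw [coef_eq_tri _ i j k hij hik hjk, coef_eq_tri _ i j k hij hik hjk]
    have e1 : tri (fun a => e (a + u)) (E i) (E j) (E k)
        = D (E i) (D (E j) (D (E k) e)) (0 + u) := by
      unfold tri
      rw [famtools_D_shift, famtools_D_shift, famtools_D_shift]
    rw [e1, tri_base he]
  · rw [coef_eq_zero (he.shift u) K h, coef_eq_zero he K h]

theorem coef_shift2 {e : V → ZMod 2} (he : DegLT 4 e) (u : V) (i j : Fin 9) (hij : i ≠ j) :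
    coef {i, j} (fun a => e (a + u)) = coef {i, j} e + ∑ k, u k * tri e (E i) (E j) (E k) := by
  rw [famtools_pair i j hij, famtools_pair i j hij, famtools_D_shift, famtools_D_shift]
  have hT := tri_isTri he
  have h1 : tri e u (E j) (E i)
      = D (E j) (D (E i) e) (0 + u) + D (E j) (D (E i) e) 0 := rfl
  have h2 : tri e u (E j) (E i) = ∑ k, u k * tri e (E i) (E j) (E k) := by
    have h3 := famtools_tri_sum hT u (E j) (E i) univ
    rw [← famtools_expand u] at h3
    rw [h3]
    refine Finset.sum_congr rfl fun k _ => ?_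
    rw [hT.sw23 (E k), hT.sw12 (E k), hT.sw23 (E i)]
  rw [← h2, h1]
  have h4 := add_self_zmod2 (D (E j) (D (E i) e) 0)
  linear_combination -h4

theorem coef_dot (l : V) (K : Finset (Fin 9)) :
    coef K (fun a => dot l a) = ∑ i, if K = {i} then l i else 0 := by
  apply coef_unique (fun a => dot l a) (fun K => ∑ i, if K = {i} then l i else 0)
  intro a
  simp_rw [Finset.sum_mul]
  rw [Finset.sum_comm]
  unfold dot
  refine Finset.sum_congr rfl fun i _ => ?_
  rw [Finset.sum_eq_single {i}]
  · simp [mon]
  · intro b _ hb
    simp [hb]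
  · simp

theorem coef_pval (ms : List (List (Fin 9))) (h : ∀ m ∈ ms, m.Nodup) (K : Finset (Fin 9)) :
    coef K (pval ms) = ((ms.filter (fun m => m.toFinset = K)).length : ZMod 2) := by
  induction ms with
  | nil => simp [coef, pval]
  | cons m ms ih =>
    have hm : m.Nodup := h m (by simp)
    have ih' := ih (fun m' hm' => h m' (List.mem_cons_of_mem _ hm'))
    have e1 : pval (m :: ms) = fun a => mon m.toFinset a + pval ms a := by
      funext a
      simp only [pval, List.map_cons, List.sum_cons, mon]
      rw [List.prod_toFinset _ hm]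
    rw [e1, coef_add]
    have e2 : coef K (fun a => mon m.toFinset a) = if K = m.toFinset then 1 else 0 :=
      coef_mon K m.toFinset
    rw [show coef K (mon m.toFinset) = if K = m.toFinset then 1 else 0 from e2, ih',
      List.filter_cons]
    by_cases hK : m.toFinset = K
    · simp [hK]
      ring
    · have hK' : ¬ K = m.toFinset := fun h => hK h.symm
      simp [hK, hK']

private theorem famtools_coef_sum (K : Finset (Fin 9)) (f : Fin 18 → V → ZMod 2) :
    coef K (fun a => ∑ j, f j a) = ∑ j, coef K (f j) := by
  unfold coef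
  rw [Finset.sum_comm]

private theorem famtools_coef_mul (K : Finset (Fin 9)) (c : ZMod 2) (f : V → ZMod 2) :
    coef K (fun a => c * f a) = c * coef K f := by
  unfold coef
  rw [Finset.mul_sum]

private theorem famtools_pval_zero (ms : List (List (Fin 9)))
    (h : ∀ m ∈ ms, m.Nodup ∧ m.length ≤ 3) (K : Finset (Fin 9)) (hK : 4 ≤ K.card) :
    coef K (pval ms) = 0 := by
  rw [coef_pval ms (fun m hm => (h m hm).1)]
  have : ms.filter (fun m => m.toFinset = K) = [] := by
    rw [List.filter_eq_nil_iff]
    intro m hm hmK
    simp only [decide_eq_true_eq] at hmK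
    have h1 := List.toFinset_card_le m
    rw [hmK] at h1
    have h2 := (h m hm).2
    omega
  rw [this]
  simp

theorem DegLT_fam (T Q : List (List (Fin 9))) (B : List (List (List (Fin 9))))
    (hT : ∀ m ∈ T, m.Nodup ∧ m.length ≤ 3) (hQ : ∀ m ∈ Q, m.Nodup ∧ m.length ≤ 3)
    (hB : ∀ l ∈ B, ∀ m ∈ l, m.Nodup ∧ m.length ≤ 3) (t : Fin 18 → ZMod 2) :
    DegLT 4 (fam T Q B t) := by
  apply DegLT_of_coef
  intro K hK
  have e1 : fam T Q B t = fun a => (pval T a + pval Q a)
      + ∑ j : Fin 18, t j * pval (B.getD j.val []) a := rfl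
  rw [e1, coef_add, coef_add, famtools_coef_sum K (fun j a => t j * pval (B.getD j.val []) a)]
  have e2 : ∀ j : Fin 18, coef K (fun a => t j * pval (B.getD j.val []) a) = 0 := by
    intro j
    rw [famtools_coef_mul, famtools_pval_zero _ _ K hK, mul_zero]
    intro m hm
    by_cases hj : j.val < B.length
    · rw [List.getD_eq_getElem _ _ hj] at hm
      exact hB _ (List.getElem_mem hj) m hm
    · rw [List.getD_eq_default _ _ (by omega)] at hm
      simp at hm
  have e3 : coef K (fun a => pval T a) = 0 := famtools_pval_zero T hT K hK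
  have e4 : coef K (fun a => pval Q a) = 0 := famtools_pval_zero Q hQ K hK
  simp only [e2, Finset.sum_const_zero, add_zero]
  rw [show coef K (pval T) = 0 from e3, show coef K (pval Q) = 0 from e4, add_zero]

theorem eq_of_coef {e f : V → ZMod 2} (he : DegLT 4 e) (hf : DegLT 4 f)
    (h : ∀ K : Finset (Fin 9), K.card ≤ 3 → coef K e = coef K f) : e = f := by
  funext a
  rw [anf e a, anf f a]
  refine Finset.sum_congr rfl fun K _ => ?_
  rcases Nat.lt_or_ge K.card 4 with hK | hK
  · rw [h K (by omega)]
  · rw [coef_eq_zero he K hK, coef_eq_zero hf K hK]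

private theorem famtools_coef_const (K : Finset (Fin 9)) (hK : 1 ≤ K.card) (c : ZMod 2) :
    coef K (fun _ => c) = 0 := coef_eq_zero (DegLT_const c) K hK

private theorem famtools_coef_dot_zero (l : V) (K : Finset (Fin 9)) (hK : K.card ≠ 1) :
    coef K (fun a => dot l a) = 0 := by
  rw [coef_dot]
  apply Finset.sum_eq_zero
  intro i _
  rw [if_neg]
  intro h
  apply hK
  rw [h]
  simp

private theorem famtools_s1 (x y z : Fin 9) : ({x, y, z} : Finset (Fin 9)) = {y, x, z} :=
  Finset.insert_comm x y {z}

private theorem famtools_s2 (x y z : Fin 9) : ({x, y, z} : Finset (Fin 9)) = {x, z, y} := by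
  rw [Finset.pair_comm y z]

/-- normalisation of the constant, linear and quadratic terms -/
theorem Pair.normalise {e d : V → ZMod 2} (h : Pair e d) (f : V → ZMod 2) (hf : DegLT 4 f) (u : V)
    (h3 : ∀ i j k : Fin 9, i < j → j < k → coef {i, j, k} e = coef {i, j, k} f)
    (h2 : ∀ i j : Fin 9, i < j →
      coef {i, j} e + ∑ k, u k * tri e (E i) (E j) (E k) = coef {i, j} f)
    (h1 : ∀ i : Fin 9, coef {i} f = 0) (h0 : coef ∅ f = 0) : ∃ d', Pair f d' := by
  set l : V := fun i => coef {i} (fun a => e (a + u)) with hl
  set c : ZMod 2 := coef ∅ (fun a => e (a + u)) with hc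
  have hp : ∃ d', Pair (fun a => e (a + u) + dot l a + c) d' := by
    have hp1 := (h.shift u).addlin l
    rcases zmod2_cases c with h' | h'
    · rw [h']
      simp only [add_zero]
      exact ⟨_, hp1⟩
    · rw [h']
      exact ⟨_, hp1.compl⟩
  obtain ⟨d', hd'⟩ := hp
  have key : (fun a => e (a + u) + dot l a + c) = f := by
    apply eq_of_coef hd'.he hf
    intro K hK
    have hsplit : coef K (fun a => e (a + u) + dot l a + c)
        = coef K (fun a => e (a + u)) + coef K (fun a => dot l a) + coef K (fun _ => c) := by
      rw [coef_add, coef_add]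
    have hcase : K.card = 0 ∨ K.card = 1 ∨ K.card = 2 ∨ K.card = 3 := by omega
    rcases hcase with hk | hk | hk | hk
    · have hKe : K = ∅ := Finset.card_eq_zero.1 hk
      subst hKe
      rw [h0, hsplit, famtools_coef_dot_zero l ∅ (by simp), coef_empty (fun _ => c), ← hc,
        add_zero]
      exact add_self_zmod2 c
    · obtain ⟨i, rfl⟩ := Finset.card_eq_one.1 hk
      rw [h1 i, hsplit, famtools_coef_const _ (by simp), add_zero, coef_dot]
      have e1 : (∑ i', if ({i} : Finset (Fin 9)) = {i'} then l i' else 0) = l i := by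
        rw [Finset.sum_eq_single i]
        · simp
        · intro b _ hb
          rw [if_neg]
          intro hh
          exact hb (Finset.singleton_injective hh).symm
        · simp
      rw [e1]
      exact add_self_zmod2 (l i)
    · obtain ⟨x, y, hxy, rfl⟩ := Finset.card_eq_two.1 hk
      rw [hsplit, famtools_coef_const _ (by omega), add_zero,
        famtools_coef_dot_zero l _ (by omega), add_zero]
      rcases lt_or_gt_of_ne hxy with hlt | hlt
      · rw [coef_shift2 h.he u x y hxy]
        exact h2 x y hlt
      · rw [Finset.pair_comm x y, coef_shift2 h.he u y x hxy.symm]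
        exact h2 y x hlt
    · rw [hsplit, famtools_coef_const _ (by omega), add_zero,
        famtools_coef_dot_zero l _ (by omega), add_zero, coef_shift3 h.he u K (by omega)]
      obtain ⟨x, y, z, hxy, hxz, hyz, rfl⟩ := Finset.card_eq_three.1 hk
      have key3 : ∀ a b c' : Fin 9, a < b → b < c' →
          ({x, y, z} : Finset (Fin 9)) = {a, b, c'} →
          coef {x, y, z} e = coef {x, y, z} f := by
        intro a b c' hab hbc hs
        rw [hs]
        exact h3 a b c' hab hbc
      rcases lt_or_gt_of_ne hxy with p1 | p1 <;> rcases lt_or_gt_of_ne hyz with p2 | p2 <;>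
        rcases lt_or_gt_of_ne hxz with p3 | p3
      · exact key3 x y z p1 p2 rfl
      · exact absurd (lt_trans p1 p2) (not_lt.2 (le_of_lt p3))
      · exact key3 x z y p3 p2 (famtools_s2 x y z)
      · exact key3 z x y p3 p1 ((famtools_s2 x y z).trans (famtools_s1 x z y))
      · exact key3 y x z p1 p3 (famtools_s1 x y z)
      · exact key3 y z x p2 p3 ((famtools_s1 x y z).trans (famtools_s2 y x z))
      · exact absurd (lt_trans p2 p1) (not_lt.2 (le_of_lt p3))
      · exact key3 z y x p2 p1 (((famtools_s2 x y z).trans (famtools_s1 x z y)).trans (famtools_s2 z x y))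
  rw [key] at hd'
  exact ⟨d', hd'⟩

end Pool.Agent.H.MP_694475_co
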