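import Pool.Agent.H.MP_694475_co.Main
import Pool.Agent.H.MP_694475_co.Lower

namespace Pool.Agent.H.MP_694475_co

theorem covering_radius_nine : IsCoveringRadius (RM1 9) 242 := by
  constructor
  · intro f
    exact upper_of_large exists_large f
  · intro ρ hρ
    obtain ⟨g, hg, hd⟩ := hρ f242
    exact (lower g hg).trans hd

end Pool.Agent.H.MP_694475_co
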