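import Pool.Agent.H.MP_694475_co.PackFwt

/-! Soundness of `check`. -/

namespace Pool.Agent.H.MP_694475_co

/-- subset sums of a list of shifts -/
def packsound_SS : List ℕ → ℕ → Prop
  | [], x => x = 0
  | s :: ss, x => ∃ e ≤ 1, ∃ y, packsound_SS ss y ∧ x = e * s + y

theorem packsound_fold (ss : List ℕ) : ∀ (W j : ℕ),
    (∀ x, packsound_SS ss x → W.testBit (j + x) = false) → (fold W ss).testBit j = false := by
  induction ss with
  | nil =>
    intro W j h
    have := h 0 rfl
    simpa [fold] using this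
  | cons s ss ih =>
    intro W j h
    rw [fold, seq_eq]
    apply ih
    intro x hx
    rw [Nat.testBit_or, Nat.testBit_shiftRight]
    have h1 := h x ⟨0, by omega, x, hx, by omega⟩
    have h2 := h (s + x) ⟨1, le_rfl, x, hx, by omega⟩
    rw [h1]
    have h3 : s + (j + x) = j + (s + x) := by omega
    rw [h3, h2]
    rfl

theorem packsound_shifts (l x : ℕ) (h : packsound_SS (shifts l) x) :
    ∃ p r, p < 512 ∧ r < 16 ∧ x = 16 * (2 ^ l * p) + r := by
  simp only [shifts, packsound_SS] at h
  obtain ⟨e1, h1, y1, ⟨e2, h2, y2, ⟨e3, h3, y3, ⟨e4, h4, y4, ⟨e5, h5, y5, ⟨e6, h6, y6,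
    ⟨e7, h7, y7, ⟨e8, h8, y8, ⟨e9, h9, y9, ⟨e10, h10, y10, ⟨e11, h11, y11, ⟨e12, h12, y12,
    ⟨e13, h13, y13, rfl, rfl⟩, rfl⟩, rfl⟩, rfl⟩, rfl⟩, rfl⟩, rfl⟩, rfl⟩, rfl⟩, rfl⟩, rfl⟩, rfl⟩,
    rfl⟩ := h
  refine ⟨256 * e1 + 128 * e2 + 64 * e3 + 32 * e4 + 16 * e5 + 8 * e6 + 4 * e7 + 2 * e8 + e9,
    8 * e10 + 4 * e11 + 2 * e12 + e13, by omega, by omega, ?_⟩
  simp only [pow_add]
  ring

/-- if the folded number has bit 0 of lane `t` then some lane `t + 2^l p` is nonzero -/
theorem fold_spec (l W t : ℕ) (ht : t < 2 ^ l)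
    (h : ∀ a : V, ln W (idx l t a) = 0) : (fold W (shifts l)).testBit (16 * t) = false := by
  apply packsound_fold
  intro x hx
  obtain ⟨p, r, hp, hr, rfl⟩ := packsound_shifts l x hx
  have hlt : t + 2 ^ l * p < 2 ^ (l + 9) := by
    have h1 : 2 ^ l * p ≤ 2 ^ l * 511 := Nat.mul_le_mul_left _ (by omega)
    have h2 : (2 : ℕ) ^ (l + 9) = 2 ^ l * 512 := by rw [pow_add]; norm_num
    omega
  obtain ⟨t', ht', a, ha⟩ := exists_idx l (t + 2 ^ l * p) hlt
  have hmod : t = t' := by
    have h1 : (t + 2 ^ l * p) % 2 ^ l = t := by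
      rw [Nat.add_mul_mod_self_left]; exact Nat.mod_eq_of_lt ht
    have h2 : idx l t' a % 2 ^ l = t' := by
      unfold idx; rw [Nat.add_mul_mod_self_left]; exact Nat.mod_eq_of_lt ht'
    rw [← h1, ha, h2]
  subst hmod
  have h1 := ln_testBit W (idx l t a) r hr
  rw [h a] at h1
  have h3 : 16 * t + (16 * (2 ^ l * p) + r) = 16 * idx l t a + r := by
    rw [← ha]; ring
  rw [h3, ← h1]
  simp

theorem packsound_pidx_zero (a : V) (h : pidx a = 0) : a = 0 := by
  funext i
  unfold pidx at h
  rw [Finset.sum_eq_zero_iff] at h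
  have h1 := h i (Finset.mem_univ i)
  have h2 : (a i).val = 0 := by
    rcases Nat.mul_eq_zero.mp h1 with h | h
    · exact h
    · exact absurd h (by positivity)
  exact (ZMod.val_eq_zero _).mp h2

theorem packsound_idx_lt (l t : ℕ) (ht : t < 2 ^ l) (a : V) : idx l t a < 2 ^ l ↔ a = 0 := by
  constructor
  · intro h
    apply packsound_pidx_zero
    unfold idx at h
    by_contra hc
    have h1 : 2 ^ l * 1 ≤ 2 ^ l * pidx a := Nat.mul_le_mul_left _ (by omega)
    omega
  · rintro rfl
    have : pidx 0 = 0 := by simp [pidx]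
    unfold idx
    rw [this]; omega

theorem packsound_sgn (a : ZMod 2) : sgn a = 1 - 2 * ((a.val : ℕ) : ℤ) := by
  revert a; decide

theorem packsound_WT_aff (F : V → ℤ) (w : V → ℕ) (h : ∀ a, F a = 1 - 2 * (w a : ℤ)) (x : V) :
    WT F x = (if x = 0 then 512 else 0) - 2 * WT (fun a => (w a : ℤ)) x := by
  have h1 : F = fun a => (fun _ => (1 : ℤ)) a - (fun a => 2 * (w a : ℤ)) a := funext h
  rw [h1, WT_sub, WT_one, WT_const_mul]

theorem packsound_fwt (l b : ℕ) (β : ℕ → V → ℕ) (hβ : ∀ t < 2 ^ l, ∀ a, β t a ≤ 1)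
    (hb : ∀ t < 2 ^ l, ∀ a, ln b (idx l t a) = β t a)
    (hb1 : ∀ i, ln b i ≤ if i < 2 ^ (l + 9) then 1 else 0) :
    (∀ t < 2 ^ l, ∀ x,
      (ln (fwt l (patList (l + 9) (l + 9)) (ones (l + 9)) 9 1 (b + ones (l + 9))) (idx l t x) : ℤ)
      = 512 + WT (fun a => (β t a : ℤ)) x) ∧
    (∀ i, ln (fwt l (patList (l + 9) (l + 9)) (ones (l + 9)) 9 1 (b + ones (l + 9))) i
      ≤ 1024) := by
  have hadd : ∀ i, ln (b + ones (l + 9)) i = ln b i + ln (ones (l + 9)) i := by
    intro i
    apply ln_add
    intro i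
    have h1 := hb1 i
    rw [ln_ones]
    split_ifs at h1 ⊢ <;> omega
  have h := fwt_spec l (b + ones (l + 9)) β hβ ?_ ?_
  · exact ⟨h.1, h.2.2⟩
  · intro t ht a
    rw [hadd, hb t ht a, ln_ones, if_pos (idx_lt l t ht a)]
  · intro i hi
    have h1 := hb1 i
    rw [hadd, ln_ones]
    rw [if_neg (by omega)] at h1 ⊢
    omega

theorem packsound_lane1 (l U one z : ℕ) (hone : one = ones (l + 9)) (hz : z = ones l)
    (hU : ∀ i, ln U i ≤ 1024) (t : ℕ) (ht : t < 2 ^ l) (x : V) :
    ln ((U + 24 * one) ^^^ (512 * one + 256 * z)) (idx l t x)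
      = (ln U (idx l t x) + 24) ^^^ (512 + if x = 0 then 256 else 0) := by
  have h1 : ∀ i, ln one i ≤ 1 := by
    intro i; rw [hone, ln_ones]; split_ifs <;> omega
  have h2 : ∀ i, ln z i ≤ 1 := by
    intro i; rw [hz, ln_ones]; split_ifs <;> omega
  have h24 : ∀ i, ln (24 * one) i = 24 * ln one i :=
    ln_mul 24 one fun i => by have := h1 i; omega
  have h512 : ∀ i, ln (512 * one) i = 512 * ln one i :=
    ln_mul 512 one fun i => by have := h1 i; omega
  have h256 : ∀ i, ln (256 * z) i = 256 * ln z i :=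
    ln_mul 256 z fun i => by have := h2 i; omega
  rw [ln_xor, ln_add _ _ (fun i => by have := h1 i; have := hU i; rw [h24]; omega),
    ln_add _ _ (fun i => by have := h1 i; have := h2 i; rw [h512, h256]; omega), h24, h512, h256,
    hone, hz, ln_ones, ln_ones, if_pos (idx_lt l t ht x)]
  simp only [packsound_idx_lt l t ht x, mul_one]
  congr 2
  split_ifs <;> rfl

theorem packsound_lane2 (l U one z b : ℕ) (hone : one = ones (l + 9)) (hz : z = ones l)
    (hU : ∀ i, ln U i ≤ 1024) (hb1 : ∀ i, ln b i ≤ if i < 2 ^ (l + 9) then 1 else 0)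
    (t : ℕ) (ht : t < 2 ^ l) (x : V) :
    ln ((U + 12 * one - 8 * b) ^^^ (512 * one + 256 * z)) (idx l t x)
      = (ln U (idx l t x) + 12 - 8 * ln b (idx l t x)) ^^^ (512 + if x = 0 then 256 else 0) := by
  have h1 : ∀ i, ln one i ≤ 1 := by
    intro i; rw [hone, ln_ones]; split_ifs <;> omega
  have h2 : ∀ i, ln z i ≤ 1 := by
    intro i; rw [hz, ln_ones]; split_ifs <;> omega
  have h3 : ∀ i, ln b i ≤ ln one i := by
    intro i; rw [hone, ln_ones]; exact hb1 i
  have h12 : ∀ i, ln (12 * one) i = 12 * ln one i :=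
    ln_mul 12 one fun i => by have := h1 i; omega
  have h8 : ∀ i, ln (8 * b) i = 8 * ln b i :=
    ln_mul 8 b fun i => by have := h1 i; have := h3 i; omega
  have h512 : ∀ i, ln (512 * one) i = 512 * ln one i :=
    ln_mul 512 one fun i => by have := h1 i; omega
  have h256 : ∀ i, ln (256 * z) i = 256 * ln z i :=
    ln_mul 256 z fun i => by have := h2 i; omega
  have hadd : ∀ i, ln (U + 12 * one) i = ln U i + 12 * ln one i := by
    intro i
    rw [ln_add _ _ (fun i => by have := h1 i; have := hU i; rw [h12]; omega), h12]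
  rw [ln_xor, ln_sub _ _ (fun i => by have := h3 i; rw [hadd, h8]; omega), hadd, h8,
    ln_add _ _ (fun i => by have := h1 i; have := h2 i; rw [h512, h256]; omega), h512, h256,
    hone, hz, ln_ones, ln_ones, if_pos (idx_lt l t ht x)]
  simp only [packsound_idx_lt l t ht x, mul_one]
  congr 2
  split_ifs <;> rfl

theorem packsound_mask (l c one X : ℕ) (hone : one = ones (l + 9)) (hc : c < 65536)
    (t : ℕ) (ht : t < 2 ^ l) (x : V) :
    ln (X &&& (c * one)) (idx l t x) = ln X (idx l t x) &&& c := by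
  have h1 : ∀ i, ln one i ≤ 1 := by
    intro i; rw [hone, ln_ones]; split_ifs <;> omega
  have hcm : ∀ i, ln (c * one) i = c * ln one i :=
    ln_mul c one fun i => by
      have := h1 i
      have h2 : c * ln one i ≤ c * 1 := Nat.mul_le_mul_left _ this
      omega
  rw [ln_and, hcm, hone, ln_ones, if_pos (idx_lt l t ht x), mul_one]

theorem packsound_arith1 (w : ℤ) (u : ℕ) (p : Prop) [Decidable p]
    (hu : (u : ℤ) = 512 + w)
    (h : (if p then 512 else 0) - 2 * w = 16 ∨ (if p then 512 else 0) - 2 * w = -16 ∨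
      (if p then 512 else 0) - 2 * w = 48 ∨ (if p then 512 else 0) - 2 * w = -48) :
    (((u + 24) ^^^ (512 + if p then 256 else 0)) &&& 65487 = 0) ∧
    ((if 0 < (if p then 512 else 0) - 2 * w then (1 : ℤ) else -1)
      = 1 - 2 * (((if ((u + 24) ^^^ (512 + if p then 256 else 0)).testBit 5 then 1 else 0 : ℕ)) : ℤ))
      := by
  by_cases hp : p
  · simp only [if_pos hp] at h ⊢
    rcases h with h | h | h | h
    · have : u = 760 := by omega
      subst this
      rw [h]; decide
    · have : u = 776 := by omega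
      subst this
      rw [h]; decide
    · have : u = 744 := by omega
      subst this
      rw [h]; decide
    · have : u = 792 := by omega
      subst this
      rw [h]; decide
  · simp only [if_neg hp] at h ⊢
    rcases h with h | h | h | h
    · have : u = 504 := by omega
      subst this
      rw [h]; decide
    · have : u = 520 := by omega
      subst this
      rw [h]; decide
    · have : u = 488 := by omega
      subst this
      rw [h]; decide
    · have : u = 536 := by omega
      subst this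
      rw [h]; decide

theorem packsound_arith2 (w : ℤ) (u : ℕ) (p : Prop) [Decidable p] (g : ZMod 2)
    (hu : (u : ℤ) = 512 + w)
    (h : (if p then 512 else 0) - 2 * w = 24 * sgn g ∨
      (if p then 512 else 0) - 2 * w = -8 * sgn g) :
    (((u + 12 - 8 * g.val) ^^^ (512 + if p then 256 else 0)) &&& 65519 = 0) := by
  rcases zmod2_cases g with rfl | rfl
  · simp only [sgn_zero, ZMod.val_zero] at h ⊢
    by_cases hp : p
    · simp only [if_pos hp] at h ⊢
      rcases h with h | h
      · have : u = 756 := by omega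
        subst this; decide
      · have : u = 772 := by omega
        subst this; decide
    · simp only [if_neg hp] at h ⊢
      rcases h with h | h
      · have : u = 500 := by omega
        subst this; decide
      · have : u = 516 := by omega
        subst this; decide
  · have hv : (1 : ZMod 2).val = 1 := rfl
    simp only [sgn_one, hv] at h ⊢
    by_cases hp : p
    · simp only [if_pos hp] at h ⊢
      rcases h with h | h
      · have : u = 780 := by omega
        subst this; decide
      · have : u = 764 := by omega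
        subst this; decide
    · simp only [if_neg hp] at h ⊢
      rcases h with h | h
      · have : u = 524 := by omega
        subst this; decide
      · have : u = 508 := by omega
        subst this; decide

theorem packsound_core (l : ℕ) (ms : List (List ℕ)) (hm : ∀ m ∈ ms, ∀ k ∈ m, k < l + 9)
    (t : ℕ) (ht : t < 2 ^ l) (hs : Spec (gOf l ms t)) (one b U z Y Y1 b2 U2 Y2 : ℕ)
    (hone : one = ones (l + 9)) (hb : b = poly (patList (l + 9) (l + 9)) one ms)
    (hU : U = fwt l (patList (l + 9) (l + 9)) one 9 1 (b + one)) (hz : z = ones l)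
    (hY : Y = (U + 24 * one) ^^^ (512 * one + 256 * z))
    (hY1 : Y1 = Y &&& ((65535 - 48) * one))
    (hb2 : b2 = (Y >>> 5) &&& one)
    (hU2 : U2 = fwt l (patList (l + 9) (l + 9)) one 9 1 (b2 + one))
    (hY2 : Y2 = ((U2 + 12 * one - 8 * b) ^^^ (512 * one + 256 * z)) &&& ((65535 - 16) * one)) :
    ∀ a : V, ln (Y1 ||| Y2) (idx l t a) = 0 := by
  have hone1 : ∀ i, ln one i ≤ 1 := by
    intro i; rw [hone, ln_ones]; split_ifs <;> omega
  have hbl : ∀ t < 2 ^ l, ∀ a, ln b (idx l t a) = (gOf l ms t a).val := by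
    intro t ht a; rw [hb, hone]; exact ln_poly l t ht ms hm a
  have hb1 : ∀ i, ln b i ≤ if i < 2 ^ (l + 9) then 1 else 0 := by
    intro i; rw [hb, hone]; exact ln_poly_le l ms hm i
  have hF1 := packsound_fwt l b (fun t a => (gOf l ms t a).val)
    (fun t _ a => by
      have := ZMod.val_lt (gOf l ms t a)
      show (gOf l ms t a).val ≤ 1
      omega) hbl hb1
  rw [← hone, ← hU] at hF1
  -- first transform
  have hw1 : ∀ x, WT (chi (gOf l ms t)) x = (if x = 0 then 512 else 0)
      - 2 * WT (fun a => (((gOf l ms t a).val : ℕ) : ℤ)) x :=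
    packsound_WT_aff _ _ fun a => packsound_sgn _
  have hYl : ∀ t < 2 ^ l, ∀ x, ln Y (idx l t x)
      = (ln U (idx l t x) + 24) ^^^ (512 + if x = 0 then 256 else 0) := by
    intro t ht x; rw [hY]; exact packsound_lane1 l U one z hone hz hF1.2 t ht x
  have hA : ∀ x, ln Y (idx l t x) &&& 65487 = 0 ∧
      sW (gOf l ms t) x = 1 - 2 * (((if (ln Y (idx l t x)).testBit 5 then 1 else 0 : ℕ)) : ℤ) := by
    intro x
    rw [hYl t ht x]
    have h1 := hs.s1 x
    unfold sW
    rw [hw1 x] at h1 ⊢
    exact packsound_arith1 _ _ _ (hF1.1 t ht x) h1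
  -- second transform
  have hb2l : ∀ i, ln b2 i = (if (ln Y i).testBit 5 then 1 else 0) * ln one i := by
    intro i; rw [hb2]; exact ln_shift_and Y one 5 i (by norm_num) hone1
  have hb2i : ∀ t < 2 ^ l, ∀ x, ln b2 (idx l t x)
      = if (ln Y (idx l t x)).testBit 5 then 1 else 0 := by
    intro t ht x
    rw [hb2l, hone, ln_ones, if_pos (idx_lt l t ht x), mul_one]
  have hF2 := packsound_fwt l b2 (fun t x => if (ln Y (idx l t x)).testBit 5 then 1 else 0)
    (fun t _ x => by
      show (if (ln Y (idx l t x)).testBit 5 then 1 else 0) ≤ 1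
      split_ifs <;> omega) hb2i
    (fun i => by
      rw [hb2l i, hone, ln_ones]
      split_ifs <;> simp)
  rw [← hone, ← hU2] at hF2
  have hw2 : ∀ a, WT (sW (gOf l ms t)) a = (if a = 0 then 512 else 0)
      - 2 * WT (fun x => (((if (ln Y (idx l t x)).testBit 5 then 1 else 0 : ℕ)) : ℤ)) a :=
    packsound_WT_aff _ _ fun a => (hA a).2
  intro a
  rw [ln_or, Nat.or_eq_zero_iff]
  constructor
  · rw [hY1]
    rw [packsound_mask l (65535 - 48) one Y hone (by norm_num) t ht a]
    exact (hA a).1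
  · rw [hY2]
    rw [packsound_mask l (65535 - 16) one _ hone (by norm_num) t ht a]
    rw [packsound_lane2 l U2 one z b hone hz hF2.2 hb1 t ht a, hbl t ht a]
    have h2 := hs.s2 a
    rw [hw2 a] at h2
    exact packsound_arith2 _ _ _ _ (hF2.1 t ht a) h2

theorem check_sound (l : ℕ) (ms : List (List ℕ)) (hm : ∀ m ∈ ms, ∀ k ∈ m, k < l + 9)
    (h : check l ms = true) (t : ℕ) (ht : t < 2 ^ l) : ¬ Spec (gOf l ms t) := by
  intro hs
  simp only [check, seq_eq] at h
  have h0 := Nat.eq_of_beq_eq_true h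
  have hc := packsound_core l ms hm t ht hs _ _ _ _ _ _ _ _ _ rfl rfl rfl rfl rfl rfl rfl rfl rfl
  have hf := fold_spec l _ t ht hc
  have hz : (ones l).testBit (16 * t) = true := by
    have h1 := ln_testBit (ones l) t 0 (by norm_num)
    rw [ln_ones, if_pos ht] at h1
    rw [← Nat.add_zero (16 * t), ← h1]
    rfl
  rw [← h0, Nat.testBit_and, hf] at hz
  exact absurd hz (by simp)

end Pool.Agent.H.MP_694475_co
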