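import Pool.Agent.H.MP_694475_co.Chunk
import Pool.Agent.H.MP_694475_co.PackSound

/-! No member of a family whose chunks have been checked satisfies the condition `Spec`. -/

open Finset

namespace Pool.Agent.H.MP_694475_co

/-- number with given binary digits -/
def dig (n : ℕ) (t : ℕ → ZMod 2) : ℕ := ∑ j ∈ range n, (t j).val * 2 ^ j

theorem nofamcore_z2 (x : ZMod 2) : x = 0 ∨ x = 1 := by
  revert x; decide

theorem nofamcore_val (x : ZMod 2) : x.val < 2 := ZMod.val_lt x

theorem nofamcore_dig_lt (n : ℕ) (t : ℕ → ZMod 2) : dig n t < 2 ^ n := by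
  induction n with
  | zero => simp [dig]
  | succ n ih =>
    have h1 : dig (n + 1) t = dig n t + (t n).val * 2 ^ n := by
      simp [dig, Finset.sum_range_succ]
    have h2 := nofamcore_val (t n)
    have h3 : (t n).val * 2 ^ n ≤ 1 * 2 ^ n := Nat.mul_le_mul_right _ (by omega)
    rw [h1, pow_succ]
    omega

theorem nofamcore_dig_bit (n : ℕ) (t : ℕ → ZMod 2) (j : ℕ) (hj : j < n) :
    (dig n t).testBit j = decide (t j = 1) := by
  induction n with
  | zero => omega
  | succ n ih =>
    have h1 : dig (n + 1) t = 2 ^ n * (t n).val + dig n t := by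
      simp only [dig, Finset.sum_range_succ]; ring
    rw [h1, Nat.testBit_two_pow_mul_add _ (nofamcore_dig_lt n t)]
    by_cases h : j < n
    · rw [if_pos h]; exact ih h
    · have hjn : j = n := by omega
      subst hjn
      rw [if_neg h, Nat.sub_self]
      rcases nofamcore_z2 (t j) with h0 | h0
      · rw [h0]; decide
      · rw [h0]; decide

theorem nofamcore_pidx (a : V) :
    pidx a = dig 9 (fun j => if h : j < 9 then a ⟨j, h⟩ else 0) := by
  unfold pidx dig
  rw [Finset.sum_range]
  apply Finset.sum_congr rfl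
  intro i _
  simp [i.isLt]

theorem nofamcore_pidx_bit (a : V) (i : Fin 9) : (pidx a).testBit i.val = decide (a i = 1) := by
  rw [nofamcore_pidx, nofamcore_dig_bit 9 _ i.val i.isLt]
  simp [i.isLt]

theorem nofamcore_idx_lo (t : ℕ) (ht : t < 2 ^ 8) (a : V) (k : ℕ) (hk : k < 8) :
    (idx 8 t a).testBit k = t.testBit k := by
  unfold idx
  rw [Nat.add_comm, Nat.testBit_two_pow_mul_add _ ht, if_pos hk]

theorem nofamcore_idx_hi (t : ℕ) (ht : t < 2 ^ 8) (a : V) (i : Fin 9) :
    (idx 8 t a).testBit (8 + i.val) = decide (a i = 1) := by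
  unfold idx
  rw [Nat.add_comm t, Nat.testBit_two_pow_mul_add _ ht, if_neg (by omega),
    Nat.add_sub_cancel_left, nofamcore_pidx_bit]

theorem nofamcore_ite (x : ZMod 2) : (if decide (x = 1) = true then (1 : ZMod 2) else 0) = x := by
  revert x; decide

theorem nofamcore_sh (t : ℕ) (ht : t < 2 ^ 8) (a : V) (m : List (Fin 9)) :
    ((sh m).map (fun k => if (idx 8 t a).testBit k then (1 : ZMod 2) else 0)).prod
      = (m.map a).prod := by
  unfold sh
  rw [List.map_map]
  congr 1
  apply List.map_congr_left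
  intro i _
  simp only [Function.comp]
  rw [nofamcore_idx_hi t ht a i]
  exact nofamcore_ite (a i)

theorem nofamcore_gOf_append (l : ℕ) (ms ms' : List (List ℕ)) (t : ℕ) (a : V) :
    gOf l (ms ++ ms') t a = gOf l ms t a + gOf l ms' t a := by
  simp [gOf, List.map_append, List.sum_append]

theorem nofamcore_gOf_sh (t : ℕ) (ht : t < 2 ^ 8) (a : V) (T : List (List (Fin 9))) :
    gOf 8 (T.map sh) t a = pval T a := by
  unfold gOf pval
  rw [List.map_map]
  congr 1
  apply List.map_congr_left
  intro m _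
  exact nofamcore_sh t ht a m

theorem nofamcore_gOf_flatten (l : ℕ) (L : List (List (List ℕ))) (t : ℕ) (a : V) :
    gOf l L.flatten t a = (L.map (fun ms => gOf l ms t a)).sum := by
  induction L with
  | nil => simp [gOf]
  | cons x L ih =>
    rw [List.flatten_cons, nofamcore_gOf_append, ih, List.map_cons, List.sum_cons]

theorem nofamcore_range (n : ℕ) (f : ℕ → ZMod 2) :
    ((List.range n).map f).sum = ∑ j ∈ range n, f j := by
  induction n with
  | zero => simp
  | succ n ih =>
    rw [List.range_succ, List.map_append, List.sum_append, ih, Finset.sum_range_succ]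
    simp

theorem nofamcore_gOf_lo (t : ℕ) (ht : t < 2 ^ 8) (a : V) (j : ℕ) (hj : j < 8)
    (M : List (List (Fin 9))) :
    gOf 8 (M.map (fun m => j :: sh m)) t a
      = (if t.testBit j then (1 : ZMod 2) else 0) * pval M a := by
  unfold gOf pval
  rw [List.map_map, ← List.sum_map_mul_left]
  congr 1
  apply List.map_congr_left
  intro m _
  simp only [Function.comp, List.map_cons, List.prod_cons]
  rw [nofamcore_sh t ht a m, nofamcore_idx_lo t ht a j hj]

theorem nofamcore_part_lo (B : List (List (List (Fin 9)))) (lo : ℕ) (hlo8 : lo < 2 ^ 8)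
    (u : ℕ → ZMod 2) (hu : ∀ j < 8, lo.testBit j = decide (u j = 1)) (a : V) :
    gOf 8 (((List.range 8).map (fun j => (B.getD j []).map (fun m => j :: sh m))).flatten) lo a
      = ∑ j ∈ range 8, u j * pval (B.getD j []) a := by
  rw [nofamcore_gOf_flatten, List.map_map, nofamcore_range]
  apply Finset.sum_congr rfl
  intro j hj
  have hj8 : j < 8 := Finset.mem_range.mp hj
  simp only [Function.comp]
  rw [nofamcore_gOf_lo lo hlo8 a j hj8, hu j hj8, nofamcore_ite]

theorem nofamcore_part_hi (B : List (List (List (Fin 9)))) (lo hi : ℕ) (hlo8 : lo < 2 ^ 8)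
    (u : ℕ → ZMod 2) (hu : ∀ j < 10, hi.testBit j = decide (u j = 1)) (a : V) :
    gOf 8 (((List.range 10).map
      (fun j => if hi.testBit j then (B.getD (8 + j) []).map sh else [])).flatten) lo a
      = ∑ j ∈ range 10, u j * pval (B.getD (8 + j) []) a := by
  rw [nofamcore_gOf_flatten, List.map_map, nofamcore_range]
  apply Finset.sum_congr rfl
  intro j hj
  have hj10 : j < 10 := Finset.mem_range.mp hj
  simp only [Function.comp]
  rw [hu j hj10]
  rcases nofamcore_z2 (u j) with h0 | h0
  · have h2 : decide (u j = 1) = false := by rw [h0]; decide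
    rw [h2, h0, zero_mul]
    simp [gOf]
  · have h2 : decide (u j = 1) = true := by rw [h0]; decide
    rw [h2, h0, one_mul, if_pos rfl, nofamcore_gOf_sh lo hlo8]

theorem nofamcore_sum18 (F : Fin 18 → ZMod 2) (G : ℕ → ZMod 2)
    (h : ∀ i : Fin 18, F i = G i.val) :
    ∑ j : Fin 18, F j = ∑ j ∈ range 8, G j + ∑ j ∈ range 10, G (8 + j) := by
  have h1 : ∑ j : Fin 18, F j = ∑ j ∈ range 18, G j := by
    rw [Finset.sum_range]
    exact Finset.sum_congr rfl fun i _ => h i
  rw [h1, ← Finset.sum_range_add G 8 10]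

theorem gOf_msOf (T Q : List (List (Fin 9))) (B : List (List (List (Fin 9))))
    (t : Fin 18 → ZMod 2) :
    gOf 8 (msOf T Q B (dig 10 (fun j => if h : 8 + j < 18 then t ⟨8 + j, h⟩ else 0)))
      (dig 8 (fun j => if h : j < 18 then t ⟨j, h⟩ else 0)) = fam T Q B t := by
  funext a
  have hlo8 : dig 8 (fun j => if h : j < 18 then t ⟨j, h⟩ else 0) < 2 ^ 8 :=
    nofamcore_dig_lt 8 _
  have hlo := nofamcore_dig_bit 8 (fun j => if h : j < 18 then t ⟨j, h⟩ else 0)
  have hhi := nofamcore_dig_bit 10 (fun j => if h : 8 + j < 18 then t ⟨8 + j, h⟩ else 0)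
  generalize dig 8 (fun j => if h : j < 18 then t ⟨j, h⟩ else 0) = lo at hlo8 hlo ⊢
  generalize dig 10 (fun j => if h : 8 + j < 18 then t ⟨8 + j, h⟩ else 0) = hi at hhi ⊢
  have e1 := nofamcore_part_lo B lo hlo8 _ hlo a
  have e2 := nofamcore_part_hi B lo hi hlo8 _ hhi a
  have e3 := nofamcore_sum18 (fun j : Fin 18 => t j * pval (B.getD j.val []) a)
    (fun j => (if h : j < 18 then t ⟨j, h⟩ else 0) * pval (B.getD j []) a)
    (fun i => by simp [i.isLt])
  have e4 : fam T Q B t a = pval T a + pval Q a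
      + ∑ j : Fin 18, (fun j : Fin 18 => t j * pval (B.getD j.val []) a) j := rfl
  rw [e4, e3]
  unfold msOf
  rw [nofamcore_gOf_append, nofamcore_gOf_append, nofamcore_gOf_append,
    nofamcore_gOf_sh lo hlo8, nofamcore_gOf_sh lo hlo8, e1, e2, add_assoc]

theorem no_fam_of (T Q : List (List (Fin 9))) (B : List (List (List (Fin 9))))
    (hch : ∀ h < 1024, check 8 (msOf T Q B h) = true) (t : Fin 18 → ZMod 2) :
    ¬ Spec (fam T Q B t) := by
  rw [← gOf_msOf T Q B t]
  have h1 := nofamcore_dig_lt 10 (fun j => if h : 8 + j < 18 then t ⟨8 + j, h⟩ else 0)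
  have h2 := nofamcore_dig_lt 8 (fun j => if h : j < 18 then t ⟨j, h⟩ else 0)
  refine check_sound 8 _ ?_ (hch _ (by simpa using h1)) _ h2
  intro m hm k hk
  have hsh : ∀ m' : List (Fin 9), k ∈ sh m' → k < 8 + 9 := by
    intro m' h
    unfold sh at h
    obtain ⟨i, _, rfl⟩ := List.mem_map.mp h
    have := i.isLt
    omega
  unfold msOf at hm
  rcases List.mem_append.mp hm with hm | hm
  · rcases List.mem_append.mp hm with hm | hm
    · rcases List.mem_append.mp hm with hm | hm
      · obtain ⟨m', _, rfl⟩ := List.mem_map.mp hm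
        exact hsh m' hk
      · obtain ⟨m', _, rfl⟩ := List.mem_map.mp hm
        exact hsh m' hk
    · obtain ⟨L, hL, hmL⟩ := List.mem_flatten.mp hm
      obtain ⟨j, hj, rfl⟩ := List.mem_map.mp hL
      obtain ⟨m', _, rfl⟩ := List.mem_map.mp hmL
      have hj8 : j < 8 := List.mem_range.mp hj
      rcases List.mem_cons.mp hk with rfl | hk
      · omega
      · exact hsh m' hk
  · obtain ⟨L, hL, hmL⟩ := List.mem_flatten.mp hm
    obtain ⟨j, hj, rfl⟩ := List.mem_map.mp hL
    split_ifs at hmL with hb
    · obtain ⟨m', _, rfl⟩ := List.mem_map.mp hmL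
      exact hsh m' hk
    · simp at hmL

end Pool.Agent.H.MP_694475_co
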