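import Pool.Agent.H.MP_694475_co.AllCh
import Pool.Agent.H.MP_694475_co.NoFamCore

/-! No member of the two families satisfies the condition `Spec`. -/

namespace Pool.Agent.H.MP_694475_co

theorem no_fam1 (t : Fin 18 → ZMod 2) : ¬ Spec (fam T1 Q1 B1 t) :=
  no_fam_of T1 Q1 B1 allCh1 t

theorem no_fam2 (t : Fin 18 → ZMod 2) : ¬ Spec (fam T2 Q2 B2 t) :=
  no_fam_of T2 Q2 B2 allCh2 t

end Pool.Agent.H.MP_694475_co
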