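import Pool.Agent.H.MP_694475_co.TriForm
import Pool.Agent.H.MP_694475_co.PairF1
import Pool.Agent.H.MP_694475_co.CovComb

/-! The trilinear forms of a pair satisfy the duality relations. -/

open Finset

namespace Pool.Agent.H.MP_694475_co

private theorem pairgood_coef (e : V → ZMod 2) (b : Fin 9 → V) (i j k : Fin 9) (hij : i ≠ j)
    (hik : i ≠ k) (hjk : j ≠ k) :
    coef {i, j, k} (fun a => e (lin b a)) = tri e (b i) (b j) (b k) := by
  rw [coef_eq_tri _ i j k hij hik hjk, tri_lin]

private theorem pairgood_g1 {e d : V → ZMod 2} (h : Pair e d) {b c : Fin 9 → V}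
    (hbc : IsDual b c) :
    tri d (c 0) (c 1) (c 2) = DD (fun i j k => tri e (b i) (b j) (b k)) 3 4 5 6 7 8 := by
  have h' := h.basis hbc
  have h1 := h'.coef3 {0, 1, 2} (by decide)
  rw [cov2_eq h'.he] at h1
  rw [pairgood_coef d c 0 1 2 (by decide) (by decide) (by decide)] at h1
  rw [h1]
  unfold DD
  rw [pairgood_coef e b 3 4 5 (by decide) (by decide) (by decide),
    pairgood_coef e b 6 7 8 (by decide) (by decide) (by decide),
    pairgood_coef e b 3 4 6 (by decide) (by decide) (by decide),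
    pairgood_coef e b 5 7 8 (by decide) (by decide) (by decide),
    pairgood_coef e b 3 4 7 (by decide) (by decide) (by decide),
    pairgood_coef e b 5 6 8 (by decide) (by decide) (by decide),
    pairgood_coef e b 3 4 8 (by decide) (by decide) (by decide),
    pairgood_coef e b 5 6 7 (by decide) (by decide) (by decide),
    pairgood_coef e b 3 5 6 (by decide) (by decide) (by decide),
    pairgood_coef e b 4 7 8 (by decide) (by decide) (by decide),
    pairgood_coef e b 3 5 7 (by decide) (by decide) (by decide),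
    pairgood_coef e b 4 6 8 (by decide) (by decide) (by decide),
    pairgood_coef e b 3 5 8 (by decide) (by decide) (by decide),
    pairgood_coef e b 4 6 7 (by decide) (by decide) (by decide),
    pairgood_coef e b 3 6 7 (by decide) (by decide) (by decide),
    pairgood_coef e b 4 5 8 (by decide) (by decide) (by decide),
    pairgood_coef e b 3 6 8 (by decide) (by decide) (by decide),
    pairgood_coef e b 4 5 7 (by decide) (by decide) (by decide),
    pairgood_coef e b 3 7 8 (by decide) (by decide) (by decide),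
    pairgood_coef e b 4 5 6 (by decide) (by decide) (by decide)]

private theorem pairgood_sum (F : Finset (Fin 9) → ZMod 2) :
    ∑ p : Fin 9 × Fin 9 with 0 < p.1 ∧ p.1 < p.2, F {0, p.1, p.2} =
      ∑ K : Finset (Fin 9) with 0 ∈ K ∧ K.card = 3, F K := by
  refine Finset.sum_nbij (fun p => {0, p.1, p.2}) ?_ ?_ ?_ ?_
  · intro p hp
    rw [Finset.mem_filter] at hp
    obtain ⟨_, h1, h2⟩ := hp
    rw [Finset.mem_filter]
    refine ⟨Finset.mem_univ _, by simp, ?_⟩
    rw [Finset.card_eq_three]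
    exact ⟨0, p.1, p.2, ne_of_lt h1, ne_of_lt (lt_trans h1 h2), ne_of_lt h2, rfl⟩
  · rintro ⟨p1, p2⟩ hp ⟨q1, q2⟩ hq hpq
    simp only [Finset.coe_filter, Finset.mem_univ, true_and, Set.mem_setOf_eq] at hp hq
    obtain ⟨h1, h2⟩ := hp
    obtain ⟨h3, h4⟩ := hq
    have hpq' : ({0, p1, p2} : Finset (Fin 9)) = {0, q1, q2} := hpq
    have m1 : p1 ∈ ({0, q1, q2} : Finset (Fin 9)) := by rw [← hpq']; simp
    have m2 : p2 ∈ ({0, q1, q2} : Finset (Fin 9)) := by rw [← hpq']; simp
    simp only [Finset.mem_insert, Finset.mem_singleton] at m1 m2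
    have e1 : p1 = q1 ∧ p2 = q2 := by
      rcases m1 with m1 | m1 | m1
      · exact absurd m1 (ne_of_gt h1)
      · rcases m2 with m2 | m2 | m2
        · exact absurd m2 (ne_of_gt (lt_trans h1 h2))
        · exact absurd (m1.trans m2.symm) (ne_of_lt h2)
        · exact ⟨m1, m2⟩
      · rcases m2 with m2 | m2 | m2
        · exact absurd m2 (ne_of_gt (lt_trans h1 h2))
        · rw [m1, m2] at h2
          exact absurd h4 (not_lt_of_gt h2)
        · exact absurd (m1.trans m2.symm) (ne_of_lt h2)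
    rw [e1.1, e1.2]
  · intro K hK
    simp only [Finset.coe_filter, Finset.mem_univ, true_and, Set.mem_setOf_eq] at hK
    obtain ⟨h0, h3⟩ := hK
    have hc : (K.erase 0).card = 2 := by
      rw [Finset.card_erase_of_mem h0, h3]
    obtain ⟨x, y, hxy, hK'⟩ := Finset.card_eq_two.1 hc
    have hx : x ∈ K.erase 0 := by rw [hK']; simp
    have hy : y ∈ K.erase 0 := by rw [hK']; simp
    have hx0 : 0 < x := Fin.pos_iff_ne_zero.2 (Finset.ne_of_mem_erase hx)
    have hy0 : 0 < y := Fin.pos_iff_ne_zero.2 (Finset.ne_of_mem_erase hy)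
    have hKe : K = insert 0 {x, y} := by rw [← hK', Finset.insert_erase h0]
    rcases lt_or_gt_of_ne hxy with hlt | hgt
    · exact ⟨(x, y), by simp [hx0, hlt], hKe.symm⟩
    · refine ⟨(y, x), by simp [hy0, hgt], ?_⟩
      show ({0, y, x} : Finset (Fin 9)) = K
      rw [hKe, Finset.pair_comm]
  · intro p _
    rfl

private theorem pairgood_g3 {e d : V → ZMod 2} (h : Pair e d) {b c : Fin 9 → V}
    (hbc : IsDual b c) :
    ∑ p : Fin 9 × Fin 9 with 0 < p.1 ∧ p.1 < p.2,
      tri e (b 0) (b p.1) (b p.2) * tri d (c 0) (c p.1) (c p.2) = 0 := by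
  have h' := h.basis hbc
  have h1 := h'.cov_univ
  rw [cov3_univ h'.he] at h1
  have h2 : ∑ K : Finset (Fin 9) with 0 ∈ K ∧ K.card = 3,
      coef K (fun a => e (lin b a)) * coef K (fun x => d (lin c x)) = 0 := by
    rw [← h1]
    refine Finset.sum_congr rfl fun K hK => ?_
    rw [Finset.mem_filter] at hK
    rw [h'.coef3 K hK.2.2]
  rw [← pairgood_sum] at h2
  rw [← h2]
  refine Finset.sum_congr rfl fun p hp => ?_
  rw [Finset.mem_filter] at hp
  obtain ⟨_, h3, h4⟩ := hp
  rw [pairgood_coef e b 0 p.1 p.2 (ne_of_lt h3) (ne_of_lt (lt_trans h3 h4)) (ne_of_lt h4),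
    pairgood_coef d c 0 p.1 p.2 (ne_of_lt h3) (ne_of_lt (lt_trans h3 h4)) (ne_of_lt h4)]

theorem Pair.good {e d : V → ZMod 2} (h : Pair e d) : Good (tri e) (tri d) where
  tri := tri_isTri h.he
  tri' := tri_isTri h.hd
  g1 := fun _ _ hbc => pairgood_g1 h hbc
  g2 := fun _ _ hbc => pairgood_g1 h.symm hbc.symm
  g3 := fun _ _ hbc => pairgood_g3 h hbc

theorem Pair.tri_ne {e d : V → ZMod 2} (h : Pair e d) : ∃ u v w, tri e u v w ≠ 0 := by
  obtain ⟨K, hK, hne⟩ := h.exists_coef
  obtain ⟨i, j, k, hij, hik, hjk, rfl⟩ := Finset.card_eq_three.1 hK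
  refine ⟨E i, E j, E k, ?_⟩
  rw [← coef_eq_tri e i j k hij hik hjk]
  exact hne

end Pool.Agent.H.MP_694475_co
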