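import Pool.Agent.H.MP_694475_co.TriForm

/-! Existence of singular pairs of vectors (fourth moment). -/

open Finset

namespace Pool.Agent.H.MP_694475_co

private theorem pairsing_key {e : V → ZMod 2} (he : DegLT 4 e)
    (hc : ∀ v w : V, v ≠ 0 → w ≠ 0 → v ≠ w → ∃ u, tri e v w u ≠ 0)
    (v : V) (hv : v ≠ 0) (w : V) (hw : w ≠ 0) (hwv : w ≠ v) :
    ∑ a, sgn (D w (D v e) a) = 0 := by
  have htri := tri_isTri he
  obtain ⟨u, hu⟩ := hc v w hv hw (Ne.symm hwv)
  have h2 : tri e u w v = 1 := by
    have h3 : tri e u w v = tri e v w u := by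
      rw [htri.sw12 u w v, htri.sw23 w u v, htri.sw12 w v u]
    rw [h3]; exact (zmod2_cases _).resolve_left hu
  have hu1 : ∀ a, D w (D v e) (a + u) = D w (D v e) a + 1 := by
    intro a
    have h4 : D w (D v e) (a + u) + D w (D v e) a = 1 := by
      have := tri_base he u w v a
      rw [h2] at this
      exact this
    revert h4
    generalize D w (D v e) (a + u) = x
    generalize D w (D v e) a = y
    revert x y
    decide
  have h5 := sum_translate (fun a => sgn (D w (D v e) a)) u
  simp only [hu1, sgn_add, sgn_one] at h5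
  rw [← Finset.sum_mul] at h5
  linarith

private theorem pairsing_card : (Finset.univ : Finset V).card = 512 := by
  simp [Fintype.card_pi]

private theorem pairsing_sq (k : V → ZMod 2) :
    (∑ a, sgn (k a)) ^ 2 = ∑ w, ∑ a, sgn (D w k a) := by
  rw [sq, Finset.sum_mul_sum]
  have h1 : ∀ a : V, ∑ b, sgn (k a) * sgn (k b) = ∑ w, sgn (D w k a) := by
    intro a
    rw [← Fintype.sum_equiv (Equiv.addLeft a) (fun w => sgn (k a) * sgn (k (a + w)))
      (fun b => sgn (k a) * sgn (k b)) (fun _ => rfl)]
    refine Finset.sum_congr rfl fun w _ => ?_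
    show _ = sgn (k (a + w) + k a)
    rw [sgn_add]; ring
  rw [Finset.sum_congr rfl fun a _ => h1 a, Finset.sum_comm]

theorem Pair.sing {e d : V → ZMod 2} (h : Pair e d) :
    ∃ v w : V, v ≠ 0 ∧ w ≠ 0 ∧ v ≠ w ∧ ∀ u, tri e v w u = 0 := by
  by_contra hc
  push Not at hc
  have hR : ∀ v, v ≠ 0 → (∑ a, chi e a * chi e (a + v)) ^ 2 = 1024 := by
    intro v hv
    have h1 : ∑ a, chi e a * chi e (a + v) = ∑ a, sgn (D v e a) := by
      refine Finset.sum_congr rfl fun a _ => ?_
      show sgn (e a) * sgn (e (a + v)) = sgn (e (a + v) + e a)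
      rw [sgn_add]; ring
    rw [h1, pairsing_sq]
    have h2 : ∀ w, ∑ a, sgn (D w (D v e) a)
        = (if w = 0 then 512 else 0) + (if w = v then 512 else 0) := by
      intro w
      by_cases hw : w = 0
      · subst hw
        rw [if_pos rfl, if_neg (Ne.symm hv)]
        have : ∀ a, D 0 (D v e) a = 0 := by
          intro a
          show D v e (a + 0) + D v e a = 0
          rw [add_zero]; exact add_self_zmod2 _
        simp only [this, sgn_zero, Finset.sum_const, pairsing_card]
        norm_num
      · by_cases hwv : w = v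
        · subst hwv
          rw [if_neg hw, if_pos rfl]
          have : ∀ a, D w (D w e) a = 0 := by
            intro a
            show (e (a + w + w) + e (a + w)) + (e (a + w) + e a) = 0
            rw [add_add_cancel_V]
            generalize e a = x
            generalize e (a + w) = y
            revert x y; decide
          simp only [this, sgn_zero, Finset.sum_const, pairsing_card]
          norm_num
        · rw [if_neg hw, if_neg hwv, pairsing_key h.he hc v hv w hw hwv]
          norm_num
    rw [Finset.sum_congr rfl fun w _ => h2 w, Finset.sum_add_distrib]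
    simp
  have hR0 : (∑ a, chi e a * chi e (a + 0)) ^ 2 = 262144 := by
    have : ∀ a, chi e a * chi e (a + 0) = 1 := by
      intro a; rw [add_zero]; exact sgn_mul_self _
    rw [Finset.sum_congr rfl fun a _ => this a]
    simp only [Finset.sum_const, pairsing_card]
    norm_num
  have h4 := WT_fourth (chi e)
  have h5 : ∀ v, (∑ a, chi e a * chi e (a + v)) ^ 2 = 1024 + (if v = 0 then 261120 else 0) := by
    intro v
    by_cases hv : v = 0
    · subst hv; rw [hR0, if_pos rfl]; norm_num
    · rw [hR v hv, if_neg hv]; norm_num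
  rw [Finset.sum_congr rfl fun v _ => h5 v, Finset.sum_add_distrib, Finset.sum_const,
    pairsing_card] at h4
  simp only [Finset.sum_ite_eq', Finset.mem_univ, if_true] at h4
  have h6 : ∀ x, WT (chi e) x ^ 4 = 2560 * (WT (chi e) x * WT (chi e) x) - 589824 := by
    intro x
    have hs := sgn_mul_self (d x)
    rcases h.h1 x with hx | hx <;> rw [hx]
    · have h7 : (16 * sgn (d x)) ^ 4 = 65536 * (sgn (d x) * sgn (d x)) * (sgn (d x) * sgn (d x)) := by
        ring
      rw [h7, hs]
      have h8 : (16 * sgn (d x)) * (16 * sgn (d x)) = 256 * (sgn (d x) * sgn (d x)) := by ring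
      rw [h8, hs]; norm_num
    · have h7 : (-48 * sgn (d x)) ^ 4
          = 5308416 * (sgn (d x) * sgn (d x)) * (sgn (d x) * sgn (d x)) := by
        ring
      rw [h7, hs]
      have h8 : (-48 * sgn (d x)) * (-48 * sgn (d x)) = 2304 * (sgn (d x) * sgn (d x)) := by ring
      rw [h8, hs]; norm_num
  have h7 := WT_inner (chi e) (chi e)
  have h8 : ∑ a, chi e a * chi e a = 512 := by
    have : ∀ a, chi e a * chi e a = 1 := fun a => sgn_mul_self _
    rw [Finset.sum_congr rfl fun a _ => this a]
    simp only [Finset.sum_const, pairsing_card]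
    norm_num
  rw [h8] at h7
  rw [Finset.sum_congr rfl fun x _ => h6 x, Finset.sum_sub_distrib, ← Finset.mul_sum, h7,
    Finset.sum_const, pairsing_card] at h4
  norm_num at h4

end Pool.Agent.H.MP_694475_co
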