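import Pool.Agent.H.MP_694475_co.Basic

/-! The condition which is checked by computation. -/

open Finset

namespace Pool.Agent.H.MP_694475_co

/-- sign of the Walsh transform of `chi g` -/
def sW (g : V → ZMod 2) : V → ℤ := fun x => if 0 < WT (chi g) x then 1 else -1

structure Spec (g : V → ZMod 2) : Prop where
  s1 : ∀ x, WT (chi g) x = 16 ∨ WT (chi g) x = -16 ∨ WT (chi g) x = 48 ∨ WT (chi g) x = -48
  s2 : ∀ a, WT (sW g) a = 24 * sgn (g a) ∨ WT (sW g) a = -8 * sgn (g a)

end Pool.Agent.H.MP_694475_co
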