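import Pool.Agent.H.MP_694475_co.PairDef
import Pool.Agent.H.MP_694475_co.SpecDef

/-! Every member of a pair satisfies the condition which is checked by computation. -/

open Finset

namespace Pool.Agent.H.MP_694475_co

theorem Pair.spec {e d : V → ZMod 2} (h : Pair e d) : Spec e := by
  refine ⟨?_, ?_⟩
  · intro x
    rcases h.h1 x with h1 | h1 <;> rcases sgn_eq_or (d x) with h2 | h2 <;> rw [h2] at h1 <;>
      simp [h1]
  · intro a
    have key : ∀ x, 32 * sW e x = WT (chi e) x + 16 * chi d x := by
      intro x
      have hchi : chi d x = sgn (d x) := rfl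
      rw [hchi]
      unfold sW
      rcases h.h1 x with h1 | h1 <;> rcases sgn_eq_or (d x) with h2 | h2 <;> rw [h2] at h1 ⊢ <;>
        rw [h1] <;> norm_num
    have h3 : 32 * WT (sW e) a = 512 * sgn (e a) + 16 * WT (chi d) a := by
      rw [← WT_const_mul 32 (sW e) a]
      have h4 : (fun x => 32 * sW e x) = fun x => WT (chi e) x + 16 * chi d x := funext key
      rw [h4, WT_add, WT_const_mul]
      have h5 : WT (fun x => WT (chi e) x) a = 512 * chi e a := WT_WT (chi e) a
      rw [h5]
      rfl
    rcases h.h2 a with h6 | h6
    · left; rw [h6] at h3; linarith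
    · right; rw [h6] at h3; linarith

end Pool.Agent.H.MP_694475_co
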