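import Pool.Agent.H.MP_694475_co.AMain
import Pool.Agent.H.MP_694475_co.Classify
import Pool.Agent.H.MP_694475_co.PairGood
import Pool.Agent.H.MP_694475_co.PairSing
import Pool.Agent.H.MP_694475_co.FamRed1
import Pool.Agent.H.MP_694475_co.FamRed2
import Pool.Agent.H.MP_694475_co.NoFam
import Pool.Agent.H.MP_694475_co.Spec

open Finset

namespace Pool.Agent.H.MP_694475_co

theorem no_pair {e d : V → ZMod 2} (h : Pair e d) : False := by
  obtain ⟨b, c, hbc, hF⟩ := classify h.good h.tri_ne h.sing
  have hP := h.basis hbc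
  rcases hF with hF | hF
  · obtain ⟨t, d', hd'⟩ := famRed1 hP (fun i j k hij hjk => by
      rw [tri_lin]; exact hF i j k hij hjk)
    exact no_fam1 t hd'.spec
  · obtain ⟨t, d', hd'⟩ := famRed2 hP (fun i j k hij hjk => by
      rw [tri_lin]; exact hF i j k hij hjk)
    exact no_fam2 t hd'.spec

/-- every `±1` valued function has a Walsh value of absolute value at least 27 -/
theorem exists_large (F : V → ℤ) (hF : ∀ x, F x = 1 ∨ F x = -1) : ∃ a, 26 < |WT F a| := by
  by_contra hc
  push Not at hc
  obtain ⟨e, d, h⟩ := exists_pair F hF hc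
  exact no_pair h

end Pool.Agent.H.MP_694475_co
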