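import Pool.Agent.H.MP_694475_co.Anf

/-! Divisibility of exponential sums of cubic functions (McEliece). -/

open Finset

namespace Pool.Agent.H.MP_694475_co

/-- the set of monomials of `e` -/
def mons (e : V → ZMod 2) : Finset (Finset (Fin 9)) := univ.filter (fun K => coef K e = 1)

theorem mce_sgn_sum {ι : Type*} (s : Finset ι) (g : ι → ZMod 2) :
    sgn (∑ i ∈ s, g i) = ∏ i ∈ s, sgn (g i) := by
  classical
  induction s using Finset.induction_on with
  | empty => simp
  | insert i s hi ih => rw [sum_insert hi, prod_insert hi, sgn_add, ih]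

theorem mce_mon (K : Finset (Fin 9)) (a : V) : mon K a = if ∀ i ∈ K, a i = 1 then 1 else 0 := by
  unfold mon
  split_ifs with h
  · exact prod_eq_one h
  · push Not at h
    obtain ⟨i, hi, hne⟩ := h
    exact prod_eq_zero hi ((zmod2_cases (a i)).resolve_right hne)

theorem mce_sgn_mon (K : Finset (Fin 9)) (a : V) :
    sgn (mon K a) = 1 + if ∀ i ∈ K, a i = 1 then -2 else 0 := by
  rw [mce_mon]
  split_ifs <;> simp

theorem mce_e (e : V → ZMod 2) (a : V) : e a = ∑ K ∈ mons e, mon K a := by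
  rw [anf e a]
  unfold mons
  rw [sum_filter]
  refine sum_congr rfl fun K _ => ?_
  rcases zmod2_cases (coef K e) with h | h
  · rw [h]; simp
  · rw [h]; simp

theorem mce_chi (e : V → ZMod 2) (W : Finset (Fin 9)) (a : V) (ha : a ∈ cube W) :
    chi e a = ∏ K ∈ (mons e).filter (fun K => K ⊆ W),
      (1 + if ∀ i ∈ K, a i = 1 then (-2 : ℤ) else 0) := by
  unfold chi
  rw [mce_e e a, mce_sgn_sum, prod_filter]
  refine prod_congr rfl fun K _ => ?_
  rw [mce_sgn_mon]
  split_ifs with h1 h2 h2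
  · rfl
  · exfalso
    apply h2
    intro i hi
    by_contra hiW
    have h3 : a i = 0 := (mem_filter.1 ha).2 i hiW
    rw [h1 i hi] at h3
    exact one_ne_zero h3
  · rfl
  · simp

theorem mce_count (W U : Finset (Fin 9)) (hU : U ⊆ W) :
    ((cube W).filter (fun a => ∀ i ∈ U, a i = 1)).card = 2 ^ (W.card - U.card) := by
  classical
  rw [← card_sdiff_of_subset hU, ← card_cube (W \ U)]
  let d : V := fun i => if i ∈ U then 1 else 0
  refine card_bij' (fun a _ => a + d) (fun a _ => a + d) ?_ ?_ ?_ ?_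
  · intro a ha
    rw [mem_filter] at ha
    have h0 := (mem_filter.1 ha.1).2
    unfold cube
    rw [mem_filter]
    refine ⟨mem_univ _, fun i hi => ?_⟩
    change a i + (if i ∈ U then 1 else 0) = 0
    by_cases hiU : i ∈ U
    · rw [if_pos hiU, ha.2 i hiU]
      exact add_self_zmod2 1
    · rw [if_neg hiU, add_zero]
      exact h0 i fun hiW => hi (mem_sdiff.2 ⟨hiW, hiU⟩)
  · intro a ha
    have h0 := (mem_filter.1 ha).2
    rw [mem_filter]
    refine ⟨?_, fun i hi => ?_⟩
    · unfold cube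
      rw [mem_filter]
      refine ⟨mem_univ _, fun i hi => ?_⟩
      change a i + (if i ∈ U then 1 else 0) = 0
      rw [if_neg fun h => hi (hU h), add_zero]
      exact h0 i fun h => hi (mem_sdiff.1 h).1
    · change a i + (if i ∈ U then 1 else 0) = 1
      rw [if_pos hi, h0 i fun h => (mem_sdiff.1 h).2 hi, zero_add]
  · intro a _
    exact add_add_cancel_V a d
  · intro a _
    exact add_add_cancel_V a d

theorem mce_sup {e : V → ZMod 2} {W : Finset (Fin 9)} {A : Finset (Finset (Fin 9))}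
    (hA : A ∈ ((mons e).filter (fun K => K ⊆ W)).powerset) : A.sup id ⊆ W := by
  rw [mem_powerset] at hA
  exact Finset.sup_le fun K hK => (mem_filter.1 (hA hK)).2

theorem csum_chi (e : V → ZMod 2) (W : Finset (Fin 9)) :
    csum W (chi e) = ∑ A ∈ ((mons e).filter (fun K => K ⊆ W)).powerset,
      (-2) ^ A.card * 2 ^ (W.card - (A.sup id).card) := by
  classical
  unfold csum
  have h1 : ∀ a ∈ cube W, chi e a = ∑ A ∈ ((mons e).filter (fun K => K ⊆ W)).powerset,
      (-2 : ℤ) ^ A.card * (if ∀ i ∈ A.sup id, a i = 1 then 1 else 0) := by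
    intro a ha
    rw [mce_chi e W a ha, prod_one_add]
    refine sum_congr rfl fun A _ => ?_
    by_cases h : ∀ i ∈ A.sup id, a i = 1
    · rw [if_pos h, mul_one]
      rw [prod_congr rfl (g := fun _ => (-2 : ℤ))]
      · rw [prod_const]
      · intro K hK
        rw [if_pos]
        intro i hi
        exact h i (le_sup (f := id) hK hi)
    · rw [if_neg h, mul_zero]
      push Not at h
      obtain ⟨i, hi, hne⟩ := h
      rw [mem_sup] at hi
      obtain ⟨K, hK, hiK⟩ := hi
      refine prod_eq_zero hK ?_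
      rw [if_neg]
      intro hall
      exact hne (hall i hiK)
  rw [sum_congr rfl h1, sum_comm]
  refine sum_congr rfl fun A hA => ?_
  rw [← mul_sum, ← sum_filter, sum_const, mce_count W _ (mce_sup hA)]
  simp

theorem mce_card_sup {n : ℕ} {e : V → ZMod 2} (he : DegLT (n + 1) e) {W : Finset (Fin 9)}
    {A : Finset (Finset (Fin 9))} (hA : A ∈ ((mons e).filter (fun K => K ⊆ W)).powerset) :
    (A.sup id).card ≤ A.card * n ∧ (A.sup id).card ≤ W.card := by
  refine ⟨?_, card_le_card (mce_sup hA)⟩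
  rw [sup_eq_biUnion]
  refine card_biUnion_le_card_mul _ _ _ fun K hK => ?_
  by_contra hc
  rw [mem_powerset] at hA
  have h1 := (mem_filter.1 (mem_filter.1 (hA hK)).1).2
  rw [coef_eq_zero he K (by simpa using hc)] at h1
  exact zero_ne_one h1

theorem mce_term_dvd (m l k : ℕ) (h : k ≤ m + l) : (2 : ℤ) ^ k ∣ (-2) ^ m * 2 ^ l := by
  have e : (-2 : ℤ) ^ m * 2 ^ l = 2 ^ (m + l) * (-1) ^ m := by
    rw [neg_pow, pow_add]; ring
  rw [e]
  exact Dvd.dvd.mul_right (pow_dvd_pow 2 h) _

theorem csum_chi_dvd {e : V → ZMod 2} (he : DegLT 4 e) (W : Finset (Fin 9)) :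
    (2 : ℤ) ^ ((W.card + 2) / 3) ∣ csum W (chi e) := by
  rw [csum_chi]
  refine dvd_sum fun A hA => mce_term_dvd _ _ _ ?_
  obtain ⟨h1, h2⟩ := mce_card_sup (n := 3) he hA
  omega

theorem csum_chi_dvd_quad {e : V → ZMod 2} (he : DegLT 3 e) : 32 ∣ csum univ (chi e) := by
  have h32 : (32 : ℤ) = 2 ^ 5 := by norm_num
  rw [csum_chi, h32]
  refine dvd_sum fun A hA => mce_term_dvd _ _ _ ?_
  obtain ⟨h1, h2⟩ := mce_card_sup (n := 2) he hA
  rw [card_univ, Fintype.card_fin] at h2 ⊢
  omega

/-- the number mod 2 of `m`-element sets of monomials of `e` with union `W` -/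
def cov (m : ℕ) (W : Finset (Fin 9)) (e : V → ZMod 2) : ZMod 2 :=
  ((((mons e).powersetCard m).filter (fun A => A.sup id = W)).card : ZMod 2)

theorem mce_cov (e : V → ZMod 2) (W : Finset (Fin 9)) (n : ℕ) (c : ℤ)
    (h : ∀ A ∈ ((mons e).filter (fun K => K ⊆ W)).powerset,
      2 * c ∣ (-2) ^ A.card * 2 ^ (W.card - (A.sup id).card) -
        (if A.card = n ∧ A.sup id = W then c else 0)) :
    ∃ m : ℤ, csum W (chi e) = c * m ∧ (m : ZMod 2) = cov n W e := by
  classical
  have h1 := dvd_sum h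
  rw [sum_sub_distrib, ← csum_chi, ← sum_filter, sum_const] at h1
  obtain ⟨k, hk⟩ := h1
  have hset : ((mons e).filter (fun K => K ⊆ W)).powerset.filter
      (fun A => A.card = n ∧ A.sup id = W) =
      ((mons e).powersetCard n).filter (fun A => A.sup id = W) := by
    ext A
    simp only [mem_filter, mem_powerset, mem_powersetCard]
    constructor
    · rintro ⟨h2, h3, h4⟩
      exact ⟨⟨fun K hK => (mem_filter.1 (h2 hK)).1, h3⟩, h4⟩
    · rintro ⟨⟨h2, h3⟩, h4⟩
      refine ⟨fun K hK => mem_filter.2 ⟨h2 hK, ?_⟩, h3, h4⟩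
      rw [← h4]
      exact le_sup (f := id) hK
  rw [hset] at hk
  refine ⟨(((mons e).powersetCard n).filter (fun A => A.sup id = W)).card + 2 * k, ?_, ?_⟩
  · rw [nsmul_eq_mul] at hk
    linear_combination hk
  · unfold cov
    push_cast
    have : (2 : ZMod 2) = 0 := by decide
    rw [this, zero_mul, add_zero]

theorem csum6 {e : V → ZMod 2} (he : DegLT 4 e) (W : Finset (Fin 9)) (hW : W.card = 6) :
    ∃ m : ℤ, csum W (chi e) = 4 * m ∧ (m : ZMod 2) = cov 2 W e := by
  refine mce_cov e W 2 4 fun A hA => ?_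
  obtain ⟨h1, h2⟩ := mce_card_sup (n := 3) he hA
  have hs := mce_sup hA
  have h8 : (2 * 4 : ℤ) = 2 ^ 3 := by norm_num
  split_ifs with hc
  · rw [hc.1, hc.2]
    norm_num
  · rw [sub_zero, h8]
    apply mce_term_dvd
    by_cases h3 : A.card = 2
    · have h4 : (A.sup id).card ≠ 6 := by
        intro h5
        exact hc ⟨h3, eq_of_subset_of_card_le hs (by omega)⟩
      omega
    · omega

theorem csum89 {e : V → ZMod 2} (he : DegLT 4 e) (W : Finset (Fin 9)) (hW : 8 ≤ W.card) :
    ∃ m : ℤ, csum W (chi e) = 8 * m ∧ (m : ZMod 2) = cov 3 W e := by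
  refine mce_cov e W 3 8 fun A hA => ?_
  obtain ⟨h1, h2⟩ := mce_card_sup (n := 3) he hA
  have hs := mce_sup hA
  have h8 : (2 * 8 : ℤ) = 2 ^ 4 := by norm_num
  split_ifs with hc
  · rw [hc.1, hc.2]
    norm_num
  · rw [sub_zero, h8]
    apply mce_term_dvd
    by_cases h3 : A.card = 3
    · have h4 : (A.sup id).card ≠ W.card := by
        intro h5
        exact hc ⟨h3, eq_of_subset_of_card_le hs (by omega)⟩
      omega
    · omega

/-- Walsh values of cubic functions are divisible by 8 -/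
theorem WT_chi_dvd {e : V → ZMod 2} (he : DegLT 4 e) (x : V) : 8 ∣ WT (chi e) x := by
  have h1 : WT (chi e) x = csum univ (chi (fun a => e a + dot x a)) := by
    unfold WT csum
    rw [cube_univ]
    refine sum_congr rfl fun a _ => ?_
    unfold chi
    rw [sgn_add, dot_comm a x]
  rw [h1]
  have h2 := csum_chi_dvd (he.add (DegLT_dot x).succ.succ) univ
  rw [card_univ, Fintype.card_fin] at h2
  norm_num at h2
  exact h2

theorem mce_csum_WT {e : V → ZMod 2} (he : DegLT 4 e) (K : Finset (Fin 9)) (k : ℕ)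
    (hk : k ≤ K.card + ((9 - K.card) + 2) / 3) : (2 : ℤ) ^ k ∣ csum K (WT (chi e)) := by
  rw [csum_WT]
  have h1 := csum_chi_dvd he Kᶜ
  rw [card_compl, Fintype.card_fin] at h1
  have h2 := mul_dvd_mul_left ((2 : ℤ) ^ K.card) h1
  rw [← pow_add] at h2
  exact (pow_dvd_pow 2 hk).trans h2

theorem mce_card9 (K : Finset (Fin 9)) : K.card ≤ 9 := by
  have := card_le_univ K
  rwa [Fintype.card_fin] at this

theorem csum_WT_dvd1 {e : V → ZMod 2} (he : DegLT 4 e) (K : Finset (Fin 9)) (hK : 1 ≤ K.card) :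
    16 ∣ csum K (WT (chi e)) := by
  have h := mce_csum_WT he K 4 (by have := mce_card9 K; omega)
  norm_num at h
  exact h

theorem csum_WT_dvd2 {e : V → ZMod 2} (he : DegLT 4 e) (K : Finset (Fin 9)) (hK : 2 ≤ K.card) :
    32 ∣ csum K (WT (chi e)) := by
  have h := mce_csum_WT he K 5 (by have := mce_card9 K; omega)
  norm_num at h
  exact h

theorem csum_WT_dvd4 {e : V → ZMod 2} (he : DegLT 4 e) (K : Finset (Fin 9)) (hK : 4 ≤ K.card) :
    64 ∣ csum K (WT (chi e)) := by
  have h := mce_csum_WT he K 6 (by have := mce_card9 K; omega)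
  norm_num at h
  exact h

end Pool.Agent.H.MP_694475_co
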