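import Pool.Agent.H.MP_694475_co.Two

/-! Normalisation of the Pfaffians of the four forms `T (b i)`, `i = 1..4`, on `b 5, ..., b 8`. -/

open Finset

namespace Pool.Agent.H.MP_694475_co

/-- Pfaffian of the form `t i` on the indices `5..8` -/
def pf4 (t : Fin 9 → Fin 9 → Fin 9 → ZMod 2) (i : Fin 9) : ZMod 2 :=
  t i 5 6 * t i 7 8 + t i 5 7 * t i 6 8 + t i 5 8 * t i 6 7

/-- the statement that the values `q1, q2, q3, q4` can be reached -/
def NormqReach (T : V → V → V → ZMod 2) (q1 q2 q3 q4 : ZMod 2) : Prop :=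
  ∃ b c : Fin 9 → V, IsDual b c ∧ (∀ i j, T (b 0) (b i) (b j) = std 2 i j) ∧
    pf4 (fun i j k => T (b i) (b j) (b k)) 1 = q1 ∧
    pf4 (fun i j k => T (b i) (b j) (b k)) 2 = q2 ∧
    pf4 (fun i j k => T (b i) (b j) (b k)) 3 = q3 ∧
    pf4 (fun i j k => T (b i) (b j) (b k)) 4 = q4

theorem normq_add2 {T : V → V → V → ZMod 2} (hT : IsTri T) (u v v' w : V) :
    T u (v + v') w = T u v w + T u v' w := by
  rw [hT.sw12, hT.add, hT.sw12 v, hT.sw12 v']

theorem normq_add3 {T : V → V → V → ZMod 2} (hT : IsTri T) (u v w w' : V) :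
    T u v (w + w') = T u v w + T u v w' := by
  rw [hT.sw23, normq_add2 hT, hT.sw23 u w, hT.sw23 u w']

theorem normq_zero1 {T : V → V → V → ZMod 2} (hT : IsTri T) (v w : V) : T 0 v w = 0 := by
  have h1 := hT.add 0 0 v w
  rw [add_zero] at h1
  have h2 : T 0 v w + 0 = T 0 v w + T 0 v w := by rw [add_zero]; exact h1
  exact (add_left_cancel h2).symm

theorem normq_smul1 {T : V → V → V → ZMod 2} (hT : IsTri T) (s : ZMod 2) (u v w : V) :
    T (s • u) v w = s * T u v w := by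
  rcases zmod2_cases s with h | h
  · subst h; rw [zero_smul, zero_mul, normq_zero1 hT]
  · subst h; rw [one_smul, one_mul]

theorem normq_smul2 {T : V → V → V → ZMod 2} (hT : IsTri T) (s : ZMod 2) (u v w : V) :
    T u (s • v) w = s * T u v w := by
  rw [hT.sw12, normq_smul1 hT, hT.sw12]

theorem normq_smul3 {T : V → V → V → ZMod 2} (hT : IsTri T) (s : ZMod 2) (u v w : V) :
    T u v (s • w) = s * T u v w := by
  rw [hT.sw23, normq_smul2 hT, hT.sw23]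

/-- permutations of the basis -/
theorem normq_perm {T : V → V → V → ZMod 2} {q1 q2 q3 q4 : ZMod 2}
    (h : NormqReach T q1 q2 q3 q4) (i : Fin 9 → Fin 9) (hi : Function.Injective i)
    (hs : ∀ k l, std 2 (i k) (i l) = std 2 k l) (hi0 : i 0 = 0)
    (h5 : i 5 = 5) (h6 : i 6 = 6) (h7 : i 7 = 7) (h8 : i 8 = 8) :
    ∃ b : Fin 9 → V, (pf4 (fun i j k => T (b i) (b j) (b k)) 1 = q1 ∧
    pf4 (fun i j k => T (b i) (b j) (b k)) 2 = q2 ∧
    pf4 (fun i j k => T (b i) (b j) (b k)) 3 = q3 ∧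
    pf4 (fun i j k => T (b i) (b j) (b k)) 4 = q4) ∧
    NormqReach T (pf4 (fun i j k => T (b i) (b j) (b k)) (i 1))
      (pf4 (fun i j k => T (b i) (b j) (b k)) (i 2))
      (pf4 (fun i j k => T (b i) (b j) (b k)) (i 3))
      (pf4 (fun i j k => T (b i) (b j) (b k)) (i 4)) := by
  obtain ⟨b, c, hbc, h0, hq⟩ := h
  refine ⟨b, hq, fun k => b (i k), fun k => c (i k), hbc.perm i hi, ?_, ?_, ?_, ?_, ?_⟩
  · intro k l
    show T (b (i 0)) (b (i k)) (b (i l)) = _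
    rw [hi0, h0, hs]
  all_goals
    simp only [pf4, h5, h6, h7, h8]

theorem normq_swap12 {T : V → V → V → ZMod 2} {q1 q2 q3 q4 : ZMod 2}
    (h : NormqReach T q1 q2 q3 q4) : NormqReach T q2 q1 q3 q4 := by
  obtain ⟨b, ⟨h1, h2, h3, h4⟩, hr⟩ := normq_perm h ![0, 2, 1, 3, 4, 5, 6, 7, 8] (by decide)
    (by unfold std; decide) rfl rfl rfl rfl rfl
  have e1 : (![0, 2, 1, 3, 4, 5, 6, 7, 8] : Fin 9 → Fin 9) 1 = 2 := rfl
  have e2 : (![0, 2, 1, 3, 4, 5, 6, 7, 8] : Fin 9 → Fin 9) 2 = 1 := rfl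
  have e3 : (![0, 2, 1, 3, 4, 5, 6, 7, 8] : Fin 9 → Fin 9) 3 = 3 := rfl
  have e4 : (![0, 2, 1, 3, 4, 5, 6, 7, 8] : Fin 9 → Fin 9) 4 = 4 := rfl
  rw [e1, e2, e3, e4, h1, h2, h3, h4] at hr
  exact hr

theorem normq_swapP {T : V → V → V → ZMod 2} {q1 q2 q3 q4 : ZMod 2}
    (h : NormqReach T q1 q2 q3 q4) : NormqReach T q3 q4 q1 q2 := by
  obtain ⟨b, ⟨h1, h2, h3, h4⟩, hr⟩ := normq_perm h ![0, 3, 4, 1, 2, 5, 6, 7, 8] (by decide)
    (by unfold std; decide) rfl rfl rfl rfl rfl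
  have e1 : (![0, 3, 4, 1, 2, 5, 6, 7, 8] : Fin 9 → Fin 9) 1 = 3 := rfl
  have e2 : (![0, 3, 4, 1, 2, 5, 6, 7, 8] : Fin 9 → Fin 9) 2 = 4 := rfl
  have e3 : (![0, 3, 4, 1, 2, 5, 6, 7, 8] : Fin 9 → Fin 9) 3 = 1 := rfl
  have e4 : (![0, 3, 4, 1, 2, 5, 6, 7, 8] : Fin 9 → Fin 9) 4 = 2 := rfl
  rw [e1, e2, e3, e4, h1, h2, h3, h4] at hr
  exact hr

/-- adding to `b i` the vector `s i • b (r i)` -/
theorem normq_tv {T T' : V → V → V → ZMod 2} (h : Good T T') {b c : Fin 9 → V}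
    (hbc : IsDual b c) (h0 : ∀ i j, T (b 0) (b i) (b j) = std 2 i j)
    (s : Fin 9 → ZMod 2) (r : Fin 9 → Fin 9) (hs0 : s 0 = 0) (hs5 : s 5 = 0) (hs6 : s 6 = 0)
    (hs7 : s 7 = 0) (hs8 : s 8 = 0) (hsr : ∀ i, s i * s (r i) = 0)
    (hst : ∀ i j, std 2 i j + s j * std 2 i (r j) + s i * std 2 (r i) j
      + s i * s j * std 2 (r i) (r j) = std 2 i j) :
    NormqReach T
      (pf4 (fun i j k => T (b i) (b j) (b k)) 1 + s 1 * (pf4 (fun i j k => T (b i) (b j) (b k)) (r 1)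
        + wd (fun i j k => T (b i) (b j) (b k)) 1 (r 1)))
      (pf4 (fun i j k => T (b i) (b j) (b k)) 2 + s 2 * (pf4 (fun i j k => T (b i) (b j) (b k)) (r 2)
        + wd (fun i j k => T (b i) (b j) (b k)) 2 (r 2)))
      (pf4 (fun i j k => T (b i) (b j) (b k)) 3 + s 3 * (pf4 (fun i j k => T (b i) (b j) (b k)) (r 3)
        + wd (fun i j k => T (b i) (b j) (b k)) 3 (r 3)))
      (pf4 (fun i j k => T (b i) (b j) (b k)) 4 + s 4 * (pf4 (fun i j k => T (b i) (b j) (b k)) (r 4)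
        + wd (fun i j k => T (b i) (b j) (b k)) 4 (r 4))) := by
  have hT := h.tri
  have e0 : ∀ i, s i = 0 → b i + s i • b (r i) = b i := by
    intro i hi
    rw [hi, zero_smul, add_zero]
  obtain ⟨c', hc'⟩ := exists_dual_of_span hbc (fun i => b i + s i • b (r i)) (by
    intro i
    refine ⟨E i + s i • E (r i), ?_⟩
    rw [lin_add, lin_E]
    have h1 : lin (fun i => b i + s i • b (r i)) (s i • E (r i)) = s i • b (r i) := by
      rcases zmod2_cases (s i) with h2 | h2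
      · rw [h2, zero_smul, zero_smul]
        unfold lin
        exact Finset.sum_eq_zero fun j _ => by rw [Pi.zero_apply, zero_smul]
      · have h3 : s (r i) = 0 := by
          have := hsr i
          rw [h2, one_mul] at this
          exact this
        rw [h2, one_smul, one_smul, lin_E]
        exact e0 _ h3
    rw [h1, add_assoc, add_self_V, add_zero])
  have key : ∀ k : Fin 9, pf4 (fun i j k => T (b i + s i • b (r i)) (b j + s j • b (r j))
      (b k + s k • b (r k))) k = pf4 (fun i j k => T (b i) (b j) (b k)) k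
        + s k * (pf4 (fun i j k => T (b i) (b j) (b k)) (r k)
        + wd (fun i j k => T (b i) (b j) (b k)) k (r k)) := by
    intro k
    simp only [pf4, wd, e0 _ hs5, e0 _ hs6, e0 _ hs7, e0 _ hs8, hT.add, normq_smul1 hT]
    rcases zmod2_cases (s k) with h2 | h2
    · rw [h2]; ring
    · rw [h2]; ring
  refine ⟨_, c', hc', ?_, key 1, key 2, key 3, key 4⟩
  intro i j
  show T (b 0 + s 0 • b (r 0)) (b i + s i • b (r i)) (b j + s j • b (r j)) = _
  rw [e0 _ hs0, normq_add2 hT, normq_add3 hT, normq_add3 hT, normq_smul2 hT, normq_smul2 hT,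
    normq_smul3 hT, normq_smul3 hT, h0, h0, h0, h0]
  refine Eq.trans ?_ (hst i j)
  ring

theorem normq_tv12 {T T' : V → V → V → ZMod 2} (h : Good T T') {q1 q2 q3 q4 : ZMod 2}
    (hr : NormqReach T q1 q2 q3 q4) : NormqReach T q1 (q2 + (q1 + 1)) q3 q4 := by
  obtain ⟨b, c, hbc, h0, h1, h2, h3, h4⟩ := hr
  have hw := (two_props (h.rel hbc) h0).2.1
  have hw' : wd (fun i j k => T (b i) (b j) (b k)) 2 1 = 1 := by
    rw [← hw]; unfold wd; ring
  have := normq_tv h hbc h0 ![0, 0, 1, 0, 0, 0, 0, 0, 0] ![0, 1, 1, 3, 4, 5, 6, 7, 8] rfl rfl rfl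
    rfl rfl (by decide) (by unfold std; decide)
  have e1 : (![0, 0, 1, 0, 0, 0, 0, 0, 0] : Fin 9 → ZMod 2) 1 = 0 := rfl
  have e2 : (![0, 0, 1, 0, 0, 0, 0, 0, 0] : Fin 9 → ZMod 2) 2 = 1 := rfl
  have e3 : (![0, 0, 1, 0, 0, 0, 0, 0, 0] : Fin 9 → ZMod 2) 3 = 0 := rfl
  have e4 : (![0, 0, 1, 0, 0, 0, 0, 0, 0] : Fin 9 → ZMod 2) 4 = 0 := rfl
  have f2 : (![0, 1, 1, 3, 4, 5, 6, 7, 8] : Fin 9 → Fin 9) 2 = 1 := rfl
  rw [e1, e2, e3, e4, f2, hw', h1, h2, h3, h4, zero_mul, zero_mul, zero_mul, add_zero, add_zero,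
    add_zero, one_mul] at this
  exact this

theorem normq_tv13 {T T' : V → V → V → ZMod 2} (h : Good T T') {q1 q2 q3 q4 : ZMod 2}
    (hr : NormqReach T q1 q2 q3 q4) : NormqReach T (q1 + q3) q2 q3 (q4 + q2) := by
  obtain ⟨b, c, hbc, h0, h1, h2, h3, h4⟩ := hr
  have hw := (two_props (h.rel hbc) h0).2
  have hw1 : wd (fun i j k => T (b i) (b j) (b k)) 1 3 = 0 := hw.2.2.1
  have hw2 : wd (fun i j k => T (b i) (b j) (b k)) 4 2 = 0 := by
    rw [← hw.2.2.2.2.2]; unfold wd; ring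
  have := normq_tv h hbc h0 ![0, 1, 0, 0, 1, 0, 0, 0, 0] ![0, 3, 2, 3, 2, 5, 6, 7, 8] rfl rfl rfl
    rfl rfl (by decide) (by unfold std; decide)
  have e1 : (![0, 1, 0, 0, 1, 0, 0, 0, 0] : Fin 9 → ZMod 2) 1 = 1 := rfl
  have e2 : (![0, 1, 0, 0, 1, 0, 0, 0, 0] : Fin 9 → ZMod 2) 2 = 0 := rfl
  have e3 : (![0, 1, 0, 0, 1, 0, 0, 0, 0] : Fin 9 → ZMod 2) 3 = 0 := rfl
  have e4 : (![0, 1, 0, 0, 1, 0, 0, 0, 0] : Fin 9 → ZMod 2) 4 = 1 := rfl
  have f1 : (![0, 3, 2, 3, 2, 5, 6, 7, 8] : Fin 9 → Fin 9) 1 = 3 := rfl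
  have f4 : (![0, 3, 2, 3, 2, 5, 6, 7, 8] : Fin 9 → Fin 9) 4 = 2 := rfl
  rw [e1, e2, e3, e4, f1, f4, hw1, hw2, h1, h2, h3, h4, zero_mul, zero_mul, add_zero, add_zero,
    one_mul, one_mul] at this
  simpa using this

/-- the first pair can be brought to `00` or `11` -/
theorem normq_pair {T T' : V → V → V → ZMod 2} (h : Good T T') {q1 q2 q3 q4 : ZMod 2}
    (hr : NormqReach T q1 q2 q3 q4) :
    (NormqReach T 0 0 q3 q4) ∨ (q1 = 1 ∧ q2 = 1 ∧ NormqReach T 1 1 q3 q4) := by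
  rcases zmod2_cases q1 with a | a <;> rcases zmod2_cases q2 with a' | a' <;> subst a <;> subst a'
  · exact Or.inl hr
  · refine Or.inl ?_
    have h1 := normq_tv12 h hr
    have e : (1 : ZMod 2) + (0 + 1) = 0 := by decide
    rw [e] at h1; exact h1
  · refine Or.inl ?_
    have h1 := normq_tv12 h (normq_swap12 hr)
    have e : (1 : ZMod 2) + (0 + 1) = 0 := by decide
    rw [e] at h1; exact h1
  · exact Or.inr ⟨rfl, rfl, hr⟩

theorem normq_final {T T' : V → V → V → ZMod 2} (h : Good T T') {q1 q2 q3 q4 : ZMod 2}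
    (hr : NormqReach T q1 q2 q3 q4) : NormqReach T 0 0 0 0 ∨ NormqReach T 0 0 1 1 := by
  rcases normq_pair h hr with h1 | ⟨-, -, h1⟩
  · rcases normq_pair h (normq_swapP h1) with h2 | ⟨-, -, h2⟩
    · exact Or.inl h2
    · exact Or.inr (normq_swapP h2)
  · rcases normq_pair h (normq_swapP h1) with h2 | ⟨-, -, h2⟩
    · exact Or.inr h2
    · have h3 := normq_tv13 h h2
      have h4 : NormqReach T 0 1 1 0 := by
        have e : (0 : ZMod 2) + 1 = 1 := by decide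
        have e' : (1 : ZMod 2) + 1 = 0 := by decide
        simpa [e, e'] using h3
      rcases normq_pair h h4 with h5 | ⟨h5, -, -⟩
      · rcases normq_pair h (normq_swapP h5) with h6 | ⟨-, h6, -⟩
        · exact Or.inl h6
        · exact absurd h6 (by decide)
      · exact absurd h5 (by decide)

theorem normQ {T T' : V → V → V → ZMod 2} (h : Good T T') {b c : Fin 9 → V}
    (hbc : IsDual b c) (h0 : ∀ i j, T (b 0) (b i) (b j) = std 2 i j) :
    ∃ b' c' : Fin 9 → V, IsDual b' c' ∧ (∀ i j, T (b' 0) (b' i) (b' j) = std 2 i j) ∧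
      pf4 (fun i j k => T (b' i) (b' j) (b' k)) 1 = 0 ∧
      pf4 (fun i j k => T (b' i) (b' j) (b' k)) 2 = 0 ∧
      ∃ ε : ZMod 2, pf4 (fun i j k => T (b' i) (b' j) (b' k)) 3 = ε ∧
        pf4 (fun i j k => T (b' i) (b' j) (b' k)) 4 = ε := by
  have hr : NormqReach T _ _ _ _ := ⟨b, c, hbc, h0, rfl, rfl, rfl, rfl⟩
  rcases normq_final h hr with ⟨b', c', h1, h2, h3, h4, h5, h6⟩ | ⟨b', c', h1, h2, h3, h4, h5, h6⟩
  · exact ⟨b', c', h1, h2, h3, h4, 0, h5, h6⟩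
  · exact ⟨b', c', h1, h2, h3, h4, 1, h5, h6⟩

end Pool.Agent.H.MP_694475_co
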