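import Pool.Agent.H.MP_694475_co.Two

/-! Linear relations, nonsplit case. -/

open Finset

namespace Pool.Agent.H.MP_694475_co

theorem two_lin2 {t t' : Fin 9 → Fin 9 → Fin 9 → ZMod 2} (h : RelT t t')
    (h0 : ∀ i j, t 0 i j = std 2 i j)
    (hA : ∀ i j k : Fin 9, 1 ≤ i → i ≤ 4 → 5 ≤ j → j < k →
      t i j k = if (i, j, k) ∈ L2 then 1 else 0) :
    t 1 2 5 + t 2 3 7 + t 2 4 8 + t 3 4 5 = 0 ∧
    t 1 2 6 + t 2 3 7 + t 2 3 8 + t 2 4 7 + t 3 4 6 = 0 ∧
    t 1 2 7 + t 1 3 5 + t 1 4 6 + t 3 4 7 = 0 ∧
    t 1 2 8 + t 1 3 5 + t 1 3 6 + t 1 4 5 + t 3 4 8 = 0 ∧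
    t 1 3 8 + t 1 4 7 = 0 ∧ t 1 3 7 + t 1 3 8 + t 1 4 8 = 0 ∧
    t 2 3 6 + t 2 4 5 = 0 ∧ t 2 3 5 + t 2 3 6 + t 2 4 6 = 0 := by
  obtain ⟨⟨k567, k568, k578, k678⟩, -⟩ := two_props h h0
  have k012 : t 0 1 2 = 1 := (h0 1 2).trans (by decide)
  have k013 : t 0 1 3 = 0 := (h0 1 3).trans (by decide)
  have k014 : t 0 1 4 = 0 := (h0 1 4).trans (by decide)
  have k015 : t 0 1 5 = 0 := (h0 1 5).trans (by decide)
  have k016 : t 0 1 6 = 0 := (h0 1 6).trans (by decide)
  have k017 : t 0 1 7 = 0 := (h0 1 7).trans (by decide)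
  have k018 : t 0 1 8 = 0 := (h0 1 8).trans (by decide)
  have k023 : t 0 2 3 = 0 := (h0 2 3).trans (by decide)
  have k024 : t 0 2 4 = 0 := (h0 2 4).trans (by decide)
  have k025 : t 0 2 5 = 0 := (h0 2 5).trans (by decide)
  have k026 : t 0 2 6 = 0 := (h0 2 6).trans (by decide)
  have k027 : t 0 2 7 = 0 := (h0 2 7).trans (by decide)
  have k028 : t 0 2 8 = 0 := (h0 2 8).trans (by decide)
  have k034 : t 0 3 4 = 1 := (h0 3 4).trans (by decide)
  have k035 : t 0 3 5 = 0 := (h0 3 5).trans (by decide)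
  have k036 : t 0 3 6 = 0 := (h0 3 6).trans (by decide)
  have k037 : t 0 3 7 = 0 := (h0 3 7).trans (by decide)
  have k038 : t 0 3 8 = 0 := (h0 3 8).trans (by decide)
  have k045 : t 0 4 5 = 0 := (h0 4 5).trans (by decide)
  have k046 : t 0 4 6 = 0 := (h0 4 6).trans (by decide)
  have k047 : t 0 4 7 = 0 := (h0 4 7).trans (by decide)
  have k048 : t 0 4 8 = 0 := (h0 4 8).trans (by decide)
  have k056 : t 0 5 6 = 0 := (h0 5 6).trans (by decide)
  have k057 : t 0 5 7 = 0 := (h0 5 7).trans (by decide)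
  have k058 : t 0 5 8 = 0 := (h0 5 8).trans (by decide)
  have k067 : t 0 6 7 = 0 := (h0 6 7).trans (by decide)
  have k068 : t 0 6 8 = 0 := (h0 6 8).trans (by decide)
  have k078 : t 0 7 8 = 0 := (h0 7 8).trans (by decide)
  have k156 : t 1 5 6 = 1 := (hA 1 5 6 (by decide) (by decide) (by decide) (by decide)).trans (by decide)
  have k157 : t 1 5 7 = 0 := (hA 1 5 7 (by decide) (by decide) (by decide) (by decide)).trans (by decide)
  have k158 : t 1 5 8 = 0 := (hA 1 5 8 (by decide) (by decide) (by decide) (by decide)).trans (by decide)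
  have k167 : t 1 6 7 = 0 := (hA 1 6 7 (by decide) (by decide) (by decide) (by decide)).trans (by decide)
  have k168 : t 1 6 8 = 0 := (hA 1 6 8 (by decide) (by decide) (by decide) (by decide)).trans (by decide)
  have k178 : t 1 7 8 = 0 := (hA 1 7 8 (by decide) (by decide) (by decide) (by decide)).trans (by decide)
  have k256 : t 2 5 6 = 0 := (hA 2 5 6 (by decide) (by decide) (by decide) (by decide)).trans (by decide)
  have k257 : t 2 5 7 = 0 := (hA 2 5 7 (by decide) (by decide) (by decide) (by decide)).trans (by decide)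
  have k258 : t 2 5 8 = 0 := (hA 2 5 8 (by decide) (by decide) (by decide) (by decide)).trans (by decide)
  have k267 : t 2 6 7 = 0 := (hA 2 6 7 (by decide) (by decide) (by decide) (by decide)).trans (by decide)
  have k268 : t 2 6 8 = 0 := (hA 2 6 8 (by decide) (by decide) (by decide) (by decide)).trans (by decide)
  have k278 : t 2 7 8 = 1 := (hA 2 7 8 (by decide) (by decide) (by decide) (by decide)).trans (by decide)
  have k356 : t 3 5 6 = 0 := (hA 3 5 6 (by decide) (by decide) (by decide) (by decide)).trans (by decide)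
  have k357 : t 3 5 7 = 1 := (hA 3 5 7 (by decide) (by decide) (by decide) (by decide)).trans (by decide)
  have k358 : t 3 5 8 = 0 := (hA 3 5 8 (by decide) (by decide) (by decide) (by decide)).trans (by decide)
  have k367 : t 3 6 7 = 0 := (hA 3 6 7 (by decide) (by decide) (by decide) (by decide)).trans (by decide)
  have k368 : t 3 6 8 = 1 := (hA 3 6 8 (by decide) (by decide) (by decide) (by decide)).trans (by decide)
  have k378 : t 3 7 8 = 0 := (hA 3 7 8 (by decide) (by decide) (by decide) (by decide)).trans (by decide)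
  have k456 : t 4 5 6 = 0 := (hA 4 5 6 (by decide) (by decide) (by decide) (by decide)).trans (by decide)
  have k457 : t 4 5 7 = 0 := (hA 4 5 7 (by decide) (by decide) (by decide) (by decide)).trans (by decide)
  have k458 : t 4 5 8 = 1 := (hA 4 5 8 (by decide) (by decide) (by decide) (by decide)).trans (by decide)
  have k467 : t 4 6 7 = 1 := (hA 4 6 7 (by decide) (by decide) (by decide) (by decide)).trans (by decide)
  have k468 : t 4 6 8 = 1 := (hA 4 6 8 (by decide) (by decide) (by decide) (by decide)).trans (by decide)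
  have k478 : t 4 7 8 = 0 := (hA 4 7 8 (by decide) (by decide) (by decide) (by decide)).trans (by decide)
  have f014 : t' 0 1 4 = 0 := by
    rw [h.fwd 0 1 4 2 3 5 6 7 8 (by decide)]; simp only [DD, k256, k257, k258, k267, k268, k278, k356, k357, k358, k367, k368, k378, k567, k568, k578, k678]
    ring_nf; try reduce_mod_char
  have f015 : t' 0 1 5 = t 2 3 7 + t 2 3 8 + t 2 4 7 + t 3 4 6 := by
    rw [h.fwd 0 1 5 2 3 4 6 7 8 (by decide)]; simp only [DD, k267, k268, k278, k367, k368, k378, k467, k468, k478, k678]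
    ring_nf; try reduce_mod_char
  have f016 : t' 0 1 6 = t 2 3 7 + t 2 4 8 + t 3 4 5 := by
    rw [h.fwd 0 1 6 2 3 4 5 7 8 (by decide)]; simp only [DD, k257, k258, k278, k357, k358, k378, k457, k458, k478, k578]
    ring_nf; try reduce_mod_char
  have f017 : t' 0 1 7 = t 2 3 5 + t 2 3 6 + t 2 4 5 := by
    rw [h.fwd 0 1 7 2 3 4 5 6 8 (by decide)]; simp only [DD, k256, k258, k268, k356, k358, k368, k456, k458, k468, k568]
    ring_nf; try reduce_mod_char
  have f018 : t' 0 1 8 = t 2 3 5 + t 2 4 6 := by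
    rw [h.fwd 0 1 8 2 3 4 5 6 7 (by decide)]; simp only [DD, k256, k257, k267, k356, k357, k367, k456, k457, k467, k567]
    ring_nf; try reduce_mod_char
  have f024 : t' 0 2 4 = 0 := by
    rw [h.fwd 0 2 4 1 3 5 6 7 8 (by decide)]; simp only [DD, k156, k157, k158, k167, k168, k178, k356, k357, k358, k367, k368, k378, k567, k568, k578, k678]
    ring_nf; try reduce_mod_char
  have f025 : t' 0 2 5 = t 1 3 7 + t 1 3 8 + t 1 4 7 := by
    rw [h.fwd 0 2 5 1 3 4 6 7 8 (by decide)]; simp only [DD, k167, k168, k178, k367, k368, k378, k467, k468, k478, k678]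
    ring_nf; try reduce_mod_char
  have f026 : t' 0 2 6 = t 1 3 7 + t 1 4 8 := by
    rw [h.fwd 0 2 6 1 3 4 5 7 8 (by decide)]; simp only [DD, k157, k158, k178, k357, k358, k378, k457, k458, k478, k578]
    ring_nf; try reduce_mod_char
  have f027 : t' 0 2 7 = t 1 3 5 + t 1 3 6 + t 1 4 5 + t 3 4 8 := by
    rw [h.fwd 0 2 7 1 3 4 5 6 8 (by decide)]; simp only [DD, k156, k158, k168, k356, k358, k368, k456, k458, k468, k568]
    ring_nf; try reduce_mod_char
  have f028 : t' 0 2 8 = t 1 3 5 + t 1 4 6 + t 3 4 7 := by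
    rw [h.fwd 0 2 8 1 3 4 5 6 7 (by decide)]; simp only [DD, k156, k157, k167, k356, k357, k367, k456, k457, k467, k567]
    ring_nf; try reduce_mod_char
  have f034 : t' 0 3 4 = 1 := by
    rw [h.fwd 0 3 4 1 2 5 6 7 8 (by decide)]; simp only [DD, k156, k157, k158, k167, k168, k178, k256, k257, k258, k267, k268, k278, k567, k568, k578, k678]
    ring_nf; try reduce_mod_char
  have f035 : t' 0 3 5 = t 1 2 7 + t 1 2 8 + t 1 4 6 := by
    rw [h.fwd 0 3 5 1 2 4 6 7 8 (by decide)]; simp only [DD, k167, k168, k178, k267, k268, k278, k467, k468, k478, k678]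
    ring_nf; try reduce_mod_char
  have f036 : t' 0 3 6 = t 1 2 7 + t 1 4 5 := by
    rw [h.fwd 0 3 6 1 2 4 5 7 8 (by decide)]; simp only [DD, k157, k158, k178, k257, k258, k278, k457, k458, k478, k578]
    ring_nf; try reduce_mod_char
  have f037 : t' 0 3 7 = t 1 2 5 + t 1 2 6 + t 2 4 8 := by
    rw [h.fwd 0 3 7 1 2 4 5 6 8 (by decide)]; simp only [DD, k156, k158, k168, k256, k258, k268, k456, k458, k468, k568]
    ring_nf; try reduce_mod_char
  have f038 : t' 0 3 8 = t 1 2 5 + t 2 4 7 := by
    rw [h.fwd 0 3 8 1 2 4 5 6 7 (by decide)]; simp only [DD, k156, k157, k167, k256, k257, k267, k456, k457, k467, k567]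
    ring_nf; try reduce_mod_char
  have f045 : t' 0 4 5 = t 1 2 7 + t 1 3 6 := by
    rw [h.fwd 0 4 5 1 2 3 6 7 8 (by decide)]; simp only [DD, k167, k168, k178, k267, k268, k278, k367, k368, k378, k678]
    ring_nf; try reduce_mod_char
  have f046 : t' 0 4 6 = t 1 2 8 + t 1 3 5 := by
    rw [h.fwd 0 4 6 1 2 3 5 7 8 (by decide)]; simp only [DD, k157, k158, k178, k257, k258, k278, k357, k358, k378, k578]
    ring_nf; try reduce_mod_char
  have f047 : t' 0 4 7 = t 1 2 5 + t 2 3 8 := by
    rw [h.fwd 0 4 7 1 2 3 5 6 8 (by decide)]; simp only [DD, k156, k158, k168, k256, k258, k268, k356, k358, k368, k568]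
    ring_nf; try reduce_mod_char
  have f048 : t' 0 4 8 = t 1 2 6 + t 2 3 7 := by
    rw [h.fwd 0 4 8 1 2 3 5 6 7 (by decide)]; simp only [DD, k156, k157, k167, k256, k257, k267, k356, k357, k367, k567]
    ring_nf; try reduce_mod_char
  have f145 : t' 1 4 5 = 0 := by
    rw [h.fwd 1 4 5 0 2 3 6 7 8 (by decide)]; simp only [DD, k023, k026, k027, k028, k036, k037, k038, k067, k068, k078, k267, k268, k278, k367, k368, k378, k678]
    ring_nf; try reduce_mod_char
  have f146 : t' 1 4 6 = 0 := by
    rw [h.fwd 1 4 6 0 2 3 5 7 8 (by decide)]; simp only [DD, k023, k025, k027, k028, k035, k037, k038, k057, k058, k078, k257, k258, k278, k357, k358, k378, k578]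
    ring_nf; try reduce_mod_char
  have f147 : t' 1 4 7 = 0 := by
    rw [h.fwd 1 4 7 0 2 3 5 6 8 (by decide)]; simp only [DD, k023, k025, k026, k028, k035, k036, k038, k056, k058, k068, k256, k258, k268, k356, k358, k368, k568]
    ring_nf; try reduce_mod_char
  have f148 : t' 1 4 8 = 0 := by
    rw [h.fwd 1 4 8 0 2 3 5 6 7 (by decide)]; simp only [DD, k023, k025, k026, k027, k035, k036, k037, k056, k057, k067, k256, k257, k267, k356, k357, k367, k567]
    ring_nf; try reduce_mod_char
  have f157 : t' 1 5 7 = 0 := by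
    rw [h.fwd 1 5 7 0 2 3 4 6 8 (by decide)]; simp only [DD, k023, k024, k026, k028, k034, k036, k038, k046, k048, k068, k268, k368, k468]
    ring_nf; try reduce_mod_char
  have f158 : t' 1 5 8 = 0 := by
    rw [h.fwd 1 5 8 0 2 3 4 6 7 (by decide)]; simp only [DD, k023, k024, k026, k027, k034, k036, k037, k046, k047, k067, k267, k367, k467]
    ring_nf; try reduce_mod_char
  have f167 : t' 1 6 7 = 0 := by
    rw [h.fwd 1 6 7 0 2 3 4 5 8 (by decide)]; simp only [DD, k023, k024, k025, k028, k034, k035, k038, k045, k048, k058, k258, k358, k458]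
    ring_nf; try reduce_mod_char
  have f168 : t' 1 6 8 = 0 := by
    rw [h.fwd 1 6 8 0 2 3 4 5 7 (by decide)]; simp only [DD, k023, k024, k025, k027, k034, k035, k037, k045, k047, k057, k257, k357, k457]
    ring_nf; try reduce_mod_char
  have f178 : t' 1 7 8 = 0 := by
    rw [h.fwd 1 7 8 0 2 3 4 5 6 (by decide)]; simp only [DD, k023, k024, k025, k026, k034, k035, k036, k045, k046, k056, k256, k356, k456]
    ring_nf; try reduce_mod_char
  have f245 : t' 2 4 5 = 0 := by
    rw [h.fwd 2 4 5 0 1 3 6 7 8 (by decide)]; simp only [DD, k013, k016, k017, k018, k036, k037, k038, k067, k068, k078, k167, k168, k178, k367, k368, k378, k678]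
    ring_nf; try reduce_mod_char
  have f246 : t' 2 4 6 = 0 := by
    rw [h.fwd 2 4 6 0 1 3 5 7 8 (by decide)]; simp only [DD, k013, k015, k017, k018, k035, k037, k038, k057, k058, k078, k157, k158, k178, k357, k358, k378, k578]
    ring_nf; try reduce_mod_char
  have f247 : t' 2 4 7 = 0 := by
    rw [h.fwd 2 4 7 0 1 3 5 6 8 (by decide)]; simp only [DD, k013, k015, k016, k018, k035, k036, k038, k056, k058, k068, k156, k158, k168, k356, k358, k368, k568]
    ring_nf; try reduce_mod_char
  have f248 : t' 2 4 8 = 0 := by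
    rw [h.fwd 2 4 8 0 1 3 5 6 7 (by decide)]; simp only [DD, k013, k015, k016, k017, k035, k036, k037, k056, k057, k067, k156, k157, k167, k356, k357, k367, k567]
    ring_nf; try reduce_mod_char
  have f256 : t' 2 5 6 = 0 := by
    rw [h.fwd 2 5 6 0 1 3 4 7 8 (by decide)]; simp only [DD, k013, k014, k017, k018, k034, k037, k038, k047, k048, k078, k178, k378, k478]
    ring_nf; try reduce_mod_char
  have f257 : t' 2 5 7 = 0 := by
    rw [h.fwd 2 5 7 0 1 3 4 6 8 (by decide)]; simp only [DD, k013, k014, k016, k018, k034, k036, k038, k046, k048, k068, k168, k368, k468]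
    ring_nf; try reduce_mod_char
  have f258 : t' 2 5 8 = 0 := by
    rw [h.fwd 2 5 8 0 1 3 4 6 7 (by decide)]; simp only [DD, k013, k014, k016, k017, k034, k036, k037, k046, k047, k067, k167, k367, k467]
    ring_nf; try reduce_mod_char
  have f267 : t' 2 6 7 = 0 := by
    rw [h.fwd 2 6 7 0 1 3 4 5 8 (by decide)]; simp only [DD, k013, k014, k015, k018, k034, k035, k038, k045, k048, k058, k158, k358, k458]
    ring_nf; try reduce_mod_char
  have f268 : t' 2 6 8 = 0 := by
    rw [h.fwd 2 6 8 0 1 3 4 5 7 (by decide)]; simp only [DD, k013, k014, k015, k017, k034, k035, k037, k045, k047, k057, k157, k357, k457]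
    ring_nf; try reduce_mod_char
  have f345 : t' 3 4 5 = 0 := by
    rw [h.fwd 3 4 5 0 1 2 6 7 8 (by decide)]; simp only [DD, k012, k016, k017, k018, k026, k027, k028, k067, k068, k078, k167, k168, k178, k267, k268, k278, k678]
    ring_nf; try reduce_mod_char
  have f346 : t' 3 4 6 = 0 := by
    rw [h.fwd 3 4 6 0 1 2 5 7 8 (by decide)]; simp only [DD, k012, k015, k017, k018, k025, k027, k028, k057, k058, k078, k157, k158, k178, k257, k258, k278, k578]
    ring_nf; try reduce_mod_char
  have f347 : t' 3 4 7 = 0 := by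
    rw [h.fwd 3 4 7 0 1 2 5 6 8 (by decide)]; simp only [DD, k012, k015, k016, k018, k025, k026, k028, k056, k058, k068, k156, k158, k168, k256, k258, k268, k568]
    ring_nf; try reduce_mod_char
  have f348 : t' 3 4 8 = 0 := by
    rw [h.fwd 3 4 8 0 1 2 5 6 7 (by decide)]; simp only [DD, k012, k015, k016, k017, k025, k026, k027, k056, k057, k067, k156, k157, k167, k256, k257, k267, k567]
    ring_nf; try reduce_mod_char
  have f356 : t' 3 5 6 = 0 := by
    rw [h.fwd 3 5 6 0 1 2 4 7 8 (by decide)]; simp only [DD, k012, k014, k017, k018, k024, k027, k028, k047, k048, k078, k178, k278, k478]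
    ring_nf; try reduce_mod_char
  have f357 : t' 3 5 7 = 1 := by
    rw [h.fwd 3 5 7 0 1 2 4 6 8 (by decide)]; simp only [DD, k012, k014, k016, k018, k024, k026, k028, k046, k048, k068, k168, k268, k468]
    ring_nf; try reduce_mod_char
  have f358 : t' 3 5 8 = 1 := by
    rw [h.fwd 3 5 8 0 1 2 4 6 7 (by decide)]; simp only [DD, k012, k014, k016, k017, k024, k026, k027, k046, k047, k067, k167, k267, k467]
    ring_nf; try reduce_mod_char
  have f367 : t' 3 6 7 = 1 := by
    rw [h.fwd 3 6 7 0 1 2 4 5 8 (by decide)]; simp only [DD, k012, k014, k015, k018, k024, k025, k028, k045, k048, k058, k158, k258, k458]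
    ring_nf; try reduce_mod_char
  have f368 : t' 3 6 8 = 0 := by
    rw [h.fwd 3 6 8 0 1 2 4 5 7 (by decide)]; simp only [DD, k012, k014, k015, k017, k024, k025, k027, k045, k047, k057, k157, k257, k457]
    ring_nf; try reduce_mod_char
  have f378 : t' 3 7 8 = 0 := by
    rw [h.fwd 3 7 8 0 1 2 4 5 6 (by decide)]; simp only [DD, k012, k014, k015, k016, k024, k025, k026, k045, k046, k056, k156, k256, k456]
    ring_nf; try reduce_mod_char
  have f456 : t' 4 5 6 = 0 := by
    rw [h.fwd 4 5 6 0 1 2 3 7 8 (by decide)]; simp only [DD, k012, k013, k017, k018, k023, k027, k028, k037, k038, k078, k178, k278, k378]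
    ring_nf; try reduce_mod_char
  have f457 : t' 4 5 7 = 1 := by
    rw [h.fwd 4 5 7 0 1 2 3 6 8 (by decide)]; simp only [DD, k012, k013, k016, k018, k023, k026, k028, k036, k038, k068, k168, k268, k368]
    ring_nf; try reduce_mod_char
  have f458 : t' 4 5 8 = 0 := by
    rw [h.fwd 4 5 8 0 1 2 3 6 7 (by decide)]; simp only [DD, k012, k013, k016, k017, k023, k026, k027, k036, k037, k067, k167, k267, k367]
    ring_nf; try reduce_mod_char
  have f467 : t' 4 6 7 = 0 := by
    rw [h.fwd 4 6 7 0 1 2 3 5 8 (by decide)]; simp only [DD, k012, k013, k015, k018, k023, k025, k028, k035, k038, k058, k158, k258, k358]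
    ring_nf; try reduce_mod_char
  have f468 : t' 4 6 8 = 1 := by
    rw [h.fwd 4 6 8 0 1 2 3 5 7 (by decide)]; simp only [DD, k012, k013, k015, k017, k023, k025, k027, k035, k037, k057, k157, k257, k357]
    ring_nf; try reduce_mod_char
  have f478 : t' 4 7 8 = 0 := by
    rw [h.fwd 4 7 8 0 1 2 3 5 6 (by decide)]; simp only [DD, k012, k013, k015, k016, k023, k025, k026, k035, k036, k056, k156, k256, k356]
    ring_nf; try reduce_mod_char
  have f567 : t' 5 6 7 = t 1 2 8 + t 3 4 8 := by
    rw [h.fwd 5 6 7 0 1 2 3 4 8 (by decide)]; simp only [DD, k012, k013, k014, k018, k023, k024, k028, k034, k038, k048]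
    ring_nf; try reduce_mod_char
  have f568 : t' 5 6 8 = t 1 2 7 + t 3 4 7 := by
    rw [h.fwd 5 6 8 0 1 2 3 4 7 (by decide)]; simp only [DD, k012, k013, k014, k017, k023, k024, k027, k034, k037, k047]
    ring_nf; try reduce_mod_char
  have f578 : t' 5 7 8 = t 1 2 6 + t 3 4 6 := by
    rw [h.fwd 5 7 8 0 1 2 3 4 6 (by decide)]; simp only [DD, k012, k013, k014, k016, k023, k024, k026, k034, k036, k046]
    ring_nf; try reduce_mod_char
  have f678 : t' 6 7 8 = t 1 2 5 + t 3 4 5 := by
    rw [h.fwd 6 7 8 0 1 2 3 4 5 (by decide)]; simp only [DD, k012, k013, k014, k015, k023, k024, k025, k034, k035, k045]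
    ring_nf; try reduce_mod_char
  have b125 := h.bwd 1 2 5 0 3 4 6 7 8 (by decide)
  simp only [DD, f034, f036, f037, f038, f046, f047, f048, f346, f347, f348, f367, f368, f378, f467, f468, f478, f678] at b125
  have b126 := h.bwd 1 2 6 0 3 4 5 7 8 (by decide)
  simp only [DD, f034, f035, f037, f038, f045, f047, f048, f345, f347, f348, f357, f358, f378, f457, f458, f478, f578] at b126
  have b127 := h.bwd 1 2 7 0 3 4 5 6 8 (by decide)
  simp only [DD, f034, f035, f036, f038, f045, f046, f048, f345, f346, f348, f356, f358, f368, f456, f458, f468, f568] at b127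
  have b128 := h.bwd 1 2 8 0 3 4 5 6 7 (by decide)
  simp only [DD, f034, f035, f036, f037, f045, f046, f047, f345, f346, f347, f356, f357, f367, f456, f457, f467, f567] at b128
  have b137 := h.bwd 1 3 7 0 2 4 5 6 8 (by decide)
  simp only [DD, f024, f025, f026, f028, f045, f046, f048, f245, f246, f248, f256, f258, f268, f456, f458, f468, f568] at b137
  have b138 := h.bwd 1 3 8 0 2 4 5 6 7 (by decide)
  simp only [DD, f024, f025, f026, f027, f045, f046, f047, f245, f246, f247, f256, f257, f267, f456, f457, f467, f567] at b138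
  have b235 := h.bwd 2 3 5 0 1 4 6 7 8 (by decide)
  simp only [DD, f014, f016, f017, f018, f046, f047, f048, f146, f147, f148, f167, f168, f178, f467, f468, f478, f678] at b235
  have b236 := h.bwd 2 3 6 0 1 4 5 7 8 (by decide)
  simp only [DD, f014, f015, f017, f018, f045, f047, f048, f145, f147, f148, f157, f158, f178, f457, f458, f478, f578] at b236
  refine ⟨?_, ?_, ?_, ?_, ?_, ?_, ?_, ?_⟩
  · linear_combination (norm := (ring_nf; try reduce_mod_char)) b125
  · linear_combination (norm := (ring_nf; try reduce_mod_char)) b126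
  · linear_combination (norm := (ring_nf; try reduce_mod_char)) b127
  · linear_combination (norm := (ring_nf; try reduce_mod_char)) b128
  · linear_combination (norm := (ring_nf; try reduce_mod_char)) b137
  · linear_combination (norm := (ring_nf; try reduce_mod_char)) b138
  · linear_combination (norm := (ring_nf; try reduce_mod_char)) b235
  · linear_combination (norm := (ring_nf; try reduce_mod_char)) b236

end Pool.Agent.H.MP_694475_co
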