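import Pool.Agent.H.MP_694475_co.NormQ

/-! Normalisation of the two forms `T (b 1)`, `T (b 2)` on `b 5, ..., b 8`. -/

open Finset

namespace Pool.Agent.H.MP_694475_co

theorem normw1_zero {T : V → V → V → ZMod 2} (h : IsTri T) (v w : V) : T 0 v w = 0 := by
  have := h.add 0 0 v w
  rw [add_zero, add_self_zmod2] at this
  exact this

theorem normw1_smul {T : V → V → V → ZMod 2} (h : IsTri T) (a : ZMod 2) (u v w : V) :
    T (a • u) v w = a * T u v w := by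
  rcases zmod2_cases a with rfl | rfl
  · rw [zero_smul, zero_mul, normw1_zero h]
  · rw [one_smul, one_mul]

theorem normw1_add2 {T : V → V → V → ZMod 2} (h : IsTri T) (u v v' w : V) :
    T u (v + v') w = T u v w + T u v' w := by
  rw [h.sw12 u, h.add, h.sw12 v, h.sw12 v']

theorem normw1_smul2 {T : V → V → V → ZMod 2} (h : IsTri T) (a : ZMod 2) (u v w : V) :
    T u (a • v) w = a * T u v w := by
  rw [h.sw12 u, normw1_smul h, h.sw12 v]

theorem normw1_add3 {T : V → V → V → ZMod 2} (h : IsTri T) (u v w w' : V) :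
    T u v (w + w') = T u v w + T u v w' := by
  rw [h.sw23 u v, normw1_add2 h, h.sw23 u w, h.sw23 u w']

theorem normw1_smul3 {T : V → V → V → ZMod 2} (h : IsTri T) (a : ZMod 2) (u v w : V) :
    T u v (a • w) = a * T u v w := by
  rw [h.sw23 u v, normw1_smul2 h, h.sw23 u w]

theorem normw1_alt3 {T : V → V → V → ZMod 2} (h : IsTri T) (u v : V) : T u v v = 0 := by
  rw [h.sw12 u, h.sw23 v u, h.alt]

/-- combination of the last four vectors -/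
def normw1_vv (b : Fin 9 → V) (x : Fin 4 → ZMod 2) : V :=
  x 0 • b 5 + x 1 • b 6 + x 2 • b 7 + x 3 • b 8

theorem normw1_T2 {T : V → V → V → ZMod 2} (h : IsTri T) (b : Fin 9 → V) (u w : V)
    (x : Fin 4 → ZMod 2) :
    T u (normw1_vv b x) w = x 0 * T u (b 5) w + x 1 * T u (b 6) w + x 2 * T u (b 7) w
      + x 3 * T u (b 8) w := by
  unfold normw1_vv
  rw [normw1_add2 h, normw1_add2 h, normw1_add2 h, normw1_smul2 h, normw1_smul2 h,
    normw1_smul2 h, normw1_smul2 h]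

theorem normw1_T3 {T : V → V → V → ZMod 2} (h : IsTri T) (b : Fin 9 → V) (u w : V)
    (x : Fin 4 → ZMod 2) :
    T u w (normw1_vv b x) = x 0 * T u w (b 5) + x 1 * T u w (b 6) + x 2 * T u w (b 7)
      + x 3 * T u w (b 8) := by
  rw [h.sw23 u w, normw1_T2 h, h.sw23 u w (b 5), h.sw23 u w (b 6), h.sw23 u w (b 7),
    h.sw23 u w (b 8)]

/-- value of the alternating form with entries `a56, a57, a58, a67, a68, a78` -/
def normw1_F (a56 a57 a58 a67 a68 a78 : ZMod 2) (x y : Fin 4 → ZMod 2) : ZMod 2 :=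
  a56 * (x 0 * y 1 + x 1 * y 0) + a57 * (x 0 * y 2 + x 2 * y 0) + a58 * (x 0 * y 3 + x 3 * y 0)
    + a67 * (x 1 * y 2 + x 2 * y 1) + a68 * (x 1 * y 3 + x 3 * y 1)
    + a78 * (x 2 * y 3 + x 3 * y 2)

theorem normw1_TF {T : V → V → V → ZMod 2} (h : IsTri T) (b : Fin 9 → V) (u : V)
    (x y : Fin 4 → ZMod 2) :
    T u (normw1_vv b x) (normw1_vv b y) =
      normw1_F (T u (b 5) (b 6)) (T u (b 5) (b 7)) (T u (b 5) (b 8)) (T u (b 6) (b 7))
        (T u (b 6) (b 8)) (T u (b 7) (b 8)) x y := by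
  rw [normw1_T2 h, normw1_T3 h, normw1_T3 h, normw1_T3 h, normw1_T3 h, normw1_alt3 h,
    normw1_alt3 h, normw1_alt3 h, normw1_alt3 h, h.sw23 u (b 6) (b 5), h.sw23 u (b 7) (b 5),
    h.sw23 u (b 8) (b 5), h.sw23 u (b 7) (b 6), h.sw23 u (b 8) (b 6), h.sw23 u (b 8) (b 7)]
  unfold normw1_F
  ring

/-- first radical vector -/
def normw1_R (_a56 a57 a58 a67 a68 a78 a56' : ZMod 2) : ZMod 2 × ZMod 2 × ZMod 2 × ZMod 2 :=
  if a78 = 1 then (0, a78, a68, a67) else if a68 = 1 then (0, a78, a68, a67)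
  else if a67 = 1 then (0, a78, a68, a67) else if a58 = 1 then (a78, 0, a58, a57)
  else if a57 = 1 then (a78, 0, a58, a57) else (a68, a58, 0, a56')

/-- second radical vector -/
def normw1_S (a56 a57 a58 a67 a68 a78 : ZMod 2) : ZMod 2 × ZMod 2 × ZMod 2 × ZMod 2 :=
  if a78 = 1 then (a78, 0, a58, a57) else if a68 = 1 then (a68, a58, 0, a56)
  else if a67 = 1 then (a67, a57, a56, 0) else if a58 = 1 then (a68, a58, 0, a56)
  else if a57 = 1 then (a67, a57, a56, 0) else (a67, a57, a56, 0)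

/-- the properties of the radical vectors -/
def normw1_P (a56 a57 a58 a67 a68 a78 r0 r1 r2 r3 s0 s1 s2 s3 : ZMod 2) : Prop :=
  (r0 * s1 + r1 * s0 = a78 ∧ r0 * s2 + r2 * s0 = a68 ∧ r0 * s3 + r3 * s0 = a67 ∧
       r1 * s2 + r2 * s1 = a58 ∧ r1 * s3 + r3 * s1 = a57 ∧ r2 * s3 + r3 * s2 = a56) ∧
      (a56 * r1 + a57 * r2 + a58 * r3 = 0 ∧ a56 * r0 + a67 * r2 + a68 * r3 = 0 ∧
       a57 * r0 + a67 * r1 + a78 * r3 = 0 ∧ a58 * r0 + a68 * r1 + a78 * r2 = 0) ∧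
      (a56 * s1 + a57 * s2 + a58 * s3 = 0 ∧ a56 * s0 + a67 * s2 + a68 * s3 = 0 ∧
       a57 * s0 + a67 * s1 + a78 * s3 = 0 ∧ a58 * s0 + a68 * s1 + a78 * s2 = 0)

instance (a56 a57 a58 a67 a68 a78 r0 r1 r2 r3 s0 s1 s2 s3 : ZMod 2) :
    Decidable (normw1_P a56 a57 a58 a67 a68 a78 r0 r1 r2 r3 s0 s1 s2 s3) := by
  unfold normw1_P; infer_instance

/-- radical of a degenerate form -/
theorem normw1_rad : ∀ a56 a57 a58 a67 a68 a78 : ZMod 2,
    a56 * a78 + a57 * a68 + a58 * a67 = 0 →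
    ∃ r0 r1 r2 r3 s0 s1 s2 s3 : ZMod 2,
      normw1_P a56 a57 a58 a67 a68 a78 r0 r1 r2 r3 s0 s1 s2 s3 := by
  have key : ∀ a56 a57 a58 a67 a68 a78 : ZMod 2,
    a56 * a78 + a57 * a68 + a58 * a67 = 0 →
    normw1_P a56 a57 a58 a67 a68 a78 (normw1_R a56 a57 a58 a67 a68 a78 a56).1
      (normw1_R a56 a57 a58 a67 a68 a78 a56).2.1 (normw1_R a56 a57 a58 a67 a68 a78 a56).2.2.1
      (normw1_R a56 a57 a58 a67 a68 a78 a56).2.2.2 (normw1_S a56 a57 a58 a67 a68 a78).1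
      (normw1_S a56 a57 a58 a67 a68 a78).2.1 (normw1_S a56 a57 a58 a67 a68 a78).2.2.1
      (normw1_S a56 a57 a58 a67 a68 a78).2.2.2 := by
    decide
  intro a56 a57 a58 a67 a68 a78 h
  exact ⟨_, _, _, _, _, _, _, _, key a56 a57 a58 a67 a68 a78 h⟩

theorem normw1_F_symm (a56 a57 a58 a67 a68 a78 : ZMod 2) (x y : Fin 4 → ZMod 2) :
    normw1_F a56 a57 a58 a67 a68 a78 x y = normw1_F a56 a57 a58 a67 a68 a78 y x := by
  unfold normw1_F; ring

theorem normw1_F_rad (a56 a57 a58 a67 a68 a78 : ZMod 2) (x y : Fin 4 → ZMod 2)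
    (h0 : a56 * y 1 + a57 * y 2 + a58 * y 3 = 0) (h1 : a56 * y 0 + a67 * y 2 + a68 * y 3 = 0)
    (h2 : a57 * y 0 + a67 * y 1 + a78 * y 3 = 0) (h3 : a58 * y 0 + a68 * y 1 + a78 * y 2 = 0) :
    normw1_F a56 a57 a58 a67 a68 a78 x y = 0 := by
  unfold normw1_F
  linear_combination x 0 * h0 + x 1 * h1 + x 2 * h2 + x 3 * h3

theorem normw1_pf_ring {R : Type*} [CommRing R] (a b c d e f p0 p1 p2 p3 q0 q1 q2 q3 r0 r1 r2 r3
    s0 s1 s2 s3 : R) :
    (a * (p0 * q1 - p1 * q0) + b * (p0 * q2 - p2 * q0) + c * (p0 * q3 - p3 * q0)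
      + d * (p1 * q2 - p2 * q1) + e * (p1 * q3 - p3 * q1) + f * (p2 * q3 - p3 * q2))
    * (a * (r0 * s1 - r1 * s0) + b * (r0 * s2 - r2 * s0) + c * (r0 * s3 - r3 * s0)
      + d * (r1 * s2 - r2 * s1) + e * (r1 * s3 - r3 * s1) + f * (r2 * s3 - r3 * s2))
    - (a * (p0 * r1 - p1 * r0) + b * (p0 * r2 - p2 * r0) + c * (p0 * r3 - p3 * r0)
      + d * (p1 * r2 - p2 * r1) + e * (p1 * r3 - p3 * r1) + f * (p2 * r3 - p3 * r2))
    * (a * (q0 * s1 - q1 * s0) + b * (q0 * s2 - q2 * s0) + c * (q0 * s3 - q3 * s0)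
      + d * (q1 * s2 - q2 * s1) + e * (q1 * s3 - q3 * s1) + f * (q2 * s3 - q3 * s2))
    + (a * (p0 * s1 - p1 * s0) + b * (p0 * s2 - p2 * s0) + c * (p0 * s3 - p3 * s0)
      + d * (p1 * s2 - p2 * s1) + e * (p1 * s3 - p3 * s1) + f * (p2 * s3 - p3 * s2))
    * (a * (q0 * r1 - q1 * r0) + b * (q0 * r2 - q2 * r0) + c * (q0 * r3 - q3 * r0)
      + d * (q1 * r2 - q2 * r1) + e * (q1 * r3 - q3 * r1) + f * (q2 * r3 - q3 * r2))
    = ((p0 * q1 - p1 * q0) * (r2 * s3 - r3 * s2) - (p0 * q2 - p2 * q0) * (r1 * s3 - r3 * s1)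
      + (p0 * q3 - p3 * q0) * (r1 * s2 - r2 * s1) + (p1 * q2 - p2 * q1) * (r0 * s3 - r3 * s0)
      - (p1 * q3 - p3 * q1) * (r0 * s2 - r2 * s0) + (p2 * q3 - p3 * q2) * (r0 * s1 - r1 * s0))
      * (a * f - b * e + c * d) := by
  ring

theorem normw1_pf (a b c d e f : ZMod 2) (p q r s : Fin 4 → ZMod 2) :
    normw1_F a b c d e f p q * normw1_F a b c d e f r s
      + normw1_F a b c d e f p r * normw1_F a b c d e f q s
      + normw1_F a b c d e f p s * normw1_F a b c d e f q r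
    = ((p 0 * q 1 + p 1 * q 0) * (r 2 * s 3 + r 3 * s 2)
      + (p 0 * q 2 + p 2 * q 0) * (r 1 * s 3 + r 3 * s 1)
      + (p 0 * q 3 + p 3 * q 0) * (r 1 * s 2 + r 2 * s 1)
      + (p 1 * q 2 + p 2 * q 1) * (r 0 * s 3 + r 3 * s 0)
      + (p 1 * q 3 + p 3 * q 1) * (r 0 * s 2 + r 2 * s 0)
      + (p 2 * q 3 + p 3 * q 2) * (r 0 * s 1 + r 1 * s 0))
      * (a * f + b * e + c * d) := by
  have h := normw1_pf_ring a b c d e f (p 0) (p 1) (p 2) (p 3) (q 0) (q 1) (q 2) (q 3)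
    (r 0) (r 1) (r 2) (r 3) (s 0) (s 1) (s 2) (s 3)
  simp only [CharTwo.sub_eq_add] at h
  unfold normw1_F
  exact h

theorem normw1_comb (b : Fin 9 → V) (p q r s : Fin 4 → ZMod 2) (x y z w : ZMod 2) :
    x • normw1_vv b p + y • normw1_vv b q + z • normw1_vv b r + w • normw1_vv b s =
    (x * p 0 + y * q 0 + z * r 0 + w * s 0) • b 5 + (x * p 1 + y * q 1 + z * r 1 + w * s 1) • b 6
    + (x * p 2 + y * q 2 + z * r 2 + w * s 2) • b 7
    + (x * p 3 + y * q 3 + z * r 3 + w * s 3) • b 8 := by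
  unfold normw1_vv
  module

/-- the new family -/
def normw1_b (b : Fin 9 → V) (p q r s : Fin 4 → ZMod 2) : Fin 9 → V :=
  ![b 0, b 1, b 2, b 3, b 4, normw1_vv b p, normw1_vv b q, normw1_vv b r, normw1_vv b s]

theorem normw1_lin (b : Fin 9 → V) (p q r s : Fin 4 → ZMod 2) (x y z w : ZMod 2) :
    lin (normw1_b b p q r s) ![0, 0, 0, 0, 0, x, y, z, w] =
    x • normw1_vv b p + y • normw1_vv b q + z • normw1_vv b r + w • normw1_vv b s := by
  unfold lin normw1_b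
  simp [Fin.sum_univ_succ]
  module

/-- the four last vectors of `b` are combinations of the new ones -/
theorem normw1_span (b : Fin 9 → V) (a01 a02 a03 a12 a13 a23 c01 c02 c03 c12 c13 c23
    r0 r1 r2 r3 s0 s1 s2 s3 u0 u1 u2 u3 v0 v1 v2 v3 : ZMod 2)
    (hc01 : r0 * s1 + r1 * s0 = c23) (hc02 : r0 * s2 + r2 * s0 = c13)
    (hc03 : r0 * s3 + r3 * s0 = c12) (hc12 : r1 * s2 + r2 * s1 = c03)
    (hc13 : r1 * s3 + r3 * s1 = c02) (hc23 : r2 * s3 + r3 * s2 = c01)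
    (ha01 : u0 * v1 + u1 * v0 = a23) (ha02 : u0 * v2 + u2 * v0 = a13)
    (ha03 : u0 * v3 + u3 * v0 = a12) (ha12 : u1 * v2 + u2 * v1 = a03)
    (ha13 : u1 * v3 + u3 * v1 = a02) (ha23 : u2 * v3 + u3 * v2 = a01)
    (hw : a01 * c23 + a23 * c01 + a02 * c13 + a13 * c02 + a03 * c12 + a12 * c03 = 1) :
    (∃ a : V, b 5 = lin (normw1_b b ![r0, r1, r2, r3] ![s0, s1, s2, s3] ![u0, u1, u2, u3]
      ![v0, v1, v2, v3]) a) ∧
    (∃ a : V, b 6 = lin (normw1_b b ![r0, r1, r2, r3] ![s0, s1, s2, s3] ![u0, u1, u2, u3]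
      ![v0, v1, v2, v3]) a) ∧
    (∃ a : V, b 7 = lin (normw1_b b ![r0, r1, r2, r3] ![s0, s1, s2, s3] ![u0, u1, u2, u3]
      ![v0, v1, v2, v3]) a) ∧
    (∃ a : V, b 8 = lin (normw1_b b ![r0, r1, r2, r3] ![s0, s1, s2, s3] ![u0, u1, u2, u3]
      ![v0, v1, v2, v3]) a) := by
  have h2 : (2 : ZMod 2) = 0 := by decide
  refine ⟨?_, ?_, ?_, ?_⟩
  · refine ⟨![0, 0, 0, 0, 0, a01 * s1 + a02 * s2 + a03 * s3,
      a01 * r1 + a02 * r2 + a03 * r3, c01 * v1 + c02 * v2 + c03 * v3,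
      c01 * u1 + c02 * u2 + c03 * u3], ?_⟩
    rw [normw1_lin, normw1_comb]
    have e0 : (a01 * s1 + a02 * s2 + a03 * s3) * r0 + (a01 * r1 + a02 * r2 + a03 * r3) * s0
        + (c01 * v1 + c02 * v2 + c03 * v3) * u0 + (c01 * u1 + c02 * u2 + c03 * u3) * v0 = 1 := by
      linear_combination a01 * hc01 + c01 * ha01 + a02 * hc02 + c02 * ha02 + a03 * hc03 + c03 * ha03 + hw
    have e1 : (a01 * s1 + a02 * s2 + a03 * s3) * r1 + (a01 * r1 + a02 * r2 + a03 * r3) * s1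
        + (c01 * v1 + c02 * v2 + c03 * v3) * u1 + (c01 * u1 + c02 * u2 + c03 * u3) * v1 = 0 := by
      linear_combination a02 * hc12 + c02 * ha12 + a03 * hc13 + c03 * ha13 + (a01 * s1 * r1 + c01 * v1 * u1) * h2 + (a02 * c03 + a03 * c02) * h2
    have e2 : (a01 * s1 + a02 * s2 + a03 * s3) * r2 + (a01 * r1 + a02 * r2 + a03 * r3) * s2
        + (c01 * v1 + c02 * v2 + c03 * v3) * u2 + (c01 * u1 + c02 * u2 + c03 * u3) * v2 = 0 := by
      linear_combination a01 * hc12 + c01 * ha12 + a03 * hc23 + c03 * ha23 + (a02 * s2 * r2 + c02 * v2 * u2) * h2 + (a01 * c03 + a03 * c01) * h2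
    have e3 : (a01 * s1 + a02 * s2 + a03 * s3) * r3 + (a01 * r1 + a02 * r2 + a03 * r3) * s3
        + (c01 * v1 + c02 * v2 + c03 * v3) * u3 + (c01 * u1 + c02 * u2 + c03 * u3) * v3 = 0 := by
      linear_combination a01 * hc13 + c01 * ha13 + a02 * hc23 + c02 * ha23 + (a03 * s3 * r3 + c03 * v3 * u3) * h2 + (a01 * c02 + a02 * c01) * h2
    simp only [Matrix.cons_val]
    rw [e0, e1, e2, e3]
    simp
  · refine ⟨![0, 0, 0, 0, 0, a01 * s0 + a12 * s2 + a13 * s3,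
      a01 * r0 + a12 * r2 + a13 * r3, c01 * v0 + c12 * v2 + c13 * v3,
      c01 * u0 + c12 * u2 + c13 * u3], ?_⟩
    rw [normw1_lin, normw1_comb]
    have e0 : (a01 * s0 + a12 * s2 + a13 * s3) * r0 + (a01 * r0 + a12 * r2 + a13 * r3) * s0
        + (c01 * v0 + c12 * v2 + c13 * v3) * u0 + (c01 * u0 + c12 * u2 + c13 * u3) * v0 = 0 := by
      linear_combination a12 * hc02 + c12 * ha02 + a13 * hc03 + c13 * ha03 + (a01 * s0 * r0 + c01 * v0 * u0) * h2 + (a12 * c13 + a13 * c12) * h2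
    have e1 : (a01 * s0 + a12 * s2 + a13 * s3) * r1 + (a01 * r0 + a12 * r2 + a13 * r3) * s1
        + (c01 * v0 + c12 * v2 + c13 * v3) * u1 + (c01 * u0 + c12 * u2 + c13 * u3) * v1 = 1 := by
      linear_combination a01 * hc01 + c01 * ha01 + a12 * hc12 + c12 * ha12 + a13 * hc13 + c13 * ha13 + hw
    have e2 : (a01 * s0 + a12 * s2 + a13 * s3) * r2 + (a01 * r0 + a12 * r2 + a13 * r3) * s2
        + (c01 * v0 + c12 * v2 + c13 * v3) * u2 + (c01 * u0 + c12 * u2 + c13 * u3) * v2 = 0 := by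
      linear_combination a01 * hc02 + c01 * ha02 + a13 * hc23 + c13 * ha23 + (a12 * s2 * r2 + c12 * v2 * u2) * h2 + (a01 * c13 + a13 * c01) * h2
    have e3 : (a01 * s0 + a12 * s2 + a13 * s3) * r3 + (a01 * r0 + a12 * r2 + a13 * r3) * s3
        + (c01 * v0 + c12 * v2 + c13 * v3) * u3 + (c01 * u0 + c12 * u2 + c13 * u3) * v3 = 0 := by
      linear_combination a01 * hc03 + c01 * ha03 + a12 * hc23 + c12 * ha23 + (a13 * s3 * r3 + c13 * v3 * u3) * h2 + (a01 * c12 + a12 * c01) * h2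
    simp only [Matrix.cons_val]
    rw [e0, e1, e2, e3]
    simp
  · refine ⟨![0, 0, 0, 0, 0, a02 * s0 + a12 * s1 + a23 * s3,
      a02 * r0 + a12 * r1 + a23 * r3, c02 * v0 + c12 * v1 + c23 * v3,
      c02 * u0 + c12 * u1 + c23 * u3], ?_⟩
    rw [normw1_lin, normw1_comb]
    have e0 : (a02 * s0 + a12 * s1 + a23 * s3) * r0 + (a02 * r0 + a12 * r1 + a23 * r3) * s0
        + (c02 * v0 + c12 * v1 + c23 * v3) * u0 + (c02 * u0 + c12 * u1 + c23 * u3) * v0 = 0 := by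
      linear_combination a12 * hc01 + c12 * ha01 + a23 * hc03 + c23 * ha03 + (a02 * s0 * r0 + c02 * v0 * u0) * h2 + (a12 * c23 + a23 * c12) * h2
    have e1 : (a02 * s0 + a12 * s1 + a23 * s3) * r1 + (a02 * r0 + a12 * r1 + a23 * r3) * s1
        + (c02 * v0 + c12 * v1 + c23 * v3) * u1 + (c02 * u0 + c12 * u1 + c23 * u3) * v1 = 0 := by
      linear_combination a02 * hc01 + c02 * ha01 + a23 * hc13 + c23 * ha13 + (a12 * s1 * r1 + c12 * v1 * u1) * h2 + (a02 * c23 + a23 * c02) * h2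
    have e2 : (a02 * s0 + a12 * s1 + a23 * s3) * r2 + (a02 * r0 + a12 * r1 + a23 * r3) * s2
        + (c02 * v0 + c12 * v1 + c23 * v3) * u2 + (c02 * u0 + c12 * u1 + c23 * u3) * v2 = 1 := by
      linear_combination a02 * hc02 + c02 * ha02 + a12 * hc12 + c12 * ha12 + a23 * hc23 + c23 * ha23 + hw
    have e3 : (a02 * s0 + a12 * s1 + a23 * s3) * r3 + (a02 * r0 + a12 * r1 + a23 * r3) * s3
        + (c02 * v0 + c12 * v1 + c23 * v3) * u3 + (c02 * u0 + c12 * u1 + c23 * u3) * v3 = 0 := by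
      linear_combination a02 * hc03 + c02 * ha03 + a12 * hc13 + c12 * ha13 + (a23 * s3 * r3 + c23 * v3 * u3) * h2 + (a02 * c12 + a12 * c02) * h2
    simp only [Matrix.cons_val]
    rw [e0, e1, e2, e3]
    simp
  · refine ⟨![0, 0, 0, 0, 0, a03 * s0 + a13 * s1 + a23 * s2,
      a03 * r0 + a13 * r1 + a23 * r2, c03 * v0 + c13 * v1 + c23 * v2,
      c03 * u0 + c13 * u1 + c23 * u2], ?_⟩
    rw [normw1_lin, normw1_comb]
    have e0 : (a03 * s0 + a13 * s1 + a23 * s2) * r0 + (a03 * r0 + a13 * r1 + a23 * r2) * s0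
        + (c03 * v0 + c13 * v1 + c23 * v2) * u0 + (c03 * u0 + c13 * u1 + c23 * u2) * v0 = 0 := by
      linear_combination a13 * hc01 + c13 * ha01 + a23 * hc02 + c23 * ha02 + (a03 * s0 * r0 + c03 * v0 * u0) * h2 + (a13 * c23 + a23 * c13) * h2
    have e1 : (a03 * s0 + a13 * s1 + a23 * s2) * r1 + (a03 * r0 + a13 * r1 + a23 * r2) * s1
        + (c03 * v0 + c13 * v1 + c23 * v2) * u1 + (c03 * u0 + c13 * u1 + c23 * u2) * v1 = 0 := by
      linear_combination a03 * hc01 + c03 * ha01 + a23 * hc12 + c23 * ha12 + (a13 * s1 * r1 + c13 * v1 * u1) * h2 + (a03 * c23 + a23 * c03) * h2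
    have e2 : (a03 * s0 + a13 * s1 + a23 * s2) * r2 + (a03 * r0 + a13 * r1 + a23 * r2) * s2
        + (c03 * v0 + c13 * v1 + c23 * v2) * u2 + (c03 * u0 + c13 * u1 + c23 * u2) * v2 = 0 := by
      linear_combination a03 * hc02 + c03 * ha02 + a13 * hc12 + c13 * ha12 + (a23 * s2 * r2 + c23 * v2 * u2) * h2 + (a03 * c13 + a13 * c03) * h2
    have e3 : (a03 * s0 + a13 * s1 + a23 * s2) * r3 + (a03 * r0 + a13 * r1 + a23 * r2) * s3
        + (c03 * v0 + c13 * v1 + c23 * v2) * u3 + (c03 * u0 + c13 * u1 + c23 * u2) * v3 = 1 := by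
      linear_combination a03 * hc03 + c03 * ha03 + a13 * hc13 + c13 * ha13 + a23 * hc23 + c23 * ha23 + hw
    simp only [Matrix.cons_val]
    rw [e0, e1, e2, e3]
    simp

theorem normw1_jk : ∀ j k : Fin 9, 5 ≤ j → j < k →
    (j = 5 ∧ k = 6) ∨ (j = 5 ∧ k = 7) ∨ (j = 5 ∧ k = 8) ∨ (j = 6 ∧ k = 7) ∨ (j = 6 ∧ k = 8) ∨
      (j = 7 ∧ k = 8) := by
  decide

theorem normw1_cases : ∀ j : Fin 9, j = 0 ∨ j = 1 ∨ j = 2 ∨ j = 3 ∨ j = 4 ∨ j = 5 ∨ j = 6 ∨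
    j = 7 ∨ j = 8 := by
  decide

theorem normw1_std : ∀ i : Fin 9, (std 2 i 5 = 0 ∧ std 2 i 6 = 0 ∧ std 2 i 7 = 0 ∧
    std 2 i 8 = 0) ∧ (std 2 5 i = 0 ∧ std 2 6 i = 0 ∧ std 2 7 i = 0 ∧ std 2 8 i = 0) := by
  decide

theorem normw1_h0 {T : V → V → V → ZMod 2} (h : IsTri T) {b : Fin 9 → V}
    (h0 : ∀ i j, T (b 0) (b i) (b j) = std 2 i j) (p q r s : Fin 4 → ZMod 2) (i j : Fin 9) :
    T (b 0) (normw1_b b p q r s i) (normw1_b b p q r s j) = std 2 i j := by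
  have hv : ∀ (x : Fin 4 → ZMod 2) (j : Fin 9), T (b 0) (normw1_vv b x) (b j) = 0 := by
    intro x j
    rw [normw1_T2 h, h0, h0, h0, h0, (normw1_std j).2.1, (normw1_std j).2.2.1,
      (normw1_std j).2.2.2.1, (normw1_std j).2.2.2.2]
    simp
  have hL : ∀ i j : Fin 9, T (b 0) (normw1_b b p q r s i) (b j) = std 2 i j := by
    intro i j
    rcases normw1_cases i with rfl | rfl | rfl | rfl | rfl | rfl | rfl | rfl | rfl
    · exact h0 0 j
    · exact h0 1 j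
    · exact h0 2 j
    · exact h0 3 j
    · exact h0 4 j
    · rw [(normw1_std j).2.1]; exact hv _ _
    · rw [(normw1_std j).2.2.1]; exact hv _ _
    · rw [(normw1_std j).2.2.2.1]; exact hv _ _
    · rw [(normw1_std j).2.2.2.2]; exact hv _ _
  have hR : ∀ (x : Fin 4 → ZMod 2) (i : Fin 9),
      T (b 0) (normw1_b b p q r s i) (normw1_vv b x) = 0 := by
    intro x i
    rw [normw1_T3 h, hL, hL, hL, hL, (normw1_std i).1.1, (normw1_std i).1.2.1,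
      (normw1_std i).1.2.2.1, (normw1_std i).1.2.2.2]
    simp
  rcases normw1_cases j with rfl | rfl | rfl | rfl | rfl | rfl | rfl | rfl | rfl
  · exact hL i 0
  · exact hL i 1
  · exact hL i 2
  · exact hL i 3
  · exact hL i 4
  · rw [(normw1_std i).1.1]; exact hR _ _
  · rw [(normw1_std i).1.2.1]; exact hR _ _
  · rw [(normw1_std i).1.2.2.1]; exact hR _ _
  · rw [(normw1_std i).1.2.2.2]; exact hR _ _

theorem normW1 {T T' : V → V → V → ZMod 2} (h : Good T T') {b c : Fin 9 → V}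
    (hbc : IsDual b c) (h0 : ∀ i j, T (b 0) (b i) (b j) = std 2 i j)
    (hq1 : pf4 (fun i j k => T (b i) (b j) (b k)) 1 = 0)
    (hq2 : pf4 (fun i j k => T (b i) (b j) (b k)) 2 = 0) (ε : ZMod 2)
    (hq3 : pf4 (fun i j k => T (b i) (b j) (b k)) 3 = ε)
    (hq4 : pf4 (fun i j k => T (b i) (b j) (b k)) 4 = ε) :
    ∃ b' c' : Fin 9 → V, IsDual b' c' ∧ (∀ i j, T (b' 0) (b' i) (b' j) = std 2 i j) ∧
      (∀ j k : Fin 9, 5 ≤ j → j < k → T (b' 1) (b' j) (b' k) = if j = 5 ∧ k = 6 then 1 else 0) ∧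
      (∀ j k : Fin 9, 5 ≤ j → j < k → T (b' 2) (b' j) (b' k) = if j = 7 ∧ k = 8 then 1 else 0) ∧
      pf4 (fun i j k => T (b' i) (b' j) (b' k)) 3 = ε ∧
      pf4 (fun i j k => T (b' i) (b' j) (b' k)) 4 = ε := by
  have hT := h.tri
  have hw := (two_props (h.rel hbc) h0).2.1
  simp only [wd] at hw
  simp only [pf4] at hq1 hq2 hq3 hq4
  obtain ⟨r0, r1, r2, r3, s0, s1, s2, s3, ⟨hc01, hc02, hc03, hc12, hc13, hc23⟩,
    ⟨hr0, hr1, hr2, hr3⟩, ⟨hs0, hs1, hs2, hs3⟩⟩ := normw1_rad _ _ _ _ _ _ hq2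
  obtain ⟨u0, u1, u2, u3, v0, v1, v2, v3, ⟨ha01, ha02, ha03, ha12, ha13, ha23⟩,
    ⟨hu0, hu1, hu2, hu3⟩, ⟨hv0, hv1, hv2, hv3⟩⟩ := normw1_rad _ _ _ _ _ _ hq1
  have hsp := normw1_span b _ _ _ _ _ _ _ _ _ _ _ _ r0 r1 r2 r3 s0 s1 s2 s3 u0 u1 u2 u3
    v0 v1 v2 v3 hc01 hc02 hc03 hc12 hc13 hc23 ha01 ha02 ha03 ha12 ha13 ha23
    (by linear_combination hw)
  set p : Fin 4 → ZMod 2 := ![r0, r1, r2, r3] with hp
  set q : Fin 4 → ZMod 2 := ![s0, s1, s2, s3] with hq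
  set r : Fin 4 → ZMod 2 := ![u0, u1, u2, u3] with hr
  set s : Fin 4 → ZMod 2 := ![v0, v1, v2, v3] with hs
  -- values of the first form
  have A56 : T (b 1) (normw1_vv b p) (normw1_vv b q) = 1 := by
    rw [normw1_TF hT]
    show T (b 1) (b 5) (b 6) * (r0 * s1 + r1 * s0) + T (b 1) (b 5) (b 7) * (r0 * s2 + r2 * s0)
      + T (b 1) (b 5) (b 8) * (r0 * s3 + r3 * s0) + T (b 1) (b 6) (b 7) * (r1 * s2 + r2 * s1)
      + T (b 1) (b 6) (b 8) * (r1 * s3 + r3 * s1) + T (b 1) (b 7) (b 8) * (r2 * s3 + r3 * s2) = 1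
    rw [hc01, hc02, hc03, hc12, hc13, hc23]
    linear_combination hw
  have A7 : ∀ x, T (b 1) (normw1_vv b x) (normw1_vv b r) = 0 := by
    intro x
    rw [normw1_TF hT]
    exact normw1_F_rad _ _ _ _ _ _ _ _ hu0 hu1 hu2 hu3
  have A8 : ∀ x, T (b 1) (normw1_vv b x) (normw1_vv b s) = 0 := by
    intro x
    rw [normw1_TF hT]
    exact normw1_F_rad _ _ _ _ _ _ _ _ hv0 hv1 hv2 hv3
  have C78 : T (b 2) (normw1_vv b r) (normw1_vv b s) = 1 := by
    rw [normw1_TF hT]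
    show T (b 2) (b 5) (b 6) * (u0 * v1 + u1 * v0) + T (b 2) (b 5) (b 7) * (u0 * v2 + u2 * v0)
      + T (b 2) (b 5) (b 8) * (u0 * v3 + u3 * v0) + T (b 2) (b 6) (b 7) * (u1 * v2 + u2 * v1)
      + T (b 2) (b 6) (b 8) * (u1 * v3 + u3 * v1) + T (b 2) (b 7) (b 8) * (u2 * v3 + u3 * v2) = 1
    rw [ha01, ha02, ha03, ha12, ha13, ha23]
    linear_combination hw
  have C5 : ∀ x, T (b 2) (normw1_vv b p) (normw1_vv b x) = 0 := by
    intro x
    rw [hT.sw23, normw1_TF hT]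
    exact normw1_F_rad _ _ _ _ _ _ _ _ hr0 hr1 hr2 hr3
  have C6 : ∀ x, T (b 2) (normw1_vv b q) (normw1_vv b x) = 0 := by
    intro x
    rw [hT.sw23, normw1_TF hT]
    exact normw1_F_rad _ _ _ _ _ _ _ _ hs0 hs1 hs2 hs3
  have hPf : ∀ u : V, T u (normw1_vv b p) (normw1_vv b q) * T u (normw1_vv b r) (normw1_vv b s)
      + T u (normw1_vv b p) (normw1_vv b r) * T u (normw1_vv b q) (normw1_vv b s)
      + T u (normw1_vv b p) (normw1_vv b s) * T u (normw1_vv b q) (normw1_vv b r)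
      = T u (b 5) (b 6) * T u (b 7) (b 8) + T u (b 5) (b 7) * T u (b 6) (b 8)
        + T u (b 5) (b 8) * T u (b 6) (b 7) := by
    intro u
    rw [normw1_TF hT, normw1_TF hT, normw1_TF hT, normw1_TF hT, normw1_TF hT, normw1_TF hT,
      normw1_pf]
    have e : (p 0 * q 1 + p 1 * q 0) * (r 2 * s 3 + r 3 * s 2)
      + (p 0 * q 2 + p 2 * q 0) * (r 1 * s 3 + r 3 * s 1)
      + (p 0 * q 3 + p 3 * q 0) * (r 1 * s 2 + r 2 * s 1)
      + (p 1 * q 2 + p 2 * q 1) * (r 0 * s 3 + r 3 * s 0)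
      + (p 1 * q 3 + p 3 * q 1) * (r 0 * s 2 + r 2 * s 0)
      + (p 2 * q 3 + p 3 * q 2) * (r 0 * s 1 + r 1 * s 0) = 1 := by
      show (r0 * s1 + r1 * s0) * (u2 * v3 + u3 * v2)
        + (r0 * s2 + r2 * s0) * (u1 * v3 + u3 * v1)
        + (r0 * s3 + r3 * s0) * (u1 * v2 + u2 * v1)
        + (r1 * s2 + r2 * s1) * (u0 * v3 + u3 * v0)
        + (r1 * s3 + r3 * s1) * (u0 * v2 + u2 * v0)
        + (r2 * s3 + r3 * s2) * (u0 * v1 + u1 * v0) = 1
      rw [hc01, hc02, hc03, hc12, hc13, hc23, ha01, ha02, ha03, ha12, ha13, ha23]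
      linear_combination hw
    rw [e, one_mul]
  obtain ⟨c', hc'⟩ := exists_dual_of_span hbc (normw1_b b p q r s) (by
    intro i
    rcases normw1_cases i with rfl | rfl | rfl | rfl | rfl | rfl | rfl | rfl | rfl
    · exact ⟨E 0, (lin_E (normw1_b b p q r s) 0).symm⟩
    · exact ⟨E 1, (lin_E (normw1_b b p q r s) 1).symm⟩
    · exact ⟨E 2, (lin_E (normw1_b b p q r s) 2).symm⟩
    · exact ⟨E 3, (lin_E (normw1_b b p q r s) 3).symm⟩
    · exact ⟨E 4, (lin_E (normw1_b b p q r s) 4).symm⟩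
    · exact hsp.1
    · exact hsp.2.1
    · exact hsp.2.2.1
    · exact hsp.2.2.2)
  refine ⟨normw1_b b p q r s, c', hc', ?_, ?_, ?_, ?_, ?_⟩
  · exact normw1_h0 hT h0 p q r s
  · intro j k hj hk
    rcases normw1_jk j k hj hk with ⟨rfl, rfl⟩ | ⟨rfl, rfl⟩ | ⟨rfl, rfl⟩ | ⟨rfl, rfl⟩ | ⟨rfl, rfl⟩ |
      ⟨rfl, rfl⟩
    · exact A56
    · exact A7 p
    · exact A8 p
    · exact A7 q
    · exact A8 q
    · exact A8 r
  · intro j k hj hk
    rcases normw1_jk j k hj hk with ⟨rfl, rfl⟩ | ⟨rfl, rfl⟩ | ⟨rfl, rfl⟩ | ⟨rfl, rfl⟩ | ⟨rfl, rfl⟩ |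
      ⟨rfl, rfl⟩
    · exact C5 q
    · exact C5 r
    · exact C5 s
    · exact C6 r
    · exact C6 s
    · exact C78
  · exact (hPf (b 3)).trans hq3
  · exact (hPf (b 4)).trans hq4

end Pool.Agent.H.MP_694475_co
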