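import Pool.Agent.H.MP_694475_co.SpecDef

/-! Packed computation: natural numbers as vectors of 16-bit lanes.
Lane number `t + 2^l * p` (`t < 2^l`, `p < 512`) belongs to the `t`-th function and the point `p`. -/

namespace Pool.Agent.H.MP_694475_co

/-- force evaluation of a natural number -/
def seq {α : Type} (n : ℕ) (f : ℕ → α) : α := Nat.rec (f 0) (fun k _ => f (Nat.succ k)) n

theorem seq_eq {α : Type} (n : ℕ) (f : ℕ → α) : seq n f = f n := by
  cases n <;> rfl

/-- all `2^K` lanes equal to 1 -/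
def ones (K : ℕ) : ℕ := Nat.rec 1 (fun k x => seq x fun x => x + x <<< (16 * 2 ^ k)) K

/-- lanes whose index has bit `k` -/
def pat (K k : ℕ) : ℕ :=
  Nat.rec 0 (fun j x => bif Nat.beq j k then (ones j) <<< (16 * 2 ^ j)
    else seq x fun x => x + x <<< (16 * 2 ^ j)) K

def mono (P : List ℕ) (one : ℕ) : List ℕ → ℕ
  | [] => one
  | k :: ks => (P.getD k 0) &&& mono P one ks

def poly (P : List ℕ) (one : ℕ) : List (List ℕ) → ℕ
  | [] => 0
  | m :: ms => mono P one m ^^^ poly P one ms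

def patList (K : ℕ) : ℕ → List ℕ
  | 0 => []
  | n + 1 => seq (pat K (K - (n + 1))) fun x => x :: patList K n

/-- one butterfly level: `A` = lanes with bit = 0, shift `s`, bias constant `c` -/
def bf (A s c X : ℕ) : ℕ :=
  seq (65535 * A) fun M =>
  seq (X &&& M) fun lo => seq ((X >>> s) &&& M) fun hi =>
  seq ((lo + hi) + ((lo + c * A - hi) <<< s)) fun r => r

def fwt (l : ℕ) (P : List ℕ) (one : ℕ) : ℕ → ℕ → ℕ → ℕ
  | 0, _, X => X
  | n + 1, c, X => fwt l P one n (2 * c)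
      (bf (one - P.getD (l + (8 - n)) 0) (16 * 2 ^ (l + (8 - n))) (2 * c) X)

def fold (W : ℕ) : List ℕ → ℕ
  | [] => W
  | s :: ss => seq (W ||| (W >>> s)) fun W => fold W ss

def shifts (l : ℕ) : List ℕ :=
  [16 * 2 ^ (l + 8), 16 * 2 ^ (l + 7), 16 * 2 ^ (l + 6), 16 * 2 ^ (l + 5), 16 * 2 ^ (l + 4),
   16 * 2 ^ (l + 3), 16 * 2 ^ (l + 2), 16 * 2 ^ (l + 1), 16 * 2 ^ l, 8, 4, 2, 1]

def check (l : ℕ) (ms : List (List ℕ)) : Bool :=
  seq (ones (l + 9)) fun one =>
  let P := patList (l + 9) (l + 9)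
  seq (poly P one ms) fun b =>
  seq (fwt l P one 9 1 (b + one)) fun U =>
  seq (ones l) fun z =>
  seq ((U + 24 * one) ^^^ (512 * one + 256 * z)) fun Y =>
  seq (Y &&& ((65535 - 48) * one)) fun Y1 =>
  seq ((Y >>> 5) &&& one) fun b2 =>
  seq (fwt l P one 9 1 (b2 + one)) fun U2 =>
  seq (((U2 + 12 * one - 8 * b) ^^^ (512 * one + 256 * z)) &&& ((65535 - 16) * one)) fun Y2 =>
  seq (fold (Y1 ||| Y2) (shifts l)) fun W =>
  Nat.beq (W &&& z) z

/-- lane -/
def ln (X i : ℕ) : ℕ := (X >>> (16 * i)) % 65536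

/-- index of the point `a` -/
def pidx (a : V) : ℕ := ∑ i : Fin 9, (a i).val * 2 ^ i.val

def idx (l t : ℕ) (a : V) : ℕ := t + 2 ^ l * pidx a

/-- value of the `t`-th function of a packed polynomial -/
def gOf (l : ℕ) (ms : List (List ℕ)) (t : ℕ) (a : V) : ZMod 2 :=
  (ms.map (fun m => (m.map (fun k => if (idx l t a).testBit k then (1 : ZMod 2) else 0)).prod)).sum

end Pool.Agent.H.MP_694475_co
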