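import Pool.Agent.H.MP_694475_co.PackPat

/-! The packed Walsh transform. -/

namespace Pool.Agent.H.MP_694475_co

theorem packfwt_and (x : ℕ) (hx : x < 65536) : x &&& 65535 = x := by
  have h := Nat.and_two_pow_sub_one_eq_mod x 16
  have e1 : (2 : ℕ) ^ 16 - 1 = 65535 := by norm_num
  rw [e1] at h
  rw [h]
  exact Nat.mod_eq_of_lt hx

theorem packfwt_mask (X A i : ℕ) (h : ∀ j, ln A j = 0 ∨ ln A j = 1) :
    ln (X &&& (65535 * A)) i = if ln A i = 1 then ln X i else 0 := by
  have hM : ln (65535 * A) i = 65535 * ln A i := by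
    apply ln_mul
    intro j
    rcases h j with h1 | h1 <;> rw [h1] <;> norm_num
  rw [ln_and, hM]
  rcases h i with h1 | h1
  · rw [h1]; simp
  · rw [h1]; simp [packfwt_and _ (ln_lt X i)]

theorem packfwt_testBit_sub (i k : ℕ) (h : 2 ^ k ≤ i) : (i - 2 ^ k).testBit k = !i.testBit k := by
  have h1 := Nat.testBit_two_pow_add_eq (i - 2 ^ k) k
  have h2 : 2 ^ k + (i - 2 ^ k) = i := by omega
  rw [h2] at h1
  rw [h1]
  simp

/-- lanes of one butterfly step -/
theorem ln_bf (K k c X : ℕ) (hk : k < K) (hX : ∀ i, 2 ^ K ≤ i → ln X i = 0)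
    (hc : ∀ i, ln X i ≤ c) (hc2 : 4 * c < 65536) (i : ℕ) :
    ln (bf (ones K - pat K k) (16 * 2 ^ k) c X) i =
      if i < 2 ^ K then
        (if i.testBit k then ln X (i - 2 ^ k) + c - ln X i else ln X i + ln X (i + 2 ^ k))
      else 0 := by
  have hA : ∀ j, ln (ones K - pat K k) j = if j < 2 ^ K ∧ j.testBit k = false then 1 else 0 := by
    intro j
    rw [ln_sub, ln_ones, ln_pat _ _ _ hk]
    · by_cases h1 : j < 2 ^ K
      · cases h2 : j.testBit k <;> simp [h1]
      · simp [h1]
    · intro j'
      rw [ln_ones, ln_pat _ _ _ hk]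
      by_cases h1 : j' < 2 ^ K
      · cases h2 : j'.testBit k <;> simp [h1]
      · simp [h1]
  generalize hAe : ones K - pat K k = A at hA ⊢
  have hA01 : ∀ j, ln A j = 0 ∨ ln A j = 1 := by
    intro j
    rw [hA]
    by_cases h : j < 2 ^ K ∧ j.testBit k = false
    · right; rw [if_pos h]
    · left; rw [if_neg h]
  simp only [bf, seq_eq]
  have hlo : ∀ j, ln (X &&& (65535 * A)) j = if ln A j = 1 then ln X j else 0 :=
    fun j => packfwt_mask X A j hA01
  have hhi : ∀ j, ln ((X >>> (16 * 2 ^ k)) &&& (65535 * A)) j =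
      if ln A j = 1 then ln X (j + 2 ^ k) else 0 := by
    intro j
    rw [packfwt_mask _ A j hA01, ln_shiftRight]
  generalize (X &&& (65535 * A)) = lo at hlo ⊢
  generalize ((X >>> (16 * 2 ^ k)) &&& (65535 * A)) = hi at hhi ⊢
  have hloc : ∀ j, ln lo j ≤ c := by
    intro j
    rw [hlo]
    split_ifs
    · exact hc j
    · exact Nat.zero_le _
  have hhic : ∀ j, ln hi j ≤ c * ln A j := by
    intro j
    rw [hhi]
    split_ifs with h
    · rw [h]; simpa using hc _
    · exact Nat.zero_le _
  have hA1 : ∀ j, ln A j ≤ 1 := by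
    intro j
    rcases hA01 j with h | h <;> omega
  have hcA : ∀ j, c * ln A j ≤ c := by
    intro j
    calc c * ln A j ≤ c * 1 := Nat.mul_le_mul_left c (hA1 j)
      _ = c := mul_one c
  have h1 : ∀ j, ln (lo + hi) j = ln lo j + ln hi j := by
    apply ln_add
    intro j
    have := hloc j
    have := hhic j
    have := hcA j
    omega
  have h2 : ∀ j, ln (c * A) j = c * ln A j := by
    intro j
    apply ln_mul
    intro j
    have := hcA j
    omega
  have h3 : ∀ j, ln (lo + c * A) j = ln lo j + c * ln A j := by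
    intro j
    rw [ln_add, h2]
    intro j
    rw [h2]
    have := hloc j
    have := hcA j
    omega
  have h4 : ∀ j, ln (lo + c * A - hi) j = ln lo j + c * ln A j - ln hi j := by
    intro j
    rw [ln_sub, h3]
    intro j
    rw [h3]
    have := hhic j
    omega
  have h5 : ∀ j, ln ((lo + c * A - hi) <<< (16 * 2 ^ k)) j =
      if j < 2 ^ k then 0 else ln lo (j - 2 ^ k) + c * ln A (j - 2 ^ k) - ln hi (j - 2 ^ k) := by
    intro j
    rw [ln_shiftLeft]
    split_ifs
    · rfl
    · exact h4 _
  rw [ln_add, h1, h5]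
  · by_cases hi1 : i < 2 ^ K
    · rw [if_pos hi1]
      cases hb : i.testBit k with
      | false =>
        have hAi : ln A i = 1 := by
          rw [hA, if_pos ⟨hi1, hb⟩]
        rw [hlo i, hhi i, if_pos hAi, if_pos hAi]
        simp only [Bool.false_eq_true, if_false]
        by_cases hi2 : i < 2 ^ k
        · rw [if_pos hi2, add_zero]
        · rw [if_neg hi2]
          have hAi' : ln A (i - 2 ^ k) = 0 := by
            rw [hA, if_neg]
            rintro ⟨-, h⟩
            rw [packfwt_testBit_sub i k (by omega), hb] at h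
            simp at h
          rw [hlo, hhi, hAi']
          simp
      | true =>
        have hAi : ln A i = 0 := by
          rw [hA, if_neg]
          rintro ⟨-, h⟩
          rw [hb] at h
          simp at h
        have hik : 2 ^ k ≤ i := Nat.ge_two_pow_of_testBit hb
        rw [hlo i, hhi i, hAi]
        simp only [zero_ne_one, if_false, if_true, zero_add]
        have hik' : ¬ i < 2 ^ k := by omega
        rw [if_neg hik']
        have hAi' : ln A (i - 2 ^ k) = 1 := by
          rw [hA, if_pos]
          refine ⟨lt_of_le_of_lt (Nat.sub_le _ _) hi1, ?_⟩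
          rw [packfwt_testBit_sub i k hik, hb]
          rfl
        rw [hlo, hhi, hAi', if_pos rfl, if_pos rfl, mul_one, Nat.sub_add_cancel hik]
    · rw [if_neg hi1]
      have hAi : ln A i = 0 := by
        rw [hA, if_neg]
        rintro ⟨h, -⟩
        exact hi1 h
      have hkK : 2 ^ k ≤ 2 ^ K := Nat.pow_le_pow_right (by norm_num) hk.le
      rw [hlo i, hhi i, hAi]
      simp only [zero_ne_one, if_false, zero_add]
      have hik : ¬ i < 2 ^ k := by omega
      rw [if_neg hik]
      have hAi' : ln A (i - 2 ^ k) = 0 := by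
        rw [hA, if_neg]
        rintro ⟨h, h'⟩
        rw [packfwt_testBit_sub i k (by omega)] at h'
        have hr : i - 2 ^ K < 2 ^ k := by omega
        have h6 : i = 2 ^ K + (i - 2 ^ K) := by omega
        have h7 : i.testBit k = false := by
          rw [h6, Nat.testBit_two_pow_add_gt hk]
          exact Nat.testBit_lt_two_pow hr
        rw [h7] at h'
        simp at h'
      rw [hlo, hhi, hAi']
      simp
  · intro j
    rw [h1, h5]
    have e1 := hloc j
    have e2 := hhic j
    have e3 := hcA j
    split_ifs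
    · omega
    · have e4 := hloc (j - 2 ^ k)
      have e5 := hcA (j - 2 ^ k)
      omega

/-! ### Transforms in the first coordinates -/

/-- transform in one coordinate -/
def packfwtStep (j : Fin 9) (G : V → ℤ) (x : V) : ℤ :=
  G (Function.update x j 0) + sgn (x j) * G (Function.update x j 1)

/-- transform in the first `m` coordinates -/
def packfwtT : ℕ → (V → ℤ) → V → ℤ
  | 0, F => F
  | m + 1, F => if h : m < 9 then packfwtStep ⟨m, h⟩ (packfwtT m F) else packfwtT m F

theorem packfwt_abs (F : V → ℤ) (hF : ∀ a, |F a| ≤ 1) (m : ℕ) (hm : m ≤ 9) (x : V) :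
    |packfwtT m F x| ≤ 2 ^ m := by
  induction m generalizing x with
  | zero => simpa [packfwtT] using hF x
  | succ m ih =>
    have hm' : m < 9 := hm
    simp only [packfwtT, hm', dif_pos, packfwtStep]
    have h1 := ih hm'.le (Function.update x ⟨m, hm'⟩ 0)
    have h2 := ih hm'.le (Function.update x ⟨m, hm'⟩ 1)
    have h3 : |sgn (x ⟨m, hm'⟩) * packfwtT m F (Function.update x ⟨m, hm'⟩ 1)| ≤ 2 ^ m := by
      rw [abs_mul]
      rcases sgn_eq_or (x ⟨m, hm'⟩) with h | h <;> rw [h] <;> simpa using h2
    calc _ ≤ _ := abs_add_le _ _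
      _ ≤ 2 ^ m + 2 ^ m := add_le_add h1 h3
      _ = 2 ^ (m + 1) := by ring

theorem packfwt_eq_sum (F : V → ℤ) (m : ℕ) (hm : m ≤ 9) (x : V) :
    packfwtT m F x = ∑ a : V, if (∀ i : Fin 9, m ≤ i.val → a i = x i) then
      F a * sgn (∑ i : Fin 9, if i.val < m then a i * x i else 0) else 0 := by
  induction m generalizing x with
  | zero =>
    simp only [packfwtT]
    rw [Finset.sum_eq_single x]
    · simp
    · intro a _ ha
      rw [if_neg]
      intro h
      exact ha (funext fun i => h i (Nat.zero_le _))
    · intro h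
      exact absurd (Finset.mem_univ _) h
  | succ m ih =>
    have hm' : m < 9 := hm
    simp only [packfwtT, hm', dif_pos, packfwtStep]
    rw [ih hm'.le, ih hm'.le, Finset.mul_sum, ← Finset.sum_add_distrib]
    refine Finset.sum_congr rfl fun a _ => ?_
    set j : Fin 9 := ⟨m, hm'⟩ with hj
    -- the sum splits
    have hsum : ∀ b : ZMod 2, (∑ i : Fin 9, if i.val < m then a i * Function.update x j b i else 0) =
        ∑ i : Fin 9, if i.val < m then a i * x i else 0 := by
      intro b
      refine Finset.sum_congr rfl fun i _ => ?_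
      split_ifs with h
      · rw [Function.update_of_ne]
        intro h'
        rw [h'] at h
        simp [hj] at h
      · rfl
    have hsum' : (∑ i : Fin 9, if i.val < m + 1 then a i * x i else 0) =
        (∑ i : Fin 9, if i.val < m then a i * x i else 0) + a j * x j := by
      have : ∀ i : Fin 9, (if i.val < m + 1 then a i * x i else 0) =
          (if i.val < m then a i * x i else 0) + if i = j then a i * x i else 0 := by
        intro i
        by_cases h1 : i.val < m
        · have h2 : i ≠ j := by
            intro h'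
            rw [h'] at h1
            simp [hj] at h1
          simp [h1, h2, Nat.lt_succ_of_lt h1]
        · by_cases h2 : i = j
          · have h3 : i.val < m + 1 := by rw [h2, hj]; exact Nat.lt_succ_self m
            rw [if_pos h3, if_neg h1, if_pos h2, zero_add]
          · have h3 : ¬ i.val < m + 1 := by
              intro h3
              apply h2
              apply Fin.ext
              rw [hj]
              show i.val = m
              omega
            rw [if_neg h3, if_neg h1, if_neg h2, add_zero]
      rw [Finset.sum_congr rfl fun i _ => this i, Finset.sum_add_distrib]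
      simp
    rw [hsum, hsum, hsum', sgn_add]
    have hcond : ∀ b : ZMod 2, (∀ i : Fin 9, m ≤ i.val → a i = Function.update x j b i) ↔
        (a j = b ∧ ∀ i : Fin 9, m + 1 ≤ i.val → a i = x i) := by
      intro b
      constructor
      · intro h
        refine ⟨?_, ?_⟩
        · have := h j (le_refl m)
          simpa using this
        · intro i hi
          have := h i (by omega)
          rwa [Function.update_of_ne] at this
          intro h'
          rw [h'] at hi
          simp [hj] at hi
      · rintro ⟨h1, h2⟩ i hi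
        by_cases h3 : i = j
        · rw [h3]
          simpa using h1
        · rw [Function.update_of_ne h3]
          apply h2
          have h4 : i.val ≠ m := by
            intro h4
            apply h3
            exact Fin.ext h4
          omega
    simp only [hcond]
    by_cases hc : ∀ i : Fin 9, m + 1 ≤ i.val → a i = x i
    · rcases zmod2_cases (a j) with h0 | h0
      · have n1 : ¬ (a j = 1 ∧ ∀ i : Fin 9, m + 1 ≤ i.val → a i = x i) := by
          rintro ⟨h, -⟩
          rw [h0] at h
          exact zero_ne_one h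
        rw [if_pos ⟨h0, hc⟩, if_neg n1, if_pos hc, h0]
        simp
      · have n0 : ¬ (a j = 0 ∧ ∀ i : Fin 9, m + 1 ≤ i.val → a i = x i) := by
          rintro ⟨h, -⟩
          rw [h0] at h
          exact one_ne_zero h
        rw [if_neg n0, if_pos ⟨h0, hc⟩, if_pos hc, h0, one_mul]
        ring
    · simp only [hc, and_false, if_false, mul_zero, add_zero]

theorem packfwt_T_nine (F : V → ℤ) (x : V) : packfwtT 9 F x = WT F x := by
  rw [packfwt_eq_sum F 9 le_rfl, WT]
  refine Finset.sum_congr rfl fun a _ => ?_
  have h1 : (∑ i : Fin 9, if i.val < 9 then a i * x i else 0) = dot a x := by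
    unfold dot
    refine Finset.sum_congr rfl fun i _ => ?_
    rw [if_pos i.isLt]
  have h2 : ∀ i : Fin 9, 9 ≤ i.val → a i = x i := fun i hi => absurd i.isLt (by omega)
  rw [if_pos h2, h1]

/-! ### Bits of the index -/

theorem packfwt_bits : ∀ (n : ℕ) (b : Fin n → ℕ), (∀ i, b i ≤ 1) → ∀ j : Fin n,
    (∑ i : Fin n, b i * 2 ^ i.val) / 2 ^ j.val % 2 = b j := by
  intro n
  induction n with
  | zero => intro b _ j; exact j.elim0
  | succ n ih =>
    intro b hb j
    have h2 : ∑ i : Fin n, b i.succ * 2 ^ (i.succ).val = 2 * ∑ i : Fin n, b i.succ * 2 ^ i.val := by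
      rw [Finset.mul_sum]
      refine Finset.sum_congr rfl fun i _ => ?_
      rw [Fin.val_succ, pow_succ]
      ring
    rw [Fin.sum_univ_succ, h2]
    refine Fin.cases ?_ ?_ j
    · have := hb 0
      simp only [Fin.val_zero, pow_zero, mul_one, Nat.div_one]
      omega
    · intro j
      have h3 := ih (fun i => b i.succ) (fun i => hb _) j
      rw [Fin.val_succ, pow_succ', ← Nat.div_div_eq_div_mul]
      have h4 : (b 0 * 2 ^ (0 : Fin (n + 1)).val + 2 * ∑ i : Fin n, b i.succ * 2 ^ i.val) / 2 =
          ∑ i : Fin n, b i.succ * 2 ^ i.val := by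
        have := hb 0
        simp only [Fin.val_zero, pow_zero, mul_one]
        omega
      rw [h4]
      exact h3

theorem packfwt_pidx_testBit (x : V) (j : Fin 9) : (pidx x).testBit j.val = decide (x j = 1) := by
  have hv : ∀ i, (x i).val ≤ 1 := by
    intro i
    have := ZMod.val_lt (x i)
    omega
  have h1 : (decide (x j = 1)) = decide ((x j).val = 1) := by
    rcases zmod2_cases (x j) with h | h <;> rw [h] <;> decide
  rw [h1, Nat.testBit_eq_decide_div_mod_eq]
  have h2 := packfwt_bits 9 (fun i => (x i).val) hv j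
  unfold pidx
  rw [h2]

theorem packfwt_idx_testBit (l t : ℕ) (ht : t < 2 ^ l) (x : V) (j : Fin 9) :
    (idx l t x).testBit (l + j.val) = decide (x j = 1) := by
  rw [← packfwt_pidx_testBit, ← Nat.testBit_shiftRight]
  congr 1
  unfold idx
  rw [Nat.shiftRight_eq_div_pow, Nat.add_mul_div_left _ _ (by positivity), Nat.div_eq_of_lt ht,
    zero_add]

theorem packfwt_pidx_update (x : V) (j : Fin 9) :
    pidx (Function.update x j 1) = pidx (Function.update x j 0) + 2 ^ j.val := by
  unfold pidx
  rw [← Finset.add_sum_erase _ _ (Finset.mem_univ j),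
    ← Finset.add_sum_erase (a := j) _ (fun i => (Function.update x j 0 i).val * 2 ^ i.val)
      (Finset.mem_univ j)]
  have : ∑ i ∈ Finset.univ.erase j, (Function.update x j 1 i).val * 2 ^ i.val =
      ∑ i ∈ Finset.univ.erase j, (Function.update x j 0 i).val * 2 ^ i.val := by
    refine Finset.sum_congr rfl fun i hi => ?_
    rw [Function.update_of_ne (Finset.ne_of_mem_erase hi),
      Function.update_of_ne (Finset.ne_of_mem_erase hi)]
  rw [this]
  simp only [Function.update_self, ZMod.val_zero, zero_mul, zero_add]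
  have : ZMod.val (1 : ZMod 2) = 1 := rfl
  rw [this]
  ring

theorem packfwt_idx_update (l t : ℕ) (x : V) (j : Fin 9) :
    idx l t (Function.update x j 1) = idx l t (Function.update x j 0) + 2 ^ (l + j.val) := by
  unfold idx
  rw [packfwt_pidx_update, pow_add]
  ring

theorem packfwt_update_eq (x : V) (j : Fin 9) (b : ZMod 2) (h : x j = b) :
    Function.update x j b = x := by
  rw [← h, Function.update_eq_self]

theorem packfwt_aux (l : ℕ) (β : ℕ → V → ℕ) (hβ : ∀ t < 2 ^ l, ∀ a, β t a ≤ 1) (n : ℕ)
    (hn : n ≤ 9) (X : ℕ)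
    (hX : ∀ t < 2 ^ l, ∀ x, (ln X (idx l t x) : ℤ) =
      2 ^ (9 - n) + packfwtT (9 - n) (fun a => (β t a : ℤ)) x)
    (hX0 : ∀ i, 2 ^ (l + 9) ≤ i → ln X i = 0) :
    (∀ t < 2 ^ l, ∀ x, (ln (fwt l (patList (l + 9) (l + 9)) (ones (l + 9)) n (2 ^ (9 - n)) X)
        (idx l t x) : ℤ) = 2 ^ 9 + packfwtT 9 (fun a => (β t a : ℤ)) x) ∧
    (∀ i, 2 ^ (l + 9) ≤ i →
      ln (fwt l (patList (l + 9) (l + 9)) (ones (l + 9)) n (2 ^ (9 - n)) X) i = 0) := by
  induction n generalizing X with
  | zero =>
    simp only [fwt]
    exact ⟨hX, hX0⟩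
  | succ n ih =>
    have hn' : n ≤ 8 := by omega
    have hm : 9 - (n + 1) = 8 - n := by omega
    have hm2 : 9 - n = (8 - n) + 1 := by omega
    rw [hm] at hX
    simp only [fwt]
    rw [hm]
    have hpat : (patList (l + 9) (l + 9)).getD (l + (8 - n)) 0 = pat (l + 9) (l + (8 - n)) :=
      patList_getD _ _ (by omega)
    rw [hpat]
    have hF : ∀ t < 2 ^ l, ∀ a, |(β t a : ℤ)| ≤ 1 := by
      intro t ht a
      have := hβ t ht a
      rw [abs_of_nonneg (by positivity)]
      exact_mod_cast this
    set m := 8 - n with hmdef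
    have hm8 : m ≤ 8 := by omega
    have hpow : (2 : ℕ) ^ m ≤ 2 ^ 8 := Nat.pow_le_pow_right (by norm_num) hm8
    have hlane : ∀ i, ln X i ≤ 2 * 2 ^ m := by
      intro i
      by_cases hi : i < 2 ^ (l + 9)
      · obtain ⟨t, ht, a, rfl⟩ := exists_idx l i hi
        have h1 := hX t ht a
        have h2 := packfwt_abs (fun a => (β t a : ℤ)) (hF t ht) m (by omega) a
        have h3 := (abs_le.1 h2).2
        have h4 : (ln X (idx l t a) : ℤ) ≤ 2 ^ m + 2 ^ m := by rw [h1]; linarith
        have h5 : (ln X (idx l t a) : ℤ) ≤ ((2 * 2 ^ m : ℕ) : ℤ) := by push_cast; linarith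
        exact_mod_cast h5
      · rw [hX0 i (by omega)]
        exact Nat.zero_le _
    have hbf := ln_bf (l + 9) (l + m) (2 * 2 ^ m) X (by omega) hX0 hlane (by
      have : (2 : ℕ) ^ 8 = 256 := by norm_num
      omega)
    have key := ih (by omega) (bf (ones (l + 9) - pat (l + 9) (l + m)) (16 * 2 ^ (l + m))
      (2 * 2 ^ m) X) ?_ ?_
    · have e1 : 2 * 2 ^ m = 2 ^ (9 - n) := by
        rw [hm2, pow_succ]; ring
      rw [← e1] at key
      exact key
    · intro t ht x
      rw [hbf, if_pos (idx_lt l t ht x), hm2]
      have hj : m < 9 := by omega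
      set j : Fin 9 := ⟨m, hj⟩ with hjdef
      have hjv : l + m = l + j.val := rfl
      have hT : packfwtT (m + 1) (fun a => (β t a : ℤ)) x =
          packfwtT m (fun a => (β t a : ℤ)) (Function.update x j 0) +
            sgn (x j) * packfwtT m (fun a => (β t a : ℤ)) (Function.update x j 1) := by
        simp only [packfwtT, hj, dif_pos, packfwtStep]
        rfl
      have hb : (idx l t x).testBit (l + m) = decide (x j = 1) := packfwt_idx_testBit l t ht x j
      have hup := packfwt_idx_update l t x j
      have a0 := hX t ht (Function.update x j 0)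
      have a1 := hX t ht (Function.update x j 1)
      rw [hT, hb]
      rcases zmod2_cases (x j) with h | h
      · have hx : Function.update x j 0 = x := packfwt_update_eq x j 0 h
        rw [hx] at hup a0 ⊢
        have hd : (decide (x j = 1)) = false := by rw [h]; decide
        rw [hd]
        simp only [Bool.false_eq_true, if_false]
        rw [hjv, ← hup, h, sgn_zero]
        push_cast
        rw [a0, a1, pow_succ]
        ring
      · have hx : Function.update x j 1 = x := packfwt_update_eq x j 1 h
        rw [hx] at hup a1 ⊢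
        have hd : (decide (x j = 1)) = true := by rw [h]; decide
        rw [hd]
        simp only [if_true]
        have hsub : idx l t x - 2 ^ (l + m) = idx l t (Function.update x j 0) := by
          rw [hup, hjv]
          omega
        rw [hsub, h, sgn_one]
        have hle := hlane (idx l t x)
        have hcast : ((ln X (idx l t (Function.update x j 0)) + 2 * 2 ^ m - ln X (idx l t x) : ℕ) : ℤ)
            = (ln X (idx l t (Function.update x j 0)) : ℤ) + 2 * 2 ^ m - (ln X (idx l t x) : ℤ) := by
          rw [Nat.cast_sub (by omega)]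
          push_cast
          ring
        rw [hcast, a0, a1, pow_succ]
        ring
    · intro i hi
      rw [hbf, if_neg (by omega)]

/-- the packed transform computes the Walsh transform of all functions simultaneously -/
theorem fwt_spec (l X : ℕ) (β : ℕ → V → ℕ) (hβ : ∀ t < 2 ^ l, ∀ a, β t a ≤ 1)
    (hX : ∀ t < 2 ^ l, ∀ a, ln X (idx l t a) = β t a + 1)
    (hX0 : ∀ i, 2 ^ (l + 9) ≤ i → ln X i = 0) :
    (∀ t < 2 ^ l, ∀ x, (ln (fwt l (patList (l + 9) (l + 9)) (ones (l + 9)) 9 1 X) (idx l t x) : ℤ)
      = 512 + WT (fun a => (β t a : ℤ)) x) ∧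
    (∀ i, 2 ^ (l + 9) ≤ i → ln (fwt l (patList (l + 9) (l + 9)) (ones (l + 9)) 9 1 X) i = 0) ∧
    (∀ i, ln (fwt l (patList (l + 9) (l + 9)) (ones (l + 9)) 9 1 X) i ≤ 1024) := by
  have key := packfwt_aux l β hβ 9 le_rfl X (by
    intro t ht x
    rw [hX t ht x]
    simp [packfwtT]
    ring) hX0
  have e0 : (2 : ℕ) ^ (9 - 9) = 1 := by norm_num
  rw [e0] at key
  have hF : ∀ t < 2 ^ l, ∀ a, |(β t a : ℤ)| ≤ 1 := by
    intro t ht a
    have := hβ t ht a
    rw [abs_of_nonneg (by positivity)]
    exact_mod_cast this
  refine ⟨?_, key.2, ?_⟩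
  · intro t ht x
    rw [key.1 t ht x, packfwt_T_nine]
    norm_num
  · intro i
    by_cases hi : i < 2 ^ (l + 9)
    · obtain ⟨t, ht, a, rfl⟩ := exists_idx l i hi
      have h1 := key.1 t ht a
      have h2 := packfwt_abs (fun a => (β t a : ℤ)) (hF t ht) 9 le_rfl a
      have h3 := (abs_le.1 h2).2
      have h4 : (ln (fwt l (patList (l + 9) (l + 9)) (ones (l + 9)) 9 1 X) (idx l t a) : ℤ) ≤ 1024 := by
        rw [h1]
        norm_num at h3 ⊢
        linarith
      exact_mod_cast h4
    · rw [key.2 i (by omega)]
      exact Nat.zero_le _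

end Pool.Agent.H.MP_694475_co
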