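import Pool.Agent.H.MP_694475_co.PackDef

/-! Lane arithmetic. -/

namespace Pool.Agent.H.MP_694475_co

theorem ln_lt (X i : ℕ) : ln X i < 65536 := by
  unfold ln; exact Nat.mod_lt _ (by norm_num)

private theorem packlane_pow16 : (65536 : ℕ) = 2 ^ 16 := by norm_num

theorem ln_testBit (X i s : ℕ) (hs : s < 16) : (ln X i).testBit s = X.testBit (16 * i + s) := by
  unfold ln
  rw [packlane_pow16, Nat.testBit_mod_two_pow, Nat.testBit_shiftRight]
  simp [hs]

private theorem packlane_testBit_ge (X i s : ℕ) (hs : 16 ≤ s) : (ln X i).testBit s = false := by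
  apply Nat.testBit_lt_two_pow
  calc ln X i < 65536 := ln_lt X i
    _ = 2 ^ 16 := packlane_pow16
    _ ≤ 2 ^ s := Nat.pow_le_pow_right (by norm_num) hs

private theorem packlane_ext {a b : ℕ} (ha : a < 65536) (hb : b < 65536)
    (h : ∀ s < 16, a.testBit s = b.testBit s) : a = b := by
  apply Nat.eq_of_testBit_eq
  intro s
  by_cases hs : s < 16
  · exact h s hs
  · have h16 : 2 ^ 16 ≤ 2 ^ s := Nat.pow_le_pow_right (by norm_num) (by omega)
    rw [Nat.testBit_lt_two_pow (lt_of_lt_of_le (by rw [packlane_pow16] at ha; exact ha) h16),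
      Nat.testBit_lt_two_pow (lt_of_lt_of_le (by rw [packlane_pow16] at hb; exact hb) h16)]

theorem ln_and (X Y i : ℕ) : ln (X &&& Y) i = ln X i &&& ln Y i := by
  apply Nat.eq_of_testBit_eq
  intro s
  by_cases hs : s < 16
  · rw [Nat.testBit_and, ln_testBit _ _ _ hs, ln_testBit _ _ _ hs, ln_testBit _ _ _ hs,
      Nat.testBit_and]
  · rw [Nat.testBit_and, packlane_testBit_ge _ _ _ (by omega),
      packlane_testBit_ge _ _ _ (by omega), packlane_testBit_ge _ _ _ (by omega)]
    rfl

theorem ln_or (X Y i : ℕ) : ln (X ||| Y) i = ln X i ||| ln Y i := by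
  apply Nat.eq_of_testBit_eq
  intro s
  by_cases hs : s < 16
  · rw [Nat.testBit_or, ln_testBit _ _ _ hs, ln_testBit _ _ _ hs, ln_testBit _ _ _ hs,
      Nat.testBit_or]
  · rw [Nat.testBit_or, packlane_testBit_ge _ _ _ (by omega),
      packlane_testBit_ge _ _ _ (by omega), packlane_testBit_ge _ _ _ (by omega)]
    rfl

theorem ln_xor (X Y i : ℕ) : ln (X ^^^ Y) i = ln X i ^^^ ln Y i := by
  apply Nat.eq_of_testBit_eq
  intro s
  by_cases hs : s < 16
  · rw [Nat.testBit_xor, ln_testBit _ _ _ hs, ln_testBit _ _ _ hs, ln_testBit _ _ _ hs,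
      Nat.testBit_xor]
  · rw [Nat.testBit_xor, packlane_testBit_ge _ _ _ (by omega),
      packlane_testBit_ge _ _ _ (by omega), packlane_testBit_ge _ _ _ (by omega)]
    rfl

theorem ln_shiftRight (X k i : ℕ) : ln (X >>> (16 * k)) i = ln X (i + k) := by
  unfold ln
  rw [← Nat.shiftRight_add]
  congr 2
  ring

theorem ln_shiftLeft (X k i : ℕ) : ln (X <<< (16 * k)) i = if i < k then 0 else ln X (i - k) := by
  split_ifs with h
  · apply packlane_ext (ln_lt _ _) (by norm_num)
    intro s hs
    rw [ln_testBit _ _ _ hs, Nat.testBit_shiftLeft, Nat.zero_testBit]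
    have : ¬ (16 * i + s ≥ 16 * k) := by omega
    simp [this]
  · apply packlane_ext (ln_lt _ _) (ln_lt _ _)
    intro s hs
    rw [ln_testBit _ _ _ hs, Nat.testBit_shiftLeft, ln_testBit _ _ _ hs]
    have h1 : 16 * i + s ≥ 16 * k := by omega
    have h2 : 16 * i + s - 16 * k = 16 * (i - k) + s := by omega
    simp [h1, h2]

private theorem packlane_ln_eq (X i : ℕ) : ln X i = X / 65536 ^ i % 65536 := by
  unfold ln
  rw [Nat.shiftRight_eq_div_pow, pow_mul]
  norm_num

private theorem packlane_mod_succ (X i : ℕ) :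
    X % 65536 ^ (i + 1) = X % 65536 ^ i + 65536 ^ i * ln X i := by
  rw [packlane_ln_eq, pow_succ, Nat.mod_mul]

theorem ln_add (X Y : ℕ) (h : ∀ i, ln X i + ln Y i < 65536) (i : ℕ) :
    ln (X + Y) i = ln X i + ln Y i := by
  have key : ∀ i, X % 65536 ^ i + Y % 65536 ^ i < 65536 ^ i := by
    intro i
    induction i with
    | zero => simp [Nat.mod_one]
    | succ i ih =>
      rw [packlane_mod_succ, packlane_mod_succ]
      have h1 := h i
      calc X % 65536 ^ i + 65536 ^ i * ln X i + (Y % 65536 ^ i + 65536 ^ i * ln Y i)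
          = (X % 65536 ^ i + Y % 65536 ^ i) + 65536 ^ i * (ln X i + ln Y i) := by ring
        _ < 65536 ^ i + 65536 ^ i * (ln X i + ln Y i) := by omega
        _ = 65536 ^ i * (ln X i + ln Y i + 1) := by ring
        _ ≤ 65536 ^ i * 65536 := Nat.mul_le_mul_left _ (by omega)
        _ = 65536 ^ (i + 1) := by rw [pow_succ]
  have h2 : (X + Y) / 65536 ^ i = X / 65536 ^ i + Y / 65536 ^ i := by
    rw [Nat.add_div (by positivity)]
    rw [if_neg (by have := key i; omega)]
    simp
  have h3 := h i
  rw [packlane_ln_eq, packlane_ln_eq] at h3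
  rw [packlane_ln_eq, packlane_ln_eq, packlane_ln_eq, h2]
  generalize X / 65536 ^ i = a at *
  generalize Y / 65536 ^ i = b at *
  omega

theorem ln_sub (X Y : ℕ) (h : ∀ i, ln Y i ≤ ln X i) (i : ℕ) :
    ln (X - Y) i = ln X i - ln Y i := by
  have key : ∀ i, Y % 65536 ^ i ≤ X % 65536 ^ i := by
    intro i
    induction i with
    | zero => simp [Nat.mod_one]
    | succ i ih =>
      rw [packlane_mod_succ, packlane_mod_succ]
      have h1 := Nat.mul_le_mul_left (65536 ^ i) (h i)
      omega
  have hYX : Y ≤ X := by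
    have h1 := key (X + Y)
    have hlt : X + Y < 65536 ^ (X + Y) := Nat.lt_pow_self (by norm_num)
    rwa [Nat.mod_eq_of_lt (by omega), Nat.mod_eq_of_lt (by omega)] at h1
  have hdiv : Y / 65536 ^ i ≤ X / 65536 ^ i := Nat.div_le_div_right hYX
  have h2 : (X - Y) / 65536 ^ i = X / 65536 ^ i - Y / 65536 ^ i := by
    have hx := Nat.div_add_mod X (65536 ^ i)
    have hy := Nat.div_add_mod Y (65536 ^ i)
    have hk := key i
    have hpos : 0 < 65536 ^ i := by positivity
    have hxm := Nat.mod_lt X hpos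
    rw [Nat.div_eq_iff hpos]
    have hmul : 65536 ^ i * (X / 65536 ^ i - Y / 65536 ^ i)
        = 65536 ^ i * (X / 65536 ^ i) - 65536 ^ i * (Y / 65536 ^ i) := Nat.mul_sub _ _ _
    have hmul' : (X / 65536 ^ i - Y / 65536 ^ i) * 65536 ^ i
        = 65536 ^ i * (X / 65536 ^ i) - 65536 ^ i * (Y / 65536 ^ i) := by
      rw [mul_comm, hmul]
    have hle := Nat.mul_le_mul_left (65536 ^ i) hdiv
    rw [hmul']
    generalize 65536 ^ i * (X / 65536 ^ i) = A at *
    generalize 65536 ^ i * (Y / 65536 ^ i) = B at *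
    generalize X % 65536 ^ i = r at *
    generalize Y % 65536 ^ i = q at *
    generalize 65536 ^ i = n at *
    omega
  have h3 := h i
  rw [packlane_ln_eq, packlane_ln_eq] at h3
  rw [packlane_ln_eq, packlane_ln_eq, packlane_ln_eq, h2]
  generalize X / 65536 ^ i = a at *
  generalize Y / 65536 ^ i = b at *
  omega

theorem ln_mul (c X : ℕ) (h : ∀ i, c * ln X i < 65536) (i : ℕ) :
    ln (c * X) i = c * ln X i := by
  induction c generalizing i with
  | zero => simp [ln]
  | succ c ih =>
    have hc : ∀ i, c * ln X i < 65536 := fun i =>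
      lt_of_le_of_lt (Nat.mul_le_mul_right _ (Nat.le_succ c)) (h i)
    have ih' := ih hc
    rw [Nat.succ_mul, Nat.succ_mul]
    rw [ln_add]
    · rw [ih']
    · intro j
      rw [ih']
      have := h j
      rw [Nat.succ_mul] at this
      exact this

/-- a small shift followed by masking with lanes equal to 0 or 1 -/
theorem ln_shift_and (X o s i : ℕ) (hs : s < 16) (ho : ∀ j, ln o j ≤ 1) :
    ln ((X >>> s) &&& o) i = (if (ln X i).testBit s then 1 else 0) * ln o i := by
  have h01 : ln o i = 0 ∨ ln o i = 1 := by have := ho i; omega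
  rw [ln_and]
  rcases h01 with h0 | h1
  · rw [h0]; simp
  · rw [h1]
    rw [Nat.and_one_is_mod, mul_one]
    have hb : ln (X >>> s) i % 2 = (if (ln (X >>> s) i).testBit 0 then 1 else 0) := by
      rw [Nat.testBit_zero]
      have : ln (X >>> s) i % 2 = 0 ∨ ln (X >>> s) i % 2 = 1 := by omega
      rcases this with h | h <;> simp [h]
    rw [hb, ln_testBit _ _ _ (by norm_num : 0 < 16), Nat.testBit_shiftRight, ln_testBit _ _ _ hs]
    have : s + (16 * i + 0) = 16 * i + s := by ring
    rw [this]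

end Pool.Agent.H.MP_694475_co
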