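import Pool.Agent.H.MP_694475_co.PackLane

/-! Lanes of the basic patterns. -/

namespace Pool.Agent.H.MP_694475_co

private theorem packpat_ones_succ (K : ℕ) : ones (K + 1) = ones K + ones K <<< (16 * 2 ^ K) :=
  seq_eq (ones K) (fun x => x + x <<< (16 * 2 ^ K))

private theorem packpat_ln_zero (i : ℕ) : ln 0 i = 0 := by
  simp [ln]

private theorem packpat_ln_one (i : ℕ) : ln 1 i = if i < 1 then 1 else 0 := by
  unfold ln
  split_ifs with h
  · have : i = 0 := by omega
    subst this; rfl
  · have : 1 >>> (16 * i) = 0 := by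
      rw [Nat.shiftRight_eq_div_pow]
      apply Nat.div_eq_of_lt
      exact Nat.one_lt_two_pow (by omega)
    rw [this]

theorem ln_ones (K i : ℕ) : ln (ones K) i = if i < 2 ^ K then 1 else 0 := by
  induction K generalizing i with
  | zero =>
    rw [pow_zero]
    exact packpat_ln_one i
  | succ K ih =>
    rw [packpat_ones_succ, ln_add]
    · rw [ln_shiftLeft, ih, ih, pow_succ]
      split_ifs <;> omega
    · intro j
      rw [ln_shiftLeft, ih, ih]
      split_ifs <;> omega

private theorem packpat_pat_eq (K : ℕ) : pat (K + 1) K = (ones K) <<< (16 * 2 ^ K) := by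
  show (bif Nat.beq K K then (ones K) <<< (16 * 2 ^ K)
    else seq (pat K K) fun x => x + x <<< (16 * 2 ^ K)) = _
  have : Nat.beq K K = true := Nat.beq_refl K
  rw [this]; rfl

private theorem packpat_pat_ne (K k : ℕ) (h : K ≠ k) :
    pat (K + 1) k = pat K k + pat K k <<< (16 * 2 ^ K) := by
  show (bif Nat.beq K k then (ones K) <<< (16 * 2 ^ K)
    else seq (pat K k) fun x => x + x <<< (16 * 2 ^ K)) = _
  have : Nat.beq K k = false := by
    cases hb : Nat.beq K k with
    | false => rfl
    | true => exact absurd (Nat.eq_of_beq_eq_true hb) h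
  rw [this]
  exact seq_eq (pat K k) (fun x => x + x <<< (16 * 2 ^ K))

theorem ln_pat (K k i : ℕ) (hk : k < K) :
    ln (pat K k) i = if i < 2 ^ K ∧ i.testBit k then 1 else 0 := by
  induction K generalizing i with
  | zero => exact absurd hk (Nat.not_lt_zero _)
  | succ K ih =>
    by_cases hKk : K = k
    · subst hKk
      rw [packpat_pat_eq, ln_shiftLeft, ln_ones]
      by_cases h1 : i < 2 ^ K
      · have h2 : i.testBit K = false := Nat.testBit_lt_two_pow h1
        simp [h1, h2]
      · by_cases h2 : i < 2 ^ (K + 1)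
        · have h3 : i.testBit K = true :=
            Nat.testBit_of_two_pow_le_and_two_pow_add_one_gt (by omega) h2
          have h4 : i - 2 ^ K < 2 ^ K := by rw [pow_succ] at h2; omega
          simp [h1, h2, h3, h4]
        · have h4 : ¬ i - 2 ^ K < 2 ^ K := by rw [pow_succ] at h2; omega
          rw [if_neg h1, if_neg h4, if_neg (fun hc => h2 hc.1)]
    · have hk' : k < K := by omega
      have ih' := fun i => ih i hk'
      rw [packpat_pat_ne K k hKk, ln_add]
      · rw [ln_shiftLeft, ih', ih']
        by_cases h1 : i < 2 ^ K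
        · have h2 : i < 2 ^ (K + 1) := by rw [pow_succ]; omega
          simp [h1, h2]
        · have h3 : i.testBit k = (i - 2 ^ K).testBit k := by
            have h4 := Nat.testBit_two_pow_add_gt hk' (i - 2 ^ K)
            have h5 : 2 ^ K + (i - 2 ^ K) = i := by omega
            rw [h5] at h4
            exact h4
          rw [← h3, if_neg (fun hc => h1 hc.1), if_neg h1, zero_add]
          by_cases h2 : i < 2 ^ (K + 1)
          · have h4 : i - 2 ^ K < 2 ^ K := by rw [pow_succ] at h2; omega
            simp [h2, h4]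
          · have h4 : ¬ i - 2 ^ K < 2 ^ K := by rw [pow_succ] at h2; omega
            rw [if_neg (fun hc => h4 hc.1), if_neg (fun hc => h2 hc.1)]
      · intro j
        rw [ln_shiftLeft, ih', ih']
        split_ifs <;> omega

private theorem packpat_patList (K n j : ℕ) (hn : n ≤ K) (hj : j < n) :
    (patList K n).getD j 0 = pat K (K - n + j) := by
  induction n generalizing j with
  | zero => exact absurd hj (Nat.not_lt_zero _)
  | succ n ih =>
    have hs : patList K (n + 1) = pat K (K - (n + 1)) :: patList K n :=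
      seq_eq (pat K (K - (n + 1))) (fun x => x :: patList K n)
    rw [hs]
    cases j with
    | zero => rfl
    | succ j =>
      rw [List.getD_cons_succ, ih j (by omega) (by omega)]
      congr 1
      omega

theorem patList_getD (K k : ℕ) (hk : k < K) : (patList K K).getD k 0 = pat K k := by
  rw [packpat_patList K K k le_rfl hk]
  congr 1
  omega

theorem ln_mono (K i : ℕ) (m : List ℕ) (hm : ∀ k ∈ m, k < K) :
    ln (mono (patList K K) (ones K) m) i
      = if i < 2 ^ K ∧ ∀ k ∈ m, i.testBit k = true then 1 else 0 := by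
  induction m with
  | nil =>
    show ln (ones K) i = _
    rw [ln_ones]
    simp
  | cons k ks ih =>
    show ln ((patList K K).getD k 0 &&& mono (patList K K) (ones K) ks) i = _
    rw [ln_and, patList_getD K k (hm k List.mem_cons_self),
      ln_pat K k i (hm k List.mem_cons_self), ih (fun j hj => hm j (List.mem_cons_of_mem _ hj))]
    have e : (∀ k_1 ∈ k :: ks, i.testBit k_1 = true) ↔
        (i.testBit k = true ∧ ∀ k ∈ ks, i.testBit k = true) := List.forall_mem_cons
    simp only [e]
    by_cases h1 : i < 2 ^ K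
    · by_cases h2 : i.testBit k = true
      · by_cases h3 : ∀ k ∈ ks, i.testBit k = true
        · simp only [h1, h2, true_and]
          rw [if_pos trivial, if_pos h3]
          rfl
        · simp only [h1, h2, true_and]
          rw [if_pos trivial, if_neg h3]
          rfl
      · simp only [h1, h2, true_and]
        exact Nat.zero_and _
    · simp only [h1, false_and]
      exact Nat.zero_and _

private theorem packpat_sum9 (f : Fin 9 → ℕ) :
    ∑ i, f i = f 0 + f 1 + f 2 + f 3 + f 4 + f 5 + f 6 + f 7 + f 8 := by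
  rw [Fin.sum_univ_castSucc, Fin.sum_univ_eight]; rfl

private theorem packpat_pidx_lt (a : V) : pidx a < 512 := by
  unfold pidx
  have h : ∀ i, (a i).val < 2 := fun i => ZMod.val_lt (a i)
  have h0 := h 0
  have h1 := h 1
  have h2 := h 2
  have h3 := h 3
  have h4 := h 4
  have h5 := h 5
  have h6 := h 6
  have h7 := h 7
  have h8 := h 8
  rw [packpat_sum9]
  have e0 : ((0 : Fin 9) : ℕ) = 0 := rfl
  have e1 : ((1 : Fin 9) : ℕ) = 1 := rfl
  have e2 : ((2 : Fin 9) : ℕ) = 2 := rfl
  have e3 : ((3 : Fin 9) : ℕ) = 3 := rfl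
  have e4 : ((4 : Fin 9) : ℕ) = 4 := rfl
  have e5 : ((5 : Fin 9) : ℕ) = 5 := rfl
  have e6 : ((6 : Fin 9) : ℕ) = 6 := rfl
  have e7 : ((7 : Fin 9) : ℕ) = 7 := rfl
  have e8 : ((8 : Fin 9) : ℕ) = 8 := rfl
  rw [e0, e1, e2, e3, e4, e5, e6, e7, e8]
  norm_num
  omega

theorem idx_lt (l t : ℕ) (ht : t < 2 ^ l) (a : V) : idx l t a < 2 ^ (l + 9) := by
  unfold idx
  have h1 := packpat_pidx_lt a
  calc t + 2 ^ l * pidx a < 2 ^ l + 2 ^ l * pidx a := by omega
    _ = 2 ^ l * (pidx a + 1) := by ring
    _ ≤ 2 ^ l * 512 := Nat.mul_le_mul_left _ (by omega)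
    _ = 2 ^ (l + 9) := by rw [pow_add]; norm_num

private theorem packpat_prod (i : ℕ) (m : List ℕ) :
    (m.map (fun k => if i.testBit k then (1 : ZMod 2) else 0)).prod
      = if ∀ k ∈ m, i.testBit k = true then 1 else 0 := by
  induction m with
  | nil => simp
  | cons k ks ih =>
    rw [List.map_cons, List.prod_cons, ih]
    by_cases h1 : i.testBit k = true
    · rw [if_pos h1, one_mul]
      by_cases h2 : ∀ k ∈ ks, i.testBit k = true
      · rw [if_pos h2, if_pos]
        intro j hj
        rcases List.mem_cons.mp hj with hj | hj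
        · rw [hj]; exact h1
        · exact h2 j hj
      · rw [if_neg h2, if_neg]
        intro hc
        exact h2 fun j hj => hc j (List.mem_cons_of_mem _ hj)
    · rw [if_neg h1, zero_mul, if_neg]
      intro hc
      exact h1 (hc k List.mem_cons_self)

private theorem packpat_val_add (x y : ZMod 2) : (x + y).val = x.val ^^^ y.val := by
  revert x y; decide

theorem ln_poly (l t : ℕ) (ht : t < 2 ^ l) (ms : List (List ℕ))
    (hm : ∀ m ∈ ms, ∀ k ∈ m, k < l + 9) (a : V) :
    ln (poly (patList (l + 9) (l + 9)) (ones (l + 9)) ms) (idx l t a) = (gOf l ms t a).val := by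
  induction ms with
  | nil =>
    show ln 0 _ = _
    rw [packpat_ln_zero]; rfl
  | cons m ms ih =>
    show ln (mono (patList (l + 9) (l + 9)) (ones (l + 9)) m ^^^
      poly (patList (l + 9) (l + 9)) (ones (l + 9)) ms) _ = _
    rw [ln_xor, ih (fun j hj => hm j (List.mem_cons_of_mem _ hj)),
      ln_mono _ _ _ (hm m List.mem_cons_self)]
    have hg : gOf l (m :: ms) t a
        = (m.map (fun k => if (idx l t a).testBit k then (1 : ZMod 2) else 0)).prod
          + gOf l ms t a := by
      unfold gOf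
      rw [List.map_cons, List.sum_cons]
    rw [hg, packpat_val_add, packpat_prod]
    congr 1
    have h1 := idx_lt l t ht a
    by_cases h2 : ∀ k ∈ m, (idx l t a).testBit k = true
    · rw [if_pos ⟨h1, h2⟩, if_pos h2]; rfl
    · rw [if_neg (fun hc => h2 hc.2), if_neg h2]; rfl

theorem ln_poly_le (l : ℕ) (ms : List (List ℕ)) (hm : ∀ m ∈ ms, ∀ k ∈ m, k < l + 9) (i : ℕ) :
    ln (poly (patList (l + 9) (l + 9)) (ones (l + 9)) ms) i ≤ if i < 2 ^ (l + 9) then 1 else 0 := by
  induction ms with
  | nil =>
    show ln 0 _ ≤ _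
    rw [packpat_ln_zero]; exact Nat.zero_le _
  | cons m ms ih =>
    show ln (mono (patList (l + 9) (l + 9)) (ones (l + 9)) m ^^^
      poly (patList (l + 9) (l + 9)) (ones (l + 9)) ms) _ ≤ _
    have ih' := ih (fun j hj => hm j (List.mem_cons_of_mem _ hj))
    rw [ln_xor, ln_mono _ _ _ (hm m List.mem_cons_self)]
    generalize ln (poly (patList (l + 9) (l + 9)) (ones (l + 9)) ms) i = q at ih'
    by_cases h1 : i < 2 ^ (l + 9)
    · rw [if_pos h1] at ih' ⊢
      have hq : q = 0 ∨ q = 1 := by omega
      by_cases h2 : ∀ k ∈ m, i.testBit k = true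
      · rw [if_pos ⟨h1, h2⟩]
        rcases hq with rfl | rfl <;> decide
      · rw [if_neg (fun hc => h2 hc.2)]
        rcases hq with rfl | rfl <;> decide
    · rw [if_neg h1] at ih' ⊢
      rw [if_neg (fun hc => h1 hc.1)]
      have hq : q = 0 := by omega
      subst hq; decide

/-- every lane index below `2^(l+9)` is an `idx` -/
theorem exists_idx (l i : ℕ) (hi : i < 2 ^ (l + 9)) : ∃ t < 2 ^ l, ∃ a : V, i = idx l t a := by
  have hpos : 0 < 2 ^ l := by positivity
  refine ⟨i % 2 ^ l, Nat.mod_lt _ hpos, fun k => ((i / 2 ^ l / 2 ^ k.val % 2 : ℕ) : ZMod 2), ?_⟩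
  have hp : i / 2 ^ l < 512 := by
    rw [Nat.div_lt_iff_lt_mul hpos]
    calc i < 2 ^ (l + 9) := hi
      _ = 512 * 2 ^ l := by rw [pow_add]; ring
  have key : pidx (fun k => ((i / 2 ^ l / 2 ^ k.val % 2 : ℕ) : ZMod 2)) = i / 2 ^ l := by
    generalize i / 2 ^ l = p at hp
    unfold pidx
    have hv : ∀ k : Fin 9, (((p / 2 ^ k.val % 2 : ℕ) : ZMod 2)).val = p / 2 ^ k.val % 2 := by
      intro k
      rw [ZMod.val_natCast]
      omega
    simp only [hv]
    rw [packpat_sum9]
    have e0 : ((0 : Fin 9) : ℕ) = 0 := rfl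
    have e1 : ((1 : Fin 9) : ℕ) = 1 := rfl
    have e2 : ((2 : Fin 9) : ℕ) = 2 := rfl
    have e3 : ((3 : Fin 9) : ℕ) = 3 := rfl
    have e4 : ((4 : Fin 9) : ℕ) = 4 := rfl
    have e5 : ((5 : Fin 9) : ℕ) = 5 := rfl
    have e6 : ((6 : Fin 9) : ℕ) = 6 := rfl
    have e7 : ((7 : Fin 9) : ℕ) = 7 := rfl
    have e8 : ((8 : Fin 9) : ℕ) = 8 := rfl
    rw [e0, e1, e2, e3, e4, e5, e6, e7, e8]
    norm_num
    omega
  unfold idx
  rw [key, Nat.mod_add_div]

end Pool.Agent.H.MP_694475_co
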