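import Pool.Agent.H.MP_694475_co.Basic

/-! Covering radius of the first-order Reed-Muller code of length 512. -/

open Finset

namespace Pool.Agent.H.MP_694475_co

/-- the first-order Reed-Muller code `RM(1, n)`: affine Boolean functions in `n` variables -/
def RM1 (n : ℕ) : Set ((Fin n → ZMod 2) → ZMod 2) :=
  {g | ∃ (b0 : ZMod 2) (b : Fin n → ZMod 2), ∀ x, g x = b0 + ∑ i, b i * x i}

/-- `r` is the covering radius of the code `C`: the least `r` such that the balls of radius `r`
centred at the codewords cover the whole space -/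
def IsCoveringRadius {ι : Type} [Fintype ι] [DecidableEq ι] (C : Set (ι → ZMod 2)) (r : ℕ) : Prop :=
  IsLeast {ρ : ℕ | ∀ f : ι → ZMod 2, ∃ g ∈ C, hammingDist f g ≤ ρ} r

theorem radius_term (a b : ZMod 2) :
    (if a ≠ b then (2 : ℤ) else 0) = 1 - sgn a * sgn b := by
  revert a b; decide

theorem radius_dot (x b : V) : ∑ i, b i * x i = dot x b := by
  unfold dot
  exact Finset.sum_congr rfl fun i _ => mul_comm _ _

theorem dist_affine (f : V → ZMod 2) (b0 : ZMod 2) (b : V) :
    (2 : ℤ) * hammingDist f (fun x => b0 + ∑ i, b i * x i)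
      = 512 - sgn b0 * WT (chi f) b := by
  have h1 : (2 : ℤ) * hammingDist f (fun x => b0 + ∑ i, b i * x i)
      = ∑ x : V, (if f x ≠ b0 + ∑ i, b i * x i then (2 : ℤ) else 0) := by
    unfold hammingDist
    rw [Finset.card_filter, Nat.cast_sum, Finset.mul_sum]
    refine Finset.sum_congr rfl fun x _ => ?_
    split_ifs <;> simp
  rw [h1]
  have h2 : ∀ x : V, (if f x ≠ b0 + ∑ i, b i * x i then (2 : ℤ) else 0)
      = 1 - sgn b0 * (chi f x * sgn (dot x b)) := by
    intro x
    rw [radius_term, sgn_add, radius_dot]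
    unfold chi
    ring
  simp_rw [h2]
  rw [Finset.sum_sub_distrib, ← Finset.mul_sum]
  unfold WT
  simp [Fintype.card_pi]

/-- upper bound from large Walsh values -/
theorem upper_of_large (h : ∀ F : V → ℤ, (∀ x, F x = 1 ∨ F x = -1) → ∃ a, 26 < |WT F a|)
    (f : V → ZMod 2) : ∃ g ∈ RM1 9, hammingDist f g ≤ 242 := by
  obtain ⟨a, ha⟩ := h (chi f) (fun x => sgn_eq_or (f x))
  have h0 := dist_affine f 0 a
  have h1 := dist_affine f 1 a
  rw [sgn_zero] at h0
  rw [sgn_one] at h1
  rcases abs_cases (WT (chi f) a) with ⟨he, _⟩ | ⟨he, _⟩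
  · refine ⟨fun x => 0 + ∑ i, a i * x i, ⟨0, a, fun x => rfl⟩, ?_⟩
    have h2 : (hammingDist f (fun x => 0 + ∑ i, a i * x i) : ℤ) ≤ 242 := by omega
    exact_mod_cast h2
  · refine ⟨fun x => 1 + ∑ i, a i * x i, ⟨1, a, fun x => rfl⟩, ?_⟩
    have h2 : (hammingDist f (fun x => 1 + ∑ i, a i * x i) : ℤ) ≤ 242 := by omega
    exact_mod_cast h2

end Pool.Agent.H.MP_694475_co
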