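import Pool.Agent.H.MP_694475_co.Basic

/-! Shift sums of Walsh transforms of odd-valued functions are highly divisible by 2. -/

open Finset

namespace Pool.Agent.H.MP_694475_co

/-- shift sum -/
def S (u : V) (F : V → ℤ) : V → ℤ := fun a => F a + F (a + u)

/-- weighted transform -/
private def shiftW (F G : V → ℤ) : V → ℤ := fun a => ∑ x, F x * G x * sgn (dot x a)

private theorem shift_step (F G : V → ℤ) (u : V) :
    S u (shiftW F G) = shiftW F (fun x => (1 + sgn (dot x u)) * G x) := by
  funext a
  unfold S shiftW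
  rw [← Finset.sum_add_distrib]
  refine Finset.sum_congr rfl fun x _ => ?_
  rw [dot_add_right, sgn_add]
  ring

private theorem shift_WT (F : V → ℤ) : WT F = shiftW F (fun _ => 1) := by
  funext a
  unfold WT shiftW
  refine Finset.sum_congr rfl fun x _ => ?_
  ring

private theorem shift_prod (l : List V) (x : V) :
    (l.map fun u => 1 + sgn (dot x u)).prod =
      if ∀ u ∈ l, dot x u = 0 then 2 ^ l.length else 0 := by
  induction l with
  | nil => simp
  | cons u l ih =>
    rw [List.map_cons, List.prod_cons, ih]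
    rcases zmod2_cases (dot x u) with h | h
    · by_cases h2 : ∀ u ∈ l, dot x u = 0
      · have h3 : ∀ v ∈ u :: l, dot x v = 0 := by
          intro v hv
          rcases List.mem_cons.1 hv with rfl | hv
          · exact h
          · exact h2 v hv
        rw [if_pos h2, if_pos h3, h, sgn_zero, List.length_cons, pow_succ]
        ring
      · have h3 : ¬ ∀ v ∈ u :: l, dot x v = 0 := fun hc =>
          h2 fun v hv => hc v (List.mem_cons_of_mem _ hv)
        rw [if_neg h2, if_neg h3, mul_zero]
    · have h3 : ¬ ∀ v ∈ u :: l, dot x v = 0 := fun hc => by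
        have := hc u List.mem_cons_self
        rw [h] at this
        exact absurd this (by decide)
      rw [if_neg h3, h, sgn_one]
      ring

private theorem shift_exists (l : List V) (hl : l.length ≤ 8) :
    ∃ y : V, y ≠ 0 ∧ ∀ u ∈ l, dot y u = 0 := by
  have hcard : Fintype.card (Fin l.length → ZMod 2) < Fintype.card V := by
    rw [Fintype.card_fun, Fintype.card_fun, ZMod.card, Fintype.card_fin, Fintype.card_fin]
    exact Nat.pow_lt_pow_right (by norm_num) (by omega)
  obtain ⟨x, x', hne, heq⟩ := Fintype.exists_ne_map_eq_of_card_lt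
    (fun (x : V) (i : Fin l.length) => dot x (l.get i)) hcard
  refine ⟨x + x', ?_, ?_⟩
  · intro h
    apply hne
    have h2 := add_add_cancel_V x x'
    rw [h] at h2
    rw [← h2, zero_add]
  · intro u hu
    obtain ⟨i, rfl⟩ := List.get_of_mem hu
    have this : dot x (l.get i) = dot x' (l.get i) := congrFun heq i
    rw [dot_add_left, this, add_self_zmod2]

private theorem shift_cast_odd (n : ℤ) (hn : Odd n) : ((n : ℤ) : ZMod 2) = 1 := by
  obtain ⟨m, rfl⟩ := hn
  push_cast
  have : (2 : ZMod 2) = 0 := by decide
  rw [this]; ring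

private theorem shift_even (F : V → ℤ) (hF : ∀ x, Odd (F x)) (l : List V) (hl : l.length ≤ 8)
    (a : V) : (2 : ℤ) ∣ ∑ x ∈ univ.filter (fun x : V => ∀ u ∈ l, dot x u = 0),
      F x * sgn (dot x a) := by
  obtain ⟨y, hy0, hy⟩ := shift_exists l hl
  have h2 : ((2 : ℕ) : ℤ) ∣ ∑ x ∈ univ.filter (fun x : V => ∀ u ∈ l, dot x u = 0),
      F x * sgn (dot x a) := by
    rw [← ZMod.intCast_zmod_eq_zero_iff_dvd]
    push_cast
    have hone : ∀ x : V, ((F x : ℤ) : ZMod 2) * ((sgn (dot x a) : ℤ) : ZMod 2) = 1 := by
      intro x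
      have hs : Odd (sgn (dot x a)) := by
        rcases sgn_eq_or (dot x a) with h | h <;> rw [h] <;> decide
      rw [shift_cast_odd _ (hF x), shift_cast_odd _ hs, one_mul]
    refine Finset.sum_involution (fun x _ => x + y) ?_ ?_ ?_ ?_
    · intro x _
      rw [hone, hone]; decide
    · intro x _ _ h
      apply hy0
      have : x + y = x + 0 := by rw [h, add_zero]
      exact add_left_cancel this
    · intro x hx
      simp only [Finset.mem_filter, Finset.mem_univ, true_and] at hx ⊢
      intro u hu
      rw [dot_add_left, hx u hu, hy u hu, add_zero]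
    · intro x _
      exact add_add_cancel_V x y
  exact_mod_cast h2

private theorem shift_main (F : V → ℤ) (hF : ∀ x, Odd (F x)) (l : List V) (hl : l.length ≤ 8)
    (a : V) : (2 : ℤ) ^ (l.length + 1) ∣
      shiftW F (fun x => (l.map fun u => 1 + sgn (dot x u)).prod) a := by
  have h1 : shiftW F (fun x => (l.map fun u => 1 + sgn (dot x u)).prod) a =
      2 ^ l.length * ∑ x ∈ univ.filter (fun x : V => ∀ u ∈ l, dot x u = 0),
        F x * sgn (dot x a) := by
    unfold shiftW
    rw [Finset.mul_sum, Finset.sum_filter]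
    refine Finset.sum_congr rfl fun x _ => ?_
    show F x * (l.map fun u => 1 + sgn (dot x u)).prod * sgn (dot x a) = _
    rw [shift_prod]
    split_ifs
    · ring
    · ring
  rw [h1, pow_succ]
  exact mul_dvd_mul_left _ (shift_even F hF l hl a)

theorem two_dvd_WT (F : V → ℤ) (hF : ∀ x, Odd (F x)) (a : V) : 2 ∣ WT F a := by
  have h := shift_main F hF [] (by simp) a
  rw [shift_WT]
  simpa using h

theorem S1_dvd (F : V → ℤ) (hF : ∀ x, Odd (F x)) (u a : V) : 4 ∣ S u (WT F) a := by
  have h := shift_main F hF [u] (by simp) a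
  rw [shift_WT, shift_step]
  norm_num at h
  simpa using h

theorem S2_dvd (F : V → ℤ) (hF : ∀ x, Odd (F x)) (u v a : V) : 8 ∣ S u (S v (WT F)) a := by
  have h := shift_main F hF [u, v] (by simp) a
  rw [shift_WT, shift_step, shift_step]
  norm_num at h
  simpa using h

theorem S3_dvd (F : V → ℤ) (hF : ∀ x, Odd (F x)) (u v w a : V) :
    16 ∣ S u (S v (S w (WT F))) a := by
  have h := shift_main F hF [u, v, w] (by simp) a
  rw [shift_WT, shift_step, shift_step, shift_step]
  norm_num at h
  simpa using h

theorem S4_dvd (F : V → ℤ) (hF : ∀ x, Odd (F x)) (u v w z a : V) :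
    32 ∣ S u (S v (S w (S z (WT F)))) a := by
  have h := shift_main F hF [u, v, w, z] (by simp) a
  rw [shift_WT, shift_step, shift_step, shift_step, shift_step]
  norm_num at h
  simpa using h

end Pool.Agent.H.MP_694475_co
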