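import Pool.Agent.H.MP_694475_co.Deriv

/-! Step A1: normalisation of the Walsh transform of a function of nonlinearity at least 243. -/

open Finset

namespace Pool.Agent.H.MP_694475_co

private theorem sta1_S_mul (c : ℤ) (K : V → ℤ) (u v a : V) :
    S u (S v (fun a => c * K a)) a = c * S u (S v K) a := by
  simp only [S]; ring

private theorem sta1_sum_sq (F : V → ℤ) (hF : ∀ x, F x = 1 ∨ F x = -1) :
    ∑ a, WT F a * WT F a = 262144 := by
  rw [WT_inner]
  have h : ∀ x, F x * F x = 1 := by
    intro x
    rcases hF x with h | h <;> rw [h] <;> norm_num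
  simp only [h]
  simp [Fintype.card_pi]

theorem stepA1 (F : V → ℤ) (hF : ∀ x, F x = 1 ∨ F x = -1) (hW : ∀ a, |WT F a| ≤ 26) :
    ∃ J Ft : V → ℤ, (∀ a, |J a| ≤ 3) ∧ (∀ x, WT J x = 64 * Ft x) ∧
      (∀ x, x ≠ 0 → Ft x = 1 ∨ Ft x = -1) ∧ (Ft 0 = 1 ∨ Ft 0 = -1 ∨ Ft 0 = -3) := by
  have hodd : ∀ x, Odd (F x) := by
    intro x
    rcases hF x with h | h <;> rw [h] <;> decide
  have h2 := two_dvd_WT F hodd
  have h4 : ∀ a b, 4 ∣ WT F a + WT F b := by
    intro a b
    have h := S1_dvd F hodd (a + b) a
    have e : a + (a + b) = b := by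
      rw [← add_assoc, add_self_V, zero_add]
    simpa only [S, e] using h
  by_cases h0 : 4 ∣ WT F 0
  · -- Case E
    have hall : ∀ a, ∃ k, WT F a = 4 * k := by
      intro a
      have := (Int.dvd_add_right h0).1 (h4 0 a)
      exact this
    choose K hK using hall
    have hWK : WT F = fun a => 4 * K a := funext hK
    have hdeg : DegLT 2 (par K) := by
      apply par_DegLT2
      intro u v a
      have h := S2_dvd F hodd u v a
      rw [hWK, sta1_S_mul] at h
      omega
    have hKb : ∀ a, |K a| ≤ 6 := by
      intro a
      have h := hW a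
      rw [hK a, abs_le] at h
      rw [abs_le]
      omega
    have hsum : ∑ a, K a * K a = 16384 := by
      have h := sta1_sum_sq F hF
      rw [hWK] at h
      have e : ∑ a, (4 * K a) * (4 * K a) = 16 * ∑ a, K a * K a := by
        rw [Finset.mul_sum]
        exact Finset.sum_congr rfl fun a _ => by ring
      rw [e] at h
      omega
    have heven : ∀ a, ¬ Odd (K a) := by
      intro a ha
      have hne : par K a ≠ 0 := (par_ne_zero K a).2 ha
      have hw := rm_weight 1 (by norm_num) (par K) hdeg a hne
      have hle : ∑ a, K a * K a ≤ ∑ a, (36 - if par K a ≠ 0 then (11 : ℤ) else 0) := by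
        apply Finset.sum_le_sum
        intro b _
        have hb := hKb b
        rw [abs_le] at hb
        split_ifs with hp
        · have ho : Odd (K b) := (par_ne_zero K b).1 hp
          obtain ⟨l, hl⟩ := ho
          have h1 : -5 ≤ K b := by omega
          have h2 : K b ≤ 5 := by omega
          nlinarith
        · nlinarith
      rw [Finset.sum_sub_distrib, Finset.sum_ite] at hle
      simp only [Finset.sum_const, Finset.card_univ, Finset.sum_const_zero, add_zero,
        nsmul_eq_mul] at hle
      have hc : Fintype.card V = 512 := by simp [Fintype.card_pi]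
      rw [hc, hsum] at hle
      have hw' : (256 : ℤ) ≤ ((univ.filter (fun a => par K a ≠ 0)).card : ℤ) := by
        exact_mod_cast hw
      push_cast at hle
      linarith
    have hall2 : ∀ a, ∃ j, K a = 2 * j := by
      intro a
      have := heven a
      rw [Int.not_odd_iff_even] at this
      obtain ⟨j, hj⟩ := this
      exact ⟨j, by omega⟩
    choose J hJ using hall2
    have hWJ : WT F = fun a => 8 * J a := by
      funext a
      rw [hK a, hJ a]; ring
    refine ⟨J, F, ?_, ?_, ?_, ?_⟩
    · intro a
      have h := hKb a
      rw [hJ a, abs_le] at h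
      rw [abs_le]
      omega
    · intro x
      have h := WT_WT F x
      rw [hWJ, WT_const_mul] at h
      omega
    · intro x _
      exact hF x
    · rcases hF 0 with h | h
      · exact Or.inl h
      · exact Or.inr (Or.inl h)
  · -- Case O
    have hall : ∀ a, ∃ m, WT F a = 2 * m := h2
    choose M hM using hall
    have hWM : WT F = fun a => 2 * M a := funext hM
    have hModd : ∀ a, Odd (M a) := by
      intro a
      by_contra hc
      rw [Int.not_odd_iff_even] at hc
      obtain ⟨j, hj⟩ := hc
      have h := h4 0 a
      have ha : (4 : ℤ) ∣ WT F a := by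
        rw [hM a, hj]
        exact ⟨j, by ring⟩
      exact h0 ((Int.dvd_add_left ha).1 h)
    have hdeg : DegLT 2 (fun a => sg4 (M a)) := by
      apply sg4_DegLT2 M hModd
      intro u v a
      have h := S2_dvd F hodd u v a
      rw [hWM, sta1_S_mul] at h
      omega
    obtain ⟨c, p, hcp⟩ := affine_of_DegLT_two _ hdeg
    have hs : ∀ a, sgn c * sgn (dot p a) = 1 ∨ sgn c * sgn (dot p a) = -1 := by
      intro a
      rcases sgn_eq_or c with h | h <;> rcases sgn_eq_or (dot p a) with h' | h' <;>
        rw [h, h'] <;> norm_num
    have hmod : ∀ a, 4 ∣ M a - sgn c * sgn (dot p a) := by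
      intro a
      have h := sg4_spec (hModd a)
      have h' : sg4 (M a) = c + dot p a := hcp a
      rw [h', sgn_add] at h
      exact h
    have hJ : ∀ a, ∃ j, sgn c * sgn (dot p a) * M a = 1 + 4 * j := by
      intro a
      obtain ⟨t, ht⟩ := hmod a
      rcases hs a with h | h
      · rw [h] at ht ⊢
        exact ⟨t, by linarith⟩
      · rw [h] at ht ⊢
        exact ⟨-t, by linarith⟩
    choose J hJ using hJ
    set F' : V → ℤ := fun x => sgn c * F (x + p) with hF'
    have hF'v : ∀ x, F' x = 1 ∨ F' x = -1 := by
      intro x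
      simp only [hF']
      rcases sgn_eq_or c with h | h <;> rcases hF (x + p) with h' | h' <;>
        rw [h, h'] <;> norm_num
    have hWF' : WT F' = fun a => 2 * 1 + 8 * J a := by
      funext a
      rw [hF', WT_const_mul, WT_shift, hM a]
      have := hJ a
      linear_combination 2 * this
    have hWJ : ∀ x, WT J x = 64 * (F' x - if x = 0 then 2 else 0) := by
      intro x
      have h := WT_WT F' x
      rw [hWF', WT_add, WT_const_mul, WT_const_mul, WT_one] at h
      split_ifs at h ⊢ <;> omega
    refine ⟨J, fun x => F' x - if x = 0 then 2 else 0, ?_, hWJ, ?_, ?_⟩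
    · intro a
      have h := hW a
      rw [hM a, abs_le] at h
      have hj := hJ a
      rw [abs_le]
      rcases hs a with h' | h' <;> rw [h'] at hj <;> omega
    · intro x hx
      simp only [if_neg hx, sub_zero]
      exact hF'v x
    · simp only [if_true]
      rcases hF'v 0 with h | h <;> rw [h] <;> norm_num

end Pool.Agent.H.MP_694475_co
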