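import Pool.Agent.H.MP_694475_co.StDef

/-! Step A2: `J` is odd valued and its sign pattern mod 4 is cubic. -/

open Finset

namespace Pool.Agent.H.MP_694475_co

theorem sta2_S_mul (c : ℤ) (u : V) (K : V → ℤ) :
    S u (fun a => c * K a) = fun a => c * S u K a := by
  funext a
  unfold S
  ring

theorem sta2_card : (Fintype.card V : ℤ) = 512 := by
  simp [Fintype.card_pi]

theorem sta2_sum_sq (J Ft : V → ℤ) (hWT : ∀ x, WT J x = 64 * Ft x) :
    ∑ a, J a ^ 2 = 8 * ∑ x, Ft x ^ 2 := by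
  have h := WT_inner J J
  have h1 : ∑ x, WT J x * WT J x = 4096 * ∑ x, Ft x ^ 2 := by
    rw [Finset.mul_sum]
    refine Finset.sum_congr rfl fun x _ => ?_
    rw [hWT]
    ring
  have h2 : ∑ a, J a * J a = ∑ a, J a ^ 2 := Finset.sum_congr rfl fun a _ => by ring
  rw [h1, h2] at h
  linarith

theorem sta2_sum_Ft (Ft : V → ℤ) (h1 : ∀ x, x ≠ 0 → Ft x = 1 ∨ Ft x = -1) :
    ∑ x, Ft x ^ 2 = 511 + Ft 0 ^ 2 := by
  have h : ∀ x, Ft x ^ 2 = 1 + if x = 0 then Ft 0 ^ 2 - 1 else 0 := by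
    intro x
    split_ifs with hx
    · subst hx; ring
    · rcases h1 x hx with h | h <;> rw [h] <;> norm_num
  rw [Finset.sum_congr rfl fun x _ => h x, Finset.sum_add_distrib, Finset.sum_ite_eq' Finset.univ (0 : V), if_pos (Finset.mem_univ _),
    Finset.sum_const, Finset.card_univ, nsmul_eq_mul, mul_one, sta2_card]
  ring

theorem sta2_WT_Ft (J Ft : V → ℤ) (hWT : ∀ x, WT J x = 64 * Ft x) :
    WT Ft = fun a => 8 * J a := by
  funext a
  have h := WT_WT J a
  have h1 : WT J = fun x => 64 * Ft x := funext hWT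
  rw [h1, WT_const_mul] at h
  linarith

theorem sta2_odd (J Ft : V → ℤ) (hJ : ∀ a, |J a| ≤ 3) (hWT : ∀ x, WT J x = 64 * Ft x)
    (h1 : ∀ x, x ≠ 0 → Ft x = 1 ∨ Ft x = -1) (hFt : ∀ x, Odd (Ft x)) (a : V) : Odd (J a) := by
  have hWF := sta2_WT_Ft J Ft hWT
  have hp : DegLT 3 (par J) := by
    apply par_DegLT3
    intro u v w b
    have h := S3_dvd Ft hFt u v w b
    rw [hWF, sta2_S_mul, sta2_S_mul, sta2_S_mul] at h
    have h2 : 16 ∣ 8 * S u (S v (S w J)) b := h
    omega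
  have hk : DegLT 3 (fun b => par J b + 1) :=
    DegLT.add hp (DegLT.succ (DegLT.succ (DegLT_const 1)))
  by_contra hcon
  have hpa : par J a = 0 := by
    by_contra hne
    exact hcon ((par_ne_zero J a).mp hne)
  have hw := rm_weight 2 (by norm_num) (fun b => par J b + 1) hk a (by
    show par J a + 1 ≠ 0
    rw [hpa]
    decide)
  have hsq := sta2_sum_sq J Ft hWT
  have hFs := sta2_sum_Ft Ft h1
  have hb : ∀ b, J b ^ 2 ≤ 9 - 5 * (if par J b + 1 ≠ 0 then (1 : ℤ) else 0) := by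
    intro b
    have h3 := abs_le.mp (hJ b)
    split_ifs with hc
    · have h4 : par J b = 0 := by
        rcases zmod2_cases (par J b) with h5 | h5
        · exact h5
        · exfalso
          apply hc
          rw [h5]
          decide
      have h6 := (par_eq_zero J b).mp h4
      obtain ⟨c, hc2⟩ := h6
      have h7 : -1 ≤ c := by omega
      have h8 : c ≤ 1 := by omega
      rw [hc2]
      nlinarith
    · nlinarith
  have hsum := Finset.sum_le_sum fun b (_ : b ∈ (Finset.univ : Finset V)) => hb b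
  rw [Finset.sum_sub_distrib, ← Finset.mul_sum, Finset.sum_const, Finset.card_univ, nsmul_eq_mul,
    sta2_card, Finset.sum_boole] at hsum
  have hw2 : (128 : ℤ) ≤ ((Finset.univ.filter fun b => par J b + 1 ≠ 0).card : ℤ) := by
    have h9 : 2 ^ (9 - 2) = 128 := by norm_num
    rw [h9] at hw
    exact_mod_cast hw
  have h0 : 0 ≤ Ft 0 ^ 2 := sq_nonneg _
  have h0' : 1 ≤ Ft 0 ^ 2 := by
    obtain ⟨c, hc⟩ := hFt 0
    rcases lt_or_ge c 0 with h | h <;> nlinarith
  rw [hsq, hFs] at hsum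
  linarith

theorem stepA2 (J Ft : V → ℤ) (hJ : ∀ a, |J a| ≤ 3) (hWT : ∀ x, WT J x = 64 * Ft x)
    (h1 : ∀ x, x ≠ 0 → Ft x = 1 ∨ Ft x = -1) (h0 : Ft 0 = 1 ∨ Ft 0 = -1 ∨ Ft 0 = -3) :
    ∃ (e : V → ZMod 2) (s : V → ℤ), St J Ft e s := by
  have hFt : ∀ x, Odd (Ft x) := by
    intro x
    by_cases hx : x = 0
    · subst hx
      rcases h0 with h | h | h <;> rw [h] <;> decide
    · rcases h1 x hx with h | h <;> rw [h] <;> decide
  have hodd := sta2_odd J Ft hJ hWT h1 hFt
  have hWF := sta2_WT_Ft J Ft hWT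
  have hval : ∀ a, J a = 3 ∨ J a = -3 ∨ J a = 1 ∨ J a = -1 := by
    intro a
    have h3 := abs_le.mp (hJ a)
    obtain ⟨c, hc⟩ := hodd a
    omega
  have hs01 : ∀ a, (if J a = 3 ∨ J a = -3 then (0 : ℤ) else 1) = 0 ∨
      (if J a = 3 ∨ J a = -3 then (0 : ℤ) else 1) = 1 := by
    intro a
    split_ifs <;> simp
  have hsq := sta2_sum_sq J Ft hWT
  have hFs := sta2_sum_Ft Ft h1
  have hJs : ∀ a, J a ^ 2 = 9 - 8 * (if J a = 3 ∨ J a = -3 then (0 : ℤ) else 1) := by
    intro a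
    rcases hval a with h | h | h | h <;> rw [h] <;> norm_num
  have hsum : ∑ a, J a ^ 2 = 4608 - 8 * ∑ a, (if J a = 3 ∨ J a = -3 then (0 : ℤ) else 1) := by
    rw [Finset.sum_congr rfl fun a _ => hJs a, Finset.sum_sub_distrib, ← Finset.mul_sum,
      Finset.sum_const, Finset.card_univ, nsmul_eq_mul, sta2_card]
    norm_num
  refine ⟨fun a => sg4 (J a) + 1, fun a => if J a = 3 ∨ J a = -3 then 0 else 1, ?_, hs01, ?_, hWT,
    h1, ?_⟩
  · refine DegLT.add (sg4_DegLT4 J hodd ?_) (DegLT.succ (DegLT.succ (DegLT.succ (DegLT_const 1))))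
    intro u v w z b
    have h := S4_dvd Ft hFt u v w z b
    rw [hWF, sta2_S_mul, sta2_S_mul, sta2_S_mul, sta2_S_mul] at h
    have h2 : 32 ∣ 8 * S u (S v (S w (S z J))) b := h
    omega
  · intro a
    rcases hval a with h | h | h | h <;> simp only [h] <;> decide
  · have hk : ∀ T : ℤ, ∑ a, J a ^ 2 = 4608 - 8 * T → Ft 0 ^ 2 = 1 → T = 64 := by
      intro T hT h2
      rw [hT, hFs, h2] at hsq
      linarith
    rcases h0 with h | h | h
    · left
      exact ⟨Or.inl h, hk _ hsum (by rw [h]; norm_num)⟩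
    · left
      exact ⟨Or.inr h, hk _ hsum (by rw [h]; norm_num)⟩
    · right
      refine ⟨h, ?_⟩
      have h2 : Ft 0 ^ 2 = 9 := by rw [h]; norm_num
      rw [hsum, hFs, h2] at hsq
      linarith

/-- Step A3 -/
theorem St.sum_mul {J Ft : V → ℤ} {e : V → ZMod 2} {s : V → ℤ} (h : St J Ft e s) :
    ∑ x, Ft x * WT (chi e) x = 8 * (1536 - 4 * ∑ a, s a) := by
  have h1 := WT_inner J (chi e)
  have h2 : ∑ x, WT J x * WT (chi e) x = 64 * ∑ x, Ft x * WT (chi e) x := by
    rw [Finset.mul_sum]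
    refine Finset.sum_congr rfl fun x _ => ?_
    rw [h.WTJ]
    ring
  have h3 : ∑ a, J a * chi e a = 1536 - 4 * ∑ a, s a := by
    have h4 : ∀ a, J a * chi e a = 3 - 4 * s a := by
      intro a
      rw [h.Jeq]
      unfold chi
      have := sgn_mul_self (e a)
      calc sgn (e a) * (3 - 4 * s a) * sgn (e a) = (sgn (e a) * sgn (e a)) * (3 - 4 * s a) := by ring
        _ = _ := by rw [this, one_mul]
    simp_rw [h4]
    rw [Finset.sum_sub_distrib, ← Finset.mul_sum, Finset.sum_const, Finset.card_univ,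
      nsmul_eq_mul, sta2_card]
    norm_num
  rw [h2, h3] at h1
  linarith

/-- the autocorrelation of `J` vanishes when `|Ft| = 1` -/
theorem St.autocorr {J Ft : V → ℤ} {e : V → ZMod 2} {s : V → ℤ} (h : St J Ft e s)
    (h0 : Ft 0 = 1 ∨ Ft 0 = -1) (b : V) (hb : b ≠ 0) : ∑ a, J a * J (a + b) = 0 := by
  have h1 := WT_autocorr J b
  have h2 : ∑ x, WT J x ^ 2 * sgn (dot b x) = 0 := by
    have h3 : ∀ x, WT J x ^ 2 * sgn (dot b x) = 4096 * sgn (dot x b) := by
      intro x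
      rw [h.WTJ, dot_comm b x]
      have h4 : Ft x = 1 ∨ Ft x = -1 := by
        by_cases hx : x = 0
        · rw [hx]; exact h0
        · exact h.Ft1 x hx
      rcases h4 with h5 | h5 <;> rw [h5] <;> ring
    simp_rw [h3]
    rw [← Finset.mul_sum, sum_sgn_dot, if_neg hb, mul_zero]
  rw [h2] at h1
  linarith

/-- bound for the autocorrelation of `chi e` -/
theorem St.corr_bound {J Ft : V → ℤ} {e : V → ZMod 2} {s : V → ℤ} (h : St J Ft e s)
    (h0 : Ft 0 = 1 ∨ Ft 0 = -1) (b : V) (hb : b ≠ 0) :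
    |∑ a, chi e a * chi e (a + b)| < 256 := by
  have hs : ∑ a, s a = 64 := by
    rcases h.Ft0 with h1 | h1
    · exact h1.2
    · exfalso
      rcases h0 with h2 | h2 <;> rw [h2] at h1 <;> exact absurd h1.1 (by norm_num)
  have hs' : ∑ a, s (a + b) = 64 := by rw [sum_translate s b]; exact hs
  have hac := h.autocorr h0 b hb
  have hpt : ∀ a, 9 * (chi e a * chi e (a + b)) - 12 * (s a + s (a + b)) ≤ J a * J (a + b) ∧
      J a * J (a + b) ≤ 9 * (chi e a * chi e (a + b)) + 12 * (s a + s (a + b)) := by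
    intro a
    rw [h.Jeq a, h.Jeq (a + b)]
    unfold chi
    rcases sgn_eq_or (e a) with h1 | h1 <;> rcases sgn_eq_or (e (a + b)) with h2 | h2 <;>
      rcases h.s01 a with h3 | h3 <;> rcases h.s01 (a + b) with h4 | h4 <;>
      rw [h1, h2, h3, h4] <;> norm_num
  have hl := Finset.sum_le_sum fun a (_ : a ∈ (Finset.univ : Finset V)) => (hpt a).1
  have hu := Finset.sum_le_sum fun a (_ : a ∈ (Finset.univ : Finset V)) => (hpt a).2
  rw [Finset.sum_sub_distrib, ← Finset.mul_sum, ← Finset.mul_sum, Finset.sum_add_distrib, hs, hs',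
    hac] at hl
  rw [Finset.sum_add_distrib, ← Finset.mul_sum, ← Finset.mul_sum, Finset.sum_add_distrib, hs, hs',
    hac] at hu
  rw [abs_lt]
  constructor <;> linarith

end Pool.Agent.H.MP_694475_co
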