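import Pool.Agent.H.MP_694475_co.Mce

/-! The situation after step A2. -/

open Finset

namespace Pool.Agent.H.MP_694475_co

structure St (J Ft : V → ℤ) (e : V → ZMod 2) (s : V → ℤ) : Prop where
  deg : DegLT 4 e
  s01 : ∀ a, s a = 0 ∨ s a = 1
  Jeq : ∀ a, J a = sgn (e a) * (3 - 4 * s a)
  WTJ : ∀ x, WT J x = 64 * Ft x
  Ft1 : ∀ x, x ≠ 0 → Ft x = 1 ∨ Ft x = -1
  Ft0 : ((Ft 0 = 1 ∨ Ft 0 = -1) ∧ ∑ a, s a = 64) ∨ (Ft 0 = -3 ∧ ∑ a, s a = 56)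

end Pool.Agent.H.MP_694475_co
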