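import Pool.Agent.H.MP_694475_co.TriDef

/-! Symplectic bases. -/

open Finset

namespace Pool.Agent.H.MP_694475_co

private theorem symp_zero {ω : V → V → ZMod 2} (hadd : ∀ u u' w, ω (u + u') w = ω u w + ω u' w)
    (w : V) : ω 0 w = 0 := by
  have h := hadd 0 0 w
  rw [add_zero] at h
  exact left_eq_add.mp h

private theorem symp_smul {ω : V → V → ZMod 2} (hadd : ∀ u u' w, ω (u + u') w = ω u w + ω u' w)
    (x : ZMod 2) (u w : V) : ω (x • u) w = x * ω u w := by
  rcases zmod2_cases x with h | h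
  · subst h; rw [zero_smul, zero_mul, symp_zero hadd]
  · subst h; rw [one_smul, one_mul]

private theorem symp_sum {ω : V → V → ZMod 2} (hadd : ∀ u u' w, ω (u + u') w = ω u w + ω u' w)
    (s : Finset (Fin 9)) (f : Fin 9 → V) (w : V) : ω (∑ i ∈ s, f i) w = ∑ i ∈ s, ω (f i) w := by
  induction s using Finset.induction_on with
  | empty => simpa using symp_zero hadd w
  | insert i s hi ih => rw [Finset.sum_insert hi, Finset.sum_insert hi, hadd, ih]

private def SympSpan (b : Fin 9 → V) (w : V) : Prop := ∃ a : V, w = lin b a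

private theorem symp_span_mem (b : Fin 9 → V) (i : Fin 9) : SympSpan b (b i) :=
  ⟨E i, (lin_E b i).symm⟩

private theorem symp_span_add {b : Fin 9 → V} {x y : V} (hx : SympSpan b x) (hy : SympSpan b y) :
    SympSpan b (x + y) := by
  obtain ⟨a, rfl⟩ := hx
  obtain ⟨a', rfl⟩ := hy
  exact ⟨a + a', (lin_add b a a').symm⟩

private theorem symp_span_zero (b : Fin 9 → V) : SympSpan b 0 := ⟨0, by simp [lin]⟩

private theorem symp_span_smul {b : Fin 9 → V} (t : ZMod 2) {x : V} (hx : SympSpan b x) :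
    SympSpan b (t • x) := by
  rcases zmod2_cases t with h | h
  · subst h; rw [zero_smul]; exact symp_span_zero b
  · subst h; rw [one_smul]; exact hx

private theorem symp_span_sum {b : Fin 9 → V} (s : Finset (Fin 9)) (f : Fin 9 → V)
    (h : ∀ i ∈ s, SympSpan b (f i)) : SympSpan b (∑ i ∈ s, f i) := by
  induction s using Finset.induction_on with
  | empty => simpa using symp_span_zero b
  | insert i s hi ih =>
    rw [Finset.sum_insert hi]
    exact symp_span_add (h i (Finset.mem_insert_self _ _))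
      (ih fun j hj => h j (Finset.mem_insert_of_mem hj))

private theorem symp_dual_E : IsDual E E := by
  intro i j
  rw [dot_E]
  simp [E, Pi.single_apply, eq_comm]

private theorem symp_sum_E (v : V) : v = ∑ i, v i • E i := by
  funext j
  rw [Finset.sum_apply, Finset.sum_eq_single j]
  · simp [E]
  · intro i _ hi; simp [E, hi.symm]
  · simp

private theorem symp_init (v : V) (hv : v ≠ 0) : ∃ b c : Fin 9 → V, IsDual b c ∧ b 0 = v := by
  obtain ⟨i0, hi0⟩ : ∃ i, v i ≠ 0 := by
    by_contra hc; push Not at hc; exact hv (funext hc)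
  have hi1 : v i0 = 1 := (zmod2_cases (v i0)).resolve_left hi0
  let b : Fin 9 → V := fun k => if k = 0 then v else E (Equiv.swap 0 i0 k)
  have hb0 : b 0 = v := if_pos rfl
  have hbi : ∀ i, i ≠ i0 → SympSpan b (E i) := by
    intro i hi
    have h1 : Equiv.swap 0 i0 i ≠ 0 := by
      intro hc
      apply hi
      have := congrArg (Equiv.swap 0 i0) hc
      rw [Equiv.swap_apply_self, Equiv.swap_apply_left] at this
      exact this
    have h2 : b (Equiv.swap 0 i0 i) = E i := by
      show (if Equiv.swap 0 i0 i = 0 then v else E (Equiv.swap 0 i0 (Equiv.swap 0 i0 i))) = E i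
      rw [if_neg h1, Equiv.swap_apply_self]
    rw [← h2]; exact symp_span_mem b _
  have hi : SympSpan b (E i0) := by
    have h1 : E i0 = v + ∑ i ∈ univ.erase i0, v i • E i := by
      have h2 := symp_sum_E v
      rw [← Finset.add_sum_erase _ _ (Finset.mem_univ i0), hi1, one_smul] at h2
      conv_rhs => rw [h2]
      rw [add_assoc]
      have h3 : ∀ S : V, E i0 = E i0 + (S + S) := by
        intro S; rw [add_self_V, add_zero]
      have h4 := h3 (∑ i ∈ univ.erase i0, v i • E i)
      convert h4 using 3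
      refine Finset.sum_congr rfl fun i _ => ?_
      rw [← h2]
    rw [h1]
    refine symp_span_add ?_ (symp_span_sum _ _ fun i hi => ?_)
    · rw [← hb0]; exact symp_span_mem b 0
    · exact symp_span_smul _ (hbi i (Finset.ne_of_mem_erase hi))
  obtain ⟨c, hc⟩ := exists_dual_of_span symp_dual_E b (fun i => by
    by_cases h : i = i0
    · subst h; exact hi
    · exact hbi i h)
  exact ⟨b, c, hc, hb0⟩

private theorem symp_std_symm (k : ℕ) (i j : Fin 9) : std k i j = std k j i := by
  unfold std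
  congr 1
  exact propext or_comm

private theorem symp_std_zero {k : ℕ} {i j : Fin 9} (hj : 2 * k < j.val) : std k i j = 0 := by
  unfold std
  rw [if_neg]
  omega

private theorem symp_std_succ {k : ℕ} {i j : Fin 9} (hi : i.val ≤ 2 * k) :
    std (k + 1) i j = std k i j := by
  unfold std
  congr 1
  apply propext
  constructor
  · intro h; omega
  · intro h; omega

private structure GoodK (ω : V → V → ZMod 2) (v : V) (k : ℕ) (b c : Fin 9 → V) : Prop where
  dual : IsDual b c
  b0 : b 0 = v
  gram : ∀ i j : Fin 9, 1 ≤ i.val → i.val ≤ 2 * k → ω (b i) (b j) = std k i j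

private theorem symp_finish {ω : V → V → ZMod 2} (hsymm : ∀ u w, ω u w = ω w u) {v : V}
    (hrad : ∀ w, ω v w = 0) {k : ℕ} {b c : Fin 9 → V} (hg : GoodK ω v k b c)
    (h0 : ∀ i j : Fin 9, 2 * k < i.val → 2 * k < j.val → ω (b i) (b j) = 0) (i j : Fin 9) :
    ω (b i) (b j) = std k i j := by
  have hz : ∀ i j : Fin 9, i.val = 0 → ω (b i) (b j) = std k i j := by
    intro i j hi
    have : i = 0 := Fin.ext hi
    subst this
    rw [hg.b0, hrad]
    unfold std
    rw [if_neg]
    simp
  by_cases h1 : i.val = 0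
  · exact hz i j h1
  by_cases h2 : i.val ≤ 2 * k
  · exact hg.gram i j (by omega) h2
  by_cases h3 : j.val = 0
  · rw [hsymm, symp_std_symm]; exact hz j i h3
  by_cases h4 : j.val ≤ 2 * k
  · rw [hsymm, symp_std_symm]; exact hg.gram j i (by omega) h4
  rw [h0 i j (by omega) (by omega), symp_std_zero (by omega)]

/-- the permutation moving `i`, `j` to the positions `p`, `q` -/
private theorem symp_perm {n : ℕ} {p q i j : Fin 9} (hpq : p ≠ q) (hij : i ≠ j)
    (hp : n < p.val) (hq : n < q.val) (hi : n < i.val) (hj : n < j.val) :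
    ∃ σ : Equiv.Perm (Fin 9), σ p = i ∧ σ q = j ∧ ∀ m : Fin 9, m.val ≤ n → σ m = m := by
  have hj' : Equiv.swap p i j ≠ p := by
    intro hc
    have := congrArg (Equiv.swap p i) hc
    rw [Equiv.swap_apply_self, Equiv.swap_apply_left] at this
    exact hij this.symm
  have hjn : n < (Equiv.swap p i j).val := by
    by_cases h1 : j = p
    · rw [h1, Equiv.swap_apply_left]; exact hi
    · rw [Equiv.swap_apply_of_ne_of_ne h1 (Ne.symm hij)]; exact hj
  refine ⟨Equiv.swap p i * Equiv.swap q (Equiv.swap p i j), ?_, ?_, ?_⟩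
  · rw [Equiv.Perm.mul_apply, Equiv.swap_apply_of_ne_of_ne hpq (Ne.symm hj'),
      Equiv.swap_apply_left]
  · rw [Equiv.Perm.mul_apply, Equiv.swap_apply_left, Equiv.swap_apply_self]
  · intro m hm
    have h1 : m ≠ q := fun h => by rw [h] at hm; omega
    have h2 : m ≠ Equiv.swap p i j := fun h => by rw [h] at hm; omega
    have h3 : m ≠ p := fun h => by rw [h] at hm; omega
    have h4 : m ≠ i := fun h => by rw [h] at hm; omega
    rw [Equiv.Perm.mul_apply, Equiv.swap_apply_of_ne_of_ne h1 h2,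
      Equiv.swap_apply_of_ne_of_ne h3 h4]

private theorem symp_step {ω : V → V → ZMod 2}
    (hadd : ∀ u u' w, ω (u + u') w = ω u w + ω u' w)
    (hsymm : ∀ u w, ω u w = ω w u) (halt : ∀ u, ω u u = 0) {v : V}
    (hrad : ∀ w, ω v w = 0) {k : ℕ} (hk : k ≤ 3) {b c : Fin 9 → V} (hg : GoodK ω v k b c)
    {i j : Fin 9} (hi : 2 * k < i.val) (hj : 2 * k < j.val) (hij : ω (b i) (b j) ≠ 0) :
    ∃ b' c' : Fin 9 → V, GoodK ω v (k + 1) b' c' := by
  have hne : i ≠ j := by
    intro hc; subst hc; exact hij (halt _)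
  have hij1 : ω (b i) (b j) = 1 := (zmod2_cases _).resolve_left hij
  obtain ⟨p, hp⟩ : ∃ p : Fin 9, p.val = 2 * k + 1 := ⟨⟨2 * k + 1, by omega⟩, rfl⟩
  obtain ⟨q, hq⟩ : ∃ q : Fin 9, q.val = 2 * k + 2 := ⟨⟨2 * k + 2, by omega⟩, rfl⟩
  have hpq : p ≠ q := by intro hc; rw [hc] at hp; omega
  obtain ⟨σ, hσp, hσq, hσ⟩ := symp_perm (n := 2 * k) hpq hne (by omega) (by omega) hi hj
  have hσbig : ∀ m : Fin 9, 2 * k < m.val → 2 * k < (σ m).val := by
    intro m hm
    by_contra hc
    have h1 := hσ (σ m) (by omega)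
    have h2 := σ.injective h1
    rw [h2] at hc
    exact hc hm
  have hd1 : IsDual (fun m => b (σ m)) (fun m => c (σ m)) := hg.dual.perm σ σ.injective
  obtain ⟨b1, hb1⟩ : ∃ b1 : Fin 9 → V, b1 = fun m => b (σ m) := ⟨_, rfl⟩
  rw [← hb1] at hd1
  have hb10 : b1 0 = v := by
    rw [hb1]
    show b (σ 0) = v
    rw [hσ 0 (by simp)]; exact hg.b0
  have hgram1 : ∀ i j : Fin 9, 1 ≤ i.val → i.val ≤ 2 * k → ω (b1 i) (b1 j) = std k i j := by
    intro i j h1 h2
    rw [hb1]
    show ω (b (σ i)) (b (σ j)) = std k i j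
    rw [hσ i h2, hg.gram i (σ j) h1 h2]
    by_cases h3 : j.val ≤ 2 * k
    · rw [hσ j h3]
    · rw [symp_std_zero (show 2 * k < j.val by omega), symp_std_zero (hσbig j (by omega))]
  have hpq1 : ω (b1 p) (b1 q) = 1 := by
    rw [hb1]
    show ω (b (σ p)) (b (σ q)) = 1
    rw [hσp, hσq]; exact hij1
  have hqp1 : ω (b1 q) (b1 p) = 1 := by rw [hsymm]; exact hpq1
  obtain ⟨b', hb'⟩ : ∃ b' : Fin 9 → V, b' = fun m => if m.val ≤ 2 * k + 2 then b1 m
    else b1 m + ω (b1 m) (b1 q) • b1 p + ω (b1 m) (b1 p) • b1 q := ⟨_, rfl⟩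
  have hs : ∀ m : Fin 9, m.val ≤ 2 * k + 2 → b' m = b1 m := by
    intro m hm; rw [hb']; exact if_pos hm
  have hl : ∀ m : Fin 9, ¬ m.val ≤ 2 * k + 2 →
      b' m = b1 m + ω (b1 m) (b1 q) • b1 p + ω (b1 m) (b1 p) • b1 q := by
    intro m hm; rw [hb']; exact if_neg hm
  have hexp : ∀ m : Fin 9, ¬ m.val ≤ 2 * k + 2 → ∀ w, ω (b' m) w
      = ω (b1 m) w + ω (b1 m) (b1 q) * ω (b1 p) w + ω (b1 m) (b1 p) * ω (b1 q) w := by
    intro m hm w
    rw [hl m hm, hadd, hadd, symp_smul hadd, symp_smul hadd]
  have hspan : ∀ m, SympSpan b' (b1 m) := by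
    intro m
    by_cases hm : m.val ≤ 2 * k + 2
    · rw [← hs m hm]; exact symp_span_mem b' m
    · have h1 : b1 m = b' m + (ω (b1 m) (b1 q) • b' p + ω (b1 m) (b1 p) • b' q) := by
        rw [hl m hm, hs p (by omega), hs q (by omega), add_assoc (b1 m), add_assoc (b1 m),
          add_self_V, add_zero]
      rw [h1]
      exact symp_span_add (symp_span_mem b' m) (symp_span_add
        (symp_span_smul _ (symp_span_mem b' p)) (symp_span_smul _ (symp_span_mem b' q)))
  obtain ⟨c', hc'⟩ := exists_dual_of_span hd1 b' hspan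
  refine ⟨b', c', hc', ?_, ?_⟩
  · rw [hs 0 (by simp)]; exact hb10
  · intro i j h1 h2
    rw [hs i (by omega)]
    have hpcase : ∀ m : Fin 9, m.val = 2 * k + 1 → m = p := fun m hm => Fin.ext (by omega)
    have hqcase : ∀ m : Fin 9, m.val = 2 * k + 2 → m = q := fun m hm => Fin.ext (by omega)
    by_cases hj : j.val ≤ 2 * k + 2
    · rw [hs j hj]
      by_cases hi : i.val ≤ 2 * k
      · rw [hgram1 i j h1 hi, symp_std_succ hi]
      · by_cases hj0 : j.val = 0
        · have : j = 0 := Fin.ext hj0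
          subst this
          rw [hb10, hsymm, hrad, symp_std_symm, symp_std_succ (by simp)]
          unfold std
          rw [if_neg]
          simp
        by_cases hj1 : j.val ≤ 2 * k
        · rw [hsymm, hgram1 j i (by omega) hj1, symp_std_symm (k + 1), symp_std_succ hj1]
        · have hi' : i = p ∨ i = q := by
            by_cases h : i.val = 2 * k + 1
            · exact Or.inl (hpcase i h)
            · exact Or.inr (hqcase i (by omega))
          have hj' : j = p ∨ j = q := by
            by_cases h : j.val = 2 * k + 1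
            · exact Or.inl (hpcase j h)
            · exact Or.inr (hqcase j (by omega))
          rcases hi' with rfl | rfl <;> rcases hj' with rfl | rfl
          · rw [halt]; unfold std; rw [if_neg]; omega
          · rw [hpq1]; unfold std; rw [if_pos]; omega
          · rw [hqp1]; unfold std; rw [if_pos]; omega
          · rw [halt]; unfold std; rw [if_neg]; omega
    · rw [hsymm, hexp j hj, symp_std_zero (by omega)]
      by_cases hi : i.val ≤ 2 * k
      · rw [hsymm (b1 j) (b1 i), hsymm (b1 p) (b1 i), hsymm (b1 q) (b1 i),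
          hgram1 i j h1 hi, hgram1 i p h1 hi, hgram1 i q h1 hi,
          symp_std_zero (by omega), symp_std_zero (by omega), symp_std_zero (by omega)]
        ring
      · have hi' : i = p ∨ i = q := by
          by_cases h : i.val = 2 * k + 1
          · exact Or.inl (hpcase i h)
          · exact Or.inr (hqcase i (by omega))
        rcases hi' with rfl | rfl
        · rw [halt, hqp1, mul_zero, mul_one, add_zero]; exact add_self_zmod2 _
        · rw [halt, hpq1, mul_zero, mul_one, add_zero]; exact add_self_zmod2 _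

theorem symp (ω : V → V → ZMod 2) (hadd : ∀ u u' w, ω (u + u') w = ω u w + ω u' w)
    (hsymm : ∀ u w, ω u w = ω w u) (halt : ∀ u, ω u u = 0) (v : V) (hv : v ≠ 0)
    (hrad : ∀ w, ω v w = 0) :
    ∃ b c : Fin 9 → V, IsDual b c ∧ b 0 = v ∧
      ∃ h ≤ 4, ∀ i j, ω (b i) (b j) = std h i j := by
  have key : ∀ n k : ℕ, k + n = 4 → (∃ b c : Fin 9 → V, GoodK ω v k b c) →
      ∃ b c : Fin 9 → V, IsDual b c ∧ b 0 = v ∧
      ∃ h ≤ 4, ∀ i j, ω (b i) (b j) = std h i j := by
    intro n
    induction n with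
    | zero =>
      rintro k hk ⟨b, c, hg⟩
      exact ⟨b, c, hg.dual, hg.b0, k, by omega, symp_finish hsymm hrad hg (by intro i j hi; omega)⟩
    | succ n ih =>
      rintro k hk ⟨b, c, hg⟩
      by_cases h0 : ∀ i j : Fin 9, 2 * k < i.val → 2 * k < j.val → ω (b i) (b j) = 0
      · exact ⟨b, c, hg.dual, hg.b0, k, by omega, symp_finish hsymm hrad hg h0⟩
      · push Not at h0
        obtain ⟨i, j, hi, hj, hij⟩ := h0
        exact ih (k + 1) (by omega)
          (symp_step hadd hsymm halt hrad (by omega) hg hi hj hij)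
  obtain ⟨b, c, hbc, hb0⟩ := symp_init v hv
  exact key 4 0 rfl ⟨b, c, hbc, hb0, by intro i j h1 h2; omega⟩

/-- the size of the radical -/
theorem std_radical (ω : V → V → ZMod 2) (hadd : ∀ u u' w, ω (u + u') w = ω u w + ω u' w)
    (hsymm : ∀ u w, ω u w = ω w u) {b c : Fin 9 → V} (hbc : IsDual b c) (h : ℕ) (hh : h ≤ 4)
    (hst : ∀ i j, ω (b i) (b j) = std h i j) :
    (univ.filter (fun w => ∀ u, ω w u = 0)).card = 2 ^ (9 - 2 * h) := by
  have hlin : ∀ a w, ω (lin b a) w = ∑ i, a i * ω (b i) w := by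
    intro a w
    unfold lin
    rw [symp_sum hadd]
    exact Finset.sum_congr rfl fun i _ => symp_smul hadd _ _ _
  have hcond : ∀ a : V, (∀ u, ω (lin b a) u = 0) ↔
      ∀ i : Fin 9, 1 ≤ i.val → i.val ≤ 2 * h → a i = 0 := by
    intro a
    constructor
    · intro hu i h1 h2
      have hpart : ∃ j : Fin 9, (i.val % 2 = 1 ∧ j.val = i.val + 1) ∨
          (i.val % 2 = 0 ∧ j.val + 1 = i.val) := by
        by_cases hi : i.val % 2 = 1
        · exact ⟨⟨i.val + 1, by omega⟩, Or.inl ⟨hi, rfl⟩⟩
        · exact ⟨⟨i.val - 1, by omega⟩, Or.inr ⟨by omega, by simp; omega⟩⟩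
      obtain ⟨j, hj⟩ := hpart
      have h3 := hu (b j)
      rw [hlin, Finset.sum_eq_single i] at h3
      · rw [hst] at h3
        have h4 : std h i j = 1 := by unfold std; rw [if_pos]; omega
        rw [h4, mul_one] at h3
        exact h3
      · intro m _ hm
        have h5 : m.val ≠ i.val := fun hc => hm (Fin.ext hc)
        have h4 : std h m j = 0 := by unfold std; rw [if_neg]; omega
        rw [hst, h4, mul_zero]
      · intro hc; exact absurd (Finset.mem_univ i) hc
    · intro ha u
      have h1 : ∀ j, ω (lin b a) (b j) = 0 := by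
        intro j
        rw [hlin]
        refine Finset.sum_eq_zero fun i _ => ?_
        rw [hst]
        by_cases hi : 1 ≤ i.val ∧ i.val ≤ 2 * h
        · rw [ha i hi.1 hi.2, zero_mul]
        · have h4 : std h i j = 0 := by unfold std; rw [if_neg]; omega
          rw [h4, mul_zero]
      rw [hsymm, hbc.expand u, symp_sum hadd]
      refine Finset.sum_eq_zero fun j _ => ?_
      rw [symp_smul hadd, hsymm, h1, mul_zero]
  have himg : univ.filter (fun w => ∀ u, ω w u = 0)
      = (cube (univ.filter (fun i : Fin 9 => ¬ (1 ≤ i.val ∧ i.val ≤ 2 * h)))).image (lin b) := by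
    ext w
    rw [Finset.mem_filter, Finset.mem_image]
    have hmem : ∀ a : V, a ∈ cube (univ.filter (fun i : Fin 9 => ¬ (1 ≤ i.val ∧ i.val ≤ 2 * h)))
        ↔ ∀ i : Fin 9, 1 ≤ i.val → i.val ≤ 2 * h → a i = 0 := by
      intro a
      simp [cube]
    constructor
    · rintro ⟨_, hw⟩
      obtain ⟨a, rfl⟩ := (lin_bijective hbc).2 w
      exact ⟨a, (hmem a).mpr ((hcond a).mp hw), rfl⟩
    · rintro ⟨a, ha, rfl⟩
      exact ⟨Finset.mem_univ _, (hcond a).mpr ((hmem a).mp ha)⟩
  rw [himg, Finset.card_image_of_injective _ (lin_bijective hbc).1, card_cube]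
  congr 1
  interval_cases h <;> decide

end Pool.Agent.H.MP_694475_co
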