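import Pool.Agent.H.MP_694475_co.TriDef

/-! Rank 6, first case: some nonzero member of the net is degenerate. -/

open Finset

namespace Pool.Agent.H.MP_694475_co

/-- Pfaffian of an alternating form on the indices `1..6` -/
def pf6 (a : Fin 9 → Fin 9 → ZMod 2) : ZMod 2 :=
  a 1 2 * (a 3 4 * a 5 6 + a 3 5 * a 4 6 + a 3 6 * a 4 5)
  + a 1 3 * (a 2 4 * a 5 6 + a 2 5 * a 4 6 + a 2 6 * a 4 5)
  + a 1 4 * (a 2 3 * a 5 6 + a 2 5 * a 3 6 + a 2 6 * a 3 5)
  + a 1 5 * (a 2 3 * a 4 6 + a 2 4 * a 3 6 + a 2 6 * a 3 4)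
  + a 1 6 * (a 2 3 * a 4 5 + a 2 4 * a 3 5 + a 2 5 * a 3 4)

private theorem threea1_std : ∀ i j : Fin 9, std 3 i j = if (i = 1 ∧ j = 2) ∨ (i = 2 ∧ j = 1) ∨
    (i = 3 ∧ j = 4) ∨ (i = 4 ∧ j = 3) ∨ (i = 5 ∧ j = 6) ∨ (i = 6 ∧ j = 5) then 1 else 0 := by
  decide

private theorem threea1_std0 : ∀ i j : Fin 9, 0 < i → i < j →
    ¬ ((i = 1 ∧ j = 2) ∨ (i = 3 ∧ j = 4) ∨ (i = 5 ∧ j = 6)) → std 3 i j = 0 := by
  decide

private theorem threea1_key (a b : Fin 9 → Fin 9 → ZMod 2)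
    (hk : (a 3 4 * b 5 6 + b 3 4 * a 5 6 + a 3 5 * b 4 6 + b 3 5 * a 4 6 + a 3 6 * b 4 5
        + b 3 6 * a 4 5)
      + (a 1 2 * b 5 6 + b 1 2 * a 5 6 + a 1 5 * b 2 6 + b 1 5 * a 2 6 + a 1 6 * b 2 5
        + b 1 6 * a 2 5)
      + (a 1 2 * b 3 4 + b 1 2 * a 3 4 + a 1 3 * b 2 4 + b 1 3 * a 2 4 + a 1 4 * b 2 3
        + b 1 4 * a 2 3) = 0) :
    pf6 (fun i j => std 3 i j) + pf6 a + pf6 b + pf6 (fun i j => std 3 i j + a i j)
      + pf6 (fun i j => std 3 i j + b i j) + pf6 (fun i j => a i j + b i j)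
      + pf6 (fun i j => std 3 i j + a i j + b i j) = 0 := by
  have e12 : std 3 1 2 = 1 := by decide
  have e34 : std 3 3 4 = 1 := by decide
  have e56 : std 3 5 6 = 1 := by decide
  have e13 : std 3 1 3 = 0 := by decide
  have e14 : std 3 1 4 = 0 := by decide
  have e15 : std 3 1 5 = 0 := by decide
  have e16 : std 3 1 6 = 0 := by decide
  have e23 : std 3 2 3 = 0 := by decide
  have e24 : std 3 2 4 = 0 := by decide
  have e25 : std 3 2 5 = 0 := by decide
  have e26 : std 3 2 6 = 0 := by decide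
  have e35 : std 3 3 5 = 0 := by decide
  have e36 : std 3 3 6 = 0 := by decide
  have e45 : std 3 4 5 = 0 := by decide
  have e46 : std 3 4 6 = 0 := by decide
  have h2 : (2 : ZMod 2) = 0 := by decide
  rw [← hk]
  unfold pf6
  simp only [e12, e34, e56, e13, e14, e15, e16, e23, e24, e25, e26, e35, e36, e45, e46]
  generalize a 1 2 = a12
  generalize a 1 3 = a13
  generalize a 1 4 = a14
  generalize a 1 5 = a15
  generalize a 1 6 = a16
  generalize a 2 3 = a23
  generalize a 2 4 = a24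
  generalize a 2 5 = a25
  generalize a 2 6 = a26
  generalize a 3 4 = a34
  generalize a 3 5 = a35
  generalize a 3 6 = a36
  generalize a 4 5 = a45
  generalize a 4 6 = a46
  generalize a 5 6 = a56
  generalize b 1 2 = b12
  generalize b 1 3 = b13
  generalize b 1 4 = b14
  generalize b 1 5 = b15
  generalize b 1 6 = b16
  generalize b 2 3 = b23
  generalize b 2 4 = b24
  generalize b 2 5 = b25
  generalize b 2 6 = b26
  generalize b 3 4 = b34
  generalize b 3 5 = b35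
  generalize b 3 6 = b36
  generalize b 4 5 = b45
  generalize b 4 6 = b46
  generalize b 5 6 = b56
  clear hk e12 e34 e56 e13 e14 e15 e16 e23 e24 e25 e26 e35 e36 e45 e46
  rw [← sub_eq_zero]
  ring_nf
  reduce_mod_char

/-- some nonzero member of the net is degenerate -/
theorem net_degenerate {t t' : Fin 9 → Fin 9 → Fin 9 → ZMod 2} (h : RelT t t')
    (h0 : ∀ i j, t 0 i j = std 3 i j) (hl : ∀ k, t 7 8 k = 0) :
    ∃ α β γ : ZMod 2, (α, β, γ) ≠ 0 ∧
      pf6 (fun i j => α * t 0 i j + β * t 7 i j + γ * t 8 i j) = 0 := by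
  have r7 : ∀ i j, t i j 7 = t 7 i j := fun i j => by rw [h.sw23 i j 7, h.sw12 i 7 j]
  have r8 : ∀ i j, t i j 8 = t 8 i j := fun i j => by rw [h.sw23 i j 8, h.sw12 i 8 j]
  have r78 : ∀ i, t i 7 8 = 0 := fun i => by rw [h.sw12, h.sw23, hl]
  have r87 : ∀ i, t 8 i 7 = 0 := fun i => by rw [h.sw23, h.sw12, hl]
  have hk := h.kap' (fun i j hi hj hn => by rw [h0]; exact threea1_std0 i j hi hj hn)
  have e12 : t 0 1 2 = 1 := by rw [h0]; decide
  have e34 : t 0 3 4 = 1 := by rw [h0]; decide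
  have e56 : t 0 5 6 = 1 := by rw [h0]; decide
  rw [e12, e34, e56, one_mul, one_mul, one_mul, h.fwd 0 1 2 3 4 5 6 7 8 (by decide),
    h.fwd 0 3 4 1 2 5 6 7 8 (by decide), h.fwd 0 5 6 1 2 3 4 7 8 (by decide)] at hk
  unfold DD at hk
  simp only [r78, r7, r8, mul_zero, zero_mul, add_zero, zero_add] at hk
  by_contra hcon
  push Not at hcon
  have key : ∀ α β γ : ZMod 2, (α, β, γ) ≠ 0 →
      pf6 (fun i j => α * t 0 i j + β * t 7 i j + γ * t 8 i j) = 1 := by
    intro α β γ hne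
    rcases zmod2_cases (pf6 (fun i j => α * t 0 i j + β * t 7 i j + γ * t 8 i j)) with h1 | h1
    · exact absurd h1 (hcon α β γ hne)
    · exact h1
  have k1 := key 1 0 0 (by decide)
  have k2 := key 0 1 0 (by decide)
  have k3 := key 0 0 1 (by decide)
  have k4 := key 1 1 0 (by decide)
  have k5 := key 1 0 1 (by decide)
  have k6 := key 0 1 1 (by decide)
  have k7 := key 1 1 1 (by decide)
  simp only [zero_mul, one_mul, zero_add, add_zero, h0] at k1 k2 k3 k4 k5 k6 k7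
  have := threea1_key (t 7) (t 8) (by rw [← hk])
  rw [k1, k4, k5, k6, k7] at this
  have k2' : pf6 (t 7) = 1 := k2
  have k3' : pf6 (t 8) = 1 := k3
  rw [k2', k3'] at this
  revert this
  decide

end Pool.Agent.H.MP_694475_co
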