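import Pool.Agent.H.MP_694475_co.ThreeA1

/-! The radical of a degenerate alternating form on `F_2^6`. -/

open Finset

namespace Pool.Agent.H.MP_694475_co

private theorem threea2_four : ∀ f12 f13 f14 f23 f24 f34 : ZMod 2,
    f12 * f34 + f13 * f24 + f14 * f23 = 0 →
    ∃ x1 x2 x3 x4 : ZMod 2, (x1 ≠ 0 ∨ x2 ≠ 0 ∨ x3 ≠ 0 ∨ x4 ≠ 0) ∧
      x2 * f12 + x3 * f13 + x4 * f14 = 0 ∧ x1 * f12 + x3 * f23 + x4 * f24 = 0 ∧
      x1 * f13 + x2 * f23 + x4 * f34 = 0 ∧ x1 * f14 + x2 * f24 + x3 * f34 = 0 := by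
  decide

private theorem threea2_elim (a12 a13 a14 a15 a16 a23 a24 a25 a26 a34 a35 a36 a45 a46 a56 : ZMod 2)
    (h12 : a12 = 1)
    (hp : a12 * (a34 * a56 + a35 * a46 + a36 * a45)
      + a13 * (a24 * a56 + a25 * a46 + a26 * a45)
      + a14 * (a23 * a56 + a25 * a36 + a26 * a35)
      + a15 * (a23 * a46 + a24 * a36 + a26 * a34)
      + a16 * (a23 * a45 + a24 * a35 + a25 * a34) = 0) :
    ∃ x1 x2 x3 x4 x5 x6 : ZMod 2, (x3 ≠ 0 ∨ x4 ≠ 0 ∨ x5 ≠ 0 ∨ x6 ≠ 0) ∧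
      x2 * a12 + x3 * a13 + x4 * a14 + x5 * a15 + x6 * a16 = 0 ∧
      x1 * a12 + x3 * a23 + x4 * a24 + x5 * a25 + x6 * a26 = 0 ∧
      x1 * a13 + x2 * a23 + x4 * a34 + x5 * a35 + x6 * a36 = 0 ∧
      x1 * a14 + x2 * a24 + x3 * a34 + x5 * a45 + x6 * a46 = 0 ∧
      x1 * a15 + x2 * a25 + x3 * a35 + x4 * a45 + x6 * a56 = 0 ∧
      x1 * a16 + x2 * a26 + x3 * a36 + x4 * a46 + x5 * a56 = 0 := by
  subst h12
  obtain ⟨x3, x4, x5, x6, hne, e3, e4, e5, e6⟩ := threea2_four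
    (a34 + a23 * a14 + a13 * a24) (a35 + a23 * a15 + a13 * a25) (a36 + a23 * a16 + a13 * a26)
    (a45 + a24 * a15 + a14 * a25) (a46 + a24 * a16 + a14 * a26) (a56 + a25 * a16 + a15 * a26)
    (by
      rw [← hp, ← sub_eq_zero]
      ring_nf
      reduce_mod_char)
  refine ⟨x3 * a23 + x4 * a24 + x5 * a25 + x6 * a26, x3 * a13 + x4 * a14 + x5 * a15 + x6 * a16,
    x3, x4, x5, x6, hne, ?_, ?_, ?_, ?_, ?_, ?_⟩
  · ring_nf; reduce_mod_char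
  · ring_nf; reduce_mod_char
  · rw [← e3, ← sub_eq_zero]; ring_nf; reduce_mod_char
  · rw [← e4, ← sub_eq_zero]; ring_nf; reduce_mod_char
  · rw [← e5, ← sub_eq_zero]; ring_nf; reduce_mod_char
  · rw [← e6, ← sub_eq_zero]; ring_nf; reduce_mod_char

private theorem threea2_wrap (a : Fin 9 → Fin 9 → ZMod 2) (hs : ∀ i j, a i j = a j i)
    (ha : ∀ i, a i i = 0) (x1 x2 x3 x4 x5 x6 : ZMod 2)
    (hne : x1 ≠ 0 ∨ x2 ≠ 0 ∨ x3 ≠ 0 ∨ x4 ≠ 0 ∨ x5 ≠ 0 ∨ x6 ≠ 0)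
    (e1 : x2 * a 1 2 + x3 * a 1 3 + x4 * a 1 4 + x5 * a 1 5 + x6 * a 1 6 = 0)
    (e2 : x1 * a 1 2 + x3 * a 2 3 + x4 * a 2 4 + x5 * a 2 5 + x6 * a 2 6 = 0)
    (e3 : x1 * a 1 3 + x2 * a 2 3 + x4 * a 3 4 + x5 * a 3 5 + x6 * a 3 6 = 0)
    (e4 : x1 * a 1 4 + x2 * a 2 4 + x3 * a 3 4 + x5 * a 4 5 + x6 * a 4 6 = 0)
    (e5 : x1 * a 1 5 + x2 * a 2 5 + x3 * a 3 5 + x4 * a 4 5 + x6 * a 5 6 = 0)
    (e6 : x1 * a 1 6 + x2 * a 2 6 + x3 * a 3 6 + x4 * a 4 6 + x5 * a 5 6 = 0) :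
    ∃ u : Fin 9 → ZMod 2, (u 0 = 0 ∧ u 7 = 0 ∧ u 8 = 0) ∧ (∃ i, u i ≠ 0) ∧
      ∀ j : Fin 9, j ≠ 0 → j ≠ 7 → j ≠ 8 → ∑ i, u i * a i j = 0 := by
  refine ⟨![0, x1, x2, x3, x4, x5, x6, 0, 0], ⟨rfl, rfl, rfl⟩, ?_, ?_⟩
  · rcases hne with h | h | h | h | h | h
    · exact ⟨1, h⟩
    · exact ⟨2, h⟩
    · exact ⟨3, h⟩
    · exact ⟨4, h⟩
    · exact ⟨5, h⟩
    · exact ⟨6, h⟩
  · intro j h0 h7 h8
    have hsum : ∑ i, (![0, x1, x2, x3, x4, x5, x6, 0, 0] : Fin 9 → ZMod 2) i * a i j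
        = x1 * a 1 j + x2 * a 2 j + x3 * a 3 j + x4 * a 4 j + x5 * a 5 j + x6 * a 6 j := by
      rw [Fin.sum_univ_succ, Fin.sum_univ_eight]
      change 0 * a 0 j + (x1 * a 1 j + x2 * a 2 j + x3 * a 3 j + x4 * a 4 j + x5 * a 5 j
        + x6 * a 6 j + 0 * a 7 j + 0 * a 8 j) = _
      ring
    rw [hsum]
    have hj : j = 1 ∨ j = 2 ∨ j = 3 ∨ j = 4 ∨ j = 5 ∨ j = 6 := by
      clear hsum
      revert j; decide
    rcases hj with rfl | rfl | rfl | rfl | rfl | rfl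
    · rw [ha, hs 2 1, hs 3 1, hs 4 1, hs 5 1, hs 6 1]
      linear_combination e1
    · rw [ha, hs 3 2, hs 4 2, hs 5 2, hs 6 2]
      linear_combination e2
    · rw [ha, hs 4 3, hs 5 3, hs 6 3]
      linear_combination e3
    · rw [ha, hs 5 4, hs 6 4]
      linear_combination e4
    · rw [ha, hs 6 5]
      linear_combination e5
    · rw [ha]
      linear_combination e6

/-- a degenerate alternating form on `F_2^6` has a nontrivial radical -/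
theorem pf6_radical (a : Fin 9 → Fin 9 → ZMod 2) (hs : ∀ i j, a i j = a j i)
    (ha : ∀ i, a i i = 0) (hp : pf6 a = 0) :
    ∃ u : Fin 9 → ZMod 2, (u 0 = 0 ∧ u 7 = 0 ∧ u 8 = 0) ∧ (∃ i, u i ≠ 0) ∧
      ∀ j : Fin 9, j ≠ 0 → j ≠ 7 → j ≠ 8 → ∑ i, u i * a i j = 0 := by
  unfold pf6 at hp
  by_cases h2 : a 1 2 = 1
  · obtain ⟨x1, x2, x3, x4, x5, x6, hne, e1, e2, e3, e4, e5, e6⟩ := threea2_elim
      (a 1 2) (a 1 3) (a 1 4) (a 1 5) (a 1 6) (a 2 3) (a 2 4) (a 2 5) (a 2 6)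
      (a 3 4) (a 3 5) (a 3 6) (a 4 5) (a 4 6) (a 5 6) h2 hp
    exact threea2_wrap a hs ha x1 x2 x3 x4 x5 x6 (Or.inr (Or.inr hne)) e1 e2 e3 e4 e5 e6
  by_cases h3 : a 1 3 = 1
  · obtain ⟨x1, x3, x2, x4, x5, x6, hne, e1, e3, e2, e4, e5, e6⟩ := threea2_elim
      (a 1 3) (a 1 2) (a 1 4) (a 1 5) (a 1 6) (a 2 3) (a 3 4) (a 3 5) (a 3 6)
      (a 2 4) (a 2 5) (a 2 6) (a 4 5) (a 4 6) (a 5 6) h3 (by linear_combination hp)
    refine threea2_wrap a hs ha x1 x2 x3 x4 x5 x6 ?_ (by linear_combination e1)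
      (by linear_combination e2) (by linear_combination e3) (by linear_combination e4)
      (by linear_combination e5) (by linear_combination e6)
    tauto
  by_cases h4 : a 1 4 = 1
  · obtain ⟨x1, x4, x2, x3, x5, x6, hne, e1, e4, e2, e3, e5, e6⟩ := threea2_elim
      (a 1 4) (a 1 2) (a 1 3) (a 1 5) (a 1 6) (a 2 4) (a 3 4) (a 4 5) (a 4 6)
      (a 2 3) (a 2 5) (a 2 6) (a 3 5) (a 3 6) (a 5 6) h4 (by linear_combination hp)
    refine threea2_wrap a hs ha x1 x2 x3 x4 x5 x6 ?_ (by linear_combination e1)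
      (by linear_combination e2) (by linear_combination e3) (by linear_combination e4)
      (by linear_combination e5) (by linear_combination e6)
    tauto
  by_cases h5 : a 1 5 = 1
  · obtain ⟨x1, x5, x2, x3, x4, x6, hne, e1, e5, e2, e3, e4, e6⟩ := threea2_elim
      (a 1 5) (a 1 2) (a 1 3) (a 1 4) (a 1 6) (a 2 5) (a 3 5) (a 4 5) (a 5 6)
      (a 2 3) (a 2 4) (a 2 6) (a 3 4) (a 3 6) (a 4 6) h5 (by linear_combination hp)
    refine threea2_wrap a hs ha x1 x2 x3 x4 x5 x6 ?_ (by linear_combination e1)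
      (by linear_combination e2) (by linear_combination e3) (by linear_combination e4)
      (by linear_combination e5) (by linear_combination e6)
    tauto
  by_cases h6 : a 1 6 = 1
  · obtain ⟨x1, x6, x2, x3, x4, x5, hne, e1, e6, e2, e3, e4, e5⟩ := threea2_elim
      (a 1 6) (a 1 2) (a 1 3) (a 1 4) (a 1 5) (a 2 6) (a 3 6) (a 4 6) (a 5 6)
      (a 2 3) (a 2 4) (a 2 5) (a 3 4) (a 3 5) (a 4 5) h6 (by linear_combination hp)
    refine threea2_wrap a hs ha x1 x2 x3 x4 x5 x6 ?_ (by linear_combination e1)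
      (by linear_combination e2) (by linear_combination e3) (by linear_combination e4)
      (by linear_combination e5) (by linear_combination e6)
    tauto
  have z2 := (zmod2_cases (a 1 2)).resolve_right h2
  have z3 := (zmod2_cases (a 1 3)).resolve_right h3
  have z4 := (zmod2_cases (a 1 4)).resolve_right h4
  have z5 := (zmod2_cases (a 1 5)).resolve_right h5
  have z6 := (zmod2_cases (a 1 6)).resolve_right h6
  exact threea2_wrap a hs ha 1 0 0 0 0 0 (Or.inl (by decide)) (by ring)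
    (by rw [z2]; ring) (by rw [z3]; ring) (by rw [z4]; ring) (by rw [z5]; ring)
    (by rw [z6]; ring)

end Pool.Agent.H.MP_694475_co
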