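import Pool.Agent.H.MP_694475_co.TriDef

/-! Rank 6, second case: consequences of the relations. -/

open Finset

namespace Pool.Agent.H.MP_694475_co

/-- the values of the dual form on `1, ..., 6` -/
theorem threeb1_dual {t t' : Fin 9 → Fin 9 → Fin 9 → ZMod 2} (h : RelT t t')
    (h0 : ∀ i j, t 0 i j = std 3 i j) (h1 : t 7 8 1 = 1)
    (hl : ∀ k : Fin 9, k ≠ 1 → t 7 8 k = 0) :
    t' 2 5 6 = 1 ∧ t' 2 3 4 = 1 ∧ t' 1 2 3 = 0 ∧ t' 1 2 4 = 0 ∧ t' 1 2 5 = 0 ∧ t' 1 2 6 = 0 ∧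
    t' 1 3 4 = 0 ∧ t' 1 3 5 = 0 ∧ t' 1 3 6 = 0 ∧ t' 1 4 5 = 0 ∧ t' 1 4 6 = 0 ∧ t' 1 5 6 = 0 ∧
    t' 2 3 5 = 0 ∧ t' 2 3 6 = 0 ∧ t' 2 4 5 = 0 ∧ t' 2 4 6 = 0 ∧
    t' 3 4 5 = 0 ∧ t' 3 4 6 = 0 ∧ t' 3 5 6 = 0 ∧ t' 4 5 6 = 0 := by
  have l2 := hl 2 (by decide)
  have l3 := hl 3 (by decide)
  have l4 := hl 4 (by decide)
  have l5 := hl 5 (by decide)
  have l6 := hl 6 (by decide)
  refine ⟨?_, ?_, ?_, ?_, ?_, ?_, ?_, ?_, ?_, ?_, ?_, ?_, ?_, ?_, ?_, ?_, ?_, ?_, ?_, ?_⟩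
  · rw [h.fwd 2 5 6 0 7 8 1 3 4 (by decide)]; simp [DD, h0, std, h1, l2, l3, l4, l5, l6]
  · rw [h.fwd 2 3 4 0 7 8 1 5 6 (by decide)]; simp [DD, h0, std, h1, l2, l3, l4, l5, l6]
  · rw [h.fwd 1 2 3 0 7 8 4 5 6 (by decide)]; simp [DD, h0, std, h1, l2, l3, l4, l5, l6]
  · rw [h.fwd 1 2 4 0 7 8 3 5 6 (by decide)]; simp [DD, h0, std, h1, l2, l3, l4, l5, l6]
  · rw [h.fwd 1 2 5 0 7 8 3 4 6 (by decide)]; simp [DD, h0, std, h1, l2, l3, l4, l5, l6]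
  · rw [h.fwd 1 2 6 0 7 8 3 4 5 (by decide)]; simp [DD, h0, std, h1, l2, l3, l4, l5, l6]
  · rw [h.fwd 1 3 4 0 7 8 2 5 6 (by decide)]; simp [DD, h0, std, h1, l2, l3, l4, l5, l6]
  · rw [h.fwd 1 3 5 0 7 8 2 4 6 (by decide)]; simp [DD, h0, std, h1, l2, l3, l4, l5, l6]
  · rw [h.fwd 1 3 6 0 7 8 2 4 5 (by decide)]; simp [DD, h0, std, h1, l2, l3, l4, l5, l6]
  · rw [h.fwd 1 4 5 0 7 8 2 3 6 (by decide)]; simp [DD, h0, std, h1, l2, l3, l4, l5, l6]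
  · rw [h.fwd 1 4 6 0 7 8 2 3 5 (by decide)]; simp [DD, h0, std, h1, l2, l3, l4, l5, l6]
  · rw [h.fwd 1 5 6 0 7 8 2 3 4 (by decide)]; simp [DD, h0, std, h1, l2, l3, l4, l5, l6]
  · rw [h.fwd 2 3 5 0 7 8 1 4 6 (by decide)]; simp [DD, h0, std, h1, l2, l3, l4, l5, l6]
  · rw [h.fwd 2 3 6 0 7 8 1 4 5 (by decide)]; simp [DD, h0, std, h1, l2, l3, l4, l5, l6]
  · rw [h.fwd 2 4 5 0 7 8 1 3 6 (by decide)]; simp [DD, h0, std, h1, l2, l3, l4, l5, l6]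
  · rw [h.fwd 2 4 6 0 7 8 1 3 5 (by decide)]; simp [DD, h0, std, h1, l2, l3, l4, l5, l6]
  · rw [h.fwd 3 4 5 0 7 8 1 2 6 (by decide)]; simp [DD, h0, std, h1, l2, l3, l4, l5, l6]
  · rw [h.fwd 3 4 6 0 7 8 1 2 5 (by decide)]; simp [DD, h0, std, h1, l2, l3, l4, l5, l6]
  · rw [h.fwd 3 5 6 0 7 8 1 2 4 (by decide)]; simp [DD, h0, std, h1, l2, l3, l4, l5, l6]
  · rw [h.fwd 4 5 6 0 7 8 1 2 3 (by decide)]; simp [DD, h0, std, h1, l2, l3, l4, l5, l6]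

theorem threeb1_arith : ∀ x y z : ZMod 2, 0 = y + z + (x + z) → x = y := by
  decide

/-- consequences of the relations -/
theorem threeB_rel {t t' : Fin 9 → Fin 9 → Fin 9 → ZMod 2} (h : RelT t t')
    (h0 : ∀ i j, t 0 i j = std 3 i j) (h1 : t 7 8 1 = 1)
    (hl : ∀ k : Fin 9, k ≠ 1 → t 7 8 k = 0) :
    (∀ m : Fin 9, m = 7 ∨ m = 8 → ∀ j : Fin 9, 3 ≤ j → j ≤ 6 → t m 2 j = 0) ∧
    (∀ m : Fin 9, m = 7 ∨ m = 8 → t m 3 4 = t m 5 6) := by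
  obtain ⟨d256, d234, d123, d124, d125, d126, d134, d135, d136, d145, d146, d156, d235, d236,
    d245, d246, d345, d346, d356, d456⟩ := threeb1_dual h h0 h1 hl
  have key : ∀ m m' : Fin 9, (m = 7 ∧ m' = 8) ∨ (m = 8 ∧ m' = 7) →
      (t m 2 3 = 0 ∧ t m 2 4 = 0 ∧ t m 2 5 = 0 ∧ t m 2 6 = 0) ∧ t m 3 4 = t m 5 6 := by
    intro m m' hm
    -- the dual entries
    have e34 : t' m' 3 4 = t m 5 6 + t m 1 2 := by
      have : [m', 3, 4, 0, m, 1, 2, 5, 6].Nodup := by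
        rcases hm with ⟨rfl, rfl⟩ | ⟨rfl, rfl⟩ <;> decide
      rw [h.fwd m' 3 4 0 m 1 2 5 6 this]
      rcases hm with ⟨rfl, rfl⟩ | ⟨rfl, rfl⟩ <;> simp [DD, h0, std]
    have e56 : t' m' 5 6 = t m 3 4 + t m 1 2 := by
      have : [m', 5, 6, 0, m, 1, 2, 3, 4].Nodup := by
        rcases hm with ⟨rfl, rfl⟩ | ⟨rfl, rfl⟩ <;> decide
      rw [h.fwd m' 5 6 0 m 1 2 3 4 this]
      rcases hm with ⟨rfl, rfl⟩ | ⟨rfl, rfl⟩ <;> simp [DD, h0, std]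
    have e14 : t' m' 1 4 = t m 2 3 := by
      have : [m', 1, 4, 0, m, 2, 3, 5, 6].Nodup := by
        rcases hm with ⟨rfl, rfl⟩ | ⟨rfl, rfl⟩ <;> decide
      rw [h.fwd m' 1 4 0 m 2 3 5 6 this]
      rcases hm with ⟨rfl, rfl⟩ | ⟨rfl, rfl⟩ <;> simp [DD, h0, std]
    have e13 : t' m' 1 3 = t m 2 4 := by
      have : [m', 1, 3, 0, m, 2, 4, 5, 6].Nodup := by
        rcases hm with ⟨rfl, rfl⟩ | ⟨rfl, rfl⟩ <;> decide
      rw [h.fwd m' 1 3 0 m 2 4 5 6 this]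
      rcases hm with ⟨rfl, rfl⟩ | ⟨rfl, rfl⟩ <;> simp [DD, h0, std]
    have e16 : t' m' 1 6 = t m 2 5 := by
      have : [m', 1, 6, 0, m, 2, 5, 3, 4].Nodup := by
        rcases hm with ⟨rfl, rfl⟩ | ⟨rfl, rfl⟩ <;> decide
      rw [h.fwd m' 1 6 0 m 2 5 3 4 this]
      rcases hm with ⟨rfl, rfl⟩ | ⟨rfl, rfl⟩ <;> simp [DD, h0, std]
    have e15 : t' m' 1 5 = t m 2 6 := by
      have : [m', 1, 5, 0, m, 2, 6, 3, 4].Nodup := by
        rcases hm with ⟨rfl, rfl⟩ | ⟨rfl, rfl⟩ <;> decide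
      rw [h.fwd m' 1 5 0 m 2 6 3 4 this]
      rcases hm with ⟨rfl, rfl⟩ | ⟨rfl, rfl⟩ <;> simp [DD, h0, std]
    have z1 : t 0 m 1 = 0 := by
      rcases hm with ⟨rfl, rfl⟩ | ⟨rfl, rfl⟩ <;> simp [h0, std]
    have z3 : t 0 m 3 = 0 := by
      rcases hm with ⟨rfl, rfl⟩ | ⟨rfl, rfl⟩ <;> simp [h0, std]
    have z4 : t 0 m 4 = 0 := by
      rcases hm with ⟨rfl, rfl⟩ | ⟨rfl, rfl⟩ <;> simp [h0, std]
    have z5 : t 0 m 5 = 0 := by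
      rcases hm with ⟨rfl, rfl⟩ | ⟨rfl, rfl⟩ <;> simp [h0, std]
    have z6 : t 0 m 6 = 0 := by
      rcases hm with ⟨rfl, rfl⟩ | ⟨rfl, rfl⟩ <;> simp [h0, std]
    have b1 := h.bwd 0 m 1 m' 2 3 4 5 6
      (by rcases hm with ⟨rfl, rfl⟩ | ⟨rfl, rfl⟩ <;> decide)
    have b3 := h.bwd 0 m 3 m' 1 2 4 5 6
      (by rcases hm with ⟨rfl, rfl⟩ | ⟨rfl, rfl⟩ <;> decide)
    have b4 := h.bwd 0 m 4 m' 1 2 3 5 6
      (by rcases hm with ⟨rfl, rfl⟩ | ⟨rfl, rfl⟩ <;> decide)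
    have b5 := h.bwd 0 m 5 m' 1 2 3 4 6
      (by rcases hm with ⟨rfl, rfl⟩ | ⟨rfl, rfl⟩ <;> decide)
    have b6 := h.bwd 0 m 6 m' 1 2 3 4 5
      (by rcases hm with ⟨rfl, rfl⟩ | ⟨rfl, rfl⟩ <;> decide)
    simp only [DD, z1, d256, d234, d123, d124, d125, d126, d134, d135, d136, d145, d146, d156,
      d235, d236, d245, d246, d345, d346, d356, d456, mul_zero, mul_one, add_zero, zero_add]
      at b1
    simp only [DD, z3, d256, d234, d123, d124, d125, d126, d134, d135, d136, d145, d146, d156,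
      d235, d236, d245, d246, d345, d346, d356, d456, mul_zero, mul_one, add_zero, zero_add]
      at b3
    simp only [DD, z4, d256, d234, d123, d124, d125, d126, d134, d135, d136, d145, d146, d156,
      d235, d236, d245, d246, d345, d346, d356, d456, mul_zero, mul_one, add_zero, zero_add]
      at b4
    simp only [DD, z5, d256, d234, d123, d124, d125, d126, d134, d135, d136, d145, d146, d156,
      d235, d236, d245, d246, d345, d346, d356, d456, mul_zero, mul_one, add_zero, zero_add]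
      at b5
    simp only [DD, z6, d256, d234, d123, d124, d125, d126, d134, d135, d136, d145, d146, d156,
      d235, d236, d245, d246, d345, d346, d356, d456, mul_zero, mul_one, add_zero, zero_add]
      at b6
    refine ⟨⟨?_, ?_, ?_, ?_⟩, ?_⟩
    · rw [← e14]; exact b3.symm
    · rw [← e13]; exact b4.symm
    · rw [← e16]; exact b5.symm
    · rw [← e15]; exact b6.symm
    · rw [e34, e56] at b1
      exact threeb1_arith _ _ _ b1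
  refine ⟨?_, ?_⟩
  · intro m hm j hj3 hj6
    have hk : (t m 2 3 = 0 ∧ t m 2 4 = 0 ∧ t m 2 5 = 0 ∧ t m 2 6 = 0) := by
      rcases hm with rfl | rfl
      · exact (key 7 8 (Or.inl ⟨rfl, rfl⟩)).1
      · exact (key 8 7 (Or.inr ⟨rfl, rfl⟩)).1
    have : j = 3 ∨ j = 4 ∨ j = 5 ∨ j = 6 := by
      clear hk
      revert j
      decide
    rcases this with rfl | rfl | rfl | rfl
    · exact hk.1
    · exact hk.2.1
    · exact hk.2.2.1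
    · exact hk.2.2.2
  · intro m hm
    rcases hm with rfl | rfl
    · exact (key 7 8 (Or.inl ⟨rfl, rfl⟩)).2
    · exact (key 8 7 (Or.inr ⟨rfl, rfl⟩)).2

end Pool.Agent.H.MP_694475_co
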