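import Pool.Agent.H.MP_694475_co.PairDef

/-! Alternating trilinear forms on `F_2^9` and the duality relation. -/

open Finset

namespace Pool.Agent.H.MP_694475_co

structure IsTri (T : V → V → V → ZMod 2) : Prop where
  add : ∀ u u' v w, T (u + u') v w = T u v w + T u' v w
  sw12 : ∀ u v w, T u v w = T v u w
  sw23 : ∀ u v w, T u v w = T u w v
  alt : ∀ u w, T u u w = 0

/-- the `10` complementary pairs -/
def DD (t : Fin 9 → Fin 9 → Fin 9 → ZMod 2) (a b c d e f : Fin 9) : ZMod 2 :=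
  t a b c * t d e f + t a b d * t c e f + t a b e * t c d f + t a b f * t c d e
    + t a c d * t b e f + t a c e * t b d f + t a c f * t b d e
    + t a d e * t b c f + t a d f * t b c e + t a e f * t b c d

structure Good (T T' : V → V → V → ZMod 2) : Prop where
  tri : IsTri T
  tri' : IsTri T'
  g1 : ∀ b c, IsDual b c → T' (c 0) (c 1) (c 2) = DD (fun i j k => T (b i) (b j) (b k)) 3 4 5 6 7 8
  g2 : ∀ b c, IsDual b c → T (b 0) (b 1) (b 2) = DD (fun i j k => T' (c i) (c j) (c k)) 3 4 5 6 7 8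
  g3 : ∀ b c, IsDual b c → ∑ p : Fin 9 × Fin 9 with 0 < p.1 ∧ p.1 < p.2,
    T (b 0) (b p.1) (b p.2) * T' (c 0) (c p.1) (c p.2) = 0

/-- relations between the structure constants in dual bases -/
structure RelT (t t' : Fin 9 → Fin 9 → Fin 9 → ZMod 2) : Prop where
  sw12 : ∀ i j k, t i j k = t j i k
  sw23 : ∀ i j k, t i j k = t i k j
  alt : ∀ i k, t i i k = 0
  sw12' : ∀ i j k, t' i j k = t' j i k
  sw23' : ∀ i j k, t' i j k = t' i k j
  alt' : ∀ i k, t' i i k = 0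
  fwd : ∀ i0 i1 i2 i3 i4 i5 i6 i7 i8 : Fin 9, [i0, i1, i2, i3, i4, i5, i6, i7, i8].Nodup →
    t' i0 i1 i2 = DD t i3 i4 i5 i6 i7 i8
  bwd : ∀ i0 i1 i2 i3 i4 i5 i6 i7 i8 : Fin 9, [i0, i1, i2, i3, i4, i5, i6, i7, i8].Nodup →
    t i0 i1 i2 = DD t' i3 i4 i5 i6 i7 i8
  kap : ∑ p : Fin 9 × Fin 9 with 0 < p.1 ∧ p.1 < p.2, t 0 p.1 p.2 * t' 0 p.1 p.2 = 0

theorem Good.rel {T T' : V → V → V → ZMod 2} (h : Good T T') {b c : Fin 9 → V}
    (hbc : IsDual b c) :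
    RelT (fun i j k => T (b i) (b j) (b k)) (fun i j k => T' (c i) (c j) (c k)) := by
  have key : ∀ i0 i1 i2 i3 i4 i5 i6 i7 i8 : Fin 9, [i0, i1, i2, i3, i4, i5, i6, i7, i8].Nodup →
      Function.Injective ![i0, i1, i2, i3, i4, i5, i6, i7, i8] := by
    intro i0 i1 i2 i3 i4 i5 i6 i7 i8 hn
    have := List.nodup_ofFn.mp (by simpa [List.ofFn_succ] using hn : (List.ofFn ![i0, i1, i2, i3, i4, i5, i6, i7, i8]).Nodup)
    exact this
  refine ⟨fun i j k => h.tri.sw12 _ _ _, fun i j k => h.tri.sw23 _ _ _, fun i k => h.tri.alt _ _,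
    fun i j k => h.tri'.sw12 _ _ _, fun i j k => h.tri'.sw23 _ _ _, fun i k => h.tri'.alt _ _,
    ?_, ?_, h.g3 b c hbc⟩
  · intro i0 i1 i2 i3 i4 i5 i6 i7 i8 hn
    have := h.g1 _ _ (hbc.perm _ (key _ _ _ _ _ _ _ _ _ hn))
    exact this
  · intro i0 i1 i2 i3 i4 i5 i6 i7 i8 hn
    have := h.g2 _ _ (hbc.perm _ (key _ _ _ _ _ _ _ _ _ hn))
    exact this

/-- expanded form of `kap` -/
theorem RelT.kap' {t t' : Fin 9 → Fin 9 → Fin 9 → ZMod 2} (h : RelT t t')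
    (hs : ∀ i j : Fin 9, 0 < i → i < j → ¬ ((i = 1 ∧ j = 2) ∨ (i = 3 ∧ j = 4) ∨ (i = 5 ∧ j = 6)) →
      t 0 i j = 0) :
    t 0 1 2 * t' 0 1 2 + t 0 3 4 * t' 0 3 4 + t 0 5 6 * t' 0 5 6 = 0 := by
  have hk := h.kap
  rw [← Finset.sum_subset (s₁ := {((1 : Fin 9), (2 : Fin 9)), (3, 4), (5, 6)}) (by decide)] at hk
  · rw [Finset.sum_insert (by decide), Finset.sum_insert (by decide), Finset.sum_singleton] at hk
    rw [← hk]; ring
  · rintro ⟨i, j⟩ hp hq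
    rw [Finset.mem_filter] at hp
    have : t 0 i j = 0 := by
      apply hs i j hp.2.1 hp.2.2
      rintro (⟨rfl, rfl⟩ | ⟨rfl, rfl⟩ | ⟨rfl, rfl⟩) <;> exact hq (by decide)
    show t 0 i j * t' 0 i j = 0
    rw [this, zero_mul]

/-- standard alternating form of rank `2 h` on `b 0, ..., b 8` (with `b 0` in the radical) -/
def std (h : ℕ) (i j : Fin 9) : ZMod 2 :=
  if (i.val + 1 = j.val ∧ i.val % 2 = 1 ∧ j.val ≤ 2 * h) ∨
     (j.val + 1 = i.val ∧ j.val % 2 = 1 ∧ i.val ≤ 2 * h) then 1 else 0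

/-- normal forms: lists of triples -/
def L1 : List (Fin 9 × Fin 9 × Fin 9) :=
  [(0,1,2), (0,3,4), (1,5,6), (2,7,8), (3,5,7), (4,6,8)]

def L2 : List (Fin 9 × Fin 9 × Fin 9) :=
  [(0,1,2), (0,3,4), (1,5,6), (2,7,8), (3,5,7), (3,6,8), (4,5,8), (4,6,7), (4,6,8)]

/-- the structure constants `T (b i) (b j) (b k)`, `i < j < k`, are given by the list `L` -/
def HasForm (T : V → V → V → ZMod 2) (b : Fin 9 → V) (L : List (Fin 9 × Fin 9 × Fin 9)) : Prop :=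
  ∀ i j k : Fin 9, i < j → j < k → T (b i) (b j) (b k) = if (i, j, k) ∈ L then 1 else 0

end Pool.Agent.H.MP_694475_co
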