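import Pool.Agent.H.MP_694475_co.TriDef

/-! Rank 4. -/

open Finset

set_option linter.unusedSimpArgs false

namespace Pool.Agent.H.MP_694475_co

/-- wedge product of the forms `t i`, `t j` on the indices `5..8` -/
def wd (t : Fin 9 → Fin 9 → Fin 9 → ZMod 2) (i j : Fin 9) : ZMod 2 :=
  t i 5 6 * t j 7 8 + t i 7 8 * t j 5 6 + t i 5 7 * t j 6 8 + t i 6 8 * t j 5 7
    + t i 5 8 * t j 6 7 + t i 6 7 * t j 5 8

theorem two_props {t t' : Fin 9 → Fin 9 → Fin 9 → ZMod 2} (h : RelT t t')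
    (h0 : ∀ i j, t 0 i j = std 2 i j) :
    (t 5 6 7 = 0 ∧ t 5 6 8 = 0 ∧ t 5 7 8 = 0 ∧ t 6 7 8 = 0) ∧
    (wd t 1 2 = 1 ∧ wd t 3 4 = 1 ∧ wd t 1 3 = 0 ∧ wd t 1 4 = 0 ∧ wd t 2 3 = 0 ∧ wd t 2 4 = 0) := by
  have z12 : t 0 1 2 = 1 := by rw [h0]; decide
  have z13 : t 0 1 3 = 0 := by rw [h0]; decide
  have z14 : t 0 1 4 = 0 := by rw [h0]; decide
  have z15 : t 0 1 5 = 0 := by rw [h0]; decide
  have z16 : t 0 1 6 = 0 := by rw [h0]; decide
  have z17 : t 0 1 7 = 0 := by rw [h0]; decide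
  have z18 : t 0 1 8 = 0 := by rw [h0]; decide
  have z23 : t 0 2 3 = 0 := by rw [h0]; decide
  have z24 : t 0 2 4 = 0 := by rw [h0]; decide
  have z25 : t 0 2 5 = 0 := by rw [h0]; decide
  have z26 : t 0 2 6 = 0 := by rw [h0]; decide
  have z27 : t 0 2 7 = 0 := by rw [h0]; decide
  have z28 : t 0 2 8 = 0 := by rw [h0]; decide
  have z34 : t 0 3 4 = 1 := by rw [h0]; decide
  have z35 : t 0 3 5 = 0 := by rw [h0]; decide
  have z36 : t 0 3 6 = 0 := by rw [h0]; decide
  have z37 : t 0 3 7 = 0 := by rw [h0]; decide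
  have z38 : t 0 3 8 = 0 := by rw [h0]; decide
  have z45 : t 0 4 5 = 0 := by rw [h0]; decide
  have z46 : t 0 4 6 = 0 := by rw [h0]; decide
  have z47 : t 0 4 7 = 0 := by rw [h0]; decide
  have z48 : t 0 4 8 = 0 := by rw [h0]; decide
  have z56 : t 0 5 6 = 0 := by rw [h0]; decide
  have z57 : t 0 5 7 = 0 := by rw [h0]; decide
  have z58 : t 0 5 8 = 0 := by rw [h0]; decide
  have z67 : t 0 6 7 = 0 := by rw [h0]; decide
  have z68 : t 0 6 8 = 0 := by rw [h0]; decide
  have z78 : t 0 7 8 = 0 := by rw [h0]; decide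
  have p123 : t' 1 2 3 = 0 := by
    rw [h.fwd 1 2 3 0 4 5 6 7 8 (by decide)]
    simp only [DD, z45, z46, z47, z48, z56, z57, z58, z67, z68, z78, zero_mul, one_mul, zero_add, add_zero]
  have p124 : t' 1 2 4 = 0 := by
    rw [h.fwd 1 2 4 0 3 5 6 7 8 (by decide)]
    simp only [DD, z35, z36, z37, z38, z56, z57, z58, z67, z68, z78, zero_mul, one_mul, zero_add, add_zero]
  have p125 : t' 1 2 5 = t 6 7 8 := by
    rw [h.fwd 1 2 5 0 3 4 6 7 8 (by decide)]
    simp only [DD, z34, z36, z37, z38, z46, z47, z48, z67, z68, z78, zero_mul, one_mul, zero_add, add_zero]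
  have p126 : t' 1 2 6 = t 5 7 8 := by
    rw [h.fwd 1 2 6 0 3 4 5 7 8 (by decide)]
    simp only [DD, z34, z35, z37, z38, z45, z47, z48, z57, z58, z78, zero_mul, one_mul, zero_add, add_zero]
  have p127 : t' 1 2 7 = t 5 6 8 := by
    rw [h.fwd 1 2 7 0 3 4 5 6 8 (by decide)]
    simp only [DD, z34, z35, z36, z38, z45, z46, z48, z56, z58, z68, zero_mul, one_mul, zero_add, add_zero]
  have p128 : t' 1 2 8 = t 5 6 7 := by
    rw [h.fwd 1 2 8 0 3 4 5 6 7 (by decide)]
    simp only [DD, z34, z35, z36, z37, z45, z46, z47, z56, z57, z67, zero_mul, one_mul, zero_add, add_zero]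
  have p134 : t' 1 3 4 = 0 := by
    rw [h.fwd 1 3 4 0 2 5 6 7 8 (by decide)]
    simp only [DD, z25, z26, z27, z28, z56, z57, z58, z67, z68, z78, zero_mul, one_mul, zero_add, add_zero]
  have p135 : t' 1 3 5 = 0 := by
    rw [h.fwd 1 3 5 0 2 4 6 7 8 (by decide)]
    simp only [DD, z24, z26, z27, z28, z46, z47, z48, z67, z68, z78, zero_mul, one_mul, zero_add, add_zero]
  have p136 : t' 1 3 6 = 0 := by
    rw [h.fwd 1 3 6 0 2 4 5 7 8 (by decide)]
    simp only [DD, z24, z25, z27, z28, z45, z47, z48, z57, z58, z78, zero_mul, one_mul, zero_add, add_zero]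
  have p137 : t' 1 3 7 = 0 := by
    rw [h.fwd 1 3 7 0 2 4 5 6 8 (by decide)]
    simp only [DD, z24, z25, z26, z28, z45, z46, z48, z56, z58, z68, zero_mul, one_mul, zero_add, add_zero]
  have p138 : t' 1 3 8 = 0 := by
    rw [h.fwd 1 3 8 0 2 4 5 6 7 (by decide)]
    simp only [DD, z24, z25, z26, z27, z45, z46, z47, z56, z57, z67, zero_mul, one_mul, zero_add, add_zero]
  have p145 : t' 1 4 5 = 0 := by
    rw [h.fwd 1 4 5 0 2 3 6 7 8 (by decide)]
    simp only [DD, z23, z26, z27, z28, z36, z37, z38, z67, z68, z78, zero_mul, one_mul, zero_add, add_zero]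
  have p146 : t' 1 4 6 = 0 := by
    rw [h.fwd 1 4 6 0 2 3 5 7 8 (by decide)]
    simp only [DD, z23, z25, z27, z28, z35, z37, z38, z57, z58, z78, zero_mul, one_mul, zero_add, add_zero]
  have p147 : t' 1 4 7 = 0 := by
    rw [h.fwd 1 4 7 0 2 3 5 6 8 (by decide)]
    simp only [DD, z23, z25, z26, z28, z35, z36, z38, z56, z58, z68, zero_mul, one_mul, zero_add, add_zero]
  have p148 : t' 1 4 8 = 0 := by
    rw [h.fwd 1 4 8 0 2 3 5 6 7 (by decide)]
    simp only [DD, z23, z25, z26, z27, z35, z36, z37, z56, z57, z67, zero_mul, one_mul, zero_add, add_zero]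
  have p156 : t' 1 5 6 = t 2 7 8 := by
    rw [h.fwd 1 5 6 0 2 3 4 7 8 (by decide)]
    simp only [DD, z23, z24, z27, z28, z34, z37, z38, z47, z48, z78, zero_mul, one_mul, zero_add, add_zero]
  have p157 : t' 1 5 7 = t 2 6 8 := by
    rw [h.fwd 1 5 7 0 2 3 4 6 8 (by decide)]
    simp only [DD, z23, z24, z26, z28, z34, z36, z38, z46, z48, z68, zero_mul, one_mul, zero_add, add_zero]
  have p158 : t' 1 5 8 = t 2 6 7 := by
    rw [h.fwd 1 5 8 0 2 3 4 6 7 (by decide)]
    simp only [DD, z23, z24, z26, z27, z34, z36, z37, z46, z47, z67, zero_mul, one_mul, zero_add, add_zero]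
  have p167 : t' 1 6 7 = t 2 5 8 := by
    rw [h.fwd 1 6 7 0 2 3 4 5 8 (by decide)]
    simp only [DD, z23, z24, z25, z28, z34, z35, z38, z45, z48, z58, zero_mul, one_mul, zero_add, add_zero]
  have p168 : t' 1 6 8 = t 2 5 7 := by
    rw [h.fwd 1 6 8 0 2 3 4 5 7 (by decide)]
    simp only [DD, z23, z24, z25, z27, z34, z35, z37, z45, z47, z57, zero_mul, one_mul, zero_add, add_zero]
  have p178 : t' 1 7 8 = t 2 5 6 := by
    rw [h.fwd 1 7 8 0 2 3 4 5 6 (by decide)]
    simp only [DD, z23, z24, z25, z26, z34, z35, z36, z45, z46, z56, zero_mul, one_mul, zero_add, add_zero]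
  have p234 : t' 2 3 4 = 0 := by
    rw [h.fwd 2 3 4 0 1 5 6 7 8 (by decide)]
    simp only [DD, z15, z16, z17, z18, z56, z57, z58, z67, z68, z78, zero_mul, one_mul, zero_add, add_zero]
  have p235 : t' 2 3 5 = 0 := by
    rw [h.fwd 2 3 5 0 1 4 6 7 8 (by decide)]
    simp only [DD, z14, z16, z17, z18, z46, z47, z48, z67, z68, z78, zero_mul, one_mul, zero_add, add_zero]
  have p236 : t' 2 3 6 = 0 := by
    rw [h.fwd 2 3 6 0 1 4 5 7 8 (by decide)]
    simp only [DD, z14, z15, z17, z18, z45, z47, z48, z57, z58, z78, zero_mul, one_mul, zero_add, add_zero]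
  have p237 : t' 2 3 7 = 0 := by
    rw [h.fwd 2 3 7 0 1 4 5 6 8 (by decide)]
    simp only [DD, z14, z15, z16, z18, z45, z46, z48, z56, z58, z68, zero_mul, one_mul, zero_add, add_zero]
  have p238 : t' 2 3 8 = 0 := by
    rw [h.fwd 2 3 8 0 1 4 5 6 7 (by decide)]
    simp only [DD, z14, z15, z16, z17, z45, z46, z47, z56, z57, z67, zero_mul, one_mul, zero_add, add_zero]
  have p245 : t' 2 4 5 = 0 := by
    rw [h.fwd 2 4 5 0 1 3 6 7 8 (by decide)]
    simp only [DD, z13, z16, z17, z18, z36, z37, z38, z67, z68, z78, zero_mul, one_mul, zero_add, add_zero]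
  have p246 : t' 2 4 6 = 0 := by
    rw [h.fwd 2 4 6 0 1 3 5 7 8 (by decide)]
    simp only [DD, z13, z15, z17, z18, z35, z37, z38, z57, z58, z78, zero_mul, one_mul, zero_add, add_zero]
  have p247 : t' 2 4 7 = 0 := by
    rw [h.fwd 2 4 7 0 1 3 5 6 8 (by decide)]
    simp only [DD, z13, z15, z16, z18, z35, z36, z38, z56, z58, z68, zero_mul, one_mul, zero_add, add_zero]
  have p248 : t' 2 4 8 = 0 := by
    rw [h.fwd 2 4 8 0 1 3 5 6 7 (by decide)]
    simp only [DD, z13, z15, z16, z17, z35, z36, z37, z56, z57, z67, zero_mul, one_mul, zero_add, add_zero]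
  have p256 : t' 2 5 6 = t 1 7 8 := by
    rw [h.fwd 2 5 6 0 1 3 4 7 8 (by decide)]
    simp only [DD, z13, z14, z17, z18, z34, z37, z38, z47, z48, z78, zero_mul, one_mul, zero_add, add_zero]
  have p257 : t' 2 5 7 = t 1 6 8 := by
    rw [h.fwd 2 5 7 0 1 3 4 6 8 (by decide)]
    simp only [DD, z13, z14, z16, z18, z34, z36, z38, z46, z48, z68, zero_mul, one_mul, zero_add, add_zero]
  have p258 : t' 2 5 8 = t 1 6 7 := by
    rw [h.fwd 2 5 8 0 1 3 4 6 7 (by decide)]
    simp only [DD, z13, z14, z16, z17, z34, z36, z37, z46, z47, z67, zero_mul, one_mul, zero_add, add_zero]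
  have p267 : t' 2 6 7 = t 1 5 8 := by
    rw [h.fwd 2 6 7 0 1 3 4 5 8 (by decide)]
    simp only [DD, z13, z14, z15, z18, z34, z35, z38, z45, z48, z58, zero_mul, one_mul, zero_add, add_zero]
  have p268 : t' 2 6 8 = t 1 5 7 := by
    rw [h.fwd 2 6 8 0 1 3 4 5 7 (by decide)]
    simp only [DD, z13, z14, z15, z17, z34, z35, z37, z45, z47, z57, zero_mul, one_mul, zero_add, add_zero]
  have p278 : t' 2 7 8 = t 1 5 6 := by
    rw [h.fwd 2 7 8 0 1 3 4 5 6 (by decide)]
    simp only [DD, z13, z14, z15, z16, z34, z35, z36, z45, z46, z56, zero_mul, one_mul, zero_add, add_zero]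
  have p345 : t' 3 4 5 = t 6 7 8 := by
    rw [h.fwd 3 4 5 0 1 2 6 7 8 (by decide)]
    simp only [DD, z12, z16, z17, z18, z26, z27, z28, z67, z68, z78, zero_mul, one_mul, zero_add, add_zero]
  have p346 : t' 3 4 6 = t 5 7 8 := by
    rw [h.fwd 3 4 6 0 1 2 5 7 8 (by decide)]
    simp only [DD, z12, z15, z17, z18, z25, z27, z28, z57, z58, z78, zero_mul, one_mul, zero_add, add_zero]
  have p347 : t' 3 4 7 = t 5 6 8 := by
    rw [h.fwd 3 4 7 0 1 2 5 6 8 (by decide)]
    simp only [DD, z12, z15, z16, z18, z25, z26, z28, z56, z58, z68, zero_mul, one_mul, zero_add, add_zero]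
  have p348 : t' 3 4 8 = t 5 6 7 := by
    rw [h.fwd 3 4 8 0 1 2 5 6 7 (by decide)]
    simp only [DD, z12, z15, z16, z17, z25, z26, z27, z56, z57, z67, zero_mul, one_mul, zero_add, add_zero]
  have p356 : t' 3 5 6 = t 4 7 8 := by
    rw [h.fwd 3 5 6 0 1 2 4 7 8 (by decide)]
    simp only [DD, z12, z14, z17, z18, z24, z27, z28, z47, z48, z78, zero_mul, one_mul, zero_add, add_zero]
  have p357 : t' 3 5 7 = t 4 6 8 := by
    rw [h.fwd 3 5 7 0 1 2 4 6 8 (by decide)]
    simp only [DD, z12, z14, z16, z18, z24, z26, z28, z46, z48, z68, zero_mul, one_mul, zero_add, add_zero]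
  have p358 : t' 3 5 8 = t 4 6 7 := by
    rw [h.fwd 3 5 8 0 1 2 4 6 7 (by decide)]
    simp only [DD, z12, z14, z16, z17, z24, z26, z27, z46, z47, z67, zero_mul, one_mul, zero_add, add_zero]
  have p367 : t' 3 6 7 = t 4 5 8 := by
    rw [h.fwd 3 6 7 0 1 2 4 5 8 (by decide)]
    simp only [DD, z12, z14, z15, z18, z24, z25, z28, z45, z48, z58, zero_mul, one_mul, zero_add, add_zero]
  have p368 : t' 3 6 8 = t 4 5 7 := by
    rw [h.fwd 3 6 8 0 1 2 4 5 7 (by decide)]
    simp only [DD, z12, z14, z15, z17, z24, z25, z27, z45, z47, z57, zero_mul, one_mul, zero_add, add_zero]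
  have p378 : t' 3 7 8 = t 4 5 6 := by
    rw [h.fwd 3 7 8 0 1 2 4 5 6 (by decide)]
    simp only [DD, z12, z14, z15, z16, z24, z25, z26, z45, z46, z56, zero_mul, one_mul, zero_add, add_zero]
  have p456 : t' 4 5 6 = t 3 7 8 := by
    rw [h.fwd 4 5 6 0 1 2 3 7 8 (by decide)]
    simp only [DD, z12, z13, z17, z18, z23, z27, z28, z37, z38, z78, zero_mul, one_mul, zero_add, add_zero]
  have p457 : t' 4 5 7 = t 3 6 8 := by
    rw [h.fwd 4 5 7 0 1 2 3 6 8 (by decide)]
    simp only [DD, z12, z13, z16, z18, z23, z26, z28, z36, z38, z68, zero_mul, one_mul, zero_add, add_zero]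
  have p458 : t' 4 5 8 = t 3 6 7 := by
    rw [h.fwd 4 5 8 0 1 2 3 6 7 (by decide)]
    simp only [DD, z12, z13, z16, z17, z23, z26, z27, z36, z37, z67, zero_mul, one_mul, zero_add, add_zero]
  have p467 : t' 4 6 7 = t 3 5 8 := by
    rw [h.fwd 4 6 7 0 1 2 3 5 8 (by decide)]
    simp only [DD, z12, z13, z15, z18, z23, z25, z28, z35, z38, z58, zero_mul, one_mul, zero_add, add_zero]
  have p468 : t' 4 6 8 = t 3 5 7 := by
    rw [h.fwd 4 6 8 0 1 2 3 5 7 (by decide)]
    simp only [DD, z12, z13, z15, z17, z23, z25, z27, z35, z37, z57, zero_mul, one_mul, zero_add, add_zero]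
  have p478 : t' 4 7 8 = t 3 5 6 := by
    rw [h.fwd 4 7 8 0 1 2 3 5 6 (by decide)]
    simp only [DD, z12, z13, z15, z16, z23, z25, z26, z35, z36, z56, zero_mul, one_mul, zero_add, add_zero]
  have p567 : t' 5 6 7 = t 1 2 8 + t 3 4 8 := by
    rw [h.fwd 5 6 7 0 1 2 3 4 8 (by decide)]
    simp only [DD, z12, z13, z14, z18, z23, z24, z28, z34, z38, z48, zero_mul, one_mul, zero_add, add_zero]
    ring
  have p568 : t' 5 6 8 = t 1 2 7 + t 3 4 7 := by
    rw [h.fwd 5 6 8 0 1 2 3 4 7 (by decide)]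
    simp only [DD, z12, z13, z14, z17, z23, z24, z27, z34, z37, z47, zero_mul, one_mul, zero_add, add_zero]
    ring
  have p578 : t' 5 7 8 = t 1 2 6 + t 3 4 6 := by
    rw [h.fwd 5 7 8 0 1 2 3 4 6 (by decide)]
    simp only [DD, z12, z13, z14, z16, z23, z24, z26, z34, z36, z46, zero_mul, one_mul, zero_add, add_zero]
    ring
  have p678 : t' 6 7 8 = t 1 2 5 + t 3 4 5 := by
    rw [h.fwd 6 7 8 0 1 2 3 4 5 (by decide)]
    simp only [DD, z12, z13, z14, z15, z23, z24, z25, z34, z35, z45, zero_mul, one_mul, zero_add, add_zero]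
    ring
  have q12 : (1 : ZMod 2) = DD t' 3 4 5 6 7 8 := by
    rw [← h.bwd 0 1 2 3 4 5 6 7 8 (by decide), z12]
  simp only [DD, p345, p346, p347, p348, p356, p357, p358, p367, p368, p378, p456, p457, p458, p467, p468, p478, p567, p568, p578, p678, zero_mul, mul_zero, zero_add, add_zero] at q12
  have q13 : (0 : ZMod 2) = DD t' 2 4 5 6 7 8 := by
    rw [← h.bwd 0 1 3 2 4 5 6 7 8 (by decide), z13]
  simp only [DD, p245, p246, p247, p248, p256, p257, p258, p267, p268, p278, p456, p457, p458, p467, p468, p478, p567, p568, p578, p678, zero_mul, mul_zero, zero_add, add_zero] at q13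
  have q14 : (0 : ZMod 2) = DD t' 2 3 5 6 7 8 := by
    rw [← h.bwd 0 1 4 2 3 5 6 7 8 (by decide), z14]
  simp only [DD, p235, p236, p237, p238, p256, p257, p258, p267, p268, p278, p356, p357, p358, p367, p368, p378, p567, p568, p578, p678, zero_mul, mul_zero, zero_add, add_zero] at q14
  have q15 : (0 : ZMod 2) = DD t' 2 3 4 6 7 8 := by
    rw [← h.bwd 0 1 5 2 3 4 6 7 8 (by decide), z15]
  simp only [DD, p234, p236, p237, p238, p246, p247, p248, p267, p268, p278, p346, p347, p348, p367, p368, p378, p467, p468, p478, p678, zero_mul, mul_zero, zero_add, add_zero] at q15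
  have q16 : (0 : ZMod 2) = DD t' 2 3 4 5 7 8 := by
    rw [← h.bwd 0 1 6 2 3 4 5 7 8 (by decide), z16]
  simp only [DD, p234, p235, p237, p238, p245, p247, p248, p257, p258, p278, p345, p347, p348, p357, p358, p378, p457, p458, p478, p578, zero_mul, mul_zero, zero_add, add_zero] at q16
  have q17 : (0 : ZMod 2) = DD t' 2 3 4 5 6 8 := by
    rw [← h.bwd 0 1 7 2 3 4 5 6 8 (by decide), z17]
  simp only [DD, p234, p235, p236, p238, p245, p246, p248, p256, p258, p268, p345, p346, p348, p356, p358, p368, p456, p458, p468, p568, zero_mul, mul_zero, zero_add, add_zero] at q17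
  have q18 : (0 : ZMod 2) = DD t' 2 3 4 5 6 7 := by
    rw [← h.bwd 0 1 8 2 3 4 5 6 7 (by decide), z18]
  simp only [DD, p234, p235, p236, p237, p245, p246, p247, p256, p257, p267, p345, p346, p347, p356, p357, p367, p456, p457, p467, p567, zero_mul, mul_zero, zero_add, add_zero] at q18
  have q23 : (0 : ZMod 2) = DD t' 1 4 5 6 7 8 := by
    rw [← h.bwd 0 2 3 1 4 5 6 7 8 (by decide), z23]
  simp only [DD, p145, p146, p147, p148, p156, p157, p158, p167, p168, p178, p456, p457, p458, p467, p468, p478, p567, p568, p578, p678, zero_mul, mul_zero, zero_add, add_zero] at q23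
  have q24 : (0 : ZMod 2) = DD t' 1 3 5 6 7 8 := by
    rw [← h.bwd 0 2 4 1 3 5 6 7 8 (by decide), z24]
  simp only [DD, p135, p136, p137, p138, p156, p157, p158, p167, p168, p178, p356, p357, p358, p367, p368, p378, p567, p568, p578, p678, zero_mul, mul_zero, zero_add, add_zero] at q24
  have q25 : (0 : ZMod 2) = DD t' 1 3 4 6 7 8 := by
    rw [← h.bwd 0 2 5 1 3 4 6 7 8 (by decide), z25]
  simp only [DD, p134, p136, p137, p138, p146, p147, p148, p167, p168, p178, p346, p347, p348, p367, p368, p378, p467, p468, p478, p678, zero_mul, mul_zero, zero_add, add_zero] at q25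
  have q26 : (0 : ZMod 2) = DD t' 1 3 4 5 7 8 := by
    rw [← h.bwd 0 2 6 1 3 4 5 7 8 (by decide), z26]
  simp only [DD, p134, p135, p137, p138, p145, p147, p148, p157, p158, p178, p345, p347, p348, p357, p358, p378, p457, p458, p478, p578, zero_mul, mul_zero, zero_add, add_zero] at q26
  have q27 : (0 : ZMod 2) = DD t' 1 3 4 5 6 8 := by
    rw [← h.bwd 0 2 7 1 3 4 5 6 8 (by decide), z27]
  simp only [DD, p134, p135, p136, p138, p145, p146, p148, p156, p158, p168, p345, p346, p348, p356, p358, p368, p456, p458, p468, p568, zero_mul, mul_zero, zero_add, add_zero] at q27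
  have q28 : (0 : ZMod 2) = DD t' 1 3 4 5 6 7 := by
    rw [← h.bwd 0 2 8 1 3 4 5 6 7 (by decide), z28]
  simp only [DD, p134, p135, p136, p137, p145, p146, p147, p156, p157, p167, p345, p346, p347, p356, p357, p367, p456, p457, p467, p567, zero_mul, mul_zero, zero_add, add_zero] at q28
  have q34 : (1 : ZMod 2) = DD t' 1 2 5 6 7 8 := by
    rw [← h.bwd 0 3 4 1 2 5 6 7 8 (by decide), z34]
  simp only [DD, p125, p126, p127, p128, p156, p157, p158, p167, p168, p178, p256, p257, p258, p267, p268, p278, p567, p568, p578, p678, zero_mul, mul_zero, zero_add, add_zero] at q34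

  have r12 : t' 0 1 2 = DD t 3 4 5 6 7 8 := h.fwd 0 1 2 3 4 5 6 7 8 (by decide)
  have r34 : t' 0 3 4 = DD t 1 2 5 6 7 8 := h.fwd 0 3 4 1 2 5 6 7 8 (by decide)
  have r56 : t 0 5 6 = 0 := z56
  have kk : t 0 1 2 * t' 0 1 2 + t 0 3 4 * t' 0 3 4 + t 0 5 6 * t' 0 5 6 = 0 := by
    apply h.kap'
    intro i j hi hij hn
    rw [h0]
    revert i j
    decide
  rw [z12, z34, z56, one_mul, one_mul, zero_mul, add_zero, r12, r34] at kk
  simp only [DD] at kk
  have two : (2 : ZMod 2) = 0 := by decide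
  have hw12 : wd t 1 2 = 1 := by
    unfold wd
    linear_combination kk + q12 - two
  have hw34 : wd t 3 4 = 1 := by
    unfold wd
    linear_combination kk + q34 - two
  have hw := hw12
  unfold wd at hw
  refine ⟨⟨?_, ?_, ?_, ?_⟩, hw12, hw34, ?_, ?_, ?_, ?_⟩
  · linear_combination (-(t 5 6 7)) * hw - t 2 6 7 * q15 - t 1 6 7 * q25 - t 2 5 7 * q16
      - t 1 5 7 * q26 - t 2 5 6 * q17 - t 1 5 6 * q27
      - (t 5 6 8 * (t 1 5 7 * t 2 6 7 + t 2 5 7 * t 1 6 7)
        + t 5 7 8 * (t 1 5 6 * t 2 6 7 + t 2 5 6 * t 1 6 7)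
        + t 6 7 8 * (t 1 5 6 * t 2 5 7 + t 2 5 6 * t 1 5 7)) * two
  · linear_combination (-(t 5 6 8)) * hw - t 2 6 8 * q15 - t 1 6 8 * q25 - t 2 5 8 * q16
      - t 1 5 8 * q26 - t 2 5 6 * q18 - t 1 5 6 * q28
      - (t 5 6 7 * (t 1 5 8 * t 2 6 8 + t 2 5 8 * t 1 6 8)
        + t 5 7 8 * (t 1 5 6 * t 2 6 8 + t 2 5 6 * t 1 6 8)
        + t 6 7 8 * (t 1 5 6 * t 2 5 8 + t 2 5 6 * t 1 5 8)) * two
  · linear_combination (-(t 5 7 8)) * hw - t 2 7 8 * q15 - t 1 7 8 * q25 - t 2 5 8 * q17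
      - t 1 5 8 * q27 - t 2 5 7 * q18 - t 1 5 7 * q28
      - (t 5 6 7 * (t 1 5 8 * t 2 7 8 + t 2 5 8 * t 1 7 8)
        + t 5 6 8 * (t 1 5 7 * t 2 7 8 + t 2 5 7 * t 1 7 8)
        + t 6 7 8 * (t 1 5 7 * t 2 5 8 + t 2 5 7 * t 1 5 8)) * two
  · linear_combination (-(t 6 7 8)) * hw - t 2 7 8 * q16 - t 1 7 8 * q26 - t 2 6 8 * q17
      - t 1 6 8 * q27 - t 2 6 7 * q18 - t 1 6 7 * q28
      - (t 5 6 7 * (t 1 6 8 * t 2 7 8 + t 2 6 8 * t 1 7 8)
        + t 5 6 8 * (t 1 6 7 * t 2 7 8 + t 2 6 7 * t 1 7 8)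
        + t 5 7 8 * (t 1 6 7 * t 2 6 8 + t 2 6 7 * t 1 6 8)) * two
  · unfold wd
    linear_combination -q13
  · unfold wd
    linear_combination -q14
  · unfold wd
    linear_combination -q23
  · unfold wd
    linear_combination -q24

end Pool.Agent.H.MP_694475_co
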