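import Pool.Agent.H.MP_694475_co.UBQuad

set_option autoImplicit false

namespace Pool.Agent.H.MP_694475_co

open Finset

lemma vcard (n : ℕ) : (Fintype.card (V n) : ℤ) = 2 ^ n := by simp [V]

lemma parseval {n : ℕ} (F : V n → ℤ) (hF : ∀ x, F x = 1 ∨ F x = -1) :
    ∑ a, W F a ^ 2 = 4 ^ n := by
  have hFF : ∀ x, F x * F x = 1 := by
    intro x; rcases hF x with h | h <;> rw [h] <;> norm_num
  have := W_corr F hFF 0
  simp only [add_zero, if_true] at this
  simp_rw [pow_two]
  exact this

/-- Case B: all Walsh values are congruent to four modulo eight. -/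
lemma caseB {n : ℕ} (hn : Odd n) (hn5 : 5 ≤ n) (F : V n → ℤ) (hF : ∀ x, F x = 1 ∨ F x = -1)
    (M : ℤ) (hM : ∀ a, |W F a| ≤ M) (hM8 : M % 8 = 4) (hW : ∀ a, W F a % 8 = 4) :
    (2:ℤ) ^ n + 4 ≤ (M - 2) ^ 2 := by
  have hM0 : 0 < M := by
    have h1 := abs_nonneg (W F 0)
    have h2 := hM 0
    omega
  set k : V n → ℤ := fun a => (W F a - 4) / 8 with hk
  have hWk : ∀ a, W F a = 4 + 8 * k a := by
    intro a
    have := hW a
    simp only [hk]
    omega
  set t : V n → ZMod 2 := fun a => (k a : ZMod 2) with ht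
  have hq : IsQuad t := by
    intro a h1 h2 h3
    have h := par3 (by omega) F hF a h1 h2 h3
    simp only [hWk] at h
    have h2' : (2:ℤ) ∣ k a + k (a + h1) + k (a + h2) + k (a + h3) + k (a + h1 + h2)
      + k (a + h1 + h3) + k (a + h2 + h3) + k (a + h1 + h2 + h3) := by omega
    have h3' := (ZMod.intCast_zmod_eq_zero_iff_dvd _ 2).2 (by exact_mod_cast h2')
    simp only [ht]
    push_cast at h3'
    exact h3'
  -- the constant
  obtain ⟨c, hc⟩ : ∃ c : ZMod 2, ∀ a, sgn (t a + c) * W F a % 16 = M % 16 := by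
    by_cases hM16 : M % 16 = 4
    · refine ⟨0, fun a => ?_⟩
      rw [add_zero]
      rcases sgn_intCast (k a) with ⟨h1, h2⟩ | ⟨h1, h2⟩
      · simp only [ht]; rw [h2, hWk a]; omega
      · simp only [ht]; rw [h2, hWk a]; omega
    · refine ⟨1, fun a => ?_⟩
      rw [sgn_add, sgn_one]
      rcases sgn_intCast (k a) with ⟨h1, h2⟩ | ⟨h1, h2⟩
      · simp only [ht]; rw [h2, hWk a]; omega
      · simp only [ht]; rw [h2, hWk a]; omega
  have hq' : IsQuad (fun a => t a + c) := hq.add (isQuad_const c)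
  have hcorr := corr_quad hn F hF hq' M hM0 hM
  have hpt : ∀ a, W F a ^ 2 ≤ M ^ 2 - 8 * M + 8 * (W F a * sgn (t a + c)) := by
    intro a
    have h1 := abs_le.1 (hM a)
    have h2 := hc a
    rcases sgn_eq (t a + c) with h | h
    · rw [h] at h2 ⊢
      have h3 : -(M - 8) ≤ W F a := by omega
      nlinarith [mul_nonneg (sub_nonneg.2 h1.2) (sub_nonneg.2 h3)]
    · rw [h] at h2 ⊢
      have h3 : W F a ≤ M - 8 := by omega
      nlinarith [mul_nonneg (sub_nonneg.2 h1.1) (sub_nonneg.2 h3)]
  have hsum := Finset.sum_le_sum (fun a (_ : a ∈ (Finset.univ : Finset (V n))) => hpt a)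
  rw [parseval F hF, Finset.sum_add_distrib, ← Finset.mul_sum] at hsum
  simp only [Finset.sum_const, Finset.card_univ, nsmul_eq_mul] at hsum
  rw [vcard] at hsum
  have h4 : (4:ℤ) ^ n = 2 ^ n * 2 ^ n := by rw [← mul_pow]; norm_num
  rw [h4] at hsum
  have hT : (0:ℤ) < 2 ^ n := by positivity
  nlinarith

/-- Case A: all Walsh values are divisible by four. -/
lemma caseA {n : ℕ} (hn : Odd n) (hn5 : 5 ≤ n) (F : V n → ℤ) (hF : ∀ x, F x = 1 ∨ F x = -1)
    (M : ℤ) (hM : ∀ a, |W F a| ≤ M) (hM8 : M % 8 = 4) (hW : ∀ a, W F a % 4 = 0) :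
    (2:ℤ) ^ n ≤ (M - 2) ^ 2 + 4 := by
  have hM0 : 0 < M := by
    have h1 := abs_nonneg (W F 0)
    have h2 := hM 0
    omega
  have h4 : (4:ℤ) ^ n = 2 ^ n * 2 ^ n := by rw [← mul_pow]; norm_num
  have hT : (0:ℤ) < 2 ^ n := by positivity
  by_cases h0 : ∃ a, W F a % 8 = 0
  · by_cases h1 : ∃ a, W F a % 8 = 4
    · obtain ⟨a0, ha0⟩ := h0
      obtain ⟨a1, ha1⟩ := h1
      set h := a0 + a1 with hh
      have hshift : ∀ a, (W F a + W F (a + h)) % 8 = 4 := by
        intro a
        have e := par2 (by omega) F hF a0 h (a + a0)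
        have e1 : a0 + h = a1 := by rw [hh, ← add_assoc, vadd_self, zero_add]
        have e2 : a0 + (a + a0) = a := by
          rw [add_comm a a0, ← add_assoc, vadd_self, zero_add]
        have e3 : a0 + h + (a + a0) = a + h := by
          rw [e1, hh]; abel
        rw [e3, e1, e2] at e
        have h4a := hW a
        have h4b := hW (a + h)
        omega
      have hpt : ∀ a, W F a ^ 2 + W F (a + h) ^ 2 ≤ M ^ 2 + (M - 4) ^ 2 := by
        intro a
        have b1 := abs_le.1 (hM a)
        have b2 := abs_le.1 (hM (a + h))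
        have e := hshift a
        have h4a := hW a
        have h4b := hW (a + h)
        rcases (by omega : W F a % 8 = 0 ∨ W F (a + h) % 8 = 0) with g | g
        · have g1 : W F a ≤ M - 4 := by omega
          have g2 : -(M - 4) ≤ W F a := by omega
          have g3 : W F a ^ 2 ≤ (M - 4) ^ 2 := by nlinarith
          have g4 : W F (a + h) ^ 2 ≤ M ^ 2 := by nlinarith
          linarith
        · have g1 : W F (a + h) ≤ M - 4 := by omega
          have g2 : -(M - 4) ≤ W F (a + h) := by omega
          have g3 : W F (a + h) ^ 2 ≤ (M - 4) ^ 2 := by nlinarith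
          have g4 : W F a ^ 2 ≤ M ^ 2 := by nlinarith
          linarith
      have hsum := Finset.sum_le_sum (fun a (_ : a ∈ (Finset.univ : Finset (V n))) => hpt a)
      rw [Finset.sum_add_distrib] at hsum
      have h2 : ∑ a : V n, W F (a + h) ^ 2 = ∑ a : V n, W F a ^ 2 :=
        Equiv.sum_comp (Equiv.addRight h) (fun a => W F a ^ 2)
      rw [h2, parseval F hF] at hsum
      simp only [Finset.sum_const, Finset.card_univ, nsmul_eq_mul] at hsum
      rw [vcard, h4] at hsum
      nlinarith
    · -- all divisible by eight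
      have hall : ∀ a, W F a % 8 = 0 := by
        intro a
        have := hW a
        have h2 : ¬ W F a % 8 = 4 := fun hh => h1 ⟨a, hh⟩
        omega
      have hpt : ∀ a, W F a ^ 2 ≤ (M - 4) ^ 2 := by
        intro a
        have b1 := abs_le.1 (hM a)
        have e := hall a
        have g1 : W F a ≤ M - 4 := by omega
        have g2 : -(M - 4) ≤ W F a := by omega
        nlinarith
      have hsum := Finset.sum_le_sum (fun a (_ : a ∈ (Finset.univ : Finset (V n))) => hpt a)
      rw [parseval F hF] at hsum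
      simp only [Finset.sum_const, Finset.card_univ, nsmul_eq_mul] at hsum
      rw [vcard, h4] at hsum
      have h5 : (2:ℤ) ^ n ≤ (M - 4) ^ 2 := le_of_mul_le_mul_left hsum hT
      have h6 : 4 ≤ M := by omega
      nlinarith
  · have hall : ∀ a, W F a % 8 = 4 := by
      intro a
      have := hW a
      have h2 : ¬ W F a % 8 = 0 := fun hh => h0 ⟨a, hh⟩
      omega
    have := caseB hn hn5 F hF M hM hM8 hall
    linarith

end Pool.Agent.H.MP_694475_co
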